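import Pool.Agent.LibHPF.Defs

/-! # Row P1: from the Hilbert property to points of algebras

Plan. Copy the proof of `hilbertProp_of_embedding` (LibHP/S1b.lean, last 100 lines) and replace the
call of `exists_point_of_hom` by the hypothesis `H`, applied to `A := Γ(X, W)` with the algebra
structure `(toSec f W).toAlgebra` over `k` and the germ map to the function field
(`functionField_isFractionRing_of_isAffineOpen X W hW` is the fraction ring property, the `IsDomain`
instance comes from `[Nonempty W]`, integrally closed is `hWc`). The hypothesis on `F` there is not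
needed any more: `hPz` of `exists_poly` says exactly that `P i` has no root in the function field. -/

set_option autoImplicit false
open AlgebraicGeometry CategoryTheory

namespace Pool.Agent.LibHP

theorem P1_germ {k : Type} [Field k] {X : Scheme} (f : X ⟶ Spec (CommRingCat.of k))
    [IsIntegral X] (W : X.Opens) (h1 : genericPoint X ∈ W) :
    f.appLE ⊤ W le_top ≫ X.presheaf.germ W _ h1 = f.appTop ≫ X.presheaf.germ ⊤ _ trivial := by
  rw [Scheme.Hom.appLE, Category.assoc, TopCat.Presheaf.germ_res]
  rfl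

theorem hilbertProp_of_points (k : Type) [Field k] [NumberField k] {X : Scheme}
    (f : X ⟶ Spec (CommRingCat.of k)) [IsIntegral X] [Smooth f]
    (H : ∀ (A : Type) [CommRing A] [IsDomain A] [IsIntegrallyClosed A] [Algebra k A]
      [Algebra.FiniteType k A] [Algebra A X.functionField] [IsFractionRing A X.functionField],
      (∀ c : k, algebraMap A X.functionField (algebraMap k A c) =
        toStalk f (genericPoint X) c) →
      ∀ (ι : Type) [Finite ι] (P : ι → Polynomial A), (∀ i, (P i).Monic) →
        (∀ i, ∀ z : X.functionField, (P i).eval₂ (algebraMap A X.functionField) z ≠ 0) →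
        ∃ φ : A →ₐ[k] k, ∀ i, ∀ x : k, ¬ ((P i).map (φ : A →+* k)).IsRoot x) :
    HilbertProp f := by
  intro m Y π hY hfin hsurj hiso
  rw [dense_iff_inter_open]
  rintro U hUo ⟨x, hxU⟩
  -- normality
  have hnorm : ∀ x : X, ∃ V : X.Opens, IsAffineOpen V ∧ x ∈ V ∧ IsIntegrallyClosed Γ(X, V) := by
    intro x
    obtain ⟨V, hV, hxV, d, ψ, hψ⟩ := exists_etale_chart f x
    refine ⟨V, hV, hxV, ?_⟩
    have hne : Nonempty V := ⟨⟨_, hxV⟩⟩
    let _ := ψ.toAlgebra
    have : Algebra.Etale (MvPolynomial (Fin d) k) Γ(X, V) := hψ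
    exact isIntegrallyClosed_of_etale k d Γ(X, V)
  obtain ⟨V, hV, hxV, hVc⟩ := hnorm x
  obtain ⟨g, hgU, hxg⟩ := hV.exists_basicOpen_le (V := ⟨U, hUo⟩) ⟨x, hxU⟩ hxV
  have hW : IsAffineOpen (X.basicOpen g) := hV.basicOpen g
  have hneV : Nonempty V := ⟨⟨_, hxV⟩⟩
  have hneW : Nonempty (X.basicOpen g) := ⟨⟨_, hxg⟩⟩
  have hWc : IsIntegrallyClosed Γ(X, X.basicOpen g) := by
    have := hV.isLocalization_basicOpen g
    refine isIntegrallyClosed_of_isLocalization (R := Γ(X, V)) _ (Submonoid.powers g) ?_
    refine powers_le_nonZeroDivisors_of_noZeroDivisors ?_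
    rintro rfl
    simp at hxg
  generalize X.basicOpen g = W at hgU hxg hW hneW hWc
  clear hneV hVc hxV hV g V
  have h1 : genericPoint X ∈ W := genericPoint_mem W x hxg
  -- equations
  have hP : ∀ i, ∃ (P : Polynomial Γ(X, W)) (b : Γ(Y i, π i ⁻¹ᵁ W)), P.Monic ∧
      P.eval₂ ((π i).app W).hom b = 0 ∧
      ∀ z : X.functionField, P.eval₂ (X.presheaf.germ W _ h1).hom z ≠ 0 := by
    intro i
    have := hY i
    have := hfin i
    have := hsurj i
    exact exists_poly (π i) hnorm (hiso i) W hW h1 hWc
  choose P b hPm hPb hPz using hP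
  -- the algebra
  let _ : Algebra k Γ(X, W) := (toSec f W).toAlgebra
  have hft : Algebra.FiniteType k Γ(X, W) := by
    have h2 : (toSec f W).FiniteType := by
      refine RingHom.FiniteType.comp (g := (f.appLE ⊤ W le_top).hom)
        (f.finiteType_appLE (isAffineOpen_top _) hW le_top) ?_
      exact RingHom.FiniteType.of_surjective _
        ((ConcreteCategory.isIso_iff_bijective
          (Scheme.ΓSpecIso (CommRingCat.of k)).inv).mp inferInstance).2
    exact h2
  have hfr : IsFractionRing Γ(X, W) X.functionField :=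
    functionField_isFractionRing_of_isAffineOpen X W hW
  have hcomm : ∀ c : k, algebraMap Γ(X, W) X.functionField (algebraMap k Γ(X, W) c) =
      toStalk f (genericPoint X) c := by
    intro c
    change X.presheaf.germ W _ h1 (toSec f W c) = toStalk f _ c
    exact congrArg (fun q => q ((Scheme.ΓSpecIso (CommRingCat.of k)).inv c)) (P1_germ f W h1)
  obtain ⟨φ, hφ⟩ := H Γ(X, W) hcomm _ P hPm (fun i z => hPz i z)
  -- the point
  refine ⟨(Spec.map (CommRingCat.ofHom (φ : Γ(X, W) →+* k)) ≫ hW.fromSpec :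
    Spec (CommRingCat.of k) ⟶ X) (IsLocalRing.closedPoint k), ?_, ?_⟩
  · apply hgU
    have h4 := preimage_eq_top W hW (φ : Γ(X, W) →+* k)
    have h5 : (IsLocalRing.closedPoint k) ∈
      (Spec.map (CommRingCat.ofHom (φ : Γ(X, W) →+* k)) ≫ hW.fromSpec :
        Spec (CommRingCat.of k) ⟶ X) ⁻¹ᵁ W := by
      rw [h4]; trivial
    exact h5
  · refine ⟨_, point_comp f W hW (φ : Γ(X, W) →+* k) (fun c => φ.commutes c), ⟨_, rfl⟩, ?_⟩
    intro i t ht
    obtain ⟨τ, hτ⟩ := exists_lift_of_point (π i) W hW (φ : Γ(X, W) →+* k) t ht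
    apply hφ i (τ (b i))
    rw [Polynomial.IsRoot.def, Polynomial.eval_map, ← hτ, ← Polynomial.hom_eval₂, hPb i, map_zero]

end Pool.Agent.LibHP
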