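import Pool.Agent.LibHPF.Defs
import Pool.Agent.LibHP2.A1

/-! # Row P3b: `Mbar(u)` is normal over `M(u)`

Plan. `letI := (rfmap (algebraMap M (AlgebraicClosure M)) r).toAlgebra : Algebra (RF M r)
(RF (AlgebraicClosure M) r)`. Let `S` be the range of `AlgebraicClosure M → RF (AlgebraicClosure M) r`
(constants). For `x = c ∈ S`: `c` is a root of the image of `minpoly M c0`, which is nonzero monic and
splits already over `AlgebraicClosure M`; so `x` is integral over `RF M r` and its minimal polynomial
divides the image of `minpoly M c0`, hence splits (`Polynomial.Splits.of_dvd` and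
`Polynomial.Splits.map`; here one needs `rfmap F r (algebraMap _ _ (MvPolynomial.C c)) =
algebraMap _ _ (C (F c))`, from `IsFractionRing.lift_algebraMap`; the commutative square
`M → RF M r → RF Mbar r` = `M → Mbar → RF Mbar r`). The field generated by `S` over `RF M r` is
everything: `IntermediateField.adjoin (RF M r) S = ⊤`: it contains the image of every polynomial over
`AlgebraicClosure M` (`MvPolynomial.induction_on`; `X i` is the image of `X i`), hence all fractions
(`IsFractionRing.div_surjective`). Conclude with
`IntermediateField.splits_of_mem_adjoin` (Mathlib.FieldTheory.Normal.Basic) that the minimal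
polynomial of every `z` splits. For an irreducible monic `q` over `RF M r` with a root `z`:
`minpoly (RF M r) z = q` (`minpoly.eq_of_irreducible_of_monic`). -/

set_option autoImplicit false
open Polynomial

namespace Pool.Agent.LibHP

theorem P3b_core {k E : Type} [Field k] [Field E] (ρ : k →+* E) (S : Set E)
    (hS : ∀ x ∈ S, ∃ P : k[X], P.Monic ∧ P.eval₂ ρ x = 0 ∧ (P.map ρ).Splits)
    (hgen : ∀ K : Subfield E, (∀ a, ρ a ∈ K) → S ⊆ K → ∀ z, z ∈ K)
    (q : k[X]) (hm : q.Monic) (hq : Irreducible q) (z : E) (hz : q.eval₂ ρ z = 0) :
    (q.map ρ).Splits := by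
  let _ : Algebra k E := ρ.toAlgebra
  have h1 : ∀ x ∈ S, IsIntegral k x ∧ ((minpoly k x).map (algebraMap k E)).Splits := by
    intro x hx
    obtain ⟨P, hP1, hP2, hP3⟩ := hS x hx
    refine ⟨⟨P, hP1, hP2⟩, ?_⟩
    refine Polynomial.Splits.of_dvd hP3 ?_ ?_
    · exact (Polynomial.map_ne_zero_iff ρ.injective).2 hP1.ne_zero
    · exact Polynomial.map_dvd ρ (minpoly.dvd k x hP2)
  have h2 : z ∈ IntermediateField.adjoin k S := by
    refine hgen (IntermediateField.adjoin k S).toSubfield (fun a => ?_)
      (IntermediateField.subset_adjoin k S) z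
    exact (IntermediateField.adjoin k S).algebraMap_mem a
  have h3 := IntermediateField.splits_of_mem_adjoin k E (L := E) (splits := h1) h2
  have h4 : minpoly k z = q := (minpoly.eq_of_irreducible_of_monic hq hz hm).symm
  rw [h4] at h3
  exact h3

theorem splits_of_root_rf (M : Type) [Field M] (r : ℕ) (q : (RF M r)[X]) (hm : q.Monic)
    (hq : Irreducible q) (z : RF (AlgebraicClosure M) r)
    (hz : q.eval₂ (rfmap (algebraMap M (AlgebraicClosure M)) r) z = 0) :
    (q.map (rfmap (algebraMap M (AlgebraicClosure M)) r)).Splits := by
  refine P3b_core (rfmap (algebraMap M (AlgebraicClosure M)) r)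
    (Set.range fun c : AlgebraicClosure M =>
      algebraMap (AlgebraicClosure M) (RF (AlgebraicClosure M) r) c) ?_ ?_ q hm hq z hz
  · rintro _ ⟨c, rfl⟩
    have hc : IsIntegral M c := Algebra.IsIntegral.isIntegral c
    have hcomp : (rfmap (algebraMap M (AlgebraicClosure M)) r).comp (algebraMap M (RF M r)) =
        (algebraMap (AlgebraicClosure M) (RF (AlgebraicClosure M) r)).comp
          (algebraMap M (AlgebraicClosure M)) := by
      refine RingHom.ext fun a => ?_
      exact rfmap_const _ a
    refine ⟨(minpoly M c).map (algebraMap M (RF M r)), (minpoly.monic hc).map _, ?_, ?_⟩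
    · rw [eval₂_map, hcomp, ← Polynomial.hom_eval₂]
      have h1 : eval₂ (algebraMap M (AlgebraicClosure M)) c (minpoly M c) = 0 := minpoly.aeval M c
      rw [h1, map_zero]
    · rw [Polynomial.map_map, hcomp, ← Polynomial.map_map]
      exact (IsAlgClosed.splits _).map _
  · intro K hK1 hK2 z
    have hp : ∀ p : MvPolynomial (Fin r) (AlgebraicClosure M),
        algebraMap (MvPolynomial (Fin r) (AlgebraicClosure M)) (RF (AlgebraicClosure M) r) p ∈
          K := by
      intro p
      induction p using MvPolynomial.induction_on with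
      | C c =>
        have h1 := hK2 ⟨c, rfl⟩
        rw [← A1_const]
        exact h1
      | add p q hp hq =>
        rw [map_add]
        exact K.add_mem hp hq
      | mul_X p i hp =>
        rw [map_mul]
        refine K.mul_mem hp ?_
        have h1 := hK1 (algebraMap (MvPolynomial (Fin r) M) (RF M r) (MvPolynomial.X i))
        rw [rfmap_algebraMap, MvPolynomial.map_X] at h1
        exact h1
    obtain ⟨a, b, -, rfl⟩ := IsFractionRing.div_surjective
      (A := MvPolynomial (Fin r) (AlgebraicClosure M)) z
    exact K.div_mem (hp a) (hp b)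

end Pool.Agent.LibHP
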