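import Pool.Agent.LibHPF.P3a
import Pool.Agent.LibHPF.P3b

/-! # Row P3: one root in `Mbar(u)` gives all embeddings

Plan. `Q.map σ` is irreducible and monic over `RF M r` (`irreducible_map_of_closed`, with
`hcl : ClosedIn σ`) and has the root `z`, so it splits over `RF (AlgebraicClosure M) r`
(`splits_of_root_rf`). So `q := Q.map (sbar σ) = (Q.map σ).map _` splits; it is separable
(characteristic zero: `Irreducible.separable` for `Q`, then `Separable.map`), so it has exactly
`Q.natDegree` distinct roots (`Polynomial.card_rootSet_eq_natDegree` or: `q.roots.Nodup`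
(`Polynomial.nodup_roots`), `Multiset.card q.roots = q.natDegree` (`Splits.natDegree_eq_card_roots`)).
`L := AdjoinRoot Q`, `Module.finrank K L = Q.natDegree` (`AdjoinRoot.powerBasis`,
`PowerBasis.finrank`, `AdjoinRoot.powerBasis_dim`). For every root `x` the homomorphism
`AdjoinRoot.lift (sbar σ) x hx`; these are distinct for distinct `x` (values at `root Q`). Enumerate
the roots by `Fin (finrank K L)` (`Finset.equivFinOfCardEq` applied to `q.roots.toFinset`). -/

set_option autoImplicit false
open Polynomial

namespace Pool.Agent.LibHP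

theorem allEmb_of_root {K M : Type} [Field K] [CharZero K] [Field M] {r : ℕ} (σ : K →+* RF M r)
    (hcl : ClosedIn σ) (Q : K[X]) (hm : Q.Monic) [hQ : Fact (Irreducible Q)]
    (z : RF (AlgebraicClosure M) r) (hz : Q.eval₂ (sbar σ) z = 0) :
    AllEmb σ (AdjoinRoot Q) := by
  classical
  have hirr := irreducible_map_of_closed σ hcl Q hm hQ.out
  have hz0 : (Q.map σ).eval₂ (rfmap (algebraMap M (AlgebraicClosure M)) r) z = 0 := by
    rw [Polynomial.eval₂_map]
    exact hz
  have hs := splits_of_root_rf M r (Q.map σ) (hm.map σ) hirr z hz0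
  have hs' : (Q.map (sbar σ)).Splits := by
    have h1 : Q.map (sbar σ) =
        (Q.map σ).map (rfmap (algebraMap M (AlgebraicClosure M)) r) := by
      rw [Polynomial.map_map]
      rfl
    rwa [h1]
  have hsep : (Q.map (sbar σ)).Separable := hQ.out.separable.map
  have hnd : (Q.map (sbar σ)).roots.Nodup := Polynomial.nodup_roots hsep
  have hcard : Multiset.card (Q.map (sbar σ)).roots = (Q.map (sbar σ)).natDegree :=
    hs'.natDegree_eq_card_roots.symm
  have hfin : Module.finrank K (AdjoinRoot Q) = Q.natDegree := by
    have h2 := (AdjoinRoot.powerBasis hQ.out.ne_zero).finrank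
    rwa [AdjoinRoot.powerBasis_dim] at h2
  have hcard2 : (Q.map (sbar σ)).roots.toFinset.card = Module.finrank K (AdjoinRoot Q) := by
    rw [Multiset.toFinset_card_of_nodup hnd, hcard, Polynomial.natDegree_map, hfin]
  let e := Finset.equivFinOfCardEq hcard2
  have hx : ∀ x : {x // x ∈ (Q.map (sbar σ)).roots.toFinset},
      Q.eval₂ (sbar σ) (x : RF (AlgebraicClosure M) r) = 0 := by
    intro x
    have h3 := x.2
    rw [Multiset.mem_toFinset, Polynomial.mem_roots', Polynomial.IsRoot,
      Polynomial.eval_map] at h3
    exact h3.2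
  refine ⟨fun i => AdjoinRoot.lift (sbar σ) (e.symm i : RF (AlgebraicClosure M) r) (hx _),
    ?_, ?_⟩
  · intro i j hij
    have h1 := congrArg (fun f : AdjoinRoot Q →+* RF (AlgebraicClosure M) r =>
      f (AdjoinRoot.root Q)) hij
    simp only [AdjoinRoot.lift_root] at h1
    exact e.symm.injective (Subtype.ext h1)
  · intro i a
    exact AdjoinRoot.lift_of (hx _)

end Pool.Agent.LibHP
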