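import Pool.Agent.LibHPF.Defs

/-! # Row P4: covers with new constants have no rational points over a nonempty open set

Plan. Let `K = Frac A`, `q := Q.map (algebraMap A K)` irreducible, `L := AdjoinRoot q ∋ α` algebraic
over `k` and not in `k`. Write `α = g(root q)` with `g : K[X]` (`AdjoinRoot.mk_surjective`); clear
denominators: `d : A`, `d ≠ 0`, `G : A[X]` with `C d * g = G.map` (`IsLocalization.integerNormalization`
as in LibHP/F2.lean `F2_isFractionRing`). Let `h := minpoly k α ∈ k[X]` for the `k`-algebra `L`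
(algebra structure by the composite; `α` integral because algebraic over a field), irreducible of
degree `≥ 2` (degree one would put `α` in `k`), so `h` has no root in `k`. Homogenise to avoid
division: let `N := h.natDegree`, `H(T) := ∑ i, h_i d^(N-i) G(T)^i ∈ A[X]` (so
`H = d^N * h(g(T))` over `K`); `q ∣ H.map` because `H(root q) = d^N h(α) = 0`
(`AdjoinRoot.mk_eq_zero`). As `Q` is monic, `Q ∣ H` already in `A[X]`
(`Polynomial.map_dvd_map (algebraMap A K) injective hQ_monic`). Take `h := d` as the element of `A`: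
if `φ d ≠ 0` and `x : k` is a root of `Q.map φ` then `0 = (H.map φ)(x) = φ(d)^N * h(G^φ(x)/φ(d))`, so
`h` has the root `G^φ(x) / φ d` in `k`: contradiction (`scaleRoots` lemmas or direct computation
with `Polynomial.eval_eq_sum_range`). -/

set_option autoImplicit false
open Polynomial

namespace Pool.Agent.LibHP

theorem P4_aux (k A K : Type) [Field k] [CommRing A] [IsDomain A] [Algebra k A] [Field K]
    [Algebra A K] [IsFractionRing A K] (Q : A[X]) (hm : Q.Monic) (q : K[X])
    (hq : q = Q.map (algebraMap A K)) [Fact (Irreducible q)]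
    (α : AdjoinRoot q) (j : k →+* K) (hj : j = (algebraMap A K).comp (algebraMap k A))
    (i : k →+* AdjoinRoot q) (hi : i = (algebraMap K (AdjoinRoot q)).comp j)
    (halg : ∃ h : k[X], h ≠ 0 ∧ h.eval₂ i α = 0) (hα : ∀ c : k, i c ≠ α) :
    ∃ d : A, d ≠ 0 ∧ ∀ φ : A →ₐ[k] k, φ d ≠ 0 → ∀ x : k, ¬ (Q.map (φ : A →+* k)).IsRoot x := by
  classical
  -- irreducible polynomial over `k` of `α`
  letI : Algebra k (AdjoinRoot q) := i.toAlgebra
  have hint : IsIntegral k α := by
    rw [← isAlgebraic_iff_isIntegral]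
    obtain ⟨h, h0, h1⟩ := halg
    exact ⟨h, h0, by rw [aeval_def]; exact h1⟩
  set h := minpoly k α with hh
  have hhi : Irreducible h := minpoly.irreducible hint
  have hhm : h.Monic := minpoly.monic hint
  have hhα : h.eval₂ i α = 0 := by
    have h1 := minpoly.aeval k α
    rwa [aeval_def] at h1
  have hnoroot : ∀ c : k, ¬ h.IsRoot c := by
    intro c hc
    have h8 : Associated (X - C c) h :=
      (Polynomial.irreducible_X_sub_C c).associated_of_dvd hhi (dvd_iff_isRoot.2 hc)
    have h9 : h = X - C c := (eq_of_monic_of_associated (monic_X_sub_C c) hhm h8).symm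
    rw [h9] at hhα
    simp only [eval₂_sub, eval₂_X, eval₂_C] at hhα
    exact hα c (sub_eq_zero.1 hhα).symm
  -- `α = g(root)`, clear denominators
  obtain ⟨g, hg⟩ := AdjoinRoot.mk_surjective α
  obtain ⟨d, hd, hdg⟩ := IsLocalization.integerNormalization_spec (nonZeroDivisors A) g
  set G : A[X] := IsLocalization.integerNormalization (nonZeroDivisors A) g with hG
  have hd0 : d ≠ 0 := nonZeroDivisors.ne_zero hd
  have hGg : G.map (algebraMap A K) = C (algebraMap A K d) * g := by
    rw [hG, hdg]
    ext n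
    rw [coeff_C_mul, coeff_smul, Algebra.smul_def]
  -- the homogenised polynomial
  set N := h.natDegree with hN
  set H : A[X] := ∑ n ∈ Finset.range (N + 1), C (algebraMap k A (h.coeff n) * d ^ (N - n)) * G ^ n
    with hH
  have hHK : H.map (algebraMap A K) =
      C (algebraMap A K d ^ N) * ∑ n ∈ Finset.range (N + 1), C (j (h.coeff n)) * g ^ n := by
    rw [hH, Polynomial.map_sum, Finset.mul_sum]
    refine Finset.sum_congr rfl fun n hn => ?_
    have hnN : n ≤ N := Nat.lt_succ_iff.1 (Finset.mem_range.1 hn)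
    rw [Polynomial.map_mul, Polynomial.map_pow, hGg, map_C, mul_pow, ← C_pow, map_mul, map_pow,
      C_mul]
    have h1 : algebraMap A K d ^ N = algebraMap A K d ^ (N - n) * algebraMap A K d ^ n := by
      rw [← pow_add, Nat.sub_add_cancel hnN]
    have h2 : algebraMap A K (algebraMap k A (h.coeff n)) = j (h.coeff n) := by
      rw [hj, RingHom.comp_apply]
    rw [h1, h2, C_mul]
    ring
  have hdvd : q ∣ H.map (algebraMap A K) := by
    rw [← AdjoinRoot.mk_eq_zero, hHK, map_mul, map_sum]
    have h1 : ∑ n ∈ Finset.range (N + 1), (AdjoinRoot.mk q) (C (j (h.coeff n)) * g ^ n) = 0 := by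
      rw [← hhα, eval₂_eq_sum_range]
      refine Finset.sum_congr rfl fun n _ => ?_
      rw [map_mul, map_pow, hg, AdjoinRoot.mk_C, hi, RingHom.comp_apply,
        AdjoinRoot.algebraMap_eq]
    rw [h1, mul_zero]
  have hdvdA : Q ∣ H :=
    (map_dvd_map (algebraMap A K) (IsFractionRing.injective A K) hm).1 (hq ▸ hdvd)
  refine ⟨d, hd0, fun φ hφd x hx => ?_⟩
  have h1 : ((H.map (φ : A →+* k))).IsRoot x := by
    have h2 : Q.map (φ : A →+* k) ∣ H.map (φ : A →+* k) := Polynomial.map_dvd _ hdvdA
    exact hx.dvd h2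
  have h2 : (H.map (φ : A →+* k)).eval x =
      φ d ^ N * h.eval ((G.map (φ : A →+* k)).eval x / φ d) := by
    rw [hH, Polynomial.map_sum, eval_finsetSum, eval_eq_sum_range, Finset.mul_sum]
    refine Finset.sum_congr rfl fun n hn => ?_
    have hnN : n ≤ N := Nat.lt_succ_iff.1 (Finset.mem_range.1 hn)
    rw [Polynomial.map_mul, Polynomial.map_pow, map_C, eval_mul, eval_pow, eval_C]
    have h3 : φ d ^ N = φ d ^ (N - n) * φ d ^ n := by
      rw [← pow_add, Nat.sub_add_cancel hnN]
    rw [h3, div_pow]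
    have h4 : (φ : A →+* k) (algebraMap k A (h.coeff n) * d ^ (N - n)) =
        h.coeff n * φ d ^ (N - n) := by
      rw [RingHom.coe_coe, map_mul, map_pow, AlgHom.commutes]
      rfl
    rw [h4]
    field_simp
  rw [IsRoot.def, h2] at h1
  rcases mul_eq_zero.1 h1 with h3 | h3
  · exact hφd (eq_zero_of_pow_eq_zero h3)
  · exact hnoroot _ h3

theorem no_root_of_const (k A K : Type) [Field k] [CommRing A] [IsDomain A] [Algebra k A] [Field K]
    [Algebra A K] [IsFractionRing A K] (Q : A[X]) (hm : Q.Monic)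
    [hQ : Fact (Irreducible (Q.map (algebraMap A K)))]
    (α : AdjoinRoot (Q.map (algebraMap A K)))
    (halg : ∃ h : k[X], h ≠ 0 ∧ h.eval₂ ((algebraMap K (AdjoinRoot (Q.map (algebraMap A K)))).comp
      ((algebraMap A K).comp (algebraMap k A))) α = 0)
    (hα : ∀ c : k, algebraMap K (AdjoinRoot (Q.map (algebraMap A K)))
      (algebraMap A K (algebraMap k A c)) ≠ α) :
    ∃ d : A, d ≠ 0 ∧ ∀ φ : A →ₐ[k] k, φ d ≠ 0 → ∀ x : k, ¬ (Q.map (φ : A →+* k)).IsRoot x :=
  P4_aux k A K Q hm _ rfl α _ rfl _ rfl halg hα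

end Pool.Agent.LibHP
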