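import Pool.Agent.LibHPF.P5b

/-! # Row P5: specialisation of the family at a dense set of points of `W` -/

set_option autoImplicit false
open Polynomial

namespace Pool.Agent.LibHP

theorem exists_hom_of_dense (k M A : Type) [Field k] [Field M] [CommRing A] [Algebra k M]
    [Algebra k A] [Algebra.FiniteType k A] (hM : DensePts k M) (r : ℕ) (F : A →ₐ[k] RF M r)
    {ι : Type} [Finite ι] (P : ι → A[X]) (hP : ∀ i, (P i).Monic)
    (hroot : ∀ i, ∀ z : RF (AlgebraicClosure M) r,
      (P i).eval₂ ((rfmap (algebraMap M (AlgebraicClosure M)) r).comp (F : A →+* RF M r)) z ≠ 0) :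
    ∃ G : A →ₐ[k] RF k r, ∀ i, ∀ z, ¬ ((P i).map (G : A →+* RF k r)).IsRoot z := by
  classical
  haveI := Fintype.ofFinite ι
  obtain ⟨R, hRfg, h, hh0, G, j, hj, hjG⟩ := exists_spread k M A r F
  have hinjM : Function.Injective (algebraMap (MvPolynomial (Fin r) M) (RF M r)) :=
    IsFractionRing.injective _ _
  have hRv : Function.Injective (R.val : R →+* M) := Subtype.val_injective
  -- the embedding of the coefficients in the algebraic closure
  set Ω := AlgebraicClosure M with hΩ
  set jΩ : R →+* Ω := (algebraMap M Ω).comp (R.val : R →+* M) with hjΩ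
  have hjΩi : Function.Injective jΩ := (algebraMap M Ω).injective.comp hRv
  have hinjΩ : Function.Injective (algebraMap (MvPolynomial (Fin r) Ω) (RF Ω r)) :=
    IsFractionRing.injective _ _
  -- the composite `Localization.Away h → RF M r → RF Ω r`
  set J : Localization.Away h →+* RF Ω r := (rfmap (algebraMap M Ω) r).comp j with hJ
  have hJalg : ∀ p : MvPolynomial (Fin r) R, J (algebraMap _ _ p) =
      algebraMap (MvPolynomial (Fin r) Ω) (RF Ω r) (MvPolynomial.map jΩ p) := by
    intro p
    rw [hJ, RingHom.comp_apply, hj]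
    show rfmap (algebraMap M Ω) r (algebraMap _ _ (MvPolynomial.map (R.val : R →+* M) p)) = _
    rw [rfmap, IsFractionRing.lift_algebraMap, RingHom.comp_apply, MvPolynomial.map_map]
  have hJh : J (algebraMap _ _ h) ≠ 0 := by
    rw [hJalg]
    intro h0
    exact hh0 (MvPolynomial.map_injective _ hjΩi (hinjΩ (by rw [h0, map_zero, map_zero])))
  -- clear denominators
  have h1 : ∀ i, ∃ (b : MvPolynomial (Fin r) R) (Q : (MvPolynomial (Fin r) R)[X]),
      b ∈ Submonoid.powers h ∧ Q.Monic ∧
      Q.map (algebraMap (MvPolynomial (Fin r) R) (Localization.Away h)) =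
        ((P i).map (G : A →+* Localization.Away h)).scaleRoots (algebraMap _ _ b) := by
    intro i
    have hm : ((P i).map (G : A →+* Localization.Away h)).Monic := (hP i).map _
    have h := IsLocalization.scaleRoots_commonDenom_mem_lifts (Submonoid.powers h)
      ((P i).map (G : A →+* Localization.Away h)) (by rw [hm.leadingCoeff]; exact one_mem _)
    obtain ⟨Q, hQ, _, hQm⟩ := Polynomial.lifts_and_natDegree_eq_and_monic h
      ((monic_scaleRoots_iff _).2 hm)
    exact ⟨_, Q, (IsLocalization.commonDenom (Submonoid.powers _) _ _).2, hQm, hQ⟩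
  choose b Q hb hQm hQ using h1
  -- the Nullstellensatz
  have h2 : ∀ i, ∃ ρ : R, ρ ≠ 0 ∧ ∀ (k' : Type) [Field k'] (φ : R →+* k'), φ ρ ≠ 0 →
      ∀ q : MvPolynomial (Fin r) k', ¬ ((Q i).map (MvPolynomial.map φ)).IsRoot q := by
    intro i
    refine exists_avoid R Ω jΩ hjΩi r (Q i) (hQm i) ?_
    intro q hq
    have hJb : J (algebraMap _ _ (b i)) ≠ 0 := by
      obtain ⟨m, hm⟩ := hb i
      rw [← hm, map_pow, map_pow]
      exact pow_ne_zero m hJh
    apply hroot i (algebraMap _ _ q / J (algebraMap _ _ (b i)))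
    have h3 := scaleRoots_eval₂_mul (p := (P i).map (G : A →+* Localization.Away h)) J
      (algebraMap _ _ q / J (algebraMap _ _ (b i))) (algebraMap _ _ (b i))
    have h5 : J.comp (algebraMap (MvPolynomial (Fin r) R) (Localization.Away h)) =
        (algebraMap (MvPolynomial (Fin r) Ω) (RF Ω r)).comp (MvPolynomial.map jΩ) :=
      RingHom.ext hJalg
    rw [mul_div_cancel₀ _ hJb, ← hQ, eval₂_map, h5, ← Polynomial.hom_eval₂,
      ← eval_map, show eval q ((Q i).map (MvPolynomial.map jΩ)) = 0 from hq, map_zero, eq_comm,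
      mul_eq_zero] at h3
    have h6 := h3.resolve_left (pow_ne_zero _ hJb)
    rw [eval₂_map] at h6
    have h7 : J.comp (G : A →+* Localization.Away h) =
        (rfmap (algebraMap M Ω) r).comp (F : A →+* RF M r) := by
      ext a
      show rfmap (algebraMap M Ω) r (j (G a)) = rfmap (algebraMap M Ω) r (F a)
      rw [hjG]
    rw [h7] at h6
    exact h6
  choose ρ hρ0 hρ using h2
  obtain ⟨m, hm⟩ := MvPolynomial.ne_zero_iff.mp hh0
  have ha0 : (∏ i, ρ i) * h.coeff m ≠ 0 :=
    mul_ne_zero (Finset.prod_ne_zero_iff.mpr fun i _ => hρ0 i) hm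
  obtain ⟨φ, hφ⟩ := hM R hRfg _ ha0
  rw [map_mul, map_prod] at hφ
  have hφρ : ∀ i, φ (ρ i) ≠ 0 := fun i =>
    Finset.prod_ne_zero_iff.mp (left_ne_zero_of_mul hφ) i (Finset.mem_univ i)
  have hφm : φ (h.coeff m) ≠ 0 := right_ne_zero_of_mul hφ
  have hinjk : Function.Injective (algebraMap (MvPolynomial (Fin r) k) (RF k r)) :=
    IsFractionRing.injective _ _
  set f : MvPolynomial (Fin r) R →ₐ[k] RF k r :=
    (IsScalarTower.toAlgHom k (MvPolynomial (Fin r) k) (RF k r)).comp
      (MvPolynomial.mapAlgHom φ) with hf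
  have hfs : ∀ q, f q = algebraMap _ _ (MvPolynomial.map (φ : R →+* k) q) := fun q => rfl
  have hfh : f h ≠ 0 := by
    rw [hfs]
    intro h0
    have h1 : MvPolynomial.map (φ : R →+* k) h = 0 := hinjk (by rw [h0, map_zero])
    have h2 := congrArg (MvPolynomial.coeff m) h1
    rw [MvPolynomial.coeff_map, MvPolynomial.coeff_zero] at h2
    exact hφm h2
  have hunit : ∀ y : Submonoid.powers h, IsUnit (f y) := by
    rintro ⟨y, m, rfl⟩
    simp only [map_pow]
    exact (isUnit_iff_ne_zero.2 hfh).pow m
  set ψ : Localization.Away h →ₐ[k] RF k r :=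
    IsLocalization.liftAlgHom (M := Submonoid.powers h) hunit with hψ
  have hψalg : ∀ q : MvPolynomial (Fin r) R, ψ (algebraMap _ _ q) =
      algebraMap _ _ (MvPolynomial.map (φ : R →+* k) q) := by
    intro q
    rw [hψ, IsLocalization.liftAlgHom_apply, IsLocalization.lift_eq]
    rfl
  refine ⟨ψ.comp G, fun i z hz => ?_⟩
  -- the root of the cleared polynomial
  have h3 := scaleRoots_eval₂_mul (p := (P i).map (G : A →+* Localization.Away h))
    (ψ : Localization.Away h →+* RF k r) z (algebraMap _ _ (b i))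
  have h5 : (ψ : Localization.Away h →+* RF k r).comp
      (algebraMap (MvPolynomial (Fin r) R) (Localization.Away h)) =
      (algebraMap (MvPolynomial (Fin r) k) (RF k r)).comp
        (MvPolynomial.map (φ : R →+* k)) :=
    RingHom.ext hψalg
  have h6 : eval₂ (ψ : Localization.Away h →+* RF k r) z
      ((P i).map (G : A →+* Localization.Away h)) = 0 := by
    rw [IsRoot, eval_map] at hz
    rw [eval₂_map]
    exact hz
  rw [h6, mul_zero, ← hQ, eval₂_map, h5] at h3
  set w : RF k r := (ψ : Localization.Away h →+* RF k r) (algebraMap _ _ (b i)) * z with hw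
  have hmon : ((Q i).map (MvPolynomial.map (φ : R →+* k))).Monic := (hQm i).map _
  have hint : IsIntegral (MvPolynomial (Fin r) k) w := by
    refine ⟨_, hmon, ?_⟩
    rw [eval₂_map]
    exact h3
  obtain ⟨q, hq⟩ := IsIntegrallyClosed.isIntegral_iff.mp hint
  apply hρ i k (φ : R →+* k) (hφρ i) q
  rw [← hq, ← Polynomial.hom_eval₂] at h3
  have h8 := hinjk (h3.trans (map_zero _).symm)
  rw [IsRoot, eval_map]
  exact h8

end Pool.Agent.LibHP
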