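import Pool.Agent.LibHPF.P2
import Pool.Agent.LibHPF.P3
import Pool.Agent.LibHPF.P4
import Pool.Agent.LibHPF.P5

/-! # Row P6: the algebraic core

Plan. By `exists_factors` write each `P i = ∏ j, Q i j` with `Q i j : A[X]` monic, irreducible over
`K`, of degree `≥ 2`. Call `(i, j)` of type I if `(Q i j).map (algebraMap A K)` has no root in
`RF (AlgebraicClosure M) r` via `sbar σ`, else of type II. For type II: `q := (Q i j).map _`,
`Fact (Irreducible q)`, `allEmb_of_root` gives `AllEmb σ (AdjoinRoot q)`;
`finrank K (AdjoinRoot q) = q.natDegree ≥ 2` (`AdjoinRoot.powerBasis`), so `hconst` gives `α` and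
`no_root_of_const` gives `d i j ≠ 0` in `A`. Let `d` be the product of these `d i j` (over the finite
type of pairs, `1` for type I), `A' := Localization.Away d`, `[Algebra.FiniteType k A']`
(`IsLocalization.finiteType_of_isLocalization`/`Algebra.FiniteType` of `Localization.Away`), and
`F : A' →ₐ[k] RF M r` induced by `σ ∘ algebraMap A K` (`σ (algebraMap A K d) ≠ 0` is a unit;
`IsLocalization.liftAlgHom`). Apply `exists_hom_of_dense` to `A'`, `F` and the family of the images
in `A'[X]` of the `Q i j` of type I (index type: the subtype of the sigma type), get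
`G : A' →ₐ[k] RF k r`, then `exists_point_of_hom k r A' G` (LibHP/H9.lean) gives
`φ' : A' →ₐ[k] k` without roots for type I; `φ := φ'.comp (Algebra.ofId / IsScalarTower.toAlgHom k A A')`.
`φ d ≠ 0` because `d` is a unit in `A'`, so `φ (d i j) ≠ 0` for type II: no roots there either. A
root of `(P i).map φ` would be a root of some `(Q i j).map φ` (`Polynomial.map_prod`, `eval_prod`,
`Finset.prod_eq_zero_iff`). -/

set_option autoImplicit false
open Polynomial

namespace Pool.Agent.LibHP

theorem exists_point_of_moves (k : Type) [Field k] [NumberField k] (K : Type) [Field K]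
    [Algebra k K] (M : Type) [Field M] [Algebra k M] (hM : DensePts k M) (r : ℕ)
    (σ : K →+* RF M r) (hσ : ∀ c : k, σ (algebraMap k K c) = algebraMap k (RF M r) c)
    (hcl : ClosedIn σ)
    (A : Type) [CommRing A] [IsDomain A] [IsIntegrallyClosed A] [Algebra k A]
    [Algebra.FiniteType k A] [Algebra A K] [IsFractionRing A K] [IsScalarTower k A K]
    (ι : Type) [Finite ι] (P : ι → A[X]) (hP : ∀ i, (P i).Monic)
    (hroot : ∀ i, ∀ z : K, (P i).eval₂ (algebraMap A K) z ≠ 0)
    (hconst : ∀ i, ∀ (q : K[X]) [Fact (Irreducible q)], q.Monic → 2 ≤ q.natDegree →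
      q ∣ (P i).map (algebraMap A K) → AllEmb σ (AdjoinRoot q) →
      ∃ α : AdjoinRoot q, (∃ h : k[X], h ≠ 0 ∧
        h.eval₂ ((algebraMap K (AdjoinRoot q)).comp (algebraMap k K)) α = 0) ∧
        ∀ c : k, algebraMap K (AdjoinRoot q) (algebraMap k K c) ≠ α) :
    ∃ φ : A →ₐ[k] k, ∀ i, ∀ x : k, ¬ ((P i).map (φ : A →+* k)).IsRoot x := by
  classical
  haveI : CharZero K := charZero_of_injective_algebraMap (algebraMap k K).injective
  have hAK : Function.Injective (algebraMap A K) := IsFractionRing.injective A K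
  have hfac : ∀ i, ∃ (m : ℕ) (Q : Fin m → A[X]), (∀ j, (Q j).Monic) ∧
      (∀ j, Irreducible ((Q j).map (algebraMap A K))) ∧ (∀ j, 2 ≤ (Q j).natDegree) ∧
      P i = ∏ j, Q j := fun i => exists_factors A K (P i) (hP i) (hroot i)
  choose m Q hQm hQirr hQdeg hQprod using hfac
  let T : (Σ i, Fin (m i)) → Prop := fun x => ∀ z : RF (AlgebraicClosure M) r,
    (Q x.1 x.2).eval₂ ((sbar σ).comp (algebraMap A K)) z ≠ 0
  have hd : ∀ x : (Σ i, Fin (m i)), ∃ d : A, d ≠ 0 ∧ (T x ∨ ∀ φ : A →ₐ[k] k, φ d ≠ 0 →
      ∀ y : k, ¬ ((Q x.1 x.2).map (φ : A →+* k)).IsRoot y) := by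
    intro x
    by_cases hx : T x
    · exact ⟨1, one_ne_zero, Or.inl hx⟩
    · simp only [T, not_forall, not_not] at hx
      obtain ⟨z, hz⟩ := hx
      haveI : Fact (Irreducible ((Q x.1 x.2).map (algebraMap A K))) := ⟨hQirr x.1 x.2⟩
      have hAll := allEmb_of_root σ hcl ((Q x.1 x.2).map (algebraMap A K))
        ((hQm x.1 x.2).map _) z (by rw [eval₂_map]; exact hz)
      obtain ⟨α, hα1, hα2⟩ := hconst x.1 ((Q x.1 x.2).map (algebraMap A K))
        ((hQm _ _).map _)
        (by rw [natDegree_map_eq_of_injective hAK]; exact hQdeg _ _)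
        (by
          rw [hQprod x.1, Polynomial.map_prod]
          exact Finset.dvd_prod_of_mem (fun j => (Q x.1 j).map (algebraMap A K))
            (Finset.mem_univ x.2)) hAll
      obtain ⟨d, hd0, hd⟩ := no_root_of_const k A K (Q x.1 x.2) (hQm _ _) α
        (by rw [← IsScalarTower.algebraMap_eq k A K]; exact hα1)
        (by
          intro c
          rw [← IsScalarTower.algebraMap_apply k A K]
          exact hα2 c)
      exact ⟨d, hd0, Or.inr hd⟩
  choose dd hdd0 hdd using hd
  haveI : Fintype (Σ i, Fin (m i)) := Fintype.ofFinite _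
  set d : A := ∏ x, dd x with hddef
  have hd0 : d ≠ 0 := Finset.prod_ne_zero_iff.2 (fun x _ => hdd0 x)
  let f : A →ₐ[k] RF M r :=
    { σ.comp (algebraMap A K) with
      commutes' := fun c => by
        show σ (algebraMap A K (algebraMap k A c)) = _
        rw [← IsScalarTower.algebraMap_apply k A K]
        exact hσ c }
  have hfa : ∀ a, f a = σ (algebraMap A K a) := fun a => rfl
  have hunit : ∀ y : Submonoid.powers d, IsUnit (f y) := by
    rintro ⟨y, n, rfl⟩
    simp only [map_pow]
    refine (isUnit_iff_ne_zero.2 ?_).pow n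
    rw [hfa]
    intro h0
    have h1 : algebraMap A K d = 0 := σ.injective (by rw [h0, map_zero])
    exact hd0 (hAK (by rw [h1, map_zero]))
  set F : Localization.Away d →ₐ[k] RF M r :=
    IsLocalization.liftAlgHom (M := Submonoid.powers d) hunit with hF
  have hFalg : ∀ a : A, F (algebraMap A (Localization.Away d) a) = σ (algebraMap A K a) := by
    intro a
    rw [hF, IsLocalization.liftAlgHom_apply, IsLocalization.lift_eq]
    rfl
  obtain ⟨G, hG⟩ := exists_hom_of_dense k M (Localization.Away d) hM r F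
    (fun x : {x : (Σ i, Fin (m i)) // T x} =>
      (Q x.1.1 x.1.2).map (algebraMap A (Localization.Away d)))
    (fun x => (hQm x.1.1 x.1.2).map _)
    (by
      rintro ⟨x, hx⟩ z hz
      apply hx z
      rw [eval₂_map] at hz
      have hcomp : ((rfmap (algebraMap M (AlgebraicClosure M)) r).comp
          (F : Localization.Away d →+* RF M r)).comp (algebraMap A (Localization.Away d)) =
          (sbar σ).comp (algebraMap A K) := by
        ext a
        show rfmap (algebraMap M (AlgebraicClosure M)) r (F (algebraMap A _ a)) =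
          rfmap (algebraMap M (AlgebraicClosure M)) r (σ (algebraMap A K a))
        rw [hFalg]
      rw [hcomp] at hz
      exact hz)
  obtain ⟨φ', hφ'⟩ := exists_point_of_hom k r (Localization.Away d) G
    (fun x : {x : (Σ i, Fin (m i)) // T x} =>
      (Q x.1.1 x.1.2).map (algebraMap A (Localization.Away d)))
    (fun x => (hQm x.1.1 x.1.2).map _) hG
  let φ : A →ₐ[k] k := φ'.comp (IsScalarTower.toAlgHom k A (Localization.Away d))
  have hφa : ∀ a, φ a = φ' (algebraMap A (Localization.Away d) a) := fun a => rfl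
  have hφd : φ d ≠ 0 := by
    rw [hφa]
    exact ((IsLocalization.Away.algebraMap_isUnit (S := Localization.Away d) d).map φ').ne_zero
  have hnr : ∀ x : (Σ i, Fin (m i)), ∀ y : k,
      ¬ ((Q x.1 x.2).map (φ : A →+* k)).IsRoot y := by
    intro x y
    rcases hdd x with hx | hx
    · have h1 := hφ' ⟨x, hx⟩ y
      rw [Polynomial.map_map] at h1
      exact h1
    · apply hx φ _ y
      intro h0
      apply hφd
      rw [hddef, map_prod]
      exact Finset.prod_eq_zero (Finset.mem_univ x) h0
  refine ⟨φ, fun i x hx => ?_⟩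
  rw [hQprod i, Polynomial.map_prod, IsRoot, eval_prod, Finset.prod_eq_zero_iff] at hx
  obtain ⟨j, _, hj⟩ := hx
  exact hnr ⟨i, j⟩ x hj

end Pool.Agent.LibHP
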