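import Pool.Agent.LibHPF.P3a
import Mathlib.FieldTheory.LinearDisjoint

/-! # Row P7a: `L ⊗ kbar` is a domain when `k` is algebraically closed in `L`

Proof (characteristic zero): inside `Ω := AlgebraicClosure L`, every `k⟮β⟯` with `β` algebraic over
`k` is linearly disjoint from `L` (the minimal polynomial of `β` stays irreducible over `L` by P3a);
by the primitive element theorem and reduction to finitely generated submodules, the algebraic
closure of `k` in `Ω` is linearly disjoint from `L`, so the tensor product is a domain. -/

set_option autoImplicit false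
open Polynomial TensorProduct

namespace Pool.Agent.LibHP

theorem P7a_adjoin (k L Ω : Type) [Field k] [Field L] [Field Ω] [Algebra k L] [Algebra L Ω]
    [Algebra k Ω] [IsScalarTower k L Ω]
    (hcl : ∀ α : L, (∃ h : k[X], h ≠ 0 ∧ h.eval₂ (algebraMap k L) α = 0) →
      ∃ c, algebraMap k L c = α) (β : Ω) (hβ : IsIntegral k β) :
    (IntermediateField.adjoin k {β}).LinearDisjoint L := by
  have hirr : Irreducible ((minpoly k β).map (algebraMap k L)) :=
    irreducible_map_of_closed (algebraMap k L) hcl (minpoly k β) (minpoly.monic hβ)
      (minpoly.irreducible hβ)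
  have hmin : (minpoly k β).map (algebraMap k L) = minpoly L β := by
    refine minpoly.eq_of_irreducible_of_monic hirr ?_ ((minpoly.monic hβ).map _)
    rw [Polynomial.aeval_map_algebraMap, minpoly.aeval]
  have hdeg : (minpoly L β).natDegree = (minpoly k β).natDegree := by
    rw [← hmin, Polynomial.natDegree_map]
  let pb := IntermediateField.adjoin.powerBasis hβ
  refine IntermediateField.LinearDisjoint.of_basis_left pb.basis ?_
  have hli := linearIndependent_pow (K := L) β
  have hd : pb.dim = (minpoly L β).natDegree := by
    rw [hdeg]; rfl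
  have : (IntermediateField.adjoin k {β}).val ∘ pb.basis
      = (fun i : Fin (minpoly L β).natDegree => β ^ (i : ℕ)) ∘ (finCongr hd) := by
    funext i
    simp only [Function.comp_apply, PowerBasis.coe_basis, map_pow, finCongr_apply, Fin.val_cast]
    congr 1
  rw [this]
  exact hli.comp _ (finCongr hd).injective

theorem isDomain_tensor_of_closed (k L : Type) [Field k] [CharZero k] [Field L] [Algebra k L]
    (hcl : ∀ α : L, (∃ h : k[X], h ≠ 0 ∧ h.eval₂ (algebraMap k L) α = 0) →
      ∃ c, algebraMap k L c = α) :
    IsDomain (L ⊗[k] (AlgebraicClosure k)) := by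
  let Ω := AlgebraicClosure L
  -- the closure of `k` in `Ω`
  let fb : AlgebraicClosure k →ₐ[k] Ω := IsAlgClosed.lift
  have hdisj : fb.fieldRange.LinearDisjoint L := by
    rw [IntermediateField.linearDisjoint_iff]
    refine Submodule.LinearDisjoint.of_linearDisjoint_fg_left _ _ ?_
    intro M' hM' hfg
    -- a finite dimensional intermediate field containing `M'`
    obtain ⟨s, hs⟩ := hfg
    have hint : ∀ x ∈ (s : Set Ω), IsIntegral k x := by
      intro x hx
      have hx' : x ∈ M' := by rw [← hs]; exact Submodule.subset_span hx
      obtain ⟨a, rfl⟩ := hM' hx'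
      exact (Algebra.IsIntegral.isIntegral (R := k) a).map fb
    let E := IntermediateField.adjoin k (s : Set Ω)
    have hfd : FiniteDimensional k E :=
      IntermediateField.finiteDimensional_adjoin hint
    obtain ⟨β, hβ⟩ := Field.exists_primitive_element k E
    have hE : E = IntermediateField.adjoin k {(β : Ω)} := by
      have h1 := congrArg (IntermediateField.map E.val) hβ
      rw [IntermediateField.adjoin_map, Set.image_singleton] at h1
      rw [← AlgHom.fieldRange_eq_map, IntermediateField.fieldRange_val] at h1
      exact h1.symm
    have hβi : IsIntegral k (β : Ω) := (Algebra.IsIntegral.isIntegral (R := k) β).map E.val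
    have hd := P7a_adjoin k L Ω hcl β hβi
    rw [← hE, IntermediateField.linearDisjoint_iff] at hd
    refine Submodule.LinearDisjoint.of_le_left_of_flat hd ?_
    rw [← hs, Submodule.span_le]
    exact IntermediateField.subset_adjoin k (s : Set Ω)
  have h1 : IsDomain (fb.fieldRange ⊗[k] L) := hdisj.isDomain
  let e1 : AlgebraicClosure k ≃ₐ[k] fb.fieldRange := AlgEquiv.ofInjectiveField fb
  let e : L ⊗[k] (AlgebraicClosure k) ≃ₐ[k] fb.fieldRange ⊗[k] L :=
    (Algebra.TensorProduct.comm k L (AlgebraicClosure k)).trans
      (Algebra.TensorProduct.congr e1 AlgEquiv.refl)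
  exact e.toRingEquiv.toMulEquiv.isDomain (B := fb.fieldRange ⊗[k] L)

end Pool.Agent.LibHP
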