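import Pool.Agent.LibHPF.Q0

set_option autoImplicit false
open MvPolynomial

namespace Pool.Agent.LibHP

/-!
# Row Q2: existence of derivations with prescribed values

PLAN of `exists_derivation_of_rel`. Let `B ⊆ Ω` be the image of `aeval y`, `E = Frac B` inside `Ω`
(`IntermediateField.adjoin k (range y)`). The map `G ↦ ∑ i, c i * aeval y (pderiv i G)` is a derivation of
`MvPolynomial ι k` with values in `Ω` (module structure through `aeval y`; `MvPolynomial.mkDerivation`), it
kills the kernel of `aeval y`, so it defines a derivation `B → Ω`, which extends to `E → Ω` by the quotient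
rule. Extension from `E` to `Ω`: `Algebra.FormallySmooth E Ω` in characteristic zero, namely
`Algebra.FormallySmooth.of_algebraicIndependent_of_isSeparable` for a transcendence basis of `Ω / E`
(Mathlib.RingTheory.Smooth.Field). Given `D : E → Ω`, make `TrivSqZeroExt Ω Ω` an `E`-algebra by
`e ↦ (e, D e)`; by formal smoothness the identity of `Ω` lifts to an `E`-algebra map
`Ω → TrivSqZeroExt Ω Ω` (kernel of `fst` has square zero), its second component is the derivation.
(Alternative without formal smoothness: Zorn's lemma, or do the two steps purely transcendental and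
algebraic separable by hand.)

`exists_derivation_cone`: relations of `P` are multiples of `FF φ`; use `sum_pderiv_FF`.

`exists_derivation_pt`: let `aeval P G = 0`. Put `D = G.totalDegree`,
`Gh = ∑ e ∈ range (D + 1), X 0 ^ (D - e) * homogeneousComponent e G` (homogeneous of degree `D`); as `P 0 = 1`,
`aeval P Gh = aeval P G = 0`, so `FF φ ∣ Gh`, so `∑ i, c i * aeval P (pderiv i Gh) = 0` by `sum_pderiv_FF`
and the Leibniz rule (`aeval P (FF φ) = 0` too); as `c 0 = 0` and `P 0 = 1` the left side is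
`∑ i, c i * aeval P (pderiv i G)`.
-/

/-- the dual numbers over `Ω` (without the standard algebra structures) -/
def Q2_T (Ω : Type) [Field Ω] : Type := TrivSqZeroExt Ω Ω

noncomputable instance (Ω : Type) [Field Ω] : CommRing (Q2_T Ω) :=
  inferInstanceAs (CommRing (TrivSqZeroExt Ω Ω))

def Q2_mk {Ω : Type} [Field Ω] (a b : Ω) : Q2_T Ω := (TrivSqZeroExt.inl a + TrivSqZeroExt.inr b :
  TrivSqZeroExt Ω Ω)

def Q2_fst (Ω : Type) [Field Ω] : Q2_T Ω →+* Ω :=
  { toFun := fun x => TrivSqZeroExt.fst (R := Ω) (M := Ω) x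
    map_one' := rfl
    map_mul' := fun _ _ => rfl
    map_zero' := rfl
    map_add' := fun _ _ => rfl }

def Q2_snd (Ω : Type) [Field Ω] : Q2_T Ω →+ Ω :=
  { toFun := fun x => TrivSqZeroExt.snd (R := Ω) (M := Ω) x
    map_zero' := rfl
    map_add' := fun _ _ => rfl }

theorem Q2_snd_mul {Ω : Type} [Field Ω] (x y : Q2_T Ω) :
    Q2_snd Ω (x * y) = Q2_fst Ω x * Q2_snd Ω y + Q2_fst Ω y * Q2_snd Ω x := by
  have h := TrivSqZeroExt.snd_mul (R := Ω) (M := Ω) x y
  change TrivSqZeroExt.snd (R := Ω) (M := Ω) _ = _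
  refine h.trans ?_
  rw [smul_eq_mul, MulOpposite.smul_eq_mul_unop, MulOpposite.unop_op, mul_comm
    (TrivSqZeroExt.snd (R := Ω) (M := Ω) x)]
  rfl

theorem Q2_ext {Ω : Type} [Field Ω] {x y : Q2_T Ω} (h1 : Q2_fst Ω x = Q2_fst Ω y)
    (h2 : Q2_snd Ω x = Q2_snd Ω y) : x = y :=
  TrivSqZeroExt.ext h1 h2

def Q2_inl (Ω : Type) [Field Ω] : Ω →+* Q2_T Ω :=
  { toFun := fun x => (TrivSqZeroExt.inl x : TrivSqZeroExt Ω Ω)
    map_one' := rfl
    map_mul' := fun a b => TrivSqZeroExt.inl_mul Ω a b
    map_zero' := TrivSqZeroExt.inl_zero Ω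
    map_add' := fun a b => TrivSqZeroExt.inl_add Ω a b }

theorem exists_derivation_of_rel (k Ω ι : Type) [Field k] [CharZero k] [Field Ω] [Algebra k Ω]
    [Fintype ι] (y c : ι → Ω)
    (h : ∀ G : MvPolynomial ι k, aeval y G = 0 → ∑ i, c i * aeval y (pderiv i G) = 0) :
    ∃ δ : Derivation k Ω Ω, ∀ i, δ (y i) = c i := by
  classical
  -- the homomorphism to the dual numbers
  let ik : k →+* Q2_T Ω := (Q2_inl Ω).comp (algebraMap k Ω)
  let Φ : MvPolynomial ι k →+* Q2_T Ω := eval₂Hom ik (fun i => Q2_mk (y i) (c i))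
  have hΦC : ∀ a, Φ (C a) = ik a := fun a => eval₂Hom_C _ _ _
  have hΦX : ∀ i, Φ (X i) = Q2_mk (y i) (c i) := fun i => eval₂Hom_X' _ _ _
  have hf1 : ∀ a b : Ω, Q2_fst Ω (Q2_mk a b) = a := fun a b => by
    change TrivSqZeroExt.fst (R := Ω) (M := Ω) (TrivSqZeroExt.inl a + TrivSqZeroExt.inr b) = a
    simp
  have hs1 : ∀ a b : Ω, Q2_snd Ω (Q2_mk a b) = b := fun a b => by
    change TrivSqZeroExt.snd (R := Ω) (M := Ω) (TrivSqZeroExt.inl a + TrivSqZeroExt.inr b) = b
    simp
  have hΦ1 : ∀ G, Q2_fst Ω (Φ G) = aeval y G := by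
    intro G
    induction G using MvPolynomial.induction_on with
    | C a => rw [hΦC, aeval_C]; rfl
    | add p q hp hq => rw [map_add, map_add, map_add, hp, hq]
    | mul_X p i hp => rw [map_mul, map_mul, map_mul, hp, hΦX, hf1, aeval_X]
  have hΦ2 : ∀ G, Q2_snd Ω (Φ G) = ∑ i, c i * aeval y (pderiv i G) := by
    intro G
    induction G using MvPolynomial.induction_on with
    | C a =>
      rw [hΦC]
      simp only [pderiv_C, map_zero, mul_zero, Finset.sum_const_zero]
      rfl
    | add p q hp hq =>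
      rw [map_add, map_add, hp, hq, ← Finset.sum_add_distrib]
      refine Finset.sum_congr rfl fun i _ => ?_
      rw [map_add, map_add, mul_add]
    | mul_X p i hp =>
      rw [map_mul, Q2_snd_mul, hp, hΦX, hs1, hf1, hΦ1]
      have h1 : ∀ j, c j * aeval y (pderiv j (p * X i)) =
          (if j = i then aeval y p * c i else 0) + y i * (c j * aeval y (pderiv j p)) := by
        intro j
        rw [Derivation.leibniz, smul_eq_mul, smul_eq_mul, pderiv_X, map_add, map_mul, map_mul,
          aeval_X]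
        by_cases hj : i = j
        · subst hj
          rw [Pi.single_eq_same, map_one, if_pos rfl]; ring
        · rw [Pi.single_eq_of_ne hj, map_zero, if_neg (fun h => hj h.symm)]; ring
      simp only [h1, Finset.sum_add_distrib, Finset.sum_ite_eq', Finset.mem_univ, if_true,
        Finset.mul_sum]
  -- the subring generated by the coordinates
  let I : Ideal (MvPolynomial ι k) := RingHom.ker (aeval y : MvPolynomial ι k →ₐ[k] Ω)
  haveI : I.IsPrime := RingHom.ker_isPrime _
  let B := MvPolynomial ι k ⧸ I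
  let jB : B →+* Ω := Ideal.Quotient.lift I ((aeval y : MvPolynomial ι k →ₐ[k] Ω) :
    MvPolynomial ι k →+* Ω) (fun a ha => ha)
  have hjB : Function.Injective jB := by
    rw [injective_iff_map_eq_zero]
    intro b hb
    obtain ⟨G, rfl⟩ := Ideal.Quotient.mk_surjective b
    rw [Ideal.Quotient.eq_zero_iff_mem]
    exact hb
  let εB : B →+* Q2_T Ω := Ideal.Quotient.lift I Φ (fun a ha => by
    refine Q2_ext ?_ ?_
    · rw [hΦ1, map_zero]; exact ha
    · rw [hΦ2, map_zero]; exact h a ha)
  have hfε : ∀ b, Q2_fst Ω (εB b) = jB b := by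
    intro b
    obtain ⟨G, rfl⟩ := Ideal.Quotient.mk_surjective b
    exact hΦ1 G
  have hunit : ∀ b : nonZeroDivisors B, IsUnit (εB b) := by
    intro b
    have hb : jB b ≠ 0 := by
      intro h0
      exact nonZeroDivisors.coe_ne_zero b (hjB (by rw [h0, map_zero]))
    have h1 : Q2_fst Ω (εB b) ≠ 0 := by rw [hfε]; exact hb
    refine IsUnit.of_mul_eq_one (Q2_mk (Q2_fst Ω (εB b))⁻¹
      (-(Q2_snd Ω (εB b)) * (Q2_fst Ω (εB b))⁻¹ ^ 2)) ?_
    refine Q2_ext ?_ ?_
    · rw [map_mul, hf1, map_one, mul_inv_cancel₀ h1]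
    · rw [Q2_snd_mul, hs1, hf1]
      have h2 : Q2_snd Ω (1 : Q2_T Ω) = 0 := rfl
      rw [h2]
      field_simp
      ring
  let E := FractionRing B
  let j : E →+* Ω := IsFractionRing.lift (A := B) (K := E) hjB
  let ε : E →+* Q2_T Ω := IsLocalization.lift (M := nonZeroDivisors B) (S := E) (g := εB) hunit
  have hjb : ∀ b, j (algebraMap B E b) = jB b := fun b => IsFractionRing.lift_algebraMap hjB b
  have hεb : ∀ b, ε (algebraMap B E b) = εB b := fun b => IsLocalization.lift_eq hunit b
  have hfj : ∀ x, Q2_fst Ω (ε x) = j x := by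
    have h1 : (Q2_fst Ω).comp ε = j := by
      refine IsLocalization.ringHom_ext (nonZeroDivisors B) ?_
      refine RingHom.ext fun b => ?_
      rw [RingHom.comp_apply, RingHom.comp_apply, RingHom.comp_apply, hεb, hfε, hjb]
    intro x
    rw [← h1]; rfl
  letI : Algebra E Ω := j.toAlgebra
  letI : Algebra E (Q2_T Ω) := ε.toAlgebra
  haveI : CharZero Ω := charZero_of_injective_algebraMap (algebraMap k Ω).injective
  haveI : CharZero E := by
    constructor
    intro a b hab
    have h1 := congrArg j hab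
    rw [map_natCast, map_natCast] at h1
    exact Nat.cast_injective h1
  haveI hsm : Algebra.FormallySmooth E Ω := by
    obtain ⟨κ, x, hx⟩ := exists_isTranscendenceBasis' E Ω
    have h1 : Algebra.IsAlgebraic (IntermediateField.adjoin E (Set.range x)) Ω :=
      hx.isAlgebraic_field
    have h2 : Algebra.IsSeparable (IntermediateField.adjoin E (Set.range x)) Ω := inferInstance
    exact Algebra.FormallySmooth.of_algebraicIndependent_of_isSeparable hx.1
  let π : Q2_T Ω →ₐ[E] Ω := { Q2_fst Ω with commutes' := fun x => hfj x }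
  have hπ : Function.Surjective π := fun x => ⟨Q2_mk x 0, hf1 x 0⟩
  have hker : IsNilpotent (RingHom.ker (π : Q2_T Ω →+* Ω)) := by
    refine ⟨2, ?_⟩
    rw [pow_two, Ideal.zero_eq_bot, eq_bot_iff, Ideal.mul_le]
    intro a ha b hb
    have ha' : Q2_fst Ω a = 0 := ha
    have hb' : Q2_fst Ω b = 0 := hb
    rw [Ideal.mem_bot]
    refine Q2_ext ?_ ?_
    · rw [map_mul, ha', zero_mul, map_zero]
    · rw [Q2_snd_mul, ha', hb', zero_mul, zero_mul, add_zero, map_zero]
  let σ : Ω →ₐ[E] Q2_T Ω := Algebra.FormallySmooth.liftOfSurjective (AlgHom.id E Ω) π hπ hker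
  have hσ : ∀ x, Q2_fst Ω (σ x) = x := fun x =>
    Algebra.FormallySmooth.liftOfSurjective_apply (AlgHom.id E Ω) π hπ hker x
  have hσj : ∀ b : B, σ (jB b) = εB b := by
    intro b
    rw [← hjb, ← hεb]
    exact σ.commutes (algebraMap B E b)
  have hσk : ∀ a : k, σ (algebraMap k Ω a) = ik a := by
    intro a
    have h1 := hσj (Ideal.Quotient.mk I (C a))
    have h2 : jB (Ideal.Quotient.mk I (C a)) = algebraMap k Ω a := aeval_C y a
    rw [h2] at h1
    rw [h1]
    exact hΦC a
  have hsk : ∀ a : k, Q2_snd Ω (ik a) = 0 := fun a => rfl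
  let L : Ω →ₗ[k] Ω :=
    { toFun := fun x => Q2_snd Ω (σ x)
      map_add' := fun x y => by rw [map_add, map_add]
      map_smul' := fun a x => by
        rw [Algebra.smul_def, map_mul, Q2_snd_mul, hσk, hsk, mul_zero, add_zero,
          RingHom.id_apply, Algebra.smul_def]
        rfl }
  refine ⟨Derivation.mk' L fun a b => ?_, fun i => ?_⟩
  · change Q2_snd Ω (σ (a * b)) = a • Q2_snd Ω (σ b) + b • Q2_snd Ω (σ a)
    rw [map_mul, Q2_snd_mul, hσ, hσ, smul_eq_mul, smul_eq_mul]
  · change Q2_snd Ω (σ (y i)) = c i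
    have h1 := hσj (Ideal.Quotient.mk I (X i))
    have h2 : jB (Ideal.Quotient.mk I (X i)) = y i := aeval_X y i
    rw [h2] at h1
    rw [h1]
    change Q2_snd Ω (Φ (X i)) = c i
    rw [hΦX, hs1]

theorem Q2_leib {k : Type} [Field k] {n : ℕ} {φ : Tens k n} (hφ : IsSymm4 φ) {Ω : Type}
    [Field Ω] [Algebra k Ω] (P c : Fin (n + 1) → Ω) (hc : Phi φ P P P c = 0)
    (hF : aeval P (FF φ) = 0) (H : MvPolynomial (Fin (n + 1)) k) :
    ∑ i, c i * aeval P (pderiv i (FF φ * H)) = 0 := by
  have h1 : ∀ i, c i * aeval P (pderiv i (FF φ * H)) =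
      aeval P H * (c i * aeval P (pderiv i (FF φ))) := by
    intro i
    rw [Derivation.leibniz, smul_eq_mul, smul_eq_mul, map_add, map_mul, map_mul, hF]
    ring
  simp only [h1]
  rw [← Finset.mul_sum, sum_pderiv_FF hφ, hc, mul_zero, mul_zero]

theorem exists_derivation_cone {k : Type} [Field k] [CharZero k] {n : ℕ} {φ : Tens k n}
    (hφ : IsSymm4 φ) {Ω : Type} [Field Ω] [Algebra k Ω] (P c : Fin (n + 1) → Ω)
    (hP : IsGenCone φ P) (hc : Phi φ P P P c = 0) :
    ∃ δ : Derivation k Ω Ω, ∀ i, δ (P i) = c i := by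
  refine exists_derivation_of_rel k Ω (Fin (n + 1)) P c fun G hG => ?_
  obtain ⟨H, rfl⟩ := (hP G).1 hG
  exact Q2_leib hφ P c hc ((hP _).2 (dvd_refl _)) H

theorem exists_derivation_pt {k : Type} [Field k] [CharZero k] {n : ℕ} {φ : Tens k n}
    (hφ : IsSymm4 φ) {Ω : Type} [Field Ω] [Algebra k Ω] (P c : Fin (n + 1) → Ω)
    (hP : IsGenPt φ P) (hc : Phi φ P P P c = 0) (hc0 : c 0 = 0) :
    ∃ δ : Derivation k Ω Ω, ∀ i, δ (P i) = c i := by
  refine exists_derivation_of_rel k Ω (Fin (n + 1)) P c fun G hG => ?_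
  set D := G.totalDegree with hD
  set Gh : MvPolynomial (Fin (n + 1)) k :=
    ∑ e ∈ Finset.range (D + 1), X 0 ^ (D - e) * homogeneousComponent e G with hGh
  have hsum : ∑ e ∈ Finset.range (D + 1), homogeneousComponent e G = G :=
    sum_homogeneousComponent G
  have hhom : Gh.IsHomogeneous D := by
    refine IsHomogeneous.sum _ _ _ fun e he => ?_
    have h1 : D = (D - e) + e := by
      have := Finset.mem_range.1 he
      omega
    have h2 : ((X 0 : MvPolynomial (Fin (n + 1)) k) ^ (D - e)).IsHomogeneous (D - e) := by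
      have h3 := (isHomogeneous_X k (0 : Fin (n + 1))).pow (D - e)
      rwa [one_mul] at h3
    have h3 := h2.mul (homogeneousComponent_isHomogeneous e G)
    rwa [← h1] at h3
  have h0 : aeval P Gh = 0 := by
    rw [hGh, map_sum]
    have h1 : ∀ e ∈ Finset.range (D + 1),
        aeval P (X 0 ^ (D - e) * homogeneousComponent e G) =
          aeval P (homogeneousComponent e G) := by
      intro e _
      rw [map_mul, map_pow, aeval_X, hP.1, one_pow, one_mul]
    rw [Finset.sum_congr rfl h1, ← map_sum, hsum, hG]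
  obtain ⟨H, hH⟩ := (hP.2 D Gh hhom).1 h0
  have hF : aeval P (FF φ) = 0 := (hP.2 4 _ (isHomogeneous_FF φ)).2 (dvd_refl _)
  have h2 := Q2_leib hφ P c hc hF H
  rw [← hH] at h2
  rw [← h2]
  refine Finset.sum_congr rfl fun i _ => ?_
  by_cases hi : i = 0
  · rw [hi, hc0, zero_mul, zero_mul]
  · congr 1
    conv_lhs => rw [← hsum]
    rw [hGh, map_sum, map_sum, map_sum, map_sum]
    refine Finset.sum_congr rfl fun e _ => ?_
    rw [Derivation.leibniz, Derivation.leibniz_pow, pderiv_X, Pi.single_eq_of_ne (Ne.symm hi),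
      smul_zero, smul_zero, smul_zero, add_zero, smul_eq_mul, map_mul, map_pow, aeval_X, hP.1,
      one_pow, one_mul]

end Pool.Agent.LibHP
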