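import Pool.Agent.LibHPF.T6

set_option autoImplicit false
open MvPolynomial

namespace Pool.Agent.LibHP

/-!
# Row T7: complete intersections are integral at points where the Jacobian has full rank
-/

/-- value and gradient at `z`, as a ring homomorphism into the square zero extension -/
noncomputable def T7_jet (Ω : Type) [Field Ω] (N : ℕ) (z : Fin N → Ω) :
    MvPolynomial (Fin N) Ω →ₐ[Ω] TrivSqZeroExt Ω (Fin N → Ω) :=
  aeval (fun i => TrivSqZeroExt.inl (z i) + TrivSqZeroExt.inr (Pi.single i 1))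

theorem T7_jet_fst (Ω : Type) [Field Ω] (N : ℕ) (z : Fin N → Ω) (f : MvPolynomial (Fin N) Ω) :
    (T7_jet Ω N z f).fst = eval z f := by
  have h : (TrivSqZeroExt.fstHom Ω Ω (Fin N → Ω)).comp (T7_jet Ω N z) = aeval z := by
    apply MvPolynomial.algHom_ext
    intro i
    simp [T7_jet]
  have h2 := DFunLike.congr_fun h f
  simpa [MvPolynomial.aeval_eq_eval] using h2

theorem T7_jet_snd (Ω : Type) [Field Ω] (N : ℕ) (z : Fin N → Ω) (f : MvPolynomial (Fin N) Ω) :
    (T7_jet Ω N z f).snd = fun j => eval z (pderiv j f) := by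
  induction f using MvPolynomial.induction_on with
  | C a =>
    funext j
    simp [T7_jet]
    rfl
  | add p q hp hq =>
    funext j
    rw [map_add, TrivSqZeroExt.snd_add, hp, hq]
    simp
  | mul_X p i hp =>
    funext j
    rw [map_mul, TrivSqZeroExt.snd_mul, hp, T7_jet_fst]
    have hX : T7_jet Ω N z (X i) = TrivSqZeroExt.inl (z i) + TrivSqZeroExt.inr (Pi.single i 1) := by
      simp [T7_jet]
    rw [hX]
    simp only [Derivation.leibniz, pderiv_X]
    by_cases hij : i = j
    · subst hij
      simp [mul_comm]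
    · simp [hij, mul_comm, Ne.symm hij]

theorem local_domain (Ω : Type) [Field Ω] (N e : ℕ) (g : Fin e → MvPolynomial (Fin N) Ω)
    (z : Fin N → Ω) (hz : ∀ i, eval z (g i) = 0)
    (hJ : LinearIndependent Ω (fun (i : Fin e) (j : Fin N) => eval z (pderiv j (g i))))
    (f h : MvPolynomial (Fin N) Ω) (hfh : f * h ∈ Ideal.span (Set.range g)) :
    ∃ s : MvPolynomial (Fin N) Ω, eval z s ≠ 0 ∧
      (s * f ∈ Ideal.span (Set.range g) ∨ s * h ∈ Ideal.span (Set.range g)) := by
  classical
  set mz : Ideal (MvPolynomial (Fin N) Ω) := RingHom.ker (eval z) with hmz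
  have hmzp : mz.IsPrime := RingHom.ker_isPrime (eval z)
  let Rz := Localization.AtPrime mz
  have hreg : IsRegularLocalRing Rz := inferInstance
  have hunit : ∀ y : mz.primeCompl, IsUnit ((T7_jet Ω N z).toRingHom (y : MvPolynomial (Fin N) Ω)) := by
    intro y
    rw [TrivSqZeroExt.isUnit_iff_isUnit_fst]
    have h1 : (T7_jet Ω N z (y : MvPolynomial (Fin N) Ω)).fst = eval z (y : MvPolynomial (Fin N) Ω) := T7_jet_fst _ _ _ _
    have h2 : eval z (y : MvPolynomial (Fin N) Ω) ≠ 0 := fun h0 => y.2 h0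
    refine isUnit_iff_ne_zero.mpr ?_
    intro h3
    exact h2 (h1.symm.trans h3)
  let Φ : Rz →+* TrivSqZeroExt Ω (Fin N → Ω) := IsLocalization.lift (M := mz.primeCompl) hunit
  have hΦ : ∀ p : MvPolynomial (Fin N) Ω, Φ (algebraMap _ Rz p) = T7_jet Ω N z p := fun p =>
    IsLocalization.lift_eq hunit p
  -- Φ sends the maximal ideal to the square zero part
  have hΦm : ∀ x : Rz, (x ∈ IsLocalRing.maximalIdeal Rz ↔ (Φ x).fst = 0) := by
    intro x
    constructor
    · intro hx
      have hx' : x ∈ Ideal.map (algebraMap _ Rz) mz := by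
        rw [Localization.AtPrime.map_eq_maximalIdeal]; exact hx
      have hle : Ideal.map (algebraMap _ Rz) mz ≤
          RingHom.ker ((TrivSqZeroExt.fstHom Ω Ω (Fin N → Ω) : _ →+* Ω).comp Φ) := by
        rw [Ideal.map_le_iff_le_comap]
        intro p hp
        rw [Ideal.mem_comap, RingHom.mem_ker, RingHom.comp_apply, hΦ]
        change (T7_jet Ω N z p).fst = 0
        rw [T7_jet_fst]
        exact hp
      exact hle hx'
    · intro hx
      by_contra hcon
      have hu : IsUnit x := by
        by_contra hnu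
        exact hcon ((IsLocalRing.mem_maximalIdeal x).mpr hnu)
      have h1 : IsUnit (Φ x) := hu.map Φ
      rw [TrivSqZeroExt.isUnit_iff_isUnit_fst, hx] at h1
      exact not_isUnit_zero h1
  have hΦ2 : ∀ x ∈ IsLocalRing.maximalIdeal Rz ^ 2, Φ x = 0 := by
    intro x hx
    have hle : IsLocalRing.maximalIdeal Rz ^ 2 ≤ RingHom.ker Φ := by
      rw [pow_two, Ideal.mul_le]
      intro a ha b hb
      rw [RingHom.mem_ker, map_mul]
      have ha' := (hΦm a).mp ha
      have hb' := (hΦm b).mp hb
      ext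
      · rw [TrivSqZeroExt.fst_mul, ha', zero_mul]; rfl
      · rw [TrivSqZeroExt.snd_mul, ha', hb']; simp
    exact hle hx
  have hgm : ∀ i, algebraMap _ Rz (g i) ∈ IsLocalRing.maximalIdeal Rz := by
    intro i
    rw [hΦm, hΦ, T7_jet_fst]
    exact hz i
  let x : Fin e → IsLocalRing.maximalIdeal Rz := fun i => ⟨algebraMap _ Rz (g i), hgm i⟩
  have hlin : LinearIndependent (IsLocalRing.ResidueField Rz)
      (fun i => (IsLocalRing.maximalIdeal Rz).toCotangent (x i)) := by
    rw [Fintype.linearIndependent_iff]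
    intro c hc
    choose r hr using fun i => IsLocalRing.residue_surjective (c i)
    have h1 : ∑ i, c i • (IsLocalRing.maximalIdeal Rz).toCotangent (x i)
        = (IsLocalRing.maximalIdeal Rz).toCotangent (∑ i, r i • x i) := by
      rw [map_sum]
      refine Finset.sum_congr rfl fun i _ => ?_
      rw [map_smul, ← hr i]
      rfl
    rw [h1, Ideal.toCotangent_eq_zero] at hc
    have h2 := hΦ2 _ hc
    have h3 : ((∑ i, r i • x i : IsLocalRing.maximalIdeal Rz) : Rz) = ∑ i, r i * algebraMap _ Rz (g i) := by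
      rw [AddSubmonoidClass.coe_finsetSum]
      rfl
    rw [h3, map_sum] at h2
    have h4 : ∑ i, (Φ (r i)).fst • (fun j : Fin N => eval z (pderiv j (g i))) = 0 := by
      have h5 := congrArg TrivSqZeroExt.snd h2
      rw [TrivSqZeroExt.snd_sum] at h5
      rw [← TrivSqZeroExt.snd_zero (R := Ω) (M := Fin N → Ω), ← h5]
      refine Finset.sum_congr rfl fun i _ => ?_
      rw [map_mul, TrivSqZeroExt.snd_mul, hΦ, T7_jet_fst, hz i, T7_jet_snd]
      simp
    have h5 := Fintype.linearIndependent_iff.mp hJ _ h4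
    intro i
    rw [← hr i]
    rw [IsLocalRing.residue_eq_zero_iff, hΦm]
    exact h5 i
  have hspan : Ideal.map (algebraMap _ Rz) (Ideal.span (Set.range g))
      = Ideal.span (Set.range fun i => (x i : Rz)) := by
    rw [Ideal.map_span, ← Set.range_comp]
    rfl
  obtain ⟨hO, -⟩ := T6_regular_quotient Rz e x hlin (Ideal.map (algebraMap _ Rz) (Ideal.span (Set.range g))) hspan
  have hdom := isDomain_of_regular (Rz ⧸ Ideal.map (algebraMap _ Rz) (Ideal.span (Set.range g)))
  have hprime := (Ideal.Quotient.isDomain_iff_prime _).mp hdom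
  have hmem : algebraMap _ Rz f * algebraMap _ Rz h ∈ Ideal.map (algebraMap _ Rz) (Ideal.span (Set.range g)) := by
    rw [← map_mul]
    exact Ideal.mem_map_of_mem _ hfh
  have hback : ∀ q : MvPolynomial (Fin N) Ω,
      algebraMap _ Rz q ∈ Ideal.map (algebraMap _ Rz) (Ideal.span (Set.range g)) →
      ∃ s : MvPolynomial (Fin N) Ω, eval z s ≠ 0 ∧ s * q ∈ Ideal.span (Set.range g) := by
    intro q hq
    rw [IsLocalization.mem_map_algebraMap_iff mz.primeCompl] at hq
    obtain ⟨⟨a, s⟩, has⟩ := hq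
    simp only at has
    rw [← map_mul] at has
    obtain ⟨c, hc⟩ := (IsLocalization.eq_iff_exists mz.primeCompl Rz).mp has
    refine ⟨(c : MvPolynomial (Fin N) Ω) * s, ?_, ?_⟩
    · rw [map_mul]
      refine mul_ne_zero ?_ ?_
      · intro h0; exact c.2 h0
      · intro h0; exact s.2 h0
    · have : (c : MvPolynomial (Fin N) Ω) * s * q = c * (q * s) := by ring
      rw [this, hc]
      exact Ideal.mul_mem_left _ _ a.2
  rcases hprime.mem_or_mem hmem with h1 | h1
  · obtain ⟨s, hs, hs2⟩ := hback f h1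
    exact ⟨s, hs, Or.inl hs2⟩
  · obtain ⟨s, hs, hs2⟩ := hback h h1
    exact ⟨s, hs, Or.inr hs2⟩

end Pool.Agent.LibHP
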