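import Pool.Agent.LibHPF.Q7

set_option autoImplicit false
open MvPolynomial

namespace Pool.Agent.LibHP

variable {k : Type} [Field k] [CharZero k] {n : ℕ} {φ : Tens k n}

/-!
# Row Q8: a generic linear section misses the lines through the generic point

PLAN. Write `P'` for the image of `P` in `Ω1` (generic again, `IsGenPt.map`). Suppose `x` is not a multiple of
`P'`. By `lemmaB` the four functionals `L i` (`Phi φ P' P' P'`, `Phi φ P' P' x`, `Phi φ P' x x`, `Phi φ x x x`) are
linearly independent, so `E = {b | ∀ i, L i b = 0}` has dimension `n + 1 - 4 = n - 3`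
(the map `(Fin (n+1) → Ω1) → (Fin 4 → Ω1)` is surjective; rank-nullity). The linear map
`Λ : E → (Fin (n - 4) → Ω1)`, `Λ b i = ∑ j, h (i, j) * (b j - b 0 * P' j)`, has `P'` and `x` in its kernel (they
are in `E`: the four values of `L` at `P'` and `x` are the hypotheses up to symmetry, `Phi φ P' P' P' P' = 0`;
`Λ P' = 0` as `P' 0 = 1`), and they are linearly independent. `Λ` is surjective: let `t` be given; `x - x 0 • P'`
has a nonzero coordinate `j1`; by `exists_derivation_of_rel` with base field `Ω0`, the family `h` (algebraically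
independent, so the relation hypothesis is void) and the values `c (i, j) = -t i / (x j1 - x 0 * P' j1)` for
`j = j1` and `0` otherwise, there is a derivation `δ` of `Ω1` over `Ω0` with `δ (h (i, j)) = c (i, j)`; then
`b = δ x` is in `E` (apply `δ` to the four equations `h1 … h4`; `δ P' = 0`) and applying `δ` to `hx`:
`∑ j, c (i, j) * (x j - x 0 * P' j) + Λ b i = 0`, so `Λ b i = t i`. Hence
`n - 3 = dim E ≥ (n - 4) + 2`, contradiction. (`n = 4`: then `m = 0`, same count.)
-/

private theorem Q8_const {k : Type} [Field k] {n : ℕ} {φ : Tens k n} {R : Type} [CommRing R] [Algebra k R]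
    (hφ : IsSymm4 φ) (D : Derivation k R R) (P x : Fin (n + 1) → R) (hP : ∀ i, D (P i) = 0) :
    D (Phi φ P P P x) = Phi φ P P P (fun i => D (x i)) ∧
    D (Phi φ P P x x) = 2 * Phi φ P P x (fun i => D (x i)) ∧
    D (Phi φ P x x x) = 3 * Phi φ P x x (fun i => D (x i)) := by
  have h0 : (fun i => D (P i)) = 0 := by
    funext i
    exact hP i
  have z1 : ∀ b c d : Fin (n + 1) → R, Phi φ 0 b c d = 0 := by
    intro b c d
    rw [Phi_comm12 hφ, Phi_comm23 hφ, Phi_comm34 hφ, Phi_zero4]
  have z2 : ∀ a c d : Fin (n + 1) → R, Phi φ a 0 c d = 0 := by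
    intro a c d
    rw [Phi_comm23 hφ, Phi_comm34 hφ, Phi_zero4]
  have z3 : ∀ a b d : Fin (n + 1) → R, Phi φ a b 0 d = 0 := by
    intro a b d
    rw [Phi_comm34 hφ, Phi_zero4]
  refine ⟨?_, ?_, ?_⟩
  · rw [Phi_deriv, h0, z1, z2, z3]
    ring
  · rw [Phi_deriv, h0, z1, z2, Phi_comm34 hφ P P (fun i => D (x i)) x]
    ring
  · rw [Phi_deriv, h0, z1, Phi_comm23 hφ P (fun i => D (x i)) x x,
      Phi_comm34 hφ P x (fun i => D (x i)) x]
    ring

theorem lines_section (hφ : IsSymm4 φ) (hs : Smooth4 φ) (hn : 4 ≤ n) {Ω0 Ω1 : Type} [Field Ω0]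
    [Algebra k Ω0] [Field Ω1] [Algebra k Ω1] [Algebra Ω0 Ω1] [IsScalarTower k Ω0 Ω1]
    (P : Fin (n + 1) → Ω0) (hP : IsGenPt φ P) (h : Fin (n - 4) × Fin (n + 1) → Ω1)
    (hh : AlgebraicIndependent Ω0 h) (P' x : Fin (n + 1) → Ω1)
    (hP' : ∀ i, P' i = algebraMap Ω0 Ω1 (P i))
    (h1 : Phi φ P' P' P' x = 0) (h2 : Phi φ P' P' x x = 0) (h3 : Phi φ P' x x x = 0)
    (h4 : Phi φ x x x x = 0) (hx : ∀ i, ∑ j, h (i, j) * (x j - x 0 * P' j) = 0) :
    ∃ c : Ω1, x = c • P' := by
  classical
  by_contra hcon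
  push Not at hcon
  have : CharZero Ω0 := charZero_of_injective_algebraMap (algebraMap k Ω0).injective
  have : CharZero Ω1 := charZero_of_injective_algebraMap (algebraMap k Ω1).injective
  have hG : IsGenPt φ P' := by
    have h5 := hP.map (IsScalarTower.toAlgHom k Ω0 Ω1)
    have h6 : P' = fun i => (IsScalarTower.toAlgHom k Ω0 Ω1) (P i) := by
      funext i
      exact hP' i
    rw [h6]
    exact h5
  have hP0 : P' 0 = 1 := hG.1
  have h0 : Phi φ P' P' P' P' = 0 := hG.self
  -- the four functionals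
  obtain ⟨T, hT⟩ : ∃ T : (Fin (n + 1) → Ω1) →ₗ[Ω1] (Fin 4 → Ω1), T = LinearMap.pi
    ![PhiL φ P' P' P', PhiL φ P' P' x, PhiL φ P' x x, PhiL φ x x x] := ⟨_, rfl⟩
  have hT0 : ∀ b, T b 0 = Phi φ P' P' P' b := fun b => by rw [hT]; rfl
  have hT1 : ∀ b, T b 1 = Phi φ P' P' x b := fun b => by rw [hT]; rfl
  have hT2 : ∀ b, T b 2 = Phi φ P' x x b := fun b => by rw [hT]; rfl
  have hT3 : ∀ b, T b 3 = Phi φ x x x b := fun b => by rw [hT]; rfl
  have hTs : LinearMap.range T = ⊤ := by
    by_contra hne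
    obtain ⟨f, hf, hle⟩ := Submodule.exists_le_ker_of_lt_top _ (lt_top_iff_ne_top.2 hne)
    obtain ⟨ρ, hρ⟩ : ∃ ρ : Fin 4 → Ω1, ρ = fun i => f (Pi.single i 1) := ⟨_, rfl⟩
    have hfy : ∀ y : Fin 4 → Ω1, f y = ∑ i, y i * ρ i := by
      intro y
      have h7 := f.pi_apply_eq_sum_univ y
      rw [h7]
      refine Finset.sum_congr rfl fun i _ => ?_
      rw [smul_eq_mul, hρ]
      congr 2
      funext j
      rw [Pi.single_apply]
      simp only [eq_comm]
    have hρ0 : ρ = 0 := by
      refine lemmaB hφ hs P' x hG h1 h2 h3 h4 hcon ρ fun a => ?_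
      have h8 : f (T a) = 0 := hle ⟨a, rfl⟩
      rw [hfy, Fin.sum_univ_four, hT0, hT1, hT2, hT3] at h8
      rw [← h8]
      ring
    apply hf
    ext y
    rw [LinearMap.comp_apply, LinearMap.zero_comp, LinearMap.zero_apply, hfy, hρ0]
    simp
  -- the linear section
  obtain ⟨Λ, hΛ⟩ : ∃ Λ : (Fin (n + 1) → Ω1) →ₗ[Ω1] (Fin (n - 4) → Ω1),
      ∀ b i, Λ b i = ∑ j, h (i, j) * (b j - b 0 * P' j) := by
    refine ⟨⟨⟨fun b i => ∑ j, h (i, j) * (b j - b 0 * P' j), ?_⟩, ?_⟩, fun b i => rfl⟩
    · intro a b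
      funext i
      show ∑ j, h (i, j) * ((a j + b j) - (a 0 + b 0) * P' j) =
        ∑ j, h (i, j) * (a j - a 0 * P' j) + ∑ j, h (i, j) * (b j - b 0 * P' j)
      rw [← Finset.sum_add_distrib]
      refine Finset.sum_congr rfl fun j _ => ?_
      ring
    · intro r b
      funext i
      simp only [RingHom.id_apply, Pi.smul_apply, smul_eq_mul, Finset.mul_sum]
      refine Finset.sum_congr rfl fun j _ => ?_
      ring
  have hΛs : ∀ t : Fin (n - 4) → Ω1, ∃ b, T b = 0 ∧ Λ b = t := by
    intro t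
    obtain ⟨j1, hj1⟩ : ∃ j1, x j1 - x 0 * P' j1 ≠ 0 := by
      by_contra hall
      push Not at hall
      apply hcon (x 0)
      funext j
      rw [Pi.smul_apply, smul_eq_mul]
      exact sub_eq_zero.1 (hall j)
    obtain ⟨c, hc⟩ : ∃ c : Fin (n - 4) × Fin (n + 1) → Ω1,
      c = fun q => if q.2 = j1 then -t q.1 / (x j1 - x 0 * P' j1) else 0 := ⟨_, rfl⟩
    obtain ⟨δ, hδ⟩ := exists_derivation_of_rel Ω0 Ω1 (Fin (n - 4) × Fin (n + 1)) h c (by
      intro G hG0
      have h9 : G = 0 := (injective_iff_map_eq_zero _).1 hh G hG0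
      rw [h9]
      simp)
    obtain ⟨D, hD⟩ : ∃ D : Derivation k Ω1 Ω1, ∀ y, D y = δ y := ⟨δ.restrictScalars k, fun y => rfl⟩
    have hDP : ∀ i, D (P' i) = 0 := by
      intro i
      rw [hD, hP', δ.map_algebraMap]
    obtain ⟨e1, e2, e3⟩ := Q8_const hφ D P' x hDP
    have e4 := Phi_deriv4 hφ D x
    rw [h1, map_zero] at e1
    rw [h2, map_zero] at e2
    rw [h3, map_zero] at e3
    rw [h4, map_zero] at e4
    refine ⟨fun i => D (x i), ?_, ?_⟩
    · funext i
      fin_cases i
      · exact (hT0 _).trans e1.symm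
      · refine (hT1 _).trans ?_
        rcases mul_eq_zero.1 e2.symm with h | h
        · exact absurd h two_ne_zero
        · exact h
      · refine (hT2 _).trans ?_
        rcases mul_eq_zero.1 e3.symm with h | h
        · exact absurd h three_ne_zero
        · exact h
      · refine (hT3 _).trans ?_
        rcases mul_eq_zero.1 e4.symm with h | h
        · exact absurd h (by norm_num)
        · exact h
    · funext i
      rw [hΛ]
      have h10 := congrArg D (hx i)
      rw [map_zero, map_sum] at h10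
      have h11 : ∀ j, D (h (i, j) * (x j - x 0 * P' j)) =
          c (i, j) * (x j - x 0 * P' j) + h (i, j) * (D (x j) - D (x 0) * P' j) := by
        intro j
        rw [Derivation.leibniz, map_sub, Derivation.leibniz, hDP, hD (h (i, j)), hδ]
        simp only [smul_eq_mul]
        ring
      rw [Finset.sum_congr rfl fun j _ => h11 j, Finset.sum_add_distrib] at h10
      have h12 : ∑ j, c (i, j) * (x j - x 0 * P' j) = -t i := by
        rw [Finset.sum_eq_single j1]
        · rw [hc]
          dsimp only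
          rw [if_pos rfl, div_mul_cancel₀ _ hj1]
        · intro j _ hj
          rw [hc]
          dsimp only
          rw [if_neg hj, zero_mul]
        · intro hj
          exact absurd (Finset.mem_univ j1) hj
      rw [h12] at h10
      linear_combination h10
  -- dimension count
  obtain ⟨M, hM⟩ : ∃ M : (Fin (n + 1) → Ω1) →ₗ[Ω1] (Fin 4 → Ω1) × (Fin (n - 4) → Ω1), M = T.prod Λ :=
    ⟨_, rfl⟩
  have hMs : LinearMap.range M = ⊤ := by
    rw [LinearMap.range_eq_top]
    rintro ⟨u, t⟩
    obtain ⟨b0, hb0⟩ := LinearMap.range_eq_top.1 hTs u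
    obtain ⟨b1, hb1, hb1'⟩ := hΛs (t - Λ b0)
    refine ⟨b0 + b1, ?_⟩
    rw [hM, LinearMap.prod_apply]
    show (T (b0 + b1), Λ (b0 + b1)) = (u, t)
    rw [map_add, map_add, hb0, hb1, hb1', add_zero, add_sub_cancel]
  have hdim := LinearMap.finrank_range_add_finrank_ker M
  rw [hMs, finrank_top, Module.finrank_prod, Module.finrank_fin_fun, Module.finrank_fin_fun,
    Module.finrank_fin_fun] at hdim
  have hker : Module.finrank Ω1 (LinearMap.ker M) = 1 := by omega
  have hP'M : P' ∈ LinearMap.ker M := by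
    rw [LinearMap.mem_ker, hM]
    show (T P', Λ P') = (0, 0)
    refine Prod.ext ?_ ?_
    · funext i
      fin_cases i
      · exact (hT0 _).trans h0
      · refine (hT1 _).trans ?_
        rw [Phi_comm34 hφ]
        exact h1
      · refine (hT2 _).trans ?_
        rw [Phi_comm34 hφ, Phi_comm23 hφ]
        exact h2
      · refine (hT3 _).trans ?_
        rw [Phi_comm34 hφ, Phi_comm23 hφ, Phi_comm12 hφ]
        exact h3
    · funext i
      refine (hΛ _ _).trans ?_
      refine Finset.sum_eq_zero fun j _ => ?_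
      rw [hP0, one_mul, sub_self, mul_zero]
  have hxM : x ∈ LinearMap.ker M := by
    rw [LinearMap.mem_ker, hM]
    show (T x, Λ x) = (0, 0)
    refine Prod.ext ?_ ?_
    · funext i
      fin_cases i
      · exact (hT0 _).trans h1
      · exact (hT1 _).trans h2
      · exact (hT2 _).trans h3
      · exact (hT3 _).trans h4
    · funext i
      exact (hΛ _ _).trans (hx i)
  have hP'0 : (⟨P', hP'M⟩ : LinearMap.ker M) ≠ 0 := by
    intro h13
    have h14 : P' = 0 := congrArg Subtype.val h13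
    rw [h14] at hP0
    exact zero_ne_one hP0
  obtain ⟨c, hc⟩ := (finrank_eq_one_iff_of_nonzero' _ hP'0).1 hker ⟨x, hxM⟩
  exact hcon c (congrArg Subtype.val hc).symm

end Pool.Agent.LibHP
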