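import Pool.Agent.LibHPF.Q4
import Pool.Agent.LibHPF.Q8

set_option autoImplicit false
open MvPolynomial

namespace Pool.Agent.LibHP

variable {k : Type} [Field k] [CharZero k] {n : ℕ} {φ : Tens k n}

/-!
# Row Q11: a special point of the prime divisor on an asymptotic cone (existence part of Lemma D)

`d` (with `d i0 = 1`) is the generic point of a prime divisor `D` of the hypersurface: transcendence degree at
least `n - 2`, `F(d) = 0`, and some form `G0` vanishes at `d` but not on the hypersurface. There is a point `x`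
of `D` (over a large field), asymptotic at the generic point `P'`, with `Phi φ P' x x x ≠ 0`.

PLAN. Let `κ', f, s` be as in `exists_cone_of_point` for `d`, `T` (so `N + 1 = n - 2 + 1` independent elements).
Let `A = MvPolynomial (Fin (n - 4) × Fin (n + 1)) K`, `Ω = AlgebraicClosure (FractionRing A)`, a `K`-algebra,
`P' i` the image of `P i` (generic, `IsGenPt.map`), `h (i, j)` the images of the variables (algebraically
independent over `K`). Apply `exists_common_zero` (base field `k`, `κ := κ'`, `x := s • f d`, `N = n - 2`, the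
relation ideal is stable under homogeneous components by the first property of `exists_cone_of_point`) to the
`2 + (n - 4) = n - 2` forms over `Ω`: `Phi φ P' P' P' X` (degree 1), `Phi φ P' P' X X` (degree 2),
`∑ j, C (h (i, j)) * (X j - C (P' j) * X 0)` (degree 1; all of these have to be written as polynomials:
`Phi φ (fun i => C (P' i)) … X`, homogeneous by `isHomogeneous_Phi`-type arguments as in `isHomogeneous_FF`;
reindex `Fin (n - 2) ≃ Fin 2 ⊕ Fin (n - 4)`). It gives `x ≠ 0` in `Fin (n + 1) → Ω`. Forms vanishing at `d`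
vanish at `s • f d` (scaling), so at `x`. `Phi φ x x x x = 0` from `hF` (`aeval_FF`, `isHomogeneous_FF`).
If `Phi φ P' x x x = 0` then `lines_section` gives `x = c • P'`, `c ≠ 0`, and
`0 = aeval x G0 = c ^ e0 * aeval P' G0`, so `FF φ ∣ G0` by `IsGenPt`, contradiction.
-/

/-- scaling of the argument of a form -/
theorem Q11_scale {R σ K : Type} [CommSemiring R] [CommSemiring K] [Algebra R K] {e : ℕ}
    {G : MvPolynomial σ R} (hG : G.IsHomogeneous e) (c : K) (x : σ → K) :
    aeval (fun i => c * x i) G = c ^ e * aeval x G := by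
  rw [aeval_def, eval₂_eq, aeval_def, eval₂_eq, Finset.mul_sum]
  refine Finset.sum_congr rfl fun m hm => ?_
  have h1 : ∏ i ∈ m.support, (c * x i) ^ m i = c ^ e * ∏ i ∈ m.support, x i ^ m i := by
    simp only [mul_pow]
    rw [Finset.prod_mul_distrib, Finset.prod_pow_eq_pow_sum]
    congr 2
    exact (hG.degree_eq_sum_deg_support hm).symm
  rw [h1]
  ring

section Forms
variable {K : Type} [Field K] [Algebra k K]

/-- first form -/
noncomputable def Q11_A (φ : Tens k n) (P : Fin (n + 1) → K) : MvPolynomial (Fin (n + 1)) K :=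
  Phi φ (fun i => C (P i)) (fun i => C (P i)) (fun i => C (P i)) X

/-- second form -/
noncomputable def Q11_B (φ : Tens k n) (P : Fin (n + 1) → K) : MvPolynomial (Fin (n + 1)) K :=
  Phi φ (fun i => C (P i)) (fun i => C (P i)) X X

/-- linear forms -/
noncomputable def Q11_L (P h : Fin (n + 1) → K) : MvPolynomial (Fin (n + 1)) K :=
  ∑ j, C (h j) * (X j - C (P j) * X 0)

omit [CharZero k] in
theorem Q11_algebraMap (c : k) :
    algebraMap k (MvPolynomial (Fin (n + 1)) K) c = C (algebraMap k K c) :=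
  MvPolynomial.algebraMap_apply c

omit [CharZero k] in
theorem Q11_homA (P : Fin (n + 1) → K) : (Q11_A φ P).IsHomogeneous 1 := by
  unfold Q11_A Phi
  refine IsHomogeneous.sum _ _ _ fun i _ => IsHomogeneous.sum _ _ _ fun j _ =>
    IsHomogeneous.sum _ _ _ fun s _ => IsHomogeneous.sum _ _ _ fun t _ => ?_
  rw [Q11_algebraMap]
  exact (isHomogeneous_C _ _).mul
    ((((isHomogeneous_C _ _).mul (isHomogeneous_C _ _)).mul (isHomogeneous_C _ _)).mul
      (isHomogeneous_X K t))

omit [CharZero k] in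
theorem Q11_homB (P : Fin (n + 1) → K) : (Q11_B φ P).IsHomogeneous 2 := by
  unfold Q11_B Phi
  refine IsHomogeneous.sum _ _ _ fun i _ => IsHomogeneous.sum _ _ _ fun j _ =>
    IsHomogeneous.sum _ _ _ fun s _ => IsHomogeneous.sum _ _ _ fun t _ => ?_
  rw [Q11_algebraMap]
  exact (isHomogeneous_C _ _).mul
    ((((isHomogeneous_C _ _).mul (isHomogeneous_C _ _)).mul (isHomogeneous_X K s)).mul
      (isHomogeneous_X K t))

theorem Q11_homL (P h : Fin (n + 1) → K) : (Q11_L P h).IsHomogeneous 1 := by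
  unfold Q11_L
  refine IsHomogeneous.sum _ _ _ fun j _ => ?_
  have h1 : (C (P j) * X 0 : MvPolynomial (Fin (n + 1)) K).IsHomogeneous (0 + 1) :=
    (isHomogeneous_C (Fin (n + 1)) (P j)).mul (isHomogeneous_X K 0)
  have h2 : (C (h j) * (X j - C (P j) * X 0) : MvPolynomial (Fin (n + 1)) K).IsHomogeneous
      (0 + 1) := (isHomogeneous_C _ _).mul ((isHomogeneous_X K j).sub h1)
  exact h2

omit [CharZero k] in
theorem Q11_evalA (P y : Fin (n + 1) → K) : eval y (Q11_A φ P) = Phi φ P P P y := by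
  unfold Q11_A
  rw [Phi_map_ringHom φ (eval y) (fun c => by rw [Q11_algebraMap, eval_C])]
  simp only [eval_C, eval_X]

omit [CharZero k] in
theorem Q11_evalB (P y : Fin (n + 1) → K) : eval y (Q11_B φ P) = Phi φ P P y y := by
  unfold Q11_B
  rw [Phi_map_ringHom φ (eval y) (fun c => by rw [Q11_algebraMap, eval_C])]
  simp only [eval_C, eval_X]

theorem Q11_evalL (P h y : Fin (n + 1) → K) :
    eval y (Q11_L P h) = ∑ j, h j * (y j - y 0 * P j) := by
  unfold Q11_L
  rw [map_sum]
  refine Finset.sum_congr rfl fun j _ => ?_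
  simp only [map_mul, map_sub, eval_C, eval_X]
  ring

end Forms

theorem Q11_core (hφ : IsSymm4 φ) (hs : Smooth4 φ) (hn : 4 ≤ n) {K : Type} [Field K]
    [Algebra k K] (P : Fin (n + 1) → K) (hP : IsGenPt φ P) {κ : Type} [Field κ] [Algebra k κ]
    (d : Fin (n + 1) → κ) (i0 : Fin (n + 1)) (hd : d i0 = 1) (hF : Phi φ d d d d = 0)
    (T : Fin (n - 2) → MvPolynomial (Fin (n + 1)) k)
    (hT : AlgebraicIndependent k fun i => aeval d (T i))
    (e0 : ℕ) (G0 : MvPolynomial (Fin (n + 1)) k) (hG0 : G0.IsHomogeneous e0)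
    (hG0d : aeval d G0 = 0) (hG0F : ¬ FF φ ∣ G0) (Ω : Type) [Field Ω] [IsAlgClosed Ω]
    [Algebra k Ω] [Algebra K Ω] [IsScalarTower k K Ω] (h : Fin (n - 4) × Fin (n + 1) → Ω)
    (hh : AlgebraicIndependent K h) :
    ∃ (P' x : Fin (n + 1) → Ω), IsGenPt φ P' ∧ x ≠ 0 ∧
      (∀ (e : ℕ) (G : MvPolynomial (Fin (n + 1)) k), G.IsHomogeneous e → aeval d G = 0 →
        aeval x G = 0) ∧
      Phi φ P' P' P' x = 0 ∧ Phi φ P' P' x x = 0 ∧ Phi φ P' x x x ≠ 0 := by
  obtain ⟨κ', _, _, f, s, hs0, hker, hind⟩ := exists_cone_of_point k (Fin (n + 1)) κ d i0 hd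
  obtain ⟨T', hT'⟩ := hind (n - 2) T hT
  -- forms vanishing at `d` vanish at the cone point
  have hform : ∀ (e : ℕ) (G : MvPolynomial (Fin (n + 1)) k), G.IsHomogeneous e →
      aeval d G = 0 → aeval (fun i => s * f (d i)) G = 0 := by
    intro e G hG hGd
    rw [hker]
    intro e'
    rw [homogeneousComponent_of_mem hG]
    split_ifs
    · exact hGd
    · exact map_zero _
  have hP' : IsGenPt φ (fun i => algebraMap K Ω (P i)) :=
    hP.map (IsScalarTower.toAlgHom k K Ω)
  obtain ⟨P', hPP'⟩ : ∃ P' : Fin (n + 1) → Ω, P' = fun i => algebraMap K Ω (P i) := ⟨_, rfl⟩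
  rw [← hPP'] at hP'
  have hcard : n - 2 = 2 + (n - 4) := by omega
  let eqv : Fin (n - 2) ≃ Fin 2 ⊕ Fin (n - 4) := (finCongr hcard).trans finSumFinEquiv.symm
  let fm : Fin 2 ⊕ Fin (n - 4) → MvPolynomial (Fin (n + 1)) Ω :=
    Sum.elim ![Q11_A φ P', Q11_B φ P'] (fun i => Q11_L P' (fun j => h (i, j)))
  let dg : Fin 2 ⊕ Fin (n - 4) → ℕ := Sum.elim ![1, 2] (fun _ => 1)
  have hdg : ∀ i, 0 < dg i := by
    rintro (i | i)
    · fin_cases i
      · exact Nat.one_pos
      · exact Nat.two_pos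
    · exact Nat.one_pos
  have hfm : ∀ i, (fm i).IsHomogeneous (dg i) := by
    rintro (i | i)
    · fin_cases i
      · exact Q11_homA P'
      · exact Q11_homB P'
    · exact Q11_homL P' _
  obtain ⟨y, hy0, hyG, hyf⟩ := exists_common_zero k (Fin (n + 1)) Ω κ' (fun i => s * f (d i))
    (fun G hG e => hform e _ (homogeneousComponent_isHomogeneous e G) ((hker G).mp hG e))
    (n - 2) T' hT' (fun i => fm (eqv i)) (fun i => dg (eqv i)) (fun i => hdg _) (fun i => hfm _)
  have hyf' : ∀ i, eval y (fm i) = 0 := fun i => by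
    have := hyf (eqv.symm i)
    rwa [eqv.apply_symm_apply] at this
  have e1 : Phi φ P' P' P' y = 0 := by
    rw [← Q11_evalA]
    exact hyf' (Sum.inl 0)
  have e2 : Phi φ P' P' y y = 0 := by
    rw [← Q11_evalB]
    exact hyf' (Sum.inl 1)
  have e3 : ∀ i, ∑ j, h (i, j) * (y j - y 0 * P' j) = 0 := fun i => by
    rw [← Q11_evalL P' (fun j => h (i, j)) y]
    exact hyf' (Sum.inr i)
  have hyd : ∀ (e : ℕ) (G : MvPolynomial (Fin (n + 1)) k), G.IsHomogeneous e → aeval d G = 0 →
      aeval y G = 0 := fun e G hG hGd => hyG G (hform e G hG hGd)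
  have e4 : Phi φ y y y y = 0 := by
    rw [← aeval_FF]
    refine hyd 4 _ (isHomogeneous_FF φ) ?_
    rw [aeval_FF, hF]
  refine ⟨P', y, hP', hy0, hyd, e1, e2, fun e5 => ?_⟩
  obtain ⟨c, hc⟩ := lines_section hφ hs hn P hP h hh P' y (fun i => congrFun hPP' i) e1 e2 e5 e4 e3
  have hc0 : c ≠ 0 := by
    rintro rfl
    exact hy0 (by rw [hc, zero_smul])
  have h6 := hyd e0 G0 hG0 hG0d
  have h7 : y = fun i => c * P' i := hc
  rw [h7, Q11_scale hG0] at h6
  rcases mul_eq_zero.mp h6 with h8 | h8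
  · exact hc0 (eq_zero_of_pow_eq_zero h8)
  · exact hG0F ((hP'.2 e0 G0 hG0).mp h8)

theorem Q11_ind (K ι : Type) [Field K] :
    ∃ (Ω : Type) (_ : Field Ω) (_ : IsAlgClosed Ω) (_ : Algebra K Ω) (h : ι → Ω),
      AlgebraicIndependent K h := by
  obtain ⟨F, hF1, hF2, h, hh⟩ : ∃ (F : Type) (_ : Field F) (_ : Algebra K F) (h : ι → F),
      AlgebraicIndependent K h := by
    refine ⟨FractionRing (MvPolynomial ι K), inferInstance, inferInstance,
      fun p => algebraMap (MvPolynomial ι K) (FractionRing (MvPolynomial ι K)) (X p), ?_⟩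
    exact (MvPolynomial.algebraicIndependent_X ι K).map'
      (f := IsScalarTower.toAlgHom K (MvPolynomial ι K) (FractionRing (MvPolynomial ι K)))
      (IsFractionRing.injective (MvPolynomial ι K) (FractionRing (MvPolynomial ι K)))
  refine ⟨AlgebraicClosure F, inferInstance, inferInstance, inferInstance,
    fun p => algebraMap F (AlgebraicClosure F) (h p), ?_⟩
  exact hh.map' (f := IsScalarTower.toAlgHom K F (AlgebraicClosure F))
    (algebraMap F (AlgebraicClosure F)).injective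

theorem exists_special_point (hφ : IsSymm4 φ) (hs : Smooth4 φ) (hn : 4 ≤ n) {K : Type} [Field K]
    [Algebra k K] (P : Fin (n + 1) → K) (hP : IsGenPt φ P) {κ : Type} [Field κ] [Algebra k κ]
    (d : Fin (n + 1) → κ) (i0 : Fin (n + 1)) (hd : d i0 = 1) (hF : Phi φ d d d d = 0)
    (T : Fin (n - 2) → MvPolynomial (Fin (n + 1)) k)
    (hT : AlgebraicIndependent k fun i => aeval d (T i))
    (e0 : ℕ) (G0 : MvPolynomial (Fin (n + 1)) k) (hG0 : G0.IsHomogeneous e0)
    (hG0d : aeval d G0 = 0) (hG0F : ¬ FF φ ∣ G0) :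
    ∃ (Ω : Type) (_ : Field Ω) (_ : Algebra k Ω) (P' x : Fin (n + 1) → Ω), IsGenPt φ P' ∧ x ≠ 0 ∧
      (∀ (e : ℕ) (G : MvPolynomial (Fin (n + 1)) k), G.IsHomogeneous e → aeval d G = 0 →
        aeval x G = 0) ∧
      Phi φ P' P' P' x = 0 ∧ Phi φ P' P' x x = 0 ∧ Phi φ P' x x x ≠ 0 := by
  obtain ⟨Ω, _, _, _, h, hh⟩ := Q11_ind K (Fin (n - 4) × Fin (n + 1))
  letI : Algebra k Ω := ((algebraMap K Ω).comp (algebraMap k K)).toAlgebra
  haveI : IsScalarTower k K Ω := IsScalarTower.of_algebraMap_eq fun _ => rfl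
  obtain ⟨P', x, hx⟩ := Q11_core hφ hs hn P hP d i0 hd hF T hT e0 G0 hG0 hG0d hG0F Ω h hh
  exact ⟨Ω, _, _, P', x, hx⟩

end Pool.Agent.LibHP
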