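import Mathlib

set_option autoImplicit false
open MvPolynomial

namespace Pool.Agent.LibHP

/-!
# Row Q12: Jacobian criterion and going down (only Mathlib)
-/

theorem Q12_minor {K : Type*} [Field K] {d n : ℕ} (W : Matrix (Fin d) (Fin n) K)
    (h : LinearIndependent K W.row) :
    ∃ s : Fin d → Fin n, Function.Injective s ∧ (W.submatrix id s).det ≠ 0 := by
  classical
  have hr : W.rank = d := by rw [h.rank_matrix, Fintype.card_fin]
  rw [Matrix.rank_eq_finrank_span_cols] at hr
  have htop : Submodule.span K (Set.range W.col) = ⊤ := by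
    apply Submodule.eq_top_of_finrank_eq
    rw [hr, Module.finrank_fin_fun]
  obtain ⟨t, ht1, ht2, ht3⟩ := exists_linearIndependent K (Set.range W.col)
  rw [htop] at ht2
  let bt : Module.Basis t K (Fin d → K) := Module.Basis.mk ht3 (by rw [Subtype.range_coe]; exact ht2.ge)
  let bs : Module.Basis (Fin d) K (Fin d → K) := Pi.basisFun K (Fin d)
  let e : Fin d ≃ t := bs.indexEquiv bt
  have hs : ∀ i : Fin d, ∃ j : Fin n, W.col j = (e i : Fin d → K) := fun i => ht1 (e i).2
  choose s hs using hs
  have hdet : (W.submatrix id s).det ≠ 0 := by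
    have hli : LinearIndependent K (W.submatrix id s).transpose.row := by
      have h1 : (W.submatrix id s).transpose.row = fun i => ((e i : t) : Fin d → K) := by
        funext i
        rw [← hs i]
        rfl
      rw [h1]
      exact ht3.comp e e.injective
    rw [Matrix.linearIndependent_rows_iff_isUnit, Matrix.isUnit_iff_isUnit_det,
      Matrix.det_transpose] at hli
    exact hli.ne_zero
  refine ⟨s, ?_, hdet⟩
  intro i j hij
  by_contra hne
  apply hdet
  apply Matrix.det_zero_of_column_eq hne
  intro k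
  simp [Matrix.submatrix_apply, hij]

theorem going_down_smooth (B : Type) [CommRing B] (m e : ℕ) (g : Fin e → MvPolynomial (Fin m) B)
    (Ω : Type) [Field Ω] (τ : B →+* Ω) (y : Fin m → Ω) (hy : ∀ i, eval₂ τ y (g i) = 0)
    (hJ : LinearIndependent Ω (fun (i : Fin e) (j : Fin m) => eval₂ τ y (pderiv j (g i))))
    (𝔭 : Ideal B) [𝔭.IsPrime] (hle : ∀ b ∈ 𝔭, τ b = 0) :
    ∃ (Ω' : Type) (_ : Field Ω') (τ' : B →+* Ω') (y' : Fin m → Ω'), RingHom.ker τ' = 𝔭 ∧
      (∀ i, eval₂ τ' y' (g i) = 0) ∧
      ∀ G : MvPolynomial (Fin m) B, eval₂ τ' y' G = 0 → eval₂ τ y G = 0 := by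
  classical
  let W : Matrix (Fin e) (Fin m) Ω :=
    fun (i : Fin e) (j : Fin m) => eval₂ τ y (pderiv j (g i))
  obtain ⟨c, hc, hdet⟩ := Q12_minor W hJ
  let I : Ideal (MvPolynomial (Fin m) B) := Ideal.span (Set.range g)
  let T0 : Type := MvPolynomial (Fin m) B ⧸ I
  let P0 : Algebra.PreSubmersivePresentation B (MvPolynomial (Fin m) B ⧸ I) (Fin m) (Fin e) :=
    Algebra.PreSubmersivePresentation.naive c hc
  let J0 : MvPolynomial (Fin m) B ⧸ I := P0.jacobian
  let T : Type := Localization.Away J0
  let Q0 : Algebra.PreSubmersivePresentation (MvPolynomial (Fin m) B ⧸ I)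
    (Localization.Away J0) Unit Unit :=
    Algebra.PreSubmersivePresentation.localizationAway (Localization.Away J0) J0
  have hJunit : IsUnit (algebraMap (MvPolynomial (Fin m) B ⧸ I) (Localization.Away J0) J0) :=
    IsLocalization.Away.algebraMap_isUnit J0
  let P : Algebra.SubmersivePresentation B (Localization.Away J0) (Unit ⊕ Fin m)
      (Unit ⊕ Fin e) :=
    { Q0.comp P0 with
      jacobian_isUnit := by
        rw [Algebra.PreSubmersivePresentation.comp_jacobian_eq_jacobian_smul_jacobian,
          Algebra.smul_def, IsUnit.mul_iff]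
        refine ⟨hJunit, ?_⟩
        rw [Algebra.PreSubmersivePresentation.localizationAway_jacobian]
        exact hJunit }
  have hss : Algebra.IsStandardSmooth B (Localization.Away J0) := P.isStandardSmooth
  have hsm : Algebra.Smooth B (Localization.Away J0) := inferInstance
  have hflat : Module.Flat B (Localization.Away J0) := inferInstance
  have hgd : Algebra.HasGoingDown B (Localization.Away J0) := inferInstance
  -- the point of `T0`
  let φ0 : (MvPolynomial (Fin m) B ⧸ I) →+* Ω := Ideal.Quotient.lift I (eval₂Hom τ y) (by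
    intro a ha
    have h1 : I ≤ RingHom.ker (eval₂Hom τ y) := by
      rw [Ideal.span_le]
      rintro _ ⟨i, rfl⟩
      exact hy i
    exact h1 ha)
  have hφ0 : ∀ p : MvPolynomial (Fin m) B, φ0 (Ideal.Quotient.mk I p) = eval₂ τ y p := fun p => rfl
  have hJ0 : φ0 J0 ≠ 0 := by
    have e1 : J0 = algebraMap P0.Ring _ (P0.jacobiMatrix.det) := P0.jacobian_eq_jacobiMatrix_det
    have e2 : ∀ p : P0.Ring, φ0 (algebraMap P0.Ring (MvPolynomial (Fin m) B ⧸ I) p) =
        eval₂ τ y p := by
      intro p
      rw [Algebra.Generators.algebraMap_apply]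
      have e3 : (φ0.comp (aeval P0.val : P0.Ring →ₐ[B] _).toRingHom) = eval₂Hom τ y := by
        apply MvPolynomial.ringHom_ext
        · intro r
          simp only [RingHom.comp_apply, AlgHom.toRingHom_eq_coe, RingHom.coe_coe, algHom_C,
            coe_eval₂Hom, eval₂_C]
          show φ0 (Ideal.Quotient.mk I (C r)) = _
          rw [hφ0, eval₂_C]
        · intro i
          simp only [RingHom.comp_apply, AlgHom.toRingHom_eq_coe, RingHom.coe_coe, aeval_X,
            coe_eval₂Hom, eval₂_X]
          show φ0 (Ideal.Quotient.mk I (X i)) = _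
          rw [hφ0, eval₂_X]
      exact RingHom.congr_fun e3 p
    rw [e1, e2]
    have e4 : eval₂ τ y (P0.jacobiMatrix.det) = ((eval₂Hom τ y).mapMatrix P0.jacobiMatrix).det := by
      rw [← RingHom.map_det]
      rfl
    rw [e4]
    have e5 : (eval₂Hom τ y).mapMatrix P0.jacobiMatrix =
        (W.submatrix id c).transpose := by
      ext i j
      rw [RingHom.mapMatrix_apply, Matrix.map_apply,
        Algebra.PreSubmersivePresentation.jacobiMatrix_naive]
      rfl
    rw [e5, Matrix.det_transpose]
    exact hdet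
  let φ : Localization.Away J0 →+* Ω := IsLocalization.Away.lift J0 (isUnit_iff_ne_zero.2 hJ0)
  have hφ : ∀ t, φ (algebraMap _ _ t) = φ0 t := fun t =>
    IsLocalization.Away.lift_eq J0 (isUnit_iff_ne_zero.2 hJ0) t
  let Q : Ideal (Localization.Away J0) := RingHom.ker φ
  have hQp : Q.IsPrime := RingHom.ker_isPrime φ
  have hkp : (RingHom.ker τ).IsPrime := RingHom.ker_isPrime τ
  have hBT : ∀ b : B, algebraMap B (Localization.Away J0) b =
      algebraMap _ (Localization.Away J0) (Ideal.Quotient.mk I (C b)) := by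
    intro b
    rw [IsScalarTower.algebraMap_apply B (MvPolynomial (Fin m) B ⧸ I) (Localization.Away J0)]
    rfl
  have hlies : Q.LiesOver (RingHom.ker τ) := by
    constructor
    ext b
    rw [Ideal.under_def, Ideal.mem_comap, RingHom.mem_ker, RingHom.mem_ker, hBT, hφ, hφ0, eval₂_C]
  obtain ⟨D, hDQ, hDp, hD𝔭⟩ := Ideal.exists_ideal_le_liesOver_of_le (p := 𝔭)
    (q := RingHom.ker τ) Q (fun b hb => hle b hb)
  let ψ : Localization.Away J0 →+* FractionRing (Localization.Away J0 ⧸ D) :=
    (algebraMap _ _).comp (Ideal.Quotient.mk D)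
  have hψ : ∀ t, ψ t = 0 ↔ t ∈ D := by
    intro t
    rw [RingHom.comp_apply, map_eq_zero_iff _ (IsFractionRing.injective _ _),
      Ideal.Quotient.eq_zero_iff_mem]
  let τ' : B →+* FractionRing (Localization.Away J0 ⧸ D) := ψ.comp (algebraMap B _)
  let y' : Fin m → FractionRing (Localization.Away J0 ⧸ D) :=
    fun i => ψ (algebraMap _ _ (Ideal.Quotient.mk I (X i)))
  have hev : ∀ G : MvPolynomial (Fin m) B, eval₂ τ' y' G =
      ψ (algebraMap _ _ (Ideal.Quotient.mk I G)) := by
    intro G
    have e3 : eval₂Hom τ' y' = (ψ.comp (algebraMap _ _)).comp (Ideal.Quotient.mk I) := by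
      apply MvPolynomial.ringHom_ext
      · intro r
        simp only [coe_eval₂Hom, eval₂_C, RingHom.comp_apply]
        show ψ (algebraMap B _ r) = _
        rw [hBT]
      · intro i
        simp only [coe_eval₂Hom, eval₂_X, RingHom.comp_apply]
        rfl
    exact RingHom.congr_fun e3 G
  refine ⟨FractionRing (Localization.Away J0 ⧸ D), inferInstance, τ', y', ?_, ?_, ?_⟩
  · ext b
    rw [RingHom.mem_ker]
    show ψ (algebraMap B _ b) = 0 ↔ _
    rw [hψ, hD𝔭.over, Ideal.under_def, Ideal.mem_comap]
  · intro i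
    rw [hev]
    have : Ideal.Quotient.mk I (g i) = 0 :=
      Ideal.Quotient.eq_zero_iff_mem.mpr (Ideal.subset_span ⟨i, rfl⟩)
    rw [this, map_zero, map_zero]
  · intro G hG
    rw [hev, hψ] at hG
    have h1 := hDQ hG
    rw [RingHom.mem_ker, hφ, hφ0] at h1
    exact h1

end Pool.Agent.LibHP
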