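import Pool.Agent.LibHPF.Q0

set_option autoImplicit false
open MvPolynomial

namespace Pool.Agent.LibHP

/-!
# Row Q19: homomorphisms out of the field of a projective generic point

PLAN. Let `y' j = y j / y i0`. For every polynomial `G` (not only forms): `aeval x G = 0 ↔ aeval y' G = 0`:
homogenise with the variable `X i0`: `Gh = ∑ e ≤ D, X i0 ^ (D - e) * homogeneousComponent e G`,
`D = G.totalDegree`, is a form of degree `D`, `aeval x Gh = aeval x G` (`x i0 = 1`), `aeval y' Gh = aeval y' G`
(`y' i0 = 1`) and `aeval y' Gh = (y i0)⁻¹ ^ D * aeval y Gh`. So the two `k`-algebra maps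
`aeval x`, `aeval y'` have the same kernel; the map `k[x] → E`, `aeval x G ↦ aeval y' G` is well defined and
injective and extends to `K = Frac k[x]` (`hgen`; `IsFractionRing` of `(aeval x).range` in `K`, or define
`f z = aeval y' G / aeval y' H` for `z * aeval x H = aeval x G` and check).
-/

private theorem Q19_smul {k σ E : Type} [Field k] [Field E] [Algebra k E]
    {F : MvPolynomial σ k} {D : ℕ} (hF : F.IsHomogeneous D) (c : E) (y : σ → E) :
    aeval (fun j => c * y j) F = c ^ D * aeval y F := by
  rw [aeval_def, aeval_def, eval₂_eq, eval₂_eq, Finset.mul_sum]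
  refine Finset.sum_congr rfl fun d hd => ?_
  have hdeg : ∑ i ∈ d.support, d i = D := by
    by_contra hne
    exact (MvPolynomial.mem_support_iff.1 hd) (hF.coeff_eq_zero hne)
  have h1 : ∏ i ∈ d.support, (c * y i) ^ d i = c ^ D * ∏ i ∈ d.support, y i ^ d i := by
    rw [← hdeg, ← Finset.prod_pow_eq_pow_sum, ← Finset.prod_mul_distrib]
    exact Finset.prod_congr rfl fun i _ => mul_pow _ _ _
  rw [h1]
  ring

/-- the homogenisation -/
private noncomputable def Q19_h {k σ : Type} [Field k] (i0 : σ) (G : MvPolynomial σ k) :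
    MvPolynomial σ k :=
  ∑ e ∈ Finset.range (G.totalDegree + 1),
    X i0 ^ (G.totalDegree - e) * homogeneousComponent e G

private theorem Q19_h_hom {k σ : Type} [Field k] (i0 : σ) (G : MvPolynomial σ k) :
    (Q19_h i0 G).IsHomogeneous G.totalDegree := by
  unfold Q19_h
  refine IsHomogeneous.sum _ _ _ fun e he => ?_
  have h1 := (isHomogeneous_X_pow (R := k) i0 (G.totalDegree - e)).mul
    (homogeneousComponent_isHomogeneous e G)
  have h2 : G.totalDegree - e + e = G.totalDegree := by
    rw [Finset.mem_range] at he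
    omega
  rwa [h2] at h1

private theorem Q19_h_eval {k σ E : Type} [Field k] [Field E] [Algebra k E] (i0 : σ)
    (G : MvPolynomial σ k) (x : σ → E) (hx : x i0 = 1) : aeval x (Q19_h i0 G) = aeval x G := by
  conv_rhs => rw [← sum_homogeneousComponent G]
  unfold Q19_h
  rw [map_sum, map_sum]
  refine Finset.sum_congr rfl fun e _ => ?_
  rw [map_mul, map_pow, aeval_X, hx, one_pow, one_mul]

theorem exists_hom_of_gen (k σ K E : Type) [Field k] [Field K] [Algebra k K] [Field E] [Algebra k E]
    (x : σ → K) (i0 : σ) (hx : x i0 = 1) (hgen : GenBy k x) (y : σ → E) (hy : y i0 ≠ 0)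
    (h : ∀ (e : ℕ) (G : MvPolynomial σ k), G.IsHomogeneous e → (aeval x G = 0 ↔ aeval y G = 0)) :
    ∃ f : K →ₐ[k] E, ∀ j, f (x j) = y j / y i0 := by
  obtain ⟨y', hy'⟩ : ∃ y' : σ → E, y' = fun j => (y i0)⁻¹ * y j := ⟨_, rfl⟩
  have hy1 : y' i0 = 1 := by
    rw [hy']
    exact inv_mul_cancel₀ hy
  have hall : ∀ G : MvPolynomial σ k, aeval x G = 0 ↔ aeval y' G = 0 := by
    intro G
    rw [← Q19_h_eval i0 G x hx, ← Q19_h_eval i0 G y' hy1, h _ _ (Q19_h_hom i0 G), hy',
      Q19_smul (Q19_h_hom i0 G), mul_eq_zero]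
    constructor
    · exact fun h1 => Or.inr h1
    · rintro (h1 | h1)
      · exact absurd h1 (pow_ne_zero _ (inv_ne_zero hy))
      · exact h1
  choose G H hH hGH using hgen
  have key : ∀ (z : K) (G' H' : MvPolynomial σ k), aeval x H' ≠ 0 →
      z * aeval x H' = aeval x G' →
      aeval y' (G z) / aeval y' (H z) = aeval y' G' / aeval y' H' := by
    intro z G' H' hH' hz
    have h1 : aeval y' (H z) ≠ 0 := fun h0 => hH z ((hall _).2 h0)
    have h2 : aeval y' H' ≠ 0 := fun h0 => hH' ((hall _).2 h0)
    rw [div_eq_div_iff h1 h2, ← map_mul, ← map_mul, ← sub_eq_zero, ← map_sub]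
    refine (hall _).1 ?_
    rw [map_sub, map_mul, map_mul, ← hGH z, ← hz]
    ring
  refine ⟨{ toFun := fun z => aeval y' (G z) / aeval y' (H z)
            map_one' := ?_
            map_mul' := ?_
            map_zero' := ?_
            map_add' := ?_
            commutes' := ?_ }, ?_⟩
  · rw [key 1 1 1 (by rw [map_one]; exact one_ne_zero) (by rw [map_one, one_mul])]
    rw [map_one, div_one]
  · intro z w
    rw [key (z * w) (G z * G w) (H z * H w) (by rw [map_mul]; exact mul_ne_zero (hH z) (hH w))
      (by rw [map_mul, map_mul, ← hGH z, ← hGH w]; ring), map_mul, map_mul, div_mul_div_comm]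
  · rw [key 0 0 1 (by rw [map_one]; exact one_ne_zero) (by rw [map_zero, zero_mul])]
    rw [map_zero, zero_div]
  · intro z w
    have h1 : aeval y' (H z) ≠ 0 := fun h0 => hH z ((hall _).2 h0)
    have h2 : aeval y' (H w) ≠ 0 := fun h0 => hH w ((hall _).2 h0)
    rw [key (z + w) (G z * H w + H z * G w) (H z * H w)
      (by rw [map_mul]; exact mul_ne_zero (hH z) (hH w))
      (by rw [map_mul, map_add, map_mul, map_mul, ← hGH z, ← hGH w]; ring), map_mul, map_add,
      map_mul, map_mul, div_add_div _ _ h1 h2]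
  · intro c
    rw [key (algebraMap k K c) (C c) 1 (by rw [map_one]; exact one_ne_zero)
      (by rw [map_one, mul_one, aeval_C]), map_one, div_one, aeval_C]
  · intro j
    change aeval y' (G (x j)) / aeval y' (H (x j)) = y j / y i0
    rw [key (x j) (X j) 1 (by rw [map_one]; exact one_ne_zero)
      (by rw [map_one, mul_one, aeval_X]), map_one, div_one, aeval_X, hy', div_eq_inv_mul]

end Pool.Agent.LibHP
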