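import Pool.Agent.LibHPF.Q6
import Pool.Agent.LibHPF.Q12
import Pool.Agent.LibHPF.Q19

set_option autoImplicit false
open MvPolynomial

namespace Pool.Agent.LibHP

variable {k : Type} [Field k] [CharZero k] {n : ℕ} {φ : Tens k n}

/-!
# Row Q13: from the special point to the generic point of the divisor (Lemma D, dominance)

PLAN. Let `B = MvPolynomial (Fin (n + 1)) k` and
`𝔭 = {G | ∀ e, aeval d (homogeneousComponent e G) = 0}`, the kernel of `aeval` of the cone point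
`s • f d` of `exists_cone_of_point` (so a prime ideal). `τ = aeval x : B → Ω` kills `𝔭` by `hsp` (a polynomial is
the sum of its homogeneous components). Apply `going_down_smooth` with `m = n + 1`, `e = 3`, `y = P` and the
equations (polynomials in `Y` over `B`; the vector `x` is now the vector of the variables `X i : B`,
`Xc i := C (X i : B)`)
`g 0 = Phi φ Y Y Y Y`, `g 1 = Phi φ Y Y Y Xc`, `g 2 = Phi φ Y Y Xc Xc` (`Y = MvPolynomial.X`; `B` and
`MvPolynomial (Fin (n + 1)) B` are `k`-algebras).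
Jacobian at `(P, x)`: `4 * Phi φ P P P (single j)`, `3 * Phi φ P P x (single j)`, `2 * Phi φ P x x (single j)`
(use `Phi_deriv4`-like computations with `pderiv j` as a `k`-derivation, or `Phi_deriv` plus symmetry).
Independence: a relation `ρ 0 * Phi φ P P P a + ρ 1 * Phi φ P P x a + ρ 2 * Phi φ P x x a = 0` for all `a`;
at `a = x`: `ρ 2 = 0` (`h1 h2 h3`); then if `ρ 1 ≠ 0`, `lemmaA'` gives `x = c • P`, contradicting `h3`
(`Phi φ P P P P = 0`); so `ρ 1 = 0`, and `ρ 0 = 0` by `phi_ne`.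
Result: `Ω', τ', y'`. Make `Ω'` a `k`-algebra by `τ'.comp C`. Let `x' i = τ' (X i)`, so
`aeval x' G = 0 ↔ G ∈ 𝔭`. `x' i0 ≠ 0` (`aeval d (X i0) = 1 ≠ 0`). By `exists_hom_of_gen` (row Q19, with `x := d`,
`y := x'`) there is `g : κ →ₐ[k] Ω'` with `g (d j) = x' j / x' i0`. `y' 0 ≠ 0`: otherwise `P 0 = 0` by the
specialisation property, but `P 0 = 1`. Put `P' = y' / y' 0`. `IsGenPt φ P'`: a form `G` (over `k`) with
`aeval P' G = 0` has `aeval y' G = 0`, so `aeval P G = 0`, so `FF φ ∣ G`; conversely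
`aeval y' (FF φ) = eval₂ τ' y' (g 0) = 0`. The equations are homogeneous in both groups of variables;
`Phi φ y' x' x' x' ≠ 0` because it specialises to `Phi φ P x x x ≠ 0` (apply the specialisation property to the
polynomial `Phi φ Y Xc Xc Xc`).
-/

/-- scaling of the argument of a form -/
theorem Q13_scale {R σ K : Type} [CommSemiring R] [CommSemiring K] [Algebra R K] {e : ℕ}
    {G : MvPolynomial σ R} (hG : G.IsHomogeneous e) (c : K) (x : σ → K) :
    aeval (fun i => c * x i) G = c ^ e * aeval x G := by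
  rw [aeval_def, eval₂_eq, aeval_def, eval₂_eq, Finset.mul_sum]
  refine Finset.sum_congr rfl fun m hm => ?_
  have h1 : ∏ i ∈ m.support, (c * x i) ^ m i = c ^ e * ∏ i ∈ m.support, x i ^ m i := by
    simp only [mul_pow]
    rw [Finset.prod_mul_distrib, Finset.prod_pow_eq_pow_sum]
    congr 2
    exact (hG.degree_eq_sum_deg_support hm).symm
  rw [h1]
  ring

section Eqs

/-- the constant vector of the variables of the base ring -/
noncomputable def Q13_Xc (k : Type) [Field k] (n : ℕ) :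
    Fin (n + 1) → MvPolynomial (Fin (n + 1)) (MvPolynomial (Fin (n + 1)) k) :=
  fun i => C (X i)

/-- the three equations -/
noncomputable def Q13_g (φ : Tens k n) :
    Fin 3 → MvPolynomial (Fin (n + 1)) (MvPolynomial (Fin (n + 1)) k) :=
  ![Phi φ X X X X, Phi φ X X X (Q13_Xc k n), Phi φ X X (Q13_Xc k n) (Q13_Xc k n)]

omit [CharZero k] in
theorem Q13_eval {E : Type} [Field E] [Algebra k E] (τ : MvPolynomial (Fin (n + 1)) k →+* E)
    (hτ : ∀ c : k, τ (C c) = algebraMap k E c) (y : Fin (n + 1) → E)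
    (a b c d : Fin (n + 1) → MvPolynomial (Fin (n + 1)) (MvPolynomial (Fin (n + 1)) k)) :
    eval₂ τ y (Phi φ a b c d) = Phi φ (fun i => eval₂ τ y (a i)) (fun i => eval₂ τ y (b i))
      (fun i => eval₂ τ y (c i)) (fun i => eval₂ τ y (d i)) := by
  have h := Phi_map_ringHom φ (eval₂Hom τ y) (fun c => by
    rw [MvPolynomial.algebraMap_apply, MvPolynomial.algebraMap_eq, coe_eval₂Hom, eval₂_C]
    exact hτ c) a b c d
  exact h

omit [CharZero k] in
theorem Q13_eX {E : Type} [Field E] (τ : MvPolynomial (Fin (n + 1)) k →+* E)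
    (y : Fin (n + 1) → E) :
    (fun i => eval₂ τ y (X i : MvPolynomial (Fin (n + 1)) (MvPolynomial (Fin (n + 1)) k))) = y := by
  funext i
  rw [eval₂_X]

omit [CharZero k] in
theorem Q13_eXc {E : Type} [Field E] (τ : MvPolynomial (Fin (n + 1)) k →+* E)
    (y : Fin (n + 1) → E) :
    (fun i => eval₂ τ y (Q13_Xc k n i)) = fun i => τ (X i) := by
  funext i
  rw [Q13_Xc, eval₂_C]

omit [CharZero k] in
theorem Q13_dX {E : Type} [Field E] (τ : MvPolynomial (Fin (n + 1)) k →+* E)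
    (y : Fin (n + 1) → E) (j : Fin (n + 1)) :
    (fun i => eval₂ τ y (pderiv j
      (X i : MvPolynomial (Fin (n + 1)) (MvPolynomial (Fin (n + 1)) k)))) = Pi.single j 1 := by
  funext i
  rw [pderiv_X]
  by_cases h : i = j
  · subst h; simp
  · rw [Pi.single_eq_of_ne h, Pi.single_eq_of_ne h, eval₂_zero]

/-- `pderiv` over the base field -/
noncomputable def Q13_D (k : Type) [Field k] {n : ℕ} (j : Fin (n + 1)) :
    Derivation k (MvPolynomial (Fin (n + 1)) (MvPolynomial (Fin (n + 1)) k))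
      (MvPolynomial (Fin (n + 1)) (MvPolynomial (Fin (n + 1)) k)) :=
  (pderiv j).restrictScalars k

omit [CharZero k] in
theorem Q13_D_Xc (j : Fin (n + 1)) : (fun i => Q13_D k j (Q13_Xc k n i)) = 0 := by
  funext i
  show pderiv j (C (X i)) = 0
  exact pderiv_C

omit [CharZero k] in
theorem Q13_jac0 (hφ : IsSymm4 φ) {E : Type} [Field E] [Algebra k E]
    (τ : MvPolynomial (Fin (n + 1)) k →+* E)
    (hτ : ∀ c : k, τ (C c) = algebraMap k E c) (y : Fin (n + 1) → E) (j : Fin (n + 1)) :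
    eval₂ τ y (pderiv j (Q13_g φ 0)) = 4 * Phi φ y y y (Pi.single j 1) := by
  have h : pderiv j (Q13_g φ 0) = 4 * Phi φ X X X (fun i => pderiv j (X i)) :=
    Phi_deriv4 hφ (Q13_D k j) X
  rw [h, eval₂_mul, Q13_eval τ hτ, Q13_eX, Q13_dX]
  congr 1
  exact map_ofNat (eval₂Hom τ y) 4

omit [CharZero k] in
theorem Q13_jac1 (hφ : IsSymm4 φ) {E : Type} [Field E] [Algebra k E]
    (τ : MvPolynomial (Fin (n + 1)) k →+* E)
    (hτ : ∀ c : k, τ (C c) = algebraMap k E c) (y : Fin (n + 1) → E) (j : Fin (n + 1)) :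
    eval₂ τ y (pderiv j (Q13_g φ 1)) = 3 * Phi φ y y (fun i => τ (X i)) (Pi.single j 1) := by
  have h : pderiv j (Q13_g φ 1) = 3 * Phi φ X X (Q13_Xc k n) (fun i => pderiv j (X i)) := by
    have h1 := Phi_deriv φ (Q13_D k j) X X X (Q13_Xc k n)
    have h2 : pderiv j (Q13_g φ 1) = Q13_D k j (Phi φ X X X (Q13_Xc k n)) := rfl
    rw [h2, h1, Q13_D_Xc, Phi_zero4]
    have e3 : Phi φ X X (fun i => Q13_D k j (X i)) (Q13_Xc k n) =
        Phi φ X X (Q13_Xc k n) (fun i => Q13_D k j (X i)) := Phi_comm34 hφ _ _ _ _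
    have e2 : Phi φ X (fun i => Q13_D k j (X i)) X (Q13_Xc k n) =
        Phi φ X X (Q13_Xc k n) (fun i => Q13_D k j (X i)) := by
      rw [Phi_comm23 hφ, e3]
    have e1 : Phi φ (fun i => Q13_D k j (X i)) X X (Q13_Xc k n) =
        Phi φ X X (Q13_Xc k n) (fun i => Q13_D k j (X i)) := by
      rw [Phi_comm12 hφ, e2]
    rw [e1, e2, e3]
    show _ = 3 * Phi φ X X (Q13_Xc k n) (fun i => Q13_D k j (X i))
    ring
  rw [h, eval₂_mul, Q13_eval τ hτ, Q13_eX, Q13_dX, Q13_eXc]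
  congr 1
  exact map_ofNat (eval₂Hom τ y) 3

omit [CharZero k] in
theorem Q13_jac2 (hφ : IsSymm4 φ) {E : Type} [Field E] [Algebra k E]
    (τ : MvPolynomial (Fin (n + 1)) k →+* E)
    (hτ : ∀ c : k, τ (C c) = algebraMap k E c) (y : Fin (n + 1) → E) (j : Fin (n + 1)) :
    eval₂ τ y (pderiv j (Q13_g φ 2)) =
      2 * Phi φ y (fun i => τ (X i)) (fun i => τ (X i)) (Pi.single j 1) := by
  have h : pderiv j (Q13_g φ 2) =
      2 * Phi φ X (Q13_Xc k n) (Q13_Xc k n) (fun i => pderiv j (X i)) := by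
    have h1 := Phi_deriv φ (Q13_D k j) X X (Q13_Xc k n) (Q13_Xc k n)
    have h2 : pderiv j (Q13_g φ 2) = Q13_D k j (Phi φ X X (Q13_Xc k n) (Q13_Xc k n)) := rfl
    have h3 : Phi φ X X 0 (Q13_Xc k n) = 0 := by
      rw [Phi_comm34 hφ, Phi_zero4]
    rw [h2, h1, Q13_D_Xc, Phi_zero4, h3]
    have e2 : Phi φ X (fun i => Q13_D k j (X i)) (Q13_Xc k n) (Q13_Xc k n) =
        Phi φ X (Q13_Xc k n) (Q13_Xc k n) (fun i => Q13_D k j (X i)) := by
      rw [Phi_comm23 hφ, Phi_comm34 hφ]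
    have e1 : Phi φ (fun i => Q13_D k j (X i)) X (Q13_Xc k n) (Q13_Xc k n) =
        Phi φ X (Q13_Xc k n) (Q13_Xc k n) (fun i => Q13_D k j (X i)) := by
      rw [Phi_comm12 hφ, e2]
    rw [e1, e2]
    show _ = 2 * Phi φ X (Q13_Xc k n) (Q13_Xc k n) (fun i => Q13_D k j (X i))
    ring
  rw [h, eval₂_mul, Q13_eval τ hτ, Q13_eX, Q13_dX, Q13_eXc]
  congr 1
  exact map_ofNat (eval₂Hom τ y) 2

end Eqs

theorem Q13_indep (hφ : IsSymm4 φ) (hs : Smooth4 φ) {Ω : Type} [Field Ω] [Algebra k Ω]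
    (P x : Fin (n + 1) → Ω) (hP : IsGenPt φ P) (h1 : Phi φ P P P x = 0)
    (h2 : Phi φ P P x x = 0) (h3 : Phi φ P x x x ≠ 0) (r0 r1 r2 : Ω)
    (h : ∀ a, r0 * Phi φ P P P a + r1 * Phi φ P P x a + r2 * Phi φ P x x a = 0) :
    r0 = 0 ∧ r1 = 0 ∧ r2 = 0 := by
  have hr2 : r2 = 0 := by
    have hx := h x
    rw [h1, h2, mul_zero, mul_zero, zero_add, zero_add] at hx
    exact (mul_eq_zero.mp hx).resolve_right h3
  subst hr2
  have hr1 : r1 = 0 := by
    by_contra hr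
    obtain ⟨c, hc⟩ := lemmaA' hφ hs P x hP (fun a ha => by
      have h4 := h a
      rw [ha, mul_zero, zero_mul, zero_add, add_zero] at h4
      exact (mul_eq_zero.mp h4).resolve_left hr)
    refine h3 ?_
    rw [hc, Phi_smul2, Phi_smul3, Phi_smul4, hP.self]
    simp only [mul_zero]
  subst hr1
  obtain ⟨i, hi⟩ := phi_ne hφ hs P hP
  have h4 := h (Pi.single i 1)
  rw [zero_mul, zero_mul, add_zero, add_zero] at h4
  exact ⟨(mul_eq_zero.mp h4).resolve_right hi, rfl, rfl⟩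

theorem Q13_jac (hφ : IsSymm4 φ) (hs : Smooth4 φ) {Ω : Type} [Field Ω] [Algebra k Ω]
    (P x : Fin (n + 1) → Ω) (hP : IsGenPt φ P) (h1 : Phi φ P P P x = 0)
    (h2 : Phi φ P P x x = 0) (h3 : Phi φ P x x x ≠ 0)
    (τ : MvPolynomial (Fin (n + 1)) k →+* Ω)
    (hτ : ∀ c : k, τ (C c) = algebraMap k Ω c) (hτx : (fun i => τ (X i)) = x) :
    LinearIndependent Ω (fun (i : Fin 3) (j : Fin (n + 1)) =>
      eval₂ τ P (pderiv j (Q13_g φ i))) := by
  haveI : CharZero Ω := charZero_of_injective_algebraMap (algebraMap k Ω).injective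
  rw [Fintype.linearIndependent_iff]
  intro ρ hρ
  rw [Fin.sum_univ_three] at hρ
  have hj : ∀ j : Fin (n + 1), ρ 0 * (4 * Phi φ P P P (Pi.single j 1)) +
      ρ 1 * (3 * Phi φ P P x (Pi.single j 1)) + ρ 2 * (2 * Phi φ P x x (Pi.single j 1)) = 0 := by
    intro j
    have h4 := congrFun hρ j
    simp only [Pi.add_apply, Pi.smul_apply, smul_eq_mul, Pi.zero_apply] at h4
    rw [Q13_jac0 hφ τ hτ, Q13_jac1 hφ τ hτ, Q13_jac2 hφ τ hτ, hτx] at h4
    exact h4
  have ha : ∀ a : Fin (n + 1) → Ω, (4 * ρ 0) * Phi φ P P P a + (3 * ρ 1) * Phi φ P P x a +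
      (2 * ρ 2) * Phi φ P x x a = 0 := by
    intro a
    rw [Phi_eq_sum φ P P P a, Phi_eq_sum φ P P x a, Phi_eq_sum φ P x x a, Finset.mul_sum,
      Finset.mul_sum, Finset.mul_sum, ← Finset.sum_add_distrib, ← Finset.sum_add_distrib]
    refine Finset.sum_eq_zero fun j _ => ?_
    have h5 := hj j
    calc 4 * ρ 0 * (a j * Phi φ P P P (Pi.single j 1)) +
          3 * ρ 1 * (a j * Phi φ P P x (Pi.single j 1)) +
          2 * ρ 2 * (a j * Phi φ P x x (Pi.single j 1))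
        = a j * (ρ 0 * (4 * Phi φ P P P (Pi.single j 1)) +
          ρ 1 * (3 * Phi φ P P x (Pi.single j 1)) +
          ρ 2 * (2 * Phi φ P x x (Pi.single j 1))) := by ring
      _ = 0 := by rw [h5, mul_zero]
  obtain ⟨q0, q1, q2⟩ := Q13_indep hφ hs P x hP h1 h2 h3 _ _ _ ha
  have c4 : (4 : Ω) ≠ 0 := by norm_num
  have c3 : (3 : Ω) ≠ 0 := by norm_num
  have c2 : (2 : Ω) ≠ 0 := by norm_num
  intro i
  fin_cases i
  · exact (mul_eq_zero.mp q0).resolve_left c4
  · exact (mul_eq_zero.mp q1).resolve_left c3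
  · exact (mul_eq_zero.mp q2).resolve_left c2

theorem exists_generic_pair (hφ : IsSymm4 φ) (hs : Smooth4 φ) {Ω : Type} [Field Ω] [Algebra k Ω]
    (P x : Fin (n + 1) → Ω) (hP : IsGenPt φ P) (h1 : Phi φ P P P x = 0)
    (h2 : Phi φ P P x x = 0) (h3 : Phi φ P x x x ≠ 0) {κ : Type} [Field κ] [Algebra k κ]
    (d : Fin (n + 1) → κ) (i0 : Fin (n + 1)) (hd : d i0 = 1) (hgen : GenBy k d)
    (hsp : ∀ (e : ℕ) (G : MvPolynomial (Fin (n + 1)) k), G.IsHomogeneous e → aeval d G = 0 →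
      aeval x G = 0) :
    ∃ (Ω' : Type) (_ : Field Ω') (_ : Algebra k Ω') (g : κ →ₐ[k] Ω') (P' : Fin (n + 1) → Ω'),
      IsGenPt φ P' ∧ Phi φ P' P' P' (fun i => g (d i)) = 0 ∧
      Phi φ P' P' (fun i => g (d i)) (fun i => g (d i)) = 0 ∧
      Phi φ P' (fun i => g (d i)) (fun i => g (d i)) (fun i => g (d i)) ≠ 0 := by
  obtain ⟨κ', _, _, f, s, hs0, hker, -⟩ := exists_cone_of_point k (Fin (n + 1)) κ d i0 hd
  let 𝔭 : Ideal (MvPolynomial (Fin (n + 1)) k) :=
    RingHom.ker (aeval (fun i => s * f (d i)) : MvPolynomial (Fin (n + 1)) k →ₐ[k] κ')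
  have h𝔭 : ∀ G : MvPolynomial (Fin (n + 1)) k,
      G ∈ 𝔭 ↔ ∀ e, aeval d (homogeneousComponent e G) = 0 := fun G => by
    rw [← hker G]
    exact RingHom.mem_ker
  haveI : 𝔭.IsPrime := RingHom.ker_isPrime _
  let τ : MvPolynomial (Fin (n + 1)) k →+* Ω := (aeval x : _ →ₐ[k] Ω).toRingHom
  have hτ : ∀ c : k, τ (C c) = algebraMap k Ω c := fun c => aeval_C x c
  have hτx : (fun i => τ (X i)) = x := by
    funext i
    exact aeval_X x i
  have hle : ∀ b ∈ 𝔭, τ b = 0 := by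
    intro b hb
    rw [h𝔭] at hb
    rw [← sum_homogeneousComponent b, map_sum]
    refine Finset.sum_eq_zero fun e _ => ?_
    exact hsp e _ (homogeneousComponent_isHomogeneous e b) (hb e)
  have hy : ∀ i, eval₂ τ P (Q13_g φ i) = 0 := by
    intro i
    fin_cases i
    · show eval₂ τ P (Phi φ X X X X) = 0
      rw [Q13_eval τ hτ, Q13_eX]
      exact hP.self
    · show eval₂ τ P (Phi φ X X X (Q13_Xc k n)) = 0
      rw [Q13_eval τ hτ, Q13_eX, Q13_eXc, hτx]
      exact h1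
    · show eval₂ τ P (Phi φ X X (Q13_Xc k n) (Q13_Xc k n)) = 0
      rw [Q13_eval τ hτ, Q13_eX, Q13_eXc, hτx]
      exact h2
  obtain ⟨Ω', _, τ', y', hkτ, hy', hspec⟩ := going_down_smooth (MvPolynomial (Fin (n + 1)) k)
    (n + 1) 3 (Q13_g φ) Ω τ P hy (Q13_jac hφ hs P x hP h1 h2 h3 τ hτ hτx) 𝔭 hle
  letI : Algebra k Ω' := (τ'.comp C).toAlgebra
  have hτ' : ∀ c : k, τ' (C c) = algebraMap k Ω' c := fun c => rfl
  obtain ⟨x', hx'⟩ : ∃ x' : Fin (n + 1) → Ω', x' = fun i => τ' (X i) := ⟨_, rfl⟩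
  have hax : ∀ G : MvPolynomial (Fin (n + 1)) k, aeval x' G = τ' G := by
    intro G
    have h4 : (aeval x' : MvPolynomial (Fin (n + 1)) k →ₐ[k] Ω').toRingHom = τ' := by
      refine MvPolynomial.ringHom_ext (fun c => ?_) (fun i => ?_)
      · exact (aeval_C x' c).trans (hτ' c).symm
      · exact (aeval_X x' i).trans (congrFun hx' i)
    exact congrArg (fun F : MvPolynomial (Fin (n + 1)) k →+* Ω' => F G) h4
  have hx0 : ∀ G : MvPolynomial (Fin (n + 1)) k,
      aeval x' G = 0 ↔ ∀ e, aeval d (homogeneousComponent e G) = 0 := fun G => by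
    rw [hax, ← h𝔭, ← hkτ]
    exact RingHom.mem_ker.symm
  have hxh : ∀ (e : ℕ) (G : MvPolynomial (Fin (n + 1)) k), G.IsHomogeneous e →
      (aeval d G = 0 ↔ aeval x' G = 0) := by
    intro e G hG
    rw [hx0]
    constructor
    · intro h4 e'
      rw [homogeneousComponent_of_mem hG]
      split_ifs
      · exact h4
      · exact map_zero _
    · intro h4
      have h5 := h4 e
      rw [homogeneousComponent_of_mem hG, if_pos rfl] at h5
      exact h5
  have hxi0 : x' i0 ≠ 0 := by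
    intro h4
    have h5 := (hxh 1 (X i0) (isHomogeneous_X k i0)).mpr (by rw [aeval_X]; exact h4)
    rw [aeval_X, hd] at h5
    exact one_ne_zero h5
  obtain ⟨g, hg⟩ := exists_hom_of_gen k (Fin (n + 1)) κ Ω' d i0 hd hgen x' hxi0 hxh
  have hy0 : y' 0 ≠ 0 := by
    intro h4
    have h5 := hspec (X 0) (by rw [eval₂_X]; exact h4)
    rw [eval₂_X, hP.1] at h5
    exact one_ne_zero h5
  have hyG : ∀ G : MvPolynomial (Fin (n + 1)) k, aeval y' G = 0 → aeval P G = 0 := by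
    intro G hG
    have h5 := hspec (map C G) (by rw [eval₂_map]; exact hG)
    rw [eval₂_map] at h5
    have h6 : τ.comp C = algebraMap k Ω := RingHom.ext hτ
    rw [h6] at h5
    exact h5
  have f0 : Phi φ y' y' y' y' = 0 := by
    have h4 : eval₂ τ' y' (Phi φ X X X X) = 0 := hy' 0
    rwa [Q13_eval τ' hτ', Q13_eX] at h4
  have f1 : Phi φ y' y' y' x' = 0 := by
    have h4 : eval₂ τ' y' (Phi φ X X X (Q13_Xc k n)) = 0 := hy' 1
    rwa [Q13_eval τ' hτ', Q13_eX, Q13_eXc, ← hx'] at h4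
  have f2 : Phi φ y' y' x' x' = 0 := by
    have h4 : eval₂ τ' y' (Phi φ X X (Q13_Xc k n) (Q13_Xc k n)) = 0 := hy' 2
    rwa [Q13_eval τ' hτ', Q13_eX, Q13_eXc, ← hx'] at h4
  have f3 : Phi φ y' x' x' x' ≠ 0 := by
    intro h4
    have h5 := hspec (Phi φ X (Q13_Xc k n) (Q13_Xc k n) (Q13_Xc k n)) (by
      rw [Q13_eval τ' hτ', Q13_eX, Q13_eXc, ← hx']
      exact h4)
    rw [Q13_eval τ hτ, Q13_eX, Q13_eXc, hτx] at h5
    exact h3 h5
  have hgd : (fun i => g (d i)) = (x' i0)⁻¹ • x' := by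
    funext i
    rw [hg i, Pi.smul_apply, smul_eq_mul, div_eq_inv_mul]
  have hyi : (y' 0)⁻¹ ≠ 0 := inv_ne_zero hy0
  have hxi : (x' i0)⁻¹ ≠ 0 := inv_ne_zero hxi0
  refine ⟨Ω', inferInstance, inferInstance, g, (y' 0)⁻¹ • y', ⟨?_, ?_⟩, ?_, ?_, ?_⟩
  · rw [Pi.smul_apply, smul_eq_mul, inv_mul_cancel₀ hy0]
  · intro e G hG
    have h4 : aeval ((y' 0)⁻¹ • y') G = (y' 0)⁻¹ ^ e * aeval y' G := Q13_scale hG (y' 0)⁻¹ y'
    rw [h4]
    constructor
    · intro h5
      rcases mul_eq_zero.mp h5 with h6 | h6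
      · exact absurd h6 (pow_ne_zero e hyi)
      · exact (hP.2 e G hG).mp (hyG G h6)
    · rintro ⟨A, rfl⟩
      rw [map_mul, aeval_FF, f0, zero_mul, mul_zero]
  · rw [hgd, Phi_smul1, Phi_smul2, Phi_smul3, Phi_smul4, f1]
    simp only [mul_zero]
  · rw [hgd, Phi_smul1, Phi_smul2, Phi_smul3, Phi_smul4, f2]
    simp only [mul_zero]
  · rw [hgd, Phi_smul1, Phi_smul2, Phi_smul3, Phi_smul4]
    exact mul_ne_zero hyi (mul_ne_zero hxi (mul_ne_zero hxi (mul_ne_zero hxi f3)))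

end Pool.Agent.LibHP
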