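import Pool.Agent.LibHPF.Q3

set_option autoImplicit false
open MvPolynomial

namespace Pool.Agent.LibHP

/-!
# Row Q4: the projective dimension theorem

`x` is a point (with values in a field `κ`) whose relation ideal over `k` is homogeneous (a generic point of a
cone `V` over `k`), of transcendence degree at least `N + 1`. Then `N` forms of positive degrees over the
algebraically closed field `Ω ⊇ k` have a common nontrivial zero on `V`.

PLAN. Let `𝔭 = ker (aeval x : MvPolynomial σ k → κ)` and `I = 𝔭.map (MvPolynomial.map (algebraMap k Ω))`; it is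
stable under homogeneous components. Suppose there is no such `y`. Let `R = MvPolynomial σ Ω ⧸ I`. The elements
`t_i = mk (T_i) ∈ R` are algebraically independent over `Ω`: `R = Ω ⊗_k (MvPolynomial σ k ⧸ 𝔭)` (flatness; or
directly: write a relation in a `k`-basis of `Ω` and compare coefficients: if `∑_b b • G_b ∈ I` with `b` in a
`k`-basis of `Ω` and `G_b` over `k`, then all `G_b ∈ 𝔭`). Hence the multiplicative set
`Ω[t] ∖ {0}` of `R` does not contain `0` and there is a prime `𝔮` of `R` disjoint from it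
(`Ideal.exists_le_prime_disjoint`); the `t_i` stay algebraically independent in `κ' = Frac (R ⧸ 𝔮)`. By row Q3
(`integral_mod`, applied to the images `y` of the `X j` in `κ'`) all `y j` are integral over `Ω[f(y)]`, so
`κ'` is algebraic over `Ω(f_1(y), …, f_N(y))` and has transcendence degree `≤ N` (`trdeg_le_cardinalMk` and
friends in Mathlib.RingTheory.AlgebraicIndependent.TranscendenceBasis), contradiction with
`AlgebraicIndependent.cardinalMk_le_trdeg`.

`exists_zero_of_lt`: apply it with `k = Ω`, `κ = FractionRing (MvPolynomial σ Ω)`, `x = X`, `N = card σ - 1`,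
`T` an enumeration of the variables; pad `f` with copies of some `X j` to get exactly `N` forms.
-/

open scoped TensorProduct in
theorem Q4_indep (k Ω κ ι : Type) [Field k] [Field Ω] [Algebra k Ω] [Field κ] [Algebra k κ]
    (v : ι → κ) (hv : AlgebraicIndependent k v) (P : MvPolynomial ι Ω)
    (hP : aeval (fun i => (1 : Ω) ⊗ₜ[k] v i) P = 0) : P = 0 := by
  set φ : MvPolynomial ι k →ₐ[k] κ := aeval v with hφ
  have hinj : Function.Injective φ := hv
  have h1 : Function.Injective
      (Algebra.TensorProduct.map (AlgHom.id Ω Ω) φ : Ω ⊗[k] MvPolynomial ι k →ₐ[Ω] Ω ⊗[k] κ) :=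
    Module.Flat.lTensor_preserves_injective_linearMap (M := Ω) φ.toLinearMap hinj
  have h2 : ((Algebra.TensorProduct.map (AlgHom.id Ω Ω) φ).comp
      (algebraTensorAlgEquiv (σ := ι) k Ω).symm.toAlgHom : MvPolynomial ι Ω →ₐ[Ω] Ω ⊗[k] κ) =
      aeval (fun i => (1 : Ω) ⊗ₜ[k] v i) := by
    refine MvPolynomial.algHom_ext fun i => ?_
    simp [hφ]
  rw [← h2] at hP
  have h3 : (algebraTensorAlgEquiv (σ := ι) k Ω).symm P = 0 := by
    apply h1
    rw [map_zero]
    exact hP
  have := congrArg (algebraTensorAlgEquiv (σ := ι) k Ω) h3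
  rwa [AlgEquiv.apply_symm_apply, map_zero] at this

theorem Q4_map_hc {k Ω σ : Type} [Field k] [Field Ω] (φ : k →+* Ω) (G : MvPolynomial σ k) (n : ℕ) :
    homogeneousComponent n (MvPolynomial.map φ G) =
      MvPolynomial.map φ (homogeneousComponent n G) := by
  ext s
  rw [coeff_homogeneousComponent, coeff_map, coeff_map, coeff_homogeneousComponent]
  split_ifs
  · rfl
  · rw [map_zero]

theorem Q4_hom {k Ω σ : Type} [Field k] [Field Ω] [Algebra k Ω] (P : Ideal (MvPolynomial σ k))
    (hP : ∀ G ∈ P, ∀ d, homogeneousComponent d G ∈ P) :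
    ∀ G ∈ P.map (MvPolynomial.map (algebraMap k Ω)),
      ∀ d, homogeneousComponent d G ∈ P.map (MvPolynomial.map (σ := σ) (algebraMap k Ω)) := by
  intro G hG
  rw [Ideal.map] at hG ⊢
  induction hG using Submodule.span_induction with
  | mem g hg =>
    intro d
    obtain ⟨g, hg, rfl⟩ := hg
    rw [Q4_map_hc]
    exact Ideal.subset_span ⟨_, hP g hg d, rfl⟩
  | zero => intro d; rw [map_zero]; exact Ideal.zero_mem _
  | add u v _ _ hu hv => intro d; rw [map_add]; exact Ideal.add_mem _ (hu d) (hv d)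
  | smul a u _ hu =>
    intro d
    rw [smul_eq_mul, ← sum_homogeneousComponent u, Finset.mul_sum, map_sum]
    refine Ideal.sum_mem _ fun j _ => ?_
    rw [Q3_hc_mul _ _ j d (homogeneousComponent_isHomogeneous j u)]
    split_ifs
    · exact Ideal.mul_mem_left _ _ (hu j)
    · exact Ideal.zero_mem _

open scoped TensorProduct in
theorem exists_common_zero (k σ Ω κ : Type) [Field k] [Finite σ] [Field Ω] [IsAlgClosed Ω]
    [Algebra k Ω] [Field κ] [Algebra k κ] (x : σ → κ)
    (hx : ∀ G : MvPolynomial σ k, aeval x G = 0 → ∀ d, aeval x (homogeneousComponent d G) = 0)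
    (N : ℕ) (T : Fin (N + 1) → MvPolynomial σ k)
    (hT : AlgebraicIndependent k fun i => aeval x (T i))
    (f : Fin N → MvPolynomial σ Ω) (d : Fin N → ℕ) (hd : ∀ i, 0 < d i)
    (hf : ∀ i, (f i).IsHomogeneous (d i)) :
    ∃ y : σ → Ω, y ≠ 0 ∧ (∀ G : MvPolynomial σ k, aeval x G = 0 → aeval y G = 0) ∧
      ∀ i, eval y (f i) = 0 := by
  classical
  by_contra hcon
  push Not at hcon
  set 𝔭 : Ideal (MvPolynomial σ k) := RingHom.ker (aeval x : MvPolynomial σ k →ₐ[k] κ) with h𝔭
  set I : Ideal (MvPolynomial σ Ω) := 𝔭.map (MvPolynomial.map (algebraMap k Ω)) with hI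
  have hIhom : ∀ G ∈ I, ∀ d, homogeneousComponent d G ∈ I := by
    refine Q4_hom 𝔭 fun G hG d => ?_
    rw [h𝔭, RingHom.mem_ker] at hG ⊢
    exact hx G hG d
  have h0 : ∀ y : σ → Ω, (∀ G ∈ I, eval y G = 0) → (∀ i, eval y (f i) = 0) → y = 0 := by
    intro y hy hyf
    by_contra hy0
    obtain ⟨i, hi⟩ := hcon y hy0 fun G hG => by
      have h1 := hy (MvPolynomial.map (algebraMap k Ω) G)
        (Ideal.mem_map_of_mem _ (RingHom.mem_ker.2 hG))
      rwa [eval_map, ← aeval_def] at h1
    exact hi (hyf i)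
  -- the tensor product
  set ψ : MvPolynomial σ Ω →ₐ[Ω] Ω ⊗[k] κ := aeval (fun i => (1 : Ω) ⊗ₜ[k] x i) with hψ
  have hψmap : ∀ G : MvPolynomial σ k, ψ (MvPolynomial.map (algebraMap k Ω) G) =
      (1 : Ω) ⊗ₜ[k] (aeval x G) := by
    intro G
    have : ((ψ.restrictScalars k).comp (mapAlgHom (Algebra.ofId k Ω)) :
        MvPolynomial σ k →ₐ[k] Ω ⊗[k] κ) =
        (Algebra.TensorProduct.includeRight).comp (aeval x) := by
      refine MvPolynomial.algHom_ext fun i => ?_
      simp [hψ]
    exact congrArg (fun g => g G) this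
  have hIψ : I ≤ RingHom.ker ψ := by
    rw [hI, Ideal.map_le_iff_le_comap]
    intro G hG
    rw [Ideal.mem_comap, RingHom.mem_ker]
    rw [h𝔭, RingHom.mem_ker] at hG
    have := hψmap G
    rw [hG, TensorProduct.tmul_zero] at this
    exact this
  set τ : MvPolynomial (Fin (N + 1)) Ω →ₐ[Ω] MvPolynomial σ Ω :=
    aeval (fun i => MvPolynomial.map (algebraMap k Ω) (T i)) with hτ
  have hψτ : ∀ P, ψ (τ P) = 0 → P = 0 := by
    intro P hP
    refine Q4_indep k Ω κ (Fin (N + 1)) (fun i => aeval x (T i)) hT P ?_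
    rw [← hP]
    have : ψ.comp τ = aeval (fun i => (1 : Ω) ⊗ₜ[k] (aeval x (T i))) := by
      refine MvPolynomial.algHom_ext fun i => ?_
      rw [AlgHom.comp_apply, hτ, aeval_X, aeval_X]
      exact hψmap (T i)
    rw [← this]
    rfl
  obtain ⟨Q, hQ, hkerQ, hdisj⟩ := Ideal.exists_le_prime_disjoint (RingHom.ker ψ)
    (Submonoid.map τ (nonZeroDivisors (MvPolynomial (Fin (N + 1)) Ω))) (by
      rw [Set.disjoint_left]
      rintro _ h1 ⟨P, hP, rfl⟩
      have h2 : ψ (τ P) = 0 := h1
      exact nonZeroDivisors.ne_zero hP (hψτ P h2))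
  set D := MvPolynomial σ Ω ⧸ Q with hD
  have hdom : IsDomain D := Ideal.Quotient.isDomain Q
  set y : σ → D := fun j => Ideal.Quotient.mkₐ Ω Q (X j) with hy
  have hyG : ∀ G : MvPolynomial σ Ω, aeval y G = Ideal.Quotient.mkₐ Ω Q G := by
    intro G
    have : (aeval y : MvPolynomial σ Ω →ₐ[Ω] D) = Ideal.Quotient.mkₐ Ω Q := by
      refine MvPolynomial.algHom_ext fun i => ?_
      rw [aeval_X]
    rw [this]
  have hint : ∀ j, IsIntegral (Algebra.adjoin Ω (Set.range fun i => aeval y (f i))) (y j) :=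
    fun j => integral_mod Ω σ (Fin N) I hIhom f d hd hf h0 y (fun G hG => by
      rw [hyG]
      exact Ideal.Quotient.eq_zero_iff_mem.2 (hkerQ (hIψ hG))) j
  set s : Set D := Set.range fun i => aeval y (f i) with hs
  have halg : Algebra.IsIntegral (Algebra.adjoin Ω s) D := by
    refine ⟨fun z => ?_⟩
    obtain ⟨G, rfl⟩ := Ideal.Quotient.mkₐ_surjective Ω Q z
    rw [← hyG]
    induction G using MvPolynomial.induction_on with
    | C a =>
      rw [aeval_C]
      exact isIntegral_algebraMap (R := Algebra.adjoin Ω s) (x := algebraMap Ω _ a)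
    | add p q hp hq => rw [map_add]; exact hp.add hq
    | mul_X p j hp => rw [map_mul, aeval_X]; exact hp.mul (hint j)
  have halg' : Algebra.IsAlgebraic (Algebra.adjoin Ω s) D := halg.isAlgebraic
  have h1 : Algebra.trdeg Ω D ≤ Cardinal.mk s := Algebra.IsAlgebraic.trdeg_le_cardinalMk Ω s
  have h2 : Cardinal.mk s ≤ N := by
    have := Cardinal.mk_range_le (f := fun i : Fin N => aeval y (f i))
    rwa [Cardinal.mk_fin] at this
  have h3 : AlgebraicIndependent Ω fun i => Ideal.Quotient.mkₐ Ω Q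
      (MvPolynomial.map (algebraMap k Ω) (T i)) := by
    rw [algebraicIndependent_iff]
    intro P hP
    by_contra hP0
    have h4 : (aeval (fun i => Ideal.Quotient.mkₐ Ω Q
      (MvPolynomial.map (algebraMap k Ω) (T i))) : MvPolynomial (Fin (N + 1)) Ω →ₐ[Ω] D) =
        (Ideal.Quotient.mkₐ Ω Q).comp τ := by
      refine MvPolynomial.algHom_ext fun i => ?_
      rw [AlgHom.comp_apply, hτ, aeval_X, aeval_X]
    rw [h4] at hP
    have h5 : τ P ∈ Q := Ideal.Quotient.eq_zero_iff_mem.1 hP
    exact Set.disjoint_left.1 hdisj h5 ⟨P, mem_nonZeroDivisors_of_ne_zero hP0, rfl⟩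
  have h6 := h3.cardinalMk_le_trdeg
  rw [Cardinal.mk_fin] at h6
  have h7 : ((N + 1 : ℕ) : Cardinal) ≤ (N : ℕ) := h6.trans (h1.trans h2)
  rw [Nat.cast_le] at h7
  omega

theorem exists_zero_of_lt (Ω σ ι : Type) [Field Ω] [IsAlgClosed Ω] [Fintype σ] [Fintype ι]
    (hlt : Fintype.card ι < Fintype.card σ) (f : ι → MvPolynomial σ Ω) (d : ι → ℕ)
    (hd : ∀ i, 0 < d i) (hf : ∀ i, (f i).IsHomogeneous (d i)) :
    ∃ y : σ → Ω, y ≠ 0 ∧ ∀ i, eval y (f i) = 0 := by
  classical
  obtain ⟨N, hN⟩ : ∃ N, Fintype.card σ = N + 1 := ⟨Fintype.card σ - 1, by omega⟩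
  let e : Fin (N + 1) ≃ σ := (finCongr hN.symm).trans (Fintype.equivFin σ).symm
  let eι := Fintype.equivFin ι
  let j0 : σ := e 0
  let κ := FractionRing (MvPolynomial σ Ω)
  let x : σ → κ := fun j => algebraMap (MvPolynomial σ Ω) κ (X j)
  have hxG : ∀ G : MvPolynomial σ Ω, aeval x G = algebraMap (MvPolynomial σ Ω) κ G := by
    intro G
    have : (aeval x : MvPolynomial σ Ω →ₐ[Ω] κ) =
        (IsScalarTower.toAlgHom Ω (MvPolynomial σ Ω) κ) := by
      refine MvPolynomial.algHom_ext fun i => ?_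
      rw [aeval_X]
      rfl
    rw [this]
    rfl
  have hinj : Function.Injective (algebraMap (MvPolynomial σ Ω) κ) :=
    IsFractionRing.injective _ _
  have hx0 : ∀ G : MvPolynomial σ Ω, aeval x G = 0 → G = 0 := by
    intro G hG
    rw [hxG] at hG
    exact hinj (by rw [hG, map_zero])
  let f' : Fin N → MvPolynomial σ Ω := fun n =>
    if h : (n : ℕ) < Fintype.card ι then f (eι.symm ⟨n, h⟩) else X j0
  let d' : Fin N → ℕ := fun n =>
    if h : (n : ℕ) < Fintype.card ι then d (eι.symm ⟨n, h⟩) else 1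
  obtain ⟨y, hy0, -, hy⟩ := exists_common_zero Ω σ Ω κ x
    (fun G hG d => by rw [hx0 G hG, map_zero, map_zero]) N (fun n => X (e n))
    (by
      rw [algebraicIndependent_iff]
      intro P hP
      have h1 : (aeval (fun n => aeval x (X (e n) : MvPolynomial σ Ω)) :
          MvPolynomial (Fin (N + 1)) Ω →ₐ[Ω] κ) = (aeval x).comp (rename e) := by
        refine MvPolynomial.algHom_ext fun i => ?_
        simp
      rw [h1] at hP
      exact rename_injective e e.injective (by rw [map_zero]; exact hx0 _ hP))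
    f' d' (fun n => by
      show 0 < (if h : (n : ℕ) < Fintype.card ι then d (eι.symm ⟨n, h⟩) else 1)
      split_ifs
      · exact hd _
      · exact one_pos)
    (fun n => by
      show (if h : (n : ℕ) < Fintype.card ι then f (eι.symm ⟨n, h⟩) else X j0).IsHomogeneous
        (if h : (n : ℕ) < Fintype.card ι then d (eι.symm ⟨n, h⟩) else 1)
      split_ifs
      · exact hf _
      · exact isHomogeneous_X _ _)
  refine ⟨y, hy0, fun i => ?_⟩
  have hi : (eι i : ℕ) < N := by have := (eι i).2; omega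
  have h1 := hy ⟨eι i, hi⟩
  have h2 : f' ⟨eι i, hi⟩ = f i := by
    show (if h : (eι i : ℕ) < Fintype.card ι then f (eι.symm ⟨eι i, h⟩) else X j0) = f i
    rw [dif_pos (eι i).2]
    congr 1
    exact eι.symm_apply_apply i
  rwa [h2] at h1

end Pool.Agent.LibHP
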