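import Pool.Agent.LibHPF.Q0

set_option autoImplicit false
open MvPolynomial

namespace Pool.Agent.LibHP

/-!
# Row Q5: cone points
-/

private theorem q5_aeval_smul {σ A k : Type} [Field k] [CommRing A] [Algebra k A] (t : A)
    (y : σ → A) (e : ℕ) (ψ : MvPolynomial σ k) (hψ : ψ.IsHomogeneous e) :
    aeval (fun i => t * y i) ψ = t ^ e * aeval y ψ := by
  rw [aeval_def, eval₂_eq, aeval_def, eval₂_eq, Finset.mul_sum]
  refine Finset.sum_congr rfl fun s hs => ?_
  have h1 : ∑ i ∈ s.support, s i = e := hψ.degree_eq_sum_deg_support hs |>.symm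
  have h3 : ∏ i ∈ s.support, (t * y i) ^ s i = t ^ e * ∏ i ∈ s.support, y i ^ s i := by
    rw [← h1, ← Finset.prod_pow_eq_pow_sum, ← Finset.prod_mul_distrib]
    exact Finset.prod_congr rfl fun i _ => mul_pow _ _ _
  rw [h3]
  ring

/-- The value at `t d` as a polynomial in `t`. -/
private theorem q5_expand {σ κ k : Type} [Field k] [Field κ] [Algebra k κ] (d : σ → κ)
    (G : MvPolynomial σ k) :
    aeval (fun i => (RatFunc.X : RatFunc κ) * algebraMap κ (RatFunc κ) (d i)) G =
      algebraMap (Polynomial κ) (RatFunc κ) (∑ i ∈ Finset.range (G.totalDegree + 1),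
        Polynomial.X ^ i * Polynomial.C (aeval d (homogeneousComponent i G))) := by
  conv_lhs => rw [← sum_homogeneousComponent G]
  rw [map_sum, map_sum]
  refine Finset.sum_congr rfl fun i _ => ?_
  have hc : aeval (fun i => algebraMap κ (RatFunc κ) (d i)) (homogeneousComponent i G) =
      algebraMap κ (RatFunc κ) (aeval d (homogeneousComponent i G)) :=
    aeval_algebraMap_apply (RatFunc κ) d _
  rw [q5_aeval_smul _ _ i _ (homogeneousComponent_isHomogeneous i G), hc, map_mul,
    map_pow, RatFunc.algebraMap_X, RatFunc.algebraMap_C]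
  rfl

private theorem q5_zero_iff {σ κ k : Type} [Field k] [Field κ] [Algebra k κ] (d : σ → κ)
    (G : MvPolynomial σ k) :
    aeval (fun i => (RatFunc.X : RatFunc κ) * algebraMap κ (RatFunc κ) (d i)) G = 0 ↔
      ∀ e, aeval d (homogeneousComponent e G) = 0 := by
  rw [q5_expand d G]
  constructor
  · intro h e
    have h2 : (∑ i ∈ Finset.range (G.totalDegree + 1),
        Polynomial.X ^ i * Polynomial.C (aeval d (homogeneousComponent i G))) = 0 :=
      (FaithfulSMul.algebraMap_injective (Polynomial κ) (RatFunc κ)) (by rw [h, map_zero])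
    by_cases he : e ∈ Finset.range (G.totalDegree + 1)
    · have h3 := congrArg (fun p => Polynomial.coeff p e) h2
      simp only [Polynomial.finsetSum_coeff, Polynomial.coeff_zero] at h3
      rw [Finset.sum_eq_single e] at h3
      · rwa [Polynomial.coeff_X_pow_mul', if_pos le_rfl, Nat.sub_self,
          Polynomial.coeff_C_zero] at h3
      · intro i _ hi
        rw [mul_comm, Polynomial.coeff_C_mul, Polynomial.coeff_X_pow, if_neg (Ne.symm hi), mul_zero]
      · intro hh
        exact absurd he hh
    · rw [homogeneousComponent_eq_zero, map_zero]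
      simpa using he
  · intro h
    rw [Finset.sum_eq_zero fun i _ => by rw [h i, map_zero, mul_zero], map_zero]

/-- Adding the variable of `RatFunc κ` to independent elements of `κ`. -/
private theorem q5_cons {k κ : Type} [Field k] [Field κ] [Algebra k κ] {N : ℕ} {t : Fin N → κ}
    (ht : AlgebraicIndependent k t) :
    AlgebraicIndependent k (Fin.cons (RatFunc.X : RatFunc κ)
      (fun i => algebraMap κ (RatFunc κ) (t i)) : Fin (N + 1) → RatFunc κ) := by
  let g : MvPolynomial (Fin (N + 1)) k →ₐ[k] RatFunc κ :=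
    (IsScalarTower.toAlgHom k (Polynomial κ) (RatFunc κ)).comp
      ((Polynomial.mapAlgHom (aeval t)).comp (finSuccEquiv k N).toAlgHom)
  have hg : (aeval (Fin.cons (RatFunc.X : RatFunc κ)
      (fun i => algebraMap κ (RatFunc κ) (t i)) : Fin (N + 1) → RatFunc κ)) = g := by
    apply algHom_ext
    intro i
    rw [aeval_X]
    refine Fin.cases ?_ (fun j => ?_) i
    · show RatFunc.X = algebraMap (Polynomial κ) (RatFunc κ)
        (Polynomial.map (aeval t : MvPolynomial (Fin N) k →ₐ[k] κ) (finSuccEquiv k N (X 0)))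
      rw [finSuccEquiv_X_zero, Polynomial.map_X, RatFunc.algebraMap_X]
    · show algebraMap κ (RatFunc κ) (t j) = algebraMap (Polynomial κ) (RatFunc κ)
        (Polynomial.map (aeval t : MvPolynomial (Fin N) k →ₐ[k] κ) (finSuccEquiv k N (X j.succ)))
      rw [finSuccEquiv_X_succ, Polynomial.map_C, RatFunc.algebraMap_C]
      show _ = RatFunc.C (aeval t (X j))
      rw [aeval_X]
      rfl
  show Function.Injective (aeval _)
  rw [hg]
  intro a b hab
  have h1 : Polynomial.map ((aeval t : MvPolynomial (Fin N) k →ₐ[k] κ) : _ →+* κ)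
      (finSuccEquiv k N a) = Polynomial.map ((aeval t : MvPolynomial (Fin N) k →ₐ[k] κ) : _ →+* κ)
      (finSuccEquiv k N b) := FaithfulSMul.algebraMap_injective (Polynomial κ) (RatFunc κ) hab
  exact (finSuccEquiv k N).injective (Polynomial.map_injective _ ht h1)

/-- Multiplying the other members of an independent family by powers of the first one. -/
private theorem q5_scale {k K : Type} [Field k] [Field K] [Algebra k K] {N : ℕ} {s : K}
    {t : Fin N → K} (h : AlgebraicIndependent k (Fin.cons s t : Fin (N + 1) → K)) (D : Fin N → ℕ) :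
    AlgebraicIndependent k (Fin.cons s (fun i => s ^ D i * t i) : Fin (N + 1) → K) := by
  let θ : MvPolynomial (Fin (N + 1)) k →ₐ[k] MvPolynomial (Fin (N + 1)) k :=
    aeval (Fin.cons (X 0) (fun i => X 0 ^ D i * X i.succ))
  have hθ : Function.Injective θ := by
    let ψ : MvPolynomial (Fin (N + 1)) k →ₐ[k] FractionRing (MvPolynomial (Fin (N + 1)) k) :=
      aeval (Fin.cons (algebraMap (MvPolynomial (Fin (N + 1)) k)
          (FractionRing (MvPolynomial (Fin (N + 1)) k)) (X 0)) (fun i =>
        (algebraMap (MvPolynomial (Fin (N + 1)) k)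
          (FractionRing (MvPolynomial (Fin (N + 1)) k)) (X 0) ^ D i)⁻¹ *
            algebraMap (MvPolynomial (Fin (N + 1)) k) _ (X i.succ)))
    have hinj : Function.Injective (algebraMap (MvPolynomial (Fin (N + 1)) k)
        (FractionRing (MvPolynomial (Fin (N + 1)) k))) :=
      IsFractionRing.injective _ (FractionRing (MvPolynomial (Fin (N + 1)) k))
    have hX : algebraMap (MvPolynomial (Fin (N + 1)) k)
        (FractionRing (MvPolynomial (Fin (N + 1)) k)) (X 0) ≠ 0 := by
      intro h0
      exact X_ne_zero (R := k) (0 : Fin (N + 1)) (hinj (by rw [h0, map_zero]))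
    have hψ : ψ.comp θ = IsScalarTower.toAlgHom k (MvPolynomial (Fin (N + 1)) k)
        (FractionRing (MvPolynomial (Fin (N + 1)) k)) := by
      apply algHom_ext
      intro i
      rw [AlgHom.comp_apply]
      refine Fin.cases ?_ (fun j => ?_) i
      · show ψ (aeval _ (X 0)) = algebraMap _ _ (X 0)
        rw [aeval_X]
        show aeval _ (X 0) = _
        rw [aeval_X]
        rfl
      · show ψ (aeval _ (X j.succ)) = algebraMap _ _ (X j.succ)
        rw [aeval_X]
        show ψ (X 0 ^ D j * X j.succ) = _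
        rw [map_mul, map_pow]
        show (aeval _ (X 0)) ^ D j * aeval _ (X j.succ) = _
        rw [aeval_X, aeval_X]
        show (algebraMap _ _ (X 0)) ^ D j * ((algebraMap (MvPolynomial (Fin (N + 1)) k)
          (FractionRing (MvPolynomial (Fin (N + 1)) k)) (X 0) ^ D j)⁻¹ *
            algebraMap _ _ (X j.succ)) = _
        rw [← mul_assoc, mul_inv_cancel₀ (pow_ne_zero _ hX), one_mul]
    intro a b hab
    have h1 : ψ.comp θ a = ψ.comp θ b := by
      rw [AlgHom.comp_apply, AlgHom.comp_apply, hab]
    rw [hψ] at h1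
    exact hinj h1
  have hcomp : (aeval (Fin.cons s (fun i => s ^ D i * t i) : Fin (N + 1) → K) :
      MvPolynomial (Fin (N + 1)) k →ₐ[k] K) =
      (aeval (Fin.cons s t : Fin (N + 1) → K)).comp θ := by
    apply algHom_ext
    intro i
    rw [AlgHom.comp_apply, aeval_X]
    refine Fin.cases ?_ (fun j => ?_) i
    · show s = aeval _ (aeval _ (X 0))
      rw [aeval_X]
      show s = aeval _ (X 0)
      rw [aeval_X]
      rfl
    · show s ^ D j * t j = aeval _ (aeval _ (X j.succ))
      rw [aeval_X]
      show s ^ D j * t j = aeval _ (X 0 ^ D j * X j.succ)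
      rw [map_mul, map_pow, aeval_X, aeval_X]
      rfl
  have h' : Function.Injective (aeval (Fin.cons s t : Fin (N + 1) → K) :
      MvPolynomial (Fin (N + 1)) k →ₐ[k] K) := h
  have h'' : Function.Injective (aeval (Fin.cons s (fun i => s ^ D i * t i) :
      Fin (N + 1) → K) : MvPolynomial (Fin (N + 1)) k →ₐ[k] K) := by
    rw [hcomp]
    intro a b hab
    exact hθ (h' hab)
  exact h''

theorem exists_cone_of_point (k σ κ : Type) [Field k] [Field κ] [Algebra k κ] (d : σ → κ) (i0 : σ)
    (hd : d i0 = 1) :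
    ∃ (κ' : Type) (_ : Field κ') (_ : Algebra k κ') (f : κ →ₐ[k] κ') (s : κ'), s ≠ 0 ∧
      (∀ G : MvPolynomial σ k, aeval (fun i => s * f (d i)) G = 0 ↔
        ∀ e, aeval d (homogeneousComponent e G) = 0) ∧
      ∀ (N : ℕ) (T : Fin N → MvPolynomial σ k), AlgebraicIndependent k (fun i => aeval d (T i)) →
        ∃ T' : Fin (N + 1) → MvPolynomial σ k,
          AlgebraicIndependent k (fun i => aeval (fun i => s * f (d i)) (T' i)) := by
  classical
  refine ⟨RatFunc κ, inferInstance, inferInstance, IsScalarTower.toAlgHom k κ (RatFunc κ),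
    RatFunc.X, RatFunc.X_ne_zero, fun G => q5_zero_iff d G, ?_⟩
  intro N T hT
  let Th : Fin N → MvPolynomial σ k := fun i => ∑ e ∈ Finset.range ((T i).totalDegree + 1),
    X i0 ^ ((T i).totalDegree - e) * homogeneousComponent e (T i)
  have hhom : ∀ i, (Th i).IsHomogeneous (T i).totalDegree := by
    intro i
    refine IsHomogeneous.sum _ _ _ fun e he => ?_
    have h1 : (T i).totalDegree = ((T i).totalDegree - e) + e := by
      have := Finset.mem_range.1 he
      omega
    have h2 := (isHomogeneous_X_pow (R := k) i0 ((T i).totalDegree - e)).mul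
      (homogeneousComponent_isHomogeneous e (T i))
    rwa [← h1] at h2
  have hval : ∀ i, aeval d (Th i) = aeval d (T i) := by
    intro i
    show aeval d (∑ e ∈ Finset.range ((T i).totalDegree + 1),
      X i0 ^ ((T i).totalDegree - e) * homogeneousComponent e (T i)) = _
    conv_rhs => rw [← sum_homogeneousComponent (T i)]
    rw [map_sum, map_sum]
    refine Finset.sum_congr rfl fun e _ => ?_
    rw [map_mul, map_pow, aeval_X, hd, one_pow, one_mul]
  refine ⟨Fin.cons (X i0) Th, ?_⟩
  have h1 := q5_scale (q5_cons hT) fun i => (T i).totalDegree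
  have h2 : (fun j : Fin (N + 1) => aeval (fun i => (RatFunc.X : RatFunc κ) *
      (IsScalarTower.toAlgHom k κ (RatFunc κ)) (d i)) ((Fin.cons (X i0) Th :
        Fin (N + 1) → MvPolynomial σ k) j)) =
      Fin.cons (RatFunc.X : RatFunc κ) (fun i => (RatFunc.X : RatFunc κ) ^ (T i).totalDegree *
        algebraMap κ (RatFunc κ) (aeval d (T i))) := by
    funext j
    refine Fin.cases ?_ (fun i => ?_) j
    · show aeval _ (X i0) = RatFunc.X
      rw [aeval_X, hd, map_one, mul_one]
    · show aeval _ (Th i) = (RatFunc.X : RatFunc κ) ^ (T i).totalDegree *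
        algebraMap κ (RatFunc κ) (aeval d (T i))
      rw [q5_aeval_smul _ _ _ _ (hhom i), ← hval i]
      congr 1
      exact aeval_algebraMap_apply (RatFunc κ) d _
  rw [h2]
  exact h1

theorem exists_cone {k : Type} [Field k] {n : ℕ} {φ : Tens k n} {Ω : Type} [Field Ω] [Algebra k Ω]
    (P : Fin (n + 1) → Ω) (hP : IsGenPt φ P) :
    ∃ (Ω' : Type) (_ : Field Ω') (_ : Algebra k Ω') (_ : IsAlgClosed Ω') (f : Ω →ₐ[k] Ω') (s : Ω'),
      s ≠ 0 ∧ IsGenCone φ (fun i => s * f (P i)) := by
  classical
  obtain ⟨κ', _, _, f, s, hs, h1, -⟩ := exists_cone_of_point k (Fin (n + 1)) Ω P 0 hP.1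
  refine ⟨AlgebraicClosure κ', inferInstance, inferInstance, inferInstance,
    (IsScalarTower.toAlgHom k κ' (AlgebraicClosure κ')).comp f,
    algebraMap κ' (AlgebraicClosure κ') s, ?_, ?_⟩
  · intro h
    exact hs ((map_eq_zero _).1 h)
  · intro G
    have h2 : aeval (fun i => algebraMap κ' (AlgebraicClosure κ') s *
        ((IsScalarTower.toAlgHom k κ' (AlgebraicClosure κ')).comp f) (P i)) G =
        algebraMap κ' (AlgebraicClosure κ') (aeval (fun i => s * f (P i)) G) := by
      rw [← aeval_algebraMap_apply]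
      congr 2
      funext i
      show _ = algebraMap κ' (AlgebraicClosure κ') (s * f (P i))
      rw [map_mul]
      rfl
    rw [h2, map_eq_zero, h1 G]
    have h3 : (∀ e, aeval P (homogeneousComponent e G) = 0) ↔
        ∀ e, homogeneousComponent e G ∈ Ideal.span {FF φ} := by
      refine forall_congr' fun e => ?_
      rw [hP.2 e _ (homogeneousComponent_isHomogeneous e G), Ideal.mem_span_singleton]
    rw [h3, ← Ideal.mem_span_singleton]
    let _ : GradedAlgebra (homogeneousSubmodule (Fin (n + 1)) k) := gradedAlgebra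
    exact (mem_iff_homogeneousComponent_mem (Ideal.homogeneous_span _ _ (by
      intro x hx
      rw [Set.mem_singleton_iff] at hx
      rw [hx]
      exact ⟨4, isHomogeneous_FF φ⟩)) G).symm

/-- A generic point of the hypersurface stays generic in a larger field. -/
theorem IsGenPt.map {k : Type} [Field k] {n : ℕ} {φ : Tens k n} {Ω Ω' : Type} [Field Ω]
    [Algebra k Ω] [Field Ω'] [Algebra k Ω'] {P : Fin (n + 1) → Ω} (hP : IsGenPt φ P)
    (f : Ω →ₐ[k] Ω') : IsGenPt φ (fun i => f (P i)) := by
  refine ⟨?_, fun d G hG => ?_⟩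
  · show f (P 0) = 1
    rw [hP.1, map_one]
  rw [← hP.2 d G hG, ← map_eq_zero_iff f f.injective]
  have h : aeval (fun i => f (P i)) G = f (aeval P G) := by
    rw [← AlgHom.comp_apply, MvPolynomial.comp_aeval]
  rw [h]

theorem IsGenPt.self {k : Type} [Field k] {n : ℕ} {φ : Tens k n} {Ω : Type} [Field Ω]
    [Algebra k Ω] {P : Fin (n + 1) → Ω} (hP : IsGenPt φ P) : Phi φ P P P P = 0 := by
  rw [← aeval_FF]
  exact (hP.2 4 _ (isHomogeneous_FF φ)).2 dvd_rfl

end Pool.Agent.LibHP
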