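import Mathlib

set_option autoImplicit false
open MvPolynomial

namespace Pool.Agent.LibHP

/-!
# Row Q14: a derivation detecting the uniformizer (only Mathlib)
-/

open IsLocalRing TensorProduct in
theorem exists_derivation_of_dvr (k A : Type) [Field k] [CharZero k] [CommRing A] [IsDomain A]
    [Algebra k A] [Algebra.FiniteType k A] (p : Ideal A) [p.IsPrime]
    (hdvr : IsDiscreteValuationRing (Localization.AtPrime p)) :
    ∃ D : Derivation k A p.ResidueField, ∃ g ∈ p, D g ≠ 0 := by
  classical
  -- an element of `p` outside of the square of the maximal ideal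
  obtain ⟨g, hgp, hg⟩ : ∃ g ∈ p, algebraMap A (Localization.AtPrime p) g ∉
      (maximalIdeal (Localization.AtPrime p)) ^ 2 := by
    by_contra h
    push Not at h
    have h1 : maximalIdeal (Localization.AtPrime p) ≤
        (maximalIdeal (Localization.AtPrime p)) ^ 2 := by
      conv_lhs => rw [← Localization.AtPrime.map_eq_maximalIdeal (I := p)]
      rw [Ideal.map_le_iff_le_comap]
      exact fun g hg => h g hg
    obtain ⟨π, hπ⟩ := IsDiscreteValuationRing.exists_irreducible (Localization.AtPrime p)
    have h2 := hπ.maximalIdeal_eq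
    rw [h2, Ideal.span_singleton_pow] at h1
    have h3 := h1 (Ideal.mem_span_singleton_self π)
    rw [Ideal.mem_span_singleton] at h3
    obtain ⟨c, hc⟩ := h3
    have h4 : π * 1 = π * (π * c) := by rw [mul_one, ← mul_assoc, ← pow_two, ← hc]
    have h5 := mul_left_cancel₀ hπ.ne_zero h4
    exact hπ.not_isUnit (IsUnit.of_mul_eq_one _ h5.symm)
  have hsurj : Function.Surjective (algebraMap (Localization.AtPrime p) p.ResidueField) :=
    IsLocalRing.residue_surjective
  have hker : RingHom.ker (algebraMap (Localization.AtPrime p) p.ResidueField) =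
      maximalIdeal (Localization.AtPrime p) := IsLocalRing.ker_residue
  have hess0 : Algebra.EssFiniteType k A := inferInstance
  have hess : Algebra.EssFiniteType k p.ResidueField := Algebra.EssFiniteType.comp k A _
  have hfs : Algebra.FormallySmooth k p.ResidueField :=
    Algebra.FormallySmooth.of_perfectField
  let f := (IsScalarTower.toAlgHom k (Localization.AtPrime p) p.ResidueField).kerSquareLift
  have hf1 : Function.Surjective f := by
    intro x
    obtain ⟨y, rfl⟩ := hsurj x
    exact ⟨Ideal.Quotient.mk _ y, rfl⟩
  have hf2 : IsNilpotent (RingHom.ker f) := by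
    refine ⟨2, ?_⟩
    change RingHom.ker (AlgHom.kerSquareLift (IsScalarTower.toAlgHom k (Localization.AtPrime p)
      p.ResidueField)).toRingHom ^ 2 = 0
    rw [AlgHom.ker_kerSquareLift, Ideal.cotangentIdeal_square]
    rfl
  let s := Algebra.FormallySmooth.liftOfSurjective (AlgHom.id k p.ResidueField) f hf1 hf2
  have hs : f.comp s = AlgHom.id k p.ResidueField :=
    Algebra.FormallySmooth.comp_liftOfSurjective _ f hf1 hf2
  obtain ⟨l, hl⟩ := (retractionKerCotangentToTensorEquivSection
    (R := k) (P := Localization.AtPrime p) (S := p.ResidueField) hsurj).symm ⟨s, hs⟩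
  have hgker : algebraMap A (Localization.AtPrime p) g ∈
      RingHom.ker (algebraMap (Localization.AtPrime p) p.ResidueField) := by
    rw [hker, ← Localization.AtPrime.map_eq_maximalIdeal (I := p)]
    exact Ideal.mem_map_of_mem _ hgp
  let w : p.ResidueField ⊗[Localization.AtPrime p] Ω[Localization.AtPrime p⁄k] :=
    1 ⊗ₜ KaehlerDifferential.D k (Localization.AtPrime p) (algebraMap A _ g)
  have hw : w ≠ 0 := by
    intro h0
    have h1 := LinearMap.congr_fun hl (Ideal.toCotangent _ ⟨_, hgker⟩)
    rw [LinearMap.comp_apply, KaehlerDifferential.kerCotangentToTensor_toCotangent,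
      LinearMap.id_apply] at h1
    have h2 : l w = Ideal.toCotangent _ ⟨_, hgker⟩ := h1
    rw [h0, map_zero, eq_comm, Ideal.toCotangent_eq_zero] at h2
    have h3 : algebraMap A (Localization.AtPrime p) g ∈
      (RingHom.ker (algebraMap (Localization.AtPrime p) p.ResidueField)) ^ 2 := h2
    rw [hker] at h3
    exact hg h3
  obtain ⟨F, hF⟩ : ∃ F : Module.Dual p.ResidueField
      (p.ResidueField ⊗[Localization.AtPrime p] Ω[Localization.AtPrime p⁄k]), F w ≠ 0 := by
    by_contra h
    push Not at h
    exact hw ((Module.forall_dual_apply_eq_zero_iff p.ResidueField w).mp h)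
  let D1 : Derivation k (Localization.AtPrime p) p.ResidueField :=
    ((F.restrictScalars (Localization.AtPrime p)).comp
      (TensorProduct.mk (Localization.AtPrime p) p.ResidueField
        Ω[Localization.AtPrime p⁄k] 1)).compDer (KaehlerDifferential.D k (Localization.AtPrime p))
  refine ⟨D1.compAlgebraMap A, g, hgp, ?_⟩
  exact hF

end Pool.Agent.LibHP
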