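import Pool.Agent.LibHPF.Q6

set_option autoImplicit false
open MvPolynomial

namespace Pool.Agent.LibHP

variable {k : Type} [Field k] [CharZero k] {n : ℕ} {φ : Tens k n}

/-!
# Row Q10: transcendence degree of the hypersurface

PLAN. `P i ≠ 0`: `X i` is not divisible by `FF φ` (degrees, `hP.2 1`). Let `H` be a polynomial relation between
the `P l / P i`, `l ≠ i, j`. Homogenise it with the variable `X i`: a form `G` of degree `D = H.totalDegree`
in the variables `X l`, `l ≠ j`, with `aeval P G = P i ^ D * H(P l / P i) = 0`, so `FF φ ∣ G`. If `G ≠ 0`: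
`X j` occurs in `FF φ` (otherwise, with `e = Pi.single j 1`, `Phi φ e e e a = 0` for all `a`, contradiction with
`Smooth4`), so a nonzero multiple of `FF φ` has positive degree in `X j`
(`degreeOf_mul_eq` for domains), contradiction. So `G = 0`, so `H = 0` (set `X i = 1`).
-/

omit [CharZero k] in
/-- Scaling the point of a form. -/
theorem Q10_aeval_scale {σ R : Type} [CommRing R] [Algebra k R] {H : MvPolynomial σ k} {d : ℕ}
    (hH : H.IsHomogeneous d) (c : R) (x : σ → R) :
    aeval (fun l => c * x l) H = c ^ d * aeval x H := by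
  rw [aeval_def, aeval_def, eval₂_eq, eval₂_eq, Finset.mul_sum]
  refine Finset.sum_congr rfl fun m hm => ?_
  have h1 : ∏ l ∈ m.support, (c * x l) ^ m l = c ^ d * ∏ l ∈ m.support, x l ^ m l := by
    simp only [mul_pow, Finset.prod_mul_distrib]
    rw [Finset.prod_pow_eq_pow_sum, ← hH.degree_eq_sum_deg_support hm]
  rw [h1]
  ring

/-- The variable `X j` occurs in the quartic. -/
theorem Q10_degreeOf_ne (hφ : IsSymm4 φ) (hs : Smooth4 φ) (j : Fin (n + 1)) :
    degreeOf j (FF φ) ≠ 0 := by
  intro h0
  have hnv : j ∉ (FF φ).vars := by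
    rw [mem_vars_iff_mem_support]
    rintro ⟨m, hm, hj⟩
    have := (degreeOf_le_iff (n := j) (f := FF φ) (d := 0)).1 (le_of_eq h0) m hm
    exact (Finsupp.mem_support_iff.1 hj) (Nat.le_zero.1 this)
  let K := AlgebraicClosure k
  set e : Fin (n + 1) → K := Pi.single j 1 with he
  have hinv : ∀ (x : Fin (n + 1) → K) (t : K), Phi φ (x + t • e) (x + t • e) (x + t • e)
      (x + t • e) = Phi φ x x x x := by
    intro x t
    rw [← aeval_FF, ← aeval_FF]
    have := eval₂Hom_congr' (f₁ := algebraMap k K) (f₂ := algebraMap k K) (g₁ := x + t • e)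
      (g₂ := x) (p₁ := FF φ) (p₂ := FF φ) rfl (by
        intro i hi _
        have hij : i ≠ j := fun h => hnv (h ▸ hi)
        simp [he, Pi.single_eq_of_ne hij]) rfl
    exact this
  have key : ∀ x : Fin (n + 1) → K, Phi φ e e e x = 0 := by
    intro x
    have hexp : ∀ t : K, 4 * t * Phi φ x x x e + 6 * t ^ 2 * Phi φ x x e e
        + 4 * t ^ 3 * Phi φ e e e x + t ^ 4 * Phi φ e e e e = 0 := by
      intro t
      have h := hinv x t
      have e1 : Phi φ x x e x = Phi φ x x x e := Phi_comm34 hφ _ _ _ _
      have e2 : Phi φ x e x x = Phi φ x x x e := by rw [Phi_comm23 hφ x e x x, e1]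
      have e3 : Phi φ e x x x = Phi φ x x x e := by rw [Phi_comm12 hφ e x x x, e2]
      have e4 : Phi φ x e x e = Phi φ x x e e := Phi_comm23 hφ _ _ _ _
      have e5 : Phi φ x e e x = Phi φ x x e e := by rw [Phi_comm34 hφ x e e x, e4]
      have e6 : Phi φ e x x e = Phi φ x x e e := by rw [Phi_comm12 hφ e x x e, e4]
      have e7 : Phi φ e x e x = Phi φ x x e e := by rw [Phi_comm12 hφ e x e x, e5]
      have e8 : Phi φ e e x x = Phi φ x x e e := by rw [Phi_comm23 hφ e e x x, e7]
      have e9 : Phi φ e e x e = Phi φ e e e x := Phi_comm34 hφ _ _ _ _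
      have e10 : Phi φ e x e e = Phi φ e e e x := by rw [Phi_comm23 hφ e x e e, e9]
      have e11 : Phi φ x e e e = Phi φ e e e x := by rw [Phi_comm12 hφ x e e e, e10]
      simp only [Phi_add1, Phi_add2, Phi_add3, Phi_add4, Phi_smul1, Phi_smul2, Phi_smul3,
        Phi_smul4, e1, e2, e3, e4, e5, e6, e7, e8, e9, e10, e11] at h
      linear_combination h
    have h1 := hexp 1
    have h2 := hexp (-1)
    have h3 := hexp 2
    have h4 := hexp (-2)
    have h5 : (48 : K) * Phi φ e e e x = 0 := by
      linear_combination (-2) * h1 + 2 * h2 + h3 - h4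
    exact (mul_eq_zero.1 h5).resolve_left (by norm_num)
  have h6 := hs e key
  have h7 := congrFun h6 j
  rw [he, Pi.single_eq_same, Pi.zero_apply] at h7
  exact one_ne_zero h7

theorem IsGenPt.ne_zero (hφ : IsSymm4 φ) (hs : Smooth4 φ) {K : Type} [Field K] [Algebra k K]
    {P : Fin (n + 1) → K} (hP : IsGenPt φ P) (i : Fin (n + 1)) : P i ≠ 0 := by
  intro h
  have h1 : FF φ ∣ (X i : MvPolynomial (Fin (n + 1)) k) :=
    (hP.2 1 (X i) (isHomogeneous_X k i)).1 (by rw [aeval_X, h])
  have hF : FF φ ≠ 0 := by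
    intro h0
    exact Q10_degreeOf_ne hφ hs i (by rw [h0, degreeOf_zero])
  have h2 := totalDegree_le_of_dvd_of_isDomain h1 (X_ne_zero i)
  rw [(isHomogeneous_FF φ).totalDegree hF, totalDegree_X] at h2
  omega

theorem independent_ratios (hφ : IsSymm4 φ) (hs : Smooth4 φ) {K : Type} [Field K] [Algebra k K]
    (P : Fin (n + 1) → K) (hP : IsGenPt φ P) (i j : Fin (n + 1)) (hij : i ≠ j) :
    AlgebraicIndependent k (fun l : {l : Fin (n + 1) // l ≠ i ∧ l ≠ j} => P l / P i) := by
  have hPi : P i ≠ 0 := IsGenPt.ne_zero hφ hs hP i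
  rw [algebraicIndependent_iff]
  intro H hH
  set G : MvPolynomial (Fin (n + 1)) k := ∑ d ∈ Finset.range (H.totalDegree + 1),
    rename Subtype.val (homogeneousComponent d H) * X i ^ (H.totalDegree - d) with hG
  have hGh : G.IsHomogeneous H.totalDegree := by
    refine IsHomogeneous.sum _ _ _ fun d hd => ?_
    have hd' : d + (H.totalDegree - d) = H.totalDegree := by
      have := Finset.mem_range.1 hd
      omega
    have h1 := ((homogeneousComponent_isHomogeneous d H).rename_isHomogeneous
      (f := (Subtype.val : {l : Fin (n + 1) // l ≠ i ∧ l ≠ j} → Fin (n + 1)))).mul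
      (isHomogeneous_X_pow (R := k) i (H.totalDegree - d))
    rwa [hd'] at h1
  have hGz : aeval P G = 0 := by
    have h1 : aeval P G = P i ^ H.totalDegree *
        aeval (fun l : {l : Fin (n + 1) // l ≠ i ∧ l ≠ j} => P l / P i) H := by
      have hsum : aeval (fun l : {l : Fin (n + 1) // l ≠ i ∧ l ≠ j} => P l / P i) H =
          ∑ d ∈ Finset.range (H.totalDegree + 1),
            aeval (fun l : {l : Fin (n + 1) // l ≠ i ∧ l ≠ j} => P l / P i)
              (homogeneousComponent d H) := by
        rw [← map_sum, sum_homogeneousComponent]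
      rw [hG, map_sum, hsum, Finset.mul_sum]
      refine Finset.sum_congr rfl fun d hd => ?_
      have hd' : d ≤ H.totalDegree := by
        have := Finset.mem_range.1 hd
        omega
      rw [map_mul, map_pow, aeval_X, aeval_rename]
      have h2 := Q10_aeval_scale (homogeneousComponent_isHomogeneous d H) (P i)
        (fun l : {l : Fin (n + 1) // l ≠ i ∧ l ≠ j} => P l / P i)
      have h3 : (fun l : {l : Fin (n + 1) // l ≠ i ∧ l ≠ j} => P i * (P l / P i))
          = P ∘ Subtype.val := by
        funext l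
        simp only [Function.comp_apply]
        field_simp
      rw [h3] at h2
      rw [h2, mul_right_comm, ← pow_add, Nat.add_sub_cancel' hd']
    rw [h1, hH, mul_zero]
  have hdvd : FF φ ∣ G := (hP.2 _ G hGh).1 hGz
  have hGj : degreeOf j G = 0 := by
    refine Nat.le_zero.1 ?_
    rw [hG]
    refine (degreeOf_sum_le j _ _).trans ?_
    refine Finset.sup_le fun d _ => ?_
    refine (degreeOf_mul_le _ _ _).trans ?_
    have h1 : degreeOf j (X i ^ (H.totalDegree - d) : MvPolynomial (Fin (n + 1)) k) = 0 :=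
      degreeOf_X_pow_of_ne _ hij.symm
    have h2 : degreeOf j (rename (Subtype.val : {l : Fin (n + 1) // l ≠ i ∧ l ≠ j} → Fin (n + 1))
        (homogeneousComponent d H)) = 0 := by
      classical
      by_contra hne
      have h3 : j ∈ (rename (Subtype.val : {l : Fin (n + 1) // l ≠ i ∧ l ≠ j} → Fin (n + 1))
        (homogeneousComponent d H)).vars := by
        rw [vars_def, Multiset.mem_toFinset, ← Multiset.count_pos, ← degreeOf_def]
        exact Nat.pos_of_ne_zero hne
      have h4 := vars_rename _ _ h3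
      rw [Finset.mem_image] at h4
      obtain ⟨l, _, hl⟩ := h4
      exact l.2.2 hl
    rw [h1, h2]
  have hG0 : G = 0 := by
    by_contra hne
    obtain ⟨Q, hQ⟩ := hdvd
    have hF0 : FF φ ≠ 0 := by
      rintro h0
      rw [h0, zero_mul] at hQ
      exact hne hQ
    have hQ0 : Q ≠ 0 := by
      rintro rfl
      rw [mul_zero] at hQ
      exact hne hQ
    have h1 : degreeOf j G = degreeOf j (FF φ) + degreeOf j Q := by
      rw [hQ, degreeOf_mul_eq hF0 hQ0]
    have h2 := Q10_degreeOf_ne hφ hs j
    omega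
  -- set `X i = 1`
  let ψ : MvPolynomial (Fin (n + 1)) k →ₐ[k] MvPolynomial {l : Fin (n + 1) // l ≠ i ∧ l ≠ j} k :=
    aeval (fun l => if h : l ≠ i ∧ l ≠ j then X ⟨l, h⟩ else 1)
  have h1 : ψ G = H := by
    rw [hG, map_sum]
    conv_rhs => rw [← sum_homogeneousComponent H]
    refine Finset.sum_congr rfl fun d _ => ?_
    rw [map_mul, map_pow]
    have h2 : ψ (X i) = 1 := by
      simp [ψ]
    have h3 : ψ (rename Subtype.val (homogeneousComponent d H)) = homogeneousComponent d H := by
      have h4 : (ψ.comp (rename (Subtype.val :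
          {l : Fin (n + 1) // l ≠ i ∧ l ≠ j} → Fin (n + 1)))) = AlgHom.id k _ := by
        ext l
        simp only [AlgHom.comp_apply, rename_X, AlgHom.id_apply]
        simp only [ψ, aeval_X]
        rw [dif_pos l.2]
      exact AlgHom.congr_fun h4 _
    rw [h2, one_pow, mul_one, h3]
  rw [← h1, hG0, map_zero]

end Pool.Agent.LibHP
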