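import Pool.Agent.LibHPF.Q6

set_option autoImplicit false
open MvPolynomial

namespace Pool.Agent.LibHP

variable {k : Type} [Field k] [CharZero k] {n : ℕ} {φ : Tens k n}

/-!
# Row Q15: lifting tangent vectors (Lemma D, transversality)

PLAN. The three functionals `Phi φ P P P`, `Phi φ P P x`, `Phi φ P x x` are linearly independent (same proof as
in row Q13: evaluate a relation at `x`; `lemmaA'`; `phi_ne`), so there is `a : Fin (n + 1) → Ω` with
`Phi φ P P P a = 0`, `Phi φ P P x a = -(1/3) * Phi φ P P P ξ`, `Phi φ P x x a = - Phi φ P P x ξ`.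
Replacing `a` by `a - a 0 • P` (the three functionals vanish at `P`: `Phi φ P P P P = 0`, `h1`, `h2`) we may
assume `a 0 = 0`. Let `δ` be a derivation of `Ω` over `k` with `δ (P i) = a i` (`exists_derivation_pt`) and
`β i = ξ i - δ (x i)`. Apply `δ` to `h1`: `3 * Phi φ P P a x + Phi φ P P P (δ x) = 0`, so
`Phi φ P P P β = Phi φ P P P ξ + 3 * Phi φ P P x a = 0`. Apply `δ` to `h2`:
`2 * Phi φ P a x x + 2 * Phi φ P P x (δ x) = 0`, so `Phi φ P P x β = Phi φ P P x ξ + Phi φ P x x a = 0`.
If `aeval x G = 0` then `0 = δ (aeval x G) = ∑ i, δ (x i) * aeval x (pderiv i G)` (chain rule for a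
`k`-derivation; prove by `MvPolynomial.induction_on`, or Mathlib `Derivation` chain rule / `mkDerivation`).
-/

/-- chain rule for a derivation -/
private theorem Q15_chain {k Ω σ : Type} [Field k] [Field Ω] [Algebra k Ω] [Fintype σ]
    (δ : Derivation k Ω Ω) (x : σ → Ω) (G : MvPolynomial σ k) :
    δ (aeval x G) = ∑ i, δ (x i) * aeval x (pderiv i G) := by
  classical
  induction G using MvPolynomial.induction_on with
  | C a => simp
  | add p q hp hq =>
    simp only [map_add, mul_add, Finset.sum_add_distrib, hp, hq]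
  | mul_X p j hp =>
    have h1 : ∀ i, δ (x i) * aeval x (pderiv i (p * X j)) =
        (if i = j then aeval x p * δ (x j) else 0) +
          x j * (δ (x i) * aeval x (pderiv i p)) := by
      intro i
      rw [Derivation.leibniz, pderiv_X]
      by_cases h : i = j
      · subst h
        simp only [smul_eq_mul, Pi.single_eq_same, mul_one, map_add, map_mul, aeval_X, if_true]
        ring
      · simp only [smul_eq_mul, Pi.single_eq_of_ne (Ne.symm h), mul_zero, zero_add, map_mul,
          aeval_X, if_neg h]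
        ring
    rw [Finset.sum_congr rfl fun i _ => h1 i, Finset.sum_add_distrib, ← Finset.mul_sum, ← hp,
      Finset.sum_ite_eq' Finset.univ j, if_pos (Finset.mem_univ j), map_mul, aeval_X,
      Derivation.leibniz, smul_eq_mul, smul_eq_mul]

/-- independent functionals take arbitrary values -/
private theorem Q15_values {Ω V : Type} [Field Ω] [AddCommGroup V] [Module Ω V]
    (L : Fin 3 → V →ₗ[Ω] Ω)
    (hL : ∀ ρ : Fin 3 → Ω, (∀ a, ∑ i, ρ i * L i a = 0) → ρ = 0) (b : Fin 3 → Ω) :
    ∃ a : V, ∀ i, L i a = b i := by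
  have h : LinearMap.range (LinearMap.pi L) = ⊤ := by
    by_contra hcon
    obtain ⟨f, hf, hle⟩ := Submodule.exists_le_ker_of_lt_top _ (lt_top_iff_ne_top.2 hcon)
    apply hf
    have h1 : (fun i => f (fun j => if i = j then 1 else 0)) = (0 : Fin 3 → Ω) := by
      refine hL _ fun a => ?_
      have h2 : f (LinearMap.pi L a) = 0 := hle (LinearMap.mem_range_self _ a)
      rw [f.pi_apply_eq_sum_univ] at h2
      simp only [LinearMap.pi_apply, smul_eq_mul] at h2
      exact Eq.trans (Finset.sum_congr rfl fun i _ => mul_comm _ _) h2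
    refine LinearMap.ext fun y => ?_
    rw [f.pi_apply_eq_sum_univ]
    refine Finset.sum_eq_zero fun i _ => ?_
    have h3 := congrFun h1 i
    simp only [Pi.zero_apply] at h3
    rw [h3, smul_zero]
  have hb : b ∈ LinearMap.range (LinearMap.pi L) := by rw [h]; trivial
  obtain ⟨a, ha⟩ := hb
  exact ⟨a, fun i => congrFun ha i⟩

theorem exists_tangent (hφ : IsSymm4 φ) (hs : Smooth4 φ) {Ω : Type} [Field Ω] [Algebra k Ω]
    (P x ξ : Fin (n + 1) → Ω) (hP : IsGenPt φ P) (h1 : Phi φ P P P x = 0)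
    (h2 : Phi φ P P x x = 0) (h3 : Phi φ P x x x ≠ 0) :
    ∃ β : Fin (n + 1) → Ω, Phi φ P P P β = 0 ∧ Phi φ P P x β = 0 ∧
      ∀ G : MvPolynomial (Fin (n + 1)) k, aeval x G = 0 →
        ∑ i, β i * aeval x (pderiv i G) = ∑ i, ξ i * aeval x (pderiv i G) := by
  have hc : CharZero Ω := charZero_of_injective_algebraMap (algebraMap k Ω).injective
  have hPP : Phi φ P P P P = 0 := hP.self
  have e1 : Phi φ P P x P = 0 := by rw [Phi_comm34 hφ, h1]
  have e2 : Phi φ P x x P = 0 := by rw [Phi_comm34 hφ, Phi_comm23 hφ, h2]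
  -- the three functionals are independent
  obtain ⟨a', ha'⟩ := Q15_values ![PhiL φ P P P, PhiL φ P P x, PhiL φ P x x] (by
    intro ρ hρ
    have hρ' : ∀ a, ρ 0 * Phi φ P P P a + ρ 1 * Phi φ P P x a + ρ 2 * Phi φ P x x a = 0 := by
      intro a
      have h := hρ a
      rw [Fin.sum_univ_three] at h
      exact h
    have r2 : ρ 2 = 0 := by
      have h := hρ' x
      rw [h1, h2, mul_zero, mul_zero, zero_add, zero_add] at h
      exact (mul_eq_zero.1 h).resolve_right h3
    have r1 : ρ 1 = 0 := by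
      by_contra hne
      obtain ⟨c, hcx⟩ := lemmaA' hφ hs P x hP (by
        intro a ha
        have h := hρ' a
        rw [ha, r2, mul_zero, zero_mul, zero_add, add_zero] at h
        exact (mul_eq_zero.1 h).resolve_left hne)
      apply h3
      rw [hcx, Phi_smul2, Phi_smul3, Phi_smul4, hPP, mul_zero, mul_zero, mul_zero]
    have r0 : ρ 0 = 0 := by
      obtain ⟨i, hi⟩ := phi_ne hφ hs P hP
      have h := hρ' (Pi.single i 1)
      rw [r1, r2, zero_mul, zero_mul, add_zero, add_zero] at h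
      exact (mul_eq_zero.1 h).resolve_right hi
    funext i
    fin_cases i
    · exact r0
    · exact r1
    · exact r2)
    ![0, -(1 / 3) * Phi φ P P P ξ, -Phi φ P P x ξ]
  have a0 : Phi φ P P P a' = 0 := ha' 0
  have a1 : Phi φ P P x a' = -(1 / 3) * Phi φ P P P ξ := ha' 1
  have a2 : Phi φ P x x a' = -Phi φ P P x ξ := ha' 2
  obtain ⟨a, haP, ha1, ha2, ha3⟩ : ∃ a : Fin (n + 1) → Ω, a 0 = 0 ∧ Phi φ P P P a = 0 ∧
      Phi φ P P x a = -(1 / 3) * Phi φ P P P ξ ∧ Phi φ P x x a = -Phi φ P P x ξ := by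
    refine ⟨a' - a' 0 • P, ?_, ?_, ?_, ?_⟩
    · rw [Pi.sub_apply, Pi.smul_apply, hP.1, smul_eq_mul, mul_one, sub_self]
    · rw [Phi_sub4, Phi_smul4, hPP, a0, mul_zero, sub_zero]
    · rw [Phi_sub4, Phi_smul4, e1, a1, mul_zero, sub_zero]
    · rw [Phi_sub4, Phi_smul4, e2, a2, mul_zero, sub_zero]
  obtain ⟨δ, hδ⟩ := exists_derivation_pt hφ P a hP ha1 haP
  have hδP : (fun i => δ (P i)) = a := funext hδ
  have d1 := congrArg δ h1
  rw [Phi_deriv, hδP, map_zero, Phi_comm12 hφ a P P x, Phi_comm23 hφ P a P x,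
    Phi_comm34 hφ P P a x, ha2] at d1
  have d2 := congrArg δ h2
  rw [Phi_deriv, hδP, map_zero, Phi_comm12 hφ a P x x, Phi_comm23 hφ P a x x,
    Phi_comm34 hφ P x a x, ha3, Phi_comm34 hφ P P (fun i => δ (x i)) x] at d2
  refine ⟨ξ - fun i => δ (x i), ?_, ?_, ?_⟩
  · rw [Phi_sub4]
    linear_combination (-1 : Ω) * d1
  · rw [Phi_sub4]
    linear_combination (-(1 / 2) : Ω) * d2
  · intro G hG
    have h4 := Q15_chain δ x G
    rw [hG, map_zero] at h4
    simp only [Pi.sub_apply, sub_mul, Finset.sum_sub_distrib]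
    rw [← h4, sub_zero]

end Pool.Agent.LibHP
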