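import Pool.Agent.LibHPF.Q6

set_option autoImplicit false
open MvPolynomial

namespace Pool.Agent.LibHP

/-!
# Row Q9: transcendence degree of a prime divisor

PLAN. Noether normalisation (Mathlib.RingTheory.NoetherNormalization: `exists_integral_inj_algHom_of_fg` or the
finite version): an injective integral `g : MvPolynomial (Fin s) k →ₐ[k] A`; `N + 1 ≤ s` by transcendence degree
(`A` is integral over the image, so `trdeg A = s`, and `t` is independent). `q = p.comap g` is prime; by going
down for `k[y] ⊆ A` (Mathlib.RingTheory.IntegralClosure.GoingDown: `k[y]` integrally closed, `A` a domain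
integral over it) `q` has height `1` (`q ≠ 0` by incomparability; if `0 < q' < q` then going down gives
`0 < p' < p`), so `q = (f)` with `f` prime (UFD: a height one prime is principal: take a nonzero element, one of
its prime factors is in `q`, and it generates `q`). `f` is not a constant: some variable `y_j` occurs in `f`;
the other `s - 1` variables are algebraically independent modulo `f` (a nonzero multiple of `f` has positive
degree in `y_j`), so in `k[y] ⧸ q ⊆ A ⧸ p`. As `N ≤ s - 1`, restrict to `N` of them.
-/

/-- the variables other than `j` stay independent modulo a prime `f` in which `x_j` occurs -/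
theorem Q9_indep {k : Type} [Field k] {s : ℕ} (f : MvPolynomial (Fin s) k) (j : Fin s)
    (hj : degreeOf j f ≠ 0) :
    AlgebraicIndependent k (fun i : {i : Fin s // i ≠ j} =>
      (Ideal.Quotient.mk (Ideal.span {f}) (X i.1) : MvPolynomial (Fin s) k ⧸ Ideal.span {f})) := by
  rw [algebraicIndependent_iff]
  intro P hP
  have h1 : aeval (fun i : {i : Fin s // i ≠ j} =>
      (Ideal.Quotient.mk (Ideal.span {f}) (X i.1) : MvPolynomial (Fin s) k ⧸ Ideal.span {f})) P =
      Ideal.Quotient.mkₐ k (Ideal.span {f}) (rename Subtype.val P) := by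
    rw [← AlgHom.comp_apply]
    refine congrFun (congrArg DFunLike.coe (MvPolynomial.algHom_ext (fun i => ?_))) P
    rw [aeval_X, AlgHom.comp_apply, rename_X]
    rfl
  rw [h1] at hP
  have h2 : rename Subtype.val P ∈ Ideal.span {f} := by
    rwa [Ideal.Quotient.mkₐ_eq_mk, Ideal.Quotient.eq_zero_iff_mem] at hP
  rw [Ideal.mem_span_singleton] at h2
  obtain ⟨c, hc⟩ := h2
  by_contra hne
  have h3 : rename Subtype.val P ≠ (0 : MvPolynomial (Fin s) k) := by
    intro h
    exact hne (rename_injective _ Subtype.val_injective (by rw [h, map_zero]))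
  have hc0 : c ≠ 0 := by
    rintro rfl
    rw [mul_zero] at hc
    exact h3 hc
  have hf0 : f ≠ 0 := ne_zero_of_degreeOf_ne_zero hj
  have h4 : degreeOf j (rename Subtype.val P : MvPolynomial (Fin s) k) = 0 := by
    classical
    by_contra h5
    have h6 : j ∈ (rename Subtype.val P : MvPolynomial (Fin s) k).vars := by
      exact mem_vars_iff_degreeOf_ne_zero.2 h5
    have h7 := vars_rename Subtype.val P h6
    obtain ⟨a, -, ha⟩ := Finset.mem_image.1 h7
    exact a.2 ha
  rw [hc, degreeOf_mul_eq hf0 hc0] at h4
  omega

theorem exists_algebraicIndependent_of_height_one (k A : Type) [Field k] [CommRing A] [IsDomain A]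
    [Algebra k A] [Algebra.FiniteType k A] (N : ℕ) (t : Fin (N + 1) → A)
    (ht : AlgebraicIndependent k t) (p : Ideal A) [p.IsPrime] (hp : p.height = 1) :
    ∃ u : Fin N → A ⧸ p, AlgebraicIndependent k u := by
  obtain ⟨s, g, hg, hint⟩ := exists_integral_inj_algHom_of_fg k A
  have : IsNoetherianRing A := Algebra.FiniteType.isNoetherianRing k A
  let _ : Algebra (MvPolynomial (Fin s) k) A := g.toRingHom.toAlgebra
  have hmap : ∀ x, algebraMap (MvPolynomial (Fin s) k) A x = g x := fun x => rfl
  have : IsScalarTower k (MvPolynomial (Fin s) k) A := by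
    refine IsScalarTower.of_algebraMap_eq fun x => ?_
    rw [hmap, g.commutes]
  have : Algebra.IsIntegral (MvPolynomial (Fin s) k) A := ⟨hint⟩
  have : FaithfulSMul (MvPolynomial (Fin s) k) A := by
    rw [faithfulSMul_iff_algebraMap_injective]
    exact hg
  -- the number of variables
  have hNs : N + 1 ≤ s := by
    have h1 := ht.cardinalMk_le_trdeg
    have h2 : Algebra.trdeg k (MvPolynomial (Fin s) k) + Algebra.trdeg (MvPolynomial (Fin s) k) A =
        Algebra.trdeg k A := trdeg_add_eq k (MvPolynomial (Fin s) k)
    have h3 : Algebra.trdeg (MvPolynomial (Fin s) k) A = 0 := trdeg_eq_zero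
    rw [h3, add_zero, MvPolynomial.trdeg_of_isDomain] at h2
    rw [← h2] at h1
    simpa using h1
  -- the prime below
  have hq0 : p.under (MvPolynomial (Fin s) k) ≠ ⊥ := by
    intro h
    exact Ideal.ne_bot_of_height_eq_one hp (Ideal.eq_bot_of_comap_eq_bot h)
  obtain ⟨f, hfq, hf⟩ := Ideal.IsPrime.exists_mem_prime_of_ne_bot
    (inferInstance : (p.under (MvPolynomial (Fin s) k)).IsPrime) hq0
  have hfp : (Ideal.span {f}).IsPrime := (Ideal.span_singleton_prime hf.ne_zero).2 hf
  have hle : Ideal.span {f} ≤ p.under (MvPolynomial (Fin s) k) := by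
    rw [Ideal.span_singleton_le_iff_mem]
    exact hfq
  have hq : Ideal.span {f} = p.under (MvPolynomial (Fin s) k) := by
    by_contra hne
    have hlt : Ideal.span {f} < p.under (MvPolynomial (Fin s) k) := lt_of_le_of_ne hle hne
    obtain ⟨P, hP, hPp, hPo⟩ := Ideal.exists_ideal_lt_liesOver_of_lt (S := A)
      (p := Ideal.span {f}) (q := p.under (MvPolynomial (Fin s) k)) p hlt
    have h1 : P.height < p.height := Ideal.height_strict_mono_of_isPrime_of_isPrime hP
    rw [hp, Order.lt_one_iff, Ideal.height_eq_zero_iff_eq_bot] at h1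
    have h2 := hPo.over
    rw [h1] at h2
    have h3 : f ∈ (⊥ : Ideal A).under (MvPolynomial (Fin s) k) := by
      rw [← h2]
      exact Ideal.mem_span_singleton_self f
    have h4 : g f = 0 := h3
    exact hf.ne_zero (hg (by rw [h4, map_zero]))
  -- a variable which occurs
  obtain ⟨j, hj⟩ : ∃ j, degreeOf j f ≠ 0 := by
    classical
    by_contra hcon
    push Not at hcon
    have h1 : f.vars = ∅ := by
      rw [Finset.eq_empty_iff_forall_notMem]
      intro j hj
      exact mem_vars_iff_degreeOf_ne_zero.1 hj (hcon j)
    rw [vars_eq_empty_iff_eq_C] at h1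
    apply hf.not_isUnit
    rw [h1]
    refine IsUnit.map C (isUnit_iff_ne_zero.2 fun h0 => ?_)
    rw [h0, map_zero] at h1
    exact hf.ne_zero h1
  have hind := Q9_indep f j hj
  -- the embedding of the quotients
  have hle' : Ideal.span {f} ≤ p.comap g := hle
  have hinj : Function.Injective (Ideal.quotientMapₐ p g hle') := by
    refine Ideal.quotientMap_injective' (f := (g : MvPolynomial (Fin s) k →+* A)) (H := hle') ?_
    exact hq.ge
  have h5 := hind.map' hinj
  have hcard : Fintype.card (Fin N) ≤ Fintype.card {i : Fin s // i ≠ j} := by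
    rw [Fintype.card_subtype_compl, Fintype.card_fin, Fintype.card_fin]
    simp only [Fintype.card_subtype_eq]
    omega
  obtain ⟨e⟩ := Function.Embedding.nonempty_of_card_le hcard
  exact ⟨_, h5.comp e e.injective⟩

end Pool.Agent.LibHP
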