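import Pool.Agent.LibHP.F1
import Pool.Agent.LibHP.F2
import Pool.Agent.LibHP2.Defs

set_option autoImplicit false

namespace Pool.Agent.LibHP

/-!
# Row Q22: arcs and the valuation at the origin of the line
-/

section Q22
open Polynomial

theorem Q22_mem {K : Type} [Field K] {p q : K[X]} (hq : q.coeff 0 ≠ 0) :
    algebraMap K[X] (RatFunc K) p / algebraMap K[X] (RatFunc K) q ∈ F1a_V K := by
  have hq0 : algebraMap K[X] (RatFunc K) q ≠ 0 := by
    rw [Ne, map_eq_zero_iff _ (IsFractionRing.injective K[X] (RatFunc K))]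
    rintro rfl
    exact hq (by simp)
  refine ⟨_, (Polynomial.C (q.coeff 0)⁻¹ * p).coeff 1 -
    (Polynomial.C (q.coeff 0)⁻¹ * p).coeff 0 * (Polynomial.C (q.coeff 0)⁻¹ * q).coeff 1,
    Polynomial.C (q.coeff 0)⁻¹ * p, Polynomial.C (q.coeff 0)⁻¹ * q, ?_, ?_, rfl, by ring⟩
  · rw [mul_coeff_zero, coeff_C_zero, inv_mul_cancel₀ hq]
  · rw [map_mul, map_mul]
    field_simp

theorem Q22_factor {K : Type} [Field K] {p : K[X]} (hp : p ≠ 0) :
    ∃ (n : ℕ) (p' : K[X]), p = Polynomial.X ^ n * p' ∧ p'.coeff 0 ≠ 0 := by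
  obtain ⟨p', h1, h2⟩ := Polynomial.exists_eq_pow_rootMultiplicity_mul_and_not_dvd p hp 0
  rw [Polynomial.C_0, sub_zero] at h1 h2
  refine ⟨_, p', h1, ?_⟩
  intro h
  exact h2 (X_dvd_iff.mpr h)

theorem Q22_hasJet_mem {K : Type} [Field K] {g : RatFunc K} {a b : K} (h : HasJet g a b)
    (hg : g ≠ 0) : ∃ (n : ℕ) (u : RatFunc K), u ∈ F1a_V K ∧ u⁻¹ ∈ F1a_V K ∧
      g = RatFunc.X ^ n * u := by
  obtain ⟨p, q, hq, hf, hp0, hp1⟩ := h
  have hqn : q.coeff 0 ≠ 0 := by rw [hq]; exact one_ne_zero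
  have hq0 : algebraMap K[X] (RatFunc K) q ≠ 0 := by
    rw [Ne, map_eq_zero_iff _ (IsFractionRing.injective K[X] (RatFunc K))]
    rintro rfl
    exact hqn (by simp)
  have hp : p ≠ 0 := by
    rintro rfl
    rw [map_zero] at hf
    rcases mul_eq_zero.mp hf with h | h
    · exact hg h
    · exact hq0 h
  obtain ⟨n, p', h1, h2⟩ := Q22_factor hp
  refine ⟨n, algebraMap K[X] (RatFunc K) p' / algebraMap K[X] (RatFunc K) q, Q22_mem hqn, ?_, ?_⟩
  · rw [inv_div]
    exact Q22_mem h2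
  · rw [mul_div_assoc', eq_div_iff hq0, hf, h1, map_mul, map_pow, RatFunc.algebraMap_X]

theorem Q22_hasJet_unif {K : Type} [Field K] {f : RatFunc K} {b : K} (h : HasJet f 0 b)
    (hb : b ≠ 0) : ∃ (u : RatFunc K), u ∈ F1a_V K ∧ u⁻¹ ∈ F1a_V K ∧ f = RatFunc.X * u := by
  obtain ⟨p, q, hq, hf, hp0, hp1⟩ := h
  have hqn : q.coeff 0 ≠ 0 := by rw [hq]; exact one_ne_zero
  have hq0 : algebraMap K[X] (RatFunc K) q ≠ 0 := by
    rw [Ne, map_eq_zero_iff _ (IsFractionRing.injective K[X] (RatFunc K))]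
    rintro rfl
    exact hqn (by simp)
  obtain ⟨p', rfl⟩ := X_dvd_iff.mpr hp0
  have h2 : p'.coeff 0 ≠ 0 := by
    have h3 : (Polynomial.X * p').coeff 1 = p'.coeff 0 := Polynomial.coeff_X_mul p' 0
    rw [h3, zero_mul, add_zero] at hp1
    rwa [hp1]
  refine ⟨algebraMap K[X] (RatFunc K) p' / algebraMap K[X] (RatFunc K) q, Q22_mem hqn, ?_, ?_⟩
  · rw [inv_div]
    exact Q22_mem h2
  · rw [mul_div_assoc', eq_div_iff hq0, hf, map_mul, RatFunc.algebraMap_X]

end Q22

theorem exists_valuation_at_zero (Ω : Type) [Field Ω] :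
    ∃ V : ValuationSubring (RatFunc Ω), (∀ f, f ∈ V ↔ ∃ a b, HasJet f a b) ∧
      ∀ f b, HasJet f 0 b → b ≠ 0 → IsUnif V f := by
  refine ⟨F1a_V Ω, fun f => Iff.rfl, ?_⟩
  intro f b hf hb
  have hf0 : f ≠ 0 := by
    rintro rfl
    have h1 : HasJet (0 : RatFunc Ω) 0 0 := by simpa using HasJet.C (0 : Ω)
    exact hb (hf.unique h1).2
  refine ⟨⟨0, b, hf⟩, hf0, ?_, ?_⟩
  · rintro ⟨a', b', h⟩
    have h1 := hf.mul h
    rw [mul_inv_cancel₀ hf0] at h1
    have h2 : HasJet (1 : RatFunc Ω) 1 0 := by simpa using HasJet.C (1 : Ω)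
    have h3 := (h1.unique h2).1
    rw [zero_mul] at h3
    exact zero_ne_one h3
  · rintro g ⟨a', b', hg⟩ hg0
    obtain ⟨n, u, hu, hu', h1⟩ := Q22_hasJet_mem hg hg0
    obtain ⟨v, hv, hv', h2⟩ := Q22_hasJet_unif hf hb
    have hv0 : v ≠ 0 := by
      rintro rfl
      exact hf0 (by rw [h2, mul_zero])
    refine ⟨n, u * v⁻¹ ^ n, ?_, ?_, ?_⟩
    · exact mul_mem hu (pow_mem hv' n)
    · rw [mul_inv, inv_pow, inv_inv]
      exact mul_mem hu' (pow_mem hv n)
    · rw [h1, h2, mul_pow, inv_pow]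
      field_simp

theorem IsUnif.comap {E F : Type} [Field E] [Field F] (J : E →+* F) (V : ValuationSubring F)
    (π : E) (h : IsUnif V (J π)) : IsUnif (V.comap J) π := by
  obtain ⟨h1, h2, h3, h4⟩ := h
  have hπ : π ≠ 0 := by
    rintro rfl
    exact h2 (map_zero J)
  refine ⟨ValuationSubring.mem_comap.mpr h1, hπ, ?_, ?_⟩
  · intro h
    apply h3
    rw [← map_inv₀]
    exact ValuationSubring.mem_comap.mp h
  · intro a ha ha0
    obtain ⟨n, u, hu, hu', h⟩ := h4 (J a) (ValuationSubring.mem_comap.mp ha)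
      ((map_ne_zero J).mpr ha0)
    have h5 : J (a / π ^ n) = u := by
      rw [map_div₀, map_pow, h, mul_div_assoc, div_self (pow_ne_zero _ h2), mul_one]
    refine ⟨n, a / π ^ n, ?_, ?_, ?_⟩
    · rw [ValuationSubring.mem_comap, h5]
      exact hu
    · rw [ValuationSubring.mem_comap, map_inv₀, h5]
      exact hu'
    · rw [div_mul_cancel₀ _ (pow_ne_zero _ hπ)]

section Q22arc

/-- The arc on polynomials. -/
noncomputable def Q22_J1 {E Ω : Type} [Field E] [Field Ω] (ψ : E →+* Ω) (r : ℕ)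
    (a b : Fin r → Ω) : MvPolynomial (Fin r) E →+* Polynomial (MvPolynomial (Fin r) Ω) :=
  MvPolynomial.eval₂Hom ((Polynomial.C.comp MvPolynomial.C).comp ψ) (fun i =>
    Polynomial.C (MvPolynomial.C (a i)) + Polynomial.X * Polynomial.C (MvPolynomial.C (b i)) +
      Polynomial.X * Polynomial.X * Polynomial.C (MvPolynomial.X i))

theorem Q22_J1_injective {E Ω : Type} [Field E] [Field Ω] (ψ : E →+* Ω) (r : ℕ)
    (a b : Fin r → Ω) : Function.Injective (Q22_J1 ψ r a b) := by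
  have h1 : ((MvPolynomial.aeval (fun i => MvPolynomial.X i - MvPolynomial.C (a i + b i)) :
      MvPolynomial (Fin r) Ω →ₐ[Ω] MvPolynomial (Fin r) Ω).toRingHom.comp
      ((Polynomial.evalRingHom (1 : MvPolynomial (Fin r) Ω)).comp (Q22_J1 ψ r a b))) =
      MvPolynomial.map ψ := by
    apply MvPolynomial.ringHom_ext
    · intro c
      simp [Q22_J1]
    · intro i
      simp [Q22_J1]
  have h2 : Function.Injective ((MvPolynomial.aeval
      (fun i => MvPolynomial.X i - MvPolynomial.C (a i + b i)) :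
      MvPolynomial (Fin r) Ω →ₐ[Ω] MvPolynomial (Fin r) Ω).toRingHom.comp
      ((Polynomial.evalRingHom (1 : MvPolynomial (Fin r) Ω)).comp (Q22_J1 ψ r a b))) := by
    rw [h1]
    exact MvPolynomial.map_injective ψ ψ.injective
  rw [RingHom.coe_comp, RingHom.coe_comp] at h2
  exact h2.of_comp.of_comp

/-- The embedding of polynomials in the rational functions. -/
noncomputable def Q22_emb (Ω : Type) [Field Ω] (r : ℕ) :
    Polynomial (MvPolynomial (Fin r) Ω) →+* RatFunc (RF Ω r) :=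
  (algebraMap (Polynomial (RF Ω r)) (RatFunc (RF Ω r))).comp
    (Polynomial.mapRingHom (algebraMap (MvPolynomial (Fin r) Ω) (RF Ω r)))

theorem Q22_emb_injective (Ω : Type) [Field Ω] (r : ℕ) : Function.Injective (Q22_emb Ω r) := by
  rw [Q22_emb, RingHom.coe_comp]
  exact (IsFractionRing.injective _ _).comp
    (Polynomial.map_injective _ (IsFractionRing.injective _ _))

theorem Q22_emb_C (Ω : Type) [Field Ω] (r : ℕ) (c : MvPolynomial (Fin r) Ω) :
    Q22_emb Ω r (Polynomial.C c) = RatFunc.C (algebraMap _ (RF Ω r) c) := by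
  rw [Q22_emb, RingHom.comp_apply, Polynomial.coe_mapRingHom, Polynomial.map_C,
    RatFunc.algebraMap_C]

theorem Q22_emb_X (Ω : Type) [Field Ω] (r : ℕ) :
    Q22_emb Ω r Polynomial.X = RatFunc.X := by
  rw [Q22_emb, RingHom.comp_apply, Polynomial.coe_mapRingHom, Polynomial.map_X,
    RatFunc.algebraMap_X]

end Q22arc

theorem exists_arc (E Ω : Type) [Field E] [Field Ω] (ψ : E →+* Ω) (r : ℕ) (a b : Fin r → Ω) :
    ∃ J : RF E r →+* RatFunc (RF Ω r),
      (∀ m : E, J (algebraMap E (RF E r) m) = RatFunc.C (algebraMap Ω (RF Ω r) (ψ m))) ∧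
      ∀ i, HasJet (J (algebraMap (MvPolynomial (Fin r) E) (RF E r) (MvPolynomial.X i)))
        (algebraMap Ω (RF Ω r) (a i)) (algebraMap Ω (RF Ω r) (b i)) := by
  have hinj : Function.Injective ((Q22_emb Ω r).comp (Q22_J1 ψ r a b)) := by
    rw [RingHom.coe_comp]
    exact (Q22_emb_injective Ω r).comp (Q22_J1_injective ψ r a b)
  refine ⟨IsFractionRing.lift (A := MvPolynomial (Fin r) E) (K := RF E r) hinj, ?_, ?_⟩
  · intro m
    rw [IsScalarTower.algebraMap_apply E (MvPolynomial (Fin r) E) (RF E r),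
      IsFractionRing.lift_algebraMap, RingHom.comp_apply, MvPolynomial.algebraMap_eq, Q22_J1,
      MvPolynomial.eval₂Hom_C, RingHom.comp_apply, RingHom.comp_apply, Q22_emb_C,
      IsScalarTower.algebraMap_apply Ω (MvPolynomial (Fin r) Ω) (RF Ω r),
      MvPolynomial.algebraMap_eq]
  · intro i
    rw [IsFractionRing.lift_algebraMap, RingHom.comp_apply, Q22_J1, MvPolynomial.eval₂Hom_X',
      map_add, map_add, map_mul, map_mul, map_mul, Q22_emb_C, Q22_emb_C, Q22_emb_C, Q22_emb_X,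
      ← MvPolynomial.algebraMap_eq, ← IsScalarTower.algebraMap_apply,
      ← IsScalarTower.algebraMap_apply]
    have h := ((HasJet.C (algebraMap Ω (RF Ω r) (a i))).add
      ((HasJet.X (K := RF Ω r)).mul (HasJet.C (algebraMap Ω (RF Ω r) (b i))))).add
      (((HasJet.X (K := RF Ω r)).mul HasJet.X).mul
        (HasJet.C (algebraMap (MvPolynomial (Fin r) Ω) (RF Ω r) (MvPolynomial.X i))))
    simpa using h

end Pool.Agent.LibHP
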