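import Pool.Agent.LibHP.F1
import Pool.Agent.LibHP2.Defs

set_option autoImplicit false
open MvPolynomial

namespace Pool.Agent.LibHP

/-!
# Row Q26a: two small lemmas

PLAN. `HasJet.aeval`: `MvPolynomial.induction_on G` with `HasJet.C`, `HasJet.add`, `HasJet.mul`
(`pderiv_C`, `pderiv_mul`, `pderiv_X`); constants: `algebraMap k (RatFunc Ω) c = RatFunc.C (algebraMap k Ω c)`.
`generator_of_unif`: let `π0 ∈ A` generate the maximal ideal of `O = Localization.AtPrime p` (a uniformizer of
`O`, multiplied by a denominator). In `O`: `g = ε * π0 ^ m` with `ε` a unit of `O`, `m ≥ 1`. `σ` extends to `O`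
(`O ⊆ K`, elements `a / s`, `s ∉ p`) with `σ O ⊆ C` and units of `O` going to units of `C`; `σ π0 ∈ C` is not a unit
(`hp'`), so its value is a positive power of the uniformizer `σ g` up to a unit: `σ π0 = u * (σ g) ^ l`, `l ≥ 1`,
so `σ g = (unit) * (σ g) ^ (l * m)`, hence `l * m = 1`, `m = 1`. So `g` generates the maximal ideal of `O`: for
`a ∈ p`, `a = g * (b / s)` in `O`, i.e. `s * a = g * b`.
-/

theorem HasJet.aeval {k : Type} [Field k] {σ Ω : Type} [Fintype σ] [Field Ω] [Algebra k Ω]
    (z : σ → RatFunc Ω) (x β : σ → Ω) (hz : ∀ i, HasJet (z i) (x i) (β i))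
    (G : MvPolynomial σ k) :
    HasJet (MvPolynomial.aeval z G) (MvPolynomial.aeval x G)
      (∑ l, β l * MvPolynomial.aeval x (pderiv l G)) := by
  classical
  induction G using MvPolynomial.induction_on with
  | C c =>
    have h1 : algebraMap k (RatFunc Ω) c = RatFunc.C (algebraMap k Ω c) := by
      rw [IsScalarTower.algebraMap_apply k Ω (RatFunc Ω), RatFunc.algebraMap_eq_C]
    simp only [pderiv_C, map_zero, mul_zero, Finset.sum_const_zero]
    rw [← algebraMap_eq, AlgHom.commutes, AlgHom.commutes, h1]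
    exact HasJet.C _
  | add p q hp hq =>
    simp only [map_add, mul_add, Finset.sum_add_distrib]
    exact hp.add hq
  | mul_X p i hp =>
    have h1 := hp.mul (hz i)
    rw [map_mul, map_mul, aeval_X, aeval_X]
    have h2 : ∑ l, β l * MvPolynomial.aeval x (pderiv l (p * MvPolynomial.X i)) =
        MvPolynomial.aeval x p * β i + x i * ∑ l, β l * MvPolynomial.aeval x (pderiv l p) := by
      have h3 : ∀ l, β l * MvPolynomial.aeval x (pderiv l (p * MvPolynomial.X i)) =
          (if l = i then MvPolynomial.aeval x p * β l else 0) +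
            x i * (β l * MvPolynomial.aeval x (pderiv l p)) := by
        intro l
        rw [Derivation.leibniz, map_add, smul_eq_mul, smul_eq_mul, map_mul, map_mul, aeval_X,
          pderiv_X]
        by_cases h : l = i
        · subst h
          simp only [Pi.single_eq_same, map_one, if_true]
          ring
        · rw [Pi.single_eq_of_ne (Ne.symm h), map_zero, if_neg h]
          ring
      rw [Finset.sum_congr rfl fun l _ => h3 l, Finset.sum_add_distrib, Finset.mul_sum,
        Finset.sum_ite_eq' Finset.univ i, if_pos (Finset.mem_univ i)]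
    rw [h2]
    exact h1

theorem generator_of_unif (A K E : Type) [CommRing A] [IsDomain A] [Field K] [Algebra A K]
    [FaithfulSMul A K] [Field E] (p : Ideal A) [p.IsPrime]
    (hdvr : IsDiscreteValuationRing (Localization.AtPrime p)) (σ : K →+* E)
    (C : ValuationSubring E) (hA : ∀ a : A, σ (algebraMap A K a) ∈ C)
    (hA' : ∀ a : A, a ∉ p → (σ (algebraMap A K a))⁻¹ ∈ C)
    (hp' : ∀ a : A, a ∈ p → a ≠ 0 → (σ (algebraMap A K a))⁻¹ ∉ C)
    (g : A) (hg : g ∈ p) (hu : IsUnif C (σ (algebraMap A K g))) :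
    ∀ a ∈ p, ∃ s : A, s ∉ p ∧ g ∣ s * a := by
  obtain ⟨hGC, hG0, hGi, hGd⟩ := hu
  set G := σ (algebraMap A K g) with hG
  have hinjK : Function.Injective (algebraMap A K) := FaithfulSMul.algebraMap_injective A K
  have hg0 : g ≠ 0 := by
    rintro rfl
    exact hG0 (by rw [hG, map_zero, map_zero])
  have hdiv : ∀ a ∈ p, ∃ c ∈ C, σ (algebraMap A K a) = G * c := by
    intro a ha
    by_cases ha0 : a = 0
    · exact ⟨0, C.zero_mem, by rw [ha0, map_zero, map_zero, mul_zero]⟩
    · have hσ0 : σ (algebraMap A K a) ≠ 0 := by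
        intro h
        rw [map_eq_zero_iff σ σ.injective, map_eq_zero_iff _ hinjK] at h
        exact ha0 h
      obtain ⟨m, u, hu1, hu2, he⟩ := hGd _ (hA a) hσ0
      cases m with
      | zero =>
        exfalso
        apply hp' a ha ha0
        rw [he, pow_zero, mul_one]
        exact hu2
      | succ m =>
        refine ⟨u * G ^ m, C.mul_mem _ _ hu1 (pow_mem hGC m), ?_⟩
        rw [he]
        ring
  have hno : ∀ s a b : A, s ∉ p → a ∈ p → b ∈ p → g * s ≠ a * b := by
    intro s a b hs ha hb h
    obtain ⟨c1, hc1, h1⟩ := hdiv a ha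
    obtain ⟨c2, hc2, h2⟩ := hdiv b hb
    have h3 := congrArg (fun x => σ (algebraMap A K x)) h
    simp only [map_mul] at h3
    rw [h1, h2, ← hG] at h3
    have h4 : σ (algebraMap A K s) = G * (c1 * c2) := by
      apply mul_left_cancel₀ hG0
      rw [h3]
      ring
    have hs0 : σ (algebraMap A K s) ≠ 0 := by
      intro h
      rw [map_eq_zero_iff σ σ.injective, map_eq_zero_iff _ hinjK] at h
      exact hs (h ▸ p.zero_mem)
    apply hGi
    have h5 : G⁻¹ = c1 * c2 * (σ (algebraMap A K s))⁻¹ := by
      rw [eq_mul_inv_iff_mul_eq₀ hs0, h4, inv_mul_cancel_left₀ hG0]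
    rw [h5]
    exact C.mul_mem _ _ (C.mul_mem _ _ hc1 hc2) (hA' s hs)
  have hinj : Function.Injective (algebraMap A (Localization.AtPrime p)) :=
    IsLocalization.injective _ p.primeCompl_le_nonZeroDivisors
  intro a ha
  rcases ValuationRing.dvd_total (algebraMap A (Localization.AtPrime p) g)
    (algebraMap A (Localization.AtPrime p) a) with h | h
  · obtain ⟨c, hc⟩ := h
    obtain ⟨⟨b, s⟩, hbs⟩ := IsLocalization.surj p.primeCompl c
    refine ⟨s, s.2, b, hinj ?_⟩
    rw [map_mul, map_mul, hc, ← hbs]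
    ring
  · obtain ⟨c, hc⟩ := h
    obtain ⟨⟨b, s⟩, hbs⟩ := IsLocalization.surj p.primeCompl c
    have h1 : g * s = a * b := by
      apply hinj
      rw [map_mul, map_mul, hc, ← hbs]
      ring
    by_cases hb : b ∈ p
    · exact absurd h1 (hno s a b s.2 ha hb)
    · exact ⟨b, hb, s, by rw [mul_comm b a, h1]⟩

end Pool.Agent.LibHP
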