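import Pool.Agent.LibHPF.G2

/-! Row G3. The ring `B = A[1/h]`, `A = chartRing k y i`, `h = ∂_j F (w)`, is etale over a polynomial ring in `n - 1` variables:
it has the submersive presentation with the variables `X_l`, `U` and the relations `F`, `X_i - 1`, `U h - 1` over `k` (jacobian `h ^ 2`),
so it is standard smooth over `k` and Mathlib's `RingHom.IsStandardSmooth.exists_etale_mvPolynomial` applies. -/

set_option autoImplicit false

namespace Pool.Agent.LibHP

/-- `A[1/h]` inside `K`, `h = ∂_j F (w)`. -/
def chartRing2 {k K : Type} [Field k] [Field K] [Algebra k K] {n : ℕ}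
    (F : MvPolynomial (Fin (n + 1)) k) (y : Fin (n + 1) → K) (i j : Fin (n + 1)) : Subalgebra k K :=
  Algebra.adjoin k (Set.range (fun l => y l / y i) ∪
    {(MvPolynomial.aeval (fun l => y l / y i) (MvPolynomial.pderiv j F))⁻¹})

open MvPolynomial in
/-- elimination of the inverse of `h` -/
theorem G3_elim {k : Type} [Field k] {n : ℕ} (h : MvPolynomial (Fin (n + 1)) k)
    (J : Ideal (MvPolynomial (Option (Fin (n + 1))) k))
    (hJ : X none * rename some h - 1 ∈ J) (P : MvPolynomial (Option (Fin (n + 1))) k) :
    ∃ (D : ℕ) (Q : MvPolynomial (Fin (n + 1)) k),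
      P * (rename some h) ^ D - rename some Q ∈ J := by
  induction P using MvPolynomial.induction_on with
  | C a => exact ⟨0, C a, by simp⟩
  | add p q hp hq =>
    obtain ⟨D₁, Q₁, h₁⟩ := hp
    obtain ⟨D₂, Q₂, h₂⟩ := hq
    refine ⟨D₁ + D₂, Q₁ * h ^ D₂ + Q₂ * h ^ D₁, ?_⟩
    have e : (p + q) * (rename some h) ^ (D₁ + D₂) - rename some (Q₁ * h ^ D₂ + Q₂ * h ^ D₁) =
        (p * (rename some h) ^ D₁ - rename some Q₁) * (rename some h) ^ D₂ +
          (q * (rename some h) ^ D₂ - rename some Q₂) * (rename some h) ^ D₁ := by
      rw [map_add, map_mul, map_mul, map_pow, map_pow, pow_add]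
      ring
    rw [e]
    exact J.add_mem (J.mul_mem_right _ h₁) (J.mul_mem_right _ h₂)
  | mul_X p v hp =>
    obtain ⟨D, Q, h₁⟩ := hp
    rcases v with _ | l
    · refine ⟨D + 1, Q, ?_⟩
      have e : p * X none * (rename some h) ^ (D + 1) - rename some Q =
          (p * (rename some h) ^ D - rename some Q) * (X none * rename some h) +
            rename some Q * (X none * rename some h - 1) := by
        rw [pow_succ]
        ring
      rw [e]
      exact J.add_mem (J.mul_mem_right _ h₁) (J.mul_mem_left _ hJ)
    · refine ⟨D, Q * X l, ?_⟩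
      have e : p * X (some l) * (rename some h) ^ D - rename some (Q * X l) =
          (p * (rename some h) ^ D - rename some Q) * X (some l) := by
        rw [map_mul, rename_X]
        ring
      rw [e]
      exact J.mul_mem_right _ h₁

open MvPolynomial in
/-- the relations -/
noncomputable def G3_v {k : Type} [Field k] {n : ℕ} (F : MvPolynomial (Fin (n + 1)) k)
    (i j : Fin (n + 1)) : Fin 3 → MvPolynomial (Option (Fin (n + 1))) k :=
  ![rename some F, X (some i) - 1, X none * rename some (pderiv j F) - 1]

open MvPolynomial in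
/-- the quotient by the relations is standard smooth -/
theorem G3_smooth {k : Type} [Field k] {n : ℕ} (F : MvPolynomial (Fin (n + 1)) k)
    (i j : Fin (n + 1)) (hij : j ≠ i) :
    Algebra.IsStandardSmooth k
      (MvPolynomial (Option (Fin (n + 1))) k ⧸ Ideal.span (Set.range (G3_v F i j))) := by
  classical
  have ha : Function.Injective (![some j, some i, none] : Fin 3 → Option (Fin (n + 1))) := by
    intro a b hab
    fin_cases a <;> fin_cases b <;> simp_all
  let P₀ := Algebra.PreSubmersivePresentation.naive (R := k) (v := G3_v F i j)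
    (![some j, some i, none] : Fin 3 → Option (Fin (n + 1))) ha
  have hdet : P₀.jacobiMatrix.det = (rename some (pderiv j F)) ^ 2 := by
    rw [Matrix.det_fin_three]
    simp only [P₀, Algebra.PreSubmersivePresentation.jacobiMatrix_naive]
    simp only [G3_v, Matrix.cons_val_zero, Matrix.cons_val_one, Matrix.cons_val]
    have h1 : pderiv (some j) (rename some F : MvPolynomial (Option (Fin (n + 1))) k) =
        rename some (pderiv j F) := pderiv_rename (Option.some_injective _) j F
    have h2 : pderiv none (rename some F : MvPolynomial (Option (Fin (n + 1))) k) = 0 := by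
      refine pderiv_eq_zero_of_notMem_vars fun h => ?_
      obtain ⟨a, -, ha⟩ := Finset.mem_image.1 (vars_rename some F h)
      exact Option.some_ne_none a ha
    have h3 : pderiv none (rename some (pderiv j F) : MvPolynomial (Option (Fin (n + 1))) k) =
        0 := by
      refine pderiv_eq_zero_of_notMem_vars fun h => ?_
      obtain ⟨a, -, ha⟩ := Finset.mem_image.1 (vars_rename some (pderiv j F) h)
      exact Option.some_ne_none a ha
    have h4 : pderiv (some j) (X (some i) - 1 : MvPolynomial (Option (Fin (n + 1))) k) = 0 := by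
      rw [map_sub, pderiv_one, sub_zero, pderiv_X_of_ne]
      intro h
      exact hij (Option.some_injective _ h).symm
    have h5 : pderiv (some i) (X (some i) - 1 : MvPolynomial (Option (Fin (n + 1))) k) = 1 := by
      rw [map_sub, pderiv_one, sub_zero, pderiv_X_self]
    have h6 : pderiv none (X (some i) - 1 : MvPolynomial (Option (Fin (n + 1))) k) = 0 := by
      rw [map_sub, pderiv_one, sub_zero, pderiv_X_of_ne]
      exact Option.some_ne_none i
    have h7 : pderiv none (X none * rename some (pderiv j F) - 1 :
        MvPolynomial (Option (Fin (n + 1))) k) = rename some (pderiv j F) := by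
      rw [map_sub, pderiv_one, sub_zero, pderiv_mul, pderiv_X_self, h3]
      ring
    rw [h1, h2, h4, h5, h6, h7]
    ring
  have hunit : IsUnit P₀.jacobian := by
    have hal : ∀ x : MvPolynomial (Option (Fin (n + 1))) k,
        algebraMap P₀.Ring (MvPolynomial (Option (Fin (n + 1))) k ⧸
          Ideal.span (Set.range (G3_v F i j))) x = Ideal.Quotient.mkₐ k _ x := by
      intro x
      rw [P₀.algebraMap_apply]
      refine congrFun (congrArg DFunLike.coe (MvPolynomial.algHom_ext (fun i => ?_))) x
      rw [aeval_X]
      rfl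
    rw [Algebra.PreSubmersivePresentation.jacobian_eq_jacobiMatrix_det, hdet, hal, map_pow]
    refine IsUnit.pow 2 ?_
    refine IsUnit.of_mul_eq_one (Ideal.Quotient.mkₐ k _ (X none)) ?_
    rw [← map_mul, ← sub_eq_zero, ← map_one (Ideal.Quotient.mkₐ k
      (Ideal.span (Set.range (G3_v F i j)))), ← map_sub, Ideal.Quotient.mkₐ_eq_mk,
      Ideal.Quotient.eq_zero_iff_mem, mul_comm]
    exact Ideal.subset_span ⟨2, rfl⟩
  exact (⟨P₀, hunit⟩ : Algebra.SubmersivePresentation k _ _ _).isStandardSmooth

open MvPolynomial in
theorem chart_etale {k K : Type} [Field k] [CharZero k] [Field K] [Algebra k K] {n d : ℕ}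
    (F : MvPolynomial (Fin (n + 1)) k) (hF : F.IsHomogeneous d)
    (y : Fin (n + 1) → K) (hy : IsHypPt F y) (i j : Fin (n + 1)) (hij : j ≠ i) (hi : y i ≠ 0)
    (hh : MvPolynomial.aeval (fun l => y l / y i) (MvPolynomial.pderiv j F) ≠ 0) :
    ∃ (N : ℕ) (ψ : MvPolynomial (Fin N) k →+* chartRing2 F y i j), ψ.Etale := by
  classical
  set w : Fin (n + 1) → K := fun l => y l / y i with hw
  set h₀ : K := aeval w (pderiv j F) with hh₀
  let val : Option (Fin (n + 1)) → K := fun o => o.elim h₀⁻¹ w
  let Θ : MvPolynomial (Option (Fin (n + 1))) k →ₐ[k] K := aeval val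
  have hΘr : ∀ Q : MvPolynomial (Fin (n + 1)) k, Θ (rename some Q) = aeval w Q := by
    intro Q
    change aeval val (rename some Q) = _
    rw [aeval_rename]
    rfl
  have hΘn : Θ (X none) = h₀⁻¹ := aeval_X _ _
  -- the range
  have hrange : Θ.range = chartRing2 F y i j := by
    change (aeval val : MvPolynomial (Option (Fin (n + 1))) k →ₐ[k] K).range = _
    rw [← Algebra.adjoin_range_eq_range_aeval]
    unfold chartRing2
    congr 1
    ext x
    constructor
    · rintro ⟨o, rfl⟩
      rcases o with _ | l
      · exact Or.inr rfl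
      · exact Or.inl ⟨l, rfl⟩
    · rintro (⟨l, rfl⟩ | hx)
      · exact ⟨some l, rfl⟩
      · exact ⟨none, (Set.mem_singleton_iff.1 hx).symm⟩
  -- the kernel
  set J : Ideal (MvPolynomial (Option (Fin (n + 1))) k) := Ideal.span (Set.range (G3_v F i j))
    with hJ
  have hJ0 : rename some F ∈ J := Ideal.subset_span ⟨0, rfl⟩
  have hJ1 : X (some i) - 1 ∈ J := Ideal.subset_span ⟨1, rfl⟩
  have hJ2 : X none * rename some (pderiv j F) - 1 ∈ J := Ideal.subset_span ⟨2, rfl⟩
  have hrel : ∀ G : MvPolynomial (Fin (n + 1)) k, aeval w G = 0 ↔ G ∈ Ideal.span {F, X i - 1} :=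
    fun G => chart_relation F hF y hy i hi G
  have hker : J = RingHom.ker Θ := by
    apply le_antisymm
    · rw [hJ, Ideal.span_le]
      rintro _ ⟨a, rfl⟩
      change Θ (G3_v F i j a) = 0
      fin_cases a
      · change Θ (rename some F) = 0
        rw [hΘr, hrel]
        exact Ideal.subset_span (Or.inl rfl)
      · change Θ (X (some i) - 1) = 0
        have h1 : (X (some i) : MvPolynomial (Option (Fin (n + 1))) k) = rename some (X i) := by
          rw [rename_X]
        rw [h1, map_sub, hΘr, map_one, aeval_X, hw]
        simp only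
        rw [div_self hi, sub_self]
      · change Θ (X none * rename some (pderiv j F) - 1) = 0
        rw [map_sub, map_mul, hΘr, hΘn, map_one, inv_mul_cancel₀ hh, sub_self]
    · intro P hP
      have hP0 : Θ P = 0 := hP
      obtain ⟨D, Q, hDQ⟩ := G3_elim (pderiv j F) J hJ2 P
      have hDQ0 : Θ (P * (rename some (pderiv j F)) ^ D - rename some Q) = 0 := by
        have hle : J ≤ RingHom.ker Θ := by
          rw [hJ, Ideal.span_le]
          rintro _ ⟨a, rfl⟩
          change Θ (G3_v F i j a) = 0
          fin_cases a
          · change Θ (rename some F) = 0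
            rw [hΘr, hrel]
            exact Ideal.subset_span (Or.inl rfl)
          · change Θ (X (some i) - 1) = 0
            have h1 : (X (some i) : MvPolynomial (Option (Fin (n + 1))) k) =
                rename some (X i) := by
              rw [rename_X]
            rw [h1, map_sub, hΘr, map_one, aeval_X, hw]
            simp only
            rw [div_self hi, sub_self]
          · change Θ (X none * rename some (pderiv j F) - 1) = 0
            rw [map_sub, map_mul, hΘr, hΘn, map_one, inv_mul_cancel₀ hh, sub_self]
        exact hle hDQ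
      rw [map_sub, map_mul, hP0, zero_mul, zero_sub, neg_eq_zero, hΘr, hrel] at hDQ0
      have hQJ : rename some Q ∈ J := by
        obtain ⟨a, b, hab⟩ := Ideal.mem_span_pair.1 hDQ0
        rw [← hab, map_add, map_mul, map_mul, map_sub, rename_X, map_one]
        exact J.add_mem (J.mul_mem_left _ hJ0) (J.mul_mem_left _ hJ1)
      have hPD : P * (rename some (pderiv j F)) ^ D ∈ J := by
        have := J.add_mem hDQ hQJ
        rwa [sub_add_cancel] at this
      have h2 : (X none * rename some (pderiv j F)) ^ D - 1 ∈ J := by
        have h3 : X none * rename some (pderiv j F) - 1 ∣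
            (X none * rename some (pderiv j F)) ^ D - 1 := by
          have := sub_dvd_pow_sub_pow (X none * rename some (pderiv j F) :
            MvPolynomial (Option (Fin (n + 1))) k) 1 D
          rwa [one_pow] at this
        exact Ideal.mem_of_dvd _ h3 hJ2
      have h4 : P = P * (rename some (pderiv j F)) ^ D * (X none) ^ D -
          P * ((X none * rename some (pderiv j F)) ^ D - 1) := by
        rw [mul_pow]
        ring
      rw [h4]
      exact J.sub_mem (J.mul_mem_right _ hPD) (J.mul_mem_left _ h2)
  have hsm := G3_smooth F i j hij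
  have e1 : (MvPolynomial (Option (Fin (n + 1))) k ⧸ J) ≃ₐ[k]
      MvPolynomial (Option (Fin (n + 1))) k ⧸ RingHom.ker Θ := Ideal.quotientEquivAlgOfEq k hker
  have e2 : (MvPolynomial (Option (Fin (n + 1))) k ⧸ RingHom.ker Θ) ≃ₐ[k] Θ.range :=
    Ideal.quotientKerEquivRange Θ
  have e3 : Θ.range ≃ₐ[k] chartRing2 F y i j := Subalgebra.equivOfEq _ _ hrange
  have hst : Algebra.IsStandardSmooth k (chartRing2 F y i j) :=
    Algebra.IsStandardSmooth.of_algEquiv ((e1.trans e2).trans e3)
  obtain ⟨N, g, -, hg⟩ := RingHom.IsStandardSmooth.exists_etale_mvPolynomial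
    (RingHom.isStandardSmooth_algebraMap.2 hst)
  exact ⟨N, g, hg⟩

end Pool.Agent.LibHP
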