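import Pool.Agent.LibHPF.P3a

/-! # Row P13: the anchor

If the family `σ : K → E` (`E = M(u)`) specialises, at a valuation ring `V` of `E` with residue field
`κ`, to a homomorphism `ρ : K → κ` such that `K` is algebraically closed in `κ`, then `K` is
algebraically closed in `E`.

Plan. Let `e ∈ E` be algebraic over `K` via `σ`, `Q` its minimal polynomial over `K`
(`letI := σ.toAlgebra`), monic irreducible. `e` is integral over the subfield `σ(K) ⊆ V`, and `V` is
integrally closed in `E`, so `e ∈ V`; its residue is a root of `Q` in `κ` via `ρ` (the residue map is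
`IsLocalRing.residue V`), so it is algebraic over `K`, hence in the image of `ρ`: `Q` has a root in
`K`, so `Q` has degree one and `e ∈ σ(K)`. -/

set_option autoImplicit false
open Polynomial

namespace Pool.Agent.LibHP

theorem closed_of_anchor {K E : Type} [Field K] [Field E] (σ : K →+* E) (V : ValuationSubring E)
    (hV : ∀ a, σ a ∈ V)
    (hcl : ∀ z : IsLocalRing.ResidueField V, (∃ P : K[X], P ≠ 0 ∧
      P.eval₂ ((IsLocalRing.residue V).comp (σ.codRestrict V.toSubring hV)) z = 0) →
      ∃ a, IsLocalRing.residue V ⟨σ a, hV a⟩ = z) :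
    ∀ e : E, (∃ P : K[X], P ≠ 0 ∧ P.eval₂ σ e = 0) → ∃ a, σ a = e := by
  rintro e ⟨P, hP, hPe⟩
  letI := σ.toAlgebra
  have hint : IsIntegral K e := by
    rw [← isAlgebraic_iff_isIntegral]
    refine ⟨P, hP, ?_⟩
    rw [aeval_def]
    exact hPe
  set Q := minpoly K e with hQ
  have hQm : Q.Monic := minpoly.monic hint
  have hQi : Irreducible Q := minpoly.irreducible hint
  have hQe : Q.eval₂ σ e = 0 := by
    have h1 := minpoly.aeval K e
    rwa [aeval_def] at h1
  set τ : K →+* V := σ.codRestrict V.toSubring hV with hτ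
  -- the element lies in `V`
  have heV : e ∈ V := by
    have h1 : IsIntegral V e := by
      refine ⟨Q.map τ, hQm.map τ, ?_⟩
      rw [eval₂_map]
      exact hQe
    obtain ⟨y, hy⟩ := (IsIntegrallyClosed.isIntegral_iff (R := V) (K := E)).1 h1
    rw [← hy]
    exact y.2
  have h2 : Q.eval₂ ((IsLocalRing.residue V).comp τ) (IsLocalRing.residue V ⟨e, heV⟩) = 0 := by
    have h3 : Q.eval₂ τ (⟨e, heV⟩ : V) = 0 := by
      apply Subtype.ext
      have h4 := Polynomial.hom_eval₂ Q τ V.subtype ⟨e, heV⟩
      change V.subtype (Q.eval₂ τ ⟨e, heV⟩) = 0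
      rw [h4]
      exact hQe
    rw [← Polynomial.hom_eval₂, h3, map_zero]
  obtain ⟨a, ha⟩ := hcl _ ⟨Q, hQi.ne_zero, h2⟩
  have h5 : Q.IsRoot a := by
    rw [← ha] at h2
    have h6 : ((IsLocalRing.residue V).comp τ) (Q.eval a) = 0 := by
      rw [← h2]
      exact (Polynomial.eval₂_at_apply ((IsLocalRing.residue V).comp τ) a).symm
    exact (map_eq_zero _).1 h6
  have h6 : Q = X - C a := by
    have h7 := (dvd_iff_isRoot.2 h5)
    have h8 : Associated (X - C a) Q := (Polynomial.irreducible_X_sub_C a).associated_of_dvd hQi h7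
    exact (eq_of_monic_of_associated (monic_X_sub_C a) hQm h8).symm
  refine ⟨a, ?_⟩
  rw [h6] at hQe
  simp only [eval₂_sub, eval₂_X, eval₂_C] at hQe
  exact (sub_eq_zero.1 hQe).symm

end Pool.Agent.LibHP
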