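import Pool.Agent.LibHPF.Defs

set_option autoImplicit false

namespace Pool.Agent.LibHP

/-- The prime ideal `P` of height one of the normal domain `A` (with fraction field `K`) is met by the
family `σ` with multiplicity `m`: there is a discrete valuation ring `C` of `\bar M (t)` containing
`\bar M`, lying over the localization of `A` at `P` by `σ`, such that the value of a generator `π` of
`P` at `P` is `m` times the value of a uniformizer `ϖ` of `C`. -/
def MetAt (A K : Type) {M : Type} [CommRing A] [Field K] [Algebra A K] [Field M] {r : ℕ}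
    (P : Ideal A) (σ : K →+* RF M r) (m : ℕ) : Prop :=
  ∃ (C : ValuationSubring (RF (AlgebraicClosure M) r)) (ϖ : RF (AlgebraicClosure M) r) (π : A),
    IsUnif C ϖ ∧
    (∀ c : AlgebraicClosure M, algebraMap (AlgebraicClosure M) (RF (AlgebraicClosure M) r) c ∈ C) ∧
    (∀ a : A, rfbar M r (σ (algebraMap A K a)) ∈ C) ∧
    (∀ a : A, a ∉ P → (rfbar M r (σ (algebraMap A K a)))⁻¹ ∈ C) ∧
    π ∈ P ∧ (∀ a ∈ P, ∃ s : A, s ∉ P ∧ π ∣ s * a) ∧
    ∃ u : RF (AlgebraicClosure M) r, u ∈ C ∧ u⁻¹ ∈ C ∧
      rfbar M r (σ (algebraMap A K π)) = u * ϖ ^ m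

/-- `L` is unramified over `A` at the prime ideal `P`: every derivation of `L` preserving the
localization of `A` at `P` preserves the integral closure of this localization in `L`. -/
def UnramAt (A L : Type) [CommRing A] [Field L] [Algebra A L] (P : Ideal A) : Prop :=
  ∀ D : Derivation ℤ L L,
    (∀ x : A, ∃ y s : A, s ∉ P ∧ algebraMap A L s * D (algebraMap A L x) = algebraMap A L y) →
    ∀ b : L, IsIntegral A b → ∃ r : A, r ∉ P ∧ IsIntegral A (algebraMap A L r * D b)

end Pool.Agent.LibHP
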