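import Pool.Agent.LibHPF.Q5
import Pool.Agent.LibHPF.DefsG

set_option autoImplicit false
open MvPolynomial

namespace Pool.Agent.LibHP

/-! ### The quadratic form of asymptotic directions and the charts -/

section QuadW
variable {k : Type} [Field k] {n : ℕ} (φ : Tens k n)
variable {K M : Type} [Field K] [Algebra k K] [Field M] [Algebra k M]

/-- The quadratic polynomial `B(prj Y, prj Y)` in the variables `Y`, with `B = φ(P, P, ·, ·)`. -/
noncomputable def quadW (P e : Fin (n + 1) → K) : MvPolynomial (Fin (n + 1)) K :=
  qW φ (fun i => C (P i)) (fun i => C (e i)) X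

theorem eval₂_quadW (j : K →ₐ[k] M) (P e : Fin (n + 1) → K) (W : Fin (n + 1) → M) :
    eval₂ (j : K →+* M) W (quadW φ P e) = qW φ (fun i => j (P i)) (fun i => j (e i)) W := by
  let f : MvPolynomial (Fin (n + 1)) K →ₐ[k] M :=
    { eval₂Hom (j : K →+* M) W with
      commutes' := fun c => by
        show eval₂ (j : K →+* M) W (algebraMap k (MvPolynomial (Fin (n + 1)) K) c) = _
        rw [IsScalarTower.algebraMap_apply k K (MvPolynomial (Fin (n + 1)) K),
          MvPolynomial.algebraMap_eq, eval₂_C]
        exact j.commutes c }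
  have h := qW_map φ f (fun i => C (P i)) (fun i => C (e i)) X
  have h1 : ∀ c : K, f (C c) = j c := fun c => eval₂_C _ _ _
  have h2 : ∀ i, f (X i) = W i := fun i => eval₂_X _ _ _
  simp only [h1, h2] at h
  exact h

theorem map_quadW (j : K →ₐ[k] M) (P e : Fin (n + 1) → K) :
    MvPolynomial.map (j : K →+* M) (quadW φ P e) =
      quadW φ (fun i => j (P i)) (fun i => j (e i)) := by
  let f : MvPolynomial (Fin (n + 1)) K →ₐ[k] MvPolynomial (Fin (n + 1)) M :=
    { MvPolynomial.map (j : K →+* M) with
      commutes' := fun c => by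
        show MvPolynomial.map (j : K →+* M) (algebraMap k (MvPolynomial (Fin (n + 1)) K) c) = _
        rw [IsScalarTower.algebraMap_apply k K (MvPolynomial (Fin (n + 1)) K),
          MvPolynomial.algebraMap_eq, map_C,
          IsScalarTower.algebraMap_apply k M (MvPolynomial (Fin (n + 1)) M),
          MvPolynomial.algebraMap_eq]
        congr 1
        exact j.commutes c }
  have h := qW_map φ f (fun i => C (P i)) (fun i => C (e i)) X
  have h1 : ∀ c : K, f (C c) = C (j c) := fun c => map_C _ _
  have h2 : ∀ i, f (X i) = X i := fun i => map_X _ _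
  simp only [h1, h2] at h
  exact h

end QuadW

section Chart
variable (k : Type) {K : Type} [Field k] [Field K] [Algebra k K] {n : ℕ}

/-- Polynomials in the affine coordinates of a chart. -/
noncomputable def chartMap (y : Fin (n + 1) → K) (i : Fin (n + 1)) :
    MvPolynomial (Fin (n + 1)) k →ₐ[k] chartRing k y i :=
  aeval fun j => ⟨y j / y i, Algebra.subset_adjoin ⟨j, rfl⟩⟩

theorem coe_chartMap (y : Fin (n + 1) → K) (i : Fin (n + 1)) (G : MvPolynomial (Fin (n + 1)) k) :
    (chartMap k y i G : K) = aeval (fun j => y j / y i) G := by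
  have h := MvPolynomial.comp_aeval_apply (φ := (chartRing k y i).val)
    (fun j => (⟨y j / y i, Algebra.subset_adjoin ⟨j, rfl⟩⟩ : chartRing k y i)) G
  exact h

theorem chartMap_surjective (y : Fin (n + 1) → K) (i : Fin (n + 1)) :
    Function.Surjective (chartMap k y i) := by
  rintro ⟨a, ha⟩
  have h : a ∈ (aeval (R := k) fun j => y j / y i).range := by
    rw [← Algebra.adjoin_range_eq_range_aeval]
    exact ha
  obtain ⟨G, hG⟩ := h
  exact ⟨G, Subtype.ext ((coe_chartMap k y i G).trans hG)⟩

end Chart

end Pool.Agent.LibHP
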