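import Pool.Agent.LibHPF.P8b

/-! # Row P8c: the integral closure is etale over `O`

Plan. Copy the proof of `etale_of_curves` (LibHP/E2.lean, line 222 to the end) with `dvd_of_curve`
replaced by `dvd_of_div` (`Ω := RF (AlgebraicClosure M) r`, `s := sbar σ`, `ψ` from `AllEmb`). -/

set_option autoImplicit false
open Polynomial

namespace Pool.Agent.LibHP

theorem etale_of_div (O K L : Type) [CommRing O] [IsDomain O] [IsDiscreteValuationRing O]
    [Field K] [CharZero K] (hQ : ∀ n : ℕ, n ≠ 0 → IsUnit (n : O))
    [Algebra O K] [IsFractionRing O K] [Field L] [Algebra K L] [Algebra O L]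
    [IsScalarTower O K L] [FiniteDimensional K L] {M : Type} [Field M] {r : ℕ} (σ : K →+* RF M r)
    (hL : AllEmb σ L) (hdiv : ∀ l : ℕ, l.Prime → ∃ m : ℕ, ¬ l ∣ m ∧ MeetsDiv O σ m) :
    Algebra.Etale O (integralClosure O L) := by
  have hfin : Module.Finite O (integralClosure O L) :=
    IsIntegralClosure.finite O K L (integralClosure O L)
  have hded : IsDedekindDomain (integralClosure O L) := integralClosure.isDedekindDomain O K L
  have hinjOL : Function.Injective (algebraMap O L) := by
    rw [IsScalarTower.algebraMap_eq O K L]
    exact (algebraMap K L).injective.comp (IsFractionRing.injective O K)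
  have hinj : Function.Injective (algebraMap O (integralClosure O L)) := fun x y h =>
    hinjOL (congrArg (fun z : integralClosure O L => (z : L)) h)
  have hfs : FaithfulSMul O (integralClosure O L) :=
    (faithfulSMul_iff_algebraMap_injective _ _).2 hinj
  have hfree : Module.Free O (integralClosure O L) := inferInstance
  have hfp : Algebra.FinitePresentation O (integralClosure O L) :=
    (Algebra.FinitePresentation.of_finiteType (R := O)).1 inferInstance
  have hchar : CharZero O :=
    ⟨fun a b h => by
      have h' := congrArg (algebraMap O K) h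
      simpa using h'⟩
  obtain ⟨π0, hπ0⟩ := IsDiscreteValuationRing.exists_irreducible O
  obtain ⟨ψ, hψ, hψs⟩ := hL
  have hunr : Algebra.FormallyUnramified O (integralClosure O L) := by
    rw [Algebra.formallyUnramified_iff_forall]
    rintro ⟨q, hq⟩
    rcases eq_or_ne q ⊥ with rfl | hq0
    · exact Algebra.isUnramifiedAt_bot
    have hqm : q.IsMaximal := hq.isMaximal hq0
    have hx : algebraMap O (integralClosure O L) π0 ≠ 0 := fun h =>
      hπ0.ne_zero (hinj (by rw [h, map_zero]))
    obtain ⟨e, a, b, s, t, hb, hs, ht, heq, he⟩ :=
      exists_repr_c (integralClosure O L) q hq0 _ hx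
    have he1 : e = 1 := by
      by_contra hne
      obtain ⟨l, hl, hle⟩ := Nat.exists_prime_and_dvd hne
      obtain ⟨m, hlm, C, ϖ, hϖ, hm1, hC, π, hπ, u, hu, hu', hπu⟩ := hdiv l hl
      exact hlm (hle.trans (dvd_of_div O K L (RF (AlgebraicClosure M) r) (sbar σ) ψ hψ hψs C ϖ hϖ
        hC π hπ m hm1 u hu hu' hπu q hqm π0 hπ0 e a b s t hb hs ht heq))
    have hunder : q.under O = IsLocalRing.maximalIdeal O := by
      have := hqm
      have h1 : (q.under O).IsMaximal := inferInstance
      exact IsLocalRing.eq_maximalIdeal h1
    have hcz : CharZero (q.under O).ResidueField := by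
      refine charZero_of_inj_zero fun n hn => ?_
      by_contra hn0
      have h1 : IsUnit (algebraMap O (q.under O).ResidueField (n : O)) := (hQ n hn0).map _
      rw [map_natCast, hn] at h1
      exact not_isUnit_zero h1
    have hperf : PerfectField (q.under O).ResidueField := inferInstance
    rw [← Ideal.ramificationIdx_eq_one_iff, Ideal.ramificationIdx_def,
      ENat.toNat_eq_iff_eq_natCast, Nat.cast_one, Module.length_eq_one_iff,
      isSimpleModule_iff_isCoatom, ← Ideal.isMaximal_def, IsLocalRing.isMaximal_iff, hunder,
      hπ0.maximalIdeal_eq, Ideal.map_span, Set.image_singleton,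
      IsScalarTower.algebraMap_apply O (integralClosure O L) (Localization.AtPrime q)]
    exact he he1
  exact Algebra.Etale.of_formallyUnramified_of_flat

end Pool.Agent.LibHP
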