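import Pool.Agent.LibHPF.DefsG
import Pool.Agent.LibHPF.P8c
import Pool.Agent.LibHP.S2

/-! Row G9. `L` is unramified over `A` at a prime `P` of height one which is met by the family with multiplicities prime to every prime number.
Plan: `O := Localization.AtPrime P` with its algebra structure over `A`, `letI : Algebra O K` (`IsLocalization.lift` / `Localization.AtPrime` inside the fraction field:
`IsFractionRing.lift`-free way: `(IsLocalization.lift (M := P.primeCompl) (g := algebraMap A K) _).toAlgebra`), scalar tower, `IsFractionRing O K`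
(`IsFractionRing.isFractionRing_of_isDomain_of_isLocalization P.primeCompl O K`), `O` is a domain, Noetherian (`IsLocalization.isNoetherianRing`), integrally closed
(`isIntegrallyClosed_of_isLocalization`), `ringKrullDim O = 1` (`IsLocalization.AtPrime.ringKrullDim_eq_height`), so a discrete valuation ring (`isDiscreteValuationRing_of_dim_one`, LibHP/S2;
copy the proof of `isDiscreteValuationRing_stalk` / `finEt_of_presAt` there). `MetAt A K P σ m` gives `MeetsDiv O σ m` (`m ≥ 1` because `¬ l ∣ m`; an element of `O` is `x / s`, `s ∉ P`;
the element `π / 1` generates the maximal ideal: `a ∈ P`, `s * a = π * c`, `s ∉ P`; note `sbar σ a = rfbar M r (σ a)` by `rfl`). `etale_of_div` (P8c) gives `Algebra.Etale O (integralClosure O L)`.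
`UnramAt`: let `D`, `b` be as there; `D` preserves `O` (quotient rule as in `derivation_localization`, with denominators), so by `isIntegral_derivation_of_etale` (LibHP/E2a) `D b` is integral over `O`;
`IsIntegral.exists_multiple_integral_of_isLocalization P.primeCompl` gives the multiple (see the end of `finEt_of_presAt`). -/

set_option autoImplicit false

namespace Pool.Agent.LibHP

/-- a derivation of `L` carrying `A` into the localization preserves the localization -/
theorem G9_der {A O L : Type} [CommRing A] [CommRing O] [Field L] [Algebra A O]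
    [Algebra A L] [Algebra O L] [IsScalarTower A O L] (M : Submonoid A) [IsLocalization M O]
    (D : Derivation ℤ L L)
    (hD : ∀ x : A, ∃ y s : A, s ∈ M ∧ algebraMap A L s * D (algebraMap A L x) = algebraMap A L y)
    (z : O) : ∃ z' : O, D (algebraMap O L z) = algebraMap O L z' := by
  have hD' : ∀ x : A, ∃ w : O, D (algebraMap A L x) = algebraMap O L w := by
    intro x
    obtain ⟨y, s, hs, h⟩ := hD x
    obtain ⟨t, ht⟩ := (IsLocalization.map_units O (⟨s, hs⟩ : M)).exists_right_inv
    have ht' : algebraMap A O s * t = 1 := ht
    have h4 : algebraMap A L s * algebraMap O L t = 1 := by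
      rw [IsScalarTower.algebraMap_apply A O L, ← map_mul, ht', map_one]
    refine ⟨algebraMap A O y * t, ?_⟩
    rw [map_mul, ← IsScalarTower.algebraMap_apply A O L]
    linear_combination (-D (algebraMap A L x)) * h4 + algebraMap O L t * h
  obtain ⟨a, s, rfl⟩ := IsLocalization.exists_mk'_eq M z
  obtain ⟨a', ha'⟩ := hD' a
  obtain ⟨s', hs'⟩ := hD' s
  obtain ⟨t, ht⟩ := (IsLocalization.map_units O s).exists_right_inv
  set z : O := IsLocalization.mk' O a s with hz
  have h1 : z * algebraMap A O s = algebraMap A O a := IsLocalization.mk'_spec O a s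
  refine ⟨(a' - z * s') * t, ?_⟩
  have h2 : algebraMap O L z * algebraMap A L s = algebraMap A L a := by
    rw [IsScalarTower.algebraMap_apply A O L, IsScalarTower.algebraMap_apply A O L a, ← map_mul, h1]
  have h3 := congrArg D h2
  rw [Derivation.leibniz, ha', hs', smul_eq_mul, smul_eq_mul] at h3
  have h4 : algebraMap A L s * algebraMap O L t = 1 := by
    rw [IsScalarTower.algebraMap_apply A O L, ← map_mul, ht, map_one]
  rw [map_mul, map_sub, map_mul]
  linear_combination (-D (algebraMap O L z)) * h4 + algebraMap O L t * h3

/-- from the ring to its localization -/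
theorem G9_meets (A O K : Type) [CommRing A] [IsDomain A] [CommRing O] [Field K] [Algebra A K]
    [Algebra A O] [Algebra O K] [IsScalarTower A O K] (P : Ideal A) [P.IsPrime]
    [IsLocalization.AtPrime O P]
    {M : Type} [Field M] {r : ℕ} (σ : K →+* RF M r) {m : ℕ} (hm : 1 ≤ m)
    (h : MetAt A K P σ m) : MeetsDiv O σ m := by
  obtain ⟨C, ϖ, π, hϖ, -, h1, h2, hπ, h3, u, hu, hu', hπu⟩ := h
  have hmk : ∀ (x : A) (s : P.primeCompl), algebraMap O K (IsLocalization.mk' O x s) *
      algebraMap A K s = algebraMap A K x := by
    intro x s
    rw [IsScalarTower.algebraMap_apply A O K, IsScalarTower.algebraMap_apply A O K x, ← map_mul,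
      IsLocalization.mk'_spec]
  have hs0 : ∀ s : P.primeCompl, algebraMap A K (s : A) ≠ 0 := by
    intro s
    have hun : IsUnit (algebraMap O K (algebraMap A O (s : A))) :=
      (IsLocalization.map_units O s).map (algebraMap O K)
    rw [IsScalarTower.algebraMap_apply A O K]
    exact hun.ne_zero
  refine ⟨C, ϖ, hϖ, hm, ?_, algebraMap A O π, ?_, u, hu, hu', ?_⟩
  · intro a
    obtain ⟨x, s, rfl⟩ := IsLocalization.exists_mk'_eq P.primeCompl a
    have h4 : algebraMap O K (IsLocalization.mk' O x s) =
        algebraMap A K x * (algebraMap A K (s : A))⁻¹ := by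
      rw [← hmk x s, mul_assoc, mul_inv_cancel₀ (hs0 s), mul_one]
    rw [h4, map_mul, map_inv₀]
    exact C.mul_mem _ _ (h1 x) (h2 s s.2)
  · intro a
    obtain ⟨x, s, rfl⟩ := IsLocalization.exists_mk'_eq P.primeCompl a
    constructor
    · intro hn
      have hx : x ∈ P := by
        by_contra hx
        exact hn ((IsLocalization.AtPrime.isUnit_mk'_iff O P x s).mpr hx)
      obtain ⟨s', hs', c, hc⟩ := h3 x hx
      have hun : IsUnit (algebraMap A O s') := IsLocalization.map_units O (⟨s', hs'⟩ : P.primeCompl)
      obtain ⟨t, ht⟩ := hun.exists_right_inv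
      refine ⟨IsLocalization.mk' O c s * t, ?_⟩
      have hus : IsUnit (algebraMap A O (s : A)) := IsLocalization.map_units O s
      have e1 : IsLocalization.mk' O x s * algebraMap A O s = algebraMap A O x :=
        IsLocalization.mk'_spec O x s
      have e2 : IsLocalization.mk' O c s * algebraMap A O s = algebraMap A O c :=
        IsLocalization.mk'_spec O c s
      have e3 : algebraMap A O s' * algebraMap A O x = algebraMap A O π * algebraMap A O c := by
        rw [← map_mul, hc, map_mul]
      refine hus.mul_left_injective ?_
      show IsLocalization.mk' O x s * algebraMap A O s =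
        algebraMap A O π * (IsLocalization.mk' O c s * t) * algebraMap A O s
      rw [e1]
      linear_combination (-(algebraMap A O x)) * ht + t * e3 - algebraMap A O π * t * e2
    · intro hd hun
      have h5 : IsUnit (algebraMap A O π) := isUnit_of_dvd_unit hd hun
      exact ((IsLocalization.AtPrime.isUnit_to_map_iff O P π).mp h5) hπ
  · rw [← IsScalarTower.algebraMap_apply A O K]
    exact hπu

theorem unramAt_of_met (A K : Type) [CommRing A] [IsDomain A] [IsNoetherianRing A]
    [IsIntegrallyClosed A] [Field K] [CharZero K] [Algebra A K] [IsFractionRing A K]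
    (hQ : ∀ n : ℕ, n ≠ 0 → IsUnit (n : A)) (P : Ideal A) (hP : P.IsPrime) (hP1 : P.height = 1)
    {M : Type} [Field M] {r : ℕ} (σ : K →+* RF M r) (L : Type) [Field L] [Algebra K L]
    [Algebra A L] [IsScalarTower A K L] [FiniteDimensional K L] (hL : AllEmb σ L)
    (hmet : ∀ l : ℕ, l.Prime → ∃ m : ℕ, ¬ l ∣ m ∧ MetAt A K P σ m) : UnramAt A L P := by
  let O := Localization.AtPrime P
  have hle : P.primeCompl ≤ nonZeroDivisors A := Ideal.primeCompl_le_nonZeroDivisors P
  let _ : Algebra O K := IsLocalization.localizationAlgebraOfSubmonoidLe O K P.primeCompl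
    (nonZeroDivisors A) hle
  have htow : IsScalarTower A O K := IsLocalization.localization_isScalarTower_of_submonoid_le O K
    P.primeCompl (nonZeroDivisors A) hle
  have hdom : IsDomain O := IsLocalization.isDomain_localization hle
  have hfrac : IsFractionRing O K :=
    IsFractionRing.isFractionRing_of_isDomain_of_isLocalization P.primeCompl O K
  have hno : IsNoetherianRing O := IsLocalization.isNoetherianRing P.primeCompl O inferInstance
  have hic : IsIntegrallyClosed O := isIntegrallyClosed_of_isLocalization (R := A) O P.primeCompl hle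
  have hdim : ringKrullDim O = 1 := by
    rw [IsLocalization.AtPrime.ringKrullDim_eq_height P, hP1]
    rfl
  have hdvr : IsDiscreteValuationRing O := isDiscreteValuationRing_of_dim_one O hdim
  let _ : Algebra O L := ((algebraMap K L).comp (algebraMap O K)).toAlgebra
  have htow2 : IsScalarTower O K L := IsScalarTower.of_algebraMap_eq' rfl
  have htow3 : IsScalarTower A O L := by
    refine IsScalarTower.of_algebraMap_eq fun a => ?_
    rw [IsScalarTower.algebraMap_apply A K L, IsScalarTower.algebraMap_apply O K L,
      ← IsScalarTower.algebraMap_apply A O K]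
  have hQO : ∀ n : ℕ, n ≠ 0 → IsUnit (n : O) := by
    intro n hn
    have := (hQ n hn).map (algebraMap A O)
    rwa [map_natCast] at this
  have het : Algebra.Etale O (integralClosure O L) := by
    refine etale_of_div O K L hQO σ hL fun l hl => ?_
    obtain ⟨m, hlm, hm⟩ := hmet l hl
    refine ⟨m, hlm, G9_meets A O K P σ ?_ hm⟩
    rcases Nat.eq_zero_or_pos m with rfl | h
    · exact absurd (dvd_zero l) hlm
    · exact h
  intro D hD b hb
  have hD' : ∀ z : O, ∃ z' : O, D (algebraMap O L z) = algebraMap O L z' :=
    G9_der P.primeCompl D hD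
  have hb' : IsIntegral O b := hb.tower_top
  have hDb : IsIntegral O (D b) := isIntegral_derivation_of_etale O K L D hD' b hb'
  obtain ⟨m, hm⟩ := hDb.exists_multiple_integral_of_isLocalization P.primeCompl _
  refine ⟨m, m.2, ?_⟩
  rwa [Submonoid.smul_def, Algebra.smul_def] at hm

end Pool.Agent.LibHP
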