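import Pool.Agent.LibHPF.Defs

/-! # Row P10: only finitely many codimension one points are ramified

Plan. `X` is quasi-compact: finitely many affine opens `U` with charts `ψ : k[t] → Γ(X, U)` etale
(`exists_etale_chart f x`) cover `X` (`CompactSpace X` from `QuasiCompact f` and
`Spec k` compact; `isCompact_univ.elim_finite_subcover`). So it is enough to show that for one such
`U`, `A := Γ(X, U)`, the set of `x ∈ U` of codimension one with `¬ PresAt j x` is finite. `A` is a
Noetherian integrally closed domain (`isIntegrallyClosed_of_etale`), `K = Frac A`, `L/K` finite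
separable. Choose a primitive element of `L/K` integral over `A`, with minimal polynomial
`q ∈ A[X]` and `δ := discriminant of q ≠ 0` in `A` (`Polynomial.discr`, or: `q` and `q'` generate
an ideal meeting `A` in a nonzero element: Bezout over `K`: `u q + v q' = δ`, `δ ∈ A`, `δ ≠ 0`).
CLAIM: if `x ∈ U` is the point of a prime `𝔭` of height one not containing `δ` then `PresAt j x`:
with `O := stalk` (localization of `A` at `𝔭`): every `b ∈ L` integral over `O` satisfies
`δ b ∈ O[θ]`, hence `b ∈ O[θ]` (Mathlib: `discr_mul_isIntegral_mem_adjoin` or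
`Algebra.discr_mul_isIntegral_mem_adjoin`), and a derivation `D` of `L` preserving `O` maps `θ` to
`-(q^D)(θ)/q'(θ)`, where `q'(θ)` is a unit of `O[θ]` (`v(θ) q'(θ) = δ`): integral. So
`D (O[θ]) ⊆ O[θ]`. (Alternatively: `integralClosure O L` is etale over `O` and
`isIntegral_derivation_of_etale`, LibHP/E2a.lean.) Finally the primes of height one containing
`δ ≠ 0` are minimal primes over `(δ)`, finitely many in a Noetherian ring
(`Ideal.finite_minimalPrimes_of_isNoetherianRing`), and `x ↦ 𝔭` is injective on `U`
(`hU.fromSpec`; `hU.primeIdealOf`). -/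

set_option autoImplicit false

namespace Pool.Agent.LibHP

section Core
open Polynomial

theorem p10_core (A K L : Type) [CommRing A] [IsDomain A] [IsIntegrallyClosed A] [Field K]
    [CharZero K] [Algebra A K] [IsFractionRing A K] [Field L] [Algebra K L]
    [FiniteDimensional K L] [Algebra A L] [IsScalarTower A K L] :
    ∃ δ : A, δ ≠ 0 ∧ ∀ (O : Type) [CommRing O] [IsDomain O] [IsIntegrallyClosed O] [Algebra A O]
      [Algebra O K] [IsFractionRing O K] [Algebra O L] [IsScalarTower A O K]
      [IsScalarTower O K L], IsUnit (algebraMap A O δ) → ∀ D : Derivation ℤ L L,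
      (∀ y : O, ∃ y' : O, D (algebraMap O L y) = algebraMap O L y') →
      ∀ b : L, IsIntegral O b → IsIntegral O (D b) := by
  classical
  have hinjAK : Function.Injective (algebraMap A K) := IsFractionRing.injective A K
  have hinjAL : Function.Injective (algebraMap A L) := by
    rw [IsScalarTower.algebraMap_eq A K L]
    exact (algebraMap K L).injective.comp hinjAK
  have halgAL : Algebra.IsAlgebraic A L := by
    have h1 : Algebra.IsAlgebraic K L := inferInstance
    exact (IsFractionRing.comap_isAlgebraic_iff (A := A) (K := K) (C := L)).mpr h1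
  obtain ⟨α, hα⟩ := Field.exists_primitive_element K L
  obtain ⟨a0, ha0, hint0⟩ := (halgAL.isAlgebraic α).exists_integral_multiple
  set θ : L := a0 • α with hθ
  have ha0K : algebraMap A K a0 ≠ 0 := by
    intro h
    exact ha0 (hinjAK (by rw [h, map_zero]))
  have hθα : θ = (algebraMap A K a0) • α := by
    rw [hθ, algebraMap_smul]
  have hθtop : IntermediateField.adjoin K {θ} = ⊤ := by
    rw [eq_top_iff, ← hα, IntermediateField.adjoin_simple_le_iff]
    have h1 : θ ∈ IntermediateField.adjoin K {θ} := IntermediateField.mem_adjoin_simple_self K θ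
    have h2 : α = (algebraMap A K a0)⁻¹ • θ := by
      rw [hθα, smul_smul, inv_mul_cancel₀ ha0K, one_smul]
    rw [h2]
    exact IntermediateField.smul_mem _ h1
  have hθK : IsIntegral K θ := Algebra.IsIntegral.isIntegral θ
  let pb : PowerBasis K L := (IntermediateField.adjoin.powerBasis hθK).map
    ((IntermediateField.equivOfEq hθtop).trans IntermediateField.topEquiv)
  have hgen : pb.gen = θ := by
    simp only [pb, PowerBasis.map_gen, IntermediateField.adjoin.powerBasis_gen]
    rfl
  have hdisc : IsIntegral A (Algebra.discr K pb.basis) := by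
    apply Algebra.discr_isIntegral
    intro i
    rw [pb.basis_eq_pow, hgen]
    exact hint0.pow _
  obtain ⟨δ1, hδ1⟩ := IsIntegrallyClosed.isIntegral_iff.mp hdisc
  have hδ1ne : δ1 ≠ 0 := by
    rintro rfl
    rw [map_zero] at hδ1
    exact Algebra.discr_not_zero_of_basis K pb.basis hδ1.symm
  -- derivative
  set q := minpoly A θ with hq
  have hqK : minpoly K θ = q.map (algebraMap A K) :=
    minpoly.isIntegrallyClosed_eq_field_fractions K L hint0
  have hsep : (minpoly K θ).Separable := Algebra.IsSeparable.isSeparable K θ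
  have hne : aeval θ (derivative q) ≠ 0 := by
    have h1 := hsep.aeval_derivative_ne_zero (minpoly.aeval K θ)
    rw [hqK, derivative_map, aeval_map_algebraMap] at h1
    exact h1
  set w : L := (aeval θ (derivative q))⁻¹ with hw
  obtain ⟨ρ, hρ, hρint⟩ := (halgAL.isAlgebraic w).exists_integral_multiple
  refine ⟨δ1 * ρ, mul_ne_zero hδ1ne hρ, ?_⟩
  intro O _ _ _ _ _ _ _ _ _ hu D hD b hb
  have htow : IsScalarTower A O L := by
    refine IsScalarTower.of_algebraMap_eq fun x => ?_
    rw [IsScalarTower.algebraMap_apply A K L, IsScalarTower.algebraMap_apply O K L,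
      ← IsScalarTower.algebraMap_apply A O K]
  rw [map_mul, IsUnit.mul_iff] at hu
  obtain ⟨hu1, hu2⟩ := hu
  have hthO : IsIntegral O θ := hint0.tower_top
  -- D on polynomials in θ
  have hpoly : ∀ p : A[X], IsIntegral O (D (aeval θ p) - aeval θ (derivative p) * D θ) := by
    intro p
    induction p using Polynomial.induction_on' with
    | add p r hp hr =>
      have : D (aeval θ (p + r)) - aeval θ (derivative (p + r)) * D θ =
          (D (aeval θ p) - aeval θ (derivative p) * D θ) +
          (D (aeval θ r) - aeval θ (derivative r) * D θ) := by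
        simp only [map_add]
        ring
      rw [this]
      exact hp.add hr
    | monomial n a =>
      obtain ⟨y', hy'⟩ := hD (algebraMap A O a)
      rw [← IsScalarTower.algebraMap_apply A O L] at hy'
      have h1 : D (aeval θ (monomial n a)) - aeval θ (derivative (monomial n a)) * D θ =
          algebraMap O L y' * θ ^ n := by
        rw [aeval_monomial, Derivation.leibniz, hy', derivative_monomial, aeval_monomial,
          Derivation.leibniz_pow]
        simp only [smul_eq_mul, map_mul, map_natCast, nsmul_eq_mul]
        ring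
      rw [h1]
      exact isIntegral_algebraMap.mul (hthO.pow n)
  have hDθ : IsIntegral O (D θ) := by
    have h1 := hpoly q
    rw [hq, minpoly.aeval, map_zero, zero_sub, ← hq] at h1
    have h2 : IsIntegral O (aeval θ (derivative q) * D θ) := by
      have := h1.neg
      rwa [neg_neg] at this
    have h3 : IsIntegral O (ρ • w) := hρint.tower_top
    obtain ⟨t, ht⟩ := hu2.exists_right_inv
    have h4 : D θ = algebraMap O L t * ((ρ • w) * (aeval θ (derivative q) * D θ)) := by
      have h5 : (ρ • w : L) = algebraMap O L (algebraMap A O ρ) * w := by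
        rw [Algebra.smul_def, IsScalarTower.algebraMap_apply A O L]
      have h6 : algebraMap O L (algebraMap A O ρ) * algebraMap O L t = 1 := by
        rw [← map_mul, ht, map_one]
      have h7 : w * aeval θ (derivative q) = 1 := inv_mul_cancel₀ hne
      rw [h5]
      calc D θ = (algebraMap O L (algebraMap A O ρ) * algebraMap O L t) *
            (w * aeval θ (derivative q)) * D θ := by rw [h6, h7]; ring
        _ = _ := by ring
    rw [h4]
    exact isIntegral_algebraMap.mul (h3.mul h2)
  -- all integral elements are in O[θ]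
  have hmem : b ∈ Algebra.adjoin O ({θ} : Set L) := by
    have hgO : IsIntegral O pb.gen := by rw [hgen]; exact hthO
    have h1 := Algebra.discr_mul_isIntegral_mem_adjoin (R := O) K hgO hb
    rw [hgen] at h1
    obtain ⟨t, ht⟩ := hu1.exists_right_inv
    have h2 : b = t • (Algebra.discr K pb.basis • b) := by
      rw [← hδ1, IsScalarTower.algebraMap_apply A O K, algebraMap_smul, smul_smul, mul_comm, ht,
        one_smul]
    rw [h2]
    exact Subalgebra.smul_mem _ h1 t
  have hfin : IsIntegral O b ∧ IsIntegral O (D b) := by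
    clear hb
    induction hmem using Algebra.adjoin_induction with
    | mem x hx =>
      rw [Set.mem_singleton_iff] at hx
      subst hx
      exact ⟨hthO, hDθ⟩
    | algebraMap x =>
      obtain ⟨y', hy'⟩ := hD x
      rw [hy']
      exact ⟨isIntegral_algebraMap, isIntegral_algebraMap⟩
    | add x y _ _ hx hy =>
      rw [map_add]
      exact ⟨hx.1.add hy.1, hx.2.add hy.2⟩
    | mul x y _ _ hx hy =>
      rw [Derivation.leibniz, smul_eq_mul, smul_eq_mul]
      exact ⟨hx.1.mul hy.1, (hx.1.mul hy.2).add (hy.1.mul hx.2)⟩
  exact hfin.2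

/-- Primes of height one containing a nonzero element are minimal over it. -/
theorem p10_minimal (A : Type) [CommRing A] [IsDomain A] [IsNoetherianRing A] (δ : A) (hδ : δ ≠ 0)
    (P : Ideal A) [P.IsPrime] (hP : P.height = 1) (hmem : δ ∈ P) :
    P ∈ (Ideal.span {δ}).minimalPrimes := by
  have hle : Ideal.span {δ} ≤ P := by
    rw [Ideal.span_le, Set.singleton_subset_iff]; exact hmem
  refine Ideal.mem_minimalPrimes_of_height_le hle ?_
  rw [hP, Order.one_le_iff_pos, pos_iff_ne_zero]
  intro h0
  rw [Ideal.height_eq_zero_iff_eq_bot, Ideal.span_singleton_eq_bot] at h0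
  exact hδ h0

end Core

open AlgebraicGeometry CategoryTheory

theorem finite_not_presAt {k : Type} [Field k] [CharZero k] {X : Scheme}
    (f : X ⟶ Spec (CommRingCat.of k)) [IsIntegral X] [Smooth f] [QuasiCompact f]
    (L : Type) [Field L] [Algebra X.functionField L] [FiniteDimensional X.functionField L] :
    {x : X | ringKrullDim (X.presheaf.stalk x) = 1 ∧
      ¬ PresAt (algebraMap X.functionField L) x}.Finite := by
  classical
  have hcz : CharZero X.functionField :=
    charZero_of_injective_ringHom (toStalk f (genericPoint X)).injective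
  have hcomp : CompactSpace X := QuasiCompact.compactSpace_of_compactSpace f
  -- local finiteness
  have hloc : ∀ x : X, ∃ U : X.Opens, x ∈ U ∧
      {y : X | y ∈ U ∧ ringKrullDim (X.presheaf.stalk y) = 1 ∧
        ¬ PresAt (algebraMap X.functionField L) y}.Finite := by
    intro x0
    obtain ⟨U, hU, hxU, n, ψ, hψ⟩ := exists_etale_chart f x0
    refine ⟨U, hxU, ?_⟩
    have hne : Nonempty U := ⟨⟨x0, hxU⟩⟩
    let _ : Algebra (MvPolynomial (Fin n) k) Γ(X, U) := ψ.toAlgebra
    have hAet : Algebra.Etale (MvPolynomial (Fin n) k) Γ(X, U) := hψ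
    have hnoeth : IsNoetherianRing Γ(X, U) :=
      Algebra.FiniteType.isNoetherianRing (MvPolynomial (Fin n) k) Γ(X, U)
    have hic : IsIntegrallyClosed Γ(X, U) := isIntegrallyClosed_of_etale k n Γ(X, U)
    let j : X.functionField →+* L := algebraMap X.functionField L
    let _ : Algebra Γ(X, U) L := (j.comp (algebraMap Γ(X, U) X.functionField)).toAlgebra
    have hst : IsScalarTower Γ(X, U) X.functionField L := IsScalarTower.of_algebraMap_eq' rfl
    have hfr : IsFractionRing Γ(X, U) X.functionField :=
      functionField_isFractionRing_of_isAffineOpen X U hU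
    obtain ⟨δ, hδ, hcore⟩ := p10_core Γ(X, U) X.functionField L
    have hfin : ((Ideal.span {δ} : Ideal Γ(X, U)).minimalPrimes).Finite :=
      Ideal.finite_minimalPrimes_of_isNoetherianRing _ _
    have hfin2 : {P : PrimeSpectrum Γ(X, U) |
        P.asIdeal ∈ (Ideal.span {δ} : Ideal Γ(X, U)).minimalPrimes}.Finite := by
      refine Set.Finite.preimage ?_ hfin
      intro P _ Q _ h
      exact PrimeSpectrum.ext h
    refine (hfin2.image (fun P => hU.fromSpec P)).subset ?_
    rintro y ⟨hyU, hdim, hpres⟩
    refine ⟨hU.primeIdealOf ⟨y, hyU⟩, ?_, hU.fromSpec_primeIdealOf ⟨y, hyU⟩⟩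
    let P : Ideal Γ(X, U) := (hU.primeIdealOf ⟨y, hyU⟩).asIdeal
    have hPp : P.IsPrime := (hU.primeIdealOf ⟨y, hyU⟩).isPrime
    let _i1 : Algebra Γ(X, U) (X.presheaf.stalk y) :=
      TopCat.Presheaf.algebra_section_stalk X.presheaf (⟨y, hyU⟩ : U)
    have hlocal : IsLocalization.AtPrime (X.presheaf.stalk y) P :=
      hU.isLocalization_stalk ⟨y, hyU⟩
    have hht : P.height = 1 := by
      have h1 := IsLocalization.AtPrime.ringKrullDim_eq_height P (X.presheaf.stalk y)
      rw [hdim] at h1
      exact_mod_cast h1.symm
    change P ∈ (Ideal.span {δ} : Ideal Γ(X, U)).minimalPrimes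
    refine p10_minimal Γ(X, U) δ hδ P hht ?_
    by_contra hmem
    apply hpres
    have hunit : IsUnit (algebraMap Γ(X, U) (X.presheaf.stalk y) δ) :=
      IsLocalization.map_units (M := P.primeCompl) (X.presheaf.stalk y) ⟨δ, hmem⟩
    have htow : IsScalarTower Γ(X, U) (X.presheaf.stalk y) X.functionField :=
      functionField_isScalarTower X U ⟨y, hyU⟩
    let _i2 : Algebra (X.presheaf.stalk y) L := (stalkTo j y).toAlgebra
    have htow2 : IsScalarTower (X.presheaf.stalk y) X.functionField L :=
      IsScalarTower.of_algebraMap_eq' rfl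
    have hi : IsIntegrallyClosed (X.presheaf.stalk y) :=
      isIntegrallyClosed_of_isLocalization (R := Γ(X, U)) _ P.primeCompl
        (Ideal.primeCompl_le_nonZeroDivisors _)
    intro D hD b hb
    exact hcore (X.presheaf.stalk y) hunit D hD b hb
  choose U hxU hUfin using hloc
  obtain ⟨t, ht⟩ := isCompact_univ.elim_finite_subcover (fun x : X => (U x : Set X))
    (fun x => (U x).isOpen) (fun x _ => Set.mem_iUnion.mpr ⟨x, hxU x⟩)
  refine (Set.Finite.biUnion t.finite_toSet (fun x _ => hUfin x)).subset ?_
  rintro y ⟨h1, h2⟩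
  obtain ⟨x, hx⟩ := Set.mem_iUnion.mp (ht (Set.mem_univ y))
  obtain ⟨hxt, hyx⟩ := Set.mem_iUnion.mp hx
  exact Set.mem_biUnion hxt ⟨hyx, h1, h2⟩

end Pool.Agent.LibHP
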