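import Pool.Agent.LibHPF.P7b

/-! # Row P9: new constants

By contradiction: if every element of `L` algebraic over `k` comes from `k`, then by
`finEt_of_presAt` (LibHP/S2.lean; with the charts of `exists_etale_chart f x`, exactly as in
`main_unirational`, LibHP/S3.lean) and `surjective_of_finEt_closed` the map `K → L` is surjective, so
`finrank K L = 1`, against `2 ≤ finrank K L`. -/

set_option autoImplicit false
open AlgebraicGeometry CategoryTheory

namespace Pool.Agent.LibHP

theorem exists_const_of_presAt {k : Type} [Field k] [CharZero k] {X : Scheme}
    (f : X ⟶ Spec (CommRingCat.of k)) [IsIntegral X] [Smooth f] [IsSeparated f] [QuasiCompact f]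
    (hsc : GeomSimplyConnected f) (L : Type) [Field L] [Algebra X.functionField L]
    [FiniteDimensional X.functionField L] (h2 : 2 ≤ Module.finrank X.functionField L)
    (hpres : ∀ x : X, ringKrullDim (X.presheaf.stalk x) = 1 →
      PresAt (algebraMap X.functionField L) x) :
    ∃ α : L, (∃ h : Polynomial k, h ≠ 0 ∧
        h.eval₂ ((algebraMap X.functionField L).comp (toStalk f (genericPoint X))) α = 0) ∧
      ∀ c : k, algebraMap X.functionField L (toStalk f (genericPoint X) c) ≠ α := by
  by_contra hcon
  push_neg at hcon
  let j : X.functionField →+* L := algebraMap _ L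
  have hjfin : j.Finite := by
    rw [RingHom.finite_algebraMap]; infer_instance
  have hsurj : Function.Surjective j := by
    refine surjective_of_finEt_closed f hsc L j hjfin hcon ?_
    intro x
    obtain ⟨U, hU, hx, m, ψ, hψ⟩ := exists_etale_chart f x
    exact ⟨U, hU, hx, finEt_of_presAt j hjfin hpres x U hU hx m ψ hψ⟩
  have h1 : Module.finrank X.functionField L = 1 := by
    have e : X.functionField ≃ₗ[X.functionField] L :=
      LinearEquiv.ofBijective (Algebra.linearMap X.functionField L)
        ⟨j.injective, hsurj⟩
    rw [← e.finrank_eq, Module.finrank_self]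
  omega

end Pool.Agent.LibHP
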