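import Pool.Agent.LibHPF.P1
import Pool.Agent.LibHPF.P6
import Pool.Agent.LibHPF.P9
import Pool.Agent.LibHPF.P10

/-! # Row P11: the criterion -/

set_option autoImplicit false
open AlgebraicGeometry CategoryTheory

namespace Pool.Agent.LibHP

/-- the finite set of monic irreducible divisors -/
theorem P11_finite_divisors {K : Type} [Field K] (p : Polynomial K) (hp : p ≠ 0) :
    {q : Polynomial K | Irreducible q ∧ q.Monic ∧ q ∣ p}.Finite := by
  classical
  refine Set.Finite.subset (UniqueFactorizationMonoid.normalizedFactors p).toFinset.finite_toSet ?_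
  rintro q ⟨hq, hm, hd⟩
  rw [Finset.mem_coe, Multiset.mem_toFinset, UniqueFactorizationMonoid.mem_normalizedFactors_iff' hp]
  exact ⟨hq, hm.normalize_eq_self, hd⟩

theorem main_moves (k : Type) [Field k] [NumberField k] {X : Scheme}
    (f : X ⟶ Spec (CommRingCat.of k)) [IsIntegral X] [Smooth f] [IsSeparated f] [QuasiCompact f]
    (hsc : GeomSimplyConnected f)
    (H : ∀ S : Finset X, (∀ x ∈ S, ringKrullDim (X.presheaf.stalk x) = 1) →
      ∃ (M : Type) (_ : Field M) (_ : Algebra k M) (r : ℕ) (σ : X.functionField →+* RF M r),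
        DensePts k M ∧ (∀ c : k, σ (toStalk f (genericPoint X) c) = algebraMap k (RF M r) c) ∧
        ClosedIn σ ∧
        ∀ (L : Type) [Field L] [Algebra X.functionField L] [FiniteDimensional X.functionField L],
          AllEmb σ L → ∀ x ∈ S, PresAt (algebraMap X.functionField L) x) :
    HilbertProp f := by
  apply hilbertProp_of_points k f
  intro A _ _ _ _ _ _ _ hA ι _ P hP hroot
  let T : Polynomial X.functionField → Set X := fun q =>
    {x | ringKrullDim (X.presheaf.stalk x) = 1 ∧ ∃ _ : Fact (Irreducible q),
      ¬ PresAt (algebraMap X.functionField (AdjoinRoot q)) x}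
  have hT : ∀ q : Polynomial X.functionField, (T q).Finite := by
    intro q
    by_cases hq : Irreducible q
    · haveI : Fact (Irreducible q) := ⟨hq⟩
      haveI : FiniteDimensional X.functionField (AdjoinRoot q) :=
        (AdjoinRoot.powerBasis hq.ne_zero).finite
      refine (finite_not_presAt f (AdjoinRoot q)).subset ?_
      rintro x ⟨hx1, _, hx2⟩
      exact ⟨hx1, hx2⟩
    · refine Set.Finite.subset Set.finite_empty ?_
      rintro x ⟨_, h, _⟩
      exact hq h.out
  let Q : ι → Set (Polynomial X.functionField) := fun i =>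
    {q | Irreducible q ∧ q.Monic ∧ q ∣ (P i).map (algebraMap A X.functionField)}
  have hQ : ∀ i, (Q i).Finite := fun i =>
    P11_finite_divisors _ ((hP i).map (algebraMap A X.functionField)).ne_zero
  have hfin : (⋃ i, ⋃ q ∈ Q i, T q).Finite :=
    Set.finite_iUnion fun i => (hQ i).biUnion fun q _ => hT q
  obtain ⟨M, _, _, r, σ, hM, hσ, hcl, hL⟩ := H hfin.toFinset (by
    intro x hx
    rw [Set.Finite.mem_toFinset] at hx
    simp only [Set.mem_iUnion] at hx
    obtain ⟨i, q, _, hx⟩ := hx
    exact hx.1)
  letI : Algebra k X.functionField := (toStalk f (genericPoint X)).toAlgebra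
  haveI : IsScalarTower k A X.functionField := IsScalarTower.of_algebraMap_eq fun c => (hA c).symm
  refine exists_point_of_moves k X.functionField M hM r σ hσ hcl A ι P hP hroot ?_
  intro i q hq hqm hq2 hqd hall
  haveI : FiniteDimensional X.functionField (AdjoinRoot q) :=
    (AdjoinRoot.powerBasis hq.out.ne_zero).finite
  have hrank : Module.finrank X.functionField (AdjoinRoot q) = q.natDegree := by
    rw [(AdjoinRoot.powerBasis hq.out.ne_zero).finrank, AdjoinRoot.powerBasis_dim]
  refine exists_const_of_presAt f hsc (AdjoinRoot q) (by rw [hrank]; exact hq2) ?_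
  intro x hx
  by_contra hcon
  refine hcon (hL (AdjoinRoot q) hall x ?_)
  rw [Set.Finite.mem_toFinset]
  simp only [Set.mem_iUnion]
  exact ⟨i, q, ⟨hq.out, hqm, hqd⟩, hx, hq, hcon⟩

end Pool.Agent.LibHP
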