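import Pool.Agent.LibHPF.Q0

set_option autoImplicit false
open MvPolynomial

namespace Pool.Agent.LibHP

/-!
# Row Q1: every quartic form in characteristic zero comes from a symmetric tensor
-/

theorem Q1_comm {k : Type} [Field k] {n : ℕ} (i j : Fin (n + 1))
    (F : MvPolynomial (Fin (n + 1)) k) : pderiv i (pderiv j F) = pderiv j (pderiv i F) := by
  have h : ⁅(pderiv i : Derivation k (MvPolynomial (Fin (n + 1)) k)
      (MvPolynomial (Fin (n + 1)) k)), (pderiv j : Derivation k (MvPolynomial (Fin (n + 1)) k)
      (MvPolynomial (Fin (n + 1)) k))⁆ = 0 := by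
    refine MvPolynomial.derivation_ext fun s => ?_
    rw [Derivation.commutator_apply, pderiv_X, pderiv_X, Derivation.zero_apply]
    by_cases h1 : s = j <;> by_cases h2 : s = i
    · subst h1; subst h2; simp
    · subst h1; simp [Pi.single_eq_of_ne h2]
    · subst h2; simp [Pi.single_eq_of_ne h1]
    · simp [Pi.single_eq_of_ne h1, Pi.single_eq_of_ne h2]
  have h2 := DFunLike.congr_fun h F
  rw [Derivation.commutator_apply, Derivation.zero_apply, sub_eq_zero] at h2
  exact h2

theorem exists_tensor (k : Type) [Field k] [CharZero k] (n : ℕ)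
    (F : MvPolynomial (Fin (n + 1)) k) (hF : F.IsHomogeneous 4) :
    ∃ φ : Tens k n, IsSymm4 φ ∧ FF φ = F := by
  refine ⟨fun i j s t => (24 : k)⁻¹ *
    constantCoeff (pderiv i (pderiv j (pderiv s (pderiv t F)))), ?_, ?_⟩
  · intro i j s t
    refine ⟨?_, ?_, ?_⟩
    · simp only
      rw [Q1_comm j i]
    · simp only
      rw [Q1_comm s j]
    · simp only
      rw [Q1_comm t s]
  · have h4 : ∀ i j s t, pderiv i (pderiv j (pderiv s (pderiv t F))) =
        C (constantCoeff (pderiv i (pderiv j (pderiv s (pderiv t F))))) := by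
      intro i j s t
      have h := ((((hF.pderiv (i := t)).pderiv (i := s)).pderiv (i := j)).pderiv (i := i))
      have h0 := h.totalDegree_le
      exact (totalDegree_eq_zero_iff_eq_C.1 (Nat.le_zero.1 h0))
    have e1 := hF.sum_X_mul_pderiv
    have e2 : ∀ t, ∑ s, X s * pderiv s (pderiv t F) = 3 • pderiv t F := fun t =>
      (hF.pderiv (i := t)).sum_X_mul_pderiv
    have e3 : ∀ s t, ∑ j, X j * pderiv j (pderiv s (pderiv t F)) = 2 • pderiv s (pderiv t F) :=
      fun s t => ((hF.pderiv (i := t)).pderiv (i := s)).sum_X_mul_pderiv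
    have e4 : ∀ j s t, ∑ i, X i * pderiv i (pderiv j (pderiv s (pderiv t F))) =
        1 • pderiv j (pderiv s (pderiv t F)) :=
      fun j s t => (((hF.pderiv (i := t)).pderiv (i := s)).pderiv (i := j)).sum_X_mul_pderiv
    have e5 : (24 : MvPolynomial (Fin (n + 1)) k) * F =
        ∑ t, X t * ∑ s, X s * ∑ j, X j * ∑ i, X i *
          pderiv i (pderiv j (pderiv s (pderiv t F))) := by
      simp only [e4, one_smul, e3, e2, e1, mul_smul_comm, ← Finset.smul_sum]
      simp only [nsmul_eq_mul]
      push_cast
      ring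
    have e6 : C (24 : k)⁻¹ * (24 : MvPolynomial (Fin (n + 1)) k) = 1 := by
      rw [show (24 : MvPolynomial (Fin (n + 1)) k) = C (24 : k) from (map_ofNat C 24).symm, ← C_mul,
        inv_mul_cancel₀ (by norm_num), C_1]
    calc FF (fun i j s t => (24 : k)⁻¹ *
          constantCoeff (pderiv i (pderiv j (pderiv s (pderiv t F)))))
        = C (24 : k)⁻¹ * ∑ t, X t * ∑ s, X s * ∑ j, X j * ∑ i, X i *
          pderiv i (pderiv j (pderiv s (pderiv t F))) := by
          unfold FF Phi
          simp only [Finset.mul_sum]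
          refine Finset.sum_congr rfl fun i _ => Finset.sum_congr rfl fun j _ =>
            Finset.sum_congr rfl fun s _ => Finset.sum_congr rfl fun t _ => ?_
          have h6 : pderiv t (pderiv s (pderiv j (pderiv i F))) =
              pderiv i (pderiv j (pderiv s (pderiv t F))) := by
            rw [Q1_comm j i F, Q1_comm s i, Q1_comm t i, Q1_comm s j F, Q1_comm t j,
              Q1_comm t s F]
          rw [h6, h4 i j s t, map_mul]
          simp only [algebraMap_eq, constantCoeff_C]
          ring
      _ = F := by rw [← e5, ← mul_assoc, e6, one_mul]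

end Pool.Agent.LibHP
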