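import Pool.Agent.LibHP2.A2

set_option autoImplicit false
open MvPolynomial

namespace Pool.Agent.LibHP

/-! ### Quartic forms as symmetric tensors -/

/-- Tensors with four indices in `n + 1` variables. -/
abbrev Tens (k : Type) (n : ℕ) : Type :=
  Fin (n + 1) → Fin (n + 1) → Fin (n + 1) → Fin (n + 1) → k

section Def
variable {k : Type} [Field k] {n : ℕ} (φ : Tens k n)
variable {R S : Type} [CommRing R] [Algebra k R] [CommRing S] [Algebra k S]

/-- The quadrilinear form with coefficients `φ`, on vectors with entries in a `k`-algebra. -/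
noncomputable def Phi (a b c d : Fin (n + 1) → R) : R :=
  ∑ i, ∑ j, ∑ s, ∑ t, algebraMap k R (φ i j s t) * (a i * b j * c s * d t)

/-- The tensor is symmetric. -/
def IsSymm4 : Prop :=
  ∀ i j s t, φ j i s t = φ i j s t ∧ φ i s j t = φ i j s t ∧ φ i j t s = φ i j s t

/-- The quartic polynomial `φ(x, x, x, x)`. -/
noncomputable def FF : MvPolynomial (Fin (n + 1)) k := Phi φ X X X X

/-- The quartic hypersurface `φ(x, x, x, x) = 0` of projective space is smooth. -/
def Smooth4 : Prop :=
  ∀ x : Fin (n + 1) → AlgebraicClosure k, (∀ a, Phi φ x x x a = 0) → x = 0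

/-- `P` is a generic point of the affine cone `φ(x, x, x, x) = 0`. -/
def IsGenCone {K : Type} [Field K] [Algebra k K] (P : Fin (n + 1) → K) : Prop :=
  ∀ G : MvPolynomial (Fin (n + 1)) k, aeval P G = 0 ↔ FF φ ∣ G

/-- `P` is a generic point of the projective hypersurface `φ(x, x, x, x) = 0`, with first
coordinate `1`. -/
def IsGenPt {K : Type} [Field K] [Algebra k K] (P : Fin (n + 1) → K) : Prop :=
  P 0 = 1 ∧ ∀ (d : ℕ) (G : MvPolynomial (Fin (n + 1)) k), G.IsHomogeneous d →
    (aeval P G = 0 ↔ FF φ ∣ G)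

/-- Every element of `K` is a fraction in the coordinates of `P`. -/
def GenBy (k : Type) [Field k] {σ K : Type} [Field K] [Algebra k K] (P : σ → K) : Prop :=
  ∀ z : K, ∃ G H : MvPolynomial σ k, aeval P H ≠ 0 ∧ z * aeval P H = aeval P G

/-! ### Linearity -/

theorem Phi_add1 (a a' b c d : Fin (n + 1) → R) :
    Phi φ (a + a') b c d = Phi φ a b c d + Phi φ a' b c d := by
  simp only [Phi, ← Finset.sum_add_distrib, Pi.add_apply]
  refine Finset.sum_congr rfl fun i _ => Finset.sum_congr rfl fun j _ =>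
    Finset.sum_congr rfl fun s _ => Finset.sum_congr rfl fun t _ => by ring

theorem Phi_add2 (a b b' c d : Fin (n + 1) → R) :
    Phi φ a (b + b') c d = Phi φ a b c d + Phi φ a b' c d := by
  simp only [Phi, ← Finset.sum_add_distrib, Pi.add_apply]
  refine Finset.sum_congr rfl fun i _ => Finset.sum_congr rfl fun j _ =>
    Finset.sum_congr rfl fun s _ => Finset.sum_congr rfl fun t _ => by ring

theorem Phi_add3 (a b c c' d : Fin (n + 1) → R) :
    Phi φ a b (c + c') d = Phi φ a b c d + Phi φ a b c' d := by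
  simp only [Phi, ← Finset.sum_add_distrib, Pi.add_apply]
  refine Finset.sum_congr rfl fun i _ => Finset.sum_congr rfl fun j _ =>
    Finset.sum_congr rfl fun s _ => Finset.sum_congr rfl fun t _ => by ring

theorem Phi_add4 (a b c d d' : Fin (n + 1) → R) :
    Phi φ a b c (d + d') = Phi φ a b c d + Phi φ a b c d' := by
  simp only [Phi, ← Finset.sum_add_distrib, Pi.add_apply]
  refine Finset.sum_congr rfl fun i _ => Finset.sum_congr rfl fun j _ =>
    Finset.sum_congr rfl fun s _ => Finset.sum_congr rfl fun t _ => by ring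

theorem Phi_smul1 (r : R) (a b c d : Fin (n + 1) → R) :
    Phi φ (r • a) b c d = r * Phi φ a b c d := by
  simp only [Phi, Finset.mul_sum, Pi.smul_apply, smul_eq_mul]
  refine Finset.sum_congr rfl fun i _ => Finset.sum_congr rfl fun j _ =>
    Finset.sum_congr rfl fun s _ => Finset.sum_congr rfl fun t _ => by ring

theorem Phi_smul2 (r : R) (a b c d : Fin (n + 1) → R) :
    Phi φ a (r • b) c d = r * Phi φ a b c d := by
  simp only [Phi, Finset.mul_sum, Pi.smul_apply, smul_eq_mul]
  refine Finset.sum_congr rfl fun i _ => Finset.sum_congr rfl fun j _ =>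
    Finset.sum_congr rfl fun s _ => Finset.sum_congr rfl fun t _ => by ring

theorem Phi_smul3 (r : R) (a b c d : Fin (n + 1) → R) :
    Phi φ a b (r • c) d = r * Phi φ a b c d := by
  simp only [Phi, Finset.mul_sum, Pi.smul_apply, smul_eq_mul]
  refine Finset.sum_congr rfl fun i _ => Finset.sum_congr rfl fun j _ =>
    Finset.sum_congr rfl fun s _ => Finset.sum_congr rfl fun t _ => by ring

theorem Phi_smul4 (r : R) (a b c d : Fin (n + 1) → R) :
    Phi φ a b c (r • d) = r * Phi φ a b c d := by
  simp only [Phi, Finset.mul_sum, Pi.smul_apply, smul_eq_mul]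
  refine Finset.sum_congr rfl fun i _ => Finset.sum_congr rfl fun j _ =>
    Finset.sum_congr rfl fun s _ => Finset.sum_congr rfl fun t _ => by ring

theorem Phi_neg1 (a b c d : Fin (n + 1) → R) : Phi φ (-a) b c d = -Phi φ a b c d := by
  rw [← neg_one_smul R a, Phi_smul1, neg_one_mul]

theorem Phi_neg2 (a b c d : Fin (n + 1) → R) : Phi φ a (-b) c d = -Phi φ a b c d := by
  rw [← neg_one_smul R b, Phi_smul2, neg_one_mul]

theorem Phi_neg3 (a b c d : Fin (n + 1) → R) : Phi φ a b (-c) d = -Phi φ a b c d := by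
  rw [← neg_one_smul R c, Phi_smul3, neg_one_mul]

theorem Phi_neg4 (a b c d : Fin (n + 1) → R) : Phi φ a b c (-d) = -Phi φ a b c d := by
  rw [← neg_one_smul R d, Phi_smul4, neg_one_mul]

theorem Phi_sub1 (a a' b c d : Fin (n + 1) → R) :
    Phi φ (a - a') b c d = Phi φ a b c d - Phi φ a' b c d := by
  rw [sub_eq_add_neg, Phi_add1, Phi_neg1, sub_eq_add_neg]

theorem Phi_sub2 (a b b' c d : Fin (n + 1) → R) :
    Phi φ a (b - b') c d = Phi φ a b c d - Phi φ a b' c d := by
  rw [sub_eq_add_neg, Phi_add2, Phi_neg2, sub_eq_add_neg]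

theorem Phi_sub3 (a b c c' d : Fin (n + 1) → R) :
    Phi φ a b (c - c') d = Phi φ a b c d - Phi φ a b c' d := by
  rw [sub_eq_add_neg, Phi_add3, Phi_neg3, sub_eq_add_neg]

theorem Phi_sub4 (a b c d d' : Fin (n + 1) → R) :
    Phi φ a b c (d - d') = Phi φ a b c d - Phi φ a b c d' := by
  rw [sub_eq_add_neg, Phi_add4, Phi_neg4, sub_eq_add_neg]

/-- The last slot as a linear functional. -/
noncomputable def PhiL (a b c : Fin (n + 1) → R) : (Fin (n + 1) → R) →ₗ[R] R where
  toFun d := Phi φ a b c d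
  map_add' d d' := Phi_add4 φ a b c d d'
  map_smul' r d := Phi_smul4 φ r a b c d

@[simp] theorem PhiL_apply (a b c d : Fin (n + 1) → R) : PhiL φ a b c d = Phi φ a b c d := rfl

theorem Phi_zero4 (a b c : Fin (n + 1) → R) : Phi φ a b c 0 = 0 := (PhiL φ a b c).map_zero

/-- Expansion in the last slot. -/
theorem Phi_eq_sum (a b c d : Fin (n + 1) → R) :
    Phi φ a b c d = ∑ i, d i * Phi φ a b c (Pi.single i 1) := by
  have h := (PhiL φ a b c).pi_apply_eq_sum_univ d
  simp only [PhiL_apply, smul_eq_mul] at h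
  rw [h]
  refine Finset.sum_congr rfl fun i _ => ?_
  congr 2
  funext j
  rw [Pi.single_apply]
  simp only [eq_comm]

/-! ### Symmetry -/

variable {φ} in
theorem Phi_comm12 (hφ : IsSymm4 φ) (a b c d : Fin (n + 1) → R) :
    Phi φ a b c d = Phi φ b a c d := by
  unfold Phi
  rw [Finset.sum_comm]
  refine Finset.sum_congr rfl fun i _ => Finset.sum_congr rfl fun j _ =>
    Finset.sum_congr rfl fun s _ => Finset.sum_congr rfl fun t _ => ?_
  rw [(hφ i j s t).1]
  ring

variable {φ} in
theorem Phi_comm23 (hφ : IsSymm4 φ) (a b c d : Fin (n + 1) → R) :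
    Phi φ a b c d = Phi φ a c b d := by
  unfold Phi
  refine Finset.sum_congr rfl fun i _ => ?_
  rw [Finset.sum_comm]
  refine Finset.sum_congr rfl fun j _ =>
    Finset.sum_congr rfl fun s _ => Finset.sum_congr rfl fun t _ => ?_
  rw [(hφ i j s t).2.1]
  ring

variable {φ} in
theorem Phi_comm34 (hφ : IsSymm4 φ) (a b c d : Fin (n + 1) → R) :
    Phi φ a b c d = Phi φ a b d c := by
  unfold Phi
  refine Finset.sum_congr rfl fun i _ => Finset.sum_congr rfl fun j _ => ?_
  rw [Finset.sum_comm]
  refine Finset.sum_congr rfl fun s _ => Finset.sum_congr rfl fun t _ => ?_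
  rw [(hφ i j s t).2.2]
  ring

/-! ### Base change and derivations -/

theorem Phi_map (f : R →ₐ[k] S) (a b c d : Fin (n + 1) → R) :
    f (Phi φ a b c d) =
      Phi φ (fun i => f (a i)) (fun i => f (b i)) (fun i => f (c i)) (fun i => f (d i)) := by
  simp only [Phi, map_sum, map_mul, AlgHom.commutes]

theorem Phi_map_ringHom (f : R →+* S) (hf : ∀ c : k, f (algebraMap k R c) = algebraMap k S c)
    (a b c d : Fin (n + 1) → R) :
    f (Phi φ a b c d) =
      Phi φ (fun i => f (a i)) (fun i => f (b i)) (fun i => f (c i)) (fun i => f (d i)) := by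
  simp only [Phi, map_sum, map_mul, hf]

theorem Phi_deriv (D : Derivation k R R) (a b c d : Fin (n + 1) → R) :
    D (Phi φ a b c d) = Phi φ (fun i => D (a i)) b c d + Phi φ a (fun i => D (b i)) c d +
      Phi φ a b (fun i => D (c i)) d + Phi φ a b c (fun i => D (d i)) := by
  simp only [Phi, map_sum, ← Finset.sum_add_distrib]
  refine Finset.sum_congr rfl fun i _ => Finset.sum_congr rfl fun j _ =>
    Finset.sum_congr rfl fun s _ => Finset.sum_congr rfl fun t _ => ?_
  simp only [Derivation.leibniz, Derivation.map_algebraMap, smul_eq_mul]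
  ring

variable {φ} in
/-- The derivative of `φ(a, a, a, a)`. -/
theorem Phi_deriv4 (hφ : IsSymm4 φ) (D : Derivation k R R) (a : Fin (n + 1) → R) :
    D (Phi φ a a a a) = 4 * Phi φ a a a (fun i => D (a i)) := by
  rw [Phi_deriv, Phi_comm12 hφ (fun i => D (a i)), Phi_comm23 hφ a (fun i => D (a i)),
    Phi_comm34 hφ a a (fun i => D (a i))]
  ring

/-! ### The quartic polynomial -/

theorem aeval_Phi (x : Fin (n + 1) → R) (a b c d : Fin (n + 1) → MvPolynomial (Fin (n + 1)) k) :
    aeval x (Phi φ a b c d) = Phi φ (fun i => aeval x (a i)) (fun i => aeval x (b i))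
      (fun i => aeval x (c i)) (fun i => aeval x (d i)) :=
  Phi_map φ (aeval x) a b c d

theorem aeval_FF (x : Fin (n + 1) → R) : aeval x (FF φ) = Phi φ x x x x := by
  unfold FF
  rw [aeval_Phi]
  simp only [aeval_X]

theorem isHomogeneous_FF : (FF φ).IsHomogeneous 4 := by
  unfold FF Phi
  refine IsHomogeneous.sum _ _ _ fun i _ => IsHomogeneous.sum _ _ _ fun j _ =>
    IsHomogeneous.sum _ _ _ fun s _ => IsHomogeneous.sum _ _ _ fun t _ => ?_
  have h : (4 : ℕ) = 0 + (1 + 1 + 1 + 1) := by norm_num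
  rw [h]
  exact (isHomogeneous_C _ _).mul
    ((((isHomogeneous_X k i).mul (isHomogeneous_X k j)).mul (isHomogeneous_X k s)).mul
      (isHomogeneous_X k t))

variable {φ} in
/-- The partial derivatives of the quartic polynomial. -/
theorem aeval_pderiv_FF (hφ : IsSymm4 φ) (x : Fin (n + 1) → R) (i : Fin (n + 1)) :
    aeval x (pderiv i (FF φ)) = 4 * Phi φ x x x (Pi.single i 1) := by
  unfold FF
  rw [Phi_deriv4 hφ, map_mul, aeval_Phi, map_ofNat]
  simp only [aeval_X]
  congr 2
  funext j
  rw [pderiv_X]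
  by_cases h : j = i
  · subst h; simp
  · rw [Pi.single_eq_of_ne h, Pi.single_eq_of_ne h, map_zero]

variable {φ} in
theorem sum_pderiv_FF (hφ : IsSymm4 φ) (x c : Fin (n + 1) → R) :
    ∑ i, c i * aeval x (pderiv i (FF φ)) = 4 * Phi φ x x x c := by
  rw [Phi_eq_sum φ x x x c, Finset.mul_sum]
  refine Finset.sum_congr rfl fun i _ => ?_
  rw [aeval_pderiv_FF hφ]
  ring

end Def

/-! ### The move -/

section Move
variable {k : Type} [Field k] {n : ℕ} (φ : Tens k n)
variable {R S : Type} [CommRing R] [Algebra k R] [CommRing S] [Algebra k S]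

/-- Projection of `z` along `e` to the tangent hyperplane at `P` (up to a scalar). -/
noncomputable def prj (P e z : Fin (n + 1) → R) : Fin (n + 1) → R :=
  Phi φ P P P e • z - Phi φ P P P z • e

/-- The second fundamental form at `P` of the projection of `Y`. -/
noncomputable def qW (P e Y : Fin (n + 1) → R) : R := Phi φ P P (prj φ P e Y) (prj φ P e Y)

/-- The second intersection point with the cone of asymptotic directions of the line through the
isotropic vector `w` and the vector `z`. -/
noncomputable def st (P w z : Fin (n + 1) → R) : Fin (n + 1) → R :=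
  Phi φ P P z z • w - (2 * Phi φ P P w z) • z

/-- The fourth intersection point with the quartic of the line through `P` and `v`, for an
asymptotic direction `v`. -/
noncomputable def mv (P v : Fin (n + 1) → R) : Fin (n + 1) → R :=
  Phi φ v v v v • P - (4 * Phi φ P v v v) • v

/-- The move attached to the point `W` of the cone over the quadric, and the free vector `z`. -/
noncomputable def mvz (P e W z : Fin (n + 1) → R) : Fin (n + 1) → R :=
  mv φ P (st φ P (prj φ P e W) (prj φ P e z))

theorem prj_map (f : R →ₐ[k] S) (P e z : Fin (n + 1) → R) (i : Fin (n + 1)) :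
    f (prj φ P e z i) = prj φ (fun j => f (P j)) (fun j => f (e j)) (fun j => f (z j)) i := by
  simp only [prj, Pi.sub_apply, Pi.smul_apply, smul_eq_mul, map_sub, map_mul, Phi_map]

theorem qW_map (f : R →ₐ[k] S) (P e z : Fin (n + 1) → R) :
    f (qW φ P e z) = qW φ (fun j => f (P j)) (fun j => f (e j)) (fun j => f (z j)) := by
  simp only [qW, Phi_map, prj_map]

theorem st_map (f : R →ₐ[k] S) (P w z : Fin (n + 1) → R) (i : Fin (n + 1)) :
    f (st φ P w z i) = st φ (fun j => f (P j)) (fun j => f (w j)) (fun j => f (z j)) i := by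
  simp only [st, Pi.sub_apply, Pi.smul_apply, smul_eq_mul, map_sub, map_mul, Phi_map, map_ofNat]

theorem mv_map (f : R →ₐ[k] S) (P v : Fin (n + 1) → R) (i : Fin (n + 1)) :
    f (mv φ P v i) = mv φ (fun j => f (P j)) (fun j => f (v j)) i := by
  simp only [mv, Pi.sub_apply, Pi.smul_apply, smul_eq_mul, map_sub, map_mul, Phi_map, map_ofNat]

theorem mvz_map (f : R →ₐ[k] S) (P e W z : Fin (n + 1) → R) (i : Fin (n + 1)) :
    f (mvz φ P e W z i) = mvz φ (fun j => f (P j)) (fun j => f (e j)) (fun j => f (W j))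
      (fun j => f (z j)) i := by
  simp only [mvz, mv_map, st_map, prj_map]

variable {φ} in
theorem Phi_prj (P e z : Fin (n + 1) → R) : Phi φ P P P (prj φ P e z) = 0 := by
  simp only [prj, Phi_sub4, Phi_smul4]
  ring

variable {φ} in
/-- The stereographic vector is tangent and isotropic. -/
theorem Phi_st1 (P w z : Fin (n + 1) → R) (hw : Phi φ P P P w = 0) (hz : Phi φ P P P z = 0) :
    Phi φ P P P (st φ P w z) = 0 := by
  simp only [st, Phi_sub4, Phi_smul4, hw, hz]
  ring

variable {φ} in
theorem Phi_st2 (hφ : IsSymm4 φ) (P w z : Fin (n + 1) → R) (hw : Phi φ P P w w = 0) :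
    Phi φ P P (st φ P w z) (st φ P w z) = 0 := by
  simp only [st, Phi_sub4, Phi_smul4, Phi_sub3, Phi_smul3, hw, Phi_comm34 hφ P P z w]
  ring

variable {φ} in
/-- The residual point lies on the quartic. -/
theorem Phi_mv (hφ : IsSymm4 φ) (P v : Fin (n + 1) → R) (h0 : Phi φ P P P P = 0)
    (h1 : Phi φ P P P v = 0) (h2 : Phi φ P P v v = 0) :
    Phi φ (mv φ P v) (mv φ P v) (mv φ P v) (mv φ P v) = 0 := by
  have e1 : Phi φ P P v P = Phi φ P P P v := Phi_comm34 hφ _ _ _ _
  have e2 : Phi φ P v P P = Phi φ P P P v := by rw [Phi_comm23 hφ P v P P, e1]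
  have e3 : Phi φ v P P P = Phi φ P P P v := by rw [Phi_comm12 hφ v P P P, e2]
  have e4 : Phi φ P v P v = Phi φ P P v v := Phi_comm23 hφ _ _ _ _
  have e5 : Phi φ P v v P = Phi φ P P v v := by rw [Phi_comm34 hφ P v v P, e4]
  have e6 : Phi φ v P P v = Phi φ P P v v := by rw [Phi_comm12 hφ v P P v, e4]
  have e7 : Phi φ v P v P = Phi φ P P v v := by rw [Phi_comm12 hφ v P v P, e5]
  have e8 : Phi φ v v P P = Phi φ P P v v := by rw [Phi_comm23 hφ v v P P, e7]
  have e9 : Phi φ v P v v = Phi φ P v v v := Phi_comm12 hφ _ _ _ _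
  have e10 : Phi φ v v P v = Phi φ P v v v := by rw [Phi_comm23 hφ v v P v, e9]
  have e11 : Phi φ v v v P = Phi φ P v v v := by rw [Phi_comm34 hφ v v v P, e10]
  simp only [mv, Phi_sub1, Phi_smul1, Phi_sub2, Phi_smul2, Phi_sub3, Phi_smul3, Phi_sub4,
    Phi_smul4, e1, e2, e3, e4, e5, e6, e7, e8, e9, e10, e11, h0, h1, h2]
  ring

end Move

end Pool.Agent.LibHP
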