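import Pool.Agent.LibHP.F1
import Pool.Agent.LibHPF.Q0

set_option autoImplicit false

namespace Pool.Agent.LibHP

variable {k : Type} [Field k] {n : ℕ} {φ : Tens k n}

/-!
# Row Q23: first order jets of the move

All vectors have entries in `RatFunc Ω`, a `k`-algebra through `Ω`; constants are `RatFunc.C`.
-/

theorem q23_sum {ι K : Type} [Field K] (s : Finset ι) (f : ι → RatFunc K) (a b : ι → K)
    (h : ∀ i, HasJet (f i) (a i) (b i)) :
    HasJet (∑ i ∈ s, f i) (∑ i ∈ s, a i) (∑ i ∈ s, b i) := by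
  classical
  induction s using Finset.induction_on with
  | empty => simpa using HasJet.C (0 : K)
  | insert i s hi ih =>
    rw [Finset.sum_insert hi, Finset.sum_insert hi, Finset.sum_insert hi]
    exact (h i).add ih

theorem q23_congr {K : Type} [Field K] {f : RatFunc K} {a b a' b' : K} (h : HasJet f a b)
    (ha : a' = a) (hb : b' = b) : HasJet f a' b' := by
  rw [ha, hb]; exact h

theorem q23_algebraMap {Ω : Type} [Field Ω] [Algebra k Ω] (c : k) :
    HasJet (algebraMap k (RatFunc Ω) c) (algebraMap k Ω c) 0 := by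
  have h : algebraMap k (RatFunc Ω) c = RatFunc.C (algebraMap k Ω c) := by
    rw [RatFunc.algebraMap_apply, Polynomial.algebraMap_apply, RatFunc.algebraMap_C]
    simp
  rw [h]
  exact HasJet.C _

theorem HasJet.Phi {Ω : Type} [Field Ω] [Algebra k Ω] (x y z w : Fin (n + 1) → RatFunc Ω)
    (x0 x1 y0 y1 z0 z1 w0 w1 : Fin (n + 1) → Ω) (hx : ∀ i, HasJet (x i) (x0 i) (x1 i))
    (hy : ∀ i, HasJet (y i) (y0 i) (y1 i)) (hz : ∀ i, HasJet (z i) (z0 i) (z1 i))
    (hw : ∀ i, HasJet (w i) (w0 i) (w1 i)) :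
    HasJet (Phi φ x y z w) (Phi φ x0 y0 z0 w0)
      (Phi φ x1 y0 z0 w0 + Phi φ x0 y1 z0 w0 + Phi φ x0 y0 z1 w0 + Phi φ x0 y0 z0 w1) := by
  unfold LibHP.Phi
  simp only [← Finset.sum_add_distrib]
  refine q23_sum _ _ _ _ fun i => q23_sum _ _ _ _ fun j => q23_sum _ _ _ _ fun s =>
    q23_sum _ _ _ _ fun t => ?_
  refine q23_congr ((q23_algebraMap (Ω := Ω) (φ i j s t)).mul
    ((((hx i).mul (hy j)).mul (hz s)).mul (hw t))) rfl ?_
  ring

theorem q23_zero1 {Ω : Type} [Field Ω] [Algebra k Ω] (b c d : Fin (n + 1) → Ω) :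
    Phi φ 0 b c d = 0 := by simp [Phi]

theorem q23_zero2 {Ω : Type} [Field Ω] [Algebra k Ω] (b c d : Fin (n + 1) → Ω) :
    Phi φ b 0 c d = 0 := by simp [Phi]

theorem q23_zero3 {Ω : Type} [Field Ω] [Algebra k Ω] (b c d : Fin (n + 1) → Ω) :
    Phi φ b c 0 d = 0 := by simp [Phi]

theorem q23_zero4 {Ω : Type} [Field Ω] [Algebra k Ω] (b c d : Fin (n + 1) → Ω) :
    Phi φ b c d 0 = 0 := by simp [Phi]

/-- The jets of the projection. -/
theorem q23_prj {Ω : Type} [Field Ω] [Algebra k Ω] (P e x β : Fin (n + 1) → Ω)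
    (z : Fin (n + 1) → RatFunc Ω) (hz : ∀ i, HasJet (z i) (x i) (β i)) (i : Fin (n + 1)) :
    HasJet (prj φ (fun j => RatFunc.C (P j)) (fun j => RatFunc.C (e j)) z i)
      (prj φ P e x i) (prj φ P e β i) := by
  have hP : ∀ i, HasJet (RatFunc.C (P i)) (P i) ((0 : Fin (n + 1) → Ω) i) := fun i => HasJet.C _
  have he : ∀ i, HasJet (RatFunc.C (e i)) (e i) ((0 : Fin (n + 1) → Ω) i) := fun i => HasJet.C _
  have h1 := HasJet.Phi (φ := φ) _ _ _ _ _ _ _ _ _ _ _ _ hP hP hP he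
  have h2 := HasJet.Phi (φ := φ) _ _ _ _ _ _ _ _ _ _ _ _ hP hP hP hz
  have h3 := (h1.mul (hz i)).add (h2.mul (he i)).neg
  simp only [prj, Pi.sub_apply, Pi.smul_apply, smul_eq_mul]
  rw [sub_eq_add_neg (_ * z i)]
  refine q23_congr h3 ?_ ?_
  · ring
  · simp only [q23_zero1, q23_zero2, q23_zero3, q23_zero4, Pi.zero_apply]
    ring

/-- The jets of the stereographic vector. -/
theorem q23_st (hφ : IsSymm4 φ) {Ω : Type} [Field Ω] [Algebra k Ω] (P w0 a b : Fin (n + 1) → Ω)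
    (w z : Fin (n + 1) → RatFunc Ω) (hw : ∀ i, HasJet (w i) (w0 i) ((0 : Fin (n + 1) → Ω) i))
    (hz : ∀ i, HasJet (z i) (a i) (b i)) (i : Fin (n + 1)) :
    HasJet (st φ (fun j => RatFunc.C (P j)) w z i) (st φ P w0 a i)
      (2 * Phi φ P P a b * w0 i - 2 * Phi φ P P w0 b * a i - 2 * Phi φ P P w0 a * b i) := by
  have hP : ∀ i, HasJet (RatFunc.C (P i)) (P i) ((0 : Fin (n + 1) → Ω) i) := fun i => HasJet.C _
  have h1 := HasJet.Phi (φ := φ) _ _ _ _ _ _ _ _ _ _ _ _ hP hP hz hz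
  have h2 := HasJet.Phi (φ := φ) _ _ _ _ _ _ _ _ _ _ _ _ hP hP hw hz
  have h0 : HasJet (2 : RatFunc Ω) 2 0 := by
    have := HasJet.C (2 : Ω)
    rwa [map_ofNat] at this
  have h3 := (h1.mul (hw i)).add ((h0.mul h2).mul (hz i)).neg
  simp only [st, Pi.sub_apply, Pi.smul_apply, smul_eq_mul]
  rw [sub_eq_add_neg (_ * w i)]
  refine q23_congr h3 ?_ ?_
  · ring
  · simp only [q23_zero1, q23_zero2, q23_zero3, q23_zero4, Pi.zero_apply]
    rw [Phi_comm34 hφ P P b a]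
    ring

/-- The jets of the residual point. -/
theorem q23_mv (hφ : IsSymm4 φ) {Ω : Type} [Field Ω] [Algebra k Ω] (P a b : Fin (n + 1) → Ω)
    (v : Fin (n + 1) → RatFunc Ω) (hv : ∀ i, HasJet (v i) (a i) (b i)) (i : Fin (n + 1)) :
    HasJet (mv φ (fun j => RatFunc.C (P j)) v i) (mv φ P a i)
      (4 * Phi φ a a a b * P i - 12 * Phi φ P a a b * a i - 4 * Phi φ P a a a * b i) := by
  have hP : ∀ i, HasJet (RatFunc.C (P i)) (P i) ((0 : Fin (n + 1) → Ω) i) := fun i => HasJet.C _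
  have h1 := HasJet.Phi (φ := φ) _ _ _ _ _ _ _ _ _ _ _ _ hv hv hv hv
  have h2 := HasJet.Phi (φ := φ) _ _ _ _ _ _ _ _ _ _ _ _ hP hv hv hv
  have h0 : HasJet (4 : RatFunc Ω) 4 0 := by
    have := HasJet.C (4 : Ω)
    rwa [map_ofNat] at this
  have h3 := (h1.mul (hP i)).add ((h0.mul h2).mul (hv i)).neg
  simp only [mv, Pi.sub_apply, Pi.smul_apply, smul_eq_mul]
  rw [sub_eq_add_neg (_ * RatFunc.C (P i))]
  have e1 : Phi φ a a b a = Phi φ a a a b := Phi_comm34 hφ _ _ _ _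
  have e2 : Phi φ a b a a = Phi φ a a a b := by rw [Phi_comm23 hφ a b a a, e1]
  have e3 : Phi φ b a a a = Phi φ a a a b := by rw [Phi_comm12 hφ b a a a, e2]
  have e4 : Phi φ P a b a = Phi φ P a a b := Phi_comm34 hφ _ _ _ _
  have e5 : Phi φ P b a a = Phi φ P a a b := by rw [Phi_comm23 hφ P b a a, e4]
  refine q23_congr h3 ?_ ?_
  · ring
  · simp only [q23_zero1, q23_zero2, q23_zero3, q23_zero4, Pi.zero_apply, e1, e2, e3, e4, e5]
    ring

theorem jets_move (hφ : IsSymm4 φ) {Ω : Type} [Field Ω] [CharZero Ω] [Algebra k Ω]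
    (P e W x β : Fin (n + 1) → Ω) (he : Phi φ P P P e ≠ 0) (h1 : Phi φ P P P x = 0)
    (h2 : Phi φ P P x x = 0) (h3 : Phi φ P x x x ≠ 0) (h4 : Phi φ x x x x = 0)
    (h5 : Phi φ x x x β = 0) (h6 : Phi φ P P P β = 0) (h7 : Phi φ P P x β = 0)
    (hW : Phi φ P P (prj φ P e W) x ≠ 0) (z : Fin (n + 1) → RatFunc Ω)
    (hz : ∀ i, HasJet (z i) (x i) (β i)) :
    ∃ c0 c1 : Ω, c0 ≠ 0 ∧ ∀ i, HasJet (mvz φ (fun j => RatFunc.C (P j)) (fun j => RatFunc.C (e j))
      (fun j => RatFunc.C (W j)) z i) (c0 * x i) (c1 * x i + c0 * β i) := by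
  set l : Ω := Phi φ P P P e with hl
  set w0 : Fin (n + 1) → Ω := prj φ P e W with hw0
  have ex : prj φ P e x = l • x := by simp only [prj, h1, zero_smul, sub_zero, ← hl]
  have eβ : prj φ P e β = l • β := by simp only [prj, h6, zero_smul, sub_zero, ← hl]
  have e0 : prj φ P e (0 : Fin (n + 1) → Ω) = 0 := by
    simp only [prj, q23_zero4, zero_smul, sub_zero, smul_zero]
  have hz' : ∀ i, HasJet (prj φ (fun j => RatFunc.C (P j)) (fun j => RatFunc.C (e j)) z i)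
      ((l • x) i) ((l • β) i) := by
    intro i
    have := q23_prj (φ := φ) P e x β z hz i
    rwa [ex, eβ] at this
  have hw : ∀ i, HasJet (prj φ (fun j => RatFunc.C (P j)) (fun j => RatFunc.C (e j))
      (fun j => RatFunc.C (W j)) i) (w0 i) ((0 : Fin (n + 1) → Ω) i) := by
    intro i
    have := q23_prj (φ := φ) P e W 0 (fun j => RatFunc.C (W j)) (fun i => HasJet.C _) i
    rwa [e0] at this
  have hv := q23_st hφ P w0 _ _ _ _ hw hz'
  set ν : Ω := -(2 * l ^ 2 * Phi φ P P w0 x) with hν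
  set ν' : Ω := -(2 * l ^ 2 * Phi φ P P w0 β) with hν'
  have hν0 : ν ≠ 0 := by
    rw [hν, neg_ne_zero]
    exact mul_ne_zero (mul_ne_zero two_ne_zero (pow_ne_zero 2 he)) hW
  have hv' : ∀ i, HasJet (st φ (fun j => RatFunc.C (P j))
      (prj φ (fun j => RatFunc.C (P j)) (fun j => RatFunc.C (e j)) (fun j => RatFunc.C (W j)))
      (prj φ (fun j => RatFunc.C (P j)) (fun j => RatFunc.C (e j)) z) i)
      ((ν • x) i) ((ν' • x + ν • β) i) := by
    intro i
    refine q23_congr (hv i) ?_ ?_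
    · simp only [st, Phi_smul3, Phi_smul4, h2, Pi.smul_apply, Pi.sub_apply, smul_eq_mul, hν]
      ring
    · simp only [Phi_smul3, Phi_smul4, h7, Pi.smul_apply, Pi.add_apply, smul_eq_mul, hν, hν']
      ring
  have hm := q23_mv hφ P _ _ _ hv'
  refine ⟨-(4 * ν ^ 3 * Phi φ P x x x * ν),
    -(12 * Phi φ P (ν • x) (ν • x) (ν' • x + ν • β) * ν) - 4 * ν ^ 3 * Phi φ P x x x * ν',
    ?_, fun i => ?_⟩
  · rw [neg_ne_zero]
    exact mul_ne_zero (mul_ne_zero (mul_ne_zero (by norm_num : (4 : Ω) ≠ 0) (pow_ne_zero 3 hν0)) h3) hν0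
  · refine q23_congr (hm i) ?_ ?_
    · simp only [mv, Phi_smul1, Phi_smul2, Phi_smul3, Phi_smul4, h4, Pi.smul_apply, Pi.sub_apply,
        smul_eq_mul]
      ring
    · simp only [Phi_smul1, Phi_smul2, Phi_smul3, Phi_smul4, Phi_add4, h4, h5, Pi.smul_apply,
        Pi.add_apply, smul_eq_mul]
      ring

theorem jets_anchor (hφ : IsSymm4 φ) {Ω : Type} [Field Ω] [Algebra k Ω]
    (P e W x v : Fin (n + 1) → Ω) (hv : v = st φ P (prj φ P e W) (prj φ P e x))
    (h3 : Phi φ P v v v = 0) (z : Fin (n + 1) → RatFunc Ω)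
    (hz : ∀ i, ∃ b, HasJet (z i) (x i) b) :
    ∀ i, ∃ b, HasJet (mvz φ (fun j => RatFunc.C (P j)) (fun j => RatFunc.C (e j))
      (fun j => RatFunc.C (W j)) z i) (Phi φ v v v v * P i) b := by
  choose β hβ using hz
  have e0 : prj φ P e (0 : Fin (n + 1) → Ω) = 0 := by
    simp only [prj, q23_zero4, zero_smul, sub_zero, smul_zero]
  have hz' := q23_prj (φ := φ) P e x β z hβ
  have hw : ∀ i, HasJet (prj φ (fun j => RatFunc.C (P j)) (fun j => RatFunc.C (e j))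
      (fun j => RatFunc.C (W j)) i) (prj φ P e W i) ((0 : Fin (n + 1) → Ω) i) := by
    intro i
    have := q23_prj (φ := φ) P e W 0 (fun j => RatFunc.C (W j)) (fun i => HasJet.C _) i
    rwa [e0] at this
  have hs := q23_st hφ P _ _ _ _ _ hw hz'
  rw [← hv] at hs
  have hm := q23_mv hφ P _ _ _ hs
  intro i
  refine ⟨_, q23_congr (hm i) ?_ rfl⟩
  simp only [mv, h3, Pi.smul_apply, Pi.sub_apply, smul_eq_mul]
  ring

end Pool.Agent.LibHP
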