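import Mathlib

set_option autoImplicit false
open MvPolynomial

namespace Pool.Agent.LibHP

/-!
# Row Q16a: quadratic forms of rank at least three are prime (only Mathlib)

PLAN. `f ≠ 0` (rank). `MvPolynomial σ Ω` is a UFD, so it is enough that `f` is irreducible. Let `f = A * B`.
Factors of a nonzero homogeneous polynomial over a domain are homogeneous (Mathlib:
`MvPolynomial.IsHomogeneous` … `of_mul`/`isHomogeneous_of_mul…`, or compare lowest and highest components), of
degrees `0 + 2`, `1 + 1` or `2 + 0`; degree `0` means a nonzero constant, a unit. If both have degree one,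
`A = ∑ a i X i`, `B = ∑ b i X i`, the matrix of second derivatives is `a ⊗ b + b ⊗ a` (entries
`a i * b j + a j * b i`), of rank at most two (`Matrix.rank_add_le`, `Matrix.rank_vecMulVec_le`),
contradiction.
-/

private theorem Q16a_second {Ω σ : Type} [Field Ω] (A : MvPolynomial σ Ω)
    (hA : A.totalDegree ≤ 1) (i j : σ) : constantCoeff (pderiv i (pderiv j A)) = 0 := by
  classical
  rw [constantCoeff_eq]
  rw [coeff_pderiv, coeff_pderiv, coeff_eq_zero_of_totalDegree_lt, zero_mul, zero_mul]
  refine lt_of_le_of_lt hA ?_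
  have h : ((0 : σ →₀ ℕ) + Finsupp.single i 1 + Finsupp.single j 1).sum (fun _ e => e) = 2 := by
    rw [zero_add, Finsupp.sum_add_index' (fun _ => rfl) (fun _ _ _ => rfl),
      Finsupp.sum_single_index rfl, Finsupp.sum_single_index rfl]
  rw [Finsupp.sum] at h
  rw [h]
  norm_num

private theorem Q16a_hess {Ω σ : Type} [Field Ω] (A B : MvPolynomial σ Ω)
    (hA : A.totalDegree ≤ 1) (hB : B.totalDegree ≤ 1) (i j : σ) :
    constantCoeff (pderiv i (pderiv j (A * B))) =
      constantCoeff (pderiv i A) * constantCoeff (pderiv j B) +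
        constantCoeff (pderiv i B) * constantCoeff (pderiv j A) := by
  rw [pderiv_mul, map_add, pderiv_mul, pderiv_mul]
  simp only [map_add, map_mul, Q16a_second A hA, Q16a_second B hB]
  ring

private theorem Q16a_rank {Ω σ : Type} [Field Ω] [Fintype σ] [DecidableEq σ]
    (A B : MvPolynomial σ Ω) (hA : A.totalDegree ≤ 1) (hB : B.totalDegree ≤ 1) :
    (Matrix.of fun i j : σ => constantCoeff (pderiv i (pderiv j (A * B)))).rank ≤ 2 := by
  have h : (Matrix.of fun i j : σ => constantCoeff (pderiv i (pderiv j (A * B)))) =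
      (Matrix.of fun (i : σ) (t : Fin 2) =>
        (![constantCoeff (pderiv i A), constantCoeff (pderiv i B)] t : Ω)) *
      (Matrix.of fun (t : Fin 2) (j : σ) =>
        (![constantCoeff (pderiv j B), constantCoeff (pderiv j A)] t : Ω)) := by
    ext i j
    rw [Matrix.mul_apply, Fin.sum_univ_two]
    simp only [Matrix.of_apply, Matrix.cons_val_zero, Matrix.cons_val_one]
    exact Q16a_hess A B hA hB i j
  rw [h]
  refine (Matrix.rank_mul_le_left _ _).trans ?_
  exact (Matrix.rank_le_card_width _).trans (by simp)

theorem prime_of_quadratic (Ω σ : Type) [Field Ω] [Fintype σ] [DecidableEq σ]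
    (f : MvPolynomial σ Ω) (hf : f.IsHomogeneous 2)
    (hr : 3 ≤ (Matrix.of fun i j : σ => constantCoeff (pderiv i (pderiv j f))).rank) :
    Prime f := by
  have hf0 : f ≠ 0 := by
    intro h
    have h1 : (Matrix.of fun i j : σ => constantCoeff (pderiv i (pderiv j f))) = 0 := by
      ext i j
      simp [h]
    rw [h1, Matrix.rank_zero] at hr
    omega
  have hdeg : f.totalDegree = 2 := hf.totalDegree hf0
  refine Irreducible.prime ⟨?_, ?_⟩
  · intro hu
    rw [MvPolynomial.isUnit_iff_totalDegree_of_isReduced] at hu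
    omega
  · intro A B hAB
    have hA0 : A ≠ 0 := by
      rintro rfl
      exact hf0 (by rw [hAB, zero_mul])
    have hB0 : B ≠ 0 := by
      rintro rfl
      exact hf0 (by rw [hAB, mul_zero])
    have hd : A.totalDegree + B.totalDegree = 2 := by
      rw [← totalDegree_mul_of_isDomain hA0 hB0, ← hAB, hdeg]
    have hunit : ∀ D : MvPolynomial σ Ω, D ≠ 0 → D.totalDegree = 0 → IsUnit D := by
      intro D hD h0
      rw [totalDegree_eq_zero_iff_eq_C] at h0
      rw [h0] at hD ⊢
      exact (isUnit_iff_ne_zero.2 fun h => hD (by rw [h, map_zero])).map C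
    by_cases h1 : A.totalDegree = 0
    · exact Or.inl (hunit A hA0 h1)
    by_cases h2 : B.totalDegree = 0
    · exact Or.inr (hunit B hB0 h2)
    exfalso
    have h3 := Q16a_rank A B (by omega) (by omega)
    rw [← hAB] at h3
    omega

end Pool.Agent.LibHP
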