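import Pool.Agent.LibHPF.Q6
import Pool.Agent.LibHPF.Q16a
import Pool.Agent.LibHPF.QD

set_option autoImplicit false
open MvPolynomial

namespace Pool.Agent.LibHP

variable {k : Type} [Field k] [CharZero k] {n : ℕ} {φ : Tens k n}

/-!
# Row Q16: the cone of asymptotic directions at the generic point is absolutely irreducible

PLAN. `quadW φ P e` is homogeneous of degree 2. Its matrix of second derivatives at `(i, j)` is
`2 * Phi φ P P (prj (single i)) (prj (single j))`, `prj = prj φ P e`. Its kernel: `v` is in the kernel iff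
`Phi φ P P (prj v) (prj a) = 0` for all `a`; as `prj a` runs through (at least `Phi φ P P P e` times) the
hyperplane `Phi φ P P P = 0`, `lemmaA'` gives `prj v = c • P`, so
`v = (Phi φ P P P e)⁻¹ • (c • P + Phi φ P P P v • e)` is in the span of `P` and `e`. So the kernel has dimension
at most two and the rank is at least `n + 1 - 2 = n - 1 ≥ 3`; use `prime_of_quadratic`.
-/

/-- the constants of `MvPolynomial` over `k` -/
private noncomputable def Q16_C (k : Type) [Field k] (σ Ω : Type) [Field Ω] [Algebra k Ω] :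
    Ω →ₐ[k] MvPolynomial σ Ω :=
  { (C : Ω →+* MvPolynomial σ Ω) with
    commutes' := fun c => by
      show C (algebraMap k Ω c) = _
      rw [IsScalarTower.algebraMap_apply k Ω (MvPolynomial σ Ω), MvPolynomial.algebraMap_eq] }

private theorem Q16_C_apply (k : Type) [Field k] (σ Ω : Type) [Field Ω] [Algebra k Ω] (c : Ω) :
    Q16_C k σ Ω c = C c := rfl

section

variable {Ω : Type} [Field Ω] [Algebra k Ω]

omit [CharZero k] in
private theorem Q16_Phi_C (a b c d : Fin (n + 1) → Ω) :
    Phi φ (fun i => (C (a i) : MvPolynomial (Fin (n + 1)) Ω)) (fun i => C (b i))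
      (fun i => C (c i)) (fun i => C (d i)) = C (Phi φ a b c d) :=
  (Phi_map φ (Q16_C k (Fin (n + 1)) Ω) a b c d).symm

omit [CharZero k] in
private theorem Q16_single (j : Fin (n + 1)) :
    (Pi.single j 1 : Fin (n + 1) → MvPolynomial (Fin (n + 1)) Ω) =
      fun i => C ((Pi.single j 1 : Fin (n + 1) → Ω) i) := by
  funext i
  by_cases h : i = j
  · subst h
    rw [Pi.single_eq_same, Pi.single_eq_same, map_one]
  · rw [Pi.single_eq_of_ne h, Pi.single_eq_of_ne h, map_zero]

omit [CharZero k] in
private theorem Q16_prj (P e : Fin (n + 1) → Ω) :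
    prj φ (fun i => (C (P i) : MvPolynomial (Fin (n + 1)) Ω)) (fun i => C (e i)) X =
      ∑ j, (X j : MvPolynomial (Fin (n + 1)) Ω) •
        (fun i => C (prj φ P e (Pi.single j 1) i) : Fin (n + 1) → MvPolynomial (Fin (n + 1)) Ω) := by
  funext i
  rw [Finset.sum_apply]
  have h1 : Phi φ (fun i => (C (P i) : MvPolynomial (Fin (n + 1)) Ω)) (fun i => C (P i))
      (fun i => C (P i)) X = ∑ j, X j * C (Phi φ P P P (Pi.single j 1)) := by
    rw [Phi_eq_sum]
    refine Finset.sum_congr rfl fun j _ => ?_
    rw [Q16_single, Q16_Phi_C]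
  simp only [prj, Pi.sub_apply, Pi.smul_apply, smul_eq_mul, h1, Q16_Phi_C, map_sub, map_mul,
    mul_sub, Finset.sum_sub_distrib, Finset.sum_mul]
  congr 1
  · rw [Finset.sum_eq_single i]
    · rw [Pi.single_eq_same, map_one]
      ring
    · intro j _ hj
      rw [Pi.single_eq_of_ne (Ne.symm hj), map_zero]
      ring
    · intro h
      exact absurd (Finset.mem_univ _) h
  · exact Finset.sum_congr rfl fun j _ => by ring

omit [CharZero k] in
private theorem Q16_sum4 {R : Type} [CommRing R] [Algebra k R] (a b c : Fin (n + 1) → R)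
    {α : Type} (s : Finset α) (r : α → R) (v : α → Fin (n + 1) → R) :
    Phi φ a b c (∑ j ∈ s, r j • v j) = ∑ j ∈ s, r j * Phi φ a b c (v j) := by
  rw [← PhiL_apply, map_sum]
  refine Finset.sum_congr rfl fun j _ => ?_
  rw [map_smul, PhiL_apply, smul_eq_mul]

omit [CharZero k] in
private theorem Q16_quad (hφ : IsSymm4 φ) (P e : Fin (n + 1) → Ω) :
    quadW φ P e = ∑ i, ∑ j, C (Phi φ P P (prj φ P e (Pi.single i 1)) (prj φ P e (Pi.single j 1))) *
      (X i * X j) := by
  unfold quadW qW
  rw [Q16_prj, Q16_sum4]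
  rw [Finset.sum_comm]
  refine Finset.sum_congr rfl fun j _ => ?_
  rw [Phi_comm34 hφ, Q16_sum4, Finset.mul_sum]
  refine Finset.sum_congr rfl fun i _ => ?_
  rw [Q16_Phi_C, Phi_comm34 hφ P P (prj φ P e (Pi.single j 1))]
  ring

omit [CharZero k] in
/-- linearity of the projection -/
private theorem Q16_prj_add (P e z w : Fin (n + 1) → Ω) :
    prj φ P e (z + w) = prj φ P e z + prj φ P e w := by
  simp only [prj, Phi_add4, smul_add, add_smul]
  abel

omit [CharZero k] in
private theorem Q16_prj_smul (P e z : Fin (n + 1) → Ω) (r : Ω) :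
    prj φ P e (r • z) = r • prj φ P e z := by
  simp only [prj, Phi_smul4, smul_sub, smul_smul, mul_comm r]

omit [CharZero k] in
private theorem Q16_prj_eq (P e v : Fin (n + 1) → Ω) :
    prj φ P e v = ∑ j, v j • prj φ P e (Pi.single j 1) := by
  have h1 : v = ∑ j, v j • (Pi.single j 1 : Fin (n + 1) → Ω) := by
    funext i
    rw [Finset.sum_apply, Finset.sum_eq_single i]
    · rw [Pi.smul_apply, Pi.single_eq_same, smul_eq_mul, mul_one]
    · intro j _ hj
      rw [Pi.smul_apply, Pi.single_eq_of_ne (Ne.symm hj), smul_zero]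
    · intro h
      exact absurd (Finset.mem_univ _) h
  obtain ⟨L, hL⟩ : ∃ L : (Fin (n + 1) → Ω) →ₗ[Ω] (Fin (n + 1) → Ω), ∀ z, L z = prj φ P e z :=
    ⟨{ toFun := prj φ P e
       map_add' := Q16_prj_add P e
       map_smul' := fun r z => Q16_prj_smul P e z r }, fun _ => rfl⟩
  rw [← hL]
  conv_lhs => rw [h1]
  rw [map_sum]
  refine Finset.sum_congr rfl fun j _ => ?_
  rw [map_smul, hL]

/-- vectors orthogonal to all projections are multiples of `P` -/
private theorem Q16_orth (hφ : IsSymm4 φ) (hs : Smooth4 φ) (P e x : Fin (n + 1) → Ω)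
    (hP : IsGenPt φ P) (he : Phi φ P P P e ≠ 0)
    (h : ∀ j, Phi φ P P x (prj φ P e (Pi.single j 1)) = 0) : ∃ c : Ω, x = c • P := by
  refine lemmaA' hφ hs P x hP fun a ha => ?_
  have h1 : Phi φ P P x (prj φ P e a) = 0 := by
    rw [Q16_prj_eq, Q16_sum4]
    exact Finset.sum_eq_zero fun j _ => by rw [h j, mul_zero]
  have h2 : prj φ P e a = Phi φ P P P e • a := by
    simp only [prj, ha, zero_smul, sub_zero]
  rw [h2, Phi_smul4] at h1
  exact (mul_eq_zero.1 h1).resolve_left he

end

theorem prime_quadW (hφ : IsSymm4 φ) (hs : Smooth4 φ) (hn : 4 ≤ n) {Ω : Type} [Field Ω]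
    [Algebra k Ω] (P e : Fin (n + 1) → Ω) (hP : IsGenPt φ P) (he : Phi φ P P P e ≠ 0) :
    Prime (quadW φ P e) := by
  have hcz : CharZero Ω := charZero_of_injective_algebraMap (algebraMap k Ω).injective
  obtain ⟨B, hB⟩ : ∃ B : Fin (n + 1) → Fin (n + 1) → Ω, B = fun i j =>
      Phi φ P P (prj φ P e (Pi.single i 1)) (prj φ P e (Pi.single j 1)) := ⟨_, rfl⟩
  have hBs : ∀ i j, B i j = B j i := by
    intro i j
    rw [hB]
    exact Phi_comm34 hφ _ _ _ _
  have hq : quadW φ P e = ∑ i, ∑ j, C (B i j) * (X i * X j) := by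
    rw [Q16_quad hφ, hB]
  have hhom : (quadW φ P e).IsHomogeneous 2 := by
    rw [hq]
    refine IsHomogeneous.sum _ _ _ fun i _ => IsHomogeneous.sum _ _ _ fun j _ => ?_
    exact ((isHomogeneous_X Ω i).mul (isHomogeneous_X Ω j)).C_mul _
  have hder : ∀ i j, constantCoeff (pderiv i (pderiv j (quadW φ P e))) = 2 * B i j := by
    intro i j
    have h1 : pderiv j (quadW φ P e) = ∑ l, C (2 * B j l) * X l := by
      rw [hq, map_sum]
      have h2 : ∀ a, pderiv j (∑ b, C (B a b) * (X a * X b)) =
          ∑ b, (C (B a b) * (X a * (Pi.single j 1 : Fin (n + 1) → MvPolynomial (Fin (n + 1)) Ω) b) +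
            C (B a b) * (X b * (Pi.single j 1 : Fin (n + 1) → MvPolynomial (Fin (n + 1)) Ω) a)) := by
        intro a
        rw [map_sum]
        refine Finset.sum_congr rfl fun b _ => ?_
        rw [pderiv_C_mul, Derivation.leibniz, pderiv_X, pderiv_X, smul_eq_mul, smul_eq_mul,
          mul_add]
      rw [Finset.sum_congr rfl fun a _ => h2 a]
      simp only [Finset.sum_add_distrib]
      have h3 : ∀ a, ∑ b, C (B a b) * (X a *
          (Pi.single j 1 : Fin (n + 1) → MvPolynomial (Fin (n + 1)) Ω) b) =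
          C (B a j) * X a := by
        intro a
        rw [Finset.sum_eq_single j]
        · rw [Pi.single_eq_same, mul_one]
        · intro b _ hb
          rw [Pi.single_eq_of_ne hb, mul_zero, mul_zero]
        · intro h
          exact absurd (Finset.mem_univ _) h
      have h4 : ∑ a, ∑ b, C (B a b) * (X b *
          (Pi.single j 1 : Fin (n + 1) → MvPolynomial (Fin (n + 1)) Ω) a) =
          ∑ b, C (B j b) * X b := by
        rw [Finset.sum_eq_single j]
        · refine Finset.sum_congr rfl fun b _ => ?_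
          rw [Pi.single_eq_same, mul_one]
        · intro a _ ha
          refine Finset.sum_eq_zero fun b _ => ?_
          rw [Pi.single_eq_of_ne ha, mul_zero, mul_zero]
        · intro h
          exact absurd (Finset.mem_univ _) h
      rw [h4, Finset.sum_congr rfl fun a _ => h3 a, ← Finset.sum_add_distrib]
      refine Finset.sum_congr rfl fun b _ => ?_
      rw [hBs b j, two_mul, map_add, add_mul]
    rw [h1, map_sum, map_sum, Finset.sum_eq_single i]
    · rw [pderiv_C_mul, pderiv_X_self, mul_one, constantCoeff_C, hBs]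
    · intro l _ hl
      rw [pderiv_C_mul, pderiv_X_of_ne hl, mul_zero, map_zero]
    · intro h
      exact absurd (Finset.mem_univ _) h
  refine prime_of_quadratic Ω (Fin (n + 1)) _ hhom ?_
  obtain ⟨H, hH⟩ : ∃ H : Matrix (Fin (n + 1)) (Fin (n + 1)) Ω,
      H = Matrix.of fun i j => constantCoeff (pderiv i (pderiv j (quadW φ P e))) := ⟨_, rfl⟩
  rw [← hH]
  have hker : LinearMap.ker H.mulVecLin ≤ Submodule.span Ω (Set.range ![P, e]) := by
    intro v hv
    have hv' : H.mulVec v = 0 := hv
    have hv2 : ∀ i, Phi φ P P (prj φ P e v) (prj φ P e (Pi.single i 1)) = 0 := by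
      intro i
      have h1 := congrFun hv' i
      have h2 : (H.mulVec v) i = ∑ j, 2 * B i j * v j := by
        rw [Matrix.mulVec, dotProduct]
        refine Finset.sum_congr rfl fun j _ => ?_
        rw [hH, Matrix.of_apply, hder]
      have h3 : ∑ j, 2 * B i j * v j = 2 * ∑ j, v j * B i j := by
        rw [Finset.mul_sum]
        exact Finset.sum_congr rfl fun j _ => by ring
      rw [h2, h3] at h1
      have h4 := (mul_eq_zero.1 h1).resolve_left two_ne_zero
      rw [Phi_comm34 hφ, Q16_prj_eq P e v, Q16_sum4]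
      rw [← h4, hB]
    obtain ⟨c, hc⟩ := Q16_orth hφ hs P e (prj φ P e v) hP he hv2
    have h5 : v = ((Phi φ P P P e)⁻¹ * c) • P + ((Phi φ P P P e)⁻¹ * Phi φ P P P v) • e := by
      have h6 : Phi φ P P P e • v = c • P + Phi φ P P P v • e := by
        rw [← hc]
        simp only [prj, sub_add_cancel]
      have h7 := congrArg (fun z => (Phi φ P P P e)⁻¹ • z) h6
      simp only [smul_smul, smul_add, inv_mul_cancel₀ he, one_smul] at h7
      exact h7
    rw [h5]
    refine Submodule.add_mem _ (Submodule.smul_mem _ _ (Submodule.subset_span ⟨0, rfl⟩))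
      (Submodule.smul_mem _ _ (Submodule.subset_span ⟨1, rfl⟩))
  have h1 : Module.finrank Ω (LinearMap.ker H.mulVecLin) ≤ 2 := by
    refine (Submodule.finrank_mono hker).trans ?_
    have h2 := finrank_range_le_card (R := Ω) (b := ![P, e])
    rw [Fintype.card_fin] at h2
    exact h2
  have h2 := LinearMap.finrank_range_add_finrank_ker H.mulVecLin
  rw [Module.finrank_fintype_fun_eq_card, Fintype.card_fin] at h2
  have h3 : H.rank = Module.finrank Ω (LinearMap.range H.mulVecLin) := rfl
  omega

/-- The generic point of the cone has a nonzero product with every vector outside of the radical. -/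
theorem quadW_not_dvd (hφ : IsSymm4 φ) (hs : Smooth4 φ) (hn : 4 ≤ n) {Ω : Type} [Field Ω]
    [Algebra k Ω] (P e x : Fin (n + 1) → Ω) (hP : IsGenPt φ P) (he : Phi φ P P P e ≠ 0)
    (hx1 : Phi φ P P P x = 0) (hx : ∀ c : Ω, x ≠ c • P) :
    ¬ quadW φ P e ∣ Phi φ (fun i => C (P i)) (fun i => C (P i))
      (prj φ (fun i => C (P i)) (fun i => C (e i)) X) (fun i => C (x i)) := by
  -- PLAN: the right side is homogeneous of degree 1 in `X` and nonzero (its value at `X = a` is
  -- `Phi φ P P (prj a) x`, and if this vanishes for all `a` then `lemmaA'` gives `x = c • P`);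
  -- a nonzero multiple of the form `quadW` (nonzero, degree 2) has total degree `≥ 2`.
  have hL : Phi φ (fun i => (C (P i) : MvPolynomial (Fin (n + 1)) Ω)) (fun i => C (P i))
      (prj φ (fun i => C (P i)) (fun i => C (e i)) X) (fun i => C (x i)) =
      ∑ j, X j * C (Phi φ P P x (prj φ P e (Pi.single j 1))) := by
    rw [Phi_comm34 hφ, Q16_prj, Q16_sum4]
    refine Finset.sum_congr rfl fun j _ => ?_
    rw [Q16_Phi_C]
  rw [hL]
  intro hdvd
  have hpr := prime_quadW hφ hs hn P e hP he
  have hq0 := hpr.ne_zero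
  have hhom : (quadW φ P e).IsHomogeneous 2 := by
    rw [Q16_quad hφ]
    refine IsHomogeneous.sum _ _ _ fun i _ => IsHomogeneous.sum _ _ _ fun j _ => ?_
    exact ((isHomogeneous_X Ω i).mul (isHomogeneous_X Ω j)).C_mul _
  have hlin : (∑ j, (X j : MvPolynomial (Fin (n + 1)) Ω) *
      C (Phi φ P P x (prj φ P e (Pi.single j 1)))).IsHomogeneous 1 := by
    refine IsHomogeneous.sum _ _ _ fun j _ => ?_
    rw [mul_comm]
    exact (isHomogeneous_X Ω j).C_mul _
  have hne : (∑ j, (X j : MvPolynomial (Fin (n + 1)) Ω) *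
      C (Phi φ P P x (prj φ P e (Pi.single j 1)))) ≠ 0 := by
    intro h0
    have h1 : ∀ j, Phi φ P P x (prj φ P e (Pi.single j 1)) = 0 := by
      intro j
      have h2 := congrArg (MvPolynomial.eval (Pi.single j 1 : Fin (n + 1) → Ω)) h0
      rw [map_sum, map_zero, Finset.sum_eq_single j] at h2
      · rw [map_mul, eval_X, eval_C, Pi.single_eq_same, one_mul] at h2
        exact h2
      · intro l _ hl
        rw [map_mul, eval_X, Pi.single_eq_of_ne hl, zero_mul]
      · intro h
        exact absurd (Finset.mem_univ _) h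
    obtain ⟨c, hc⟩ := Q16_orth hφ hs P e x hP he h1
    exact hx c hc
  obtain ⟨g, hg⟩ := hdvd
  have hg0 : g ≠ 0 := by
    rintro rfl
    exact hne (by rw [hg, mul_zero])
  have h1 := totalDegree_mul_of_isDomain hq0 hg0
  rw [← hg, hlin.totalDegree hne, hhom.totalDegree hq0] at h1
  omega

end Pool.Agent.LibHP
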