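import Pool.Agent.LibHPF.Q17

set_option autoImplicit false
open MvPolynomial

namespace Pool.Agent.LibHP

/-!
# Row Q18: generic points of hypersurfaces and joint embeddings (only Mathlib)

PLAN.
`exists_generic_field`: `M = FractionRing (MvPolynomial σ K ⧸ span {f})`.
`exists_joint`: `Ω = AlgebraicClosure (FractionRing (MvPolynomial σ Ω0 ⧸ span {f.map τ}))`, `i` the obvious map,
`W' j` the classes of the variables. `M → Ω` with `W j ↦ W' j`, compatible with `K → Ω0 → Ω`:
for `G` over `K`: `aeval W G = 0 ↔ f ∣ G ↔ f.map τ ∣ G.map τ` (`dvd_of_map_dvd`) `↔ eval₂ (i.comp τ) W' G = 0`;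
extend to fractions by `hgen`. Then extend to the algebraic closure (`IsAlgClosed.lift`).
-/

theorem exists_generic_field (K σ : Type) [Field K] (f : MvPolynomial σ K) (hf : Prime f) :
    ∃ (M : Type) (_ : Field M) (_ : Algebra K M) (W : σ → M),
      (∀ G : MvPolynomial σ K, aeval W G = 0 ↔ f ∣ G) ∧
      ∀ z : M, ∃ G H : MvPolynomial σ K, aeval W H ≠ 0 ∧ z * aeval W H = aeval W G := by
  haveI hp : (Ideal.span {f}).IsPrime := (Ideal.span_singleton_prime hf.ne_zero).2 hf
  haveI : IsDomain (MvPolynomial σ K ⧸ Ideal.span {f}) := Ideal.Quotient.isDomain _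
  have hae : ∀ G : MvPolynomial σ K,
      aeval (fun j => algebraMap (MvPolynomial σ K ⧸ Ideal.span {f})
        (FractionRing (MvPolynomial σ K ⧸ Ideal.span {f})) (Ideal.Quotient.mk _ (X j))) G
      = algebraMap (MvPolynomial σ K ⧸ Ideal.span {f})
        (FractionRing (MvPolynomial σ K ⧸ Ideal.span {f})) (Ideal.Quotient.mk _ G) := by
    intro G
    have h := MvPolynomial.algHom_ext
      (f := aeval (fun j => algebraMap (MvPolynomial σ K ⧸ Ideal.span {f})
        (FractionRing (MvPolynomial σ K ⧸ Ideal.span {f})) (Ideal.Quotient.mk _ (X j))))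
      (g := (Algebra.ofId (MvPolynomial σ K ⧸ Ideal.span {f})
        (FractionRing (MvPolynomial σ K ⧸ Ideal.span {f}))).restrictScalars K |>.comp
          (Ideal.Quotient.mkₐ K (Ideal.span {f}))) (by
        intro j
        rw [aeval_X]
        rfl)
    exact DFunLike.congr_fun h G
  refine ⟨FractionRing (MvPolynomial σ K ⧸ Ideal.span {f}), inferInstance, inferInstance,
    fun j => algebraMap (MvPolynomial σ K ⧸ Ideal.span {f}) _ (Ideal.Quotient.mk _ (X j)), ?_, ?_⟩
  · intro G
    rw [hae, FaithfulSMul.algebraMap_eq_zero_iff, Ideal.Quotient.eq_zero_iff_mem,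
      Ideal.mem_span_singleton]
  · intro z
    obtain ⟨x, y, hy, hz⟩ := IsFractionRing.div_surjective
      (MvPolynomial σ K ⧸ Ideal.span {f}) z
    obtain ⟨G, rfl⟩ := Ideal.Quotient.mk_surjective x
    obtain ⟨H, rfl⟩ := Ideal.Quotient.mk_surjective y
    have hy0 : algebraMap (MvPolynomial σ K ⧸ Ideal.span {f})
        (FractionRing (MvPolynomial σ K ⧸ Ideal.span {f})) (Ideal.Quotient.mk _ H) ≠ 0 := by
      rw [Ne, FaithfulSMul.algebraMap_eq_zero_iff]
      exact nonZeroDivisors.ne_zero hy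
    refine ⟨G, H, ?_, ?_⟩
    · rw [hae]
      exact hy0
    · rw [hae, hae, ← hz, div_mul_cancel₀ _ hy0]

theorem exists_joint (K σ M Ω0 : Type) [Field K] [Field M] [Algebra K M] [Field Ω0]
    (f : MvPolynomial σ K) (W : σ → M)
    (hW : ∀ G : MvPolynomial σ K, aeval W G = 0 ↔ f ∣ G)
    (hgen : ∀ z : M, ∃ G H : MvPolynomial σ K, aeval W H ≠ 0 ∧ z * aeval W H = aeval W G)
    (τ : K →+* Ω0) (hprime : Prime (f.map τ)) :
    ∃ (Ω : Type) (_ : Field Ω) (i : Ω0 →+* Ω) (ψ : AlgebraicClosure M →+* Ω),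
      (∀ c : K, ψ (algebraMap M (AlgebraicClosure M) (algebraMap K M c)) = i (τ c)) ∧
      ∀ G : MvPolynomial σ Ω0,
        eval₂ i (fun j => ψ (algebraMap M (AlgebraicClosure M) (W j))) G = 0 ↔ f.map τ ∣ G := by
  obtain ⟨M', hF', hA', W', hW', -⟩ := exists_generic_field Ω0 σ (f.map τ) hprime
  set φ : MvPolynomial σ K →+* M := (aeval W : MvPolynomial σ K →ₐ[K] M).toRingHom with hφ
  set φ' : MvPolynomial σ K →+* M' :=
    (aeval W' : MvPolynomial σ Ω0 →ₐ[Ω0] M').toRingHom.comp (MvPolynomial.map τ) with hφ'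
  have hker : ∀ G : MvPolynomial σ K, φ G = 0 ↔ φ' G = 0 := by
    intro G
    change aeval W G = 0 ↔ aeval W' (G.map τ) = 0
    rw [hW, hW']
    exact ⟨fun h => map_dvd (MvPolynomial.map τ) h, fun h => dvd_of_map_dvd τ f G h⟩
  have hinj := RingHom.kerLift_injective φ
  letI : Algebra (MvPolynomial σ K ⧸ RingHom.ker φ) M := (RingHom.kerLift φ).toAlgebra
  have halg : ∀ G : MvPolynomial σ K,
      algebraMap (MvPolynomial σ K ⧸ RingHom.ker φ) M (Ideal.Quotient.mk _ G) = aeval W G :=
    fun G => RingHom.kerLift_mk φ G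
  haveI : FaithfulSMul (MvPolynomial σ K ⧸ RingHom.ker φ) M :=
    (faithfulSMul_iff_algebraMap_injective _ _).2 hinj
  haveI : IsFractionRing (MvPolynomial σ K ⧸ RingHom.ker φ) M := by
    refine IsFractionRing.of_field _ _ fun z => ?_
    obtain ⟨G, H, hH, hz⟩ := hgen z
    refine ⟨Ideal.Quotient.mk _ G, Ideal.Quotient.mk _ H, ?_⟩
    rw [halg, halg, eq_div_iff hH, hz]
  set g' : (MvPolynomial σ K ⧸ RingHom.ker φ) →+* M' :=
    Ideal.Quotient.lift (RingHom.ker φ) φ' (fun a ha => (hker a).1 ha) with hg'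
  have hg'inj : Function.Injective g' := by
    rw [injective_iff_map_eq_zero]
    intro a ha
    obtain ⟨G, rfl⟩ := Ideal.Quotient.mk_surjective a
    rw [hg', Ideal.Quotient.lift_mk] at ha
    rw [Ideal.Quotient.eq_zero_iff_mem]
    exact (hker G).2 ha
  set ψ0 : M →+* M' := IsFractionRing.lift hg'inj with hψ0
  have hψ : ∀ G : MvPolynomial σ K, ψ0 (aeval W G) = aeval W' (G.map τ) := by
    intro G
    rw [← halg, hψ0, IsFractionRing.lift_algebraMap, hg', Ideal.Quotient.lift_mk]
    rfl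
  letI : Algebra M (AlgebraicClosure M') := ((algebraMap M' (AlgebraicClosure M')).comp ψ0).toAlgebra
  set ψ1 : AlgebraicClosure M →ₐ[M] AlgebraicClosure M' := IsAlgClosed.lift with hψ1
  have hcomm : ∀ z : M, ψ1 (algebraMap M (AlgebraicClosure M) z)
      = algebraMap M' (AlgebraicClosure M') (ψ0 z) := fun z => ψ1.commutes z
  refine ⟨AlgebraicClosure M', inferInstance,
    (algebraMap M' (AlgebraicClosure M')).comp (algebraMap Ω0 M'), ψ1.toRingHom, ?_, ?_⟩
  · intro c
    change ψ1 (algebraMap M (AlgebraicClosure M) (algebraMap K M c)) = _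
    have h1 : algebraMap K M c = aeval W (C c : MvPolynomial σ K) := (aeval_C W c).symm
    rw [hcomm, h1, hψ, map_C, aeval_C]
    rfl
  · intro G
    have h2 : (fun j => ψ1.toRingHom (algebraMap M (AlgebraicClosure M) (W j)))
        = fun j => algebraMap M' (AlgebraicClosure M') (W' j) := by
      funext j
      change ψ1 (algebraMap M (AlgebraicClosure M) (W j)) = _
      have h1 : W j = aeval W (X j : MvPolynomial σ K) := (aeval_X W j).symm
      rw [hcomm, h1, hψ, map_X, aeval_X]
    have h3 : eval₂ ((algebraMap M' (AlgebraicClosure M')).comp (algebraMap Ω0 M'))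
        (fun j => algebraMap M' (AlgebraicClosure M') (W' j)) G
        = algebraMap M' (AlgebraicClosure M') (aeval W' G) := by
      rw [aeval_def, eval₂_comp_left]
      rfl
    rw [h2, h3, FaithfulSMul.algebraMap_eq_zero_iff, hW']

end Pool.Agent.LibHP
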