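import Pool.Agent.LibHPF.QE
import Pool.Agent.LibHPF.Q16
import Pool.Agent.LibHPF.Q18
import Pool.Agent.LibHPF.Q19
import Pool.Agent.LibHPF.Q22
import Pool.Agent.LibHPF.Q23
import Pool.Agent.LibHPF.Q25
import Pool.Agent.LibHPF.Q26a

set_option autoImplicit false
open MvPolynomial

namespace Pool.Agent.LibHP

variable {k : Type} [Field k] [CharZero k] {n : ℕ} {φ : Tens k n}

/-!
# Row Q26: every prime divisor is met with multiplicity one

PLAN. Take `Ω, P', x, β, …` from `exists_datum`. `τ : K →ₐ[k] Ω` with `τ (P l) = P' l` (`exists_hom_of_gen` with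
`x := P`, `i0 := 0`, `y := P'`; `P' 0 = 1`; both are generic points of the same hypersurface).
`e' = τ ∘ e`, `Phi φ P' P' P' e' = τ (Phi φ P P P e) ≠ 0`. `prime_quadW` for `P', e'` in `Ω`, and
`map_quadW φ τ P e : (quadW φ P e).map τ = quadW φ P' e'`. `exists_joint` with `f := quadW φ P e`, `Ω0 := Ω`, `τ`:
fields `Ω3`, `i : Ω → Ω3`, `ψ : M̄ → Ω3`. Make `Ω3` a `k`-algebra by `i.comp (algebraMap k Ω)`. In `Ω3` let
`P3 = i ∘ P'`, `x3 = i ∘ x`, `β3`, `e3 = i ∘ e'`, `W3 l = ψ (W l)`; `ψ (PM l) = P3 l`, `ψ (eM l) = e3 l`. All equations of the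
datum hold for `P3, x3, β3` (`Phi_map`). `Phi φ P3 P3 (prj φ P3 e3 W3) x3 ≠ 0` by `exists_joint` (last property) and
`quadW_not_dvd` (`x` is not a multiple of `P'` because `Phi φ P' x x x ≠ 0 = Phi φ P' P' P' P'`).
`J : RF M̄ (n + 1) → RatFunc Ω4`, `Ω4 = RF Ω3 (n + 1)`, from `exists_arc` with `ψ`, `a := x3`, `b := β3`. All vectors are
mapped once more to `Ω4`. Let `Y = mvRF φ PM eM W`, `Y' l = J (rfbar M (n + 1) (Y l))`: it is `mvz` of the vectors
`C ∘ P4`, `C ∘ e4`, `C ∘ W4` and `z l = J (X l)` (`mvz_map`, `rfmap_algebraMap`), so by `jets_move` there are `c0 ≠ 0`, `c1`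
with `HasJet (Y' l) (c0 * x4 l) (c1 * x4 l + c0 * β4 l)`. For `l = i`: `(c0, c1)`. Hence
`J (rfbar (σ (P l / P i))) = Y' l / Y' i` has the jet `(x4 l, β4 l)` (`HasJet.inv`, `HasJet.mul`), and by `HasJet.aeval`
`J (rfbar (σ (chartMap k P i G)))` has the jet `(aeval x4 G, ∑ l, β4 l * aeval x4 (pderiv l G))` for every `G`
(`coe_chartMap`; `aeval x4 G` is the image of `aeval x G ∈ Ω`).
`V` from `exists_valuation_at_zero Ω4`, `C = V.comap J`. Constants of `M̄`: `J c = RatFunc.C …`, `HasJet.C`.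
`g = chartMap G` with `G` from the last property of the datum: `IsUnif V (J (rfbar (σ g)))`, so
`IsUnif C (rfbar (σ g))` (`IsUnif.comap`). `MetAt`: `ϖ := rfbar (σ g)`, `π := g`, `u = 1`; `a ∉ p`: the value
`aeval x4 G ≠ 0`, so the inverse is in `V` (`HasJet.inv`); the generator property: `generator_of_unif` with
`σ := (rfbar M (n + 1)).comp σ` (for `a ∈ p`, `a ≠ 0`: the value is `0`, so the inverse is not regular).
-/

/-- The jets of the moved point, in the affine coordinates of a chart. -/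
private theorem Q26_core (hφ : IsSymm4 φ) {K M Ω4 : Type} [Field K] [Field M] [Algebra k M]
    [Field Ω4] [Algebra k Ω4] [CharZero Ω4] (P : Fin (n + 1) → K) (W PM eM : Fin (n + 1) → M)
    (σ : K →+* RF M (n + 1))
    (hσ : ∀ i, σ (P i) * mvRF φ PM eM W 0 = mvRF φ PM eM W i) (h0 : mvRF φ PM eM W 0 ≠ 0)
    (i : Fin (n + 1)) (θ : RF M (n + 1) →ₐ[k] RatFunc Ω4) (P4 e4 W4 x4 β4 : Fin (n + 1) → Ω4)
    (hθP : ∀ l, θ (algebraMap M (RF M (n + 1)) (PM l)) = RatFunc.C (P4 l))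
    (hθe : ∀ l, θ (algebraMap M (RF M (n + 1)) (eM l)) = RatFunc.C (e4 l))
    (hθW : ∀ l, θ (algebraMap M (RF M (n + 1)) (W l)) = RatFunc.C (W4 l))
    (hθX : ∀ l, HasJet (θ (algebraMap (MvPolynomial (Fin (n + 1)) M) (RF M (n + 1)) (X l)))
      (x4 l) (β4 l))
    (he : Phi φ P4 P4 P4 e4 ≠ 0) (h1 : Phi φ P4 P4 P4 x4 = 0)
    (h2 : Phi φ P4 P4 x4 x4 = 0) (h3 : Phi φ P4 x4 x4 x4 ≠ 0) (h4 : Phi φ x4 x4 x4 x4 = 0)
    (h5 : Phi φ x4 x4 x4 β4 = 0) (h6 : Phi φ P4 P4 P4 β4 = 0) (h7 : Phi φ P4 P4 x4 β4 = 0)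
    (hW : Phi φ P4 P4 (prj φ P4 e4 W4) x4 ≠ 0) (hx : x4 i = 1) (hβ : β4 i = 0) (l : Fin (n + 1)) :
    HasJet (θ (σ (P l / P i))) (x4 l) (β4 l) := by
  obtain ⟨c0, c1, hc0, hc⟩ := jets_move hφ P4 e4 W4 x4 β4 he h1 h2 h3 h4 h5 h6 h7 hW
    (fun l => θ (algebraMap (MvPolynomial (Fin (n + 1)) M) (RF M (n + 1)) (X l))) hθX
  have hY : ∀ l, HasJet (θ (mvRF φ PM eM W l)) (c0 * x4 l) (c1 * x4 l + c0 * β4 l) := by
    intro l
    have hm := mvz_map φ θ (fun i => algebraMap M (RF M (n + 1)) (PM i))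
      (fun i => algebraMap M (RF M (n + 1)) (eM i)) (fun i => algebraMap M (RF M (n + 1)) (W i))
      (fun i => algebraMap (MvPolynomial (Fin (n + 1)) M) (RF M (n + 1)) (X i)) l
    simp only [hθP, hθe, hθW] at hm
    have hm2 : θ (mvRF φ PM eM W l) = mvz φ (fun j => RatFunc.C (P4 j)) (fun j => RatFunc.C (e4 j))
      (fun j => RatFunc.C (W4 j))
      (fun l => θ (algebraMap (MvPolynomial (Fin (n + 1)) M) (RF M (n + 1)) (X l))) l := hm
    rw [hm2]
    exact hc l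
  have hθi : Function.Injective θ := θ.toRingHom.injective
  have hY0 : θ (mvRF φ PM eM W 0) ≠ 0 := fun h => h0 ((map_eq_zero_iff θ hθi).1 h)
  have hσ' : ∀ l, θ (σ (P l)) * θ (mvRF φ PM eM W 0) = θ (mvRF φ PM eM W l) := by
    intro l
    rw [← map_mul, hσ]
  have hYi : θ (mvRF φ PM eM W i) ≠ 0 := by
    intro h
    have h8 := hY i
    rw [h] at h8
    have h9 : HasJet (0 : RatFunc Ω4) 0 0 := by
      have := HasJet.C (0 : Ω4)
      rwa [map_zero] at this
    have h10 := (h8.unique h9).1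
    rw [hx, mul_one] at h10
    exact hc0 h10
  have hq : θ (σ (P l / P i)) = θ (mvRF φ PM eM W l) * (θ (mvRF φ PM eM W i))⁻¹ := by
    rw [map_div₀, map_div₀, ← hσ' l, ← hσ' i, mul_inv, div_eq_mul_inv]
    field_simp
  rw [hq]
  have hi := hY i
  rw [hx, hβ, mul_one, mul_one, mul_zero, add_zero] at hi
  have hj := (hY l).mul (hi.inv hc0)
  have e1 : c0 * x4 l * c0⁻¹ = x4 l := by field_simp
  have e2 : c0 * x4 l * -(c1 / c0 ^ 2) + c0⁻¹ * (c1 * x4 l + c0 * β4 l) = β4 l := by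
    field_simp
    ring
  rw [e1, e2] at hj
  exact hj

/-- The conclusion from the jets. -/
private theorem Q26_fin {K M Ω4 : Type} [Field K]
    [Algebra k K] [Field M] [Algebra k M] [Field Ω4] [Algebra k Ω4]
    (P : Fin (n + 1) → K) (σ : K →+* RF M (n + 1))
    (i : Fin (n + 1)) (p : Ideal (chartRing k P i)) [p.IsPrime]
    (hdvr : IsDiscreteValuationRing (Localization.AtPrime p))
    (J : RF (AlgebraicClosure M) (n + 1) →+* RatFunc Ω4)
    (hJc : ∀ c : AlgebraicClosure M, ∃ a : Ω4,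
      J (algebraMap (AlgebraicClosure M) (RF (AlgebraicClosure M) (n + 1)) c) = RatFunc.C a)
    (lam : K →ₐ[k] RatFunc Ω4) (hlam : ∀ a : K, J (rfbar M (n + 1) (σ a)) = lam a)
    (x4 β4 : Fin (n + 1) → Ω4) (hjet : ∀ l, HasJet (lam (P l / P i)) (x4 l) (β4 l))
    (hxp : ∀ G : MvPolynomial (Fin (n + 1)) k, aeval x4 G = 0 ↔ chartMap k P i G ∈ p)
    (G1 : MvPolynomial (Fin (n + 1)) k) (hG1 : aeval x4 G1 = 0)
    (hG1' : ∑ l, β4 l * aeval x4 (pderiv l G1) ≠ 0) :
    MetAt (chartRing k P i) K p σ 1 := by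
  obtain ⟨V, hV, hVu⟩ := exists_valuation_at_zero Ω4
  have hj : ∀ G : MvPolynomial (Fin (n + 1)) k, HasJet (lam (chartMap k P i G : K)) (aeval x4 G)
      (∑ l, β4 l * aeval x4 (pderiv l G)) := by
    intro G
    rw [coe_chartMap]
    have h1 : lam (aeval (fun j => P j / P i) G) = aeval (fun j => lam (P j / P i)) G :=
      MvPolynomial.comp_aeval_apply (φ := lam) (fun j => P j / P i) G
    rw [h1]
    exact HasJet.aeval _ x4 β4 hjet G
  have hA : ∀ a : chartRing k P i, rfbar M (n + 1) (σ (algebraMap (chartRing k P i) K a)) ∈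
      V.comap J := by
    intro a
    obtain ⟨G, rfl⟩ := chartMap_surjective k P i a
    rw [ValuationSubring.mem_comap, hlam, hV]
    exact ⟨_, _, hj G⟩
  have hA' : ∀ a : chartRing k P i, a ∉ p →
      (rfbar M (n + 1) (σ (algebraMap (chartRing k P i) K a)))⁻¹ ∈ V.comap J := by
    intro a ha
    obtain ⟨G, rfl⟩ := chartMap_surjective k P i a
    rw [ValuationSubring.mem_comap, map_inv₀, hlam, hV]
    exact ⟨_, _, (hj G).inv fun h => ha ((hxp G).1 h)⟩
  have hp' : ∀ a : chartRing k P i, a ∈ p → a ≠ 0 →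
      (rfbar M (n + 1) (σ (algebraMap (chartRing k P i) K a)))⁻¹ ∉ V.comap J := by
    intro a ha ha0 hmem
    obtain ⟨G, rfl⟩ := chartMap_surjective k P i a
    rw [ValuationSubring.mem_comap, map_inv₀, hlam, hV] at hmem
    obtain ⟨b0, b1, hb⟩ := hmem
    have h1 := (hj G).mul hb
    have h2 : lam (algebraMap (chartRing k P i) K (chartMap k P i G)) ≠ 0 := by
      intro h
      have h3 := (map_eq_zero_iff lam lam.toRingHom.injective).1 h
      exact ha0 (Subtype.ext h3)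
    have h4 : lam (chartMap k P i G : K) *
        (lam (algebraMap (chartRing k P i) K (chartMap k P i G)))⁻¹ = 1 := mul_inv_cancel₀ h2
    rw [h4, (hxp G).2 ha, zero_mul] at h1
    have h5 : HasJet (1 : RatFunc Ω4) 1 0 := by
      have := HasJet.C (1 : Ω4)
      rwa [map_one] at this
    exact zero_ne_one ((h1.unique h5).1)
  have hg : chartMap k P i G1 ∈ p := (hxp G1).1 hG1
  have hu : IsUnif (V.comap J)
      (rfbar M (n + 1) (σ (algebraMap (chartRing k P i) K (chartMap k P i G1)))) := by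
    refine IsUnif.comap J V _ ?_
    rw [hlam]
    have h1 := hj G1
    rw [hG1] at h1
    exact hVu _ _ h1 hG1'
  refine ⟨V.comap J, rfbar M (n + 1) (σ (algebraMap (chartRing k P i) K (chartMap k P i G1))),
    chartMap k P i G1, hu, ?_, hA, hA', hg, ?_, 1, ?_, ?_, ?_⟩
  · intro c
    obtain ⟨a, ha⟩ := hJc c
    rw [ValuationSubring.mem_comap, ha, hV]
    exact ⟨_, _, HasJet.C a⟩
  · exact generator_of_unif (chartRing k P i) K (RF (AlgebraicClosure M) (n + 1)) p hdvr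
      ((rfbar M (n + 1)).comp σ) (V.comap J) hA hA' hp' (chartMap k P i G1) hg hu
  · exact one_mem _
  · rw [inv_one]
    exact one_mem _
  · rw [pow_one, one_mul]

theorem metAt_all (hφ : IsSymm4 φ) (hs : Smooth4 φ) (hn : 4 ≤ n) {K M : Type} [Field K]
    [Algebra k K] [Field M] [Algebra K M] [Algebra k M] [IsScalarTower k K M]
    (P e : Fin (n + 1) → K) (hP : IsGenPt φ P) (hgenP : GenBy k P) (he : Phi φ P P P e ≠ 0)
    (W PM eM : Fin (n + 1) → M) (hPM : ∀ i, PM i = algebraMap K M (P i))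
    (heM : ∀ i, eM i = algebraMap K M (e i))
    (hW : ∀ G : MvPolynomial (Fin (n + 1)) K, aeval W G = 0 ↔ quadW φ P e ∣ G)
    (hgenW : GenBy K W) (σ : K →+* RF M (n + 1))
    (hσk : ∀ c : k, σ (algebraMap k K c) = algebraMap k (RF M (n + 1)) c)
    (hσ : ∀ i, σ (P i) * mvRF φ PM eM W 0 = mvRF φ PM eM W i) (h0 : mvRF φ PM eM W 0 ≠ 0)
    (i : Fin (n + 1)) (p : Ideal (chartRing k P i)) [p.IsPrime] (hp : p.height = 1)
    (hdvr : IsDiscreteValuationRing (Localization.AtPrime p)) :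
    MetAt (chartRing k P i) K p σ 1 := by
  obtain ⟨Ω, iΩ1, iΩ2, P', x, β, hP', hxi, hβi, d1, d2, d3, d4, d5, d6, d7, hxp, G1, hG1, hG1'⟩ :=
    exists_datum hφ hs hn P hP i p hp hdvr
  have hP'0 : P' 0 ≠ 0 := by
    rw [hP'.1]
    exact one_ne_zero
  obtain ⟨τ, hτ0⟩ := exists_hom_of_gen k (Fin (n + 1)) K Ω P 0 hP.1 hgenP P' hP'0
    (fun d G hG => by rw [hP.2 d G hG, hP'.2 d G hG])
  have hτ : ∀ l, τ (P l) = P' l := fun l => by rw [hτ0, hP'.1, div_one]
  have hτf : (fun l => τ (P l)) = P' := funext hτ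
  have he' : Phi φ P' P' P' (fun l => τ (e l)) ≠ 0 := by
    intro h
    have h1 := Phi_map φ τ P P P e
    rw [hτf, h] at h1
    exact he ((map_eq_zero_iff τ τ.injective).1 h1)
  have hmapq : MvPolynomial.map (τ : K →+* Ω) (quadW φ P e) = quadW φ P' (fun l => τ (e l)) := by
    rw [map_quadW, hτf]
  have hprime : Prime ((quadW φ P e).map (τ : K →+* Ω)) := by
    rw [hmapq]
    exact prime_quadW hφ hs hn P' _ hP' he'
  obtain ⟨Ω3, iΩ3, i3, ψ, hψc, hψW⟩ := exists_joint K (Fin (n + 1)) M Ω (quadW φ P e) W hW hgenW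
    (τ : K →+* Ω) hprime
  rw [hmapq] at hψW
  -- the field `Ω4`
  let c4 : Ω3 →+* RF Ω3 (n + 1) := algebraMap Ω3 (RF Ω3 (n + 1))
  have hc4 : Function.Injective c4 := c4.injective
  let ak : Algebra k (RF Ω3 (n + 1)) := ((c4.comp i3).comp (algebraMap k Ω)).toAlgebra
  let κ4 : Ω →ₐ[k] RF Ω3 (n + 1) := { c4.comp i3 with commutes' := fun c => rfl }
  have hκ4 : Function.Injective κ4 := (c4.comp i3).injective
  have hchar : CharZero (RF Ω3 (n + 1)) :=
    charZero_of_injective_algebraMap (algebraMap k (RF Ω3 (n + 1))).injective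
  obtain ⟨J, hJc, hJX⟩ := exists_arc (AlgebraicClosure M) Ω3 ψ (n + 1) (fun l => i3 (x l))
    (fun l => i3 (β l))
  -- the homomorphism from `M(z)`
  have hkC : ∀ c : k, algebraMap k (RatFunc (RF Ω3 (n + 1))) c =
      RatFunc.C (c4 (i3 (algebraMap k Ω c))) := by
    intro c
    rw [IsScalarTower.algebraMap_apply k (RF Ω3 (n + 1)) (RatFunc (RF Ω3 (n + 1)))]
    rfl
  have hJM : ∀ m : M, J (rfbar M (n + 1) (algebraMap M (RF M (n + 1)) m)) =
      RatFunc.C (c4 (ψ (algebraMap M (AlgebraicClosure M) m))) := by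
    intro m
    rw [rfbar, rfmap_const, hJc]
  have hJk : ∀ c : k, J (rfbar M (n + 1) (algebraMap k (RF M (n + 1)) c)) =
      algebraMap k (RatFunc (RF Ω3 (n + 1))) c := by
    intro c
    rw [IsScalarTower.algebraMap_apply k M (RF M (n + 1)), hJM, hkC,
      IsScalarTower.algebraMap_apply k K M, hψc]
    congr 3
    exact τ.commutes c
  let θ : RF M (n + 1) →ₐ[k] RatFunc (RF Ω3 (n + 1)) :=
    { J.comp (rfbar M (n + 1)) with commutes' := hJk }
  let lam : K →ₐ[k] RatFunc (RF Ω3 (n + 1)) :=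
    { (J.comp (rfbar M (n + 1))).comp σ with
      commutes' := fun c => by
        show J (rfbar M (n + 1) (σ (algebraMap k K c))) = _
        rw [hσk]
        exact hJk c }
  have hPhi : ∀ a b c d : Fin (n + 1) → Ω, κ4 (Phi φ a b c d) = Phi φ (fun l => κ4 (a l))
      (fun l => κ4 (b l)) (fun l => κ4 (c l)) (fun l => κ4 (d l)) := Phi_map φ κ4
  have hP0 : ∀ a b c d : Fin (n + 1) → Ω, Phi φ a b c d = 0 → Phi φ (fun l => κ4 (a l))
      (fun l => κ4 (b l)) (fun l => κ4 (c l)) (fun l => κ4 (d l)) = 0 := by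
    intro a b c d h
    rw [← hPhi, h, map_zero]
  have hPne : ∀ a b c d : Fin (n + 1) → Ω, Phi φ a b c d ≠ 0 → Phi φ (fun l => κ4 (a l))
      (fun l => κ4 (b l)) (fun l => κ4 (c l)) (fun l => κ4 (d l)) ≠ 0 := by
    intro a b c d h h'
    rw [← hPhi] at h'
    exact h ((map_eq_zero_iff κ4 hκ4).1 h')
  have hWx : Phi φ (fun l => κ4 (P' l)) (fun l => κ4 (P' l))
      (prj φ (fun l => κ4 (P' l)) (fun l => κ4 (τ (e l)))
        (fun l => c4 (ψ (algebraMap M (AlgebraicClosure M) (W l))))) (fun l => κ4 (x l)) ≠ 0 := by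
    have hnd := quadW_not_dvd hφ hs hn P' (fun l => τ (e l)) x hP' he' d1 (by
      intro c hc
      apply d3
      rw [hc, Phi_smul2, Phi_smul3, Phi_smul4, hP'.self]
      ring)
    rw [← hψW] at hnd
    intro h
    apply hnd
    apply hc4
    rw [map_zero]
    let ρ : MvPolynomial (Fin (n + 1)) Ω →ₐ[k] RF Ω3 (n + 1) :=
      { c4.comp (eval₂Hom i3 fun j => ψ (algebraMap M (AlgebraicClosure M) (W j))) with
        commutes' := fun c => by
          show c4 (eval₂ i3 (fun j => ψ (algebraMap M (AlgebraicClosure M) (W j)))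
            (algebraMap k (MvPolynomial (Fin (n + 1)) Ω) c)) = _
          rw [IsScalarTower.algebraMap_apply k Ω (MvPolynomial (Fin (n + 1)) Ω),
            MvPolynomial.algebraMap_eq, eval₂_C]
          rfl }
    have hρC : ∀ a : Ω, ρ (C a) = κ4 a := by
      intro a
      show c4 (eval₂ i3 (fun j => ψ (algebraMap M (AlgebraicClosure M) (W j))) (C a)) = c4 (i3 a)
      rw [eval₂_C]
    have hρX : ∀ l, ρ (X l) = c4 (ψ (algebraMap M (AlgebraicClosure M) (W l))) := by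
      intro l
      show c4 (eval₂ i3 (fun j => ψ (algebraMap M (AlgebraicClosure M) (W j))) (X l)) = _
      rw [eval₂_X]
    have hρ := Phi_map φ ρ (fun i => C (P' i)) (fun i => C (P' i))
      (prj φ (fun i => C (P' i)) (fun i => C (τ (e i))) X) (fun i => C (x i))
    simp only [prj_map, hρC, hρX] at hρ
    exact hρ.trans h
  have hjet : ∀ l, HasJet (θ (σ (P l / P i))) (κ4 (x l)) (κ4 (β l)) := by
    refine Q26_core hφ P W PM eM σ hσ h0 i θ (fun l => κ4 (P' l)) (fun l => κ4 (τ (e l)))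
      (fun l => c4 (ψ (algebraMap M (AlgebraicClosure M) (W l)))) (fun l => κ4 (x l))
      (fun l => κ4 (β l)) ?_ ?_ ?_ ?_ (hPne _ _ _ _ he') (hP0 _ _ _ _ d1) (hP0 _ _ _ _ d2)
      (hPne _ _ _ _ d3) (hP0 _ _ _ _ d4) (hP0 _ _ _ _ d5) (hP0 _ _ _ _ d6) (hP0 _ _ _ _ d7)
      hWx ?_ ?_
    · intro l
      show J (rfbar M (n + 1) (algebraMap M (RF M (n + 1)) (PM l))) = _
      rw [hJM, hPM, hψc]
      show RatFunc.C (c4 (i3 (τ (P l)))) = RatFunc.C (c4 (i3 (P' l)))
      rw [hτ]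
    · intro l
      show J (rfbar M (n + 1) (algebraMap M (RF M (n + 1)) (eM l))) = _
      rw [hJM, heM, hψc]
      rfl
    · intro l
      exact hJM (W l)
    · intro l
      show HasJet (J (rfbar M (n + 1) (algebraMap (MvPolynomial (Fin (n + 1)) M) (RF M (n + 1))
        (X l)))) _ _
      rw [rfbar, rfmap_algebraMap, map_X]
      exact hJX l
    · show κ4 (x i) = 1
      rw [hxi, map_one]
    · show κ4 (β i) = 0
      rw [hβi, map_zero]
  have hae : ∀ G : MvPolynomial (Fin (n + 1)) k, aeval (fun l => κ4 (x l)) G = κ4 (aeval x G) :=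
    fun G => (MvPolynomial.comp_aeval_apply (φ := κ4) x G).symm
  refine Q26_fin P σ i p hdvr J (fun c => ⟨_, hJc c⟩) lam (fun a => rfl) (fun l => κ4 (x l))
    (fun l => κ4 (β l)) hjet ?_ G1 ?_ ?_
  · intro G
    rw [hae, ← hxp]
    exact map_eq_zero_iff κ4 hκ4
  · rw [hae, hG1, map_zero]
  · intro h
    apply hG1'
    apply hκ4
    rw [map_sum, map_zero, ← h]
    refine Finset.sum_congr rfl fun l _ => ?_
    rw [hae, map_mul]

end Pool.Agent.LibHP
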