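import Pool.Agent.LibHPF.CDefs

/-! # Row W3: rational points on the cone over a quadric with a rational point are dense -/

set_option autoImplicit false
open MvPolynomial

namespace Pool.Agent.LibHP

variable {k : Type} [Field k] [CharZero k] {n : ℕ} {φ : Tens k n}

section
variable {k : Type} [Field k] {n : ℕ} {φ : Tens k n} {Ω : Type} [Field Ω] [Algebra k Ω]

theorem w3_map (x y z w : Fin (n + 1) → k) :
    Phi φ (fun i => algebraMap k Ω (x i)) (fun i => algebraMap k Ω (y i))
      (fun i => algebraMap k Ω (z i)) (fun i => algebraMap k Ω (w i)) =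
      algebraMap k Ω (Phi φ x y z w) :=
  (Phi_map φ (Algebra.ofId k Ω) x y z w).symm

theorem w3_prj (x y z : Fin (n + 1) → k) :
    prj φ (fun i => algebraMap k Ω (x i)) (fun i => algebraMap k Ω (y i))
      (fun i => algebraMap k Ω (z i)) = fun i => algebraMap k Ω (prj φ x y z i) :=
  funext fun i => (prj_map φ (Algebra.ofId k Ω) x y z i).symm

theorem w3_st (x y z : Fin (n + 1) → k) :
    st φ (fun i => algebraMap k Ω (x i)) (fun i => algebraMap k Ω (y i))
      (fun i => algebraMap k Ω (z i)) = fun i => algebraMap k Ω (st φ x y z i) :=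
  funext fun i => (st_map φ (Algebra.ofId k Ω) x y z i).symm

/-- Some tangent vector is not orthogonal to `v`. -/
theorem w3_exists (hφ : IsSymm4 φ) (a v e : Fin (n + 1) → k)
    (hav : LinearIndependent k ![a, v]) (he : Phi φ a a a e ≠ 0)
    (hdet : (Matrix.of fun i j : Fin (n + 1) =>
      Phi φ a a (Pi.single i 1) (Pi.single j 1)).det ≠ 0) :
    ∃ z : Fin (n + 1) → k, Phi φ a a v (prj φ a e z) ≠ 0 := by
  by_contra hcon
  push Not at hcon
  set c : k := Phi φ a a v e / Phi φ a a a e with hc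
  have h1 : ∀ z : Fin (n + 1) → k, Phi φ a a (v - c • a) z = 0 := by
    intro z
    have h := hcon z
    simp only [prj, Phi_sub4, Phi_smul4] at h
    rw [Phi_sub3, Phi_smul3, hc]
    field_simp
    linear_combination h
  have h2 : (Matrix.of fun i j : Fin (n + 1) =>
      Phi φ a a (Pi.single i 1) (Pi.single j 1)).mulVec (v - c • a) = 0 := by
    funext i
    show ∑ j, Phi φ a a (Pi.single i 1) (Pi.single j 1) * (v - c • a) j = 0
    have h3 := Phi_eq_sum φ a a (Pi.single i 1) (v - c • a)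
    rw [Phi_comm34 hφ, h1] at h3
    rw [h3]
    exact Finset.sum_congr rfl fun j _ => mul_comm _ _
  have h3 := Matrix.eq_zero_of_mulVec_eq_zero hdet h2
  rw [LinearIndependent.pair_iff] at hav
  have h4 := hav (-c) 1 (by rw [one_smul, neg_smul, neg_add_eq_sub]; exact h3)
  exact one_ne_zero h4.2

end

/-- An isotropic tangent vector over `k` which is not orthogonal to `τ`. -/
theorem w3_isotropic (hφ : IsSymm4 φ) (a v e : Fin (n + 1) → k)
    (hav : LinearIndependent k ![a, v]) (h1 : Phi φ a a a v = 0)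
    (h2 : Phi φ a a v v = 0) (he : Phi φ a a a e ≠ 0)
    (hdet : (Matrix.of fun i j : Fin (n + 1) =>
      Phi φ a a (Pi.single i 1) (Pi.single j 1)).det ≠ 0)
    {Ω : Type} [Field Ω] [Algebra k Ω] (τ : Fin (n + 1) → Ω) (z0 : Fin (n + 1) → k)
    (hz0 : Phi φ (fun i => algebraMap k Ω (a i)) (fun i => algebraMap k Ω (a i)) τ
      (fun i => algebraMap k Ω (prj φ a e z0 i)) ≠ 0) :
    ∃ v' : Fin (n + 1) → k, Phi φ a a a v' = 0 ∧ Phi φ a a v' v' = 0 ∧
      Phi φ (fun i => algebraMap k Ω (a i)) (fun i => algebraMap k Ω (a i))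
        (fun i => algebraMap k Ω (v' i)) τ ≠ 0 := by
  have : CharZero Ω := charZero_of_injective_algebraMap (algebraMap k Ω).injective
  by_cases hv : Phi φ (fun i => algebraMap k Ω (a i)) (fun i => algebraMap k Ω (a i))
      (fun i => algebraMap k Ω (v i)) τ ≠ 0
  · exact ⟨v, h1, h2, hv⟩
  rw [not_not] at hv
  obtain ⟨z1, hz1⟩ := w3_exists hφ a v e hav he hdet
  have hadd : ∀ x y : Fin (n + 1) → k, prj φ a e (x + y) = prj φ a e x + prj φ a e y := by
    intro x y
    simp only [prj, Phi_add4, smul_add, add_smul]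
    abel
  have hz : ∃ z : Fin (n + 1) → k, Phi φ a a v (prj φ a e z) ≠ 0 ∧
      Phi φ (fun i => algebraMap k Ω (a i)) (fun i => algebraMap k Ω (a i)) τ
      (fun i => algebraMap k Ω (prj φ a e z i)) ≠ 0 := by
    by_cases c1 : Phi φ a a v (prj φ a e z0) ≠ 0
    · exact ⟨z0, c1, hz0⟩
    by_cases c2 : Phi φ (fun i => algebraMap k Ω (a i)) (fun i => algebraMap k Ω (a i)) τ
      (fun i => algebraMap k Ω (prj φ a e z1 i)) ≠ 0
    · exact ⟨z1, hz1, c2⟩
    rw [not_not] at c1 c2
    refine ⟨z0 + z1, ?_, ?_⟩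
    · rw [hadd, Phi_add4, c1, zero_add]
      exact hz1
    · have e1 : (fun i => algebraMap k Ω (prj φ a e (z0 + z1) i)) =
          (fun i => algebraMap k Ω (prj φ a e z0 i)) +
            fun i => algebraMap k Ω (prj φ a e z1 i) := by
        funext i
        rw [hadd, Pi.add_apply, Pi.add_apply, map_add]
      rw [e1, Phi_add4, c2, add_zero]
      exact hz0
  obtain ⟨z, hz2, hz3⟩ := hz
  refine ⟨st φ a v (prj φ a e z), Phi_st1 _ _ _ h1 (Phi_prj _ _ _), Phi_st2 hφ _ _ _ h2, ?_⟩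
  rw [← w3_st]
  have e2 : Phi φ (fun i => algebraMap k Ω (a i)) (fun i => algebraMap k Ω (a i))
      (fun i => algebraMap k Ω (v i)) (fun i => algebraMap k Ω (prj φ a e z i)) ≠ 0 := by
    rw [w3_map]
    intro h
    exact hz2 ((map_eq_zero_iff _ (algebraMap k Ω).injective).mp h)
  simp only [st, Phi_sub3, Phi_smul3, hv]
  rw [mul_zero, zero_sub, neg_ne_zero, Phi_comm34 hφ _ _ (fun i => algebraMap k Ω
    (prj φ a e z i)) τ]
  exact mul_ne_zero (mul_ne_zero two_ne_zero e2) hz3

theorem exists_rational_point (hφ : IsSymm4 φ) (a v e : Fin (n + 1) → k)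
    (hav : LinearIndependent k ![a, v]) (h0 : Phi φ a a a a = 0) (h1 : Phi φ a a a v = 0)
    (h2 : Phi φ a a v v = 0) (he : Phi φ a a a e ≠ 0)
    (hdet : (Matrix.of fun i j : Fin (n + 1) =>
      Phi φ a a (Pi.single i 1) (Pi.single j 1)).det ≠ 0)
    (H : MvPolynomial (Fin (n + 1)) k) {Ω : Type} [Field Ω] [Algebra k Ω] (η : Fin (n + 1) → Ω)
    (hη : qW φ (fun i => algebraMap k Ω (a i)) (fun i => algebraMap k Ω (e i)) η = 0)
    (hH : aeval η H ≠ 0) (z0 : Fin (n + 1) → k)
    (hz0 : Phi φ (fun i => algebraMap k Ω (a i)) (fun i => algebraMap k Ω (a i))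
      (prj φ (fun i => algebraMap k Ω (a i)) (fun i => algebraMap k Ω (e i)) η)
      (prj φ (fun i => algebraMap k Ω (a i)) (fun i => algebraMap k Ω (e i))
        (fun i => algebraMap k Ω (z0 i))) ≠ 0) :
    ∃ b : Fin (n + 1) → k, qW φ a e b = 0 ∧ aeval b H ≠ 0 := by
  have : CharZero Ω := charZero_of_injective_algebraMap (algebraMap k Ω).injective
  rw [w3_prj] at hz0
  obtain ⟨v', h3, h4, h5⟩ := w3_isotropic hφ a v e hav h1 h2 he hdet _ z0 hz0
  -- the generic point of the parametrisation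
  set N : MvPolynomial (Fin (n + 1) ⊕ Fin 2) k :=
    aeval (fun i => (X (Sum.inr 0) : MvPolynomial (Fin (n + 1) ⊕ Fin 2) k) *
      st φ (fun i => algebraMap k _ (a i)) (fun i => algebraMap k _ (v' i))
        (prj φ (fun i => algebraMap k _ (a i)) (fun i => algebraMap k _ (e i))
          (fun i => X (Sum.inl i))) i + X (Sum.inr 1) * algebraMap k _ (e i)) H with hN
  have key : ∀ {R : Type} [Field R] [Algebra k R] (p : Fin (n + 1) ⊕ Fin 2 → R),
      aeval p N = aeval (fun i => p (Sum.inr 0) *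
      st φ (fun i => algebraMap k R (a i)) (fun i => algebraMap k R (v' i))
        (prj φ (fun i => algebraMap k R (a i)) (fun i => algebraMap k R (e i))
          (fun i => p (Sum.inl i))) i + p (Sum.inr 1) * algebraMap k R (e i)) H := by
    intro R _ _ p
    rw [hN, comp_aeval_apply]
    congr 2
    funext i
    simp only [map_add, map_mul, aeval_X, st_map, prj_map, AlgHom.commutes]
  have hN0 : N ≠ 0 := by
    intro hN0
    set aΩ : Fin (n + 1) → Ω := fun i => algebraMap k Ω (a i) with haΩ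
    set eΩ : Fin (n + 1) → Ω := fun i => algebraMap k Ω (e i) with heΩ
    set vΩ : Fin (n + 1) → Ω := fun i => algebraMap k Ω (v' i) with hvΩ
    set τ : Fin (n + 1) → Ω := prj φ aΩ eΩ η with hτ
    have hε : Phi φ aΩ aΩ aΩ eΩ ≠ 0 := by
      rw [haΩ, heΩ, w3_map]
      intro h
      exact he ((map_eq_zero_iff _ (algebraMap k Ω).injective).mp h)
    have h6 : Phi φ aΩ aΩ τ τ = 0 := hη
    have h := key (R := Ω) (Sum.elim η ![-1 / (2 * Phi φ aΩ aΩ aΩ eΩ * Phi φ aΩ aΩ vΩ τ),
      Phi φ aΩ aΩ aΩ η / Phi φ aΩ aΩ aΩ eΩ])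
    rw [hN0, map_zero] at h
    apply hH
    rw [h]
    congr 2
    funext i
    simp only [Sum.elim_inl, Sum.elim_inr, Matrix.cons_val_zero, Matrix.cons_val_one]
    show η i = _ * st φ aΩ vΩ τ i + _ * eΩ i
    have h7 : st φ aΩ vΩ τ i = -(2 * Phi φ aΩ aΩ vΩ τ) *
        (Phi φ aΩ aΩ aΩ eΩ * η i - Phi φ aΩ aΩ aΩ η * eΩ i) := by
      simp only [st, h6, Pi.sub_apply, Pi.smul_apply, smul_eq_mul]
      have h8 : τ i = Phi φ aΩ aΩ aΩ eΩ * η i - Phi φ aΩ aΩ aΩ η * eΩ i := by
        simp only [hτ, prj, Pi.sub_apply, Pi.smul_apply, smul_eq_mul]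
      rw [h8]
      ring
    rw [h7]
    field_simp
    ring
  have hp : ∃ p : Fin (n + 1) ⊕ Fin 2 → k, aeval p N ≠ 0 := by
    by_contra hcon
    push Not at hcon
    apply hN0
    refine MvPolynomial.funext fun p => ?_
    rw [map_zero, ← hcon p]
    rfl
  obtain ⟨p, hp⟩ := hp
  set z : Fin (n + 1) → k := fun i => p (Sum.inl i) with hz
  refine ⟨p (Sum.inr 0) • st φ a v' (prj φ a e z) + p (Sum.inr 1) • e, ?_, ?_⟩
  · have h6 : Phi φ a a a (st φ a v' (prj φ a e z)) = 0 := Phi_st1 _ _ _ h3 (Phi_prj _ _ _)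
    have h7 := Phi_st2 hφ a v' (prj φ a e z) h4
    have h8 : prj φ a e (p (Sum.inr 0) • st φ a v' (prj φ a e z) + p (Sum.inr 1) • e) =
        (p (Sum.inr 0) * Phi φ a a a e) • st φ a v' (prj φ a e z) := by
      rw [prj, Phi_add4, Phi_smul4, Phi_smul4, h6]
      simp only [smul_add, smul_smul]
      rw [mul_zero, zero_add, mul_comm (Phi φ a a a e) (p (Sum.inr 1)),
        mul_comm (Phi φ a a a e) (p (Sum.inr 0)), add_sub_cancel_right]
    rw [qW, h8, Phi_smul3, Phi_smul4, h7, mul_zero, mul_zero]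
  · have h := key (R := k) p
    rw [h] at hp
    exact hp

end Pool.Agent.LibHP
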