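import Mathlib

/-! # Row W1: extension of homomorphisms into an algebraically closed field

(Atiyah-Macdonald 5.23.) Proof. Integral extensions: lying over and `IsAlgClosed.lift`. Algebraic
extensions of finite type: a common denominator of the generators. General case: a transcendence
basis, at which the homomorphism takes suitable values. -/

set_option autoImplicit false

namespace Pool.Agent.LibHP

theorem W1_integral (A B Ω : Type) [CommRing A] [CommRing B] [Algebra A B]
    (hinj : Function.Injective (algebraMap A B)) [Algebra.IsIntegral A B] [Field Ω]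
    [IsAlgClosed Ω] (α : A →+* Ω) : ∃ β : B →+* Ω, ∀ a, β (algebraMap A B a) = α a := by
  have : (RingHom.ker α).IsPrime := RingHom.ker_isPrime α
  obtain ⟨Q, -, hQ, hQα⟩ := Ideal.exists_ideal_over_prime_of_isIntegral (RingHom.ker α)
    (⊥ : Ideal B) (by
      rw [← RingHom.ker_eq_comap_bot, (RingHom.injective_iff_ker_eq_bot _).1 hinj]
      exact bot_le)
  have := hQ
  have hk : ∀ a ∈ Q.comap (algebraMap A B), α a = 0 := by
    intro a ha
    rw [hQα] at ha
    exact ha
  let i1 : Algebra (A ⧸ Q.comap (algebraMap A B)) Ω :=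
    (Ideal.Quotient.lift (Q.comap (algebraMap A B)) α hk).toAlgebra
  have hinjΩ : Function.Injective (algebraMap (A ⧸ Q.comap (algebraMap A B)) Ω) := by
    change Function.Injective (Ideal.Quotient.lift (Q.comap (algebraMap A B)) α hk)
    apply RingHom.lift_injective_of_ker_le_ideal
    rw [hQα]
  have hinjB : Function.Injective (algebraMap (A ⧸ Q.comap (algebraMap A B)) (B ⧸ Q)) :=
    Ideal.algebraMap_quotient_injective
  have : (Q.comap (algebraMap A B)).IsPrime := Ideal.IsPrime.comap _
  have : Module.IsTorsionFree (A ⧸ Q.comap (algebraMap A B)) Ω :=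
    (faithfulSMul_iff_algebraMap_injective _ _ |>.2 hinjΩ) |> fun h => by
      have := h
      infer_instance
  have : Module.IsTorsionFree (A ⧸ Q.comap (algebraMap A B)) (B ⧸ Q) :=
    (faithfulSMul_iff_algebraMap_injective _ _ |>.2 hinjB) |> fun h => by
      have := h
      infer_instance
  have : Algebra.IsIntegral (A ⧸ Q.comap (algebraMap A B)) (B ⧸ Q) := by
    refine ⟨fun b => ?_⟩
    obtain ⟨b, rfl⟩ := Ideal.Quotient.mk_surjective b
    have h1 : IsIntegral A (Ideal.Quotient.mk Q b) :=
      (Algebra.IsIntegral.isIntegral (R := A) b).map (Ideal.Quotient.mkₐ A Q)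
    exact h1.tower_top
  have : Algebra.IsAlgebraic (A ⧸ Q.comap (algebraMap A B)) (B ⧸ Q) := inferInstance
  let f : (B ⧸ Q) →ₐ[A ⧸ Q.comap (algebraMap A B)] Ω := IsAlgClosed.lift
  refine ⟨f.toRingHom.comp (Ideal.Quotient.mk Q), fun a => ?_⟩
  have h2 := f.commutes (Ideal.Quotient.mk _ a)
  exact h2

theorem W1_ext (C B Ω : Type) [CommRing C] [CommRing B] [IsDomain B] [Algebra C B]
    (hinj : Function.Injective (algebraMap C B)) [Field Ω] (d : C)
    (h : ∀ b : B, ∃ N : ℕ, ∃ c : C, algebraMap C B c = b * algebraMap C B d ^ N)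
    (γ : C →+* Ω) (hd : γ d ≠ 0) : ∃ β : B →+* Ω, ∀ c, β (algebraMap C B c) = γ c := by
  have hd0 : algebraMap C B d ≠ 0 := by
    intro h0
    apply hd
    rw [← map_zero (algebraMap C B)] at h0
    rw [hinj h0, map_zero]
  have hle : Submonoid.powers (algebraMap C B d) ≤ nonZeroDivisors B :=
    powers_le_nonZeroDivisors_of_noZeroDivisors hd0
  have hinj' : Function.Injective (algebraMap B (Localization.Away (algebraMap C B d))) :=
    IsLocalization.injective _ hle
  have htow : ∀ c : C, algebraMap C (Localization.Away (algebraMap C B d)) c =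
      algebraMap B (Localization.Away (algebraMap C B d)) (algebraMap C B c) := fun c =>
    IsScalarTower.algebraMap_apply C B _ c
  have : IsLocalization.Away d (Localization.Away (algebraMap C B d)) := by
    refine ⟨?_, ?_, ?_⟩
    · rintro ⟨_, n, rfl⟩
      rw [htow, map_pow, map_pow]
      exact (IsLocalization.Away.algebraMap_isUnit (algebraMap C B d)).pow n
    · intro z
      obtain ⟨⟨b, ⟨_, n, rfl⟩⟩, hz⟩ := IsLocalization.surj (Submonoid.powers (algebraMap C B d)) z
      obtain ⟨N, c, hc⟩ := h b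
      refine ⟨⟨c, ⟨d ^ (n + N), ⟨n + N, rfl⟩⟩⟩, ?_⟩
      simp only at hz ⊢
      rw [htow, htow, hc, map_pow, pow_add, map_mul, map_mul, ← hz]
      ring
    · intro x y hxy
      rw [htow, htow] at hxy
      exact ⟨1, by rw [hinj (hinj' hxy)]⟩
  refine ⟨(IsLocalization.Away.lift d (isUnit_iff_ne_zero.2 hd)).comp
    (algebraMap B (Localization.Away (algebraMap C B d))), fun c => ?_⟩
  rw [RingHom.comp_apply, ← htow]
  exact IsLocalization.Away.lift_eq d _ c

theorem W1_algebraic (A B Ω : Type) [CommRing A] [IsDomain A] [CommRing B] [IsDomain B]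
    [Algebra A B] (hinj : Function.Injective (algebraMap A B)) [Algebra.FiniteType A B]
    [Algebra.IsAlgebraic A B] [Field Ω] [IsAlgClosed Ω] (v : B) (hv : v ≠ 0) :
    ∃ u : A, u ≠ 0 ∧ ∀ α : A →+* Ω, α u ≠ 0 →
      ∃ β : B →+* Ω, (∀ a, β (algebraMap A B a) = α a) ∧ β v ≠ 0 := by
  have : FaithfulSMul A B := (faithfulSMul_iff_algebraMap_injective _ _).2 hinj
  obtain ⟨s, hs⟩ := ‹Algebra.FiniteType A B›.out
  obtain ⟨y, hy, hint⟩ := Algebra.IsAlgebraic.exists_integral_multiples A s
  obtain ⟨r, hr, v', hv'⟩ := (Algebra.IsAlgebraic.isAlgebraic (R := A) v).exists_nonzero_dvd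
    (mem_nonZeroDivisors_of_ne_zero hv)
  have hden : ∀ b : B, ∃ N : ℕ, IsIntegral A (y ^ N • b) := by
    intro b
    have hb : b ∈ Algebra.adjoin A (s : Set B) := by
      rw [hs]
      trivial
    induction hb using Algebra.adjoin_induction with
    | mem x hx => exact ⟨1, by rw [pow_one]; exact hint x hx⟩
    | algebraMap a => exact ⟨0, by rw [pow_zero, one_smul]; exact isIntegral_algebraMap⟩
    | add a b _ _ ha hb =>
      obtain ⟨N, hN⟩ := ha
      obtain ⟨K, hK⟩ := hb
      refine ⟨N + K, ?_⟩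
      have e : y ^ (N + K) • (a + b) = y ^ K • (y ^ N • a) + y ^ N • (y ^ K • b) := by
        rw [smul_smul, smul_smul, smul_add, pow_add, mul_comm (y ^ K)]
      rw [e]
      exact (hN.smul _).add (hK.smul _)
    | mul a b _ _ ha hb =>
      obtain ⟨N, hN⟩ := ha
      obtain ⟨K, hK⟩ := hb
      refine ⟨N + K, ?_⟩
      have e : y ^ (N + K) • (a * b) = (y ^ N • a) * (y ^ K • b) := by
        rw [smul_mul_smul_comm, pow_add]
      rw [e]
      exact hN.mul hK
  refine ⟨y * r, mul_ne_zero hy hr, fun α hα => ?_⟩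
  rw [map_mul] at hα
  have hα1 : α y ≠ 0 := left_ne_zero_of_mul hα
  have hα2 : α r ≠ 0 := right_ne_zero_of_mul hα
  have hinjC : Function.Injective (algebraMap A (integralClosure A B)) := by
    intro a b hab
    apply hinj
    have := congrArg (algebraMap (integralClosure A B) B) hab
    rwa [← IsScalarTower.algebraMap_apply, ← IsScalarTower.algebraMap_apply] at this
  obtain ⟨γ, hγ⟩ := W1_integral A (integralClosure A B) Ω hinjC α
  obtain ⟨β, hβ⟩ := W1_ext (integralClosure A B) B Ω
    (FaithfulSMul.algebraMap_injective _ _) (algebraMap A (integralClosure A B) y) (by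
      intro b
      obtain ⟨N, hN⟩ := hden b
      refine ⟨N, ⟨y ^ N • b, hN⟩, ?_⟩
      rw [← IsScalarTower.algebraMap_apply]
      change y ^ N • b = _
      rw [Algebra.smul_def, map_pow, mul_comm]) γ (by rw [hγ]; exact hα1)
  have hβA : ∀ a, β (algebraMap A B a) = α a := by
    intro a
    rw [IsScalarTower.algebraMap_apply A (integralClosure A B) B, hβ, hγ]
  refine ⟨β, hβA, fun h0 => hα2 ?_⟩
  rw [← hβA, hv', map_mul, h0, zero_mul]

theorem exists_hom_extension (A B Ω : Type) [CommRing A] [IsDomain A] [CommRing B] [IsDomain B]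
    [Algebra A B] (hinj : Function.Injective (algebraMap A B)) [Algebra.FiniteType A B] [Field Ω]
    [IsAlgClosed Ω] (v : B) (hv : v ≠ 0) :
    ∃ u : A, u ≠ 0 ∧ ∀ α : A →+* Ω, α u ≠ 0 →
      ∃ β : B →+* Ω, (∀ a, β (algebraMap A B a) = α a) ∧ β v ≠ 0 := by
  have : FaithfulSMul A B := (faithfulSMul_iff_algebraMap_injective _ _).2 hinj
  obtain ⟨s, hs⟩ := exists_isTranscendenceBasis A B
  let : Algebra (MvPolynomial s A) B := (MvPolynomial.aeval (Subtype.val : s → B)).toAlgebra
  have : IsScalarTower A (MvPolynomial s A) B := IsScalarTower.of_algebraMap_eq fun a => by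
    change _ = MvPolynomial.aeval (Subtype.val : s → B) (MvPolynomial.C a)
    rw [MvPolynomial.aeval_C]
  have hinj' : Function.Injective (algebraMap (MvPolynomial s A) B) := hs.1
  have : Algebra.FiniteType (MvPolynomial s A) B :=
    Algebra.FiniteType.of_restrictScalars_finiteType A (MvPolynomial s A) B
  have : Algebra.IsAlgebraic (MvPolynomial s A) B := by
    have h1 := hs.isAlgebraic
    refine ⟨fun b => ?_⟩
    obtain ⟨p, hp, hpb⟩ := h1.isAlgebraic b
    let e := hs.1.aevalEquiv
    refine ⟨p.map e.symm.toRingHom, ?_, ?_⟩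
    · exact (Polynomial.map_ne_zero_iff e.symm.injective).2 hp
    · rw [Polynomial.aeval_def, Polynomial.eval₂_map]
      rw [Polynomial.aeval_def] at hpb
      rw [← hpb]
      congr 1
      ext x
      obtain ⟨q, rfl⟩ := e.surjective x
      change MvPolynomial.aeval _ (e.symm (e q)) = _
      rw [e.symm_apply_apply]
      rfl
  obtain ⟨w, hw, H⟩ := W1_algebraic (MvPolynomial s A) B Ω hinj' v hv
  obtain ⟨m, hm⟩ := MvPolynomial.exists_coeff_ne_zero hw
  refine ⟨w.coeff m, hm, fun α hα => ?_⟩
  have h2 : MvPolynomial.map α w ≠ 0 := by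
    intro h0
    apply hα
    rw [← MvPolynomial.coeff_map, h0, MvPolynomial.coeff_zero]
  obtain ⟨ξ, hξ⟩ : ∃ ξ : s → Ω, MvPolynomial.eval ξ (MvPolynomial.map α w) ≠ 0 := by
    by_contra hcon
    push Not at hcon
    exact h2 (MvPolynomial.funext fun x => by rw [hcon x, map_zero])
  obtain ⟨β, hβ, hβv⟩ := H (MvPolynomial.eval₂Hom α ξ) (by
    rw [MvPolynomial.coe_eval₂Hom, ← MvPolynomial.eval_map]
    exact hξ)
  refine ⟨β, fun a => ?_, hβv⟩
  rw [IsScalarTower.algebraMap_apply A (MvPolynomial s A) B, hβ, MvPolynomial.algebraMap_eq,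
    MvPolynomial.coe_eval₂Hom, MvPolynomial.eval₂_C]

end Pool.Agent.LibHP
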