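import Pool.Agent.LibHPF.Q7
import Pool.Agent.LibHPF.Q4
import Pool.Agent.LibHPF.QD

set_option autoImplicit false
open MvPolynomial

namespace Pool.Agent.LibHP

/-! ### Lemma C, abstract part: definitions

The variables `s1, s2` are `X (Sum.inl 0)`, `X (Sum.inl 1)`, the variables `t_i` are `X (Sum.inr i)`;
the parameters `y, t_i` of the stereographic projection are `X none`, `X (some i)`. -/

section
variable {Ω : Type} [Field Ω] {m : ℕ}

/-- The quadratic form `2 b s1 s2 + g(t)`. -/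
noncomputable def qC (b : Ω) (g : MvPolynomial (Fin m) Ω) : MvPolynomial (Fin 2 ⊕ Fin m) Ω :=
  C (2 * b) * X (Sum.inl 0) * X (Sum.inl 1) + rename Sum.inr g

/-- The stereographic parametrisation `(s1, s2, t) = (g(t), - 2 b y^2, - 2 b y t)` of the cone
`2 b s1 s2 + g(t) = 0`. -/
noncomputable def par (b : Ω) (g : MvPolynomial (Fin m) Ω) :
    MvPolynomial (Fin 2 ⊕ Fin m) Ω →ₐ[Ω] MvPolynomial (Option (Fin m)) Ω :=
  aeval (Sum.elim ![rename some g, C (-2 * b) * X none ^ 2]
    (fun i => C (-2 * b) * X none * X (some i)))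

/-- The ideal generated by `s2` and `q`. -/
noncomputable def idC (b : Ω) (g : MvPolynomial (Fin m) Ω) : Ideal (MvPolynomial (Fin 2 ⊕ Fin m) Ω) :=
  Ideal.span {X (Sum.inl 1), qC b g}

/-- At the nonzero common zeros of `q, c, r` the gradients are linearly independent. -/
def IndepGrad (q c r : MvPolynomial (Fin 2 ⊕ Fin m) Ω) : Prop :=
  ∀ v : Fin 2 ⊕ Fin m → Ω, v ≠ 0 → eval v q = 0 → eval v c = 0 → eval v r = 0 →
    ∀ ρ₁ ρ₂ ρ₃ : Ω, (∀ i, ρ₁ * eval v (pderiv i q) + ρ₂ * eval v (pderiv i c) +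
      ρ₃ * eval v (pderiv i r) = 0) → ρ₁ = 0 ∧ ρ₂ = 0 ∧ ρ₃ = 0

end

/-! ### Lemma C, geometric part: definitions -/

section
variable {k : Type} [Field k] {n : ℕ} (φ : Tens k n)

variable {Ω : Type} [Field Ω] [Algebra k Ω] {J : Type} [Fintype J]

/-- The generic vector `∑ j, X_j B_j` of the span of the vectors `B_j`. -/
noncomputable def gvec (B : J → Fin (n + 1) → Ω) : Fin (n + 1) → MvPolynomial J Ω :=
  fun i => ∑ j, C (B j i) * X j

/-- The cubic form `φ(P, v, v, v)` on the span of the `B_j`. -/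
noncomputable def cubC (P : Fin (n + 1) → Ω) (B : J → Fin (n + 1) → Ω) : MvPolynomial J Ω :=
  Phi φ (fun i => C (P i)) (gvec B) (gvec B) (gvec B)

/-- The quartic form `φ(v, v, v, v)` on the span of the `B_j`. -/
noncomputable def quarC (B : J → Fin (n + 1) → Ω) : MvPolynomial J Ω :=
  Phi φ (gvec B) (gvec B) (gvec B) (gvec B)

/-- The quadratic form `φ(P, P, v, v)` on the span of the `B_j`. -/
noncomputable def quaC (P : Fin (n + 1) → Ω) (B : J → Fin (n + 1) → Ω) : MvPolynomial J Ω :=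
  Phi φ (fun i => C (P i)) (fun i => C (P i)) (gvec B) (gvec B)

/-- An adapted frame of the tangent hyperplane `φ(P, P, P, ·) = 0` at `P`, the second fundamental form
being `2 b s1 s2 + g(t)` on `s1 w + s2 w2 + ∑ t_i u_i`. -/
structure Frame {m : ℕ} (P w w2 : Fin (n + 1) → Ω) (u : Fin m → Fin (n + 1) → Ω) (b : Ω) :
    Prop where
  ne : b ≠ 0
  t1 : Phi φ P P P w = 0
  t2 : Phi φ P P P w2 = 0
  t3 : ∀ i, Phi φ P P P (u i) = 0
  q11 : Phi φ P P w w = 0
  q12 : Phi φ P P w w2 = b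
  q22 : Phi φ P P w2 w2 = 0
  q1u : ∀ i, Phi φ P P w (u i) = 0
  q2u : ∀ i, Phi φ P P w2 (u i) = 0
  ind : LinearIndependent Ω (Sum.elim ![P, w, w2] u)
  span : ∀ τ : Fin (n + 1) → Ω, Phi φ P P P τ = 0 →
    τ ∈ Submodule.span Ω (Set.range (Sum.elim ![P, w, w2] u))

/-- The quadratic form in the variables `t`. -/
noncomputable def gC {m : ℕ} (P : Fin (n + 1) → Ω) (u : Fin m → Fin (n + 1) → Ω) :
    MvPolynomial (Fin m) Ω := quaC φ P u

/-- The frame vectors `w, w2, u_i`. -/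
def frB {m : ℕ} (w w2 : Fin (n + 1) → Ω) (u : Fin m → Fin (n + 1) → Ω) :
    Fin 2 ⊕ Fin m → Fin (n + 1) → Ω := Sum.elim ![w, w2] u

end

/-! ### The forms on `M[z]` -/

section
variable {k : Type} [Field k] {n : ℕ} (φ : Tens k n)
variable {M : Type} [Field M] [Algebra k M]

/-- The generic stereographic vector. -/
noncomputable def vM (P e w : Fin (n + 1) → M) : Fin (n + 1) → MvPolynomial (Fin (n + 1)) M :=
  st φ (fun i => C (P i)) (fun i => C (w i)) (prj φ (fun i => C (P i)) (fun i => C (e i)) X)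

noncomputable def gamM (P e w : Fin (n + 1) → M) : MvPolynomial (Fin (n + 1)) M :=
  Phi φ (fun i => C (P i)) (vM φ P e w) (vM φ P e w) (vM φ P e w)

noncomputable def rhoM (P e w : Fin (n + 1) → M) : MvPolynomial (Fin (n + 1)) M :=
  Phi φ (vM φ P e w) (vM φ P e w) (vM φ P e w) (vM φ P e w)

/-- The linear form `φ(P, P, w, prj z)`. -/
noncomputable def linM (P e w : Fin (n + 1) → M) : MvPolynomial (Fin (n + 1)) M :=
  Phi φ (fun i => C (P i)) (fun i => C (P i)) (fun i => C (w i))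
    (prj φ (fun i => C (P i)) (fun i => C (e i)) X)

end

end Pool.Agent.LibHP
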