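import Pool.Agent.LibHPF.Defs
import Pool.Agent.LibHPF.CDefs

/-! # Density of points from generators -/

set_option autoImplicit false
open MvPolynomial

namespace Pool.Agent.LibHP

/-- The pairs `(z, c)` such that `z` is a fraction in `x`, defined at `p`, with value `c` at `p`. -/
noncomputable def W4_T {k M ι : Type} [Field k] [Field M] [Algebra k M] (x : ι → M) (p : ι → k) :
    Subalgebra k (M × k) where
  carrier := {c | ∃ H A : MvPolynomial ι k, aeval p H ≠ 0 ∧ c.1 * aeval x H = aeval x A ∧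
    c.2 * aeval p H = aeval p A}
  mul_mem' := by
    rintro a b ⟨H, A, h1, h2, h3⟩ ⟨H', A', h1', h2', h3'⟩
    refine ⟨H * H', A * A', ?_, ?_, ?_⟩
    · rw [map_mul]
      exact mul_ne_zero h1 h1'
    · rw [map_mul, map_mul, Prod.fst_mul, ← h2, ← h2']
      ring
    · rw [map_mul, map_mul, Prod.snd_mul, ← h3, ← h3']
      ring
  add_mem' := by
    rintro a b ⟨H, A, h1, h2, h3⟩ ⟨H', A', h1', h2', h3'⟩
    refine ⟨H * H', A * H' + A' * H, ?_, ?_, ?_⟩
    · rw [map_mul]
      exact mul_ne_zero h1 h1'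
    · rw [map_add, map_mul, map_mul, map_mul, Prod.fst_add, ← h2, ← h2']
      ring
    · rw [map_add, map_mul, map_mul, map_mul, Prod.snd_add, ← h3, ← h3']
      ring
  algebraMap_mem' := by
    intro r
    refine ⟨1, C r, ?_, ?_, ?_⟩
    · rw [map_one]
      exact one_ne_zero
    · rw [map_one, mul_one, aeval_C]
      rfl
    · rw [map_one, mul_one, aeval_C]
      rfl

theorem densePts_of_gen (k M ι : Type) [Field k] [Field M] [Algebra k M] [Finite ι] (x : ι → M)
    (hgen : GenBy k x)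
    (h : ∀ H : MvPolynomial ι k, aeval x H ≠ 0 → ∃ p : ι → k,
      (∀ G : MvPolynomial ι k, aeval x G = 0 → aeval p G = 0) ∧ aeval p H ≠ 0) :
    DensePts k M := by
  classical
  intro R hR α hα
  obtain ⟨S, hS⟩ := hR
  choose G H hH hG using hgen
  have hα' : (α : M) ≠ 0 := fun h0 => hα (Subtype.ext h0)
  have hA : aeval x (G α) ≠ 0 := by
    rw [← hG]
    exact mul_ne_zero hα' (hH _)
  obtain ⟨p, hp1, hp2⟩ := h ((∏ s ∈ S, H s) * G α) (by
    rw [map_mul, map_prod]
    exact mul_ne_zero (Finset.prod_ne_zero_iff.2 fun s _ => hH s) hA)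
  rw [map_mul, map_prod] at hp2
  have hp3 : ∀ s ∈ S, aeval p (H s) ≠ 0 := Finset.prod_ne_zero_iff.1 (left_ne_zero_of_mul hp2)
  have hp4 : aeval p (G α) ≠ 0 := right_ne_zero_of_mul hp2
  have hp5 : ∀ H : MvPolynomial ι k, aeval p H ≠ 0 → aeval x H ≠ 0 := fun H h1 h2 => h1 (hp1 H h2)
  have hp6 : ∀ A B : MvPolynomial ι k, aeval x A = aeval x B → aeval p A = aeval p B := by
    intro A B hAB
    have h1 := hp1 (A - B) (by rw [map_sub, hAB, sub_self])
    rw [map_sub] at h1
    exact sub_eq_zero.1 h1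
  set T := W4_T x p with hT
  set f : T →ₐ[k] M := (AlgHom.fst k M k).comp T.val with hf
  have hinj : Function.Injective f := by
    rw [injective_iff_map_eq_zero]
    rintro ⟨⟨z, c⟩, ⟨H', A, h1, h2, h3⟩⟩ hz
    have hz' : z = 0 := hz
    subst hz'
    simp only at h2 h3
    rw [zero_mul] at h2
    have h4 : aeval p A = 0 := hp1 A h2.symm
    rw [h4] at h3
    have h5 : c = 0 := (mul_eq_zero.1 h3).resolve_right h1
    subst h5
    rfl
  have hle : R ≤ f.range := by
    rw [← hS]
    refine Algebra.adjoin_le ?_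
    intro s hs
    have hs' : s ∈ S := hs
    refine ⟨⟨(s, aeval p (G s) / aeval p (H s)), H s, G s, hp3 s hs', hG s, ?_⟩, rfl⟩
    simp only
    rw [div_mul_cancel₀ _ (hp3 s hs')]
  set e := AlgEquiv.ofInjective f hinj with he
  refine ⟨((AlgHom.snd k M k).comp T.val).comp (e.symm.toAlgHom.comp (Subalgebra.inclusion hle)),
    ?_⟩
  set t : T := e.symm (Subalgebra.inclusion hle α) with ht
  have h1 : f t = α := by
    have h2 := e.apply_symm_apply (Subalgebra.inclusion hle α)
    have h3 := congrArg Subtype.val h2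
    exact h3
  change (t : M × k).2 ≠ 0
  obtain ⟨H', A', h2, h3, h4⟩ := t.2
  have h5 : (t : M × k).1 = α := h1
  rw [h5] at h3
  have h6 : aeval p (A' * H α) = aeval p (G α * H') := by
    apply hp6
    rw [map_mul, map_mul, ← h3, ← hG]
    ring
  rw [map_mul, map_mul] at h6
  intro h7
  rw [h7, zero_mul] at h4
  rw [← h4, zero_mul] at h6
  exact mul_ne_zero hp4 h2 h6.symm

theorem W4_clear (k K M : Type) [Field k] [Field K] [Field M] [Algebra k K] [Algebra K M]
    [Algebra k M] [IsScalarTower k K M] {ι ι' : Type} (P : ι → K)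
    (W : ι' → M) (hK : GenBy k P) (G : MvPolynomial ι' K) :
    ∃ (d : MvPolynomial ι k) (G' : MvPolynomial (ι ⊕ ι') k), aeval P d ≠ 0 ∧
      aeval (Sum.elim (fun i => algebraMap K M (P i)) W) G' =
        algebraMap K M (aeval P d) * aeval W G := by
  have hren : ∀ g : MvPolynomial ι k,
      aeval (Sum.elim (fun i => algebraMap K M (P i)) W) (rename Sum.inl g) =
        algebraMap K M (aeval P g) := by
    intro g
    rw [aeval_rename]
    have e1 : (Sum.elim (fun i => algebraMap K M (P i)) W) ∘ Sum.inl =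
        fun i => algebraMap K M (P i) := rfl
    rw [e1]
    have e2 := MvPolynomial.aeval_algebraMap_apply (R := k) (A := K) M P g
    exact e2
  induction G using MvPolynomial.induction_on with
  | C a =>
    obtain ⟨g, d, hd, hg⟩ := hK a
    refine ⟨d, rename Sum.inl g, hd, ?_⟩
    rw [hren, ← hg, aeval_C, map_mul]
    ring
  | add G₁ G₂ ih₁ ih₂ =>
    obtain ⟨d₁, G₁', h1, h2⟩ := ih₁
    obtain ⟨d₂, G₂', h3, h4⟩ := ih₂
    refine ⟨d₁ * d₂, rename Sum.inl d₂ * G₁' + rename Sum.inl d₁ * G₂', ?_, ?_⟩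
    · rw [map_mul]
      exact mul_ne_zero h1 h3
    · rw [map_add, map_mul, map_mul, hren, hren, h2, h4, map_mul, map_mul, map_add]
      ring
  | mul_X G i ih =>
    obtain ⟨d, G', h1, h2⟩ := ih
    refine ⟨d, G' * X (Sum.inr i), h1, ?_⟩
    rw [map_mul, h2, aeval_X, map_mul, aeval_X, Sum.elim_inr, mul_assoc]

theorem genBy_sum (k K M : Type) [Field k] [Field K] [Field M] [Algebra k K] [Algebra K M]
    [Algebra k M] [IsScalarTower k K M] {ι ι' : Type} [Finite ι] [Finite ι'] (P : ι → K)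
    (W : ι' → M) (hK : GenBy k P) (hM : GenBy K W) :
    GenBy k (Sum.elim (fun i => algebraMap K M (P i)) W) := by
  intro z
  obtain ⟨G, H, hH, hz⟩ := hM z
  obtain ⟨d₁, G', h1, h2⟩ := W4_clear k K M P W hK G
  obtain ⟨d₂, H', h3, h4⟩ := W4_clear k K M P W hK H
  have hren : ∀ g : MvPolynomial ι k,
      aeval (Sum.elim (fun i => algebraMap K M (P i)) W) (rename Sum.inl g) =
        algebraMap K M (aeval P g) := by
    intro g
    rw [aeval_rename]
    have e1 : (Sum.elim (fun i => algebraMap K M (P i)) W) ∘ Sum.inl =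
        fun i => algebraMap K M (P i) := rfl
    rw [e1]
    exact MvPolynomial.aeval_algebraMap_apply (R := k) (A := K) M P g
  have hn : ∀ a : K, a ≠ 0 → algebraMap K M a ≠ 0 := fun a ha =>
    (map_ne_zero (algebraMap K M)).2 ha
  refine ⟨G' * rename Sum.inl d₂, H' * rename Sum.inl d₁, ?_, ?_⟩
  · rw [map_mul, h4, hren]
    exact mul_ne_zero (mul_ne_zero (hn _ h3) hH) (hn _ h1)
  · rw [map_mul, map_mul, h4, h2, hren, hren, ← hz]
    ring

end Pool.Agent.LibHP
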