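import Pool.Agent.LibHPF.CDefs

/-! # Row W2: the relations between `P` and `W` hold at the special points

`eval_of_rel_pt`: homogenise `G` with `X 0`: `D = G.totalDegree`,
`Gh = ∑ d ∈ range (D + 1), X 0 ^ (D - d) * homogeneousComponent d G`, homogeneous of degree `D`,
`aeval P Gh = aeval P G = 0` as `P 0 = 1`; so `FF φ ∣ Gh`, so `aeval a Gh = 0` (`aeval_FF`), and
`aeval a Gh = aeval a G` as `a 0 = 1`.

`eval_of_rel`: the polynomial `G(P, Y) := aeval (Sum.elim (C ∘ P) X) G : MvPolynomial (Fin (n+1)) K`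
vanishes at `W`, so `G(P, Y) = quadW φ P e * Q`, `Q` over `K`. By `hK` there is a common denominator
`D : MvPolynomial (Fin (n+1)) k`, `aeval P D ≠ 0`, of the finitely many coefficients of `Q`:
`C (aeval P D) * Q = Q'(P, Y)` with `Q' : MvPolynomial (Fin (n+1) ⊕ Fin (n+1)) k`. Put
`N := rename inl D * G - qW φ (X ∘ inl) (C ∘ e) (X ∘ inr) * Q'`, so `N(P, Y) = 0`: all coefficients
with respect to the second group of variables (polynomials in the first group) vanish at `P`
(`MvPolynomial.sumAlgEquiv`), hence at `a` (`eval_of_rel_pt`), so `N(a, b) = 0`, i.e.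
`D(a) G(a, b) = qW φ a e b * Q'(a, b) = 0`. -/

set_option autoImplicit false
open MvPolynomial

namespace Pool.Agent.LibHP

variable {k : Type} [Field k] [CharZero k] {n : ℕ} {φ : Tens k n}

/-- homogenisation with `X 0` -/
private noncomputable def W2_hom (G : MvPolynomial (Fin (n + 1)) k) :
    MvPolynomial (Fin (n + 1)) k :=
  ∑ d ∈ Finset.range (G.totalDegree + 1), X 0 ^ (G.totalDegree - d) * homogeneousComponent d G

omit [CharZero k] in
private theorem W2_hom_homogeneous (G : MvPolynomial (Fin (n + 1)) k) :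
    (W2_hom G).IsHomogeneous G.totalDegree := by
  refine IsHomogeneous.sum _ _ _ fun d hd => ?_
  have h := (isHomogeneous_X_pow (R := k) (0 : Fin (n + 1)) (G.totalDegree - d)).mul
    (homogeneousComponent_isHomogeneous d G)
  rwa [Nat.sub_add_cancel (by have := Finset.mem_range.1 hd; omega)] at h

omit [CharZero k] in
private theorem W2_aeval_hom {R : Type} [CommRing R] [Algebra k R] {x : Fin (n + 1) → R}
    (hx : x 0 = 1) (G : MvPolynomial (Fin (n + 1)) k) : aeval x (W2_hom G) = aeval x G := by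
  rw [W2_hom, map_sum]
  conv_rhs => rw [← sum_homogeneousComponent G, map_sum]
  refine Finset.sum_congr rfl fun d _ => ?_
  rw [map_mul, map_pow, aeval_X, hx, one_pow, one_mul]

theorem eval_of_rel_pt {K : Type} [Field K] [Algebra k K] (P : Fin (n + 1) → K)
    (hP : IsGenPt φ P) (G : MvPolynomial (Fin (n + 1)) k) (hG : aeval P G = 0) {F : Type} [Field F]
    [Algebra k F] (a : Fin (n + 1) → F) (ha0 : a 0 = 1) (ha : Phi φ a a a a = 0) :
    aeval a G = 0 := by
  have h1 : aeval P (W2_hom G) = 0 := by rw [W2_aeval_hom hP.1, hG]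
  obtain ⟨Q, hQ⟩ := (hP.2 _ _ (W2_hom_homogeneous G)).1 h1
  rw [← W2_aeval_hom ha0, hQ, map_mul, aeval_FF, ha, zero_mul]

/-- substitution of `P` for the first group of variables -/
private noncomputable def W2_sub {K : Type} [Field K] [Algebra k K] (P : Fin (n + 1) → K) :
    MvPolynomial (Fin (n + 1) ⊕ Fin (n + 1)) k →ₐ[k] MvPolynomial (Fin (n + 1)) K :=
  aeval (Sum.elim (fun i => C (P i)) X)

omit [CharZero k] in
private theorem W2_sub_aeval {K M : Type} [Field K] [Algebra k K] [Field M] [Algebra K M]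
    [Algebra k M] [IsScalarTower k K M] (P : Fin (n + 1) → K) (W : Fin (n + 1) → M)
    (G : MvPolynomial (Fin (n + 1) ⊕ Fin (n + 1)) k) :
    aeval W (W2_sub P G) = aeval (Sum.elim (fun i => algebraMap K M (P i)) W) G := by
  induction G using MvPolynomial.induction_on with
  | C a =>
    rw [W2_sub, aeval_C, aeval_C, IsScalarTower.algebraMap_apply k K (MvPolynomial (Fin (n + 1)) K),
      algebraMap_eq, aeval_C, ← IsScalarTower.algebraMap_apply]
  | add p q hp hq => rw [map_add, map_add, map_add, hp, hq]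
  | mul_X p i hp =>
    rw [map_mul, map_mul, map_mul, hp, W2_sub, aeval_X, aeval_X]
    congr 1
    cases i with
    | inl i => simp
    | inr i => simp

omit [CharZero k] in
private theorem W2_sub_inl {K : Type} [Field K] [Algebra k K] (P : Fin (n + 1) → K)
    (D : MvPolynomial (Fin (n + 1)) k) : W2_sub P (rename Sum.inl D) = C (aeval P D) := by
  rw [W2_sub, aeval_rename]
  have h1 : (Sum.elim (fun i => C (P i)) X ∘ Sum.inl : Fin (n + 1) → MvPolynomial (Fin (n + 1)) K) =
      algebraMap K (MvPolynomial (Fin (n + 1)) K) ∘ P := by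
    funext i
    rfl
  rw [h1, aeval_algebraMap_apply]
  rfl

omit [CharZero k] in
/-- common denominators -/
private theorem W2_denom {K : Type} [Field K] [Algebra k K] (P : Fin (n + 1) → K)
    (hK : GenBy k P) (Q : MvPolynomial (Fin (n + 1)) K) :
    ∃ (D : MvPolynomial (Fin (n + 1)) k) (Q' : MvPolynomial (Fin (n + 1) ⊕ Fin (n + 1)) k),
      aeval P D ≠ 0 ∧ C (aeval P D) * Q = W2_sub P Q' := by
  induction Q using MvPolynomial.induction_on with
  | C a =>
    obtain ⟨G, H, hH, hGH⟩ := hK a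
    refine ⟨H, rename Sum.inl G, hH, ?_⟩
    rw [W2_sub_inl, ← hGH, mul_comm, ← C_mul]
  | add p q hp hq =>
    obtain ⟨D1, Q1, h1, h2⟩ := hp
    obtain ⟨D2, Q2, h3, h4⟩ := hq
    refine ⟨D1 * D2, rename Sum.inl D2 * Q1 + rename Sum.inl D1 * Q2, ?_, ?_⟩
    · rw [map_mul]
      exact mul_ne_zero h1 h3
    · have e1 : W2_sub P (rename Sum.inl D2 * Q1 + rename Sum.inl D1 * Q2) =
          C (aeval P D2) * W2_sub P Q1 + C (aeval P D1) * W2_sub P Q2 := by
        rw [map_add, map_mul, map_mul, W2_sub_inl, W2_sub_inl]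
      rw [e1, ← h2, ← h4, map_mul, C_mul]
      ring
  | mul_X p i hp =>
    obtain ⟨D1, Q1, h1, h2⟩ := hp
    refine ⟨D1, Q1 * X (Sum.inr i), h1, ?_⟩
    rw [map_mul, ← h2, ← mul_assoc]
    congr 1
    rw [W2_sub, aeval_X, Sum.elim_inr]

omit [CharZero k] in
private theorem W2_qW {R : Type} [CommRing R] [Algebra k R] (i0 : Fin (n + 1))
    (x y : Fin (n + 1) → R) :
    aeval (Sum.elim x y) (qW φ (fun i => X (Sum.inl i))
      (fun i => C ((Pi.single i0 1 : Fin (n + 1) → k) i)) (fun i => X (Sum.inr i)) :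
        MvPolynomial (Fin (n + 1) ⊕ Fin (n + 1)) k) = qW φ x (Pi.single i0 1) y := by
  rw [qW_map]
  congr 1
  · funext i
    rw [aeval_X, Sum.elim_inl]
  · funext i
    rw [aeval_C]
    by_cases h : i = i0
    · subst h; simp
    · rw [Pi.single_eq_of_ne h, Pi.single_eq_of_ne h, map_zero]
  · funext i
    rw [aeval_X, Sum.elim_inr]

theorem eval_of_rel {K M : Type} [Field K] [Algebra k K] [Field M] [Algebra K M] [Algebra k M]
    [IsScalarTower k K M] (P : Fin (n + 1) → K) (hP : IsGenPt φ P) (hK : GenBy k P)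
    (i0 : Fin (n + 1)) (W : Fin (n + 1) → M)
    (hW : ∀ G : MvPolynomial (Fin (n + 1)) K, aeval W G = 0 ↔ quadW φ P (Pi.single i0 1) ∣ G)
    (G : MvPolynomial (Fin (n + 1) ⊕ Fin (n + 1)) k)
    (hG : aeval (Sum.elim (fun i => algebraMap K M (P i)) W) G = 0) :
    ∃ D : MvPolynomial (Fin (n + 1)) k, aeval P D ≠ 0 ∧
      ∀ a b : Fin (n + 1) → k, a 0 = 1 → Phi φ a a a a = 0 → aeval a D ≠ 0 →
        qW φ a (Pi.single i0 1) b = 0 → aeval (Sum.elim a b) G = 0 := by
  obtain ⟨Q, hQ⟩ := (hW (W2_sub P G)).1 (by rw [W2_sub_aeval, hG])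
  obtain ⟨D, Q', hD, hDQ⟩ := W2_denom P hK Q
  refine ⟨D, hD, fun a b ha0 ha haD hab => ?_⟩
  set q : MvPolynomial (Fin (n + 1) ⊕ Fin (n + 1)) k := qW φ (fun i => X (Sum.inl i))
      (fun i => C ((Pi.single i0 1 : Fin (n + 1) → k) i)) (fun i => X (Sum.inr i)) with hq
  set N : MvPolynomial (Fin (n + 1) ⊕ Fin (n + 1)) k := rename Sum.inl D * G - q * Q' with hN
  have hsq : W2_sub P q = quadW φ P (Pi.single i0 1) := by
    rw [W2_sub, hq, W2_qW, quadW]
    congr 1
    funext i
    by_cases h : i = i0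
    · subst h; simp
    · rw [Pi.single_eq_of_ne h, Pi.single_eq_of_ne h, map_zero]
  have hNP : W2_sub P N = 0 := by
    rw [hN, map_sub, map_mul, map_mul, W2_sub_inl, hsq, hQ, ← hDQ]
    ring
  -- specialise the second group of variables
  set Gb : MvPolynomial (Fin (n + 1)) k := aeval (Sum.elim X (fun i => C (b i))) N with hGb
  have hcomp : ∀ {R : Type} [CommRing R] [Algebra k R] (x : Fin (n + 1) → R),
      aeval x Gb = aeval (Sum.elim x (fun i => algebraMap k R (b i))) N := by
    intro R _ _ x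
    have h1 : (aeval x).comp (aeval (Sum.elim X (fun i => C (b i))) :
        MvPolynomial (Fin (n + 1) ⊕ Fin (n + 1)) k →ₐ[k] MvPolynomial (Fin (n + 1)) k) =
        aeval (Sum.elim x (fun i => algebraMap k R (b i))) := by
      apply MvPolynomial.algHom_ext
      intro i
      cases i with
      | inl i => simp
      | inr i => simp [aeval_C]
    rw [hGb, ← h1]
    rfl
  have h1 : aeval P Gb = 0 := by
    rw [hcomp P]
    have h2 := W2_sub_aeval (M := K) P (fun i => algebraMap k K (b i)) N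
    rw [hNP, map_zero] at h2
    exact h2.symm
  have h2 := eval_of_rel_pt P hP Gb h1 a ha0 ha
  rw [hcomp a] at h2
  have h3 : (fun i => algebraMap k k (b i)) = b := by
    funext i; rfl
  rw [h3, hN, map_sub, map_mul, map_mul, hq, W2_qW, hab, zero_mul, sub_zero, aeval_rename,
    Sum.elim_comp_inl] at h2
  exact (mul_eq_zero.1 h2).resolve_left haD

end Pool.Agent.LibHP
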