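import Pool.Agent.LibHPF.W1
import Pool.Agent.LibHPF.W2
import Pool.Agent.LibHPF.W3
import Pool.Agent.LibHPF.W4

/-! # Row W5: the rational points of the family are dense

Plan. `densePts_of_gen` with `x := Sum.elim (P in M) W` (`genBy_sum`). Let `H` with
`H(P, W) ≠ 0`. Notation `e := Pi.single i0 1`.
1. There is `j0` with `Phi φ P P (prj P e W) (prj P e e_{j0}) ≠ 0` in `M` (`e_{j0} = Pi.single j0 1`):
otherwise `Phi φ P P (prj W) τ = 0` for all tangent `τ` (the `prj e_j` span the tangent space), so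
`prj W = c • P` by `lemmaA'` (Q6), which is excluded as in row C11 (linear forms in `W` over `K` are not
divisible by `quadW`). Replace `H` by `H1 := H * Phi φ X X (prj X e Y) (prj X e e_{j0})` (as a polynomial
in the two groups of variables), still nonzero at `(P, W)`.
2. The kernel of `aeval x` is a finitely generated ideal (`MvPolynomial` is Noetherian): generators
`G_1, …, G_s`; `eval_of_rel` gives `D_1, …, D_s`, `D := ∏ D_i`, `aeval P D ≠ 0`.
3. `A := (aeval P : MvPolynomial (Fin (n+1)) k →ₐ K).range`, `B := (aeval x).range ⊆ M`, `A → B` injective,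
`B` of finite type; `exists_hom_extension` (W1) for `v := H1(P, W)` and
`Ω := AlgebraicClosure k` gives `u ≠ 0` in `A`, `u = aeval P U`.
4. Let `G := D * U * det * Phi φ X X X e` where `det` is the determinant of the matrix
`Phi φ X X e_i e_j` of polynomials; `aeval P G ≠ 0` (`hess_det` of Q6, `he`). Homogenise with `X 0`
and multiply by `X 0`: a form `Gh` with `aeval P Gh = aeval P G ≠ 0`, so `¬ FF φ ∣ Gh`. `hd` gives
`a', v`; `a' 0 ≠ 0`; put `a := (a' 0)⁻¹ • a'`: `a 0 = 1`, `aeval a G ≠ 0`, and the equations and the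
independence for `(a, v)` (homogeneity in `a`).
5. `α : A →+* Ω` evaluation at `a` (well defined by `eval_of_rel_pt`), `α u ≠ 0`; it extends to
`β : B →+* Ω`; `η i := β (W i)`: `qW φ a e η = 0` (apply `β` to `qW φ P e W = aeval W quadW = 0`; `qW_map`),
`H1(a, η) ≠ 0`.
6. `exists_rational_point` (W3) with `H(a, ·)` (`aeval (Sum.elim (C ∘ a) X) H`) and `z0 := e_{j0}`: `b`
over `k` with `qW φ a e b = 0`, `H(a, b) ≠ 0`. `p := Sum.elim a b`: all `G_i` vanish at `p`
(`D_i(a) ≠ 0`), hence the whole kernel. -/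

set_option autoImplicit false
open MvPolynomial

namespace Pool.Agent.LibHP

private theorem W5_single {n : ℕ} {k R S : Type} [Field k] [CommRing R] [Algebra k R]
    [CommRing S] [Algebra k S] (f : R →ₐ[k] S) (j : Fin (n + 1)) :
    (fun i => f ((Pi.single j 1 : Fin (n + 1) → R) i)) = Pi.single j 1 := by
  funext i
  by_cases h : i = j
  · subst h
    rw [Pi.single_eq_same, Pi.single_eq_same, map_one]
  · rw [Pi.single_eq_of_ne h, Pi.single_eq_of_ne h, map_zero]

private theorem W5_scale {σ F k : Type} [Field k] [Field F] [Algebra k F]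
    (G : MvPolynomial σ k) (N : ℕ) (hG : G.IsHomogeneous N) (c : F) (a : σ → F) :
    aeval (fun i => c * a i) G = c ^ N * aeval a G := by
  rw [aeval_def, aeval_def, eval₂_eq, eval₂_eq, Finset.mul_sum]
  refine Finset.sum_congr rfl fun d hd => ?_
  have h1 := hG.degree_eq_sum_deg_support hd
  have h2 : ∏ i ∈ d.support, (c * a i) ^ d i = c ^ N * ∏ i ∈ d.support, a i ^ d i := by
    rw [h1, ← Finset.prod_pow_eq_pow_sum, ← Finset.prod_mul_distrib]
    exact Finset.prod_congr rfl fun i _ => mul_pow _ _ _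
  rw [h2]
  ring

private theorem W5_homog {n : ℕ} {k : Type} [Field k] (G : MvPolynomial (Fin (n + 1)) k) :
    ∃ Gh : MvPolynomial (Fin (n + 1)) k, Gh.IsHomogeneous G.totalDegree ∧
      ∀ (F : Type) [Field F] [Algebra k F] (a : Fin (n + 1) → F), a 0 = 1 →
        aeval a Gh = aeval a G := by
  refine ⟨∑ d ∈ Finset.range (G.totalDegree + 1),
    X 0 ^ (G.totalDegree - d) * homogeneousComponent d G, ?_, ?_⟩
  · refine IsHomogeneous.sum _ _ _ fun d hd => ?_
    rw [Finset.mem_range] at hd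
    have h1 : G.totalDegree = (G.totalDegree - d) + d := by omega
    have h2 := (isHomogeneous_X_pow (R := k) (0 : Fin (n + 1)) (G.totalDegree - d)).mul
      (homogeneousComponent_isHomogeneous d G)
    rw [← h1] at h2
    exact h2
  · intro F _ _ a ha
    conv_rhs => rw [← sum_homogeneousComponent G]
    rw [map_sum, map_sum]
    refine Finset.sum_congr rfl fun d _ => ?_
    rw [map_mul, map_pow, aeval_X, ha, one_pow, one_mul]

private theorem W5_Phi_hom {n : ℕ} {k K σ : Type} [Field k] [Field K] [Algebra k K]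
    (φ : Tens k n) {A B C' D : Fin (n + 1) → MvPolynomial σ K} {a b c d : ℕ}
    (hA : ∀ i, (A i).IsHomogeneous a) (hB : ∀ i, (B i).IsHomogeneous b)
    (hC : ∀ i, (C' i).IsHomogeneous c) (hD : ∀ i, (D i).IsHomogeneous d) :
    (Phi φ A B C' D).IsHomogeneous (a + b + c + d) := by
  unfold Phi
  refine IsHomogeneous.sum _ _ _ fun i _ => IsHomogeneous.sum _ _ _ fun j _ =>
    IsHomogeneous.sum _ _ _ fun s _ => IsHomogeneous.sum _ _ _ fun t _ => ?_
  rw [MvPolynomial.algebraMap_apply]
  exact ((((hA i).mul (hB j)).mul (hC s)).mul (hD t)).C_mul _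

private theorem W5_gen_tangent {k : Type} [Field k] {n : ℕ} {φ : Tens k n}
    (hn : 2 ≤ n) {K M : Type} [Field K] [Algebra k K] [Field M] [Algebra K M] [Algebra k M]
    [IsScalarTower k K M] (P e : Fin (n + 1) → K) (hP : IsGenPt φ P)
    (he : Phi φ P P P e ≠ 0) (W : Fin (n + 1) → M)
    (hW : ∀ G : MvPolynomial (Fin (n + 1)) K, aeval W G = 0 ↔ quadW φ P e ∣ G) (c : M)
    (hc : prj φ (fun i => algebraMap K M (P i)) (fun i => algebraMap K M (e i)) W =
      c • fun i => algebraMap K M (P i)) : False := by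
  obtain ⟨L, hL⟩ : ∃ L : Fin (n + 1) → MvPolynomial (Fin (n + 1)) K,
      L = fun i => prj φ (fun i => C (P i)) (fun i => C (e i)) X i -
        prj φ (fun i => C (P i)) (fun i => C (e i)) X 0 * C (P i) := ⟨_, rfl⟩
  have hX : ∀ i : Fin (n + 1), (X i : MvPolynomial (Fin (n + 1)) K).IsHomogeneous 1 :=
    fun i => isHomogeneous_X K i
  have hCP : ∀ i : Fin (n + 1), (C (P i) : MvPolynomial (Fin (n + 1)) K).IsHomogeneous 0 :=
    fun i => isHomogeneous_C _ _
  have hCe : ∀ i : Fin (n + 1), (C (e i) : MvPolynomial (Fin (n + 1)) K).IsHomogeneous 0 :=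
    fun i => isHomogeneous_C _ _
  have hprj : ∀ i, (prj φ (fun i => C (P i)) (fun i => C (e i)) X i :
      MvPolynomial (Fin (n + 1)) K).IsHomogeneous 1 := by
    intro i
    have h1 := (W5_Phi_hom φ hCP hCP hCP hCe).mul (hX i)
    have h2 := (W5_Phi_hom φ hCP hCP hCP hX).mul (hCe i)
    exact h1.sub h2
  have hq : (quadW φ P e).IsHomogeneous 2 := by
    have h := W5_Phi_hom φ hCP hCP hprj hprj
    exact h
  have hLh : ∀ i, (L i).IsHomogeneous 1 := by
    intro i
    rw [hL]
    exact (hprj i).sub ((hprj 0).mul (hCP i))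
  have hval : ∀ i, aeval W (prj φ (fun i => C (P i)) (fun i => C (e i)) X i) =
      prj φ (fun i => algebraMap K M (P i)) (fun i => algebraMap K M (e i)) W i := by
    intro i
    have h := prj_map φ ((aeval W : MvPolynomial (Fin (n + 1)) K →ₐ[K] M).restrictScalars k)
      (fun i => C (P i)) (fun i => C (e i)) X i
    simp only [AlgHom.coe_restrictScalars', aeval_X, algHom_C] at h
    exact h
  have hL0 : ∀ i, aeval W (L i) = 0 := by
    intro i
    rw [hL]
    change aeval W (_ - _) = 0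
    rw [map_sub, map_mul, hval, hval, hc, algHom_C]
    simp only [Pi.smul_apply, smul_eq_mul]
    rw [hP.1, map_one]
    ring
  have hLz : ∀ i, L i = 0 := by
    intro i
    by_contra hne
    obtain ⟨Q, hQ⟩ := (hW (L i)).1 (hL0 i)
    have hq0 : quadW φ P e ≠ 0 := fun h => hne (by rw [hQ, h, zero_mul])
    have hQ0 : Q ≠ 0 := fun h => hne (by rw [hQ, h, mul_zero])
    have h1 := totalDegree_mul_of_isDomain hq0 hQ0
    rw [← hQ, (hLh i).totalDegree hne, hq.totalDegree hq0] at h1
    omega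
  have hz : ∀ (z : Fin (n + 1) → K) (i : Fin (n + 1)),
      prj φ P e z i = prj φ P e z 0 * P i := by
    intro z i
    have h0 : ∀ i, aeval z (prj φ (fun i => C (P i)) (fun i => C (e i)) X i) =
        prj φ P e z i := by
      intro i
      have h := prj_map φ ((aeval z : MvPolynomial (Fin (n + 1)) K →ₐ[K] K).restrictScalars k)
        (fun i => C (P i)) (fun i => C (e i)) X i
      simp only [AlgHom.coe_restrictScalars', aeval_X, algHom_C, Algebra.algebraMap_self,
        RingHom.id_apply] at h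
      exact h
    have h1 : aeval z (L i) = 0 := by rw [hLz i, map_zero]
    rw [hL] at h1
    change aeval z (_ - _) = 0 at h1
    rw [map_sub, map_mul, h0, h0, algHom_C, Algebra.algebraMap_self, RingHom.id_apply,
      sub_eq_zero] at h1
    exact h1
  have hP0 : P ≠ 0 := by
    intro h
    have h1 := hP.1
    rw [h] at h1
    exact zero_ne_one h1
  have hker : LinearMap.ker (PhiL φ P P P) ≤ Submodule.span K {P} := by
    intro z hzk
    rw [LinearMap.mem_ker, PhiL_apply] at hzk
    rw [Submodule.mem_span_singleton]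
    refine ⟨(Phi φ P P P e)⁻¹ * prj φ P e z 0, ?_⟩
    funext i
    have h1 := hz z i
    have h2 : prj φ P e z i = Phi φ P P P e * z i := by
      simp only [prj, Pi.sub_apply, Pi.smul_apply, smul_eq_mul, hzk]
      ring
    rw [Pi.smul_apply, smul_eq_mul, mul_assoc, ← h1, h2]
    exact inv_mul_cancel_left₀ he _
  have h1 := Submodule.finrank_mono hker
  rw [finrank_span_singleton hP0] at h1
  have h2 := LinearMap.finrank_range_add_finrank_ker (PhiL φ P P P)
  have h3 := Submodule.finrank_le (LinearMap.range (PhiL φ P P P))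
  rw [Module.finrank_self] at h3
  rw [Module.finrank_fin_fun] at h2
  omega

private theorem W5_j0 {k : Type} [Field k] [CharZero k] {n : ℕ} {φ : Tens k n}
    (hφ : IsSymm4 φ) (hs : Smooth4 φ)
    (hn : 2 ≤ n) {K M : Type} [Field K] [Algebra k K] [Field M] [Algebra K M] [Algebra k M]
    [IsScalarTower k K M] (P e : Fin (n + 1) → K) (hP : IsGenPt φ P)
    (he : Phi φ P P P e ≠ 0) (W : Fin (n + 1) → M)
    (hW : ∀ G : MvPolynomial (Fin (n + 1)) K, aeval W G = 0 ↔ quadW φ P e ∣ G) :
    ∃ j0 : Fin (n + 1), Phi φ (fun i => algebraMap K M (P i)) (fun i => algebraMap K M (P i))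
      (prj φ (fun i => algebraMap K M (P i)) (fun i => algebraMap K M (e i)) W)
      (prj φ (fun i => algebraMap K M (P i)) (fun i => algebraMap K M (e i))
        (Pi.single j0 1)) ≠ 0 := by
  by_contra hcon
  push Not at hcon
  have hPM : IsGenPt φ (fun i => algebraMap K M (P i)) :=
    hP.map (IsScalarTower.toAlgHom k K M)
  obtain ⟨p, hp⟩ : ∃ p : Fin (n + 1) → M, p = fun i => algebraMap K M (P i) := ⟨_, rfl⟩
  obtain ⟨f, hf⟩ : ∃ f : Fin (n + 1) → M, f = fun i => algebraMap K M (e i) := ⟨_, rfl⟩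
  obtain ⟨w, hw⟩ : ∃ w : Fin (n + 1) → M, w = prj φ p f W := ⟨_, rfl⟩
  have hε : Phi φ p p p f ≠ 0 := by
    have h := Phi_map φ (IsScalarTower.toAlgHom k K M) P P P e
    rw [hp, hf]
    intro h0
    have h1 : (IsScalarTower.toAlgHom k K M) (Phi φ P P P e) = 0 := h.trans h0
    rw [map_eq_zero] at h1
    exact he h1
  rw [← hp, ← hf, ← hw] at hcon
  rw [← hp] at hPM
  have hlin : ∀ τ, Phi φ p p p f * Phi φ p p w τ - Phi φ p p p τ * Phi φ p p w f = 0 := by
    intro τ
    have h1 : ∀ i : Fin (n + 1), Phi φ p p p f * Phi φ p p w (Pi.single i 1) -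
        Phi φ p p p (Pi.single i 1) * Phi φ p p w f = 0 := by
      intro i
      have h := hcon i
      simp only [prj, Phi_sub4, Phi_smul4] at h
      exact h
    rw [Phi_eq_sum φ p p w τ, Phi_eq_sum φ p p p τ, Finset.mul_sum, Finset.sum_mul,
      ← Finset.sum_sub_distrib]
    refine Finset.sum_eq_zero fun i _ => ?_
    have h2 : Phi φ p p p f * (τ i * Phi φ p p w (Pi.single i 1)) -
        τ i * Phi φ p p p (Pi.single i 1) * Phi φ p p w f =
        τ i * (Phi φ p p p f * Phi φ p p w (Pi.single i 1) -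
        Phi φ p p p (Pi.single i 1) * Phi φ p p w f) := by ring
    rw [h2, h1, mul_zero]
  obtain ⟨c, hc⟩ := lemmaA' hφ hs p w hPM (fun τ hτ => by
    have h := hlin τ
    rw [hτ, zero_mul, sub_zero] at h
    exact (mul_eq_zero.1 h).resolve_left hε)
  refine W5_gen_tangent hn P e hP he W hW c ?_
  rw [← hp, ← hf, ← hw]
  exact hc

private theorem W5_point {k : Type} [Field k] {n : ℕ} {φ : Tens k n} {K : Type} [Field K]
    [Algebra k K] (P : Fin (n + 1) → K) (hP : IsGenPt φ P)
    (hd : ∀ (d : ℕ) (G : MvPolynomial (Fin (n + 1)) k), G.IsHomogeneous d → ¬ FF φ ∣ G →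
      ∃ a v : Fin (n + 1) → k, LinearIndependent k ![a, v] ∧ aeval a G ≠ 0 ∧
        Phi φ a a a a = 0 ∧ Phi φ a a a v = 0 ∧ Phi φ a a v v = 0)
    (G : MvPolynomial (Fin (n + 1)) k) (hG : aeval P G ≠ 0) :
    ∃ a v : Fin (n + 1) → k, a 0 = 1 ∧ LinearIndependent k ![a, v] ∧ aeval a G ≠ 0 ∧
      Phi φ a a a a = 0 ∧ Phi φ a a a v = 0 ∧ Phi φ a a v v = 0 := by
  obtain ⟨Gh, hGh, hev⟩ := W5_homog G
  have hh : (X 0 * Gh).IsHomogeneous (1 + G.totalDegree) := (isHomogeneous_X k _).mul hGh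
  have hnd : ¬ FF φ ∣ X 0 * Gh := by
    rw [← hP.2 _ _ hh, map_mul, aeval_X, hP.1, one_mul, hev K P hP.1]
    exact hG
  obtain ⟨a', v, hind, hne, h0, h1, h2⟩ := hd _ _ hh hnd
  rw [map_mul, aeval_X] at hne
  have ha0 : a' 0 ≠ 0 := left_ne_zero_of_mul hne
  have hGa : aeval a' Gh ≠ 0 := right_ne_zero_of_mul hne
  obtain ⟨a, ha⟩ : ∃ a : Fin (n + 1) → k, a = (a' 0)⁻¹ • a' := ⟨_, rfl⟩
  have haa : a 0 = 1 := by
    rw [ha, Pi.smul_apply, smul_eq_mul, inv_mul_cancel₀ ha0]
  refine ⟨a, v, haa, ?_, ?_, ?_, ?_, ?_⟩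
  · rw [LinearIndependent.pair_iff] at hind ⊢
    intro s t hst
    have h3 := hind (s * (a' 0)⁻¹) t (by rw [mul_smul, ← ha]; exact hst)
    exact ⟨(mul_eq_zero.1 h3.1).resolve_right (inv_ne_zero ha0), h3.2⟩
  · rw [← hev k a haa]
    have h3 := W5_scale Gh _ hGh (a' 0)⁻¹ a'
    have h4 : a = fun i => (a' 0)⁻¹ * a' i := ha
    rw [h4, h3]
    exact mul_ne_zero (pow_ne_zero _ (inv_ne_zero ha0)) hGa
  · rw [ha, Phi_smul1, Phi_smul2, Phi_smul3, Phi_smul4, h0]
    ring
  · rw [ha, Phi_smul1, Phi_smul2, Phi_smul3, h1]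
    ring
  · rw [ha, Phi_smul1, Phi_smul2, h2]
    ring

private theorem W5_rel {k : Type} [Field k] [CharZero k] {n : ℕ} {φ : Tens k n} {K M : Type}
    [Field K] [Algebra k K] [Field M] [Algebra K M] [Algebra k M]
    [IsScalarTower k K M] (P : Fin (n + 1) → K) (hP : IsGenPt φ P) (hK : GenBy k P)
    (i0 : Fin (n + 1)) (W : Fin (n + 1) → M)
    (hW : ∀ G : MvPolynomial (Fin (n + 1)) K, aeval W G = 0 ↔ quadW φ P (Pi.single i0 1) ∣ G) :
    ∃ D : MvPolynomial (Fin (n + 1)) k, aeval P D ≠ 0 ∧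
      ∀ a b : Fin (n + 1) → k, a 0 = 1 → Phi φ a a a a = 0 → aeval a D ≠ 0 →
        qW φ a (Pi.single i0 1) b = 0 →
        ∀ G : MvPolynomial (Fin (n + 1) ⊕ Fin (n + 1)) k,
          aeval (Sum.elim (fun i => algebraMap K M (P i)) W) G = 0 →
            aeval (Sum.elim a b) G = 0 := by
  classical
  obtain ⟨I, hI⟩ : ∃ I : Ideal (MvPolynomial (Fin (n + 1) ⊕ Fin (n + 1)) k),
      I = RingHom.ker (aeval (Sum.elim (fun i => algebraMap K M (P i)) W) :
        MvPolynomial (Fin (n + 1) ⊕ Fin (n + 1)) k →ₐ[k] M) := ⟨_, rfl⟩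
  obtain ⟨s, hs⟩ : I.FG := (isNoetherianRing_iff_ideal_fg _).1 inferInstance I
  have hmem : ∀ G : MvPolynomial (Fin (n + 1) ⊕ Fin (n + 1)) k, G ∈ I ↔
      aeval (Sum.elim (fun i => algebraMap K M (P i)) W) G = 0 := by
    intro G
    rw [hI, RingHom.mem_ker]
  have hex : ∀ g : MvPolynomial (Fin (n + 1) ⊕ Fin (n + 1)) k, g ∈ s →
      ∃ D : MvPolynomial (Fin (n + 1)) k, aeval P D ≠ 0 ∧
      ∀ a b : Fin (n + 1) → k, a 0 = 1 → Phi φ a a a a = 0 → aeval a D ≠ 0 →
        qW φ a (Pi.single i0 1) b = 0 → aeval (Sum.elim a b) g = 0 := by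
    intro g hg
    refine eval_of_rel P hP hK i0 W hW g ((hmem g).1 ?_)
    rw [← hs]
    exact Ideal.subset_span hg
  choose! D hD1 hD2 using hex
  refine ⟨∏ g ∈ s, D g, ?_, ?_⟩
  · rw [map_prod]
    exact Finset.prod_ne_zero_iff.2 hD1
  · intro a b ha0 ha hDa hq G hG
    rw [map_prod, Finset.prod_ne_zero_iff] at hDa
    have hle : I ≤ RingHom.ker (aeval (Sum.elim a b) :
        MvPolynomial (Fin (n + 1) ⊕ Fin (n + 1)) k →ₐ[k] k) := by
      rw [← hs]
      refine Ideal.span_le.2 fun g hg => ?_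
      exact hD2 g hg a b ha0 ha (hDa g hg) hq
    exact hle ((hmem G).2 hG)

private theorem W5_ext {k : Type} [Field k] [CharZero k] {n : ℕ} {φ : Tens k n} {K M : Type}
    [Field K] [Algebra k K] [Field M] [Algebra K M] [Algebra k M]
    [IsScalarTower k K M] (P : Fin (n + 1) → K) (hP : IsGenPt φ P) (W : Fin (n + 1) → M)
    (H : MvPolynomial (Fin (n + 1) ⊕ Fin (n + 1)) k)
    (hH : aeval (Sum.elim (fun i => algebraMap K M (P i)) W) H ≠ 0) :
    ∃ U : MvPolynomial (Fin (n + 1)) k, aeval P U ≠ 0 ∧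
      ∀ a : Fin (n + 1) → k, a 0 = 1 → Phi φ a a a a = 0 → aeval a U ≠ 0 →
        ∃ η : Fin (n + 1) → AlgebraicClosure k,
        (∀ G : MvPolynomial (Fin (n + 1) ⊕ Fin (n + 1)) k,
          aeval (Sum.elim (fun i => algebraMap K M (P i)) W) G = 0 →
          aeval (Sum.elim (fun i => algebraMap k (AlgebraicClosure k) (a i)) η) G = 0) ∧
        aeval (Sum.elim (fun i => algebraMap k (AlgebraicClosure k) (a i)) η) H ≠ 0 := by
  obtain ⟨x, hx⟩ : ∃ x : Fin (n + 1) ⊕ Fin (n + 1) → M,
    x = Sum.elim (fun i => algebraMap K M (P i)) W := ⟨_, rfl⟩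
  rw [← hx] at hH ⊢
  obtain ⟨fA, hfA⟩ : ∃ fA : MvPolynomial (Fin (n + 1)) k →ₐ[k] K, fA = aeval P := ⟨_, rfl⟩
  obtain ⟨fB, hfB⟩ : ∃ fB : MvPolynomial (Fin (n + 1) ⊕ Fin (n + 1)) k →ₐ[k] M,
    fB = aeval x := ⟨_, rfl⟩
  have hmemB : ∀ z : fA.range, (IsScalarTower.toAlgHom k K M) z ∈ fB.range := by
    rintro ⟨z, G, rfl⟩
    refine ⟨rename Sum.inl G, ?_⟩
    rw [hfB, hfA]
    change aeval x (rename Sum.inl G) = IsScalarTower.toAlgHom k K M (aeval P G)
    rw [aeval_rename, ← AlgHom.comp_apply, MvPolynomial.comp_aeval, hx]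
    rfl
  obtain ⟨ι, hι⟩ : ∃ ι : fA.range →ₐ[k] fB.range,
      ∀ z, ((ι z : fB.range) : M) = algebraMap K M (z : K) :=
    ⟨((IsScalarTower.toAlgHom k K M).comp fA.range.val).codRestrict fB.range hmemB,
      fun z => rfl⟩
  let _ : Algebra fA.range fB.range := ι.toRingHom.toAlgebra
  have _ : IsScalarTower k fA.range fB.range :=
    IsScalarTower.of_algebraMap_eq fun c => (ι.commutes c).symm
  have _ : Algebra.FiniteType k fB.range :=
    Algebra.FiniteType.of_surjective fB.rangeRestrict fB.rangeRestrict_surjective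
  have _ : Algebra.FiniteType fA.range fB.range :=
    Algebra.FiniteType.of_restrictScalars_finiteType k fA.range fB.range
  have halg : ∀ z : fA.range, algebraMap fA.range fB.range z = ι z := fun z => rfl
  have hinj : Function.Injective (algebraMap fA.range fB.range) := by
    intro y z hyz
    rw [halg, halg] at hyz
    have h1 := congrArg (fun t : fB.range => (t : M)) hyz
    simp only [hι] at h1
    exact Subtype.ext ((algebraMap K M).injective h1)
  obtain ⟨u, hu0, hu⟩ := exists_hom_extension fA.range fB.range (AlgebraicClosure k) hinj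
    (fB.rangeRestrict H) (by
      intro h
      have h1 := congrArg (fun t : fB.range => (t : M)) h
      simp only [AlgHom.coe_codRestrict, ZeroMemClass.coe_zero] at h1
      apply hH
      rw [← hfB]
      exact h1)
  obtain ⟨U, hU⟩ := fA.rangeRestrict_surjective u
  refine ⟨U, ?_, ?_⟩
  · intro h
    apply hu0
    rw [← hU]
    apply Subtype.ext
    change fA U = 0
    rw [hfA]
    exact h
  · intro a ha0 ha haU
    have hker : RingHom.ker (fA.rangeRestrict : MvPolynomial (Fin (n + 1)) k →+* fA.range) ≤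
        RingHom.ker ((algebraMap k (AlgebraicClosure k)).comp
          ((aeval a : MvPolynomial (Fin (n + 1)) k →ₐ[k] k) :
            MvPolynomial (Fin (n + 1)) k →+* k)) := by
      intro G hG
      rw [RingHom.mem_ker] at hG ⊢
      have h1 : aeval P G = 0 := by
        have h2 := congrArg (fun t : fA.range => (t : K)) hG
        rw [← hfA]
        exact h2
      have h3 := eval_of_rel_pt P hP G h1 a ha0 ha
      change algebraMap k (AlgebraicClosure k) (aeval a G) = 0
      rw [h3, map_zero]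
    obtain ⟨α, hα⟩ : ∃ α : fA.range →+* AlgebraicClosure k,
        ∀ G, α (fA.rangeRestrict G) = algebraMap k (AlgebraicClosure k) (aeval a G) :=
      ⟨(fA.rangeRestrict : MvPolynomial (Fin (n + 1)) k →+* fA.range).liftOfSurjective
        fA.rangeRestrict_surjective ⟨_, hker⟩,
        fun G => RingHom.liftOfSurjective_comp_apply _ _ ⟨_, hker⟩ G⟩
    obtain ⟨β, hβ1, hβ2⟩ := hu α (by
      rw [← hU, hα]
      intro h
      rw [map_eq_zero] at h
      exact haU h)
    refine ⟨fun i => β (fB.rangeRestrict (X (Sum.inr i))), ?_⟩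
    have key : ∀ G : MvPolynomial (Fin (n + 1) ⊕ Fin (n + 1)) k,
        aeval (Sum.elim (fun i => algebraMap k (AlgebraicClosure k) (a i))
          (fun i => β (fB.rangeRestrict (X (Sum.inr i))))) G = β (fB.rangeRestrict G) := by
      intro G
      have hhom : ((aeval (Sum.elim (fun i => algebraMap k (AlgebraicClosure k) (a i))
          (fun i => β (fB.rangeRestrict (X (Sum.inr i))))) :
            MvPolynomial (Fin (n + 1) ⊕ Fin (n + 1)) k →ₐ[k] AlgebraicClosure k) :
            MvPolynomial (Fin (n + 1) ⊕ Fin (n + 1)) k →+* AlgebraicClosure k) =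
          β.comp (fB.rangeRestrict : MvPolynomial (Fin (n + 1) ⊕ Fin (n + 1)) k →+* fB.range) := by
        refine MvPolynomial.ringHom_ext ?_ ?_
        · intro c
          change aeval _ (C c) = β (fB.rangeRestrict (C c))
          rw [algHom_C]
          have h1 : fB.rangeRestrict (C c) = algebraMap fA.range fB.range
              (fA.rangeRestrict (C c)) := by
            rw [halg, algHom_C, algHom_C, AlgHom.commutes]
          rw [h1, hβ1, hα, algHom_C]
          rfl
        · rintro (i | i)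
          · change aeval _ (X (Sum.inl i)) = β (fB.rangeRestrict (X (Sum.inl i)))
            rw [aeval_X, Sum.elim_inl]
            have h1 : fB.rangeRestrict (X (Sum.inl i)) = algebraMap fA.range fB.range
                (fA.rangeRestrict (X i)) := by
              apply Subtype.ext
              rw [halg, hι]
              change fB (X (Sum.inl i)) = algebraMap K M (fA (X i))
              rw [hfB, hfA, aeval_X, aeval_X, hx, Sum.elim_inl]
            rw [h1, hβ1, hα, aeval_X]
          · change aeval _ (X (Sum.inr i)) = β (fB.rangeRestrict (X (Sum.inr i)))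
            rw [aeval_X, Sum.elim_inr]
      exact DFunLike.congr_fun hhom G
    refine ⟨fun G hG => ?_, ?_⟩
    · rw [key]
      have h1 : fB.rangeRestrict G = 0 := by
        apply Subtype.ext
        change fB G = 0
        rw [hfB]
        exact hG
      rw [h1, map_zero]
    · rw [key]
      exact hβ2

variable {k : Type} [Field k] [CharZero k] {n : ℕ} {φ : Tens k n}

theorem densePts_quad (hφ : IsSymm4 φ) (hs : Smooth4 φ) (hn : 2 ≤ n) {K M : Type} [Field K]
    [Algebra k K] [Field M] [Algebra K M] [Algebra k M] [IsScalarTower k K M]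
    (P : Fin (n + 1) → K) (hP : IsGenPt φ P) (hK : GenBy k P) (i0 : Fin (n + 1))
    (he : Phi φ P P P (Pi.single i0 1) ≠ 0) (W : Fin (n + 1) → M)
    (hW : ∀ G : MvPolynomial (Fin (n + 1)) K, aeval W G = 0 ↔ quadW φ P (Pi.single i0 1) ∣ G)
    (hM : GenBy K W)
    (hd : ∀ (d : ℕ) (G : MvPolynomial (Fin (n + 1)) k), G.IsHomogeneous d → ¬ FF φ ∣ G →
      ∃ a v : Fin (n + 1) → k, LinearIndependent k ![a, v] ∧ aeval a G ≠ 0 ∧
        Phi φ a a a a = 0 ∧ Phi φ a a a v = 0 ∧ Phi φ a a v v = 0) :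
    DensePts k M := by
  refine densePts_of_gen k M (Fin (n + 1) ⊕ Fin (n + 1))
    (Sum.elim (fun i => algebraMap K M (P i)) W) (genBy_sum k K M P W hK hM) ?_
  intro H hH
  obtain ⟨j0, hj0⟩ := W5_j0 hφ hs hn P (Pi.single i0 1) hP he W hW
  have heM : (fun i => algebraMap K M ((Pi.single i0 1 : Fin (n + 1) → K) i)) =
      Pi.single i0 1 := W5_single (IsScalarTower.toAlgHom k K M) i0
  rw [heM] at hj0
  -- the polynomials `T` and `F`
  obtain ⟨T, hT⟩ : ∃ T : MvPolynomial (Fin (n + 1) ⊕ Fin (n + 1)) k,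
      T = Phi φ (fun i => X (Sum.inl i)) (fun i => X (Sum.inl i))
        (prj φ (fun i => X (Sum.inl i)) (Pi.single i0 1) (fun i => X (Sum.inr i)))
        (prj φ (fun i => X (Sum.inl i)) (Pi.single i0 1) (Pi.single j0 1)) := ⟨_, rfl⟩
  have hTev : ∀ (S : Type) [Field S] [Algebra k S] (p q : Fin (n + 1) → S),
      aeval (Sum.elim p q) T = Phi φ p p (prj φ p (Pi.single i0 1) q)
        (prj φ p (Pi.single i0 1) (Pi.single j0 1)) := by
    intro S _ _ p q
    rw [hT, Phi_map φ (aeval (Sum.elim p q))]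
    simp only [prj_map, aeval_X, Sum.elim_inl, Sum.elim_inr, W5_single]
  obtain ⟨F, hF⟩ : ∃ F : MvPolynomial (Fin (n + 1) ⊕ Fin (n + 1)) k,
      F = qW φ (fun i => X (Sum.inl i)) (Pi.single i0 1) (fun i => X (Sum.inr i)) := ⟨_, rfl⟩
  have hFev : ∀ (S : Type) [Field S] [Algebra k S] (p q : Fin (n + 1) → S),
      aeval (Sum.elim p q) F = qW φ p (Pi.single i0 1) q := by
    intro S _ _ p q
    rw [hF, qW_map φ (aeval (Sum.elim p q))]
    simp only [aeval_X, Sum.elim_inl, Sum.elim_inr, W5_single]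
  have hF0 : aeval (Sum.elim (fun i => algebraMap K M (P i)) W) F = 0 := by
    have h1 := (hW (quadW φ P (Pi.single i0 1))).2 dvd_rfl
    have h2 := qW_map φ ((aeval W : MvPolynomial (Fin (n + 1)) K →ₐ[K] M).restrictScalars k)
      (fun i => C (P i)) (fun i => C ((Pi.single i0 1 : Fin (n + 1) → K) i)) X
    simp only [AlgHom.coe_restrictScalars', aeval_X, algHom_C] at h2
    unfold quadW at h1
    rw [h2, heM] at h1
    rw [hFev M]
    exact h1
  have hH1 : aeval (Sum.elim (fun i => algebraMap K M (P i)) W) (H * T) ≠ 0 := by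
    rw [map_mul, hTev M]
    exact mul_ne_zero hH hj0
  obtain ⟨U, hU, hU2⟩ := W5_ext P hP W (H * T) hH1
  obtain ⟨D, hD, hD2⟩ := W5_rel P hP hK i0 W hW
  -- the determinant
  obtain ⟨Δ, hΔ⟩ : ∃ Δ : MvPolynomial (Fin (n + 1)) k, Δ = (Matrix.of fun i j : Fin (n + 1) =>
      Phi φ X X (Pi.single i 1) (Pi.single j 1)).det := ⟨_, rfl⟩
  have hΔev : ∀ (S : Type) [Field S] [Algebra k S] (p : Fin (n + 1) → S),
      aeval p Δ = (Matrix.of fun i j : Fin (n + 1) =>
        Phi φ p p (Pi.single i 1) (Pi.single j 1)).det := by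
    intro S _ _ p
    rw [hΔ, AlgHom.map_det]
    congr 1
    ext i j
    rw [AlgHom.mapMatrix_apply, Matrix.map_apply, Matrix.of_apply, Matrix.of_apply,
      Phi_map φ (aeval p)]
    simp only [aeval_X, W5_single]
  obtain ⟨E, hE⟩ : ∃ E : MvPolynomial (Fin (n + 1)) k,
      E = Phi φ X X X (Pi.single i0 1) := ⟨_, rfl⟩
  have hEev : ∀ (S : Type) [Field S] [Algebra k S] (p : Fin (n + 1) → S),
      aeval p E = Phi φ p p p (Pi.single i0 1) := by
    intro S _ _ p
    rw [hE, Phi_map φ (aeval p)]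
    simp only [aeval_X, W5_single]
  have hG : aeval P (D * U * (Δ * E)) ≠ 0 := by
    rw [map_mul, map_mul, map_mul, hΔev K, hEev K]
    exact mul_ne_zero (mul_ne_zero hD hU) (mul_ne_zero (hess_det hφ hs P hP) he)
  obtain ⟨a, v, ha0, hav, haG, h0, h1, h2⟩ := W5_point P hP hd _ hG
  rw [map_mul, map_mul, map_mul, hΔev k, hEev k] at haG
  have haD : aeval a D ≠ 0 := left_ne_zero_of_mul (left_ne_zero_of_mul haG)
  have haU : aeval a U ≠ 0 := right_ne_zero_of_mul (left_ne_zero_of_mul haG)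
  have hdet := left_ne_zero_of_mul (right_ne_zero_of_mul haG)
  have hae := right_ne_zero_of_mul (right_ne_zero_of_mul haG)
  obtain ⟨η, hη1, hη2⟩ := hU2 a ha0 h0 haU
  have heΩ : (fun i => algebraMap k (AlgebraicClosure k) ((Pi.single i0 1 : Fin (n + 1) → k) i)) =
      Pi.single i0 1 := W5_single (Algebra.ofId k (AlgebraicClosure k)) i0
  have hjΩ : (fun i => algebraMap k (AlgebraicClosure k) ((Pi.single j0 1 : Fin (n + 1) → k) i)) =
      Pi.single j0 1 := W5_single (Algebra.ofId k (AlgebraicClosure k)) j0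
  rw [map_mul, hTev (AlgebraicClosure k)] at hη2
  have hη3 := hη1 F hF0
  rw [hFev (AlgebraicClosure k)] at hη3
  obtain ⟨H', hH'⟩ : ∃ H' : MvPolynomial (Fin (n + 1)) k,
      H' = aeval (Sum.elim (fun i => C (a i)) X) H := ⟨_, rfl⟩
  have hH'ev : ∀ (S : Type) [Field S] [Algebra k S] (q : Fin (n + 1) → S),
      aeval q H' = aeval (Sum.elim (fun i => algebraMap k S (a i)) q) H := by
    intro S _ _ q
    rw [hH', ← AlgHom.comp_apply, MvPolynomial.comp_aeval]
    congr 1
    congr 1
    funext i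
    rcases i with i | i
    · rw [Sum.elim_inl, Sum.elim_inl, algHom_C]
    · rw [Sum.elim_inr, Sum.elim_inr, aeval_X]
  obtain ⟨b, hb1, hb2⟩ := exists_rational_point hφ a v (Pi.single i0 1) hav h0 h1 h2 hae hdet H' η
    (by rw [heΩ]; exact hη3)
    (by rw [hH'ev (AlgebraicClosure k)]; exact left_ne_zero_of_mul hη2)
    (Pi.single j0 1)
    (by rw [heΩ, hjΩ]; exact right_ne_zero_of_mul hη2)
  refine ⟨Sum.elim a b, fun G hG0 => hD2 a b ha0 h0 haD hb1 G hG0, ?_⟩
  have h5 := hH'ev k b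
  rw [h5] at hb2
  exact hb2

end Pool.Agent.LibHP
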