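import Mathlib

set_option autoImplicit false
open MvPolynomial

namespace Pool.Agent.LibHP

/-!
# Row Q17: function fields of absolutely irreducible hypersurfaces are regular (only Mathlib)

`W` is a generic point, with values in `M`, of the hypersurface `f = 0` over `K`, and `M = K(W)`. If `f` stays
prime over the algebraic closure of `K`, then `K` is algebraically closed in `M`.

PLAN. Let `K̄ = AlgebraicClosure K`, `f̄ = f.map`, `R = MvPolynomial σ K̄ ⧸ span {f̄}`, a domain, `M' = Frac R`,
`W' j` the classes of the variables. `j : M → M'` over `K` with `j (W i) = W' i`: first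
`aeval W G = 0 ↔ f ∣ G ↔ f̄ ∣ G.map ↔ aeval W' G = 0` for `G` over `K` (divisibility descends along
`K ⊆ K̄`: faithful flatness, or compare coefficients in a `K`-basis of `K̄` containing `1`), then extend to
fractions (`IsFractionRing`/`IsLocalization.lift`, `hgen`). Let `z ∈ M` be algebraic over `K`; `j z` is a root of
its minimal polynomial, which splits in `K̄`, so `j z = c` with `c ∈ K̄`. By `hgen` write `z * aeval W H = aeval W G`,
`aeval W H ≠ 0`; so in `R`: `c * H = G`, i.e. `f̄ ∣ C c * H.map - G.map`. Take a basis of `K̄` over `K` containing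
`1`, and suppose `c ∉ K`: then one may take a basis with `b 0 = 1`, `b 1 = c` and comparing the coefficients
of `c`: `f ∣ H`, so `aeval W H = 0`, contradiction. (In other words: `C c * H.map - G.map = f̄ * A`, expand `A` in
the basis.) So `c = algebraMap a`, and `z = algebraMap a` as `j` is injective.
-/

/-- apply a linear functional to the coefficients -/
noncomputable def Q17_pr {K L σ : Type} [Field K] [Field L] [Algebra K L] (π : L →ₗ[K] K)
    (A : MvPolynomial σ L) : MvPolynomial σ K := ∑ m ∈ A.support, monomial m (π (coeff m A))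

theorem Q17_coeff_pr {K L σ : Type} [Field K] [Field L] [Algebra K L] (π : L →ₗ[K] K)
    (A : MvPolynomial σ L) (n : σ →₀ ℕ) : coeff n (Q17_pr π A) = π (coeff n A) := by
  classical
  unfold Q17_pr
  rw [coeff_sum]
  simp only [coeff_monomial]
  rw [Finset.sum_ite_eq']
  split_ifs with h
  · rfl
  · rw [notMem_support_iff.1 h, map_zero]

theorem Q17_pr_mul {K L σ : Type} [Field K] [Field L] [Algebra K L] (π : L →ₗ[K] K)
    (f : MvPolynomial σ K) (A : MvPolynomial σ L) :
    Q17_pr π (f.map (algebraMap K L) * A) = f * Q17_pr π A := by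
  classical
  ext n
  rw [Q17_coeff_pr, coeff_mul, coeff_mul, map_sum]
  refine Finset.sum_congr rfl fun x _ => ?_
  rw [Q17_coeff_pr, coeff_map, ← Algebra.smul_def, map_smul, smul_eq_mul]

/-- Divisibility descends from an extension of the coefficient field. -/
theorem dvd_of_map_dvd {K L σ : Type} [Field K] [Field L] (τ : K →+* L) (f G : MvPolynomial σ K)
    (h : f.map τ ∣ G.map τ) : f ∣ G := by
  let _ : Algebra K L := τ.toAlgebra
  obtain ⟨A, hA⟩ := h
  obtain ⟨π, hπ⟩ := LinearMap.exists_leftInverse_of_injective (Algebra.linearMap K L)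
    (LinearMap.ker_eq_bot.2 τ.injective)
  refine ⟨Q17_pr π A, ?_⟩
  rw [← Q17_pr_mul]
  ext n
  rw [Q17_coeff_pr]
  change _ = π (coeff n (f.map τ * A))
  rw [← hA, coeff_map]
  exact (LinearMap.congr_fun hπ (coeff n G)).symm

theorem Q17_hom {F : Type} [Field F] (q : Polynomial F) (n : ℕ) (hn : q.natDegree = n)
    (x y h : F) (hx : x = y * h) :
    ∑ i ∈ Finset.range (n + 1), q.coeff i * x ^ i * h ^ (n - i) = h ^ n * q.eval y := by
  subst hn
  rw [Polynomial.eval_eq_sum_range, Finset.mul_sum]
  refine Finset.sum_congr rfl fun i hi => ?_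
  have hi' : i ≤ q.natDegree := Nat.lt_succ_iff.1 (Finset.mem_range.1 hi)
  have h1 : h ^ q.natDegree = h ^ i * h ^ (q.natDegree - i) := by
    rw [← pow_add, Nat.add_sub_cancel' hi']
  rw [h1, hx]
  ring

theorem algClosed_of_geomPrime (K σ M : Type) [Field K] [Field M] [Algebra K M]
    (f : MvPolynomial σ K)
    (hf : Prime (f.map (algebraMap K (AlgebraicClosure K)))) (W : σ → M)
    (hW : ∀ G : MvPolynomial σ K, aeval W G = 0 ↔ f ∣ G)
    (hgen : ∀ z : M, ∃ G H : MvPolynomial σ K, aeval W H ≠ 0 ∧ z * aeval W H = aeval W G)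
    (z : M) (hz : IsAlgebraic K z) : ∃ a : K, algebraMap K M a = z := by
  obtain ⟨G, H, hH, hGH⟩ := hgen z
  set p := minpoly K z with hp
  set n := p.natDegree with hn
  set Φ : MvPolynomial σ K := ∑ i ∈ Finset.range (n + 1), C (p.coeff i) * G ^ i * H ^ (n - i)
    with hΦ
  have hdvd : f ∣ Φ := by
    rw [← hW, hΦ, map_sum]
    have h1 := Q17_hom (p.map (algebraMap K M)) n (Polynomial.natDegree_map _) (aeval W G) z
      (aeval W H) hGH.symm
    rw [Polynomial.eval_map_algebraMap, hp, minpoly.aeval, mul_zero] at h1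
    rw [← h1]
    refine Finset.sum_congr rfl fun i _ => ?_
    rw [map_mul, map_mul, map_pow, map_pow, algHom_C, Polynomial.coeff_map]
  -- the domain over the algebraic closure
  set f' := f.map (algebraMap K (AlgebraicClosure K)) with hf'
  have hpr : (Ideal.span {f'}).IsPrime := (Ideal.span_singleton_prime hf.ne_zero).2 hf
  set L' := FractionRing (MvPolynomial σ (AlgebraicClosure K) ⧸ Ideal.span {f'}) with hL'
  set θ : MvPolynomial σ (AlgebraicClosure K) →+* L' :=
    (algebraMap (MvPolynomial σ (AlgebraicClosure K) ⧸ Ideal.span {f'}) L').comp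
      (Ideal.Quotient.mk (Ideal.span {f'})) with hθ
  have hθ0 : ∀ X, θ X = 0 ↔ f' ∣ X := by
    intro X
    rw [hθ, RingHom.comp_apply, map_eq_zero_iff _ (IsFractionRing.injective _ _),
      Ideal.Quotient.eq_zero_iff_mem, Ideal.mem_span_singleton]
  set ι := algebraMap K (AlgebraicClosure K) with hι
  have hH' : θ (H.map ι) ≠ 0 := by
    intro h
    exact hH ((hW H).2 (dvd_of_map_dvd ι f H ((hθ0 _).1 h)))
  set z' := θ (G.map ι) / θ (H.map ι) with hz'
  have h2 : θ (Φ.map ι) = 0 := (hθ0 _).2 (map_dvd _ hdvd)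
  have h3 : (p.map (θ.comp (C.comp ι))).eval z' = 0 := by
    have h1 := Q17_hom (p.map (θ.comp (C.comp ι))) n (Polynomial.natDegree_map _)
      (θ (G.map ι)) z' (θ (H.map ι)) (by rw [hz', div_mul_cancel₀ _ hH'])
    have h4 : ∑ i ∈ Finset.range (n + 1), (p.map (θ.comp (C.comp ι))).coeff i *
        (θ (G.map ι)) ^ i * (θ (H.map ι)) ^ (n - i) = 0 := by
      rw [← h2, hΦ, map_sum, map_sum]
      refine Finset.sum_congr rfl fun i _ => ?_
      rw [map_mul, map_mul, map_pow, map_pow, map_mul, map_mul, map_pow, map_pow, map_C,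
        Polynomial.coeff_map]
      rfl
    rw [h4] at h1
    rcases mul_eq_zero.1 h1.symm with h5 | h5
    · exact absurd h5 (pow_ne_zero _ hH')
    · exact h5
  -- a root in the algebraic closure
  have hsp : (p.map ι).Splits := IsAlgClosed.splits _
  have hp0 : p.Monic := minpoly.monic hz.isIntegral
  obtain ⟨c, hc⟩ : ∃ c : AlgebraicClosure K, z' = θ (C c) := by
    have h5 : p.map (θ.comp (C.comp ι)) = (p.map ι).map (θ.comp C) := by
      rw [Polynomial.map_map]
      rfl
    rw [h5, Polynomial.eval_map, hsp.eq_prod_roots, (hp0.map ι).leadingCoeff, Polynomial.C_1,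
      one_mul, Polynomial.eval₂_multiset_prod, Multiset.prod_eq_zero_iff, Multiset.map_map] at h3
    obtain ⟨c, -, hc⟩ := Multiset.mem_map.1 h3
    refine ⟨c, ?_⟩
    simp only [Function.comp_apply, Polynomial.eval₂_sub, Polynomial.eval₂_X,
      Polynomial.eval₂_C] at hc
    exact sub_eq_zero.1 hc
  have h6 : f' ∣ G.map ι - C c * H.map ι := by
    rw [← hθ0, map_sub, map_mul, ← hc, hz', div_mul_cancel₀ _ hH', sub_self]
  obtain ⟨A, hA⟩ := h6
  by_cases hcr : ∃ a : K, ι a = c
  · obtain ⟨a, rfl⟩ := hcr
    refine ⟨a, ?_⟩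
    have h7 : f ∣ G - C a * H := by
      refine dvd_of_map_dvd ι _ _ ⟨A, ?_⟩
      rw [map_sub, map_mul, map_C]
      exact hA
    have h8 := (hW _).2 h7
    rw [map_sub, map_mul, algHom_C, ← hGH, sub_eq_zero] at h8
    exact (mul_right_cancel₀ hH h8).symm
  · exfalso
    have h9 : c ∉ Submodule.span K {(1 : AlgebraicClosure K)} := by
      intro h
      obtain ⟨a, ha⟩ := Submodule.mem_span_singleton.1 h
      exact hcr ⟨a, by rw [← ha, Algebra.smul_def, mul_one]⟩
    obtain ⟨π, hπc, hπ⟩ := Submodule.exists_le_ker_of_notMem h9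
    have hπ1 : π 1 = 0 := hπ (Submodule.mem_span_singleton_self 1)
    have h10 : f ∣ C (-(π c)) * H := by
      refine ⟨Q17_pr π A, ?_⟩
      rw [← Q17_pr_mul]
      ext m
      rw [Q17_coeff_pr, coeff_C_mul]
      have h11 : f.map (algebraMap K (AlgebraicClosure K)) * A = G.map ι - C c * H.map ι := hA.symm
      rw [h11, coeff_sub, coeff_C_mul, coeff_map, coeff_map, map_sub]
      have h12 : π (ι (coeff m G)) = 0 := by
        have : ι (coeff m G) = coeff m G • (1 : AlgebraicClosure K) := by
          rw [Algebra.smul_def, mul_one]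
        rw [this, map_smul, hπ1, smul_zero]
      have h13 : π (c * ι (coeff m H)) = coeff m H * π c := by
        have : c * ι (coeff m H) = coeff m H • c := by
          rw [Algebra.smul_def, mul_comm]
        rw [this, map_smul, smul_eq_mul]
      rw [h12, h13]
      ring
    have h14 : f ∣ H := by
      have h15 : IsUnit (C (-(π c)) : MvPolynomial σ K) :=
        (isUnit_iff_ne_zero.2 (neg_ne_zero.2 hπc)).map C
      exact (h15.dvd_mul_left).1 h10
    exact hH ((hW H).2 h14)

end Pool.Agent.LibHP
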