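import Pool.Agent.LibHP.F2
import Pool.Agent.LibHP2.Defs

set_option autoImplicit false

namespace Pool.Agent.LibHP

/-!
# Row Q24b: the base field is algebraically closed in a rational function field

PLAN. `K` is algebraically closed in `FractionRing (MvPolynomial (Fin r) K)`: an element `f` algebraic over `K`
is integral over `K`, hence over `MvPolynomial (Fin r) K` (integrally closed), so it is a polynomial; a
nonconstant polynomial is transcendental over `K` (`MvPolynomial.transcendental…`, or: `f` integral over `K` in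
the domain `MvPolynomial (Fin r) K`, total degrees of powers; Mathlib may have
`MvPolynomial.isAlgebraic_iff`/`IsIntegrallyClosedIn`, `integralClosure … = ⊥`).
`closed_trans`: if `u` is algebraic over `K` via `j ∘ i` it is algebraic over `M` via `j`, so `u = j m`, and `m` is
algebraic over `K` via `i` (`j` injective).
-/

theorem algClosed_RF (κ : Type) [Field κ] (r : ℕ) (f : RF κ r) (hf : IsAlgebraic κ f) :
    ∃ a : κ, f = algebraMap κ (RF κ r) a := by
  have hint : IsIntegral κ f := hf.isIntegral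
  have hint2 : IsIntegral (MvPolynomial (Fin r) κ) f := hint.tower_top
  obtain ⟨p, hp⟩ := IsIntegrallyClosed.algebraMap_eq_of_integral hint2
  have hpa : IsAlgebraic κ p := by
    rw [← hp] at hf
    exact (isAlgebraic_algebraMap_iff
      (IsFractionRing.injective (MvPolynomial (Fin r) κ) (RF κ r))).1 hf
  set a : κ := MvPolynomial.constantCoeff p with ha
  have hg : IsAlgebraic κ (p - algebraMap κ (MvPolynomial (Fin r) κ) a) :=
    hpa.sub (isAlgebraic_algebraMap a)
  have hzero : p - algebraMap κ (MvPolynomial (Fin r) κ) a = 0 := by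
    by_contra hne
    obtain ⟨q, hq0, hq⟩ := hg.exists_nonzero_dvd (mem_nonZeroDivisors_of_ne_zero hne)
    obtain ⟨h, hh⟩ := hq
    have h1 := congrArg MvPolynomial.constantCoeff hh
    rw [map_mul, map_sub, MvPolynomial.algebraMap_eq, MvPolynomial.constantCoeff_C,
      MvPolynomial.constantCoeff_C, ← ha, sub_self, zero_mul] at h1
    exact hq0 h1
  refine ⟨a, ?_⟩
  rw [← hp, sub_eq_zero.1 hzero, ← IsScalarTower.algebraMap_apply]

theorem closed_trans {K M κ : Type} [Field K] [Field M] [Field κ] (i : K →+* M) (j : M →+* κ)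
    (hi : ∀ u : M, (∃ Q : Polynomial K, Q ≠ 0 ∧ Q.eval₂ i u = 0) → ∃ a, i a = u)
    (hj : ∀ u : κ, (∃ Q : Polynomial M, Q ≠ 0 ∧ Q.eval₂ j u = 0) → ∃ a, j a = u) :
    ∀ u : κ, (∃ Q : Polynomial K, Q ≠ 0 ∧ Q.eval₂ (j.comp i) u = 0) → ∃ a, j (i a) = u := by
  rintro u ⟨Q, hQ, hQu⟩
  obtain ⟨m, hm⟩ := hj u ⟨Q.map i, (Polynomial.map_ne_zero_iff i.injective).2 hQ, by
    rw [Polynomial.eval₂_map]; exact hQu⟩
  obtain ⟨a, ha⟩ := hi m ⟨Q, hQ, by
    apply j.injective
    rw [Polynomial.hom_eval₂, hm, hQu, map_zero]⟩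
  exact ⟨a, by rw [ha, hm]⟩

end Pool.Agent.LibHP
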