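import Pool.Agent.LibHPF.QE
import Pool.Agent.LibHPF.P13
import Pool.Agent.LibHPF.Q19
import Pool.Agent.LibHPF.Q22
import Pool.Agent.LibHPF.Q23
import Pool.Agent.LibHPF.Q24b

set_option autoImplicit false
open MvPolynomial

namespace Pool.Agent.LibHP

variable {k : Type} [Field k] [CharZero k] {n : ℕ} {φ : Tens k n}

/-!
# Row Q24: the family of moves and its anchor

`κ, j, z` is the anchor: a field `κ ⊇ M` in which `M` is algebraically closed, and a parameter `z` over `κ` for
which the direction `v` satisfies `φ(P, v, v, v) = 0 ≠ φ(v, v, v, v)`, so that the moved point is `P` itself.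

PLAN. Write `Y = mvRF φ PM eM W`, `Ω = RF κ (n + 1)` (a `k`-algebra), `c = algebraMap κ Ω ∘ j : M → Ω`.
`J : RF M (n + 1) → RatFunc Ω` from `exists_arc` with `E := M`, `Ω := κ`, `ψ := j`, `r := n + 1`, `a := z`, `b := 0`.
`J` is `k`-linear (through `M`) and maps `Y i` to `mvz` of the images (`mvz_map` for the `k`-algebra map `J`; the
`k`-algebra structure on `RatFunc Ω` is `RatFunc.C ∘ algebraMap`), so by `jets_anchor` (over `Ω`; the vector
`v` is mapped by `algebraMap κ Ω`) `J (Y i)` is regular at `0` with the value `t * c (PM i)`,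
`t = Phi φ v v v v ≠ 0` (in `κ ⊆ Ω`).
(1) `Y 0 ≠ 0`: the value of `J (Y 0)` is `t * 1 ≠ 0`.
(2) For forms `G` of degree `d` over `k`: `aeval P G = 0 ↔ aeval Y G = 0`. If `FF φ ∣ G`: `Phi φ Y Y Y Y = 0` by
`Phi_mv`, `Phi_st1`, `Phi_st2`, `Phi_prj` (with `Phi φ P P P P = 0`, and
`Phi φ PM PM (prj W) (prj W) = qW φ PM eM W = 0`). Conversely apply `J`: the value at `0` of
`J (aeval Y G) = aeval (J ∘ Y) G` is `aeval (t • c ∘ PM) G = t ^ d * c (aeval P G)`; it is `0`, so `aeval P G = 0`.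
(Values are compatible with polynomials: `HasJet.add`, `HasJet.mul`; `HasJet.unique`.)
(3) `σ` from `exists_hom_of_gen` with `x := P`, `i0 := 0` (`hP.1 : P 0 = 1`), `y := Y`: `σ (P i) = Y i / Y 0`.
(4) `ClosedIn σ`: `closed_of_anchor` (P13) with `V = V0.comap J`, `V0` from `exists_valuation_at_zero Ω`. First:
for all `a : K`, `J (σ a)` is regular with the value `c (algebraMap K M a)` (true for `a = P i`: quotient of the
jets `t * c (PM i)` and `t`; the set of such `a` is a subfield containing `k` and the `P i`, and `GenBy k P`).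
Residue field of `V`: the map `val : V → Ω`, `f ↦` value of `J f`, is a ring homomorphism with kernel the maximal
ideal (a unit iff the value is not zero), so it induces an injection of the residue field into `Ω` with
`residue ⟨σ a, _⟩ ↦ c (algebraMap K M a)`. If `z` in the residue field is algebraic over `K`, its image `w ∈ Ω` is
algebraic over `K` via `c ∘ algebraMap K M`; by `closed_trans` (twice: `K` in `M` by `hKM`, `M` in `κ` by `hj`, `κ` in
`Ω` by `algClosed_RF`) `w = c (algebraMap K M a)`, so `z = residue ⟨σ a, _⟩`.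
-/

/-- homogeneous polynomials at multiples -/
theorem Q24_scale {k : Type} [Field k] {n : ℕ} {S : Type} [CommRing S] [Algebra k S] {d : ℕ}
    {G : MvPolynomial (Fin (n + 1)) k} (hG : G.IsHomogeneous d) (t : S) (p : Fin (n + 1) → S) :
    aeval (fun i => t * p i) G = t ^ d * aeval p G := by
  rw [aeval_def, aeval_def, eval₂_eq', eval₂_eq', Finset.mul_sum]
  refine Finset.sum_congr rfl fun s hs => ?_
  have hd : ∑ i, s i = d := by
    have h1 := hG (mem_support_iff.mp hs)
    have h2 : Finsupp.degree s = Finsupp.weight 1 s := by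
      rw [Finsupp.degree_eq_weight_one]
      rfl
    rw [← h1, ← h2, Finsupp.degree_eq_sum]
  simp only [mul_pow, Finset.prod_mul_distrib, Finset.prod_pow_eq_pow_sum, hd]
  ring

theorem Q24_algMap {k : Type} [Field k] {Ω : Type} [Field Ω] [Algebra k Ω] (c : k) :
    algebraMap k (RatFunc Ω) c = RatFunc.C (algebraMap k Ω c) := by
  rw [IsScalarTower.algebraMap_apply k Ω (RatFunc Ω), RatFunc.algebraMap_eq_C]

/-- values of polynomials at regular functions -/
theorem Q24_aeval {k : Type} [Field k] {n : ℕ} {Ω : Type} [Field Ω] [Algebra k Ω]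
    (f : Fin (n + 1) → RatFunc Ω) (a : Fin (n + 1) → Ω) (h : ∀ i, ∃ b, HasJet (f i) (a i) b)
    (G : MvPolynomial (Fin (n + 1)) k) : ∃ b, HasJet (aeval f G) (aeval a G) b := by
  induction G using MvPolynomial.induction_on with
  | C c =>
    refine ⟨0, ?_⟩
    rw [aeval_C, aeval_C, Q24_algMap]
    exact HasJet.C _
  | add p q hp hq =>
    obtain ⟨b, hb⟩ := hp
    obtain ⟨b', hb'⟩ := hq
    rw [map_add, map_add]
    exact ⟨_, hb.add hb'⟩
  | mul_X p i hp =>
    obtain ⟨b, hb⟩ := hp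
    obtain ⟨b', hb'⟩ := h i
    rw [map_mul, map_mul, aeval_X, aeval_X]
    exact ⟨_, hb.mul hb'⟩

/-- the closedness, from the valuation -/
theorem Q24_closed {K E Ω : Type} [Field K] [Field E] [Field Ω] (σ : K →+* E)
    (J : E →+* RatFunc Ω) (c : K →+* Ω) (hjet : ∀ a, ∃ b, HasJet (J (σ a)) (c a) b)
    (hcl : ∀ u : Ω, (∃ Q : Polynomial K, Q ≠ 0 ∧ Q.eval₂ c u = 0) → ∃ a, c a = u) :
    ∀ e : E, (∃ P : Polynomial K, P ≠ 0 ∧ P.eval₂ σ e = 0) → ∃ a, σ a = e := by
  obtain ⟨V0, hV0, -⟩ := exists_valuation_at_zero Ω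
  have hmem : ∀ f, f ∈ V0.comap J ↔ ∃ a b, HasJet (J f) a b := by
    intro f
    rw [ValuationSubring.mem_comap, hV0]
  have hV : ∀ a, σ a ∈ V0.comap J := by
    intro a
    rw [hmem]
    obtain ⟨b, hb⟩ := hjet a
    exact ⟨_, _, hb⟩
  refine closed_of_anchor σ (V0.comap J) hV ?_
  let r : V0.comap J →+* regRing Ω :=
    (J.comp (V0.comap J).subtype).codRestrict (regRing Ω) (fun x => (hmem x.1).mp x.2)
  let val : V0.comap J →+* Ω := (F2_val Ω).comp r
  have hval : ∀ (x : V0.comap J) (a b : Ω), HasJet (J x.1) a b → val x = a := by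
    intro x a b hab
    exact F2_val_eq (r x) hab
  have hloc : IsLocalHom val := by
    constructor
    intro x hx
    obtain ⟨a, b, hab⟩ := (hmem x.1).mp x.2
    have h1 := hval x a b hab
    rw [h1] at hx
    have ha : a ≠ 0 := hx.ne_zero
    have h2 := hab.inv ha
    have h3 : (x.1)⁻¹ ∈ V0.comap J := by
      rw [hmem, map_inv₀]
      exact ⟨_, _, h2⟩
    have hx0 : x.1 ≠ 0 := by
      intro h0
      rw [h0, map_zero] at hab
      have h4 := (HasJet.C (0 : Ω))
      rw [map_zero] at h4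
      exact ha (hab.unique h4).1
    refine IsUnit.of_mul_eq_one (⟨(x.1)⁻¹, h3⟩ : V0.comap J) ?_
    exact Subtype.ext (mul_inv_cancel₀ hx0)
  let ρ : IsLocalRing.ResidueField (V0.comap J) →+* Ω := IsLocalRing.ResidueField.lift val
  have hρ : ∀ x, ρ (IsLocalRing.residue (V0.comap J) x) = val x := fun x =>
    IsLocalRing.ResidueField.lift_residue_apply val x
  have hρσ : ∀ a, ρ (IsLocalRing.residue (V0.comap J) ⟨σ a, hV a⟩) = c a := by
    intro a
    obtain ⟨b, hb⟩ := hjet a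
    rw [hρ]
    exact hval _ _ _ hb
  rintro z ⟨P, hP, hPz⟩
  have h1 : P.eval₂ c (ρ z) = 0 := by
    have h2 := congrArg ρ hPz
    rw [Polynomial.hom_eval₂, map_zero] at h2
    rw [← h2]
    congr 1
    ext a
    exact (hρσ a).symm
  obtain ⟨a, ha⟩ := hcl _ ⟨P, hP, h1⟩
  refine ⟨a, ρ.injective ?_⟩
  rw [hρσ, ha]

theorem exists_sigma (hφ : IsSymm4 φ) {K M : Type} [Field K] [Algebra k K] [Field M] [Algebra K M]
    [Algebra k M] [IsScalarTower k K M] (P e : Fin (n + 1) → K) (hP : IsGenPt φ P)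
    (hgenP : GenBy k P) (W PM eM : Fin (n + 1) → M) (hPM : ∀ i, PM i = algebraMap K M (P i))
    (heM : ∀ i, eM i = algebraMap K M (e i)) (hq : qW φ PM eM W = 0)
    (hKM : ∀ u : M, (∃ Q : Polynomial K, Q ≠ 0 ∧ Q.eval₂ (algebraMap K M) u = 0) →
      ∃ a, algebraMap K M a = u)
    {κ : Type} [Field κ] [Algebra k κ] (j : M →ₐ[k] κ)
    (hj : ∀ u : κ, (∃ Q : Polynomial M, Q ≠ 0 ∧ Q.eval₂ (j : M →+* κ) u = 0) → ∃ a, j a = u)
    (z v : Fin (n + 1) → κ)
    (hv : v = st φ (fun i => j (PM i))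
      (prj φ (fun i => j (PM i)) (fun i => j (eM i)) (fun i => j (W i)))
      (prj φ (fun i => j (PM i)) (fun i => j (eM i)) z))
    (h3 : Phi φ (fun i => j (PM i)) v v v = 0) (h4 : Phi φ v v v v ≠ 0) :
    ∃ σ : K →+* RF M (n + 1),
      (∀ c : k, σ (algebraMap k K c) = algebraMap k (RF M (n + 1)) c) ∧
      (∀ i, σ (P i) * mvRF φ PM eM W 0 = mvRF φ PM eM W i) ∧
      mvRF φ PM eM W 0 ≠ 0 ∧ ClosedIn σ := by
  let ιΩ : κ →+* RF κ (n + 1) := algebraMap κ (RF κ (n + 1))
  let cM : M →+* RF κ (n + 1) := ιΩ.comp (j : M →+* κ)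
  obtain ⟨J, hJM, hJX⟩ := exists_arc M κ (j : M →+* κ) (n + 1) z 0
  let Jk : RF M (n + 1) →ₐ[k] RatFunc (RF κ (n + 1)) :=
    { J with
      commutes' := fun c => by
        show J (algebraMap k (RF M (n + 1)) c) = _
        rw [IsScalarTower.algebraMap_apply k M (RF M (n + 1)), hJM, Q24_algMap,
          IsScalarTower.algebraMap_apply k κ (RF κ (n + 1))]
        congr 2
        exact j.commutes c }
  have hJk : ∀ x, Jk x = J x := fun _ => rfl
  let ιk : κ →ₐ[k] RF κ (n + 1) := IsScalarTower.toAlgHom k κ (RF κ (n + 1))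
  have hιk : ∀ x, ιk x = ιΩ x := fun _ => rfl
  -- the value of `J (Y i)`
  set Y := mvRF φ PM eM W with hY
  have hv' : (fun i => ιΩ (v i)) = st φ (fun i => cM (PM i))
      (prj φ (fun i => cM (PM i)) (fun i => cM (eM i)) (fun i => cM (W i)))
      (prj φ (fun i => cM (PM i)) (fun i => cM (eM i)) (fun i => ιΩ (z i))) := by
    funext i
    rw [hv, ← hιk, st_map φ ιk]
    have e1 : ∀ w : Fin (n + 1) → κ, (fun l => ιk (prj φ (fun i => j (PM i)) (fun i => j (eM i)) w l)) =
        prj φ (fun i => cM (PM i)) (fun i => cM (eM i)) (fun i => ιΩ (w i)) := by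
      intro w
      funext l
      rw [prj_map φ ιk]
      rfl
    rw [e1, e1]
    rfl
  have h3' : Phi φ (fun i => cM (PM i)) (fun i => ιΩ (v i)) (fun i => ιΩ (v i))
      (fun i => ιΩ (v i)) = 0 := by
    have e := Phi_map φ ιk (fun i => j (PM i)) v v v
    rw [h3, map_zero] at e
    exact e.symm
  have h4' : Phi φ (fun i => ιΩ (v i)) (fun i => ιΩ (v i)) (fun i => ιΩ (v i))
      (fun i => ιΩ (v i)) ≠ 0 := by
    have e := Phi_map φ ιk v v v v
    intro h0
    have e2 : ιk (Phi φ v v v v) = 0 := e.trans h0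
    rw [hιk, map_eq_zero] at e2
    exact h4 e2
  obtain ⟨t, ht⟩ : ∃ t, t = Phi φ (fun i => ιΩ (v i)) (fun i => ιΩ (v i)) (fun i => ιΩ (v i))
      (fun i => ιΩ (v i)) := ⟨_, rfl⟩
  rw [← ht] at h4'
  have hval : ∀ i, ∃ b, HasJet (J (Y i)) (t * cM (PM i)) b := by
    intro i
    obtain ⟨b, hb⟩ := jets_anchor hφ (fun i => cM (PM i)) (fun i => cM (eM i)) (fun i => cM (W i))
      (fun i => ιΩ (z i)) (fun i => ιΩ (v i)) hv' h3'
      (fun i => J (algebraMap (MvPolynomial (Fin (n + 1)) M) (RF M (n + 1)) (X i)))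
      (fun i => ⟨_, hJX i⟩) i
    refine ⟨b, ?_⟩
    have e1 : J (Y i) = mvz φ (fun j => RatFunc.C (cM (PM j))) (fun j => RatFunc.C (cM (eM j)))
        (fun j => RatFunc.C (cM (W j)))
        (fun i => J (algebraMap (MvPolynomial (Fin (n + 1)) M) (RF M (n + 1)) (X i))) i := by
      rw [hY, ← hJk, mvRF, mvz_map φ Jk]
      simp only [hJk, hJM]
      rfl
    rw [e1, ht]
    exact hb
  have hPM0 : PM 0 = 1 := by rw [hPM, hP.1, map_one]
  have hzero : HasJet (0 : RatFunc (RF κ (n + 1))) 0 0 := by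
    have h := HasJet.C (0 : RF κ (n + 1))
    rwa [map_zero] at h
  have hY0 : Y 0 ≠ 0 := by
    intro h0
    obtain ⟨b, hb⟩ := hval 0
    rw [h0, map_zero, hPM0, map_one, mul_one] at hb
    exact h4' (hb.unique hzero).1
  -- the equation
  have hP4 : Phi φ P P P P = 0 := by
    rw [← aeval_FF]
    exact (hP.2 4 (FF φ) (isHomogeneous_FF φ)).mpr dvd_rfl
  let ιM : M →ₐ[k] RF M (n + 1) := IsScalarTower.toAlgHom k M (RF M (n + 1))
  let ιK : K →ₐ[k] M := IsScalarTower.toAlgHom k K M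
  have hPM4 : Phi φ PM PM PM PM = 0 := by
    have e := Phi_map φ ιK P P P P
    rw [hP4, map_zero] at e
    have e1 : (fun i => ιK (P i)) = PM := by
      funext i
      exact (hPM i).symm
    rw [e1] at e
    exact e.symm
  have hYF : Phi φ Y Y Y Y = 0 := by
    have h0 : Phi φ (fun i => ιM (PM i)) (fun i => ιM (PM i)) (fun i => ιM (PM i))
        (fun i => ιM (PM i)) = 0 := by
      rw [← Phi_map φ ιM, hPM4, map_zero]
    have hw : Phi φ (fun i => ιM (PM i)) (fun i => ιM (PM i))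
        (prj φ (fun i => ιM (PM i)) (fun i => ιM (eM i)) (fun i => ιM (W i)))
        (prj φ (fun i => ιM (PM i)) (fun i => ιM (eM i)) (fun i => ιM (W i))) = 0 := by
      have e := qW_map φ ιM PM eM W
      rw [hq, map_zero] at e
      exact e.symm
    exact Phi_mv hφ _ _ h0
      (Phi_st1 _ _ _ (Phi_prj _ _ _) (Phi_prj _ _ _)) (Phi_st2 hφ _ _ _ hw)
  -- forms
  have hcM : ∀ G : MvPolynomial (Fin (n + 1)) k,
      aeval (fun i => cM (PM i)) G = cM (algebraMap K M (aeval P G)) := by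
    intro G
    let cK : K →ₐ[k] RF κ (n + 1) := (ιk.comp j).comp ιK
    have e1 : (fun i => cM (PM i)) = fun i => cK (P i) := by
      funext i
      rw [hPM]
      rfl
    rw [e1]
    exact (MvPolynomial.comp_aeval_apply (φ := cK) P G).symm
  have hforms : ∀ (d : ℕ) (G : MvPolynomial (Fin (n + 1)) k), G.IsHomogeneous d →
      (aeval P G = 0 ↔ aeval Y G = 0) := by
    intro d G hG
    constructor
    · intro h0
      obtain ⟨H, hH⟩ := (hP.2 d G hG).mp h0
      rw [hH, map_mul, aeval_FF, hYF, zero_mul]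
    · intro h0
      obtain ⟨b, hb⟩ := Q24_aeval (fun i => J (Y i)) (fun i => t * cM (PM i)) hval G
      have e1 : aeval (fun i => J (Y i)) G = 0 := by
        have e2 := MvPolynomial.comp_aeval_apply (φ := Jk) Y G
        rw [h0, map_zero] at e2
        exact e2.symm
      rw [e1, Q24_scale hG, hcM] at hb
      have e3 := (hb.unique hzero).1
      have e4 := (mul_eq_zero.mp e3).resolve_left (pow_ne_zero _ h4')
      rw [map_eq_zero, map_eq_zero] at e4
      exact e4
  obtain ⟨f, hf⟩ := exists_hom_of_gen k (Fin (n + 1)) K (RF M (n + 1)) P 0 hP.1 hgenP Y hY0 hforms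
  refine ⟨(f : K →+* RF M (n + 1)), fun c => f.commutes c, ?_, hY0, ?_⟩
  · intro i
    change f (P i) * Y 0 = Y i
    rw [hf, div_mul_cancel₀ _ hY0]
  -- the anchor
  let c : K →+* RF κ (n + 1) := cM.comp (algebraMap K M)
  have hval' : ∀ i, ∃ b, HasJet (J (f (P i))) (cM (PM i)) b := by
    intro i
    obtain ⟨b, hb⟩ := hval i
    obtain ⟨b0, hb0⟩ := hval 0
    rw [hPM0, map_one, mul_one] at hb0
    have h5 := hb.mul (hb0.inv h4')
    rw [hf, map_div₀, div_eq_mul_inv]
    have e5 : t * cM (PM i) * t⁻¹ = cM (PM i) := by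
      field_simp
    rw [e5] at h5
    exact ⟨_, h5⟩
  have hpoly : ∀ G : MvPolynomial (Fin (n + 1)) k,
      ∃ b, HasJet (J (f (aeval P G))) (cM (algebraMap K M (aeval P G))) b := by
    intro G
    obtain ⟨b, hb⟩ := Q24_aeval (fun i => J (f (P i))) (fun i => cM (PM i)) hval' G
    rw [hcM] at hb
    refine ⟨b, ?_⟩
    have e1 := MvPolynomial.comp_aeval_apply (φ := Jk.comp f) P G
    have e2 : J (f (aeval P G)) = aeval (fun i => J (f (P i))) G := e1
    rw [e2]
    exact hb
  have hjet : ∀ a, ∃ b, HasJet (J ((f : K →+* RF M (n + 1)) a)) (c a) b := by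
    intro a
    obtain ⟨G, H, hH, hGH⟩ := hgenP a
    obtain ⟨b, hb⟩ := hpoly G
    obtain ⟨b', hb'⟩ := hpoly H
    have hH' : cM (algebraMap K M (aeval P H)) ≠ 0 := by
      rw [Ne, map_eq_zero, map_eq_zero]
      exact hH
    have h5 := hb.mul (hb'.inv hH')
    have e5 : a = aeval P G * (aeval P H)⁻¹ := by
      rw [← hGH, mul_inv_cancel_right₀ hH]
    have e6 : J ((f : K →+* RF M (n + 1)) a) = J (f (aeval P G)) * (J (f (aeval P H)))⁻¹ := by
      rw [← map_inv₀, ← map_inv₀, ← map_mul, ← map_mul, ← e5]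
      rfl
    have e7 : c a = cM (algebraMap K M (aeval P G)) * (cM (algebraMap K M (aeval P H)))⁻¹ := by
      rw [← map_inv₀, ← map_inv₀, ← map_mul, ← map_mul, ← e5]
      rfl
    rw [e6, e7]
    exact ⟨_, h5⟩
  refine Q24_closed (f : K →+* RF M (n + 1)) J c hjet ?_
  have h5 := closed_trans (algebraMap K M) (j : M →+* κ) hKM hj
  exact closed_trans ((j : M →+* κ).comp (algebraMap K M)) ιΩ h5 (fun u hu => by
    obtain ⟨Q, hQ, hQu⟩ := hu
    obtain ⟨a, ha⟩ := algClosed_RF κ (n + 1) u ⟨Q, hQ, hQu⟩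
    exact ⟨a, ha.symm⟩)

end Pool.Agent.LibHP
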