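import Pool.Agent.LibHPF.C11
import Pool.Agent.LibHPF.W5

set_option autoImplicit false
open MvPolynomial

namespace Pool.Agent.LibHP

variable {k : Type} [Field k] [CharZero k] {n : ℕ} {φ : Tens k n}

theorem exists_anchor_stub (hφ : IsSymm4 φ) (hs : Smooth4 φ) (hn : 6 ≤ n) {K M : Type} [Field K]
    [Algebra k K] [Field M] [Algebra K M] [Algebra k M] [IsScalarTower k K M]
    (P e : Fin (n + 1) → K) (hP : IsGenPt φ P) (he : Phi φ P P P e ≠ 0)
    (W PM eM : Fin (n + 1) → M) (hPM : ∀ i, PM i = algebraMap K M (P i))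
    (heM : ∀ i, eM i = algebraMap K M (e i))
    (hW : ∀ G : MvPolynomial (Fin (n + 1)) K, aeval W G = 0 ↔ quadW φ P e ∣ G)
    (_hgenW : GenBy K W) :
    ∃ (κ : Type) (_ : Field κ) (_ : Algebra k κ) (j : M →ₐ[k] κ) (z v : Fin (n + 1) → κ),
      (∀ u : κ, (∃ Q : Polynomial M, Q ≠ 0 ∧ Q.eval₂ (j : M →+* κ) u = 0) → ∃ a, j a = u) ∧
      v = st φ (fun i => j (PM i))
        (prj φ (fun i => j (PM i)) (fun i => j (eM i)) (fun i => j (W i)))
        (prj φ (fun i => j (PM i)) (fun i => j (eM i)) z) ∧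
      Phi φ (fun i => j (PM i)) v v v = 0 ∧ Phi φ v v v v ≠ 0 := by
  obtain rfl : PM = fun i => algebraMap K M (P i) := funext hPM
  obtain rfl : eM = fun i => algebraMap K M (e i) := funext heM
  exact exists_anchor hφ hs hn P e hP he W hW

theorem densePts_stub (hφ : IsSymm4 φ) (hs : Smooth4 φ) (hn : 4 ≤ n)
    (hd : ∀ (d : ℕ) (G : MvPolynomial (Fin (n + 1)) k), G.IsHomogeneous d → ¬ FF φ ∣ G →
      ∃ a v : Fin (n + 1) → k, LinearIndependent k ![a, v] ∧ eval a G ≠ 0 ∧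
        Phi φ a a a a = 0 ∧ Phi φ a a a v = 0 ∧ Phi φ a a v v = 0)
    {K M : Type} [Field K] [Algebra k K] [Field M] [Algebra K M] [Algebra k M]
    [IsScalarTower k K M] (P : Fin (n + 1) → K) (hP : IsGenPt φ P) (hgenP : GenBy k P)
    (i0 : Fin (n + 1)) (he : Phi φ P P P (Pi.single i0 1) ≠ 0) (W : Fin (n + 1) → M)
    (hW : ∀ G : MvPolynomial (Fin (n + 1)) K, aeval W G = 0 ↔ quadW φ P (Pi.single i0 1) ∣ G)
    (hgenW : GenBy K W) : DensePts k M := by
  refine densePts_quad hφ hs (by omega) P hP hgenP i0 he W hW hgenW fun d G hG hF => ?_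
  obtain ⟨a, v, h1, h2, h3⟩ := hd d G hG hF
  refine ⟨a, v, h1, ?_, h3⟩
  have e : aeval a G = eval a G := by rw [← coe_aeval_eq_eval]; rfl
  rwa [e]

end Pool.Agent.LibHP
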