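import Pool.Agent.LibHPF.Q1
import Pool.Agent.LibHPF.Q16
import Pool.Agent.LibHPF.Q17
import Pool.Agent.LibHPF.Q18
import Pool.Agent.LibHPF.Q24
import Pool.Agent.LibHPF.Q26
import Pool.Agent.LibHPF.QX

set_option autoImplicit false
open MvPolynomial

namespace Pool.Agent.LibHP

variable {k : Type} [Field k] [CharZero k] {n : ℕ} {φ : Tens k n}

/-!
# Row Q27: assembly of the quartic side
-/

theorem smooth4_of_isSmoothHyp (hφ : IsSymm4 φ) (h : IsSmoothHyp (FF φ)) : Smooth4 φ := by
  intro x hx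
  by_contra hne
  have h0 : aeval x (FF φ) = 0 := by
    rw [aeval_FF]
    exact hx x
  obtain ⟨i, hi⟩ := h x hne h0
  apply hi
  rw [aeval_pderiv_FF hφ, hx, mul_zero]

/-- Taylor expansion of the quartic form. -/
private theorem Q27_taylor {k : Type} [Field k] {n : ℕ} {φ : Tens k n} (hφ : IsSymm4 φ)
    {R : Type} [CommRing R] [Algebra k R] (P v : Fin (n + 1) → R) (t : R) :
    Phi φ (P + t • v) (P + t • v) (P + t • v) (P + t • v) =
      Phi φ P P P P + t * (4 * Phi φ P P P v) + t ^ 2 * (6 * Phi φ P P v v) +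
        t ^ 3 * (4 * Phi φ P v v v + t * Phi φ v v v v) := by
  have e1 : Phi φ P P v P = Phi φ P P P v := Phi_comm34 hφ _ _ _ _
  have e2 : Phi φ P v P P = Phi φ P P P v := by rw [Phi_comm23 hφ P v P P, e1]
  have e3 : Phi φ v P P P = Phi φ P P P v := by rw [Phi_comm12 hφ v P P P, e2]
  have e4 : Phi φ P v P v = Phi φ P P v v := Phi_comm23 hφ _ _ _ _
  have e5 : Phi φ P v v P = Phi φ P P v v := by rw [Phi_comm34 hφ P v v P, e4]
  have e6 : Phi φ v P P v = Phi φ P P v v := by rw [Phi_comm12 hφ v P P v, e4]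
  have e7 : Phi φ v P v P = Phi φ P P v v := by rw [Phi_comm12 hφ v P v P, e5]
  have e8 : Phi φ v v P P = Phi φ P P v v := by rw [Phi_comm23 hφ v v P P, e7]
  have e9 : Phi φ v P v v = Phi φ P v v v := Phi_comm12 hφ _ _ _ _
  have e10 : Phi φ v v P v = Phi φ P v v v := by rw [Phi_comm23 hφ v v P v, e9]
  have e11 : Phi φ v v v P = Phi φ P v v v := by rw [Phi_comm34 hφ v v v P, e10]
  simp only [Phi_add1, Phi_smul1, Phi_add2, Phi_smul2, Phi_add3, Phi_smul3, Phi_add4,
    Phi_smul4, e1, e2, e3, e4, e5, e6, e7, e8, e9, e10, e11]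
  ring

theorem dense_phi (hφ : IsSymm4 φ) (hd : DenseContact (FF φ)) (d : ℕ)
    (G : MvPolynomial (Fin (n + 1)) k) (hG : G.IsHomogeneous d) (hF : ¬ FF φ ∣ G) :
    ∃ a v : Fin (n + 1) → k, LinearIndependent k ![a, v] ∧ eval a G ≠ 0 ∧
      Phi φ a a a a = 0 ∧ Phi φ a a a v = 0 ∧ Phi φ a a v v = 0 := by
  obtain ⟨P, hP, v, hli, hdvd⟩ := hd d G hG hF
  refine ⟨P, v, hli, hP, ?_⟩
  have h1 : (fun i => Polynomial.C (P i) + Polynomial.X * Polynomial.C (v i)) =
      (fun i => Polynomial.C (P i)) + (Polynomial.X : Polynomial k) •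
        (fun i => Polynomial.C (v i)) := by
    funext i
    rw [Pi.add_apply, Pi.smul_apply, smul_eq_mul]
  have hC : ∀ a b c d : Fin (n + 1) → k,
      Phi φ (fun i => Polynomial.C (a i)) (fun i => Polynomial.C (b i))
        (fun i => Polynomial.C (c i)) (fun i => Polynomial.C (d i)) =
        Polynomial.C (Phi φ a b c d) := by
    intro a b c d
    exact (Phi_map φ (Polynomial.CAlgHom (R := k) (A := k)) a b c d).symm
  rw [aeval_FF, h1, Q27_taylor hφ] at hdvd
  simp only [hC] at hdvd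
  have hdvd2 := (dvd_add_left (Dvd.intro _ rfl)).1 hdvd
  have h2 : (Polynomial.C (Phi φ P P P P) + Polynomial.X * (4 * Polynomial.C (Phi φ P P P v)) +
      Polynomial.X ^ 2 * (6 * Polynomial.C (Phi φ P P v v)) : Polynomial k) =
      Polynomial.C (Phi φ P P P P) + Polynomial.X * Polynomial.C (4 * Phi φ P P P v) +
      Polynomial.X ^ 2 * Polynomial.C (6 * Phi φ P P v v) := by
    simp only [map_mul, map_ofNat]
  rw [h2, Polynomial.X_pow_dvd_iff] at hdvd2
  have c0 := hdvd2 0 (by norm_num)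
  have c1 := hdvd2 1 (by norm_num)
  have c2 := hdvd2 2 (by norm_num)
  rw [Polynomial.coeff_add, Polynomial.coeff_add, Polynomial.coeff_X_mul_zero,
    Polynomial.coeff_C_zero, Polynomial.coeff_X_pow_mul', if_neg (by norm_num), add_zero,
    add_zero] at c0
  rw [Polynomial.coeff_add, Polynomial.coeff_add, Polynomial.coeff_X_mul,
    Polynomial.coeff_C_zero, Polynomial.coeff_X_pow_mul', if_neg (by norm_num),
    Polynomial.coeff_C_of_ne_zero one_ne_zero, zero_add, add_zero] at c1
  rw [Polynomial.coeff_add, Polynomial.coeff_add, Polynomial.coeff_X_mul,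
    Polynomial.coeff_C_of_ne_zero one_ne_zero, Polynomial.coeff_X_pow_mul', if_pos (le_refl 2),
    Polynomial.coeff_C_of_ne_zero two_ne_zero, zero_add, zero_add, Nat.sub_self,
    Polynomial.coeff_C_zero] at c2
  exact ⟨c0, (mul_eq_zero.1 c1).resolve_left (by norm_num),
    (mul_eq_zero.1 c2).resolve_left (by norm_num)⟩

theorem genBy_of_adjoin {K σ : Type} [Field K] [Algebra k K] (y : σ → K)
    (h : IntermediateField.adjoin k (Set.range y) = ⊤) : GenBy k y := by
  intro z
  have hz : z ∈ IntermediateField.adjoin k (Set.range y) := by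
    rw [h]
    exact IntermediateField.mem_top
  obtain ⟨r, s, rfl⟩ := (IntermediateField.mem_adjoin_range_iff k y z).1 hz
  by_cases hs : aeval y s = 0
  · refine ⟨0, 1, ?_, ?_⟩
    · rw [map_one]
      exact one_ne_zero
    · rw [hs, div_zero, zero_mul, map_zero]
  · exact ⟨r, s, hs, div_mul_cancel₀ _ hs⟩

theorem quartic_moves {k K : Type} [Field k] [CharZero k] [Field K] [Algebra k K] {n : ℕ}
    (hn : 6 ≤ n) (F : MvPolynomial (Fin (n + 1)) k) (hF : F.IsHomogeneous 4)
    (hsm : IsSmoothHyp F) (y : Fin (n + 1) → K) (hy : IsHypPt F y) (hd : DenseContact F)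
    (hdvr : ∀ (i : Fin (n + 1)) (p : Ideal (chartRing k y i)) [p.IsPrime], p.height = 1 →
      IsDiscreteValuationRing (Localization.AtPrime p)) :
    ∃ (M : Type) (_ : Field M) (_ : Algebra k M) (r : ℕ) (σ : K →+* RF M r),
      DensePts k M ∧ (∀ c : k, σ (algebraMap k K c) = algebraMap k (RF M r) c) ∧ ClosedIn σ ∧
      ∀ (i : Fin (n + 1)) (p : Ideal (chartRing k y i)), p.IsPrime → p.height = 1 →
        MetAt (chartRing k y i) K p σ 1 := by
  obtain ⟨φ, hφ, rfl⟩ := exists_tensor k n F hF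
  have hs : Smooth4 φ := smooth4_of_isSmoothHyp hφ hsm
  have hP : IsGenPt φ y := ⟨hy.1, hy.2.1⟩
  have hgenP : GenBy k y := genBy_of_adjoin y hy.2.2
  obtain ⟨i0, he⟩ := phi_ne hφ hs y hP
  have hprime : Prime (quadW φ y (Pi.single i0 1)) :=
    prime_quadW hφ hs (by omega) y _ hP he
  obtain ⟨M, _, _, W, hW, hgenW⟩ := exists_generic_field K (Fin (n + 1)) _ hprime
  let _ : Algebra k M := ((algebraMap K M).comp (algebraMap k K)).toAlgebra
  have hst : IsScalarTower k K M := IsScalarTower.of_algebraMap_eq fun _ => rfl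
  have hq : qW φ (fun i => algebraMap K M (y i))
      (fun i => algebraMap K M ((Pi.single i0 1 : Fin (n + 1) → K) i)) W = 0 := by
    have h1 := eval₂_quadW φ (IsScalarTower.toAlgHom k K M) y (Pi.single i0 1) W
    have h2 := (hW (quadW φ y (Pi.single i0 1))).2 dvd_rfl
    rw [aeval_def] at h2
    exact h1.symm.trans h2
  have hKM : ∀ u : M, (∃ Q : Polynomial K, Q ≠ 0 ∧ Q.eval₂ (algebraMap K M) u = 0) →
      ∃ a, algebraMap K M a = u := by
    rintro u ⟨Q, hQ, hQu⟩
    refine algClosed_of_geomPrime K (Fin (n + 1)) M (quadW φ y (Pi.single i0 1)) ?_ W hW hgenW u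
      ⟨Q, hQ, hQu⟩
    have h1 := map_quadW φ (IsScalarTower.toAlgHom k K (AlgebraicClosure K)) y (Pi.single i0 1)
    have h2 : Prime (quadW φ
        (fun i => (IsScalarTower.toAlgHom k K (AlgebraicClosure K)) (y i))
        (fun i => (IsScalarTower.toAlgHom k K (AlgebraicClosure K))
          ((Pi.single i0 1 : Fin (n + 1) → K) i))) := by
      refine prime_quadW hφ hs (by omega) _ _ (hP.map _) ?_
      rw [← Phi_map φ (IsScalarTower.toAlgHom k K (AlgebraicClosure K))]
      exact fun h => he ((map_eq_zero_iff _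
        (IsScalarTower.toAlgHom k K (AlgebraicClosure K)).injective).1 h)
    rw [← h1] at h2
    exact h2
  obtain ⟨κ, _, _, j, z, v, hj, hv, h3, h4⟩ := exists_anchor_stub hφ hs hn y (Pi.single i0 1) hP he
    W (fun i => algebraMap K M (y i))
    (fun i => algebraMap K M ((Pi.single i0 1 : Fin (n + 1) → K) i)) (fun _ => rfl)
    (fun _ => rfl) hW hgenW
  obtain ⟨σ, hσk, hσ, h0, hcl⟩ := exists_sigma hφ y (Pi.single i0 1) hP hgenP W
    (fun i => algebraMap K M (y i))
    (fun i => algebraMap K M ((Pi.single i0 1 : Fin (n + 1) → K) i)) (fun _ => rfl)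
    (fun _ => rfl) hq hKM j hj z v hv h3 h4
  have hdense : DensePts k M := densePts_stub hφ hs (by omega) (dense_phi hφ hd) y hP hgenP i0 he W
    hW hgenW
  refine ⟨M, inferInstance, inferInstance, n + 1, σ, hdense, hσk, hcl, ?_⟩
  intro i p hp hh
  exact metAt_all hφ hs (by omega) y (Pi.single i0 1) hP hgenP he W
    (fun i => algebraMap K M (y i))
    (fun i => algebraMap K M ((Pi.single i0 1 : Fin (n + 1) → K) i)) (fun _ => rfl)
    (fun _ => rfl) hW hgenW σ hσk hσ h0 i p hh (hdvr i p hh)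

end Pool.Agent.LibHP
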