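import Pool.Agent.LibHPF.P8c
import Pool.Agent.LibHPF.P11

/-! # Row P12: the criterion with divisors

Plan. `main_moves`; `PresAt` from `etale_of_div` and `isIntegral_derivation_of_etale` exactly as at the
end of `presAt_of_curves` (LibHP/S2.lean): `O := X.presheaf.stalk x` is a discrete valuation ring
(`isDiscreteValuationRing_stalk f x hx`), `algebraMap K L`, `stalkTo`. -/

set_option autoImplicit false
open AlgebraicGeometry CategoryTheory

namespace Pool.Agent.LibHP

theorem presAt_of_div {k : Type} [Field k] [CharZero k] {X : Scheme}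
    (f : X ⟶ Spec (CommRingCat.of k)) [IsIntegral X] [Smooth f] {M : Type} [Field M] {r : ℕ}
    (σ : X.functionField →+* RF M r) (L : Type) [Field L] [Algebra X.functionField L]
    [FiniteDimensional X.functionField L] (hL : AllEmb σ L) (x : X)
    (hx : ringKrullDim (X.presheaf.stalk x) = 1)
    (hdiv : ∀ l : ℕ, l.Prime → ∃ m : ℕ, ¬ l ∣ m ∧ MeetsDiv (X.presheaf.stalk x) σ m) :
    PresAt (algebraMap X.functionField L) x := by
  have hdvr := isDiscreteValuationRing_stalk f x hx
  let _ : Algebra (X.presheaf.stalk x) L :=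
    (stalkTo (algebraMap X.functionField L) x).toAlgebra
  have tow : IsScalarTower (X.presheaf.stalk x) X.functionField L :=
    IsScalarTower.of_algebraMap_eq (fun _ => rfl)
  have hQ : ∀ n : ℕ, n ≠ 0 → IsUnit (n : X.presheaf.stalk x) := by
    intro n hn
    have h1 : IsUnit (n : k) := (Nat.cast_ne_zero.mpr hn).isUnit
    have h2 := h1.map (toStalk f x)
    simpa using h2
  have cz : CharZero X.functionField :=
    charZero_of_injective_ringHom (toStalk f (genericPoint X)).injective
  have czL : CharZero L := charZero_of_injective_ringHom (algebraMap X.functionField L).injective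
  have het : Algebra.Etale (X.presheaf.stalk x) (integralClosure (X.presheaf.stalk x) L) :=
    etale_of_div (X.presheaf.stalk x) X.functionField L hQ σ hL hdiv
  intro D hD b hb
  exact isIntegral_derivation_of_etale (X.presheaf.stalk x) X.functionField L D hD b hb

theorem main_moves_div (k : Type) [Field k] [NumberField k] {X : Scheme}
    (f : X ⟶ Spec (CommRingCat.of k)) [IsIntegral X] [Smooth f] [IsSeparated f] [QuasiCompact f]
    (hsc : GeomSimplyConnected f)
    (H : ∀ S : Finset X, (∀ x ∈ S, ringKrullDim (X.presheaf.stalk x) = 1) →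
      ∃ (M : Type) (_ : Field M) (_ : Algebra k M) (r : ℕ) (σ : X.functionField →+* RF M r),
        DensePts k M ∧ (∀ c : k, σ (toStalk f (genericPoint X) c) = algebraMap k (RF M r) c) ∧
        ClosedIn σ ∧
        ∀ x ∈ S, ∀ l : ℕ, l.Prime → ∃ m : ℕ, ¬ l ∣ m ∧ MeetsDiv (X.presheaf.stalk x) σ m) :
    HilbertProp f := by
  refine main_moves k f hsc fun S hS => ?_
  obtain ⟨M, i1, i2, r, σ, h1, h2, h3, h4⟩ := H S hS
  exact ⟨M, i1, i2, r, σ, h1, h2, h3, fun L _ _ _ hL x hx =>
    presAt_of_div f σ L hL x (hS x hx) (h4 x hx)⟩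

end Pool.Agent.LibHP
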