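import Pool.Agent.LibHPF.Defs

/-! Row G11. A contact line from isotropy. `P ≠ 0`. Let `V := Fin (n + 1) → k` (dimension `n + 1 ≥ 7`). The linear form
`ℓ v = ∑ i, eval P (pderiv i F) * v i`; `H` := a complement of `span {P}` in `V` (`Submodule.exists_isCompl`), `W := H ⊓ ker ℓ` has dimension `≥ n - 1 ≥ 5`
(`finrank H = n`; the kernel of a linear form on `H` has dimension `≥ n - 1`). Take 5 linearly independent vectors `w : Fin 5 → V` in `W`.
For `v` put `F(P + X v) := aeval (fun i => C (P i) + X * C (v i)) F ∈ k[X]`. Coefficients: of `X^0`: `eval P F = 0`; of `X^1`: `ℓ v`; of `X^2`: `Q v`, a quadratic form in `v`.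
Let `q := coefficient of X^2` of `aeval (fun i => C (C (P i)) + X * C (∑ j, MvPolynomial.C (w j i) * MvPolynomial.X j)) F ∈ (MvPolynomial (Fin 5) k)[X]`: homogeneous of degree 2
(e.g. by `MvPolynomial.induction_on`-type argument: for every `F` the coefficient of `X^m` is homogeneous of degree `m`: true for constants and `X i` and stable under sums and products).
`hq q` gives `t ≠ 0` with `eval t q = 0`; `v := ∑ j, t j • w j`, `v ≠ 0`, `v ∈ H`, so `P`, `v` are independent; evaluating at `t` (`Polynomial.map (eval t)`) shows that the three first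
coefficients of `F(P + X v)` vanish: `X^3 ∣ …` (`Polynomial.X_pow_dvd_iff`). For the coefficient of `X^1`: `Polynomial.coeff_one`-derivative: derivative at `0` of
`F(P + X v)` is `∑ i, eval P (pderiv i F) * v i` (again by induction on `F`, or a lemma on `MvPolynomial.aeval`/`derivative`: `Derivation` chain rule `MvPolynomial.aeval_sumElim`...). -/

set_option autoImplicit false

namespace Pool.Agent.LibHP

theorem G11_hom {k : Type} [Field k] {σ : Type} {m : ℕ} (A B : Fin m → MvPolynomial σ k)
    (hA : ∀ i, (A i).IsHomogeneous 0) (hB : ∀ i, (B i).IsHomogeneous 1)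
    (F : MvPolynomial (Fin m) k) :
    ∀ r : ℕ, ((MvPolynomial.aeval (fun i => Polynomial.C (A i) + Polynomial.X * Polynomial.C (B i))
      F : Polynomial (MvPolynomial σ k)).coeff r).IsHomogeneous r := by
  induction F using MvPolynomial.induction_on with
  | C a =>
    intro r
    rw [MvPolynomial.aeval_C]
    have h1 : algebraMap k (Polynomial (MvPolynomial σ k)) a = Polynomial.C (MvPolynomial.C a) := rfl
    rw [h1, Polynomial.coeff_C]
    split_ifs with h
    · subst h
      exact MvPolynomial.isHomogeneous_C _ _
    · exact MvPolynomial.isHomogeneous_zero _ _ _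
  | add p q hp hq =>
    intro r
    rw [map_add, Polynomial.coeff_add]
    exact (hp r).add (hq r)
  | mul_X p i hp =>
    intro r
    rw [map_mul, MvPolynomial.aeval_X, mul_add, Polynomial.coeff_add, Polynomial.coeff_mul_C,
      ← mul_assoc, Polynomial.coeff_mul_C]
    refine MvPolynomial.IsHomogeneous.add ?_ ?_
    · have := (hp r).mul (hA i)
      rwa [add_zero] at this
    · cases r with
      | zero =>
        rw [Polynomial.coeff_mul_X_zero, zero_mul]
        exact MvPolynomial.isHomogeneous_zero _ _ _
      | succ r =>
        rw [Polynomial.coeff_mul_X]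
        exact (hp r).mul (hB i)

theorem G11_coeff {k : Type} [Field k] {m : ℕ} (P v : Fin m → k) (F : MvPolynomial (Fin m) k) :
    (MvPolynomial.aeval (fun i => Polynomial.C (P i) + Polynomial.X * Polynomial.C (v i)) F :
      Polynomial k).coeff 0 = MvPolynomial.eval P F ∧
    (MvPolynomial.aeval (fun i => Polynomial.C (P i) + Polynomial.X * Polynomial.C (v i)) F :
      Polynomial k).coeff 1 = ∑ i, MvPolynomial.eval P (MvPolynomial.pderiv i F) * v i := by
  classical
  induction F using MvPolynomial.induction_on with
  | C a =>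
    rw [MvPolynomial.aeval_C]
    have h1 : algebraMap k (Polynomial k) a = Polynomial.C a := rfl
    rw [h1]
    simp [Polynomial.coeff_C]
  | add p q hp hq =>
    rw [map_add, Polynomial.coeff_add, Polynomial.coeff_add, hp.1, hq.1, hp.2, hq.2]
    simp [add_mul, Finset.sum_add_distrib]
  | mul_X p j hp =>
    rw [map_mul, MvPolynomial.aeval_X, Polynomial.mul_coeff_zero, Polynomial.mul_coeff_one, hp.1,
      hp.2]
    constructor
    · simp
    · have h2 : ∀ i, MvPolynomial.eval P (MvPolynomial.pderiv i (p * MvPolynomial.X j)) * v i =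
          MvPolynomial.eval P (MvPolynomial.pderiv i p) * v i * P j +
            (if i = j then MvPolynomial.eval P p * v i else 0) := by
        intro i
        rw [Derivation.leibniz, MvPolynomial.pderiv_X]
        by_cases h : i = j
        · subst h
          simp
          ring
        · simp [h, Ne.symm h]
          ring
      simp only [h2, Finset.sum_add_distrib, Finset.sum_ite_eq', Finset.mem_univ, if_true,
        ← Finset.sum_mul]
      simp
      ring

theorem hasContactLine_of_isotropic {k : Type} [Field k] {n : ℕ} (hn : 6 ≤ n)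
    (F : MvPolynomial (Fin (n + 1)) k)
    (hq : ∀ q : MvPolynomial (Fin 5) k, q.IsHomogeneous 2 → ∃ v : Fin 5 → k, v ≠ 0 ∧
      MvPolynomial.eval v q = 0)
    (P : Fin (n + 1) → k) (hP : P ≠ 0) (hPF : MvPolynomial.eval P F = 0) :
    HasContactLine F P := by
  classical
  let ℓ : (Fin (n + 1) → k) →ₗ[k] k :=
    ∑ i, MvPolynomial.eval P (MvPolynomial.pderiv i F) • LinearMap.proj i
  have hℓ : ∀ v, ℓ v = ∑ i, MvPolynomial.eval P (MvPolynomial.pderiv i F) * v i := by
    intro v
    simp [ℓ]
  obtain ⟨H, hH⟩ := Submodule.exists_isCompl (Submodule.span k {P})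
  have hfH : Module.finrank k H = n := by
    have h1 := Submodule.finrank_add_eq_of_isCompl hH
    rw [finrank_span_singleton hP, Module.finrank_fin_fun] at h1
    omega
  have hfK : n ≤ Module.finrank k (LinearMap.ker ℓ) := by
    have h1 := LinearMap.finrank_range_add_finrank_ker ℓ
    have h2 : Module.finrank k (LinearMap.range ℓ) ≤ 1 := by
      have := Submodule.finrank_le (LinearMap.range ℓ)
      rwa [Module.finrank_self] at this
    rw [Module.finrank_fin_fun] at h1
    omega
  have hfW : 5 ≤ Module.finrank k (H ⊓ LinearMap.ker ℓ : Submodule k (Fin (n + 1) → k)) := by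
    have h1 := Submodule.finrank_sup_add_finrank_inf_eq H (LinearMap.ker ℓ)
    have h2 : Module.finrank k (H ⊔ LinearMap.ker ℓ : Submodule k (Fin (n + 1) → k)) ≤ n + 1 := by
      have := Submodule.finrank_le (H ⊔ LinearMap.ker ℓ)
      rwa [Module.finrank_fin_fun] at this
    omega
  set W := (H ⊓ LinearMap.ker ℓ : Submodule k (Fin (n + 1) → k)) with hW
  let b := Module.finBasis k W
  let w : Fin 5 → (Fin (n + 1) → k) := fun j => (b (Fin.castLE hfW j) : Fin (n + 1) → k)
  have hw : LinearIndependent k w := by
    have h1 : LinearIndependent k fun j : Fin 5 => b (Fin.castLE hfW j) :=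
      b.linearIndependent.comp _ (Fin.castLE_injective hfW)
    exact h1.map' W.subtype (Submodule.ker_subtype W)
  let lin : Fin (n + 1) → MvPolynomial (Fin 5) k := fun i =>
    ∑ j, MvPolynomial.C (w j i) * MvPolynomial.X j
  let Fs : Polynomial (MvPolynomial (Fin 5) k) :=
    MvPolynomial.aeval (fun i => Polynomial.C (MvPolynomial.C (P i)) +
      Polynomial.X * Polynomial.C (lin i)) F
  have hlin : ∀ i, (lin i).IsHomogeneous 1 := fun i =>
    MvPolynomial.IsHomogeneous.sum _ _ _ fun j _ => by
      have := (MvPolynomial.isHomogeneous_C (Fin 5) (w j i)).mul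
        (MvPolynomial.isHomogeneous_X k j)
      rwa [zero_add] at this
  obtain ⟨t, ht0, ht⟩ := hq (Fs.coeff 2)
    (G11_hom (fun i => MvPolynomial.C (P i)) lin
      (fun i => MvPolynomial.isHomogeneous_C _ _) hlin F 2)
  set v : Fin (n + 1) → k := ∑ j, t j • w j with hv
  have hv0 : v ≠ 0 := by
    intro h
    apply ht0
    funext j
    exact Fintype.linearIndependent_iff.1 hw t h j
  have hvW : v ∈ W := W.sum_mem fun j _ => W.smul_mem _ (b (Fin.castLE hfW j)).2
  have hvH : v ∈ H := hvW.1
  have hvℓ : ℓ v = 0 := hvW.2
  refine ⟨v, ?_, ?_⟩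
  · rw [LinearIndependent.pair_iff]
    intro s r hsr
    have h1 : r • v ∈ Submodule.span k {P} := by
      have : r • v = -(s • P) := eq_neg_of_add_eq_zero_right hsr
      rw [this]
      exact Submodule.neg_mem _ (Submodule.smul_mem _ _ (Submodule.mem_span_singleton_self P))
    have h2 : r • v = 0 := by
      have h3 := Submodule.disjoint_def.1 hH.disjoint _ h1 (H.smul_mem r hvH)
      exact h3
    have hr : r = 0 := by
      rcases smul_eq_zero.1 h2 with h | h
      · exact h
      · exact absurd h hv0
    rw [h2, add_zero] at hsr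
    rcases smul_eq_zero.1 hsr with h | h
    · exact ⟨h, hr⟩
    · exact absurd h hP
  · have hmap : (MvPolynomial.aeval (fun i => Polynomial.C (P i) +
        Polynomial.X * Polynomial.C (v i)) F : Polynomial k) =
        Polynomial.map (MvPolynomial.eval t) Fs := by
      have h1 : (MvPolynomial.aeval (fun i => Polynomial.C (P i) +
          Polynomial.X * Polynomial.C (v i)) : MvPolynomial (Fin (n + 1)) k →ₐ[k] Polynomial k) =
          (Polynomial.mapAlgHom (MvPolynomial.aeval t : MvPolynomial (Fin 5) k →ₐ[k] k)).comp
            (MvPolynomial.aeval (fun i => Polynomial.C (MvPolynomial.C (P i)) +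
              Polynomial.X * Polynomial.C (lin i))) := by
        refine MvPolynomial.algHom_ext fun i => ?_
        rw [AlgHom.comp_apply, MvPolynomial.aeval_X, MvPolynomial.aeval_X, Polynomial.coe_mapAlgHom]
        simp only [Polynomial.map_add, Polynomial.map_mul, Polynomial.map_C, Polynomial.map_X]
        congr 2
        · congr 1
          simp
        · congr 1
          simp [lin, hv, Finset.sum_apply, mul_comm]
      rw [h1]
      rfl
    rw [Polynomial.X_pow_dvd_iff]
    intro d hd
    have hc := G11_coeff P v F
    interval_cases d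
    · rw [hc.1, hPF]
    · rw [hc.2, ← hℓ, hvℓ]
    · rw [hmap, Polynomial.coeff_map]
      exact ht

end Pool.Agent.LibHP
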