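import Pool.Agent.LibHPF.Defs

/-! Row G12. Dense rational points on `X` ⇒ `DensePts k X.functionField`. Let `S` be a finite set generating `R` (`Subalgebra.FG`), `U` a nonempty affine open of `X` (e.g. from
`X.affineCover` or `exists_isAffineOpen_mem_and_subset` at the generic point); `IsFractionRing Γ(X, U) X.functionField` (`functionField_isFractionRing_of_isAffineOpen`). Take a common
denominator `b ≠ 0` in `Γ(X, U)` of the elements of `S` (`IsLocalization.exist_integer_multiples_of_finset`), `V := X.basicOpen b ≤ U`: `Γ(X, V)` is the localization of `Γ(X, U)` at `b`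
(`hU.isLocalization_basicOpen`), so every element of `S`, hence of `R` (`Algebra.adjoin_induction`; the constants are `kapU f V c`, see `germ_kapU`, LibHP/S4), is the image of a unique section on `V`
(`Scheme.germToFunctionField_injective`). So there is a ring map `g : R →+* Γ(X, V)` with `germToFunctionField V (g r) = r`, `g (algebraMap c) = kapU f V c`. `exists_pt f hdense V (g a)` (LibHP/S4)
gives `φ`; take `φ ∘ g`. (Basic open nonempty since `b ≠ 0`, see `const_of_curves` and `exists_pt` there for the needed lemmas.) -/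

set_option autoImplicit false
open AlgebraicGeometry CategoryTheory

namespace Pool.Agent.LibHP

theorem G12_open {X : Scheme} [IsIntegral X] (S : Finset X.functionField) :
    ∃ (V : X.Opens) (hV : genericPoint X ∈ V),
      ∀ a ∈ S, ∃ b : Γ(X, V), X.presheaf.germ V (genericPoint X) hV b = a := by
  classical
  induction S using Finset.induction_on with
  | empty => exact ⟨⊤, trivial, by simp⟩
  | insert a S _ ih =>
    obtain ⟨V, hV, h⟩ := ih
    obtain ⟨U, hU, g, hg⟩ := X.presheaf.exists_germ_eq a
    refine ⟨V ⊓ U, ⟨hV, hU⟩, fun c hc => ?_⟩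
    rcases Finset.mem_insert.1 hc with rfl | hc
    · refine ⟨X.presheaf.map (homOfLE inf_le_right : V ⊓ U ⟶ U).op g, ?_⟩
      rw [X.presheaf.germ_res_apply (homOfLE inf_le_right : V ⊓ U ⟶ U) (genericPoint X) ⟨hV, hU⟩ g]
      exact hg
    · obtain ⟨b, hb⟩ := h c hc
      refine ⟨X.presheaf.map (homOfLE inf_le_left : V ⊓ U ⟶ V).op b, ?_⟩
      rw [X.presheaf.germ_res_apply (homOfLE inf_le_left : V ⊓ U ⟶ V) (genericPoint X) ⟨hV, hU⟩ b]
      exact hb

theorem densePts_functionField {k : Type} [Field k] {X : Scheme}
    (f : X ⟶ Spec (CommRingCat.of k)) [IsIntegral X] [Algebra k X.functionField]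
    (halg : ∀ c : k, algebraMap k X.functionField c = toStalk f (genericPoint X) c)
    (hdense : Dense {x : X | ∃ s : Spec (CommRingCat.of k) ⟶ X, s ≫ f = 𝟙 _ ∧
      x ∈ Set.range s.base}) : DensePts k X.functionField := by
  classical
  intro R hR a ha
  obtain ⟨S, hS⟩ := hR
  obtain ⟨V, hV, hVS⟩ := G12_open S
  have hne : Nonempty V := ⟨⟨_, hV⟩⟩
  let algV : Algebra k Γ(X, V) := (kapU f V).toAlgebra
  let ι : Γ(X, V) →ₐ[k] X.functionField :=
    { toRingHom := (X.presheaf.germ V (genericPoint X) hV).hom
      commutes' := fun c => by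
        rw [halg c]
        exact germ_kapU f V (genericPoint X) hV c }
  have hinj : Function.Injective ι := Scheme.germToFunctionField_injective X V
  have hle : R ≤ ι.range := by
    rw [← hS]
    refine Algebra.adjoin_le fun c hc => ?_
    obtain ⟨b, hb⟩ := hVS c hc
    exact ⟨b, hb⟩
  let e : Γ(X, V) ≃ₐ[k] ι.range := AlgEquiv.ofInjective ι hinj
  let g : R →ₐ[k] Γ(X, V) := e.symm.toAlgHom.comp (Subalgebra.inclusion hle)
  have hga : g a ≠ 0 := by
    intro h
    apply ha
    have h1 : e.symm (Subalgebra.inclusion hle a) = 0 := h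
    have h2 : Subalgebra.inclusion hle a = 0 := by
      rw [← e.apply_symm_apply (Subalgebra.inclusion hle a), h1, map_zero]
    exact Subalgebra.inclusion_injective hle (by rw [h2, map_zero])
  obtain ⟨φ, hφk, hφg⟩ := exists_pt f hdense V (g a) hga
  let φ' : Γ(X, V) →ₐ[k] k := { φ with commutes' := hφk }
  exact ⟨φ'.comp g, hφg⟩

end Pool.Agent.LibHP
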