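import Pool.Agent.LibHPF.G10
import Pool.Agent.LibHPF.G11
import Pool.Agent.LibHPF.G12

/-! G13 (assembly, helper98): the final statement, with the field hypothesis. -/

set_option autoImplicit false
open AlgebraicGeometry CategoryTheory

namespace Pool.Agent.LibHP

/-- Every quadratic form in five variables over `k` is isotropic. -/
def FiveIsotropic (k : Type) [Field k] : Prop :=
  ∀ q : MvPolynomial (Fin 5) k, q.IsHomogeneous 2 → ∃ v : Fin 5 → k, v ≠ 0 ∧
    MvPolynomial.eval v q = 0

theorem denseContact_of_isotropic {k : Type} [Field k] {K : Type} [Field K] [Algebra k K]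
    {n : ℕ} (hn : 6 ≤ n) (F : MvPolynomial (Fin (n + 1)) k) (hF : F.IsHomogeneous 4)
    (hq : FiveIsotropic k) (hK : DensePts k K) (y : Fin (n + 1) → K) (hy : IsHypPt F y) :
    DenseContact F := by
  intro d G hG hFG
  have ha : MvPolynomial.aeval y G ≠ 0 := fun h => hFG ((hy.2.1 d G hG).1 h)
  set R : Subalgebra k K := Algebra.adjoin k (Set.range y) with hR
  have hRfg : R.FG := Subalgebra.fg_def.2 ⟨Set.range y, Set.finite_range y, rfl⟩
  have hyR : ∀ i, y i ∈ R := fun i => Algebra.subset_adjoin ⟨i, rfl⟩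
  let y' : Fin (n + 1) → R := fun i => ⟨y i, hyR i⟩
  have hy' : ∀ H : MvPolynomial (Fin (n + 1)) k,
      ((MvPolynomial.aeval y' H : R) : K) = MvPolynomial.aeval y H := by
    intro H
    have := MvPolynomial.comp_aeval_apply y' R.val H
    simpa [y'] using this
  obtain ⟨φ, hφ⟩ := hK R hRfg (MvPolynomial.aeval y' G) (by
    intro h
    apply ha
    rw [← hy', h]
    rfl)
  have hev : ∀ H : MvPolynomial (Fin (n + 1)) k,
      φ (MvPolynomial.aeval y' H) = MvPolynomial.eval (fun i => φ (y' i)) H := by
    intro H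
    rw [MvPolynomial.comp_aeval_apply]
    simp [MvPolynomial.aeval_eq_eval]
  refine ⟨fun i => φ (y' i), ?_, ?_⟩
  · rw [← hev]; exact hφ
  · refine hasContactLine_of_isotropic hn F hq _ ?_ ?_
    · intro h
      have h0 : y' 0 = 1 := Subtype.ext hy.1
      have := congrFun h 0
      simp only [h0, map_one, Pi.zero_apply] at this
      exact one_ne_zero this
    · rw [← hev]
      have : (MvPolynomial.aeval y' F : R) = 0 := by
        apply Subtype.ext
        rw [hy']
        exact (hy.2.1 4 F hF).2 dvd_rfl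
      rw [this, map_zero]

theorem main_quartic_or (k : Type) [Field k] [NumberField k] {X : Scheme}
    (f : X ⟶ Spec (CommRingCat.of k)) [IsIntegral X] [Smooth f] [IsSeparated f] [QuasiCompact f]
    (hsc : GeomSimplyConnected f) {n : ℕ} (hn : 4 ≤ n) (F : MvPolynomial (Fin (n + 1)) k)
    (hF : F.IsHomogeneous 4) (hsm : IsSmoothHyp F) (hX : IsHypModelOf f F)
    (hd : DenseContact F ∨ 6 ≤ n ∧ FiveIsotropic k ∧
      Dense {x : X | ∃ s : Spec (CommRingCat.of k) ⟶ X, s ≫ f = 𝟙 _ ∧ x ∈ Set.range s.base}) :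
    HilbertProp f := by
  rcases hd with hd | ⟨hn6, hq, hdense⟩
  · exact main_quartic k f hsc hn F hF hsm hd hX
  · refine main_quartic k f hsc hn F hF hsm ?_ hX
    letI : Algebra k X.functionField := (toStalk f (genericPoint X)).toAlgebra
    obtain ⟨z, hz0⟩ := hX
    have hz : IsHypCoord F z := hz0
    obtain ⟨y, hy⟩ := exists_hypPt F hF z hz
    exact denseContact_of_isotropic hn6 F hF hq
      (densePts_functionField f (fun _ => rfl) hdense) y hy

end Pool.Agent.LibHP
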