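import Pool.Agent.LibHPF.DefsG

/-! Row G8. Normalized coordinates. Put `y i = z i / z 0`. `z 0 ≠ 0`: otherwise `aeval z (X 0) = 0`, `F ∣ X 0`; `F` is homogeneous of degree 4 and nonzero
(`F = 0` would give `0 ∣ X 0`), so `X 0 = F * H` contradicts degrees (`MvPolynomial.totalDegree_mul_of_isDomain`, `IsHomogeneous.totalDegree`).
For `G` homogeneous of degree `d`: `aeval y G = (z 0)⁻¹ ^ d * aeval z G` (e.g. via `MvPolynomial.IsHomogeneous.eval₂`/`IsHomogeneous` scaling lemma: search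
`IsHomogeneous.eval_smul`, `aeval` of `c • z`). Adjoin: `z i / z j = y i / y j`. -/

set_option autoImplicit false

namespace Pool.Agent.LibHP

/-- Scaling the point of a form. -/
theorem G8_aeval_scale {k σ R : Type} [Field k] [CommRing R] [Algebra k R] {H : MvPolynomial σ k}
    {d : ℕ} (hH : H.IsHomogeneous d) (c : R) (x : σ → R) :
    MvPolynomial.aeval (fun l => c * x l) H = c ^ d * MvPolynomial.aeval x H := by
  rw [MvPolynomial.aeval_def, MvPolynomial.aeval_def, MvPolynomial.eval₂_eq,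
    MvPolynomial.eval₂_eq, Finset.mul_sum]
  refine Finset.sum_congr rfl fun m hm => ?_
  have h1 : ∏ l ∈ m.support, (c * x l) ^ m l = c ^ d * ∏ l ∈ m.support, x l ^ m l := by
    simp only [mul_pow, Finset.prod_mul_distrib]
    rw [Finset.prod_pow_eq_pow_sum, ← hH.degree_eq_sum_deg_support hm]
  rw [h1]
  ring

theorem exists_hypPt {k K : Type} [Field k] [Field K] [Algebra k K] {n : ℕ}
    (F : MvPolynomial (Fin (n + 1)) k) (hF : F.IsHomogeneous 4) (z : Fin (n + 1) → K)
    (hz : IsHypCoord F z) : ∃ y : Fin (n + 1) → K, IsHypPt F y := by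
  obtain ⟨_, hz2, hz3⟩ := hz
  have h0 : z 0 ≠ 0 := by
    intro h
    have h1 : F ∣ (MvPolynomial.X 0 : MvPolynomial (Fin (n + 1)) k) :=
      (hz2 1 (MvPolynomial.X 0) (MvPolynomial.isHomogeneous_X k 0)).1
        (by rw [MvPolynomial.aeval_X, h])
    have hF0 : F ≠ 0 := by
      rintro rfl
      exact MvPolynomial.X_ne_zero (R := k) (0 : Fin (n + 1)) (zero_dvd_iff.1 h1)
    have h2 := MvPolynomial.totalDegree_le_of_dvd_of_isDomain h1 (MvPolynomial.X_ne_zero 0)
    rw [hF.totalDegree hF0, MvPolynomial.totalDegree_X] at h2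
    omega
  refine ⟨fun i => (z 0)⁻¹ * z i, inv_mul_cancel₀ h0, fun d G hG => ?_, ?_⟩
  · rw [G8_aeval_scale hG, ← hz2 d G hG, mul_eq_zero]
    exact ⟨fun h => h.resolve_left (pow_ne_zero _ (inv_ne_zero h0)), fun h => Or.inr h⟩
  · rw [eq_top_iff, ← hz3, IntermediateField.adjoin_le_iff]
    rintro c ⟨i, j, hj, rfl⟩
    have h1 : z i / z j = ((z 0)⁻¹ * z i) / ((z 0)⁻¹ * z j) := by
      rw [mul_div_mul_left _ _ (inv_ne_zero h0)]
    have hmem : ∀ l : Fin (n + 1), (z 0)⁻¹ * z l ∈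
        IntermediateField.adjoin k (Set.range fun i => (z 0)⁻¹ * z i) := fun l =>
      IntermediateField.subset_adjoin k _ ⟨l, rfl⟩
    rw [h1]
    exact div_mem (hmem i) (hmem j)

end Pool.Agent.LibHP
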