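import Mathlib

set_option autoImplicit false
open AlgebraicGeometry CategoryTheory

namespace Pool.Agent.LibHP

/-! ### Quartic hypersurfaces -/

/-- The hypersurface `F = 0` in `P^n` is smooth (no singular point over the algebraic closure). -/
def IsSmoothHyp {k : Type} [Field k] {n : ℕ} (F : MvPolynomial (Fin (n + 1)) k) : Prop :=
  ∀ a : Fin (n + 1) → AlgebraicClosure k, a ≠ 0 → MvPolynomial.aeval a F = 0 →
    ∃ i, MvPolynomial.aeval a (MvPolynomial.pderiv i F) ≠ 0

/-- `z` is a system of homogeneous coordinates, with values in `K`, of a generic point of the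
hypersurface `F = 0`, and `K` is generated over `k` by the ratios of these coordinates. -/
def IsHypCoord {k K : Type} [Field k] [Field K] [Algebra k K] {n : ℕ}
    (F : MvPolynomial (Fin (n + 1)) k) (z : Fin (n + 1) → K) : Prop :=
  z ≠ 0 ∧
  (∀ (d : ℕ) (G : MvPolynomial (Fin (n + 1)) k), G.IsHomogeneous d →
    (MvPolynomial.aeval z G = 0 ↔ F ∣ G)) ∧
  IntermediateField.adjoin k {c : K | ∃ i j, z j ≠ 0 ∧ c = z i / z j} = ⊤

/-- `X` is birational to the hypersurface `F = 0`. -/
def IsHypModelOf {k : Type} [Field k] {X : Scheme} [IsIntegral X]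
    (f : X ⟶ Spec (CommRingCat.of k)) {n : ℕ} (F : MvPolynomial (Fin (n + 1)) k) : Prop :=
  letI : Algebra k X.functionField := RingHom.toAlgebra
    ((Scheme.ΓSpecIso (CommRingCat.of k)).inv ≫ f.appTop ≫
      X.presheaf.germ ⊤ (genericPoint X) trivial).hom
  ∃ z : Fin (n + 1) → X.functionField, IsHypCoord F z

/-- Some line over `k` meets the hypersurface `F = 0` at the point `P` with multiplicity at least
three: `F(P + t v)` is divisible by `t ^ 3` for some vector `v` which is not proportional to `P`. -/
def HasContactLine {k : Type} [Field k] {n : ℕ} (F : MvPolynomial (Fin (n + 1)) k)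
    (P : Fin (n + 1) → k) : Prop :=
  ∃ v : Fin (n + 1) → k, LinearIndependent k ![P, v] ∧
    (Polynomial.X : Polynomial k) ^ 3 ∣
      MvPolynomial.aeval (fun i => Polynomial.C (P i) + Polynomial.X * Polynomial.C (v i)) F

/-- The points of the hypersurface `F = 0` over `k` with a contact line over `k` are dense. -/
def DenseContact {k : Type} [Field k] {n : ℕ} (F : MvPolynomial (Fin (n + 1)) k) : Prop :=
  ∀ (d : ℕ) (G : MvPolynomial (Fin (n + 1)) k), G.IsHomogeneous d → ¬ F ∣ G →
    ∃ P : Fin (n + 1) → k, MvPolynomial.eval P G ≠ 0 ∧ HasContactLine F P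

end Pool.Agent.LibHP
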