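import Pool.Agent.LibHP.S4
import Pool.Agent.LibHP2.Defs
import Pool.Agent.LibHPF.DefsF

set_option autoImplicit false
open AlgebraicGeometry CategoryTheory

namespace Pool.Agent.LibHP

/-- Normalized coordinates of the generic point. -/
def IsHypPt {k K : Type} [Field k] [Field K] [Algebra k K] {n : ℕ}
    (F : MvPolynomial (Fin (n + 1)) k) (y : Fin (n + 1) → K) : Prop :=
  y 0 = 1 ∧
  (∀ (d : ℕ) (G : MvPolynomial (Fin (n + 1)) k), G.IsHomogeneous d →
    (MvPolynomial.aeval y G = 0 ↔ F ∣ G)) ∧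
  IntermediateField.adjoin k (Set.range y) = ⊤

/-- The coordinate ring of the chart `z_i ≠ 0` of the hypersurface, inside its function field. -/
def chartRing (k : Type) {K : Type} [Field k] [Field K] [Algebra k K] {n : ℕ}
    (y : Fin (n + 1) → K) (i : Fin (n + 1)) : Subalgebra k K :=
  Algebra.adjoin k (Set.range fun j => y j / y i)

/-! ### The criterion -/

/-- `K(t_1, ..., t_r)` inside `\bar K (t_1, ..., t_r)`. -/
noncomputable def rfbar (M : Type) [Field M] (r : ℕ) : RF M r →+* RF (AlgebraicClosure M) r :=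
  rfmap (algebraMap M (AlgebraicClosure M)) r

/-- The field `M` over `k` has dense `k`-points: every finitely generated subalgebra has `k`-points
outside of every proper closed subset. -/
def DensePts (k M : Type) [Field k] [Field M] [Algebra k M] : Prop :=
  ∀ R : Subalgebra k M, R.FG → ∀ a : R, a ≠ 0 → ∃ φ : R →ₐ[k] k, φ a ≠ 0

/-- The embedding `K → M(u) → Mbar(u)`. -/
noncomputable def sbar {K M : Type} [Field K] [Field M] {r : ℕ} (σ : K →+* RF M r) :
    K →+* RF (AlgebraicClosure M) r :=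
  (rfmap (algebraMap M (AlgebraicClosure M)) r).comp σ

/-- All the `[L : K]` extensions of the embedding `K → M(u) → Mbar(u)` to `L` take values in
`Mbar(u)`. -/
def AllEmb {K M : Type} [Field K] [Field M] {r : ℕ} (σ : K →+* RF M r) (L : Type) [Field L]
    [Algebra K L] : Prop :=
  ∃ ψ : Fin (Module.finrank K L) → (L →+* RF (AlgebraicClosure M) r), Function.Injective ψ ∧
    ∀ i a, ψ i (algebraMap K L a) = sbar σ a

/-- `K` is algebraically closed in `M(u)`. -/
def ClosedIn {K M : Type} [Field K] [Field M] {r : ℕ} (σ : K →+* RF M r) : Prop :=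
  ∀ e : RF M r, (∃ P : Polynomial K, P ≠ 0 ∧ P.eval₂ σ e = 0) → ∃ a, σ a = e

/-- The family of rational varieties `σ` meets the prime divisor with local ring `O`, at a prime
divisor of the affine space over `Mbar`, with multiplicity `m ≥ 1`. -/
def MeetsDiv (O : Type) {K M : Type} [CommRing O] [Field K] [Algebra O K] [Field M] {r : ℕ}
    (σ : K →+* RF M r) (m : ℕ) : Prop :=
  ∃ (C : ValuationSubring (RF (AlgebraicClosure M) r)) (ϖ : RF (AlgebraicClosure M) r),
    IsUnif C ϖ ∧ 1 ≤ m ∧ (∀ a : O, sbar σ (algebraMap O K a) ∈ C) ∧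
    ∃ π : O, (∀ a : O, ¬ IsUnit a ↔ π ∣ a) ∧
      ∃ u, u ∈ C ∧ u⁻¹ ∈ C ∧ sbar σ (algebraMap O K π) = u * ϖ ^ m

/-- The same, in the form used for the quartics. -/
def MetWith (O K : Type) {M : Type} [CommRing O] [Field K] [Algebra O K] [Field M] {r : ℕ}
    (σ : K →+* RF M r) (m : ℕ) : Prop :=
  ∃ (C : ValuationSubring (RF (AlgebraicClosure M) r)) (ϖ : RF (AlgebraicClosure M) r) (π : O),
    IsUnif C ϖ ∧
    (∀ c : AlgebraicClosure M, algebraMap (AlgebraicClosure M) (RF (AlgebraicClosure M) r) c ∈ C) ∧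
    (∀ a : O, rfbar M r (σ (algebraMap O K a)) ∈ C) ∧
    (∀ a : O, ¬ IsUnit a ↔ π ∣ a) ∧
    ∃ u : RF (AlgebraicClosure M) r, u ∈ C ∧ u⁻¹ ∈ C ∧
      rfbar M r (σ (algebraMap O K π)) = u * ϖ ^ m

theorem MetWith.meetsDiv {O K M : Type} [CommRing O] [Field K] [Algebra O K] [Field M] {r : ℕ}
    {σ : K →+* RF M r} {m : ℕ} (h : MetWith O K σ m) (hm : 1 ≤ m) : MeetsDiv O σ m := by
  obtain ⟨C, ϖ, π, h1, -, h2, h3, u, h4⟩ := h
  exact ⟨C, ϖ, h1, hm, h2, π, h3, u, h4⟩

end Pool.Agent.LibHP
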