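import Pool.Agent.LibHPF.Q0

set_option autoImplicit false
open MvPolynomial

namespace Pool.Agent.LibHP

/-!
# Row Q3: projective Noether normalisation (graded Nakayama lemma and Nullstellensatz)

If forms `f i` of positive degrees have no common nontrivial zero on the cone `V(I)` over the algebraically
closed field `Ω`, then the coordinates of every point `y` of `V(I)` in an `Ω`-algebra are integral over
`Ω[f(y)]`.

PLAN. `σ` finite. Let `J = I ⊔ span (range f)`, a homogeneous ideal (stable under `homogeneousComponent`).
By hypothesis its zero locus is contained in `{0}`, so by the Nullstellensatz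
(`MvPolynomial.vanishingIdeal_zeroLocus_eq_radical`) `X j ∈ J.radical` for all `j`: `X j ^ m ∈ J` with a common
`m ≥ 1`; hence all monomials of degree `≥ e := m * card σ + 1` are in `J`. Let `S = Algebra.adjoin Ω (range f(y))`
and `N ⊆ κ` the `S`-span of the finitely many monomials `aeval y (monomial s 1)` of degree `< e`. Claim:
`aeval y G ∈ N` for every form `G` (strong induction on its degree `D`): for `D < e` clear; for `D ≥ e`,
`G ∈ J`, `G = i + ∑ a_i * f_i` (finite sum) with `i ∈ I`, and taking components of degree `D` one may assume
`a_i` homogeneous of degree `D - d i < D` and `i ∈ I` homogeneous; `aeval y i = 0`. So `N` is a finitely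
generated `S`-module stable under multiplication by `y j`, faithful since it contains `1`: `y j` is integral
over `S` (`isIntegral_of_smul_mem_submodule`, or `Algebra.adjoin Ω (range y)` is a finite `S`-module).
-/

theorem Q3_hc_mul {Ω σ : Type} [Field Ω] (a g : MvPolynomial σ Ω) (d D : ℕ)
    (hg : g.IsHomogeneous d) :
    homogeneousComponent D (a * g) =
      if d ≤ D then homogeneousComponent (D - d) a * g else 0 := by
  classical
  conv_lhs => rw [← sum_homogeneousComponent a, Finset.sum_mul, map_sum]
  have h : ∀ n, homogeneousComponent D (homogeneousComponent n a * g) =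
      if D = n + d then homogeneousComponent n a * g else 0 := fun n =>
    homogeneousComponent_of_mem ((homogeneousComponent_isHomogeneous n a).mul hg)
  simp only [h]
  split_ifs with hd
  · by_cases hn : D - d ∈ Finset.range (a.totalDegree + 1)
    · rw [Finset.sum_eq_single (D - d)]
      · rw [if_pos (by omega)]
      · intro b _ hb
        rw [if_neg (by omega)]
      · intro h'
        exact absurd hn h'
    · have h1 : homogeneousComponent (D - d) a = 0 := by
        apply homogeneousComponent_eq_zero
        rw [Finset.mem_range] at hn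
        omega
      rw [h1, zero_mul]
      refine Finset.sum_eq_zero fun n hn' => ?_
      rw [if_neg]
      intro h'
      apply hn
      have : n = D - d := by omega
      rwa [← this]
  · refine Finset.sum_eq_zero fun n _ => ?_
    rw [if_neg (by omega)]

theorem Q3_mem_pow {Ω σ : Type} [Field Ω] [Fintype σ] (J : Ideal (MvPolynomial σ Ω)) (m : ℕ)
    (hm : ∀ j, (X j : MvPolynomial σ Ω) ^ m ∈ J) (G : MvPolynomial σ Ω) (D : ℕ)
    (hG : G.IsHomogeneous D) (hD : m * Fintype.card σ + 1 ≤ D) : G ∈ J := by
  classical
  rw [← support_sum_monomial_coeff G]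
  refine J.sum_mem fun s hs => ?_
  have hs' : s.degree = D := by
    have h := hG (mem_support_iff.1 hs)
    rw [← h, Finsupp.degree_eq_weight_one]
    rfl
  have : ∃ j, m ≤ s j := by
    by_contra hcon
    push Not at hcon
    have h1 : s.degree ≤ ∑ _j : σ, m := by
      rw [Finsupp.degree_eq_sum]
      exact Finset.sum_le_sum fun j _ => (hcon j).le
    rw [Finset.sum_const, Finset.card_univ, smul_eq_mul, hs'] at h1
    have : m * Fintype.card σ = Fintype.card σ * m := Nat.mul_comm _ _
    omega
  obtain ⟨j, hj⟩ := this
  have h2 : monomial s (coeff s G) =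
      monomial (s - Finsupp.single j m) (coeff s G) * (X j : MvPolynomial σ Ω) ^ m := by
    rw [X_pow_eq_monomial, monomial_mul, mul_one,
      tsub_add_cancel_of_le (by rwa [Finsupp.single_le_iff])]
  rw [h2]
  exact J.mul_mem_left _ (hm j)

theorem integral_mod (Ω σ ι : Type) [Field Ω] [IsAlgClosed Ω] [Finite σ]
    (I : Ideal (MvPolynomial σ Ω)) (hI : ∀ G ∈ I, ∀ d, homogeneousComponent d G ∈ I)
    (f : ι → MvPolynomial σ Ω) (d : ι → ℕ) (hd : ∀ i, 0 < d i)
    (hf : ∀ i, (f i).IsHomogeneous (d i))
    (h0 : ∀ x : σ → Ω, (∀ G ∈ I, eval x G = 0) → (∀ i, eval x (f i) = 0) → x = 0)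
    {κ : Type} [CommRing κ] [Algebra Ω κ] (y : σ → κ) (hy : ∀ G ∈ I, aeval y G = 0) (j : σ) :
    IsIntegral (Algebra.adjoin Ω (Set.range fun i => aeval y (f i))) (y j) := by
  classical
  have := Fintype.ofFinite σ
  set J : Ideal (MvPolynomial σ Ω) := I ⊔ Ideal.span (Set.range f) with hJ
  have hrad : ∀ j, (X j : MvPolynomial σ Ω) ∈ J.radical := by
    intro j
    rw [← MvPolynomial.vanishingIdeal_zeroLocus_eq_radical (K := Ω) J, mem_vanishingIdeal_iff]
    intro x hx
    have hx0 : x = 0 := by
      refine h0 x (fun G hG => ?_) (fun i => ?_)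
      · have := hx G (hJ ▸ Ideal.mem_sup_left hG)
        simpa [coe_aeval_eq_eval] using this
      · have := hx (f i) (hJ ▸ Ideal.mem_sup_right (Ideal.subset_span ⟨i, rfl⟩))
        simpa [coe_aeval_eq_eval] using this
    simp [hx0]
  choose m' hm' using fun j => Ideal.mem_radical_iff.1 (hrad j)
  set m := ∑ j, m' j with hmdef
  have hm : ∀ j, (X j : MvPolynomial σ Ω) ^ m ∈ J := by
    intro j
    have hle : m' j ≤ m := Finset.single_le_sum (f := m') (fun _ _ => Nat.zero_le _) (Finset.mem_univ j)
    rw [← Nat.sub_add_cancel hle, pow_add]
    exact J.mul_mem_left _ (hm' j)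
  set e := m * Fintype.card σ + 1 with he
  set S := Algebra.adjoin Ω (Set.range fun i => aeval y (f i)) with hS
  -- the finite set of monomials
  have hfin : {s : σ →₀ ℕ | s.degree < e}.Finite := by
    refine (Finset.finite_toSet (Finset.Iic (Finsupp.equivFunOnFinite.symm fun _ : σ => e))).subset ?_
    intro s hs
    simp only [Finset.coe_Iic, Set.mem_Iic]
    intro i
    have : s i ≤ s.degree := by
      rw [Finsupp.degree_eq_sum]
      exact Finset.single_le_sum (f := fun i => s i) (fun _ _ => Nat.zero_le _) (Finset.mem_univ i)
    have h2 : s.degree < e := hs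
    simp only [Finsupp.coe_equivFunOnFinite_symm]
    omega
  set M : Set κ := (fun s : σ →₀ ℕ => aeval y (monomial s (1 : Ω))) '' {s | s.degree < e} with hM
  have hMfin : M.Finite := hfin.image _
  set N : Submodule S κ := Submodule.span S M with hN
  have hΩ : ∀ (c : Ω) (x : κ), x ∈ N → algebraMap Ω κ c * x ∈ N := by
    intro c x hx
    have := N.smul_mem (algebraMap Ω S c) hx
    rwa [Algebra.smul_def] at this
  have hmain : ∀ D, ∀ G : MvPolynomial σ Ω, G.IsHomogeneous D → aeval y G ∈ N := by
    intro D
    induction D using Nat.strong_induction_on with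
    | _ D IH =>
      intro G hG
      by_cases hDe : D < e
      · rw [← support_sum_monomial_coeff G, map_sum]
        refine N.sum_mem fun s hs => ?_
        have hs' : s.degree = D := by
          have h := hG (mem_support_iff.1 hs)
          rw [← h, Finsupp.degree_eq_weight_one]
          rfl
        have h2 : monomial s (coeff s G) = C (coeff s G) * monomial s (1 : Ω) := by
          rw [C_mul_monomial, mul_one]
        rw [h2, map_mul, aeval_C]
        refine hΩ _ _ (Submodule.subset_span ⟨s, ?_, rfl⟩)
        show s.degree < e
        omega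
      · have hGJ : G ∈ J := Q3_mem_pow J m hm G D hG (by omega)
        rw [hJ] at hGJ
        obtain ⟨i, hi, g, hg, hig⟩ := Submodule.mem_sup.1 hGJ
        obtain ⟨c, hc⟩ := Finsupp.mem_ideal_span_range_iff_exists_finsupp.1 hg
        have hGD : G = homogeneousComponent D i +
            ∑ k ∈ c.support, homogeneousComponent D (c k * f k) := by
          have h3 : homogeneousComponent D G = G := by
            rw [homogeneousComponent_of_mem hG, if_pos rfl]
          rw [← h3, ← hig, map_add, ← hc, Finsupp.sum, map_sum]
        rw [hGD, map_add, hy _ (hI i hi D), zero_add, map_sum]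
        refine N.sum_mem fun k _ => ?_
        rw [Q3_hc_mul _ _ (d k) D (hf k)]
        split_ifs with hdk
        · rw [map_mul, mul_comm]
          have h4 := IH (D - d k) (by have := hd k; omega) _
            (homogeneousComponent_isHomogeneous (D - d k) (c k))
          have h5 : aeval y (f k) ∈ S := Algebra.subset_adjoin ⟨k, rfl⟩
          have := N.smul_mem (⟨_, h5⟩ : S) h4
          rwa [Algebra.smul_def] at this
        · rw [map_zero]
          exact N.zero_mem
  have hall : ∀ G : MvPolynomial σ Ω, aeval y G ∈ N := by
    intro G
    rw [← sum_homogeneousComponent G, map_sum]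
    exact N.sum_mem fun n _ => hmain n _ (homogeneousComponent_isHomogeneous n G)
  have hmul : ∀ a ∈ N, ∀ b ∈ N, a * b ∈ N := by
    intro a ha b hb
    induction ha using Submodule.span_induction with
    | mem x hx =>
      induction hb using Submodule.span_induction with
      | mem z hz =>
        obtain ⟨s, _, rfl⟩ := hx
        obtain ⟨t, _, rfl⟩ := hz
        simp only
        rw [← map_mul]
        exact hall _
      | zero => rw [mul_zero]; exact N.zero_mem
      | add u v _ _ hu hv => rw [mul_add]; exact N.add_mem hu hv
      | smul c u _ hu => rw [mul_smul_comm]; exact N.smul_mem c hu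
    | zero => rw [zero_mul]; exact N.zero_mem
    | add u v _ _ hu hv => rw [add_mul]; exact N.add_mem hu hv
    | smul c u _ hu => rw [smul_mul_assoc]; exact N.smul_mem c hu
  set B := Algebra.adjoin S (Set.range y) with hB
  have hBN : ∀ x ∈ B, x ∈ N := by
    intro x hx
    induction hx using Algebra.adjoin_induction with
    | mem x hx =>
      obtain ⟨i, rfl⟩ := hx
      have := hall (X i)
      rwa [aeval_X] at this
    | algebraMap r =>
      have h1 := hall 1
      rw [map_one] at h1
      have := N.smul_mem r h1
      rwa [Algebra.smul_def, mul_one] at this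
    | add u v _ _ hu hv => exact N.add_mem hu hv
    | mul u v _ _ hu hv => exact hmul u hu v hv
  have hNB : N ≤ Subalgebra.toSubmodule B := by
    rw [hN, Submodule.span_le]
    rintro _ ⟨s, _, rfl⟩
    simp only [Subalgebra.coe_toSubmodule, SetLike.mem_coe, aeval_monomial, map_one, one_mul]
    refine B.prod_mem fun i _ => ?_
    exact B.pow_mem (Algebra.subset_adjoin (Set.mem_range_self i)) _
  have hEq : Subalgebra.toSubmodule B = N := le_antisymm (fun x hx => hBN x hx) hNB
  refine IsIntegral.of_mem_of_fg B ?_ (y j) (Algebra.subset_adjoin (Set.mem_range_self j))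
  rw [hEq, hN]
  exact Submodule.fg_span hMfin

end Pool.Agent.LibHP
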