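import Pool.Agent.LibHPF.Q2
import Pool.Agent.LibHPF.Q3
import Pool.Agent.LibHPF.Q5

set_option autoImplicit false
open MvPolynomial

namespace Pool.Agent.LibHP

variable {k : Type} [Field k] [CharZero k] {n : ℕ} {φ : Tens k n}

/-!
# Row Q6: the Gauss map is finite; nondegeneracy of the second fundamental form at the generic point

PLAN.
`smooth4_ext`: Nullstellensatz. `AlgebraicClosure k → Ω` over `k` (`IsAlgClosed.lift`). The forms
`g i = Phi φ X X X (Pi.single i 1)` (cubics) over `AlgebraicClosure k` have no common nontrivial zero, so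
`X j ^ m ∈ span (range g)`, evaluate at `x` (all `g i` vanish at `x`): `x j = 0`. If `Ω` is not algebraically
closed, pass to an algebraic closure.
`hess_cone`: let `w = P - c⁻¹…`: precisely put `b = v - c • P`. `Phi φ P P P b = 0`: `Phi φ P P P v =
Phi φ P P v P = c * Phi φ P P P P = 0` (`Phi φ P P P P = aeval P (FF φ) = 0`). By `exists_derivation_cone`
there is `δ` with `δ (P i) = b i`. Then `δ (Phi φ P P P a) = 3 * Phi φ P P b a` for constant `a` (entries in
`k`: `a = Pi.single i 1`), `= 3 * (c * Phi φ P P P a - c * Phi φ P P P a) = 0`. So `δ` kills all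
`gᵢ(P) = Phi φ P P P (Pi.single i 1)`. Row Q3 (`integral_mod` with `Ω := AlgebraicClosure k` [embedded in `Ω`],
`I = ⊥`, `f i = Phi φ X X X (Pi.single i 1)`, `d = 3`, `κ := Ω`, `y = P`): every `P j` is integral over
`k̄[g(P)]`; `δ` kills `k̄` (algebraic over `k`) and `g(P)`, so it kills everything algebraic over `k̄(g(P))`
(characteristic zero: apply `δ` to a minimal polynomial). So `b = 0`.
`lemmaA`: from `exists_cone` (`P' = s • f P`, `v' = f v`): `Phi φ P' P' v' a = s^2 * f (Phi φ P P v ·) …`; for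
vectors `a` with entries in `Ω'` use linearity (`Phi_eq_sum` and the identity on `Pi.single i 1`):
`Phi φ P' P' v' a = (c / s) * Phi φ P' P' P' a`, so `v' = (c / s) • P'`, i.e. `f (v i) = f (c * P i)`.
`lemmaA'`: the functional `Phi φ P P v` vanishes on the kernel of `Phi φ P P P`, so it is a multiple of it
(`Phi φ P P P ≠ 0` by `phi_ne`, or Mathlib `LinearMap` kernel inclusion lemma).
`phi_ne`: the cubic form `Phi φ X X X (Pi.single i 1)` is not divisible by `FF φ` unless it is `0` (degrees
`3 < 4`); if all of them are zero, then `x = (1, …, 1)` contradicts `Smooth4`.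
`hess_det`: the matrix of `Phi φ P P (single i) (single j)` is nonsingular: a kernel vector `v` gives
`Phi φ P P v a = 0` for all `a`, `c = 0` in `lemmaA`, so `v = 0`.
-/

private theorem Q6_single {R S : Type} [CommRing R] [Algebra k R] [CommRing S] [Algebra k S]
    (f : R →ₐ[k] S) (i : Fin (n + 1)) :
    (fun j => f ((Pi.single i 1 : Fin (n + 1) → R) j)) = Pi.single i 1 := by
  funext j
  by_cases hj : j = i
  · subst hj
    rw [Pi.single_eq_same, Pi.single_eq_same, map_one]
  · rw [Pi.single_eq_of_ne hj, Pi.single_eq_of_ne hj, map_zero]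

private theorem Q6_zero' {R : Type} [CommRing R] [Algebra k R] (x y z : Fin (n + 1) → R)
    (hx : ∀ i, Phi φ x y z (Pi.single i 1) = 0) (a : Fin (n + 1) → R) : Phi φ x y z a = 0 := by
  rw [Phi_eq_sum]
  exact Finset.sum_eq_zero fun i _ => by rw [hx i, mul_zero]

private theorem Q6_eval {Ω : Type} [CommRing Ω] [Algebra k Ω]
    [Algebra (AlgebraicClosure k) Ω] [IsScalarTower k (AlgebraicClosure k) Ω]
    (y : Fin (n + 1) → Ω) (i : Fin (n + 1)) :
    aeval y (Phi φ (X : Fin (n + 1) → MvPolynomial (Fin (n + 1)) (AlgebraicClosure k))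
      X X (Pi.single i 1)) = Phi φ y y y (Pi.single i 1) := by
  have h3 := Phi_map φ ((aeval y : MvPolynomial (Fin (n + 1)) (AlgebraicClosure k)
    →ₐ[AlgebraicClosure k] Ω).restrictScalars k) X X X (Pi.single i 1)
  rw [Q6_single] at h3
  have h5 : (fun j => ((aeval y : MvPolynomial (Fin (n + 1)) (AlgebraicClosure k)
    →ₐ[AlgebraicClosure k] Ω).restrictScalars k)
      ((X : Fin (n + 1) → MvPolynomial (Fin (n + 1)) (AlgebraicClosure k)) j)) = y := by
    funext j
    show aeval y (X j : MvPolynomial (Fin (n + 1)) (AlgebraicClosure k)) = y j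
    rw [aeval_X]
  rw [h5] at h3
  exact h3

private theorem Q6_hom (i : Fin (n + 1)) :
    (Phi φ (X : Fin (n + 1) → MvPolynomial (Fin (n + 1)) (AlgebraicClosure k))
      X X (Pi.single i 1)).IsHomogeneous 3 := by
  unfold Phi
  refine IsHomogeneous.sum _ _ _ fun a _ => IsHomogeneous.sum _ _ _ fun b _ =>
    IsHomogeneous.sum _ _ _ fun c _ => IsHomogeneous.sum _ _ _ fun t _ => ?_
  have h : (3 : ℕ) = 0 + (1 + 1 + 1 + 0) := by norm_num
  have h1 : (algebraMap k (MvPolynomial (Fin (n + 1)) (AlgebraicClosure k))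
      (φ a b c t)).IsHomogeneous 0 := by
    rw [IsScalarTower.algebraMap_apply k (AlgebraicClosure k)
      (MvPolynomial (Fin (n + 1)) (AlgebraicClosure k)), MvPolynomial.algebraMap_eq]
    exact isHomogeneous_C _ _
  have h2 : ((Pi.single i 1 : Fin (n + 1) → MvPolynomial (Fin (n + 1)) (AlgebraicClosure k))
      t).IsHomogeneous 0 := by
    by_cases hj : t = i
    · subst hj
      rw [Pi.single_eq_same]
      exact isHomogeneous_one _ _
    · rw [Pi.single_eq_of_ne hj]
      exact isHomogeneous_zero _ _ _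
  rw [h]
  exact h1.mul ((((isHomogeneous_X _ a).mul (isHomogeneous_X _ b)).mul
    (isHomogeneous_X _ c)).mul h2)

/-- The coordinates of any point are integral over the partial derivatives. -/
private theorem Q6_int (hs : Smooth4 φ) {Ω : Type} [Field Ω] [Algebra k Ω]
    [Algebra (AlgebraicClosure k) Ω] [IsScalarTower k (AlgebraicClosure k) Ω]
    (y : Fin (n + 1) → Ω) (j : Fin (n + 1)) :
    IsIntegral (Algebra.adjoin (AlgebraicClosure k)
      (Set.range fun i => Phi φ y y y (Pi.single i 1))) (y j) := by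
  have h := integral_mod (AlgebraicClosure k) (Fin (n + 1)) (Fin (n + 1)) ⊥
    (fun G hG d => by
      rw [Ideal.mem_bot] at hG
      rw [hG, map_zero]
      exact Ideal.zero_mem _)
    (fun i => Phi φ (X : Fin (n + 1) → MvPolynomial (Fin (n + 1)) (AlgebraicClosure k))
      X X (Pi.single i 1)) (fun _ => 3) (fun _ => by norm_num) (fun i => Q6_hom i)
    (fun x _ hx => by
      refine hs x (Q6_zero' x x x fun i => ?_)
      rw [← Q6_eval]
      exact hx i) y
    (fun G hG => by
      rw [Ideal.mem_bot] at hG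
      rw [hG, map_zero]) j
  have h2 : (fun i => aeval y (Phi φ
      (X : Fin (n + 1) → MvPolynomial (Fin (n + 1)) (AlgebraicClosure k)) X X (Pi.single i 1)))
      = fun i => Phi φ y y y (Pi.single i 1) := funext fun i => Q6_eval y i
  rw [← h2]
  exact h

/-- An algebraically closed extension contains the algebraic closure of the ground field. -/
private theorem Q6_ext (Ω : Type) [Field Ω] [Algebra k Ω] [IsAlgClosed Ω] :
    ∃ (_ : Algebra (AlgebraicClosure k) Ω), IsScalarTower k (AlgebraicClosure k) Ω := by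
  let f : AlgebraicClosure k →ₐ[k] Ω := IsAlgClosed.lift
  let _ : Algebra (AlgebraicClosure k) Ω := f.toRingHom.toAlgebra
  exact ⟨inferInstance, IsScalarTower.of_algebraMap_eq fun x => (f.commutes x).symm⟩

/-- A derivation killing a subfield kills the integral elements over it. -/
private theorem Q6_der {Ω : Type} [Field Ω] [Algebra k Ω] (δ : Derivation k Ω Ω) (C : Subfield Ω)
    (hC : ∀ x, x ∈ C ↔ δ x = 0) (x : Ω) (hx : IsIntegral C x) : δ x = 0 := by
  let δ' : Derivation C Ω Ω := Derivation.mk'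
    { toFun := δ
      map_add' := map_add δ
      map_smul' := fun c z => by
        show δ ((c : Ω) * z) = (c : Ω) * δ z
        rw [Derivation.leibniz, (hC c).1 c.2, smul_zero, add_zero, smul_eq_mul] }
    (fun a b => by
      show δ (a * b) = a • δ b + b • δ a
      exact δ.leibniz a b)
  have : CharZero Ω := charZero_of_injective_algebraMap (algebraMap k Ω).injective
  have h1 : δ' (Polynomial.aeval x (minpoly C x)) =
      Polynomial.aeval x (Polynomial.derivative (minpoly C x)) • δ' x := δ'.map_aeval _ _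
  rw [minpoly.aeval, map_zero, smul_eq_mul] at h1
  have hsep : (minpoly C x).Separable := (minpoly.irreducible hx).separable
  have h2 := hsep.aeval_derivative_ne_zero (minpoly.aeval C x)
  rcases mul_eq_zero.1 h1.symm with h | h
  · exact absurd h h2
  · exact h

/-- The constants of a derivation. -/
private theorem Q6_const {Ω : Type} [Field Ω] [Algebra k Ω] (δ : Derivation k Ω Ω) :
    ∃ C : Subfield Ω, ∀ x, x ∈ C ↔ δ x = 0 := by
  refine ⟨{ carrier := {x | δ x = 0}
            mul_mem' := fun {a b} ha hb => ?_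
            one_mem' := ?_
            add_mem' := fun {a b} ha hb => ?_
            zero_mem' := ?_
            neg_mem' := fun {a} ha => ?_
            inv_mem' := fun a ha => ?_ }, fun x => Iff.rfl⟩
  · show δ (a * b) = 0
    have ha' : δ a = 0 := ha
    have hb' : δ b = 0 := hb
    rw [δ.leibniz, ha', hb', smul_zero, smul_zero, add_zero]
  · exact δ.map_one_eq_zero
  · show δ (a + b) = 0
    have ha' : δ a = 0 := ha
    have hb' : δ b = 0 := hb
    rw [map_add, ha', hb', add_zero]
  · exact map_zero δ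
  · show δ (-a) = 0
    have ha' : δ a = 0 := ha
    rw [map_neg, ha', neg_zero]
  · show δ a⁻¹ = 0
    have ha' : δ a = 0 := ha
    rw [δ.leibniz_inv, ha', smul_zero]

/-- Integrality over a subring of a subfield. -/
private theorem Q6_up {A Ω : Type} [CommRing A] [Field Ω] [Algebra A Ω] (C : Subfield Ω)
    (hA : ∀ a : A, algebraMap A Ω a ∈ C) (x : Ω) (hx : IsIntegral A x) : IsIntegral C x := by
  obtain ⟨p, hp, hpx⟩ := hx
  let g : A →+* C :=
    { toFun := fun a => ⟨algebraMap A Ω a, hA a⟩
      map_one' := Subtype.ext (map_one _)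
      map_mul' := fun a b => Subtype.ext (map_mul _ _ _)
      map_zero' := Subtype.ext (map_zero _)
      map_add' := fun a b => Subtype.ext (map_add _ _ _) }
  refine ⟨p.map g, hp.map g, ?_⟩
  rw [Polynomial.eval₂_map]
  exact hpx

/-- No singular point with values in any extension field. -/
theorem smooth4_ext (hs : Smooth4 φ) {Ω : Type} [Field Ω] [Algebra k Ω] (x : Fin (n + 1) → Ω)
    (hx : ∀ a, Phi φ x x x a = 0) : x = 0 := by
  obtain ⟨iA, iT⟩ := Q6_ext (k := k) (AlgebraicClosure Ω)
  let f : Ω →ₐ[k] AlgebraicClosure Ω := IsScalarTower.toAlgHom k Ω (AlgebraicClosure Ω)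
  have hf : Function.Injective f := f.toRingHom.injective
  set y : Fin (n + 1) → AlgebraicClosure Ω := fun i => f (x i) with hy
  have hy0 : ∀ i, Phi φ y y y (Pi.single i 1) = 0 := by
    intro i
    have h1 := Phi_map φ f x x x (Pi.single i 1)
    rw [hx, map_zero, Q6_single] at h1
    exact h1.symm
  have hint : ∀ j, IsIntegral (AlgebraicClosure k) (y j) := by
    intro j
    have h1 := Q6_int hs y j
    have h2 : (Algebra.adjoin (AlgebraicClosure k)
      (Set.range fun i => Phi φ y y y (Pi.single i 1))) = ⊥ := by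
      rw [eq_bot_iff]
      refine Algebra.adjoin_le ?_
      rintro _ ⟨i, rfl⟩
      show Phi φ y y y (Pi.single i 1) ∈ (⊥ : Subalgebra (AlgebraicClosure k) (AlgebraicClosure Ω))
      rw [hy0]
      exact Subalgebra.zero_mem _
    rw [h2] at h1
    have : Algebra.IsIntegral (AlgebraicClosure k)
        (⊥ : Subalgebra (AlgebraicClosure k) (AlgebraicClosure Ω)) := by
      refine ⟨fun z => ?_⟩
      obtain ⟨w, hw⟩ := Algebra.mem_bot.1 z.2
      have : z = algebraMap (AlgebraicClosure k) _ w := Subtype.ext hw.symm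
      rw [this]
      exact isIntegral_algebraMap
    exact isIntegral_trans _ h1
  have hz : ∀ j, ∃ z : AlgebraicClosure k, algebraMap _ (AlgebraicClosure Ω) z = y j := by
    intro j
    exact minpoly.mem_range_of_degree_eq_one _ _
      (IsAlgClosed.degree_eq_one_of_irreducible _ (minpoly.irreducible (hint j)))
  choose z hz using hz
  let g : AlgebraicClosure k →ₐ[k] AlgebraicClosure Ω :=
    IsScalarTower.toAlgHom k (AlgebraicClosure k) (AlgebraicClosure Ω)
  have hg : Function.Injective g := g.toRingHom.injective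
  have hgz : (fun j => g (z j)) = y := funext hz
  have hz0 : z = 0 := by
    refine hs z (Q6_zero' z z z fun i => ?_)
    apply hg
    rw [Phi_map, Q6_single, hgz, hy0, map_zero]
  funext j
  apply hf
  show y j = f 0
  rw [← hz j, hz0, Pi.zero_apply, map_zero, map_zero]

theorem hess_cone (hφ : IsSymm4 φ) (hs : Smooth4 φ) {Ω : Type} [Field Ω] [Algebra k Ω]
    [IsAlgClosed Ω] (P v : Fin (n + 1) → Ω) (hP : IsGenCone φ P) (c : Ω)
    (hv : ∀ a, Phi φ P P v a = c * Phi φ P P P a) : v = c • P := by
  have hPP : Phi φ P P P P = 0 := by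
    rw [← aeval_FF]
    exact (hP _).2 dvd_rfl
  have hPb : Phi φ P P P (v - c • P) = 0 := by
    rw [Phi_sub4, Phi_smul4, hPP, Phi_comm34 hφ, hv, hPP]
    ring
  obtain ⟨δ, hδ⟩ := exists_derivation_cone hφ P (v - c • P) hP hPb
  have hδP : (fun i => δ (P i)) = v - c • P := funext hδ
  have hb : ∀ a, Phi φ P P (v - c • P) a = 0 := by
    intro a
    rw [Phi_sub3, Phi_smul3, hv, sub_self]
  have hg : ∀ i, δ (Phi φ P P P (Pi.single i 1)) = 0 := by
    intro i
    have h0 : (fun j => δ ((Pi.single i 1 : Fin (n + 1) → Ω) j)) = 0 := by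
      funext j
      by_cases hj : j = i
      · subst hj
        rw [Pi.single_eq_same, Derivation.map_one_eq_zero, Pi.zero_apply]
      · rw [Pi.single_eq_of_ne hj, map_zero, Pi.zero_apply]
    rw [Phi_deriv, h0, Phi_zero4, hδP, Phi_comm12 hφ (v - c • P) P P, Phi_comm23 hφ P (v - c • P) P,
      hb]
    ring
  obtain ⟨C, hC⟩ := Q6_const δ
  obtain ⟨iA, iT⟩ := Q6_ext (k := k) Ω
  have hkb : ∀ z : AlgebraicClosure k, algebraMap (AlgebraicClosure k) Ω z ∈ C := by
    intro z
    rw [hC]
    refine Q6_der δ C hC _ (Q6_up (A := k) C (fun a => ?_) _ ?_)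
    · rw [hC]
      exact δ.map_algebraMap a
    · exact (Algebra.IsIntegral.isIntegral (R := k) z).algebraMap
  have hS : ∀ s ∈ Algebra.adjoin (AlgebraicClosure k)
      (Set.range fun i => Phi φ P P P (Pi.single i 1)), s ∈ C := by
    intro s hs'
    induction hs' using Algebra.adjoin_induction with
    | mem x hx =>
      obtain ⟨i, rfl⟩ := hx
      rw [hC]
      exact hg i
    | algebraMap r => exact hkb r
    | add x y _ _ hx hy => exact C.add_mem hx hy
    | mul x y _ _ hx hy => exact C.mul_mem hx hy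
  have hP0 : ∀ j, δ (P j) = 0 := by
    intro j
    refine Q6_der δ C hC _ (Q6_up (A := Algebra.adjoin (AlgebraicClosure k)
      (Set.range fun i => Phi φ P P P (Pi.single i 1))) C (fun a => ?_) _ (Q6_int hs P j))
    exact hS _ a.2
  funext j
  have h1 := hδ j
  rw [hP0, Pi.sub_apply] at h1
  exact (sub_eq_zero.1 h1.symm)

theorem lemmaA (hφ : IsSymm4 φ) (hs : Smooth4 φ) {Ω : Type} [Field Ω] [Algebra k Ω]
    (P v : Fin (n + 1) → Ω) (hP : IsGenPt φ P) (c : Ω)
    (hv : ∀ a, Phi φ P P v a = c * Phi φ P P P a) : v = c • P := by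
  obtain ⟨Ω', i1, i2, i3, f, s, hs0, hcone⟩ := exists_cone P hP
  have hf : Function.Injective f := f.toRingHom.injective
  have hP' : (fun i => s * f (P i)) = s • (fun i => f (P i)) := rfl
  have h := hess_cone hφ hs (fun i => s * f (P i)) (fun i => f (v i)) hcone (f c / s) (by
    intro a
    rw [Phi_eq_sum, Phi_eq_sum φ _ _ _ a, Finset.mul_sum]
    refine Finset.sum_congr rfl fun i _ => ?_
    have h1 := congrArg f (hv (Pi.single i 1))
    rw [map_mul, Phi_map, Phi_map, Q6_single] at h1
    rw [hP', Phi_smul1, Phi_smul2, Phi_smul1, Phi_smul2, Phi_smul3, h1]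
    field_simp)
  funext j
  apply hf
  have h2 := congrFun h j
  show f (v j) = f (c * P j)
  rw [map_mul]
  have h3 : f (v j) = f c / s * (s * f (P j)) := h2
  rw [h3]
  field_simp

theorem phi_ne (hφ : IsSymm4 φ) (hs : Smooth4 φ) {Ω : Type} [Field Ω] [Algebra k Ω]
    (P : Fin (n + 1) → Ω) (hP : IsGenPt φ P) :
    ∃ i : Fin (n + 1), Phi φ P P P (Pi.single i 1) ≠ 0 := by
  by_contra hcon
  push Not at hcon
  have h := smooth4_ext hs P (Q6_zero' P P P hcon)
  have h1 := hP.1
  rw [h, Pi.zero_apply] at h1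
  exact zero_ne_one h1

theorem lemmaA' (hφ : IsSymm4 φ) (hs : Smooth4 φ) {Ω : Type} [Field Ω] [Algebra k Ω]
    (P v : Fin (n + 1) → Ω) (hP : IsGenPt φ P)
    (hv : ∀ a, Phi φ P P P a = 0 → Phi φ P P v a = 0) : ∃ c : Ω, v = c • P := by
  obtain ⟨i, hi⟩ := phi_ne hφ hs P hP
  refine ⟨Phi φ P P v (Pi.single i 1) / Phi φ P P P (Pi.single i 1), lemmaA hφ hs P v hP _ ?_⟩
  intro a
  have h := hv (a - (Phi φ P P P a / Phi φ P P P (Pi.single i 1)) • Pi.single i 1) (by
    rw [Phi_sub4, Phi_smul4, div_mul_cancel₀ _ hi, sub_self])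
  rw [Phi_sub4, Phi_smul4, sub_eq_zero] at h
  rw [h]
  field_simp

theorem hess_det (hφ : IsSymm4 φ) (hs : Smooth4 φ) {Ω : Type} [Field Ω] [Algebra k Ω]
    (P : Fin (n + 1) → Ω) (hP : IsGenPt φ P) :
    (Matrix.of fun i j : Fin (n + 1) =>
      Phi φ P P (Pi.single i 1) (Pi.single j 1)).det ≠ 0 := by
  intro hdet
  obtain ⟨w, hw0, hw⟩ := Matrix.exists_mulVec_eq_zero_iff.2 hdet
  have h1 : ∀ i, Phi φ P P w (Pi.single i 1) = 0 := by
    intro i
    rw [Phi_comm34 hφ, Phi_eq_sum]
    have h2 := congrFun hw i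
    rw [Matrix.mulVec, Pi.zero_apply] at h2
    rw [← h2]
    simp only [dotProduct, Matrix.of_apply]
    exact Finset.sum_congr rfl fun j _ => mul_comm _ _
  have h3 := lemmaA hφ hs P w hP 0 (fun a => by rw [Q6_zero' P P w h1, zero_mul])
  rw [zero_smul] at h3
  exact hw0 h3

end Pool.Agent.LibHP
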