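import Pool.Agent.LibHPF.G3

/-! Row G3b. The chart ring is integrally closed (and Noetherian). -/

set_option autoImplicit false

namespace Pool.Agent.LibHP

theorem chartRing_fg (k : Type) {K : Type} [Field k] [Field K] [Algebra k K] {n : ℕ}
    (y : Fin (n + 1) → K) (i : Fin (n + 1)) : (chartRing k y i).FG := by
  have h : (Set.range fun j => y j / y i).Finite := Set.finite_range _
  refine ⟨h.toFinset, ?_⟩
  rw [Set.Finite.coe_toFinset]
  rfl

theorem chartRing_isNoetherianRing (k : Type) {K : Type} [Field k] [Field K] [Algebra k K] {n : ℕ}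
    (y : Fin (n + 1) → K) (i : Fin (n + 1)) : IsNoetherianRing (chartRing k y i) := by
  haveI : Algebra.FiniteType k (chartRing k y i) :=
    (Subalgebra.fg_iff_finiteType _).mp (chartRing_fg k y i)
  exact Algebra.FiniteType.isNoetherianRing k (chartRing k y i)

theorem g3b_denom {k K : Type} [Field k] [Field K] [Algebra k K] {n : ℕ}
    (F : MvPolynomial (Fin (n + 1)) k) (y : Fin (n + 1) → K) (i j : Fin (n + 1))
    (h0 : MvPolynomial.aeval (fun l => y l / y i) (MvPolynomial.pderiv j F) ≠ 0)
    (x : K) (hx : x ∈ chartRing2 F y i j) :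
    ∃ N : ℕ, (MvPolynomial.aeval (fun l => y l / y i) (MvPolynomial.pderiv j F)) ^ N * x ∈
      chartRing k y i := by
  have hh : MvPolynomial.aeval (fun l => y l / y i) (MvPolynomial.pderiv j F) ∈
      chartRing k y i := by
    rw [chartRing, Algebra.adjoin_range_eq_range_aeval]
    exact ⟨_, rfl⟩
  revert hx
  rw [chartRing2]
  generalize hg : MvPolynomial.aeval (fun l => y l / y i) (MvPolynomial.pderiv j F) = h at *
  intro hx
  induction hx using Algebra.adjoin_induction with
  | mem x hx =>
    rcases hx with ⟨l, rfl⟩ | hx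
    · refine ⟨0, ?_⟩
      rw [pow_zero, one_mul]
      exact Algebra.subset_adjoin ⟨l, rfl⟩
    · rw [Set.mem_singleton_iff] at hx
      refine ⟨1, ?_⟩
      rw [hx, pow_one, mul_inv_cancel₀ h0]
      exact one_mem _
  | algebraMap r =>
    refine ⟨0, ?_⟩
    rw [pow_zero, one_mul]
    exact Subalgebra.algebraMap_mem _ r
  | add x z _ _ hx hz =>
    obtain ⟨N, hN⟩ := hx
    obtain ⟨M, hM⟩ := hz
    refine ⟨N + M, ?_⟩
    have e : h ^ (N + M) * (x + z) = h ^ M * (h ^ N * x) + h ^ N * (h ^ M * z) := by ring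
    rw [e]
    exact add_mem (mul_mem (pow_mem hh _) hN) (mul_mem (pow_mem hh _) hM)
  | mul x z _ _ hx hz =>
    obtain ⟨N, hN⟩ := hx
    obtain ⟨M, hM⟩ := hz
    refine ⟨N + M, ?_⟩
    have e : h ^ (N + M) * (x * z) = (h ^ N * x) * (h ^ M * z) := by ring
    rw [e]
    exact mul_mem hN hM

theorem g3b_coe {k K : Type} [Field k] [Field K] [Algebra k K] {n : ℕ}
    (y : Fin (n + 1) → K) (i : Fin (n + 1)) (G : MvPolynomial (Fin (n + 1)) k) :
    ((MvPolynomial.aeval (chartCoord k y i) G : chartRing k y i) : K) =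
      MvPolynomial.aeval (fun l => y l / y i) G := by
  have h := MvPolynomial.comp_aeval_apply (R := k) (chartCoord k y i) (chartRing k y i).val G
  exact h

theorem g3b_isIntegrallyClosed {k K : Type} [Field k] [Field K] [Algebra k K] {n : ℕ}
    (F : MvPolynomial (Fin (n + 1)) k) (y : Fin (n + 1) → K) (i j : Fin (n + 1))
    (h : ∃ (N : ℕ) (ψ : MvPolynomial (Fin N) k →+* chartRing2 F y i j), ψ.Etale) :
    IsIntegrallyClosed (chartRing2 F y i j) := by
  obtain ⟨N, ψ, hψ⟩ := h
  letI := ψ.toAlgebra
  haveI : Algebra.Etale (MvPolynomial (Fin N) k) (chartRing2 F y i j) := hψ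
  exact isIntegrallyClosed_of_etale k N (chartRing2 F y i j)

theorem chartRing_isIntegrallyClosed {k K : Type} [Field k] [CharZero k] [Field K] [Algebra k K]
    {n d : ℕ} (hd : d ≠ 0)
    (F : MvPolynomial (Fin (n + 1)) k) (hF : F.IsHomogeneous d) (hsm : IsSmoothHyp F)
    (y : Fin (n + 1) → K) (hy : IsHypPt F y) (i : Fin (n + 1)) (hi : y i ≠ 0) :
    IsIntegrallyClosed (chartRing k y i) := by
  haveI hfr : IsFractionRing (chartRing k y i) K := chart_isFractionRing F y hy i hi
  rw [isIntegrallyClosed_iff K]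
  intro x hx
  let I : Ideal (chartRing k y i) :=
    { carrier := {a | (a : K) * x ∈ chartRing k y i}
      add_mem' := by
        intro a b ha hb
        simp only [Set.mem_setOf_eq, Subalgebra.coe_add, add_mul] at ha hb ⊢
        exact add_mem ha hb
      zero_mem' := by
        simp only [Set.mem_setOf_eq, Subalgebra.coe_zero, zero_mul]
        exact zero_mem _
      smul_mem' := by
        intro c a ha
        simp only [Set.mem_setOf_eq, smul_eq_mul, Subalgebra.coe_mul, mul_assoc] at ha ⊢
        exact mul_mem c.2 ha }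
  have hI : I = ⊤ := by
    by_contra hne
    obtain ⟨P, hP, hIP⟩ := Ideal.exists_le_maximal I hne
    obtain ⟨j, hji, hj⟩ := chart_jacobian hd F hF hsm y hy i hi P hP.isPrime
    have h0 : MvPolynomial.aeval (fun l => y l / y i) (MvPolynomial.pderiv j F) ≠ 0 := by
      rw [← g3b_coe]
      intro h
      apply hj
      have : MvPolynomial.aeval (chartCoord k y i) (MvPolynomial.pderiv j F) = 0 :=
        Subtype.ext h
      rw [this]
      exact zero_mem _
    haveI := g3b_isIntegrallyClosed F y i j (chart_etale F hF y hy i j hji hi h0)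
    have hle : chartRing k y i ≤ chartRing2 F y i j :=
      Algebra.adjoin_mono (Set.subset_union_left)
    haveI : IsFractionRing (chartRing2 F y i j) K := by
      refine IsFractionRing.of_field _ _ fun z => ?_
      obtain ⟨a, b, -, hab⟩ := IsFractionRing.div_surjective (A := chartRing k y i) z
      exact ⟨⟨a, hle a.2⟩, ⟨b, hle b.2⟩, hab.symm⟩
    have hx2 : IsIntegral (chartRing2 F y i j) x := by
      obtain ⟨p, hp, hpx⟩ := hx
      refine ⟨p.map (Subalgebra.inclusion hle).toRingHom, hp.map _, ?_⟩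
      rw [Polynomial.eval₂_map]
      exact hpx
    obtain ⟨b, hb⟩ := (isIntegrallyClosed_iff K).mp inferInstance hx2
    obtain ⟨N, hN⟩ := g3b_denom F y i j h0 x (by rw [← hb]; exact b.2)
    apply hj
    apply hP.isPrime.mem_of_pow_mem N
    apply hIP
    show ((_ : chartRing k y i) : K) * x ∈ chartRing k y i
    rw [Subalgebra.coe_pow, g3b_coe]
    exact hN
  have h1 : (1 : chartRing k y i) ∈ I := by rw [hI]; trivial
  have h2 : ((1 : chartRing k y i) : K) * x ∈ chartRing k y i := h1
  rw [Subalgebra.coe_one, one_mul] at h2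
  exact ⟨⟨x, h2⟩, rfl⟩

end Pool.Agent.LibHP
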