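import Pool.Agent.LibHPF.G3

/-! Row G5. Every valuation ring `O` of `K` over `k` contains one of the rings `chartRing2 F y i j`.
Choose `i` with `y j / y i ∈ O` for all `j` (finitely many elements of `K`, not all zero (`y 0 = 1`), total order by divisibility in a valuation ring:
e.g. `V := (IsFractionRing valuation subring)`; take `i` with `v (y i)` maximal). Then `A = chartRing k y i` maps into `O` (`k ⊆ O`). `P` = the elements of `A` which are
non-units of `O` is a prime ideal; by `chart_jacobian` some `h = ∂_j F (w) ∉ P`, `j ≠ i`, i.e. `h⁻¹ ∈ O`. -/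

set_option autoImplicit false

namespace Pool.Agent.LibHP

theorem G5_index {K O : Type} [Field K] [CommRing O] [IsDomain O] [ValuationRing O] [Algebra O K]
    [IsFractionRing O K] {n : ℕ} (y : Fin (n + 1) → K) (h0 : y 0 = 1) (s : Finset (Fin (n + 1))) :
    ∃ i, y i ≠ 0 ∧ ∀ l ∈ s, ∃ o : O, algebraMap O K o = y l / y i := by
  classical
  induction s using Finset.induction_on with
  | empty => exact ⟨0, by rw [h0]; exact one_ne_zero, fun l hl => absurd hl (Finset.notMem_empty l)⟩
  | insert a s ha ih =>
      obtain ⟨i, hi, hs⟩ := ih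
      by_cases hya : y a = 0
      · refine ⟨i, hi, fun l hl => ?_⟩
        rcases Finset.mem_insert.mp hl with rfl | h
        · exact ⟨0, by rw [map_zero, hya, zero_div]⟩
        · exact hs l h
      · rcases ValuationRing.isInteger_or_isInteger O (y a / y i) with h | h
        · obtain ⟨o, ho⟩ := h
          refine ⟨i, hi, fun l hl => ?_⟩
          rcases Finset.mem_insert.mp hl with rfl | h
          · exact ⟨o, ho⟩
          · exact hs l h
        · obtain ⟨o, ho⟩ := h
          refine ⟨a, hya, fun l hl => ?_⟩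
          rcases Finset.mem_insert.mp hl with rfl | h
          · exact ⟨1, by rw [map_one, div_self hya]⟩
          · obtain ⟨o', ho'⟩ := hs l h
            refine ⟨o' * o, ?_⟩
            rw [map_mul, ho', ho]
            field_simp

theorem exists_chart {k K : Type} [Field k] [CharZero k] [Field K] [Algebra k K] {n d : ℕ}
    (hd : d ≠ 0)
    (F : MvPolynomial (Fin (n + 1)) k) (hF : F.IsHomogeneous d) (hsm : IsSmoothHyp F)
    (y : Fin (n + 1) → K) (hy : IsHypPt F y)
    (O : Type) [CommRing O] [IsDomain O] [ValuationRing O] [Algebra O K] [IsFractionRing O K]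
    (hk : ∀ c : k, ∃ o : O, algebraMap O K o = algebraMap k K c) :
    ∃ i j : Fin (n + 1), j ≠ i ∧ y i ≠ 0 ∧
      MvPolynomial.aeval (fun l => y l / y i) (MvPolynomial.pderiv j F) ≠ 0 ∧
      ∀ a ∈ chartRing2 F y i j, ∃ o : O, algebraMap O K o = a := by
  obtain ⟨i, hi, hV⟩ := G5_index (O := O) y hy.1 Finset.univ
  have hinj : Function.Injective (algebraMap O K) := IsFractionRing.injective O K
  have hA : ∀ a ∈ chartRing k y i, ∃ o : O, algebraMap O K o = a := by
    intro a ha
    refine Algebra.adjoin_induction (p := fun a _ => ∃ o : O, algebraMap O K o = a)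
      ?_ hk ?_ ?_ ha
    · rintro x ⟨l, rfl⟩
      exact hV l (Finset.mem_univ l)
    · rintro x x' _ _ ⟨o, rfl⟩ ⟨o', rfl⟩
      exact ⟨o + o', map_add _ _ _⟩
    · rintro x x' _ _ ⟨o, rfl⟩ ⟨o', rfl⟩
      exact ⟨o * o', map_mul _ _ _⟩
  choose f hf using fun a : chartRing k y i => hA a.1 a.2
  let φ : chartRing k y i →+* O :=
    { toFun := f
      map_one' := hinj (by rw [hf, map_one]; rfl)
      map_mul' := fun a b => hinj (by rw [map_mul, hf, hf, hf]; rfl)
      map_zero' := hinj (by rw [hf, map_zero]; rfl)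
      map_add' := fun a b => hinj (by rw [map_add, hf, hf, hf]; rfl) }
  have hφ : ∀ a : chartRing k y i, algebraMap O K (φ a) = a.1 := hf
  let P : Ideal (chartRing k y i) := (IsLocalRing.maximalIdeal O).comap φ
  have hP : P.IsPrime := Ideal.comap_isPrime _ _
  obtain ⟨j, hji, hj⟩ := chart_jacobian hd F hF hsm y hy i hi P hP
  have hunit : IsUnit (φ (MvPolynomial.aeval (chartCoord k y i) (MvPolynomial.pderiv j F))) := by
    by_contra hn
    exact hj ((IsLocalRing.mem_maximalIdeal _).mpr hn)
  have hval : algebraMap O K (φ (MvPolynomial.aeval (chartCoord k y i) (MvPolynomial.pderiv j F))) =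
      MvPolynomial.aeval (fun l => y l / y i) (MvPolynomial.pderiv j F) := by
    rw [hφ]
    have h1 := MvPolynomial.comp_aeval_apply (chartCoord k y i) (chartRing k y i).val
      (MvPolynomial.pderiv j F)
    exact h1
  obtain ⟨u, hu⟩ := hunit
  have hval' : algebraMap O K (u : O) =
      MvPolynomial.aeval (fun l => y l / y i) (MvPolynomial.pderiv j F) := by
    rw [hu, hval]
  have hne : MvPolynomial.aeval (fun l => y l / y i) (MvPolynomial.pderiv j F) ≠ 0 := by
    rw [← hval']
    intro h0
    exact u.ne_zero (hinj (by rw [h0, map_zero]))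
  have hinv : algebraMap O K ((u⁻¹ : Oˣ) : O) =
      (MvPolynomial.aeval (fun l => y l / y i) (MvPolynomial.pderiv j F))⁻¹ := by
    rw [← hval']
    refine eq_inv_of_mul_eq_one_left ?_
    rw [← map_mul, Units.inv_mul, map_one]
  refine ⟨i, j, hji, hi, hne, fun a ha => ?_⟩
  refine Algebra.adjoin_induction (p := fun a _ => ∃ o : O, algebraMap O K o = a)
      ?_ hk ?_ ?_ ha
  · rintro x (⟨l, rfl⟩ | hx)
    · exact hV l (Finset.mem_univ l)
    · rw [Set.mem_singleton_iff] at hx
      exact ⟨_, hinv.trans hx.symm⟩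
  · rintro x x' _ _ ⟨o, rfl⟩ ⟨o', rfl⟩
    exact ⟨o + o', map_add _ _ _⟩
  · rintro x x' _ _ ⟨o, rfl⟩ ⟨o', rfl⟩
    exact ⟨o * o', map_mul _ _ _⟩

end Pool.Agent.LibHP
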