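import Pool.Agent.LibHPF.G3

/-! Row G4. If `L` is unramified at all height one primes of `A = chartRing k y i` then the integral closure of `B = A[1/h]`
(`B = chartRing2 F y i j`, `h = ∂_j F (w)`) in `L` is finite etale over `B`. -/

set_option autoImplicit false

namespace Pool.Agent.LibHP

section G4
variable {k K : Type} [Field k] [Field K] [Algebra k K] {n : ℕ}

/-- The element inverted in `chartRing2`. -/
noncomputable def G4_h (F : MvPolynomial (Fin (n + 1)) k) (y : Fin (n + 1) → K)
    (i j : Fin (n + 1)) : K :=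
  MvPolynomial.aeval (fun l => y l / y i) (MvPolynomial.pderiv j F)

theorem G4_le (F : MvPolynomial (Fin (n + 1)) k) (y : Fin (n + 1) → K) (i j : Fin (n + 1)) :
    chartRing k y i ≤ chartRing2 F y i j :=
  Algebra.adjoin_mono Set.subset_union_left

theorem G4_h_mem (F : MvPolynomial (Fin (n + 1)) k) (y : Fin (n + 1) → K) (i j : Fin (n + 1)) :
    G4_h F y i j ∈ chartRing k y i := by
  rw [G4_h, chartRing, Algebra.adjoin_range_eq_range_aeval]
  exact ⟨_, rfl⟩

theorem G4_inv_mem (F : MvPolynomial (Fin (n + 1)) k) (y : Fin (n + 1) → K) (i j : Fin (n + 1)) :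
    (G4_h F y i j)⁻¹ ∈ chartRing2 F y i j :=
  Algebra.subset_adjoin (Or.inr rfl)

theorem G4_exists (F : MvPolynomial (Fin (n + 1)) k) (y : Fin (n + 1) → K) (i j : Fin (n + 1))
    (hh : G4_h F y i j ≠ 0) (b : K) (hb : b ∈ chartRing2 F y i j) :
    ∃ N : ℕ, G4_h F y i j ^ N * b ∈ chartRing k y i := by
  have hm := G4_h_mem F y i j
  refine Algebra.adjoin_induction (p := fun b _ => ∃ N : ℕ, G4_h F y i j ^ N * b ∈ chartRing k y i)
    ?_ ?_ ?_ ?_ hb
  · rintro x (hx | hx)
    · exact ⟨0, by rw [pow_zero, one_mul]; exact Algebra.subset_adjoin hx⟩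
    · refine ⟨1, ?_⟩
      rw [Set.mem_singleton_iff.mp hx, pow_one]
      change G4_h F y i j * (G4_h F y i j)⁻¹ ∈ _
      rw [mul_inv_cancel₀ hh]
      exact one_mem _
  · intro r
    exact ⟨0, by rw [pow_zero, one_mul]; exact Subalgebra.algebraMap_mem _ r⟩
  · rintro x z _ _ ⟨N, hN⟩ ⟨M, hM⟩
    refine ⟨N + M, ?_⟩
    have e : G4_h F y i j ^ (N + M) * (x + z) = G4_h F y i j ^ M * (G4_h F y i j ^ N * x) +
        G4_h F y i j ^ N * (G4_h F y i j ^ M * z) := by ring
    rw [e]
    exact add_mem (mul_mem (pow_mem hm _) hN) (mul_mem (pow_mem hm _) hM)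
  · rintro x z _ _ ⟨N, hN⟩ ⟨M, hM⟩
    refine ⟨N + M, ?_⟩
    have e : G4_h F y i j ^ (N + M) * (x * z) = (G4_h F y i j ^ N * x) *
        (G4_h F y i j ^ M * z) := by ring
    rw [e]
    exact mul_mem hN hM

end G4

theorem finEt_chart {k K : Type} [Field k] [CharZero k] [Field K] [Algebra k K] {n d : ℕ}
    (F : MvPolynomial (Fin (n + 1)) k) (hF : F.IsHomogeneous d)
    (y : Fin (n + 1) → K) (hy : IsHypPt F y) (i j : Fin (n + 1)) (hij : j ≠ i) (hi : y i ≠ 0)
    (hh : MvPolynomial.aeval (fun l => y l / y i) (MvPolynomial.pderiv j F) ≠ 0)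
    (L : Type) [Field L] [Algebra K L] [FiniteDimensional K L]
    (hu : ∀ P : Ideal (chartRing k y i), P.IsPrime → P.height = 1 →
      UnramAt (chartRing k y i) L P) :
    Module.Finite (chartRing2 F y i j) (integralClosure (chartRing2 F y i j) L) ∧
      Algebra.Etale (chartRing2 F y i j) (integralClosure (chartRing2 F y i j) L) := by
  classical
  obtain ⟨N, ψ, hψ⟩ := chart_etale F hF y hy i j hij hi hh
  let : Algebra (MvPolynomial (Fin N) k) (chartRing2 F y i j) := ψ.toAlgebra
  have : Algebra.Etale (MvPolynomial (Fin N) k) (chartRing2 F y i j) := hψ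
  have hle := G4_le F y i j
  let : Algebra (chartRing k y i) (chartRing2 F y i j) :=
    (Subalgebra.inclusion hle).toRingHom.toAlgebra
  have hmapK : ∀ x : chartRing k y i,
      ((algebraMap (chartRing k y i) (chartRing2 F y i j) x : chartRing2 F y i j) : K) = x :=
    fun _ => rfl
  have : IsScalarTower (chartRing k y i) (chartRing2 F y i j) L := by
    refine IsScalarTower.of_algebraMap_eq fun x => ?_
    rfl
  have hAf : IsFractionRing (chartRing k y i) K := chart_isFractionRing F y hy i hi
  have hBf : IsFractionRing (chartRing2 F y i j) K := by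
    apply IsFractionRing.of_field
    intro z
    obtain ⟨a, b, hb, hab⟩ := IsFractionRing.div_surjective (A := chartRing k y i) z
    exact ⟨⟨a, hle a.2⟩, ⟨b, hle b.2⟩, hab.symm⟩
  have hh' : G4_h F y i j ≠ 0 := hh
  let hA : chartRing k y i := ⟨G4_h F y i j, G4_h_mem F y i j⟩
  let hB : chartRing2 F y i j := algebraMap _ _ hA
  have hBu : hB * ⟨(G4_h F y i j)⁻¹, G4_inv_mem F y i j⟩ = 1 := by
    apply Subtype.ext
    exact mul_inv_cancel₀ hh'
  have hloc : IsLocalization.Away hA (chartRing2 F y i j) := by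
    refine IsLocalization.Away.mk hA ?_ ?_ ?_
    · exact IsUnit.of_mul_eq_one _ hBu
    · intro s
      obtain ⟨M, hM⟩ := G4_exists F y i j hh' s s.2
      refine ⟨M, ⟨_, hM⟩, ?_⟩
      apply Subtype.ext
      change (s : K) * G4_h F y i j ^ M = G4_h F y i j ^ M * s
      ring
    · intro a b hab
      refine ⟨0, ?_⟩
      have h1 : (a : K) = b := congrArg (fun x : chartRing2 F y i j => (x : K)) hab
      rw [pow_zero, one_mul, one_mul]
      exact Subtype.ext h1
  refine etale_of_codim_one k N (chartRing2 F y i j) K L ?_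
  intro P hP hht D hD b hb
  have hBP : hB ∉ P := by
    intro h
    apply hP.ne_top
    rw [Ideal.eq_top_iff_one, ← hBu]
    exact P.mul_mem_right _ h
  have hP0 : (P.under (chartRing k y i)).IsPrime := inferInstance
  have hht0 : (P.under (chartRing k y i)).height = 1 := by
    rw [IsLocalization.height_under (Submonoid.powers hA)]
    exact hht
  have hpow : ∀ M : ℕ, hA ^ M ∉ P.under (chartRing k y i) := by
    intro M h
    have h1 : algebraMap _ (chartRing2 F y i j) (hA ^ M) ∈ P := h
    rw [map_pow] at h1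
    exact hBP (hP.mem_of_pow_mem _ h1)
  obtain ⟨⟨_, M, rfl⟩, hM⟩ := IsIntegral.exists_multiple_integral_of_isLocalization
    (Submonoid.powers hA) b hb
  have hun := hu _ hP0 hht0 D (by
    intro x
    obtain ⟨c, hc⟩ := hD (algebraMap _ _ x)
    obtain ⟨M', hM'⟩ := G4_exists F y i j hh' c c.2
    refine ⟨⟨_, hM'⟩, hA ^ M', hpow M', ?_⟩
    have e1 : algebraMap (chartRing k y i) L x =
      algebraMap (chartRing2 F y i j) L (algebraMap _ _ x) := rfl
    rw [e1, hc]
    change algebraMap K L (G4_h F y i j ^ M') * algebraMap K L c =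
      algebraMap K L (G4_h F y i j ^ M' * c)
    rw [map_mul]) _ hM
  obtain ⟨r, hr, hr'⟩ := hun
  obtain ⟨c, hc⟩ := hD (algebraMap _ _ (hA ^ M))
  refine ⟨algebraMap _ _ (r * hA ^ M), ?_, ?_⟩
  · intro h
    have h1 : r * hA ^ M ∈ P.under (chartRing k y i) := h
    rcases hP0.mem_or_mem h1 with h2 | h2
    · exact hr h2
    · exact hpow M h2
  · have e2 : D ((⟨hA ^ M, M, rfl⟩ : Submonoid.powers hA) • b) =
        algebraMap (chartRing k y i) L (hA ^ M) * D b +
          b * algebraMap (chartRing2 F y i j) L c := by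
      have e3 : ((⟨hA ^ M, M, rfl⟩ : Submonoid.powers hA) • b : L) =
        algebraMap (chartRing k y i) L (hA ^ M) * b := by
        rw [Submonoid.smul_def, Algebra.smul_def]
      rw [e3, D.leibniz, ← hc]
      rw [smul_eq_mul, smul_eq_mul]
      rfl
    have e4 : algebraMap (chartRing2 F y i j) L (algebraMap _ _ (r * hA ^ M)) * D b =
        algebraMap (chartRing k y i) L r * D ((⟨hA ^ M, M, rfl⟩ : Submonoid.powers hA) • b) -
          algebraMap (chartRing2 F y i j) L (algebraMap _ _ r * c) * b := by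
      rw [e2, ← IsScalarTower.algebraMap_apply, map_mul, map_mul, ← IsScalarTower.algebraMap_apply]
      ring
    rw [e4]
    refine IsIntegral.sub ?_ ?_
    · exact hr'.tower_top
    · exact isIntegral_algebraMap.mul hb

end Pool.Agent.LibHP
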