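import Mathlib

/-! Row G6. Base change of a finite etale normalization to a discrete valuation ring.
`B ⊆ O ⊆ K`, `C = integralClosure B L` finite etale over `B`. `T := O ⊗[B] C` is finite etale over `O`, `T ⊗[O] K ≅ K ⊗[B] C ≅ L`
(`L` is a localization of `C`), so `T → L` is injective; its image is the integral closure of `O` since smooth base change commutes with
integral closure (`TensorProduct.toIntegralClosure_bijective_of_smooth` for `O → T` and `O ⊆ K`). -/

set_option autoImplicit false

namespace Pool.Agent.LibHP

open TensorProduct in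
theorem etale_baseChange_dvr (B O K L : Type) [CommRing B] [IsDomain B] [CommRing O] [IsDomain O]
    [IsDiscreteValuationRing O] [Field K] [Field L] [Algebra B O] [Algebra B K] [Algebra O K]
    [IsScalarTower B O K] [IsFractionRing B K] [IsFractionRing O K] [Algebra K L] [Algebra B L]
    [Algebra O L] [IsScalarTower B K L] [IsScalarTower O K L] [FiniteDimensional K L]
    (hfin : Module.Finite B (integralClosure B L))
    (het : Algebra.Etale B (integralClosure B L)) :
    Algebra.Etale O (integralClosure O L) := by
  have hBOL : IsScalarTower B O L := by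
    refine IsScalarTower.of_algebraMap_eq fun b => ?_
    rw [IsScalarTower.algebraMap_apply B K L, IsScalarTower.algebraMap_apply B O K,
      ← IsScalarTower.algebraMap_apply O K L]
  have hloc : IsLocalization (Algebra.algebraMapSubmonoid (integralClosure B L)
      (nonZeroDivisors B)) L := IsIntegralClosure.isLocalization B K L (integralClosure B L)
  have hpo : Algebra.IsPushout B K (integralClosure B L) L :=
    (Algebra.isPushout_of_isLocalization (nonZeroDivisors B) K (integralClosure B L) L).symm
  let e1 : K ⊗[B] integralClosure B L ≃ₐ[K] L := Algebra.IsPushout.equiv B K (integralClosure B L) L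
  let e2 : K ⊗[O] (O ⊗[B] integralClosure B L) ≃ₐ[K] K ⊗[B] integralClosure B L :=
    Algebra.TensorProduct.cancelBaseChange B O K K (integralClosure B L)
  let e3 : (O ⊗[B] integralClosure B L) ⊗[O] K ≃ₐ[O] K ⊗[O] (O ⊗[B] integralClosure B L) :=
    Algebra.TensorProduct.comm O _ _
  let e : (O ⊗[B] integralClosure B L) ⊗[O] K ≃ₐ[O] L :=
    e3.trans ((e2.trans e1).restrictScalars O)
  let φ : O ⊗[B] integralClosure B L →ₐ[O] L :=
    e.toAlgHom.comp (Algebra.TensorProduct.includeLeft :
      O ⊗[B] integralClosure B L →ₐ[O] (O ⊗[B] integralClosure B L) ⊗[O] K)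
  have hinj : Function.Injective φ := by
    refine e.injective.comp ?_
    exact Algebra.TensorProduct.includeLeft_injective (R := O) (S := O)
      (A := O ⊗[B] integralClosure B L) (B := K) (IsFractionRing.injective O K)
  have hint : Algebra.IsIntegral O (O ⊗[B] integralClosure B L) := Algebra.IsIntegral.of_finite _ _
  have hrange : ∀ t, φ t ∈ integralClosure O L := fun t => (hint.isIntegral t).map φ
  have hsurj : ∀ x : L, IsIntegral O x → ∃ t, φ t = x := by
    intro x hx
    have hy0 : IsIntegral O (e.symm x) := hx.map e.symm.toAlgHom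
    have hy : IsIntegral (O ⊗[B] integralClosure B L) (e.symm x) := hy0.tower_top
    obtain ⟨w, hw⟩ := (TensorProduct.toIntegralClosure_bijective_of_smooth (R := O)
      (S := O ⊗[B] integralClosure B L) (B := K)).2 ⟨e.symm x, hy⟩
    have key : ∀ w : (O ⊗[B] integralClosure B L) ⊗[O] integralClosure O K,
        ∃ t : O ⊗[B] integralClosure B L,
          ((TensorProduct.toIntegralClosure O (O ⊗[B] integralClosure B L) K w :
            integralClosure (O ⊗[B] integralClosure B L) ((O ⊗[B] integralClosure B L) ⊗[O] K)) :
            (O ⊗[B] integralClosure B L) ⊗[O] K) = t ⊗ₜ 1 := by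
      intro w
      induction w with
      | zero => exact ⟨0, by simp⟩
      | add x y hx hy =>
        obtain ⟨t, ht⟩ := hx
        obtain ⟨t', ht'⟩ := hy
        exact ⟨t + t', by rw [map_add, Subalgebra.coe_add, ht, ht', TensorProduct.add_tmul]⟩
      | tmul t c =>
        obtain ⟨o, ho⟩ := (IsIntegrallyClosed.isIntegral_iff (R := O) (K := K)).1 c.2
        refine ⟨o • t, ?_⟩
        have h1 : ((TensorProduct.toIntegralClosure O (O ⊗[B] integralClosure B L) K (t ⊗ₜ c) :
            integralClosure (O ⊗[B] integralClosure B L) ((O ⊗[B] integralClosure B L) ⊗[O] K)) :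
            (O ⊗[B] integralClosure B L) ⊗[O] K) = t ⊗ₜ (c : K) := rfl
        rw [h1, ← ho, Algebra.algebraMap_eq_smul_one, TensorProduct.tmul_smul,
          TensorProduct.smul_tmul']
    obtain ⟨t, ht⟩ := key w
    rw [hw] at ht
    refine ⟨t, ?_⟩
    change e (t ⊗ₜ 1) = x
    rw [← ht]
    exact e.apply_symm_apply x
  have hbij : Function.Bijective (φ.codRestrict (integralClosure O L) hrange) := by
    refine ⟨fun a b hab => ?_, fun x => ?_⟩
    · exact hinj (congrArg (fun z : integralClosure O L => (z : L)) hab)
    · obtain ⟨t, ht⟩ := hsurj x.1 x.2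
      exact ⟨t, Subtype.ext ht⟩
  exact Algebra.Etale.of_equiv (AlgEquiv.ofBijective _ hbij)

end Pool.Agent.LibHP
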