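import Pool.Agent.LibHPF.G3b
import Pool.Agent.LibHPF.G4
import Pool.Agent.LibHPF.G5
import Pool.Agent.LibHPF.G6
import Pool.Agent.LibHP.S2

/-! G7 (assembly, helper98): unramified on the charts of the hypersurface ⇒ `PresAt` at every
codimension one point of the model `X`. -/

set_option autoImplicit false
open AlgebraicGeometry CategoryTheory

namespace Pool.Agent.LibHP

theorem chartRing_le_chartRing2 {k K : Type} [Field k] [Field K] [Algebra k K] {n : ℕ}
    (F : MvPolynomial (Fin (n + 1)) k) (y : Fin (n + 1) → K) (i j : Fin (n + 1)) :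
    chartRing k y i ≤ chartRing2 F y i j :=
  Algebra.adjoin_mono Set.subset_union_left

theorem chart2_isFractionRing {k K : Type} [Field k] [Field K] [Algebra k K] {n : ℕ}
    (F : MvPolynomial (Fin (n + 1)) k) (y : Fin (n + 1) → K)
    (hy : IsHypPt F y) (i j : Fin (n + 1)) (hi : y i ≠ 0) :
    IsFractionRing (chartRing2 F y i j) K := by
  have h1 := chart_isFractionRing F y hy i hi
  refine IsFractionRing.of_field _ _ fun z => ?_
  obtain ⟨a, b, hb, rfl⟩ := IsFractionRing.div_surjective (A := chartRing k y i) z
  refine ⟨⟨a, chartRing_le_chartRing2 F y i j a.2⟩, ⟨b, chartRing_le_chartRing2 F y i j b.2⟩, ?_⟩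
  rfl

/-- An algebra structure on a subring of the fraction field. -/
theorem exists_ringHom_of_le {k K : Type} [Field k] [Field K] [Algebra k K] (B : Subalgebra k K)
    (O : Type) [CommRing O] [Algebra O K] (hinj : Function.Injective (algebraMap O K))
    (h : ∀ a ∈ B, ∃ o : O, algebraMap O K o = a) :
    ∃ φ : B →+* O, ∀ b : B, algebraMap O K (φ b) = b := by
  choose g hg using fun b : B => h b b.2
  refine ⟨{ toFun := g, map_one' := ?_, map_mul' := ?_, map_zero' := ?_, map_add' := ?_ }, hg⟩
  · apply hinj; rw [hg, map_one]; rfl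
  · intro a b; apply hinj; rw [hg, map_mul, hg, hg]; rfl
  · apply hinj; rw [hg, map_zero]; rfl
  · intro a b; apply hinj; rw [hg, map_add, hg, hg]; rfl

theorem algebraMap_toStalk {k : Type} [Field k] {X : Scheme} (f : X ⟶ Spec (CommRingCat.of k))
    [IsIntegral X] (x : X) (c : k) :
    algebraMap (X.presheaf.stalk x) X.functionField (toStalk f x c) =
      toStalk f (genericPoint X) c := by
  haveI : Nonempty (⊤ : X.Opens) := ⟨⟨x, trivial⟩⟩
  have h := X.algebraMap_germ_eq_germToFunctionField (U := ⊤) (hx := trivial) (x := x)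
    ((f.appTop).hom ((Scheme.ΓSpecIso (CommRingCat.of k)).inv.hom c))
  simpa [toStalk] using h

theorem presAt_of_unram {k : Type} [Field k] [CharZero k] {X : Scheme}
    (f : X ⟶ Spec (CommRingCat.of k)) [IsIntegral X] [Smooth f]
    [Algebra k X.functionField]
    (halg : ∀ c : k, algebraMap k X.functionField c = toStalk f (genericPoint X) c)
    {n d : ℕ} (hd : d ≠ 0)
    (F : MvPolynomial (Fin (n + 1)) k) (hF : F.IsHomogeneous d) (hsm : IsSmoothHyp F)
    (y : Fin (n + 1) → X.functionField) (hy : IsHypPt F y)
    (L : Type) [Field L] [Algebra X.functionField L] [FiniteDimensional X.functionField L]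
    (hu : ∀ i, y i ≠ 0 → ∀ P : Ideal (chartRing k y i), P.IsPrime → P.height = 1 →
      UnramAt (chartRing k y i) L P)
    (x : X) (hx : ringKrullDim (X.presheaf.stalk x) = 1) :
    PresAt (algebraMap X.functionField L) x := by
  have hdvr := isDiscreteValuationRing_stalk f x hx
  have hinj : Function.Injective (algebraMap (X.presheaf.stalk x) X.functionField) :=
    IsFractionRing.injective _ _
  obtain ⟨i, j, hij, hi, hh, hle⟩ := exists_chart hd F hF hsm y hy (X.presheaf.stalk x)
    (fun c => ⟨toStalk f x c, by
      rw [halg, algebraMap_toStalk]⟩)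
  have hfr := chart2_isFractionRing F y hy i j hi
  obtain ⟨φ, hφ⟩ := exists_ringHom_of_le (chartRing2 F y i j) (X.presheaf.stalk x) hinj hle
  letI : Algebra (chartRing2 F y i j) (X.presheaf.stalk x) := φ.toAlgebra
  have tow1 : IsScalarTower (chartRing2 F y i j) (X.presheaf.stalk x) X.functionField :=
    IsScalarTower.of_algebraMap_eq fun b => (hφ b).symm
  letI : Algebra (X.presheaf.stalk x) L := (stalkTo (algebraMap X.functionField L) x).toAlgebra
  have tow2 : IsScalarTower (X.presheaf.stalk x) X.functionField L :=
    IsScalarTower.of_algebraMap_eq fun b => rfl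
  obtain ⟨h1, h2⟩ := finEt_chart F hF y hy i j hij hi hh L (fun P => hu i hi P)
  have hcz : CharZero X.functionField :=
    charZero_of_injective_ringHom (toStalk f (genericPoint X)).injective
  have het := etale_baseChange_dvr (chartRing2 F y i j) (X.presheaf.stalk x) X.functionField L h1 h2
  intro D hD b hb
  exact isIntegral_derivation_of_etale (X.presheaf.stalk x) X.functionField L D hD b hb

end Pool.Agent.LibHP
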