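import Mathlib

/-! # Row C0: factors of a homogeneous polynomial are homogeneous

Plan. `f = g * h ≠ 0`. Let `a`, `a'` be the lowest and highest degrees of nonzero homogeneous
components of `g`, and `b`, `b'` those of `h`. The component of degree `a + b` of `f` is
`g_a * h_b ≠ 0`, the component of degree `a' + b'` is `g_{a'} * h_{b'} ≠ 0`; as `f` is homogeneous,
`a + b = a' + b'`, so `a = a'` and `b = b'` (`MvPolynomial.sum_homogeneousComponent`,
`homogeneousComponent_eq_zero`, `homogeneousComponent_isHomogeneous`; the product formula for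
components: `MvPolynomial.coeff_mul`/`homogeneousComponent` of a product as a sum over the
antidiagonal, or use the substitution `X i ↦ t X i` in `(MvPolynomial σ R)[t]`:
`f(tX) = ∑ t^d f_d`, a polynomial in `t`; it is multiplicative, and a product of two polynomials in `t`
over a domain is a monomial only if both are monomials). -/

set_option autoImplicit false
open MvPolynomial

namespace Pool.Agent.LibHP

/-- the substitution `X i ↦ t X i` -/
private noncomputable def C0_sub {R σ : Type} [CommRing R] :
    MvPolynomial σ R →ₐ[R] Polynomial (MvPolynomial σ R) :=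
  aeval fun i => Polynomial.C (X i) * Polynomial.X

private theorem C0_sub_monomial {R σ : Type} [CommRing R] (s : σ →₀ ℕ) (r : R) :
    C0_sub (monomial s r) = Polynomial.monomial s.degree (monomial s r) := by
  have h1 : C0_sub (monomial s r) = Polynomial.C (C r) *
      s.prod fun i k => (Polynomial.C (X i : MvPolynomial σ R) * Polynomial.X) ^ k :=
    aeval_monomial _ s r
  have h2 : (s.prod fun i k => (Polynomial.C (X i : MvPolynomial σ R) * Polynomial.X) ^ k) =
      Polynomial.C (s.prod fun i k => (X i : MvPolynomial σ R) ^ k) * Polynomial.X ^ s.degree := by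
    unfold Finsupp.prod
    simp only [mul_pow, Finset.prod_mul_distrib]
    rw [Finset.prod_pow_eq_pow_sum, map_prod]
    simp only [map_pow]
    rfl
  rw [h1, h2, ← mul_assoc, ← map_mul, ← monomial_eq, Polynomial.C_mul_X_pow_eq_monomial]

private theorem C0_coeff {R σ : Type} [CommRing R] (g : MvPolynomial σ R) (e : ℕ) :
    (C0_sub g).coeff e = homogeneousComponent e g := by
  induction g using MvPolynomial.induction_on' with
  | monomial s r =>
    rw [C0_sub_monomial, Polynomial.coeff_monomial,
      homogeneousComponent_of_mem (isHomogeneous_monomial r (rfl : s.degree = s.degree))]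
    split_ifs with h1 h2 h2
    · rfl
    · exact absurd h1.symm h2
    · exact absurd h2.symm h1
    · rfl
  | add p q hp hq =>
    rw [map_add, Polynomial.coeff_add, hp, hq, map_add]

private theorem C0_hom {R σ : Type} [CommRing R] (g : MvPolynomial σ R)
    (h : (C0_sub g).natTrailingDegree = (C0_sub g).natDegree) :
    g.IsHomogeneous (C0_sub g).natDegree := by
  intro s hs
  have h1 : Finsupp.weight 1 s = s.degree := by
    rw [Finsupp.degree_eq_weight_one]
    rfl
  rw [h1]
  by_contra hne
  have h2 : (C0_sub g).coeff s.degree = 0 := by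
    rcases lt_or_gt_of_ne hne with h3 | h3
    · rw [← h] at h3
      exact Polynomial.coeff_eq_zero_of_lt_natTrailingDegree h3
    · exact Polynomial.coeff_eq_zero_of_natDegree_lt h3
  rw [C0_coeff] at h2
  have h3 : coeff s (homogeneousComponent s.degree g) = 0 := by
    rw [h2, coeff_zero]
  rw [coeff_homogeneousComponent, if_pos rfl] at h3
  exact hs h3

theorem isHomogeneous_factors {R σ : Type} [CommRing R] [IsDomain R] (f g h : MvPolynomial σ R)
    (d : ℕ) (hf : f.IsHomogeneous d) (hf0 : f ≠ 0) (hfg : f = g * h) :
    ∃ a b : ℕ, g.IsHomogeneous a ∧ h.IsHomogeneous b ∧ a + b = d := by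
  have h1 : C0_sub f = Polynomial.monomial d f := by
    ext1 e
    rw [C0_coeff, Polynomial.coeff_monomial, homogeneousComponent_of_mem hf]
    split_ifs with h1 h2 h2
    · rfl
    · exact absurd h1.symm h2
    · exact absurd h2.symm h1
    · rfl
  have h2 : (C0_sub f).natDegree = d := by
    rw [h1, Polynomial.natDegree_monomial_eq d hf0]
  have h3 : (C0_sub f).natTrailingDegree = d := by
    rw [h1, Polynomial.natTrailingDegree_monomial hf0]
  have h4 : C0_sub f = C0_sub g * C0_sub h := by rw [hfg, map_mul]
  have h5 : C0_sub f ≠ 0 := by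
    rw [h1]
    exact fun h6 => hf0 ((Polynomial.monomial_eq_zero_iff _ _).1 h6)
  have hg : C0_sub g ≠ 0 := by
    intro h6
    rw [h4, h6, zero_mul] at h5
    exact h5 rfl
  have hh : C0_sub h ≠ 0 := by
    intro h6
    rw [h4, h6, mul_zero] at h5
    exact h5 rfl
  have h6 := Polynomial.natDegree_mul hg hh
  have h7 := Polynomial.natTrailingDegree_mul hg hh
  rw [← h4] at h6 h7
  have h8 := Polynomial.natTrailingDegree_le_natDegree (C0_sub g)
  have h9 := Polynomial.natTrailingDegree_le_natDegree (C0_sub h)
  exact ⟨_, _, C0_hom g (by omega), C0_hom h (by omega), by omega⟩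

end Pool.Agent.LibHP
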