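import Mathlib.RingTheory.MvPolynomial.IrreducibleQuadratic
import Pool.Agent.LibHPF.CDefs

/-! # The quadratic form `q = 2 b s1 s2 + g(t)` is prime and vanishes on the parametrisation -/

set_option autoImplicit false
open MvPolynomial

namespace Pool.Agent.LibHP

variable {Ω : Type} [Field Ω] [CharZero Ω] {m : ℕ}

omit [CharZero Ω] in
theorem c1_aeval {R : Type} [CommRing R] [Algebra Ω R] {n : ℕ} (g : MvPolynomial (Fin m) Ω)
    (hg : g.IsHomogeneous n) (c : R) (f : Fin m → R) :
    aeval (fun i => c * f i) g = c ^ n * aeval f g := by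
  rw [aeval_def, aeval_def, eval₂_eq', eval₂_eq', Finset.mul_sum]
  refine Finset.sum_congr rfl fun d hd => ?_
  have h1 : ∑ i, d i = n := by
    have h2 := hg (mem_support_iff.1 hd)
    rw [Finsupp.weight_apply, Finsupp.sum_fintype _ _ (by simp)] at h2
    simpa using h2
  simp only [mul_pow]
  rw [Finset.prod_mul_distrib, Finset.prod_pow_eq_pow_sum, h1]
  ring

theorem par_qC (b : Ω) (g : MvPolynomial (Fin m) Ω) (hg : g.IsHomogeneous 2) :
    par b g (qC b g) = 0 := by
  have h1 : par b g (rename Sum.inr g) =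
      (C (-2 * b) * X none) ^ 2 * rename some g := by
    unfold par
    rw [aeval_rename]
    have e1 : (Sum.elim ![rename some g, C (-2 * b) * X none ^ 2]
        (fun i => C (-2 * b) * X none * X (some i)) ∘ Sum.inr :
        Fin m → MvPolynomial (Option (Fin m)) Ω) =
        fun i => (C (-2 * b) * X none) * X (some i) := rfl
    have e6 : (aeval fun i : Fin m => (X (some i) : MvPolynomial (Option (Fin m)) Ω)) g =
        rename some g := by
      have e7 : (aeval fun i : Fin m => (X (some i) : MvPolynomial (Option (Fin m)) Ω)) =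
          rename some := by
        ext i
        simp
      rw [e7]
    rw [e1, c1_aeval g hg, e6]
  unfold qC
  rw [map_add, h1, map_mul, map_mul]
  have e2 : par b g (C (2 * b)) = C (2 * b) := by
    unfold par
    rw [aeval_C]
    rfl
  have e3 : par b g (X (Sum.inl 0)) = rename some g := by
    unfold par
    rw [aeval_X]
    rfl
  have e4 : par b g (X (Sum.inl 1)) = C (-2 * b) * X none ^ 2 := by
    unfold par
    rw [aeval_X]
    rfl
  rw [e2, e3, e4]
  have e5 : (C (-2 * b) : MvPolynomial (Option (Fin m)) Ω) = - C (2 * b) := by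
    rw [← C_neg]
    congr 1
    ring
  rw [e5]
  ring

theorem prime_qC (b : Ω) (hb : b ≠ 0) (g : MvPolynomial (Fin m) Ω) (hg : g.IsHomogeneous 2)
    (hgp : Prime g) : Prime (qC b g) := by
  have hb2 : (2 * b : Ω) ≠ 0 := mul_ne_zero two_ne_zero hb
  have hu : IsUnit (C (2 * b) : MvPolynomial (Fin 2 ⊕ Fin m) Ω) :=
    (isUnit_iff_ne_zero.2 hb2).map C
  have e1 : qC b g = C (2 * b) * X (Sum.inl 1) * X (Sum.inl 0) + rename Sum.inr g := by
    unfold qC
    ring
  rw [← UniqueFactorizationMonoid.irreducible_iff_prime, e1]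
  have hp : Irreducible (C (2 * b) * X (Sum.inl 1) : MvPolynomial (Fin 2 ⊕ Fin m) Ω) :=
    (irreducible_isUnit_mul hu).2 X_prime.irreducible
  refine irreducible_mul_X_add _ _ _ ?_ ?_ ?_ ?_
  · exact hp.ne_zero
  · intro h
    have h2 := vars_mul _ _ h
    rw [vars_C, vars_X, Finset.empty_union, Finset.mem_singleton] at h2
    exact absurd (Sum.inl_injective h2) (by decide)
  · intro h
    obtain ⟨i, -, hi⟩ := mem_vars_rename _ _ h
    exact absurd hi (by simp)
  · rw [hp.isRelPrime_iff_not_dvd]
    intro h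
    have h2 : (X (Sum.inl 1) : MvPolynomial (Fin 2 ⊕ Fin m) Ω) ∣ rename Sum.inr g :=
      (Dvd.intro_left _ rfl).trans h
    obtain ⟨r, hr⟩ := h2
    have h3 := congrArg (aeval (Sum.elim (fun _ => 0) X :
      Fin 2 ⊕ Fin m → MvPolynomial (Fin m) Ω)) hr
    rw [aeval_rename, map_mul, aeval_X] at h3
    have e2 : ((Sum.elim (fun _ => 0) X : Fin 2 ⊕ Fin m → MvPolynomial (Fin m) Ω) ∘ Sum.inr) =
        X := rfl
    rw [e2, Sum.elim_inl, zero_mul, aeval_X_left_apply] at h3
    exact hgp.ne_zero h3

end Pool.Agent.LibHP
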