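import Pool.Agent.LibHPF.CDefs

/-! # Row C4: the excluded shapes of `c` and `r`

`no_product`: zero lemma `exists_zero_of_lt` (Q4) with the four forms `q, l, mm, r` (degrees 2, 1, 2, 4)
in the `m + 2 ≥ 5` variables: a nonzero `v` with `q = l = mm = r = 0` at `v`, so `c = l * mm + q * V`
vanishes too, and by the Leibniz rule `∂_i c(v) = V(v) ∂_i q(v)`: the gradients are dependent
(`ρ = (V(v), -1, 0)`), against `IndepGrad`.
`no_combination`: zero lemma with `q, c` (`2 < m + 2`): at such `v ≠ 0` also `r = al * c + mu * q`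
vanishes and `∂_i r(v) = al(v) ∂_i c(v) + mu(v) ∂_i q(v)`: `ρ = (mu(v), al(v), -1)`.
`not_dvd`: `q ∣ c`, `c = q * V`: zero lemma with `q, r`: `∂_i c(v) = V(v) ∂_i q(v)`.
(`qC b g` is homogeneous of degree two: sum of `C (2b) * X * X` and `rename Sum.inr g`.) -/

set_option autoImplicit false
open MvPolynomial

namespace Pool.Agent.LibHP

variable {Ω : Type} [Field Ω] [CharZero Ω] [IsAlgClosed Ω] {m : ℕ}

theorem C4_qC_hom {Ω : Type} [Field Ω] {m : ℕ} (b : Ω) (g : MvPolynomial (Fin m) Ω)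
    (hg : g.IsHomogeneous 2) : (qC b g).IsHomogeneous 2 := by
  unfold qC
  refine IsHomogeneous.add ?_ hg.rename_isHomogeneous
  have h := ((isHomogeneous_C (Fin 2 ⊕ Fin m) (2 * b)).mul
    (isHomogeneous_X Ω (Sum.inl 0 : Fin 2 ⊕ Fin m))).mul
    (isHomogeneous_X Ω (Sum.inl 1 : Fin 2 ⊕ Fin m))
  simpa using h

theorem no_product (hm : 3 ≤ m) (b : Ω) (g : MvPolynomial (Fin m) Ω) (hg : g.IsHomogeneous 2)
    (c r : MvPolynomial (Fin 2 ⊕ Fin m) Ω) (hc : c.IsHomogeneous 3) (hr : r.IsHomogeneous 4)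
    (hB : IndepGrad (qC b g) c r) (l mm V : MvPolynomial (Fin 2 ⊕ Fin m) Ω)
    (hl : l.IsHomogeneous 1) (hmm : mm.IsHomogeneous 2) (h : c = l * mm + qC b g * V) : False := by
  obtain ⟨v, hv, hz⟩ := exists_zero_of_lt Ω (Fin 2 ⊕ Fin m) (Fin 4) (by simp; omega)
    ![qC b g, l, mm, r] ![2, 1, 2, 4] (by intro i; fin_cases i <;> simp) (by
      intro i
      fin_cases i
      · exact C4_qC_hom b g hg
      · exact hl
      · exact hmm
      · exact hr)
  have h0 : eval v (qC b g) = 0 := hz 0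
  have h1 : eval v l = 0 := hz 1
  have h2 : eval v mm = 0 := hz 2
  have h3 : eval v r = 0 := hz 3
  have h4 : eval v c = 0 := by
    rw [h, map_add, map_mul, map_mul, h0, h1, zero_mul, zero_mul, add_zero]
  have h5 := (hB v hv h0 h4 h3 (eval v V) (-1) 0 (by
    intro i
    rw [h, map_add, Derivation.leibniz, Derivation.leibniz, map_add, map_add, map_add, smul_eq_mul,
      smul_eq_mul, smul_eq_mul, smul_eq_mul, map_mul, map_mul, map_mul, map_mul, h0, h1, h2]
    ring)).2.1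
  exact neg_ne_zero.mpr one_ne_zero h5

theorem no_combination (hm : 3 ≤ m) (b : Ω) (g : MvPolynomial (Fin m) Ω)
    (hg : g.IsHomogeneous 2) (c r : MvPolynomial (Fin 2 ⊕ Fin m) Ω) (hc : c.IsHomogeneous 3)
    (hr : r.IsHomogeneous 4) (hB : IndepGrad (qC b g) c r)
    (al mu : MvPolynomial (Fin 2 ⊕ Fin m) Ω) (h : r = al * c + qC b g * mu) : False := by
  obtain ⟨v, hv, hz⟩ := exists_zero_of_lt Ω (Fin 2 ⊕ Fin m) (Fin 2) (by simp; omega)
    ![qC b g, c] ![2, 3] (by intro i; fin_cases i <;> simp) (by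
      intro i
      fin_cases i
      · exact C4_qC_hom b g hg
      · exact hc)
  have h0 : eval v (qC b g) = 0 := hz 0
  have h1 : eval v c = 0 := hz 1
  have h3 : eval v r = 0 := by
    rw [h, map_add, map_mul, map_mul, h0, h1, mul_zero, zero_mul, add_zero]
  have h5 := (hB v hv h0 h1 h3 (eval v mu) (eval v al) (-1) (by
    intro i
    rw [h, map_add, Derivation.leibniz, Derivation.leibniz, map_add, map_add, map_add, smul_eq_mul,
      smul_eq_mul, smul_eq_mul, smul_eq_mul, map_mul, map_mul, map_mul, map_mul, h0, h1]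
    ring)).2.2
  exact neg_ne_zero.mpr one_ne_zero h5

theorem not_dvd (hm : 3 ≤ m) (b : Ω) (g : MvPolynomial (Fin m) Ω) (hg : g.IsHomogeneous 2)
    (c r : MvPolynomial (Fin 2 ⊕ Fin m) Ω) (hc : c.IsHomogeneous 3) (hr : r.IsHomogeneous 4)
    (hB : IndepGrad (qC b g) c r) : ¬ qC b g ∣ c := by
  rintro ⟨V, h⟩
  obtain ⟨v, hv, hz⟩ := exists_zero_of_lt Ω (Fin 2 ⊕ Fin m) (Fin 2) (by simp; omega)
    ![qC b g, r] ![2, 4] (by intro i; fin_cases i <;> simp) (by
      intro i
      fin_cases i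
      · exact C4_qC_hom b g hg
      · exact hr)
  have h0 : eval v (qC b g) = 0 := hz 0
  have h3 : eval v r = 0 := hz 1
  have h1 : eval v c = 0 := by
    rw [h, map_mul, h0, zero_mul]
  have h5 := (hB v hv h0 h1 h3 (eval v V) (-1) 0 (by
    intro i
    rw [h, Derivation.leibniz, map_add, smul_eq_mul, smul_eq_mul, map_mul, map_mul, h0]
    ring)).2.1
  exact neg_ne_zero.mpr one_ne_zero h5

end Pool.Agent.LibHP
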