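import Pool.Agent.LibHPF.C3
import Pool.Agent.LibHPF.C4

/-! # Row C4b: `c` is not in the ideal `(s2, q)`

Plan. `exists_normal` (C3) for `c` (`not_dvd`, C4): `c = s2^l * c1 + q * V`, `c1 ∉ idC` a form of degree
`δ = 3 - l`. If `l ≥ 1` then `c = s2 * (s2^(l-1) * c1) + q V` contradicts `no_product` (degrees 1 and
`l - 1 + δ = 2`). So `l = 0`: `c = c1 + q V`, `q ∈ idC`, so `c ∉ idC`. -/

set_option autoImplicit false
open MvPolynomial

namespace Pool.Agent.LibHP

variable {Ω : Type} [Field Ω] [CharZero Ω] [IsAlgClosed Ω] {m : ℕ}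

theorem cub_not_mem (hm : 3 ≤ m) (b : Ω) (hb : b ≠ 0) (g : MvPolynomial (Fin m) Ω)
    (hg : g.IsHomogeneous 2) (hgp : Prime g) (c r : MvPolynomial (Fin 2 ⊕ Fin m) Ω)
    (hc : c.IsHomogeneous 3) (hr : r.IsHomogeneous 4) (hB : IndepGrad (qC b g) c r) :
    c ∉ idC b g := by
  obtain ⟨l, δ, c1, V, hl, hc1, hn, h⟩ := exists_normal b hb g hg hgp c 3 hc
    (not_dvd hm b g hg c r hc hr hB)
  cases l with
  | zero =>
    rw [pow_zero, one_mul] at h
    intro hmem
    apply hn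
    have hq : qC b g ∈ idC b g := Ideal.subset_span (by simp)
    have h1 : c1 = c - qC b g * V := by rw [h]; ring
    rw [h1]
    exact Ideal.sub_mem _ hmem (Ideal.mul_mem_right _ _ hq)
  | succ l =>
    exfalso
    have hm2 : (X (Sum.inl 1) ^ l * c1 : MvPolynomial (Fin 2 ⊕ Fin m) Ω).IsHomogeneous 2 := by
      have h1 := (isHomogeneous_X_pow (R := Ω) (Sum.inl 1 : Fin 2 ⊕ Fin m) l).mul hc1
      have h2 : l + δ = 2 := by omega
      rwa [h2] at h1
    refine no_product hm b g hg c r hc hr hB (X (Sum.inl 1)) (X (Sum.inl 1) ^ l * c1) V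
      (isHomogeneous_X Ω _) hm2 ?_
    rw [h, pow_succ']
    ring

end Pool.Agent.LibHP
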