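import Pool.Agent.LibHPF.C0
import Pool.Agent.LibHPF.C4b

/-! # Row C5b: the prime factor of the cubic does not divide the quartic -/

set_option autoImplicit false
open MvPolynomial

namespace Pool.Agent.LibHP

variable {Ω : Type} [Field Ω] [CharZero Ω] [IsAlgClosed Ω] {m : ℕ}

theorem C5b_par_s2_pow (b : Ω) (g : MvPolynomial (Fin m) Ω) (j : ℕ) :
    par b g (X (Sum.inl 1) ^ j) = C ((-2 * b) ^ j) * X none ^ (2 * j) := by
  rw [map_pow]
  have h : par b g (X (Sum.inl 1)) = C (-2 * b) * X none ^ 2 := by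
    simp [par]
  rw [h, mul_pow, ← C_pow, ← pow_mul]

theorem C5b_pow_hom {σ : Type} (i : σ) (a n : ℕ)
    (h : (X i ^ a : MvPolynomial σ Ω).IsHomogeneous n) : n = a := by
  have h1 : (X i ^ a : MvPolynomial σ Ω).IsHomogeneous a := isHomogeneous_X_pow i a
  exact h.inj_right h1 (pow_ne_zero _ (X_ne_zero i))

theorem cofactor_not_dvd (hm : 3 ≤ m) (b : Ω) (hb : b ≠ 0) (g : MvPolynomial (Fin m) Ω)
    (hg : g.IsHomogeneous 2) (hgp : Prime g) (c r : MvPolynomial (Fin 2 ⊕ Fin m) Ω)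
    (hc : c.IsHomogeneous 3) (hr : r.IsHomogeneous 4) (hB : IndepGrad (qC b g) c r) (a : ℕ)
    (C' : MvPolynomial (Option (Fin m)) Ω) (hC : par b g c = X none ^ a * C')
    (hy : ¬ X none ∣ C') : ¬ C' ∣ par b g r := by
  intro hdvd
  have hPc : (par b g c).IsHomogeneous 6 := par_isHomogeneous b g hg c 3 hc
  have hPr : (par b g r).IsHomogeneous 8 := par_isHomogeneous b g hg r 4 hr
  have hPc0 : par b g c ≠ 0 := fun h =>
    not_dvd hm b g hg c r hc hr hB ((par_eq_zero_iff b hb g hg hgp c).1 h)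
  have hcid := cub_not_mem hm b hb g hg hgp c r hc hr hB
  have hprime := isPrime_idC b g hgp
  have hs2 : X (Sum.inl 1) ∈ idC b g := Ideal.subset_span (by simp)
  have hq : qC b g ∈ idC b g := Ideal.subset_span (by simp)
  have key : ∀ A : MvPolynomial (Fin 2 ⊕ Fin m) Ω, par b g A = 0 → ∃ V, A = qC b g * V :=
    fun A h => (par_eq_zero_iff b hb g hg hgp A).1 h
  have hXne : ∀ j : ℕ, (X none ^ j : MvPolynomial (Option (Fin m)) Ω) ≠ 0 := fun j =>
    pow_ne_zero _ (X_ne_zero none)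
  have hb2 : (-2 * b : Ω) ≠ 0 := mul_ne_zero (by norm_num) hb
  have hcomm : ∀ x : Ω, par b g (C x) = C x := by
    intro x
    rw [← algebraMap_eq, AlgHom.commutes, algebraMap_eq]
  obtain ⟨a', n, ha', hn, hsum⟩ := isHomogeneous_factors (par b g c) (X none ^ a) C' 6 hPc hPc0 hC
  have haa : a' = a := C5b_pow_hom none a a' ha'
  subst haa
  have hC0 : C' ≠ 0 := by
    rintro rfl
    rw [mul_zero] at hC
    exact hPc0 hC
  obtain ⟨D, hD⟩ := hdvd
  by_cases hPr0 : par b g r = 0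
  · obtain ⟨mu, hmu⟩ := key r hPr0
    exact no_combination hm b g hg c r hc hr hB 0 mu (by rw [zero_mul, zero_add]; exact hmu)
  have hD0 : D ≠ 0 := by
    rintro rfl
    rw [mul_zero] at hD
    exact hPr0 hD
  obtain ⟨n', nD, hn', hnD, hsum'⟩ := isHomogeneous_factors (par b g r) C' D 8 hPr hPr0 hD
  have hnn : n' = n := hn'.inj_right hn hC0
  subst hnn
  have hXirr : Irreducible (X none : MvPolynomial (Option (Fin m)) Ω) :=
    MvPolynomial.X_prime.irreducible
  obtain ⟨f, D', hyD', hDD'⟩ := WfDvdMonoid.max_power_factor hD0 hXirr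
  obtain ⟨f', nD', hf', hnD', hsum''⟩ := isHomogeneous_factors D (X none ^ f) D' nD hnD hD0 hDD'
  have hff : f' = f := C5b_pow_hom none f f' hf'
  subst hff
  obtain ⟨δ, e, κ, D1, hκ, hδ, hD1, hD1id, hPD⟩ := exists_lift b hb g hg hgp D' nD' hnD' hyD'
  have hmain : par b g (c * D1) * X none ^ f' = C κ * X none ^ (a' + e) * par b g r := by
    rw [map_mul, hPD, hC, hD, hDD', pow_add]
    ring
  have hcD1 : c * D1 ∉ idC b g := fun h => (hprime.mem_or_mem h).elim hcid hD1id
  rcases δ with _ | _ | δ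
  · -- δ = 0
    have hf : f' = 2 * 1 + (a' + e) := by omega
    have h1 : par b g (c * D1) * X none ^ (2 * 1) = C κ * par b g r := by
      apply mul_right_cancel₀ (hXne (a' + e))
      rw [mul_assoc, ← pow_add, ← hf, hmain]
      ring
    have h2 : par b g (r - C (1 / κ * (1 / (-2 * b) ^ 1)) * (c * D1 * X (Sum.inl 1) ^ 1)) = 0 := by
      rw [map_sub, map_mul (par b g), map_mul (par b g), C5b_par_s2_pow, hcomm]
      have h3 : C (1 / κ * (1 / (-2 * b) ^ 1)) *
          (par b g (c * D1) * (C ((-2 * b) ^ 1) * X none ^ (2 * 1))) =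
          (C (1 / κ * (1 / (-2 * b) ^ 1)) * C ((-2 * b) ^ 1)) *
            (par b g (c * D1) * X none ^ (2 * 1)) := by ring
      rw [h3, h1, ← C_mul]
      have h4 : 1 / κ * (1 / (-2 * b) ^ 1) * (-2 * b) ^ 1 = 1 / κ := by
        have := pow_ne_zero 1 hb2
        field_simp
      rw [h4, ← mul_assoc, ← C_mul, one_div, inv_mul_cancel₀ hκ, map_one, one_mul, sub_self]
    obtain ⟨V, hV⟩ := key _ h2
    refine no_combination hm b g hg c r hc hr hB
      (C (1 / κ * (1 / (-2 * b) ^ 1)) * (D1 * X (Sum.inl 1) ^ 1)) V ?_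
    rw [← hV]; ring
  · -- δ = 1
    have hf : f' = a' + e := by omega
    have h1 : par b g (c * D1) = C κ * par b g r := by
      apply mul_right_cancel₀ (hXne f')
      rw [hmain, ← hf]
      ring
    have h2 : par b g (r - C κ⁻¹ * (c * D1)) = 0 := by
      rw [map_sub, map_mul (par b g), hcomm, h1, ← mul_assoc, ← C_mul, inv_mul_cancel₀ hκ, map_one,
        one_mul, sub_self]
    obtain ⟨V, hV⟩ := key _ h2
    refine no_combination hm b g hg c r hc hr hB (C κ⁻¹ * D1) V ?_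
    rw [← hV]; ring
  · -- δ ≥ 2
    have he : a' + e = 2 * (δ + 1) + f' := by omega
    have h1 : par b g (c * D1) = C κ * X none ^ (2 * (δ + 1)) * par b g r := by
      apply mul_right_cancel₀ (hXne f')
      rw [hmain, he, pow_add]
      ring
    have hCC : (C κ : MvPolynomial (Option (Fin m)) Ω) =
        C (κ / (-2 * b) ^ (δ + 1)) * C ((-2 * b) ^ (δ + 1)) := by
      rw [← C_mul, div_mul_cancel₀ _ (pow_ne_zero _ hb2)]
    have h2 : par b g (c * D1 - C (κ / (-2 * b) ^ (δ + 1)) * (X (Sum.inl 1) ^ (δ + 1) * r)) = 0 := by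
      rw [map_sub, map_mul (par b g) (C _), map_mul (par b g) (X (Sum.inl 1) ^ (δ + 1)),
        C5b_par_s2_pow, hcomm, h1, hCC]
      ring
    obtain ⟨V, hV⟩ := key _ h2
    apply hcD1
    have h5 : c * D1 = C (κ / (-2 * b) ^ (δ + 1)) * (X (Sum.inl 1) ^ δ * r) *
        X (Sum.inl 1) + qC b g * V := by
      rw [← hV]; ring
    rw [h5]
    exact Ideal.add_mem _ (Ideal.mul_mem_left _ _ hs2) (Ideal.mul_mem_right _ _ hq)

end Pool.Agent.LibHP
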