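import Pool.Agent.LibHPF.CDefs

/-! # Row C6: adapted frames -/

set_option autoImplicit false
open MvPolynomial

namespace Pool.Agent.LibHP

variable {k : Type} [Field k] [CharZero k] {n : ℕ} {φ : Tens k n}

/-- The linear map with the kernel spanned by the `u_i`. -/
noncomputable def c6map {k : Type} [Field k] {n : ℕ} (φ : Tens k n) {Ω : Type} [Field Ω]
    [Algebra k Ω] (P w w2 : Fin (n + 1) → Ω) : (Fin (n + 1) → Ω) →ₗ[Ω] (Fin 4 → Ω) :=
  LinearMap.pi ![PhiL φ P P P, PhiL φ P P w, PhiL φ P P w2, LinearMap.proj 0]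

theorem c6map_eq {k : Type} [Field k] {n : ℕ} (φ : Tens k n) {Ω : Type} [Field Ω]
    [Algebra k Ω] (P w w2 x : Fin (n + 1) → Ω) :
    c6map φ P w w2 x = ![Phi φ P P P x, Phi φ P P w x, Phi φ P P w2 x, x 0] := by
  funext j
  fin_cases j <;> rfl

theorem c6_w2 (hφ : IsSymm4 φ) (hs : Smooth4 φ) {Ω : Type} [Field Ω]
    [Algebra k Ω] (P w : Fin (n + 1) → Ω) (hP : IsGenPt φ P) (h1 : Phi φ P P P w = 0)
    (h2 : Phi φ P P w w = 0) (hw : ∀ c : Ω, w ≠ c • P) :
    ∃ w2 : Fin (n + 1) → Ω, Phi φ P P P w2 = 0 ∧ Phi φ P P w2 w2 = 0 ∧ Phi φ P P w w2 ≠ 0 := by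
  have : CharZero Ω := charZero_of_injective_algebraMap (algebraMap k Ω).injective
  have h3 : ∃ w' : Fin (n + 1) → Ω, Phi φ P P P w' = 0 ∧ Phi φ P P w w' ≠ 0 := by
    by_contra hcon
    push Not at hcon
    obtain ⟨c, hc⟩ := lemmaA' hφ hs P w hP hcon
    exact hw c hc
  obtain ⟨w', h4, h5⟩ := h3
  refine ⟨w' - (Phi φ P P w' w' / (2 * Phi φ P P w w')) • w, ?_, ?_, ?_⟩
  · rw [Phi_sub4, Phi_smul4, h4, h1]
    ring
  · rw [Phi_sub4, Phi_smul4, Phi_sub3, Phi_smul3, Phi_sub3, Phi_smul3, h2,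
      Phi_comm34 hφ P P w' w]
    field_simp
    ring
  · rw [Phi_sub4, Phi_smul4, h2, mul_zero, sub_zero]
    exact h5

theorem exists_frame (hφ : IsSymm4 φ) (hs : Smooth4 φ) (hn : 3 ≤ n) {Ω : Type} [Field Ω]
    [Algebra k Ω] (P w : Fin (n + 1) → Ω) (hP : IsGenPt φ P) (h1 : Phi φ P P P w = 0)
    (h2 : Phi φ P P w w = 0) (hw : ∀ c : Ω, w ≠ c • P) :
    ∃ (w2 : Fin (n + 1) → Ω) (u : Fin (n - 3) → Fin (n + 1) → Ω) (b : Ω),
      Frame φ P w w2 u b := by
  obtain ⟨w2, h3, h4, h5⟩ := c6_w2 hφ hs P w hP h1 h2 hw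
  obtain ⟨i, hi⟩ := phi_ne hφ hs P hP
  have hPP : Phi φ P P P P = 0 := hP.self
  have hP0 : P 0 = 1 := hP.1
  have hwP : Phi φ P P w P = 0 := by rw [← Phi_comm34 hφ, h1]
  have hw2P : Phi φ P P w2 P = 0 := by rw [← Phi_comm34 hφ, h3]
  have hw2w : Phi φ P P w2 w = Phi φ P P w w2 := Phi_comm34 hφ _ _ _ _
  -- the map is surjective
  have hsurj : Function.Surjective (c6map φ P w w2) := by
    intro y
    set e : Fin (n + 1) → Ω := Pi.single i 1 with he
    set α : Ω := y 0 / Phi φ P P P e with hα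
    set γ : Ω := (y 1 - α * Phi φ P P w e) / Phi φ P P w w2 with hγ
    set β : Ω := (y 2 - α * Phi φ P P w2 e) / Phi φ P P w w2 with hβ
    refine ⟨α • e + β • w + γ • w2 + (y 3 - (α * e 0 + β * w 0 + γ * w2 0)) • P, ?_⟩
    rw [c6map_eq]
    simp only [Phi_add4, Phi_smul4, h1, h2, h3, h4, hPP, hwP, hw2P, hw2w, Pi.add_apply,
      Pi.smul_apply, smul_eq_mul, hP0]
    funext j
    fin_cases j
    · simp only [Fin.zero_eta, Matrix.cons_val_zero, hα]
      field_simp
      ring
    · show _ = y 1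
      simp only [Fin.mk_one, Matrix.cons_val_one, Matrix.cons_val_zero, hγ]
      field_simp
      ring
    · show _ = y 2
      simp only [Fin.reduceFinMk, Matrix.cons_val, hβ]
      field_simp
      ring
    · show _ = y 3
      simp only [Fin.reduceFinMk, Matrix.cons_val]
      ring
  have hrk : Module.finrank Ω (LinearMap.ker (c6map φ P w w2)) = n - 3 := by
    have h := LinearMap.finrank_range_add_finrank_ker (c6map φ P w w2)
    rw [LinearMap.range_eq_top.mpr hsurj, finrank_top, Module.finrank_fin_fun,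
      Module.finrank_fin_fun] at h
    omega
  let bs := Module.finBasisOfFinrankEq Ω (LinearMap.ker (c6map φ P w w2)) hrk
  have hu : ∀ j, Phi φ P P P (bs j : Fin (n + 1) → Ω) = 0 ∧
      Phi φ P P w (bs j : Fin (n + 1) → Ω) = 0 ∧ Phi φ P P w2 (bs j : Fin (n + 1) → Ω) = 0 ∧
      (bs j : Fin (n + 1) → Ω) 0 = 0 := by
    intro j
    have h := (bs j).2
    rw [LinearMap.mem_ker, c6map_eq] at h
    exact ⟨congrFun h 0, congrFun h 1, congrFun h 2, congrFun h 3⟩
  refine ⟨w2, fun j => (bs j : Fin (n + 1) → Ω), Phi φ P P w w2,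
    { ne := h5, t1 := h1, t2 := h3, t3 := fun j => (hu j).1, q11 := h2, q12 := rfl, q22 := h4
      q1u := fun j => (hu j).2.1, q2u := fun j => (hu j).2.2.1, ind := ?_, span := ?_ }⟩
  · rw [Fintype.linearIndependent_iff]
    intro g hg
    rw [Fintype.sum_sum_type, Fin.sum_univ_three] at hg
    simp only [Sum.elim_inl, Sum.elim_inr, Matrix.cons_val_zero, Matrix.cons_val_one,
      Matrix.cons_val] at hg
    have hS' : ∑ j, g (Sum.inr j) • (bs j : Fin (n + 1) → Ω) ∈
        LinearMap.ker (c6map φ P w w2) :=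
      Submodule.sum_mem _ fun j _ => Submodule.smul_mem _ _ (bs j).2
    set S := ∑ j, g (Sum.inr j) • (bs j : Fin (n + 1) → Ω) with hSdef
    rw [LinearMap.mem_ker, c6map_eq] at hS'
    have s1 : Phi φ P P w S = 0 := congrFun hS' 1
    have s2 : Phi φ P P w2 S = 0 := congrFun hS' 2
    have s3 : S 0 = 0 := congrFun hS' 3
    have k1 : g (Sum.inl 2) = 0 := by
      have h := congrArg (Phi φ P P w) hg
      rw [Phi_add4, Phi_add4, Phi_add4, Phi_smul4, Phi_smul4, Phi_smul4, s1, hwP, h2,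
        Phi_zero4] at h
      simpa [h5] using h
    have k2 : g (Sum.inl 1) = 0 := by
      have h := congrArg (Phi φ P P w2) hg
      rw [Phi_add4, Phi_add4, Phi_add4, Phi_smul4, Phi_smul4, Phi_smul4, s2, hw2P, h4, hw2w,
        Phi_zero4] at h
      simpa [h5] using h
    have k3 : g (Sum.inl 0) = 0 := by
      have h := congrFun hg 0
      simpa [k1, k2, s3, hP0] using h
    rw [k1, k2, k3, zero_smul, zero_smul, zero_smul, zero_add, zero_add, zero_add, hSdef] at hg
    have k4 : ∀ j, g (Sum.inr j) = 0 := by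
      have hb := bs.linearIndependent
      rw [Fintype.linearIndependent_iff] at hb
      refine hb _ (Subtype.ext ?_)
      rw [Submodule.coe_sum]
      simpa using hg
    rintro (j | j)
    · fin_cases j
      · exact k3
      · exact k2
      · exact k1
    · exact k4 j
  · intro τ hτ
    set γ : Ω := Phi φ P P w τ / Phi φ P P w w2 with hγ
    set β : Ω := Phi φ P P w2 τ / Phi φ P P w w2 with hβ
    set x : Fin (n + 1) → Ω := τ - (β • w + γ • w2 + (τ 0 - (β * w 0 + γ * w2 0)) • P) with hx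
    have hxk : x ∈ LinearMap.ker (c6map φ P w w2) := by
      rw [LinearMap.mem_ker, c6map_eq, hx]
      simp only [Phi_sub4, Phi_add4, Phi_smul4, h1, h2, h3, h4, hPP, hwP, hw2P, hw2w, hτ,
        Pi.add_apply, Pi.sub_apply, Pi.smul_apply, smul_eq_mul, hP0]
      funext j
      fin_cases j
      · simp
      · simp only [Fin.mk_one, Matrix.cons_val_one, hγ, Pi.zero_apply, Matrix.cons_val_zero]
        field_simp
        ring
      · simp only [Fin.reduceFinMk, Matrix.cons_val, hβ, Pi.zero_apply]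
        field_simp
        ring
      · simp only [Fin.reduceFinMk, Matrix.cons_val, Pi.zero_apply]
        ring
    have hmem : ∀ z ∈ Set.range (Sum.elim ![P, w, w2] fun j => (bs j : Fin (n + 1) → Ω)),
        z ∈ Submodule.span Ω (Set.range (Sum.elim ![P, w, w2] fun j =>
          (bs j : Fin (n + 1) → Ω))) := fun z hz => Submodule.subset_span hz
    have hxs : x ∈ Submodule.span Ω (Set.range (Sum.elim ![P, w, w2] fun j =>
        (bs j : Fin (n + 1) → Ω))) := by
      have h := bs.sum_repr ⟨x, hxk⟩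
      have h' := congrArg (Subtype.val) h
      rw [← show (⟨x, hxk⟩ : LinearMap.ker (c6map φ P w w2)).val = x from rfl, ← h',
        Submodule.coe_sum]
      exact Submodule.sum_mem _ fun j _ => Submodule.smul_mem _ _ (hmem _ ⟨Sum.inr j, rfl⟩)
    have e : τ = x + (β • w + γ • w2 + (τ 0 - (β * w 0 + γ * w2 0)) • P) := by
      rw [hx, sub_add_cancel]
    rw [e]
    refine Submodule.add_mem _ hxs (Submodule.add_mem _ (Submodule.add_mem _
      (Submodule.smul_mem _ _ (hmem _ ⟨Sum.inl 1, rfl⟩))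
      (Submodule.smul_mem _ _ (hmem _ ⟨Sum.inl 2, rfl⟩)))
      (Submodule.smul_mem _ _ (hmem _ ⟨Sum.inl 0, rfl⟩)))

end Pool.Agent.LibHP
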