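import Pool.Agent.LibHPF.CDefs

/-! # Row C7: the forms in the frame: homogeneity and the shape of the quadratic form

`gC_isHomogeneous`, `cubC_isHomogeneous`, `quarC_isHomogeneous`: sums of products of constants and linear
forms (`gvec B i` is homogeneous of degree one; as in `isHomogeneous_FF` of Q0).

`quaC_frame`: expand `Phi φ P P v v` for `v = s1 w + s2 w2 + ∑ t_i u_i` by bilinearity and the orthogonality
relations of the frame (linearity over the polynomial ring; `Phi φ (C ∘ P) (C ∘ P) (C ∘ x) (C ∘ y) =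
C (Phi φ P P x y)` by `Phi_map` for `C : Ω →ₐ MvPolynomial`; `gvec (frB w w2 u) = X (inl 0) • (C ∘ w) +
X (inl 1) • (C ∘ w2) + gvec'` where `gvec'` is the image of `gvec u` under `rename Sum.inr`;
`PhiL` of Q0 is the last slot as a linear map, `Phi_eq_sum` expands it). -/

set_option autoImplicit false
open MvPolynomial

namespace Pool.Agent.LibHP

variable {k : Type} [Field k] [CharZero k] {n : ℕ} {φ : Tens k n}
variable {Ω : Type} [Field Ω] [Algebra k Ω] {m : ℕ}

omit [CharZero k] in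
/-- `Phi` of homogeneous vectors -/
theorem C7_Phi_isHomogeneous {J : Type} {da db dc dd : ℕ}
    (a b c d : Fin (n + 1) → MvPolynomial J Ω) (ha : ∀ i, (a i).IsHomogeneous da)
    (hb : ∀ i, (b i).IsHomogeneous db) (hc : ∀ i, (c i).IsHomogeneous dc)
    (hd : ∀ i, (d i).IsHomogeneous dd) :
    (Phi φ a b c d).IsHomogeneous (da + db + dc + dd) := by
  unfold Phi
  refine IsHomogeneous.sum _ _ _ fun i _ => IsHomogeneous.sum _ _ _ fun j _ =>
    IsHomogeneous.sum _ _ _ fun s _ => IsHomogeneous.sum _ _ _ fun t _ => ?_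
  have h : da + db + dc + dd = 0 + (da + db + dc + dd) := by ring
  rw [h]
  refine IsHomogeneous.mul ?_ ((((ha i).mul (hb j)).mul (hc s)).mul (hd t))
  rw [IsScalarTower.algebraMap_apply k Ω (MvPolynomial J Ω), MvPolynomial.algebraMap_eq]
  exact isHomogeneous_C _ _

omit [CharZero k] [Algebra k Ω] in
theorem C7_gvec_isHomogeneous {J : Type} [Fintype J] (B : J → Fin (n + 1) → Ω) (i : Fin (n + 1)) :
    (gvec B i).IsHomogeneous 1 := by
  unfold gvec
  refine IsHomogeneous.sum _ _ _ fun j _ => ?_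
  have h : (1 : ℕ) = 0 + 1 := rfl
  rw [h]
  exact (isHomogeneous_C _ _).mul (isHomogeneous_X _ _)

theorem gC_isHomogeneous (P : Fin (n + 1) → Ω) (u : Fin m → Fin (n + 1) → Ω) :
    (gC φ P u).IsHomogeneous 2 :=
  C7_Phi_isHomogeneous (da := 0) (db := 0) (dc := 1) (dd := 1) _ _ _ _
    (fun _ => isHomogeneous_C _ _) (fun _ => isHomogeneous_C _ _)
    (C7_gvec_isHomogeneous u) (C7_gvec_isHomogeneous u)

theorem cubC_isHomogeneous {J : Type} [Fintype J] (P : Fin (n + 1) → Ω)
    (B : J → Fin (n + 1) → Ω) : (cubC φ P B).IsHomogeneous 3 :=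
  C7_Phi_isHomogeneous (da := 0) (db := 1) (dc := 1) (dd := 1) _ _ _ _
    (fun _ => isHomogeneous_C _ _) (C7_gvec_isHomogeneous B)
    (C7_gvec_isHomogeneous B) (C7_gvec_isHomogeneous B)

theorem quarC_isHomogeneous {J : Type} [Fintype J] (B : J → Fin (n + 1) → Ω) :
    (quarC φ B).IsHomogeneous 4 :=
  C7_Phi_isHomogeneous (da := 1) (db := 1) (dc := 1) (dd := 1) _ _ _ _
    (C7_gvec_isHomogeneous B) (C7_gvec_isHomogeneous B)
    (C7_gvec_isHomogeneous B) (C7_gvec_isHomogeneous B)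

omit [CharZero k] in
/-- `Phi` of constant vectors -/
theorem C7_Phi_C {J : Type} (a b c d : Fin (n + 1) → Ω) :
    Phi φ (fun i => (C (a i) : MvPolynomial J Ω)) (fun i => C (b i)) (fun i => C (c i))
      (fun i => C (d i)) = C (Phi φ a b c d) :=
  (Phi_map φ (IsScalarTower.toAlgHom k Ω (MvPolynomial J Ω)) a b c d).symm

/-! ### Values and derivatives of the forms -/

omit [CharZero k] [Algebra k Ω] in
theorem C7_eval_gvec {J : Type} [Fintype J] (v : J → Ω) (B : J → Fin (n + 1) → Ω)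
    (i : Fin (n + 1)) : eval v (gvec B i) = (∑ j, v j • B j) i := by
  rw [gvec, map_sum, Finset.sum_apply]
  refine Finset.sum_congr rfl fun j _ => ?_
  rw [map_mul, eval_C, eval_X, Pi.smul_apply, smul_eq_mul, mul_comm]

omit [CharZero k] in
theorem C7_eval_Phi {J : Type} (v : J → Ω) (a b c d : Fin (n + 1) → MvPolynomial J Ω) :
    eval v (Phi φ a b c d) = Phi φ (fun i => eval v (a i)) (fun i => eval v (b i))
      (fun i => eval v (c i)) (fun i => eval v (d i)) := by
  refine Phi_map_ringHom φ (eval v) ?_ a b c d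
  intro c
  rw [IsScalarTower.algebraMap_apply k Ω (MvPolynomial J Ω), MvPolynomial.algebraMap_eq, eval_C]

omit [CharZero k] in
theorem C7_eval_quaC {J : Type} [Fintype J] (v : J → Ω) (P : Fin (n + 1) → Ω)
    (B : J → Fin (n + 1) → Ω) :
    eval v (quaC φ P B) = Phi φ P P (∑ j, v j • B j) (∑ j, v j • B j) := by
  rw [quaC, C7_eval_Phi]
  simp only [eval_C, C7_eval_gvec]

omit [CharZero k] in
theorem C7_eval_cubC {J : Type} [Fintype J] (v : J → Ω) (P : Fin (n + 1) → Ω)
    (B : J → Fin (n + 1) → Ω) :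
    eval v (cubC φ P B) = Phi φ P (∑ j, v j • B j) (∑ j, v j • B j) (∑ j, v j • B j) := by
  rw [cubC, C7_eval_Phi]
  simp only [eval_C, C7_eval_gvec]

omit [CharZero k] in
theorem C7_eval_quarC {J : Type} [Fintype J] (v : J → Ω)
    (B : J → Fin (n + 1) → Ω) :
    eval v (quarC φ B) = Phi φ (∑ j, v j • B j) (∑ j, v j • B j) (∑ j, v j • B j)
      (∑ j, v j • B j) := by
  rw [quarC, C7_eval_Phi]
  simp only [C7_eval_gvec]

omit [CharZero k] [Algebra k Ω] in
theorem C7_pderiv_gvec {J : Type} [Fintype J] (B : J → Fin (n + 1) → Ω) (j : J)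
    (i : Fin (n + 1)) : pderiv j (gvec B i) = C (B j i) := by
  classical
  rw [gvec, map_sum, Finset.sum_eq_single j]
  · rw [pderiv_C_mul, pderiv_X_self, mul_one]
  · intro l _ hl
    rw [pderiv_C_mul, pderiv_X_of_ne hl, mul_zero]
  · intro h
    exact absurd (Finset.mem_univ j) h

omit [CharZero k] in
theorem C7_pderiv_Phi {J : Type} (j : J) (a b c d : Fin (n + 1) → MvPolynomial J Ω) :
    pderiv j (Phi φ a b c d) = Phi φ (fun i => pderiv j (a i)) b c d +
      Phi φ a (fun i => pderiv j (b i)) c d + Phi φ a b (fun i => pderiv j (c i)) d +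
      Phi φ a b c (fun i => pderiv j (d i)) :=
  Phi_deriv φ ((pderiv j).restrictScalars k) a b c d

omit [CharZero k] in
theorem C7_Phi_zero1 {J : Type} (b c d : Fin (n + 1) → MvPolynomial J Ω) :
    Phi φ (fun _ => 0) b c d = 0 := by
  have h := Phi_smul1 φ 0 (fun _ => (0 : MvPolynomial J Ω)) b c d
  rw [zero_mul, zero_smul] at h
  exact h

omit [CharZero k] in
theorem C7_Phi_zero2 {J : Type} (a c d : Fin (n + 1) → MvPolynomial J Ω) :
    Phi φ a (fun _ => 0) c d = 0 := by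
  have h := Phi_smul2 φ 0 a (fun _ => (0 : MvPolynomial J Ω)) c d
  rw [zero_mul, zero_smul] at h
  exact h

omit [CharZero k] in
theorem C7_deriv_quaC (hφ : IsSymm4 φ) {J : Type} [Fintype J] (v : J → Ω) (P : Fin (n + 1) → Ω)
    (B : J → Fin (n + 1) → Ω) (j : J) :
    eval v (pderiv j (quaC φ P B)) = 2 * Phi φ P P (∑ j, v j • B j) (B j) := by
  rw [quaC, C7_pderiv_Phi]
  simp only [pderiv_C, C7_Phi_zero1, C7_Phi_zero2, zero_add, C7_pderiv_gvec, map_add, C7_eval_Phi,
    eval_C, C7_eval_gvec]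
  rw [Phi_comm34 hφ P P (fun i => B j i)]
  ring

omit [CharZero k] in
theorem C7_deriv_cubC (hφ : IsSymm4 φ) {J : Type} [Fintype J] (v : J → Ω) (P : Fin (n + 1) → Ω)
    (B : J → Fin (n + 1) → Ω) (j : J) :
    eval v (pderiv j (cubC φ P B)) =
      3 * Phi φ P (∑ j, v j • B j) (∑ j, v j • B j) (B j) := by
  rw [cubC, C7_pderiv_Phi]
  simp only [pderiv_C, C7_Phi_zero1, zero_add, C7_pderiv_gvec, map_add, C7_eval_Phi,
    eval_C, C7_eval_gvec]
  rw [Phi_comm23 hφ P (fun i => B j i), Phi_comm34 hφ P _ (fun i => B j i)]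
  ring

omit [CharZero k] in
theorem C7_deriv_quarC (hφ : IsSymm4 φ) {J : Type} [Fintype J] (v : J → Ω)
    (B : J → Fin (n + 1) → Ω) (j : J) :
    eval v (pderiv j (quarC φ B)) =
      4 * Phi φ (∑ j, v j • B j) (∑ j, v j • B j) (∑ j, v j • B j) (B j) := by
  rw [quarC, C7_pderiv_Phi]
  simp only [C7_pderiv_gvec, map_add, C7_eval_Phi, eval_C, C7_eval_gvec]
  rw [Phi_comm12 hφ (fun i => B j i), Phi_comm23 hφ _ (fun i => B j i),
    Phi_comm34 hφ _ _ (fun i => B j i)]
  ring

omit [CharZero k] in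
/-- linearity in the last slot -/
theorem C7_Phi_sum4 {J : Type} [Fintype J] {S : Type} [CommRing S] [Algebra k S]
    (a b c : Fin (n + 1) → S) (v : J → S) (B : J → Fin (n + 1) → S) :
    Phi φ a b c (∑ j, v j • B j) = ∑ j, v j * Phi φ a b c (B j) := by
  have h := map_sum (PhiL φ a b c) (fun j => v j • B j) Finset.univ
  simp only [PhiL_apply, Phi_smul4] at h
  exact h

theorem quaC_frame (hφ : IsSymm4 φ) (P w w2 : Fin (n + 1) → Ω) (u : Fin m → Fin (n + 1) → Ω)
    (b : Ω) (hf : Frame φ P w w2 u b) : quaC φ P (frB w w2 u) = qC b (gC φ P u) := by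
  set x : MvPolynomial (Fin 2 ⊕ Fin m) Ω := X (Sum.inl 0) with hx
  set y : MvPolynomial (Fin 2 ⊕ Fin m) Ω := X (Sum.inl 1) with hy
  set CP : Fin (n + 1) → MvPolynomial (Fin 2 ⊕ Fin m) Ω := fun i => C (P i) with hCP
  set cw : Fin (n + 1) → MvPolynomial (Fin 2 ⊕ Fin m) Ω := fun i => C (w i) with hcw
  set cw2 : Fin (n + 1) → MvPolynomial (Fin 2 ⊕ Fin m) Ω := fun i => C (w2 i) with hcw2
  set g' : Fin (n + 1) → MvPolynomial (Fin 2 ⊕ Fin m) Ω :=
    ∑ j, (X (Sum.inr j) : MvPolynomial (Fin 2 ⊕ Fin m) Ω) • (fun i => C (u j i)) with hg'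
  have hv : gvec (frB w w2 u) = x • cw + y • cw2 + g' := by
    funext i
    rw [gvec, Fintype.sum_sum_type, Fin.sum_univ_two, Pi.add_apply, Pi.add_apply, Pi.smul_apply,
      Pi.smul_apply, hg', Finset.sum_apply]
    simp only [frB, Sum.elim_inl, Sum.elim_inr, Matrix.cons_val_zero, Matrix.cons_val_one,
      Pi.smul_apply, smul_eq_mul, hcw, hcw2, hx, hy]
    congr 1
    · ring
    · refine Finset.sum_congr rfl fun j _ => by ring
  have hww : Phi φ CP CP cw cw = 0 := by
    rw [C7_Phi_C, hf.q11, map_zero]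
  have hww2 : Phi φ CP CP cw cw2 = C b := by
    rw [C7_Phi_C, hf.q12]
  have hw2w2 : Phi φ CP CP cw2 cw2 = 0 := by
    rw [C7_Phi_C, hf.q22, map_zero]
  have hw2w : Phi φ CP CP cw2 cw = C b := by
    rw [Phi_comm34 hφ, hww2]
  have hwg : Phi φ CP CP cw g' = 0 := by
    rw [hg', C7_Phi_sum4]
    refine Finset.sum_eq_zero fun j _ => ?_
    rw [C7_Phi_C, hf.q1u, map_zero, mul_zero]
  have hw2g : Phi φ CP CP cw2 g' = 0 := by
    rw [hg', C7_Phi_sum4]
    refine Finset.sum_eq_zero fun j _ => ?_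
    rw [C7_Phi_C, hf.q2u, map_zero, mul_zero]
  have hgw : Phi φ CP CP g' cw = 0 := by rw [Phi_comm34 hφ, hwg]
  have hgw2 : Phi φ CP CP g' cw2 = 0 := by rw [Phi_comm34 hφ, hw2g]
  have hgg : Phi φ CP CP g' g' = rename Sum.inr (gC φ P u) := by
    have h := Phi_map φ ((rename (R := Ω) (Sum.inr : Fin m → Fin 2 ⊕ Fin m)).restrictScalars k)
      (fun i => C (P i)) (fun i => C (P i)) (gvec u) (gvec u)
    have e1 : ∀ i, ((rename (R := Ω) (Sum.inr : Fin m → Fin 2 ⊕ Fin m)).restrictScalars k)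
        (gvec u i) = g' i := by
      intro i
      rw [hg', Finset.sum_apply]
      change rename Sum.inr (gvec u i) = _
      rw [gvec, map_sum]
      refine Finset.sum_congr rfl fun j _ => ?_
      rw [map_mul, rename_C, rename_X, Pi.smul_apply, smul_eq_mul, mul_comm]
    have e2 : ∀ i, ((rename (R := Ω) (Sum.inr : Fin m → Fin 2 ⊕ Fin m)).restrictScalars k)
        (C (P i)) = CP i := fun i => rename_C _ _
    simp only [e1, e2] at h
    exact h.symm
  rw [quaC, hv]
  simp only [Phi_add3, Phi_add4, Phi_smul3, Phi_smul4]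
  rw [hww, hww2, hw2w2, hw2w, hwg, hw2g, hgw, hgw2, hgg, qC, map_mul, map_ofNat]
  ring

end Pool.Agent.LibHP
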