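import Pool.Agent.LibHPF.C0
import Pool.Agent.LibHPF.C7

/-! # Row C7b: the form `g` is prime

Plan. `g := gC φ P u` is a nondegenerate quadratic form in `m ≥ 3` variables over `Ω`.
Gradient: `eval t (pderiv j g) = 2 * Phi φ P P (∑ t_i u_i) (u_j)` (`Phi_deriv` of Q0 for the derivation
`pderiv j`, over `k`: `(pderiv j).restrictScalars k`, and `pderiv j (gvec u i) = C (u j i)`).
Claim: no `t ≠ 0` has all these equal to `0`: `x := ∑ t_i u_i` would be orthogonal (for `Phi φ P P · ·`) to
all `u_j`, to `w`, `w2` (`q1u`, `q2u`, symmetry) and to `P` (`Phi φ P P x P = Phi φ P P P x = 0`), i.e. to all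
`τ` with `Phi φ P P P τ = 0` (`Frame.span`), so `x = c • P` by `lemmaA'` (Q6), contradiction to
`Frame.ind` and `t ≠ 0`.
`g ≠ 0` and `g` is not a unit (homogeneous of degree two, nonzero by the claim). If `g = A * B` with
nonunits, then by C0 `A`, `B` are homogeneous of degrees `a + b = 2`, degree `0` would be a unit, so both are
linear forms; two linear forms in `m ≥ 3` variables have a common zero `t ≠ 0` in `Ω^m` (linear algebra:
`LinearMap` `Ω^m → Ω^2` has a kernel, `LinearMap.exists_ne_zero_of_finrank_lt` or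
`Matrix.exists_mulVec_eq_zero_iff`-style), and by the Leibniz rule all partial derivatives of `A B` vanish
at `t`: contradiction. Irreducible elements of the UFD are prime. -/

set_option autoImplicit false
open MvPolynomial

namespace Pool.Agent.LibHP

variable {k : Type} [Field k] [CharZero k] {n : ℕ} {φ : Tens k n}
variable {Ω : Type} [Field Ω] [Algebra k Ω] {m : ℕ}

omit [CharZero k] in
/-- the frame vectors are independent modulo `P` -/
theorem C7b_ind (P w w2 : Fin (n + 1) → Ω) (u : Fin m → Fin (n + 1) → Ω) (b : Ω)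
    (hf : Frame φ P w w2 u b) (t : Fin m → Ω) (c : Ω) (h : ∑ j, t j • u j = c • P) : t = 0 := by
  have h1 := Fintype.linearIndependent_iff.mp hf.ind (Sum.elim ![-c, 0, 0] t) (by
    rw [Fintype.sum_sum_type, Fin.sum_univ_three]
    simp only [Sum.elim_inl, Sum.elim_inr, Matrix.cons_val_zero, Matrix.cons_val_one,
      Matrix.cons_val_two, Matrix.tail_cons, Matrix.head_cons, zero_smul, add_zero]
    rw [h, neg_smul, neg_add_cancel])
  funext j
  exact h1 (Sum.inr j)

/-- the gradient of `g` does not vanish -/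
theorem C7b_grad (hφ : IsSymm4 φ) (hs : Smooth4 φ) (P w w2 : Fin (n + 1) → Ω)
    (u : Fin m → Fin (n + 1) → Ω) (b : Ω) (hP : IsGenPt φ P) (hf : Frame φ P w w2 u b)
    (t : Fin m → Ω) (ht : ∀ j, eval t (pderiv j (gC φ P u)) = 0) : t = 0 := by
  have hch : CharZero Ω := charZero_of_injective_algebraMap (algebraMap k Ω).injective
  obtain ⟨x, hx⟩ : ∃ x, x = ∑ j, t j • u j := ⟨_, rfl⟩
  have h1 : ∀ j, Phi φ P P x (u j) = 0 := by
    intro j
    have h2 := ht j
    rw [gC, C7_deriv_quaC hφ, ← hx] at h2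
    exact (mul_eq_zero.mp h2).resolve_left two_ne_zero
  have hPx : Phi φ P P P x = 0 := by
    rw [hx, C7_Phi_sum4]
    exact Finset.sum_eq_zero fun j _ => by rw [hf.t3, mul_zero]
  have hwx : Phi φ P P x w = 0 := by
    rw [Phi_comm34 hφ, hx, C7_Phi_sum4]
    exact Finset.sum_eq_zero fun j _ => by rw [hf.q1u, mul_zero]
  have hw2x : Phi φ P P x w2 = 0 := by
    rw [Phi_comm34 hφ, hx, C7_Phi_sum4]
    exact Finset.sum_eq_zero fun j _ => by rw [hf.q2u, mul_zero]
  have hxP : Phi φ P P x P = 0 := by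
    rw [Phi_comm34 hφ, hPx]
  obtain ⟨c, hc⟩ := lemmaA' hφ hs P x hP (by
    intro a ha
    have h2 : Submodule.span Ω (Set.range (Sum.elim ![P, w, w2] u)) ≤
        LinearMap.ker (PhiL φ P P x) := by
      rw [Submodule.span_le]
      rintro _ ⟨i, rfl⟩
      rw [SetLike.mem_coe, LinearMap.mem_ker, PhiL_apply]
      rcases i with i | j
      · fin_cases i
        · exact hxP
        · exact hwx
        · exact hw2x
      · exact h1 j
    have h3 := h2 (hf.span a ha)
    rw [LinearMap.mem_ker, PhiL_apply] at h3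
    exact h3)
  exact C7b_ind P w w2 u b hf t c (by rw [← hx, hc])

theorem C7b_linear {A : MvPolynomial (Fin m) Ω} (hA : A.IsHomogeneous 1) :
    ∃ L : (Fin m → Ω) →ₗ[Ω] Ω, ∀ t, eval t A = L t := by
  have h0 : ∀ i, (pderiv i A).IsHomogeneous 0 := by
    intro i
    exact IsWeightedHomogeneous.pderiv hA (by simp)
  have h1 : ∀ i, pderiv i A = C ((pderiv i A).coeff 0) := by
    intro i
    rw [← totalDegree_eq_zero_iff_eq_C]
    exact (totalDegree_zero_iff_isHomogeneous _).mpr (h0 i)
  have h2 := hA.sum_X_mul_pderiv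
  rw [one_smul] at h2
  refine ⟨∑ i, ((pderiv i A).coeff 0) • LinearMap.proj i, ?_⟩
  intro t
  nth_rewrite 1 [← h2]
  rw [map_sum, LinearMap.sum_apply]
  refine Finset.sum_congr rfl fun i _ => ?_
  rw [map_mul, eval_X, h1 i, eval_C, coeff_C, if_pos rfl, LinearMap.smul_apply,
    LinearMap.proj_apply, smul_eq_mul, mul_comm]

theorem prime_gC (hφ : IsSymm4 φ) (hs : Smooth4 φ) (P w w2 : Fin (n + 1) → Ω)
    (u : Fin m → Fin (n + 1) → Ω) (b : Ω) (hP : IsGenPt φ P) (hf : Frame φ P w w2 u b)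
    (hm : 3 ≤ m) : Prime (gC φ P u) := by
  have hgrad := C7b_grad hφ hs P w w2 u b hP hf
  have hhom := gC_isHomogeneous (φ := φ) P u
  have hg0 : gC φ P u ≠ 0 := by
    intro h0
    have h1 := hgrad (fun _ => 1) (fun j => by rw [h0, map_zero, map_zero])
    exact one_ne_zero (congrFun h1 ⟨0, by omega⟩)
  have hgu : ¬ IsUnit (gC φ P u) := by
    intro hu
    rw [isUnit_iff_totalDegree_of_isReduced] at hu
    have h1 : coeff 0 (gC φ P u) = 0 := hhom.coeff_eq_zero (by simp)
    rw [h1] at hu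
    exact not_isUnit_zero hu.1
  have hdeg0 : ∀ A : MvPolynomial (Fin m) Ω, A ≠ 0 → A.IsHomogeneous 0 → IsUnit A := by
    intro A hA0 hA
    have h1 : A = C (A.coeff 0) :=
      totalDegree_eq_zero_iff_eq_C.mp ((totalDegree_zero_iff_isHomogeneous _).mpr hA)
    rw [isUnit_iff_eq_C_of_isReduced]
    refine ⟨A.coeff 0, ?_, h1⟩
    rw [isUnit_iff_ne_zero]
    intro h2
    rw [h2, map_zero] at h1
    exact hA0 h1
  refine Irreducible.prime ⟨hgu, ?_⟩
  intro A B hAB
  have hA0 : A ≠ 0 := by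
    rintro rfl
    rw [zero_mul] at hAB
    exact hg0 hAB
  have hB0 : B ≠ 0 := by
    rintro rfl
    rw [mul_zero] at hAB
    exact hg0 hAB
  obtain ⟨a, b', ha, hb', hab⟩ := isHomogeneous_factors _ A B 2 hhom hg0 hAB
  by_cases ha0 : a = 0
  · rw [ha0] at ha
    exact Or.inl (hdeg0 A hA0 ha)
  by_cases hb0 : b' = 0
  · rw [hb0] at hb'
    exact Or.inr (hdeg0 B hB0 hb')
  exfalso
  have ha1 : a = 1 := by omega
  have hb1 : b' = 1 := by omega
  rw [ha1] at ha
  rw [hb1] at hb'
  obtain ⟨L, hL⟩ := C7b_linear ha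
  obtain ⟨L', hL'⟩ := C7b_linear hb'
  have hker : LinearMap.ker (L.prod L') ≠ ⊥ := by
    apply LinearMap.ker_ne_bot_of_finrank_lt
    rw [Module.finrank_prod, Module.finrank_self, Module.finrank_fin_fun]
    omega
  obtain ⟨t, ht, ht0⟩ := (Submodule.ne_bot_iff _).mp hker
  rw [LinearMap.ker_prod, Submodule.mem_inf, LinearMap.mem_ker, LinearMap.mem_ker] at ht
  apply ht0
  apply hgrad t
  intro j
  rw [hAB, Derivation.leibniz, map_add, smul_eq_mul, smul_eq_mul, map_mul, map_mul, hL, hL', ht.1,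
    ht.2, zero_mul, zero_mul, add_zero]

end Pool.Agent.LibHP
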