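import Pool.Agent.LibHPF.C7

/-! # Row C7c: `q, c, r` in the frame have independent gradients

Plan. Let `v = (s, t) ≠ 0` be a common zero of the three forms `q = quaC φ P B` (`quaC_frame`), `c = cubC φ P B`,
`r = quarC φ B`, `B := frB w w2 u`, and `x := s1 w + s2 w2 + ∑ t_i u_i` (so `eval v` of `gvec B` is `x`;
`x` is not a multiple of `P` by `Frame.ind` and `v ≠ 0`), so `Phi φ P P P x = 0` (frame), `Phi φ P P x x = 0`,
`Phi φ P x x x = 0`, `Phi φ x x x x = 0`. Let `ρ` be a relation of the gradients. The partial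
derivatives at `v` in the direction of the frame vector `B_j` are `2 Phi φ P P x B_j`,
`3 Phi φ P x x B_j`, `4 Phi φ x x x B_j` (use `Phi_deriv` of Q0 for the derivation
`pderiv j` restricted to `k`, and `pderiv j (gvec B i) = C (B j i)`, and symmetry). So the functional
`2 ρ₁ Phi φ P P x · + 3 ρ₂ Phi φ P x x · + 4 ρ₃ Phi φ x x x ·` vanishes at the frame vectors, and at `P`
(its values there are multiples of `Phi φ P P P x = 0`, `Phi φ P P x x = 0`, `Phi φ P x x x = 0`), hence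
on the kernel of `Phi φ P P P ·` (`Frame.span`), so it is a multiple `- ρ₀ Phi φ P P P ·` of it (choose `a0` with
`Phi φ P P P a0 ≠ 0` by `phi_ne`, and decompose `a = (L a / L a0) a0 + …`), and `lemmaB`
(Q7) with `![ρ₀, 2 ρ₁, 3 ρ₂, 4 ρ₃]` gives `ρ = 0`. -/

set_option autoImplicit false
open MvPolynomial

namespace Pool.Agent.LibHP

variable {k : Type} [Field k] [CharZero k] {n : ℕ} {φ : Tens k n}
variable {Ω : Type} [Field Ω] [Algebra k Ω] {m : ℕ}

theorem indepGrad_frame (hφ : IsSymm4 φ) (hs : Smooth4 φ) (P w w2 : Fin (n + 1) → Ω)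
    (u : Fin m → Fin (n + 1) → Ω) (b : Ω) (hP : IsGenPt φ P) (hf : Frame φ P w w2 u b) :
    IndepGrad (qC b (gC φ P u)) (cubC φ P (frB w w2 u)) (quarC φ (frB w w2 u)) := by
  have hch : CharZero Ω := charZero_of_injective_algebraMap (algebraMap k Ω).injective
  intro v hv hq hc hr ρ₁ ρ₂ ρ₃ hρ
  rw [← quaC_frame hφ P w w2 u b hf] at hq hρ
  rw [C7_eval_quaC] at hq
  rw [C7_eval_cubC] at hc
  rw [C7_eval_quarC] at hr
  simp only [C7_deriv_quaC hφ, C7_deriv_cubC hφ, C7_deriv_quarC hφ] at hρ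
  have hPx : Phi φ P P P (∑ j, v j • frB w w2 u j) = 0 := by
    rw [C7_Phi_sum4]
    refine Finset.sum_eq_zero fun j _ => ?_
    rcases j with j | j
    · fin_cases j
      · exact mul_eq_zero_of_right _ hf.t1
      · exact mul_eq_zero_of_right _ hf.t2
    · exact mul_eq_zero_of_right _ (hf.t3 j)
  have hxc : ∀ c : Ω, (∑ j, v j • frB w w2 u j) ≠ c • P := by
    intro c h
    have h1 := Fintype.linearIndependent_iff.mp hf.ind
      (Sum.elim ![-c, v (Sum.inl 0), v (Sum.inl 1)] (fun j => v (Sum.inr j))) (by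
        rw [Fintype.sum_sum_type, Fin.sum_univ_two] at h
        rw [Fintype.sum_sum_type, Fin.sum_univ_three]
        simp only [frB, Sum.elim_inl, Sum.elim_inr, Matrix.cons_val_zero, Matrix.cons_val_one,
          Matrix.cons_val_two, Matrix.tail_cons, Matrix.head_cons] at h ⊢
        rw [add_assoc (-c • P), add_assoc (-c • P), h, neg_smul, neg_add_cancel])
    apply hv
    funext j
    rcases j with j | j
    · fin_cases j
      · exact h1 (Sum.inl 1)
      · exact h1 (Sum.inl 2)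
    · exact h1 (Sum.inr j)
  generalize (∑ j, v j • frB w w2 u j) = x at hq hc hr hρ hPx hxc
  -- the functional
  obtain ⟨Λ, hΛ⟩ : ∃ Λ : (Fin (n + 1) → Ω) →ₗ[Ω] Ω, ∀ a, Λ a = 2 * ρ₁ * Phi φ P P x a +
      3 * ρ₂ * Phi φ P x x a + 4 * ρ₃ * Phi φ x x x a :=
    ⟨(2 * ρ₁) • PhiL φ P P x + (3 * ρ₂) • PhiL φ P x x + (4 * ρ₃) • PhiL φ x x x, fun a => rfl⟩
  have hΛB : ∀ j, Λ (frB w w2 u j) = 0 := by
    intro j
    rw [hΛ, ← hρ j]
    ring
  have hΛP : Λ P = 0 := by
    have e1 : Phi φ P P x P = 0 := by rw [Phi_comm34 hφ, hPx]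
    have e2 : Phi φ P x x P = 0 := by rw [Phi_comm34 hφ, Phi_comm23 hφ, hq]
    have e3 : Phi φ x x x P = 0 := by rw [Phi_comm34 hφ, Phi_comm23 hφ, Phi_comm12 hφ, hc]
    rw [hΛ, e1, e2, e3]
    ring
  have hker : ∀ a, Phi φ P P P a = 0 → Λ a = 0 := by
    intro a ha
    have h2 : Submodule.span Ω (Set.range (Sum.elim ![P, w, w2] u)) ≤ LinearMap.ker Λ := by
      rw [Submodule.span_le]
      rintro _ ⟨i, rfl⟩
      rw [SetLike.mem_coe, LinearMap.mem_ker]
      rcases i with i | j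
      · fin_cases i
        · exact hΛP
        · exact hΛB (Sum.inl 0)
        · exact hΛB (Sum.inl 1)
      · exact hΛB (Sum.inr j)
    exact LinearMap.mem_ker.mp (h2 (hf.span a ha))
  obtain ⟨i, hi⟩ := phi_ne hφ hs P hP
  obtain ⟨a0, ha0⟩ : ∃ a0 : Fin (n + 1) → Ω, a0 = Pi.single i 1 := ⟨_, rfl⟩
  rw [← ha0] at hi
  have hall : ∀ a, -(Λ a0 / Phi φ P P P a0) * Phi φ P P P a + Λ a = 0 := by
    intro a
    have h1 : Phi φ P P P (a - (Phi φ P P P a / Phi φ P P P a0) • a0) = 0 := by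
      rw [Phi_sub4, Phi_smul4, div_mul_cancel₀ _ hi, sub_self]
    have h2 := hker _ h1
    rw [map_sub, map_smul, smul_eq_mul] at h2
    refine Eq.trans ?_ h2
    ring
  have hB := lemmaB hφ hs P x hP hPx hq hc hr hxc
    ![-(Λ a0 / Phi φ P P P a0), 2 * ρ₁, 3 * ρ₂, 4 * ρ₃] (by
      intro a
      have h1 := hall a
      rw [hΛ a] at h1
      simp only [Matrix.cons_val_zero, Matrix.cons_val_one, Matrix.cons_val_two,
        Matrix.cons_val_three, Matrix.tail_cons, Matrix.head_cons]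
      rw [← h1]
      ring)
  have b1 : 2 * ρ₁ = 0 := congrFun hB 1
  have b2 : 3 * ρ₂ = 0 := congrFun hB 2
  have b3 : 4 * ρ₃ = 0 := congrFun hB 3
  exact ⟨(mul_eq_zero.mp b1).resolve_left two_ne_zero,
    (mul_eq_zero.mp b2).resolve_left three_ne_zero,
    (mul_eq_zero.mp b3).resolve_left (by norm_num)⟩

end Pool.Agent.LibHP
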