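import Pool.Agent.LibHPF.C5
import Pool.Agent.LibHPF.C5b
import Pool.Agent.LibHPF.C6
import Pool.Agent.LibHPF.C7b
import Pool.Agent.LibHPF.C7c

/-! # Row C9: the prime factor of the cubic over the algebraically closed field, in the variables `z`

Plan. Choose the frame (`exists_frame`), `m = n - 3 ≥ 3`, `g := gC φ P u`, `c := cubC φ P B`,
`r := quarC φ B`, `B := frB w w2 u`. `par b g c ≠ 0` (`not_dvd` and `par_eq_zero_iff`), write it as
`y^a * C'` with `y ∤ C'`; `prime_cofactor`, `cofactor_not_dvd`.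
Linear change of variables: `J := Option (Fin 3 ⊕ Fin m)` and the vectors `e, P, w, w2, u_i`: a basis of
`Fin (n+1) → Ω`. So `Θ : MvPolynomial (Fin (n+1)) Ω ≃ₐ MvPolynomial J Ω`, `X i ↦ ∑ j, C (BB j i) * X j`, is
an isomorphism. Under `Θ` the generic vector becomes `z = z0 e + x1 P + x2 w + y w2 + ∑ t_i u_i`, and the
stereographic vector is `ε^2 • (v0 - 2 b y x1 P)`, where `v0` is the image of the frame vector under
`par`. -/

set_option autoImplicit false
open MvPolynomial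

namespace Pool.Agent.LibHP

/-! ### Multilinear computation over a ring -/

section Comp
variable {k : Type} [Field k] {n : ℕ} {φ : Tens k n} {R : Type} [CommRing R] [Algebra k R]

/-- The relations of the frame over a ring. -/
structure C9F (φ : Tens k n) (P e w w2 T : Fin (n + 1) → R) (b G ε : R) : Prop where
  p0 : Phi φ P P P P = 0
  pe : Phi φ P P P e = ε
  p1 : Phi φ P P P w = 0
  p2 : Phi φ P P P w2 = 0
  pT : Phi φ P P P T = 0
  q11 : Phi φ P P w w = 0
  q12 : Phi φ P P w w2 = b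
  q22 : Phi φ P P w2 w2 = 0
  q1T : Phi φ P P w T = 0
  q2T : Phi φ P P w2 T = 0
  qTT : Phi φ P P T T = G

variable {P e w w2 T : Fin (n + 1) → R} {b G ε : R}

theorem C9F.tau (h : C9F φ P e w w2 T b G ε) (z x1 x2 y : R) :
    prj φ P e (z • e + (x1 • P + x2 • w + y • w2) + T) = ε • (x1 • P + x2 • w + y • w2 + T) := by
  have h1 : Phi φ P P P (z • e + (x1 • P + x2 • w + y • w2) + T) = z * ε := by
    simp only [Phi_add4, Phi_smul4, h.p0, h.pe, h.p1, h.p2, h.pT]
    ring
  rw [prj, h1, h.pe]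
  module

theorem C9F.lin (hφ : IsSymm4 φ) (h : C9F φ P e w w2 T b G ε) (x1 x2 y : R) :
    Phi φ P P w (x1 • P + x2 • w + y • w2 + T) = b * y := by
  have e1 : Phi φ P P w P = 0 := by rw [Phi_comm34 hφ, h.p1]
  simp only [Phi_add4, Phi_smul4, e1, h.q11, h.q12, h.q1T]
  ring

theorem C9F.qtau (hφ : IsSymm4 φ) (h : C9F φ P e w w2 T b G ε) (x1 x2 y : R) :
    Phi φ P P (x1 • P + x2 • w + y • w2 + T) (x1 • P + x2 • w + y • w2 + T) =
      2 * b * x2 * y + G := by
  have e1 : Phi φ P P w P = 0 := by rw [Phi_comm34 hφ, h.p1]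
  have e2 : Phi φ P P w2 P = 0 := by rw [Phi_comm34 hφ, h.p2]
  have e3 : Phi φ P P T P = 0 := by rw [Phi_comm34 hφ, h.pT]
  have e4 : Phi φ P P w2 w = b := by rw [Phi_comm34 hφ, h.q12]
  have e5 : Phi φ P P T w = 0 := by rw [Phi_comm34 hφ, h.q1T]
  have e6 : Phi φ P P T w2 = 0 := by rw [Phi_comm34 hφ, h.q2T]
  simp only [Phi_add4, Phi_smul4, Phi_add3, Phi_smul3, e1, e2, e3, e4, e5, e6, h.p0, h.p1, h.p2,
    h.pT, h.q11, h.q12, h.q22, h.q1T, h.q2T, h.qTT]
  ring

/-- The stereographic vector. -/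
theorem C9F.st_eq (hφ : IsSymm4 φ) (h : C9F φ P e w w2 T b G ε) (z x1 x2 y : R) :
    st φ P w (prj φ P e (z • e + (x1 • P + x2 • w + y • w2) + T)) =
      ε ^ 2 • ((G • w + (-2 * b * y ^ 2) • w2 + (-2 * b * y) • T) + (-2 * b * y * x1) • P) := by
  rw [h.tau, st, Phi_smul3, Phi_smul4, h.qtau hφ, Phi_smul4, h.lin hφ]
  module

theorem C9F.v1 (h : C9F φ P e w w2 T b G ε) (y : R) :
    Phi φ P P P (G • w + (-2 * b * y ^ 2) • w2 + (-2 * b * y) • T) = 0 := by
  simp only [Phi_add4, Phi_smul4, h.p1, h.p2, h.pT]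
  ring

theorem C9F.v2 (hφ : IsSymm4 φ) (h : C9F φ P e w w2 T b G ε) (y : R) :
    Phi φ P P (G • w + (-2 * b * y ^ 2) • w2 + (-2 * b * y) • T)
      (G • w + (-2 * b * y ^ 2) • w2 + (-2 * b * y) • T) = 0 := by
  have e4 : Phi φ P P w2 w = b := by rw [Phi_comm34 hφ, h.q12]
  have e5 : Phi φ P P T w = 0 := by rw [Phi_comm34 hφ, h.q1T]
  have e6 : Phi φ P P T w2 = 0 := by rw [Phi_comm34 hφ, h.q2T]
  simp only [Phi_add4, Phi_smul4, Phi_add3, Phi_smul3, e4, e5, e6, h.q11, h.q12, h.q22, h.q1T,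
    h.q2T, h.qTT]
  ring

theorem C9_cub (hφ : IsSymm4 φ) (P v : Fin (n + 1) → R) (h0 : Phi φ P P P P = 0)
    (h1 : Phi φ P P P v = 0) (h2 : Phi φ P P v v = 0) (s l : R) :
    Phi φ P (s • (v + l • P)) (s • (v + l • P)) (s • (v + l • P)) = s ^ 3 * Phi φ P v v v := by
  have e1 : Phi φ P P v P = Phi φ P P P v := Phi_comm34 hφ _ _ _ _
  have e2 : Phi φ P v P P = Phi φ P P P v := by rw [Phi_comm23 hφ P v P P, e1]
  have e4 : Phi φ P v P v = Phi φ P P v v := Phi_comm23 hφ _ _ _ _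
  have e5 : Phi φ P v v P = Phi φ P P v v := by rw [Phi_comm34 hφ P v v P, e4]
  simp only [Phi_smul2, Phi_smul3, Phi_smul4, Phi_add2, Phi_add3, Phi_add4, e1, e2, e4, e5, h0, h1,
    h2]
  ring

theorem C9_quar (hφ : IsSymm4 φ) (P v : Fin (n + 1) → R) (h0 : Phi φ P P P P = 0)
    (h1 : Phi φ P P P v = 0) (h2 : Phi φ P P v v = 0) (s l : R) :
    Phi φ (s • (v + l • P)) (s • (v + l • P)) (s • (v + l • P)) (s • (v + l • P)) =
      s ^ 4 * (Phi φ v v v v + 4 * l * Phi φ P v v v) := by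
  have e1 : Phi φ P P v P = Phi φ P P P v := Phi_comm34 hφ _ _ _ _
  have e2 : Phi φ P v P P = Phi φ P P P v := by rw [Phi_comm23 hφ P v P P, e1]
  have e3 : Phi φ v P P P = Phi φ P P P v := by rw [Phi_comm12 hφ v P P P, e2]
  have e4 : Phi φ P v P v = Phi φ P P v v := Phi_comm23 hφ _ _ _ _
  have e5 : Phi φ P v v P = Phi φ P P v v := by rw [Phi_comm34 hφ P v v P, e4]
  have e6 : Phi φ v P P v = Phi φ P P v v := by rw [Phi_comm12 hφ v P P v, e4]
  have e7 : Phi φ v P v P = Phi φ P P v v := by rw [Phi_comm12 hφ v P v P, e5]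
  have e8 : Phi φ v v P P = Phi φ P P v v := by rw [Phi_comm23 hφ v v P P, e7]
  have e9 : Phi φ v P v v = Phi φ P v v v := Phi_comm12 hφ _ _ _ _
  have e10 : Phi φ v v P v = Phi φ P v v v := by rw [Phi_comm23 hφ v v P v, e9]
  have e11 : Phi φ v v v P = Phi φ P v v v := by rw [Phi_comm34 hφ v v v P, e10]
  simp only [Phi_smul1, Phi_smul2, Phi_smul3, Phi_smul4, Phi_add1, Phi_add2, Phi_add3, Phi_add4,
    e1, e2, e3, e4, e5, e6, e7, e8, e9, e10, e11, h0, h1, h2]
  ring

end Comp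

/-! ### The linear change of variables -/

section Change
variable {Ω : Type} [Field Ω] {n : ℕ} {J : Type} [Fintype J]

/-- The isomorphism attached to a basis. -/
theorem C9_iso (BB : Module.Basis J Ω (Fin (n + 1) → Ω)) :
    ∃ Θ : MvPolynomial (Fin (n + 1)) Ω ≃ₐ[Ω] MvPolynomial J Ω,
      ∀ i, Θ (X i) = gvec (fun j => BB j) i := by
  classical
  let f : MvPolynomial (Fin (n + 1)) Ω →ₐ[Ω] MvPolynomial J Ω := aeval (gvec fun j => BB j)
  let g : MvPolynomial J Ω →ₐ[Ω] MvPolynomial (Fin (n + 1)) Ω :=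
    aeval fun j => ∑ i, C (BB.repr (Pi.single i 1) j) * X i
  have hfX : ∀ i, f (X i) = gvec (fun j => BB j) i := fun i => aeval_X _ _
  have hgX : ∀ j, g (X j) = ∑ i, C (BB.repr (Pi.single i 1) j) * X i := fun j => aeval_X _ _
  have hfg : f.comp g = AlgHom.id Ω _ := by
    apply MvPolynomial.algHom_ext
    intro j
    rw [AlgHom.comp_apply, hgX, map_sum, AlgHom.id_apply]
    have h1 : ∀ i, f (C (BB.repr (Pi.single i 1) j) * X i) =
        ∑ j', C (BB.repr (Pi.single i 1) j * BB j' i) * X j' := by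
      intro i
      rw [map_mul, hfX, gvec, Finset.mul_sum, algHom_C, algebraMap_eq]
      refine Finset.sum_congr rfl fun j' _ => ?_
      rw [C_mul, mul_assoc]
    simp only [h1]
    rw [Finset.sum_comm]
    have h2 : ∀ j', ∑ i, (C (BB.repr (Pi.single i 1) j * BB j' i) * X j' : MvPolynomial J Ω) =
        C (BB.repr (BB j') j) * X j' := by
      intro j'
      rw [← Finset.sum_mul, ← map_sum]
      congr 2
      conv_rhs => rw [show BB j' = ∑ i, (BB j' i) • (Pi.single i 1 : Fin (n + 1) → Ω) from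
        (pi_eq_sum_univ' (BB j'))]
      rw [map_sum, Finsupp.finsetSum_apply]
      refine Finset.sum_congr rfl fun i _ => ?_
      rw [map_smul, Finsupp.smul_apply, smul_eq_mul, mul_comm]
    simp only [h2]
    rw [Finset.sum_eq_single j]
    · rw [BB.repr_self, Finsupp.single_eq_same, C_1, one_mul]
    · intro j' _ hj
      rw [BB.repr_self, Finsupp.single_eq_of_ne (by exact fun h => hj h.symm), C_0, zero_mul]
    · intro h
      exact absurd (Finset.mem_univ j) h
  have hgf : g.comp f = AlgHom.id Ω _ := by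
    apply MvPolynomial.algHom_ext
    intro i
    rw [AlgHom.comp_apply, hfX, gvec, map_sum, AlgHom.id_apply]
    have h1 : ∀ j, g (C (BB j i) * X j) =
        ∑ i', C (BB.repr (Pi.single i' 1) j * BB j i) * X i' := by
      intro j
      rw [map_mul, hgX, Finset.mul_sum, algHom_C, algebraMap_eq]
      refine Finset.sum_congr rfl fun i' _ => ?_
      rw [C_mul]
      ring
    simp only [h1]
    rw [Finset.sum_comm]
    have h2 : ∀ i', ∑ j, (C (BB.repr (Pi.single i' 1) j * BB j i) * X i' :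
        MvPolynomial (Fin (n + 1)) Ω) = C ((Pi.single i' 1 : Fin (n + 1) → Ω) i) * X i' := by
      intro i'
      rw [← Finset.sum_mul, ← map_sum]
      congr 2
      have h3 := congrFun (BB.sum_repr (Pi.single i' 1)) i
      rw [← h3, Finset.sum_apply]
      rfl
    simp only [h2]
    rw [Finset.sum_eq_single i]
    · rw [Pi.single_eq_same, C_1, one_mul]
    · intro i' _ hi
      rw [Pi.single_eq_of_ne (by exact fun h => hi h.symm), C_0, zero_mul]
    · intro h
      exact absurd (Finset.mem_univ i) h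
  exact ⟨AlgEquiv.ofAlgHom f g hfg hgf, hfX⟩

theorem C9_prime_rename {σ τ : Type} (f : σ → τ) (hf : Function.Injective f)
    (p : MvPolynomial σ Ω) (hp : Prime p) : Prime (rename f p) := by
  have h1 : rename f p = rename ((↑) : Set.range f → τ) (renameEquiv Ω (Equiv.ofInjective f hf) p) := by
    rw [renameEquiv_apply, rename_rename]
    rfl
  rw [h1, prime_rename_iff]
  exact (MulEquiv.prime_iff (renameEquiv Ω (Equiv.ofInjective f hf))).2 hp

end Change

variable {k : Type} [Field k] [CharZero k] {n : ℕ} {φ : Tens k n}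

/-- The position of the variables of `par` among the coordinates of the basis. -/
def C9i (m : ℕ) (o : Option (Fin m)) : Option (Fin 3 ⊕ Fin m) := some (o.elim (Sum.inl 2) Sum.inr)

theorem C9i_inj (m : ℕ) : Function.Injective (C9i m) := by
  intro a b h
  have h1 := Option.some_injective _ h
  cases a <;> cases b <;> simp_all

section Vec
variable {Ω : Type} [Field Ω] [Algebra k Ω] {m : ℕ}

theorem C9_C {J : Type} (a b c d : Fin (n + 1) → Ω) :
    Phi φ (fun i => (C (a i) : MvPolynomial J Ω)) (fun i => C (b i)) (fun i => C (c i))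
      (fun i => C (d i)) = C (Phi φ a b c d) :=
  (Phi_map_ringHom φ (C : Ω →+* MvPolynomial J Ω) (fun _ => rfl) a b c d).symm

/-- The vector `T` of the last coordinates. -/
noncomputable def C9T (u : Fin m → Fin (n + 1) → Ω) :
    Fin (n + 1) → MvPolynomial (Option (Fin 3 ⊕ Fin m)) Ω :=
  fun i => ∑ j, C (u j i) * X (some (Sum.inr j))

theorem C9T_eq (u : Fin m → Fin (n + 1) → Ω) : C9T u =
    ∑ j, (X (some (Sum.inr j)) : MvPolynomial (Option (Fin 3 ⊕ Fin m)) Ω) •
      (fun i => (C (u j i) : MvPolynomial (Option (Fin 3 ⊕ Fin m)) Ω)) := by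
  funext i
  rw [Finset.sum_apply]
  refine Finset.sum_congr rfl fun j _ => ?_
  rw [Pi.smul_apply, smul_eq_mul, mul_comm]

theorem C9_PT (u : Fin m → Fin (n + 1) → Ω) (a b c : Fin (n + 1) → Ω)
    (h : ∀ j, Phi φ a b c (u j) = 0) :
    Phi φ (fun i => (C (a i) : MvPolynomial (Option (Fin 3 ⊕ Fin m)) Ω)) (fun i => C (b i))
      (fun i => C (c i)) (C9T u) = 0 := by
  change PhiL φ _ _ _ (C9T u) = 0
  rw [C9T_eq, map_sum]
  refine Finset.sum_eq_zero fun j _ => ?_
  rw [map_smul, PhiL_apply, C9_C, h, C_0, smul_zero]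

theorem C9_rel (P e w w2 : Fin (n + 1) → Ω) (u : Fin m → Fin (n + 1) → Ω)
    (b : Ω) (hP : Phi φ P P P P = 0) (hf : Frame φ P w w2 u b) :
    C9F φ (fun i => (C (P i) : MvPolynomial (Option (Fin 3 ⊕ Fin m)) Ω)) (fun i => C (e i))
      (fun i => C (w i)) (fun i => C (w2 i)) (C9T u) (C b)
      (rename (fun i => C9i m (some i)) (gC φ P u)) (C (Phi φ P P P e)) where
  p0 := by rw [C9_C, hP, C_0]
  pe := C9_C _ _ _ _
  p1 := by rw [C9_C, hf.t1, C_0]
  p2 := by rw [C9_C, hf.t2, C_0]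
  pT := C9_PT u P P P hf.t3
  q11 := by rw [C9_C, hf.q11, C_0]
  q12 := by rw [C9_C, hf.q12]
  q22 := by rw [C9_C, hf.q22, C_0]
  q1T := C9_PT u P P w hf.q1u
  q2T := C9_PT u P P w2 hf.q2u
  qTT := by
    have h := Phi_map φ (((rename (fun i => C9i m (some i))) :
      MvPolynomial (Fin m) Ω →ₐ[Ω] MvPolynomial (Option (Fin 3 ⊕ Fin m)) Ω).restrictScalars k)
      (fun i => C (P i)) (fun i => C (P i)) (gvec u) (gvec u)
    rw [gC, quaC]
    refine Eq.symm (Eq.trans h ?_)
    simp only [AlgHom.coe_restrictScalars', rename_C]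
    have h2 : (fun i => rename (fun i => C9i m (some i)) (gvec u i)) = C9T u := by
      funext i
      simp only [gvec, C9T, map_sum, map_mul, rename_C, rename_X]
      rfl
    rw [h2]

/-- The map `par`, followed by the renaming. -/
noncomputable def C9m (b : Ω) (g : MvPolynomial (Fin m) Ω) :
    MvPolynomial (Fin 2 ⊕ Fin m) Ω →ₐ[Ω] MvPolynomial (Option (Fin 3 ⊕ Fin m)) Ω :=
  (rename (C9i m)).comp (par b g)

theorem C9m_C (b : Ω) (g : MvPolynomial (Fin m) Ω) (r : Ω) : C9m b g (C r) = C r :=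
  algHom_C (C9m b g) r

theorem C9m_X0 (b : Ω) (g : MvPolynomial (Fin m) Ω) :
    C9m b g (X (Sum.inl 0)) = rename (fun i => C9i m (some i)) g := by
  rw [C9m, AlgHom.comp_apply, par, aeval_X, Sum.elim_inl, Matrix.cons_val_zero, rename_rename]
  rfl

theorem C9_two (b : Ω) : (C (-2 * b) : MvPolynomial (Option (Fin 3 ⊕ Fin m)) Ω) = -2 * C b := by
  rw [C_mul, C_neg, show (C (2 : Ω) : MvPolynomial (Option (Fin 3 ⊕ Fin m)) Ω) = 2 from
    map_ofNat C 2]

theorem C9m_X1 (b : Ω) (g : MvPolynomial (Fin m) Ω) :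
    C9m b g (X (Sum.inl 1)) = -2 * C b * X (some (Sum.inl 2)) ^ 2 := by
  rw [C9m, AlgHom.comp_apply, par, aeval_X, Sum.elim_inl]
  change rename (C9i m) (C (-2 * b) * X none ^ 2) = _
  rw [map_mul, rename_C, map_pow, rename_X, C9_two]
  rfl

theorem C9m_X2 (b : Ω) (g : MvPolynomial (Fin m) Ω) (j : Fin m) :
    C9m b g (X (Sum.inr j)) = -2 * C b * X (some (Sum.inl 2)) * X (some (Sum.inr j)) := by
  rw [C9m, AlgHom.comp_apply, par, aeval_X, Sum.elim_inr, map_mul, map_mul, rename_C,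
    rename_X, rename_X, C9_two]
  rfl

theorem C9m_gvec (b : Ω) (g : MvPolynomial (Fin m) Ω) (w w2 : Fin (n + 1) → Ω)
    (u : Fin m → Fin (n + 1) → Ω) :
    (fun i => C9m b g (gvec (frB w w2 u) i)) =
      (rename (fun i => C9i m (some i)) g : MvPolynomial (Option (Fin 3 ⊕ Fin m)) Ω) •
          (fun i => (C (w i) : MvPolynomial (Option (Fin 3 ⊕ Fin m)) Ω)) +
        (-2 * C b * X (some (Sum.inl 2)) ^ 2 : MvPolynomial (Option (Fin 3 ⊕ Fin m)) Ω) •
          (fun i => (C (w2 i) : MvPolynomial (Option (Fin 3 ⊕ Fin m)) Ω)) +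
        (-2 * C b * X (some (Sum.inl 2)) : MvPolynomial (Option (Fin 3 ⊕ Fin m)) Ω) •
          C9T u := by
  funext i
  simp only [gvec, frB, map_sum, map_mul, Fintype.sum_sum_type, map_add,
    Fin.sum_univ_two, Sum.elim_inl, Sum.elim_inr, Pi.add_apply, Pi.smul_apply,
    smul_eq_mul, C9T, C9m_C, C9m_X0, C9m_X1, C9m_X2,
    Matrix.cons_val_zero, Matrix.cons_val_one, Finset.mul_sum]
  congr 1
  · ring
  · refine Finset.sum_congr rfl fun j _ => ?_
    ring

/-- The coordinates of the generic vector in the basis. -/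
theorem C9_gvec (P e w w2 : Fin (n + 1) → Ω) (u : Fin m → Fin (n + 1) → Ω) :
    gvec (fun o : Option (Fin 3 ⊕ Fin m) => Option.casesOn' o e (Sum.elim ![P, w, w2] u)) =
      (X none : MvPolynomial (Option (Fin 3 ⊕ Fin m)) Ω) •
          (fun i => (C (e i) : MvPolynomial (Option (Fin 3 ⊕ Fin m)) Ω)) +
        ((X (some (Sum.inl 0)) : MvPolynomial (Option (Fin 3 ⊕ Fin m)) Ω) •
            (fun i => (C (P i) : MvPolynomial (Option (Fin 3 ⊕ Fin m)) Ω)) +
          (X (some (Sum.inl 1)) : MvPolynomial (Option (Fin 3 ⊕ Fin m)) Ω) •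
            (fun i => (C (w i) : MvPolynomial (Option (Fin 3 ⊕ Fin m)) Ω)) +
          (X (some (Sum.inl 2)) : MvPolynomial (Option (Fin 3 ⊕ Fin m)) Ω) •
            (fun i => (C (w2 i) : MvPolynomial (Option (Fin 3 ⊕ Fin m)) Ω))) + C9T u := by
  funext i
  simp only [gvec, Fintype.sum_option, Fintype.sum_sum_type, Fin.sum_univ_three,
    Option.casesOn'_none, Option.casesOn'_some, Sum.elim_inl, Sum.elim_inr, Pi.add_apply,
    Pi.smul_apply, smul_eq_mul, C9T, Matrix.cons_val_zero, Matrix.cons_val_one, Matrix.cons_val]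
  ring

end Vec

theorem exists_prime_closed (hφ : IsSymm4 φ) (hs : Smooth4 φ) (hn : 6 ≤ n) {Ω : Type} [Field Ω]
    [IsAlgClosed Ω] [Algebra k Ω] (P e w : Fin (n + 1) → Ω) (hP : IsGenPt φ P)
    (he : Phi φ P P P e ≠ 0) (h1 : Phi φ P P P w = 0) (h2 : Phi φ P P w w = 0)
    (hw : ∀ c : Ω, w ≠ c • P) :
    ∃ (a : ℕ) (κ : Ω) (β : MvPolynomial (Fin (n + 1)) Ω), κ ≠ 0 ∧ Prime β ∧
      linM φ P e w ≠ 0 ∧ gamM φ P e w = C κ * linM φ P e w ^ a * β ∧ ¬ β ∣ rhoM φ P e w := by
  haveI : CharZero Ω := charZero_of_injective_algebraMap (algebraMap k Ω).injective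
  obtain ⟨w2, u, b, hf⟩ := exists_frame hφ hs (by omega) P w hP h1 h2 hw
  have hm : 3 ≤ n - 3 := by omega
  have hg := gC_isHomogeneous (φ := φ) P u
  have hgp := prime_gC hφ hs P w w2 u b hP hf hm
  have hc := cubC_isHomogeneous (φ := φ) P (frB w w2 u)
  have hr := quarC_isHomogeneous (φ := φ) (frB w w2 u)
  have hB := indepGrad_frame hφ hs P w w2 u b hP hf
  have hpar : par b (gC φ P u) (cubC φ P (frB w w2 u)) ≠ 0 := by
    rw [Ne, par_eq_zero_iff b hf.ne _ hg hgp]
    exact not_dvd hm b _ hg _ _ hc hr hB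
  obtain ⟨C', hC, hy⟩ := (FiniteMultiplicity.of_prime_left
    (X_prime (i := (none : Option (Fin (n - 3)))) (R := Ω)) hpar).exists_eq_pow_mul_and_not_dvd
  obtain ⟨a, ha⟩ : ∃ a, a = multiplicity (X (none : Option (Fin (n - 3))) :
    MvPolynomial (Option (Fin (n - 3))) Ω) (par b (gC φ P u) (cubC φ P (frB w w2 u))) := ⟨_, rfl⟩
  rw [← ha] at hC
  have hCp := prime_cofactor hm b hf.ne _ hg hgp _ _ hc hr hB a C' hC hy
  have hCr := cofactor_not_dvd hm b hf.ne _ hg hgp _ _ hc hr hB a C' hC hy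
  have hli : LinearIndependent Ω (fun o : Option (Fin 3 ⊕ Fin (n - 3)) =>
      Option.casesOn' o e (Sum.elim ![P, w, w2] u)) := by
    rw [linearIndependent_option']
    refine ⟨hf.ind, fun hmem => he ?_⟩
    have hle : Submodule.span Ω (Set.range (Sum.elim ![P, w, w2] u)) ≤
        LinearMap.ker (PhiL φ P P P) := by
      rw [Submodule.span_le]
      rintro _ ⟨j, rfl⟩
      rcases j with j | j
      · fin_cases j
        · exact hP.self
        · exact hf.t1
        · exact hf.t2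
      · exact hf.t3 j
    exact hle hmem
  have hcard : Fintype.card (Option (Fin 3 ⊕ Fin (n - 3))) =
      Module.finrank Ω (Fin (n + 1) → Ω) := by
    rw [Fintype.card_option, Fintype.card_sum, Fintype.card_fin, Fintype.card_fin,
      Module.finrank_fintype_fun_eq_card, Fintype.card_fin]
    omega
  obtain ⟨Θ, hΘ⟩ := C9_iso (basisOfLinearIndependentOfCardEqFinrank hli hcard)
  have hZ : (fun i => Θ (X i)) = gvec (fun o : Option (Fin 3 ⊕ Fin (n - 3)) =>
      Option.casesOn' o e (Sum.elim ![P, w, w2] u)) := by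
    funext i
    rw [hΘ]
    congr 1
    funext j
    rw [coe_basisOfLinearIndependentOfCardEqFinrank]
  have R := C9_rel P e w w2 u b hP.self hf
  let Θk : MvPolynomial (Fin (n + 1)) Ω →ₐ[k] MvPolynomial (Option (Fin 3 ⊕ Fin (n - 3))) Ω :=
    (Θ : MvPolynomial (Fin (n + 1)) Ω →ₐ[Ω] _).restrictScalars k
  have hΘC : ∀ c, Θk (C c) = C c := fun c => Θ.commutes c
  have hΘX : (fun i => Θk (X i)) = gvec (fun o : Option (Fin 3 ⊕ Fin (n - 3)) =>
      Option.casesOn' o e (Sum.elim ![P, w, w2] u)) := hZ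
  have hv : (fun i => Θk (vM φ P e w i)) =
      (C (Phi φ P P P e) ^ 2 : MvPolynomial (Option (Fin 3 ⊕ Fin (n - 3))) Ω) •
        ((fun i => C9m b (gC φ P u) (gvec (frB w w2 u) i)) +
          (-2 * C b * X (some (Sum.inl 2)) * X (some (Sum.inl 0)) :
            MvPolynomial (Option (Fin 3 ⊕ Fin (n - 3))) Ω) •
          (fun i => (C (P i) : MvPolynomial (Option (Fin 3 ⊕ Fin (n - 3))) Ω))) := by
    have h3 : (fun i => Θk (vM φ P e w i)) = st φ (fun i => C (P i)) (fun i => C (w i))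
        (prj φ (fun i => C (P i)) (fun i => C (e i)) (fun i => Θk (X i))) := by
      funext i
      rw [vM, st_map]
      simp only [prj_map, hΘC]
    rw [h3, hΘX, C9_gvec, R.st_eq hφ, C9m_gvec]
  have hv1 : Phi φ (fun i => (C (P i) : MvPolynomial (Option (Fin 3 ⊕ Fin (n - 3))) Ω))
      (fun i => C (P i)) (fun i => C (P i)) (fun i => C9m b (gC φ P u) (gvec (frB w w2 u) i)) = 0 := by
    rw [C9m_gvec]
    exact R.v1 _
  have hv2 : Phi φ (fun i => (C (P i) : MvPolynomial (Option (Fin 3 ⊕ Fin (n - 3))) Ω))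
      (fun i => C (P i)) (fun i => C9m b (gC φ P u) (gvec (frB w w2 u) i))
      (fun i => C9m b (gC φ P u) (gvec (frB w w2 u) i)) = 0 := by
    rw [C9m_gvec]
    exact R.v2 hφ _
  have hcub : Phi φ (fun i => (C (P i) : MvPolynomial (Option (Fin 3 ⊕ Fin (n - 3))) Ω))
      (fun i => C9m b (gC φ P u) (gvec (frB w w2 u) i))
      (fun i => C9m b (gC φ P u) (gvec (frB w w2 u) i))
      (fun i => C9m b (gC φ P u) (gvec (frB w w2 u) i)) =
      C9m b (gC φ P u) (cubC φ P (frB w w2 u)) := by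
    have h3 := Phi_map φ ((C9m b (gC φ P u)).restrictScalars k) (fun i => C (P i))
      (gvec (frB w w2 u)) (gvec (frB w w2 u)) (gvec (frB w w2 u))
    simp only [AlgHom.coe_restrictScalars', C9m_C] at h3
    exact h3.symm
  have hquar : Phi φ (fun i => C9m b (gC φ P u) (gvec (frB w w2 u) i))
      (fun i => C9m b (gC φ P u) (gvec (frB w w2 u) i))
      (fun i => C9m b (gC φ P u) (gvec (frB w w2 u) i))
      (fun i => C9m b (gC φ P u) (gvec (frB w w2 u) i)) =
      C9m b (gC φ P u) (quarC φ (frB w w2 u)) := by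
    have h3 := Phi_map φ ((C9m b (gC φ P u)).restrictScalars k) (gvec (frB w w2 u))
      (gvec (frB w w2 u)) (gvec (frB w w2 u)) (gvec (frB w w2 u))
    simp only [AlgHom.coe_restrictScalars'] at h3
    exact h3.symm
  have hgam : Θ (gamM φ P e w) = C (Phi φ P P P e) ^ 6 *
      C9m b (gC φ P u) (cubC φ P (frB w w2 u)) := by
    have h3 : Θ (gamM φ P e w) = Phi φ (fun i => C (P i)) (fun i => Θk (vM φ P e w i))
        (fun i => Θk (vM φ P e w i)) (fun i => Θk (vM φ P e w i)) := by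
      have h4 := Phi_map φ Θk (fun i => C (P i)) (vM φ P e w) (vM φ P e w) (vM φ P e w)
      simp only [hΘC] at h4
      exact h4
    rw [h3, hv, C9_cub hφ _ _ R.p0 hv1 hv2, hcub]
    ring
  have hrho : Θ (rhoM φ P e w) = C (Phi φ P P P e) ^ 8 *
      (C9m b (gC φ P u) (quarC φ (frB w w2 u)) +
        4 * (-2 * C b * X (some (Sum.inl 2)) * X (some (Sum.inl 0))) *
          C9m b (gC φ P u) (cubC φ P (frB w w2 u))) := by
    have h3 : Θ (rhoM φ P e w) = Phi φ (fun i => Θk (vM φ P e w i)) (fun i => Θk (vM φ P e w i))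
        (fun i => Θk (vM φ P e w i)) (fun i => Θk (vM φ P e w i)) :=
      Phi_map φ Θk (vM φ P e w) (vM φ P e w) (vM φ P e w) (vM φ P e w)
    rw [h3, hv, C9_quar hφ _ _ R.p0 hv1 hv2, hcub, hquar]
    ring
  have hlin : Θ (linM φ P e w) = C (Phi φ P P P e * b) * X (some (Sum.inl 2)) := by
    have h3 : Θ (linM φ P e w) = Phi φ (fun i => C (P i)) (fun i => C (P i)) (fun i => C (w i))
        (prj φ (fun i => C (P i)) (fun i => C (e i)) (fun i => Θk (X i))) := by
      have h4 := Phi_map φ Θk (fun i => C (P i)) (fun i => C (P i)) (fun i => C (w i))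
        (prj φ (fun i => C (P i)) (fun i => C (e i)) X)
      simp only [hΘC, prj_map] at h4
      exact h4
    rw [h3, hΘX, C9_gvec, R.tau, Phi_smul4, R.lin hφ, C_mul]
    ring
  have hb := hf.ne
  have hcr : C9m b (gC φ P u) (cubC φ P (frB w w2 u)) =
      X (some (Sum.inl 2)) ^ a * rename (C9i (n - 3)) C' := by
    rw [C9m, AlgHom.comp_apply, hC, map_mul, map_pow, rename_X]
    rfl
  refine ⟨a, (Phi φ P P P e) ^ 6 / (Phi φ P P P e * b) ^ a, Θ.symm (rename (C9i (n - 3)) C'),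
    ?_, ?_, ?_, ?_, ?_⟩
  · exact div_ne_zero (pow_ne_zero _ he) (pow_ne_zero _ (mul_ne_zero he hb))
  · exact (MulEquiv.prime_iff Θ.symm).2 (C9_prime_rename _ (C9i_inj _) _ hCp)
  · intro h0
    rw [h0, map_zero] at hlin
    exact mul_ne_zero (C_ne_zero.2 (mul_ne_zero he hb)) (X_ne_zero _) hlin.symm
  · apply Θ.injective
    have h3 : Θ (C ((Phi φ P P P e) ^ 6 / (Phi φ P P P e * b) ^ a)) =
        C ((Phi φ P P P e) ^ 6 / (Phi φ P P P e * b) ^ a) := Θ.commutes _
    have h4 : (C (Phi φ P P P e) : MvPolynomial (Option (Fin 3 ⊕ Fin (n - 3))) Ω) ^ 6 =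
        C ((Phi φ P P P e) ^ 6 / (Phi φ P P P e * b) ^ a) * C (Phi φ P P P e * b) ^ a := by
      rw [← C_pow, ← C_pow, ← C_mul, div_mul_cancel₀ _ (pow_ne_zero _ (mul_ne_zero he hb))]
    rw [map_mul, map_mul, map_pow, Θ.apply_symm_apply, hgam, hlin, hcr, h3, h4]
    ring
  · intro hd
    apply hCr
    have h3 : rename (C9i (n - 3)) C' ∣ Θ (rhoM φ P e w) := by
      have h4 := map_dvd Θ hd
      rwa [Θ.apply_symm_apply] at h4
    rw [hrho, hcr] at h3
    have h5 : IsUnit ((C (Phi φ P P P e) : MvPolynomial (Option (Fin 3 ⊕ Fin (n - 3))) Ω) ^ 8) := by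
      rw [← C_pow]
      exact (isUnit_iff_ne_zero.2 (pow_ne_zero _ he)).map C
    rw [h5.dvd_mul_left] at h3
    have h6 := (dvd_add_left ((dvd_mul_left _ _).mul_left _)).1 h3
    have h7 := map_dvd (killCompl (C9i_inj (n - 3))) h6
    rw [C9m, AlgHom.comp_apply, killCompl_rename_app, killCompl_rename_app] at h7
    exact h7

end Pool.Agent.LibHP
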