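import Pool.Agent.LibHPF.C8
import Pool.Agent.LibHPF.C9

/-! # Row C10: the prime factor over `M` -/

set_option autoImplicit false
open MvPolynomial

namespace Pool.Agent.LibHP

variable {k : Type} [Field k] [CharZero k] {n : ℕ} {φ : Tens k n}

section C10
variable {M N : Type} [Field M] [Algebra k M] [CommRing N] [Algebra k N]

theorem C10_vM (f : MvPolynomial (Fin (n + 1)) M →ₐ[k] N) (P e w : Fin (n + 1) → M)
    (i : Fin (n + 1)) :
    f (vM φ P e w i) = st φ (fun j => f (C (P j))) (fun j => f (C (w j)))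
      (prj φ (fun j => f (C (P j))) (fun j => f (C (e j))) (fun j => f (X j))) i := by
  rw [vM, st_map]
  simp only [prj_map]

theorem C10_gamM (f : MvPolynomial (Fin (n + 1)) M →ₐ[k] N) (P e w : Fin (n + 1) → M) :
    f (gamM φ P e w) = Phi φ (fun j => f (C (P j)))
      (st φ (fun j => f (C (P j))) (fun j => f (C (w j)))
        (prj φ (fun j => f (C (P j))) (fun j => f (C (e j))) (fun j => f (X j))))
      (st φ (fun j => f (C (P j))) (fun j => f (C (w j)))
        (prj φ (fun j => f (C (P j))) (fun j => f (C (e j))) (fun j => f (X j))))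
      (st φ (fun j => f (C (P j))) (fun j => f (C (w j)))
        (prj φ (fun j => f (C (P j))) (fun j => f (C (e j))) (fun j => f (X j)))) := by
  have h : (fun i => f (vM φ P e w i)) = st φ (fun j => f (C (P j))) (fun j => f (C (w j)))
      (prj φ (fun j => f (C (P j))) (fun j => f (C (e j))) (fun j => f (X j))) :=
    funext fun i => C10_vM f P e w i
  rw [gamM, Phi_map, h]

theorem C10_rhoM (f : MvPolynomial (Fin (n + 1)) M →ₐ[k] N) (P e w : Fin (n + 1) → M) :
    f (rhoM φ P e w) = Phi φ (st φ (fun j => f (C (P j))) (fun j => f (C (w j)))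
        (prj φ (fun j => f (C (P j))) (fun j => f (C (e j))) (fun j => f (X j))))
      (st φ (fun j => f (C (P j))) (fun j => f (C (w j)))
        (prj φ (fun j => f (C (P j))) (fun j => f (C (e j))) (fun j => f (X j))))
      (st φ (fun j => f (C (P j))) (fun j => f (C (w j)))
        (prj φ (fun j => f (C (P j))) (fun j => f (C (e j))) (fun j => f (X j))))
      (st φ (fun j => f (C (P j))) (fun j => f (C (w j)))
        (prj φ (fun j => f (C (P j))) (fun j => f (C (e j))) (fun j => f (X j)))) := by
  have h : (fun i => f (vM φ P e w i)) = st φ (fun j => f (C (P j))) (fun j => f (C (w j)))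
      (prj φ (fun j => f (C (P j))) (fun j => f (C (e j))) (fun j => f (X j))) :=
    funext fun i => C10_vM f P e w i
  rw [rhoM, Phi_map, h]

theorem C10_linM (f : MvPolynomial (Fin (n + 1)) M →ₐ[k] N) (P e w : Fin (n + 1) → M) :
    f (linM φ P e w) = Phi φ (fun j => f (C (P j))) (fun j => f (C (P j)))
      (fun j => f (C (w j)))
      (prj φ (fun j => f (C (P j))) (fun j => f (C (e j))) (fun j => f (X j))) := by
  rw [linM, Phi_map]
  simp only [prj_map]

end C10

theorem exists_anchor_M (hφ : IsSymm4 φ) (hs : Smooth4 φ) (hn : 6 ≤ n) {M : Type} [Field M]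
    [Algebra k M] (P e w : Fin (n + 1) → M) (hP : IsGenPt φ P)
    (he : Phi φ P P P e ≠ 0) (h1 : Phi φ P P P w = 0) (h2 : Phi φ P P w w = 0)
    (hw : ∀ c : M, w ≠ c • P) :
    ∃ (κ : Type) (_ : Field κ) (_ : Algebra M κ) (_ : Algebra k κ) (_ : IsScalarTower k M κ)
      (z : Fin (n + 1) → κ),
      (∀ u : κ, (∃ Q : Polynomial M, Q ≠ 0 ∧ Polynomial.aeval u Q = 0) →
        ∃ a, algebraMap M κ a = u) ∧
      Phi φ (fun i => algebraMap M κ (P i))
        (st φ (fun i => algebraMap M κ (P i)) (fun i => algebraMap M κ (w i))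
          (prj φ (fun i => algebraMap M κ (P i)) (fun i => algebraMap M κ (e i)) z))
        (st φ (fun i => algebraMap M κ (P i)) (fun i => algebraMap M κ (w i))
          (prj φ (fun i => algebraMap M κ (P i)) (fun i => algebraMap M κ (e i)) z))
        (st φ (fun i => algebraMap M κ (P i)) (fun i => algebraMap M κ (w i))
          (prj φ (fun i => algebraMap M κ (P i)) (fun i => algebraMap M κ (e i)) z)) = 0 ∧
      Phi φ (st φ (fun i => algebraMap M κ (P i)) (fun i => algebraMap M κ (w i))
          (prj φ (fun i => algebraMap M κ (P i)) (fun i => algebraMap M κ (e i)) z))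
        (st φ (fun i => algebraMap M κ (P i)) (fun i => algebraMap M κ (w i))
          (prj φ (fun i => algebraMap M κ (P i)) (fun i => algebraMap M κ (e i)) z))
        (st φ (fun i => algebraMap M κ (P i)) (fun i => algebraMap M κ (w i))
          (prj φ (fun i => algebraMap M κ (P i)) (fun i => algebraMap M κ (e i)) z))
        (st φ (fun i => algebraMap M κ (P i)) (fun i => algebraMap M κ (w i))
          (prj φ (fun i => algebraMap M κ (P i)) (fun i => algebraMap M κ (e i)) z)) ≠ 0 := by
  classical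
  have : CharZero M := charZero_of_injective_algebraMap (algebraMap k M).injective
  let Ω := AlgebraicClosure M
  let T : M →ₐ[k] Ω := IsScalarTower.toAlgHom k M Ω
  let F : MvPolynomial (Fin (n + 1)) M →ₐ[k] MvPolynomial (Fin (n + 1)) Ω := mapAlgHom T
  have hF : ∀ G, F G = map (algebraMap M Ω) G := fun _ => rfl
  let P' : Fin (n + 1) → Ω := fun i => algebraMap M Ω (P i)
  let e' : Fin (n + 1) → Ω := fun i => algebraMap M Ω (e i)
  let w' : Fin (n + 1) → Ω := fun i => algebraMap M Ω (w i)
  have hFC : ∀ c : M, F (C c) = C (algebraMap M Ω c) := fun c => by rw [hF, map_C]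
  have hFX : ∀ j, F (X j) = X j := fun j => by rw [hF, map_X]
  have hgam : map (algebraMap M Ω) (gamM φ P e w) = gamM φ P' e' w' := by
    rw [← hF, C10_gamM]
    simp only [hFC, hFX]
    rfl
  have hrho : map (algebraMap M Ω) (rhoM φ P e w) = rhoM φ P' e' w' := by
    rw [← hF, C10_rhoM]
    simp only [hFC, hFX]
    rfl
  have hlin : map (algebraMap M Ω) (linM φ P e w) = linM φ P' e' w' := by
    rw [← hF, C10_linM]
    simp only [hFC, hFX]
    rfl
  have hT : ∀ a b c d : Fin (n + 1) → M, Phi φ (fun i => algebraMap M Ω (a i))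
      (fun i => algebraMap M Ω (b i)) (fun i => algebraMap M Ω (c i))
      (fun i => algebraMap M Ω (d i)) = algebraMap M Ω (Phi φ a b c d) :=
    fun a b c d => (Phi_map φ T a b c d).symm
  have hinj : Function.Injective (algebraMap M Ω) := (algebraMap M Ω).injective
  have hP' : IsGenPt φ P' := by
    refine ⟨?_, ?_⟩
    · change algebraMap M Ω (P 0) = 1
      rw [hP.1, map_one]
    · intro d G hG
      rw [← hP.2 d G hG]
      have h3 : aeval P' G = T (aeval P G) := by
        rw [← AlgHom.comp_apply, comp_aeval]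
        rfl
      rw [h3]
      exact map_eq_zero_iff T hinj
  obtain ⟨a, κ0, β', hκ0, hβ', hl, hg, hr⟩ := exists_prime_closed hφ hs hn P' e' w' hP'
    (by rw [hT]; exact (map_ne_zero_iff _ hinj).mpr he)
    (by rw [hT, h1, map_zero]) (by rw [hT, h2, map_zero])
    (by
      intro c hc
      apply hw (w 0)
      have h3 : c = algebraMap M Ω (w 0) := by
        have h4 := congrFun hc 0
        have h5 : P' 0 = 1 := hP'.1
        rw [Pi.smul_apply, h5, smul_eq_mul, mul_one] at h4
        exact h4.symm
      funext i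
      apply hinj
      have h4 := congrFun hc i
      rw [Pi.smul_apply, smul_eq_mul, h3] at h4
      rw [Pi.smul_apply, smul_eq_mul, map_mul]
      exact h4)
  obtain ⟨β, hβ⟩ : linM φ P e w ^ a ∣ gamM φ P e w := by
    apply C8_dvd_of_map_dvd (Ω := Ω)
    rw [map_pow, hlin, hgam, hg]
    exact ⟨C κ0 * β', by ring⟩
  have hmapβ : map (algebraMap M Ω) β = C κ0 * β' := by
    have h3 := congrArg (map (algebraMap M Ω)) hβ
    rw [map_mul, map_pow, hlin, hgam, hg] at h3
    have h4 : linM φ P' e' w' ^ a ≠ 0 := pow_ne_zero _ hl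
    apply mul_left_cancel₀ h4
    rw [← h3]
    ring
  have hunit : IsUnit (C κ0 : MvPolynomial (Fin (n + 1)) Ω) := (IsUnit.mk0 κ0 hκ0).map C
  have hassoc : Associated β' (map (algebraMap M Ω) β) := by
    rw [hmapβ, mul_comm]
    exact ⟨hunit.unit, rfl⟩
  have hprime : Prime (map (algebraMap M Ω) β) := hassoc.prime hβ'
  have hnd : ¬ β ∣ rhoM φ P e w := by
    intro h
    apply hr
    rw [← hrho]
    exact hassoc.dvd.trans (map_dvd _ h)
  obtain ⟨κ, i1, i2, z, hz, hcl⟩ := exists_residue_field β hprime
  let i3 : Algebra k κ := ((algebraMap M κ).comp (algebraMap k M)).toAlgebra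
  have i4 : IsScalarTower k M κ := IsScalarTower.of_algebraMap_eq fun _ => rfl
  let f : MvPolynomial (Fin (n + 1)) M →ₐ[k] κ := (aeval z).restrictScalars k
  have hf : ∀ G, f G = aeval z G := fun _ => rfl
  have hfC : ∀ c : M, f (C c) = algebraMap M κ c := fun c => by rw [hf, aeval_C]
  have hfX : ∀ j, f (X j) = z j := fun j => by rw [hf, aeval_X]
  refine ⟨κ, i1, i2, i3, i4, z, hcl, ?_, ?_⟩
  · have h3 : aeval z (gamM φ P e w) = 0 := (hz _).mpr ⟨_, by rw [hβ, mul_comm]⟩
    rw [← hf, C10_gamM] at h3
    simp only [hfC, hfX] at h3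
    exact h3
  · have h3 : aeval z (rhoM φ P e w) ≠ 0 := fun h => hnd ((hz _).mp h)
    rw [← hf, C10_rhoM] at h3
    simp only [hfC, hfX] at h3
    exact h3

end Pool.Agent.LibHP
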