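import Pool.Agent.LibHPF.C10

/-! # Row C11: the anchor

Plan. `w := prj φ jP je W ∈ M^{n+1}` (`j = algebraMap K M`). `Phi φ P P P w = 0` is `Phi_prj`;
`Phi φ P P w w = qW φ P e W = aeval W (quadW φ P e) = 0` (`hW` with `G = quadW`; `aeval W` of `qW φ (C ∘ P)
(C ∘ e) X` is `qW` of the images: lemma `qW_map` for the `K`-algebra map `aeval W` restricted to `k`).
`w ≠ c • P`: suppose `w = c • P`; as `P 0 = 1`, `c = w 0`, so `w i - w 0 * P i = 0` in `M` for all `i`,
i.e. `aeval W (L_i) = 0` for the linear forms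
`L_i := (prj φ (C ∘ P) (C ∘ e) X) i - (prj φ (C ∘ P) (C ∘ e) X) 0 * C (P i)` over `K`, so
`quadW ∣ L_i`, and `quadW` is homogeneous of degree two and `L_i` of degree one, so `L_i = 0`
(a nonzero multiple of a nonzero form of degree two is not of degree one: total degrees, or if
`quadW = 0` clear). So for every `z : Fin (n+1) → K`: `prj φ P e z = (prj φ P e z 0) • P`. For `z` with
`Phi φ P P P z = 0` this gives `z ∈ K • P` (`prj φ P e z = Phi φ P P P e • z`), but this space has
dimension `≥ n ≥ 2`: contradiction. Then `exists_anchor_M` (generic point of `M`: `IsGenPt.map` of Q5). -/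

set_option autoImplicit false
open MvPolynomial

namespace Pool.Agent.LibHP

variable {k : Type} [Field k] [CharZero k] {n : ℕ} {φ : Tens k n}

private theorem C11_hom (φ : Tens k n) {K : Type} [Field K] [Algebra k K] {σ : Type}
    (a b c d : Fin (n + 1) → MvPolynomial σ K) (p q r s : ℕ)
    (ha : ∀ i, (a i).IsHomogeneous p) (hb : ∀ i, (b i).IsHomogeneous q)
    (hc : ∀ i, (c i).IsHomogeneous r) (hd : ∀ i, (d i).IsHomogeneous s) :
    (Phi φ a b c d).IsHomogeneous (p + q + r + s) := by
  unfold Phi
  refine IsHomogeneous.sum _ _ _ fun i _ => IsHomogeneous.sum _ _ _ fun j _ =>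
    IsHomogeneous.sum _ _ _ fun s' _ => IsHomogeneous.sum _ _ _ fun t _ => ?_
  have h := (isHomogeneous_C (σ := σ) (algebraMap k K (φ i j s' t))).mul
    ((((ha i).mul (hb j)).mul (hc s')).mul (hd t))
  rw [zero_add] at h
  rw [IsScalarTower.algebraMap_apply k K (MvPolynomial σ K), MvPolynomial.algebraMap_eq]
  exact h

private theorem C11_prj (φ : Tens k n) {K : Type} [Field K] [Algebra k K]
    (P e : Fin (n + 1) → K) (i : Fin (n + 1)) :
    (prj φ (fun i => (C (P i) : MvPolynomial (Fin (n + 1)) K)) (fun i => C (e i)) X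
      i).IsHomogeneous 1 := by
  have hP : ∀ i, (C (P i) : MvPolynomial (Fin (n + 1)) K).IsHomogeneous 0 :=
    fun i => isHomogeneous_C _ _
  have he : ∀ i, (C (e i) : MvPolynomial (Fin (n + 1)) K).IsHomogeneous 0 :=
    fun i => isHomogeneous_C _ _
  have hX : ∀ i, (X i : MvPolynomial (Fin (n + 1)) K).IsHomogeneous 1 :=
    fun i => isHomogeneous_X _ _
  have h1 := (C11_hom φ _ _ _ _ 0 0 0 0 hP hP hP he).mul (hX i)
  have h2 := (C11_hom φ _ _ _ _ 0 0 0 1 hP hP hP hX).mul (he i)
  simp only [prj, Pi.sub_apply, Pi.smul_apply, smul_eq_mul]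
  exact IsHomogeneous.sub h1 h2

private theorem C11_quadW (φ : Tens k n) {K : Type} [Field K] [Algebra k K]
    (P e : Fin (n + 1) → K) : (quadW φ P e).IsHomogeneous 2 := by
  have hP : ∀ i, (C (P i) : MvPolynomial (Fin (n + 1)) K).IsHomogeneous 0 :=
    fun i => isHomogeneous_C _ _
  unfold quadW qW
  exact C11_hom φ _ _ _ _ 0 0 1 1 hP hP (C11_prj φ P e) (C11_prj φ P e)

/-- the kernel of a functional is not a line -/
private theorem C11_ker {K : Type} [Field K] (hn : 2 ≤ n) (L : (Fin (n + 1) → K) →ₗ[K] K)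
    (P : Fin (n + 1) → K) : ∃ z : Fin (n + 1) → K, L z = 0 ∧ ∀ c : K, z ≠ c • P := by
  by_contra hcon
  push Not at hcon
  have h1 : LinearMap.ker L ≤ Submodule.span K {P} := by
    intro z hz
    obtain ⟨c, hc⟩ := hcon z (LinearMap.mem_ker.1 hz)
    rw [hc]
    exact Submodule.smul_mem _ _ (Submodule.mem_span_singleton_self P)
  have h2 := Submodule.finrank_mono h1
  have h3 : Module.finrank K (Submodule.span K {P}) ≤ 1 := by
    refine (finrank_span_le_card (R := K) ({P} : Set (Fin (n + 1) → K))).trans ?_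
    simp
  have h4 := LinearMap.finrank_range_add_finrank_ker L
  have h5 : Module.finrank K (LinearMap.range L) ≤ 1 := by
    refine (Submodule.finrank_le _).trans ?_
    rw [Module.finrank_self]
  rw [Module.finrank_fin_fun] at h4
  omega

theorem exists_anchor (hφ : IsSymm4 φ) (hs : Smooth4 φ) (hn : 6 ≤ n) {K M : Type} [Field K]
    [Algebra k K] [Field M] [Algebra K M] [Algebra k M] [IsScalarTower k K M]
    (P e : Fin (n + 1) → K) (hP : IsGenPt φ P) (he : Phi φ P P P e ≠ 0)
    (W : Fin (n + 1) → M)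
    (hW : ∀ G : MvPolynomial (Fin (n + 1)) K, aeval W G = 0 ↔ quadW φ P e ∣ G) :
    ∃ (κ : Type) (_ : Field κ) (_ : Algebra k κ) (j : M →ₐ[k] κ) (z : Fin (n + 1) → κ)
      (v : Fin (n + 1) → κ),
      (∀ u : κ, (∃ Q : Polynomial M, Q ≠ 0 ∧ Q.eval₂ (j : M →+* κ) u = 0) → ∃ a, j a = u) ∧
      v = st φ (fun i => j (algebraMap K M (P i)))
        (prj φ (fun i => j (algebraMap K M (P i))) (fun i => j (algebraMap K M (e i)))
          (fun i => j (W i)))
        (prj φ (fun i => j (algebraMap K M (P i))) (fun i => j (algebraMap K M (e i))) z) ∧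
      Phi φ (fun i => j (algebraMap K M (P i))) v v v = 0 ∧ Phi φ v v v v ≠ 0 := by
  -- evaluation at `W` as a map of `k`-algebras
  have hmapP : ∀ z : Fin (n + 1) → M, ∀ i,
      aeval z (prj φ (fun i => (C (P i) : MvPolynomial (Fin (n + 1)) K)) (fun i => C (e i)) X i) =
      prj φ (fun i => algebraMap K M (P i)) (fun i => algebraMap K M (e i)) z i := by
    intro z i
    have h := prj_map φ ((aeval z : MvPolynomial (Fin (n + 1)) K →ₐ[K] M).restrictScalars k)
      (fun i => C (P i)) (fun i => C (e i)) X i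
    simp only [AlgHom.restrictScalars_apply, aeval_C, aeval_X] at h
    exact h
  have hmapK : ∀ z : Fin (n + 1) → K, ∀ i,
      aeval z (prj φ (fun i => (C (P i) : MvPolynomial (Fin (n + 1)) K)) (fun i => C (e i)) X i) =
      prj φ P e z i := by
    intro z i
    have h := prj_map φ ((aeval z : MvPolynomial (Fin (n + 1)) K →ₐ[K] K).restrictScalars k)
      (fun i => C (P i)) (fun i => C (e i)) X i
    simp only [AlgHom.restrictScalars_apply, aeval_C, aeval_X, Algebra.algebraMap_self,
      RingHom.id_apply] at h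
    exact h
  have hq : qW φ (fun i => algebraMap K M (P i)) (fun i => algebraMap K M (e i)) W = 0 := by
    have h := qW_map φ ((aeval W : MvPolynomial (Fin (n + 1)) K →ₐ[K] M).restrictScalars k)
      (fun i => C (P i)) (fun i => C (e i)) X
    simp only [AlgHom.restrictScalars_apply, aeval_C, aeval_X] at h
    rw [← h]
    exact (hW _).2 dvd_rfl
  have hP' : IsGenPt φ (fun i => algebraMap K M (P i)) :=
    hP.map (IsScalarTower.toAlgHom k K M)
  have he' : Phi φ (fun i => algebraMap K M (P i)) (fun i => algebraMap K M (P i))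
      (fun i => algebraMap K M (P i)) (fun i => algebraMap K M (e i)) ≠ 0 := by
    have h := Phi_map φ (IsScalarTower.toAlgHom k K M) P P P e
    simp only [IsScalarTower.coe_toAlgHom'] at h
    rw [← h]
    exact (map_ne_zero (algebraMap K M)).2 he
  -- `w` is not a multiple of `P`
  have hw : ∀ c : M, prj φ (fun i => algebraMap K M (P i)) (fun i => algebraMap K M (e i)) W ≠
      c • fun i => algebraMap K M (P i) := by
    intro c hc
    have hc0 : prj φ (fun i => algebraMap K M (P i)) (fun i => algebraMap K M (e i)) W 0 = c := by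
      rw [hc, Pi.smul_apply, hP.1, map_one, smul_eq_mul, mul_one]
    have hL : ∀ i, prj φ (fun i => (C (P i) : MvPolynomial (Fin (n + 1)) K))
        (fun i => C (e i)) X i - prj φ (fun i => (C (P i) : MvPolynomial (Fin (n + 1)) K))
        (fun i => C (e i)) X 0 * C (P i) = 0 := by
      intro i
      have h1 : quadW φ P e ∣ prj φ (fun i => (C (P i) : MvPolynomial (Fin (n + 1)) K))
          (fun i => C (e i)) X i - prj φ (fun i => (C (P i) : MvPolynomial (Fin (n + 1)) K))
          (fun i => C (e i)) X 0 * C (P i) := by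
        rw [← hW, map_sub, map_mul, hmapP, hmapP, aeval_C, hc0, hc, Pi.smul_apply, smul_eq_mul,
          sub_self]
      have h2 : (prj φ (fun i => (C (P i) : MvPolynomial (Fin (n + 1)) K))
          (fun i => C (e i)) X i - prj φ (fun i => (C (P i) : MvPolynomial (Fin (n + 1)) K))
          (fun i => C (e i)) X 0 * C (P i)).IsHomogeneous 1 :=
        (C11_prj φ P e i).sub ((C11_prj φ P e 0).mul (isHomogeneous_C _ (P i)))
      obtain ⟨A, hA⟩ := h1
      by_contra hne
      have h3 := h2.totalDegree hne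
      have hq0 : quadW φ P e ≠ 0 := by
        intro h
        exact hne (by rw [hA, h, zero_mul])
      have hA0 : A ≠ 0 := by
        intro h
        exact hne (by rw [hA, h, mul_zero])
      rw [hA, totalDegree_mul_of_isDomain hq0 hA0, (C11_quadW φ P e).totalDegree hq0] at h3
      omega
    obtain ⟨z, hz0, hz⟩ := C11_ker (K := K) (by omega : 2 ≤ n) (PhiL φ P P P) P
    rw [PhiL_apply] at hz0
    have h4 : ∀ i, Phi φ P P P e * z i = Phi φ P P P e * z 0 * P i := by
      intro i
      have h := congrArg (aeval z) (hL i)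
      rw [map_sub, map_mul, hmapK, hmapK, aeval_C, map_zero, sub_eq_zero] at h
      simp only [prj, Pi.sub_apply, Pi.smul_apply, smul_eq_mul, hz0, zero_mul, sub_zero,
        Algebra.algebraMap_self, RingHom.id_apply] at h
      exact h
    refine hz (z 0) (funext fun i => ?_)
    have h5 := h4 i
    rw [mul_assoc] at h5
    rw [Pi.smul_apply, smul_eq_mul]
    exact mul_left_cancel₀ he h5
  obtain ⟨κ, _, _, _, _, z, hκ, hg, hr⟩ := exists_anchor_M hφ hs hn
    (fun i => algebraMap K M (P i)) (fun i => algebraMap K M (e i))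
    (prj φ (fun i => algebraMap K M (P i)) (fun i => algebraMap K M (e i)) W) hP' he'
    (Phi_prj _ _ _) hq hw
  have hpr : (fun i => algebraMap M κ (prj φ (fun i => algebraMap K M (P i))
      (fun i => algebraMap K M (e i)) W i)) =
      prj φ (fun i => algebraMap M κ (algebraMap K M (P i)))
        (fun i => algebraMap M κ (algebraMap K M (e i))) (fun i => algebraMap M κ (W i)) :=
    funext fun i => prj_map φ (IsScalarTower.toAlgHom k M κ) _ _ _ i
  rw [hpr] at hg hr
  refine ⟨κ, inferInstance, inferInstance, IsScalarTower.toAlgHom k M κ, z, _, ?_, rfl, hg, hr⟩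
  rintro u ⟨Q, hQ, hQu⟩
  exact hκ u ⟨Q, hQ, hQu⟩

end Pool.Agent.LibHP
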