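import Pool.Agent.LibHPF.C1

/-! # Row C1b: the kernel of the parametrisation

`par_eq_zero_iff`: `←` is `par_qC`. `→`: let `par A = 0`. Pseudo-division by `q` in `s1`: there are `N`,
`A1` free of `s1` and `V` with `s2^N * A = A1 + q * V` (induction on the degree in `s1`, or on `A` by
`MvPolynomial.induction_on`: the set of `A` for which such `N, A1, V` exist contains the constants and the
variables (`2 b s2 * s1 = q - g(t)`) and is closed under sums and products). Then `par A1 = 0`; on
polynomials in `s2, t_i` the map `par` is injective (`s2 ↦ -2 b y^2`, `t_i ↦ - 2 b y t_i` are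
algebraically independent: a monomial `s2^a t^α` goes to `const * y^(2a + |α|) t^α`, distinct monomials
to distinct monomials), so `A1 = 0`, `q ∣ s2^N * A`, and `q` is prime and does not divide `s2`
(degree, or evaluate at `s1 = 0`, `s2 = 1`, `t = 0`: `q = 0`, `s2 = 1`), so `q ∣ A`. -/

set_option autoImplicit false
open MvPolynomial

namespace Pool.Agent.LibHP

variable {Ω : Type} [Field Ω] [CharZero Ω] {m : ℕ}

/-- the inclusion of the polynomials in `s2, t` -/
private noncomputable def C1b_io (Ω : Type) [Field Ω] (m : ℕ) :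
    MvPolynomial (Option (Fin m)) Ω →ₐ[Ω] MvPolynomial (Fin 2 ⊕ Fin m) Ω :=
  rename fun o => Option.elim o (Sum.inl 1) Sum.inr

private theorem C1b_inj (b : Ω) (hb : b ≠ 0) (g : MvPolynomial (Fin m) Ω)
    (A : MvPolynomial (Option (Fin m)) Ω) (h : par b g (C1b_io Ω m A) = 0) : A = 0 := by
  classical
  have hc : -2 * b ≠ 0 := mul_ne_zero (by norm_num) hb
  refine MvPolynomial.funext_set
    (fun o : Option (Fin m) => Option.elim o (Set.range fun n : ℕ => -2 * b * ((n : Ω) + 1) ^ 2)
      fun _ => Set.univ) ?_ ?_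
  · rintro (_ | i)
    · refine Set.infinite_range_of_injective fun x y hxy => ?_
      have h1 : ((x : Ω) + 1) ^ 2 = ((y : Ω) + 1) ^ 2 := mul_left_cancel₀ hc hxy
      have h2 : (((x + 1) ^ 2 : ℕ) : Ω) = (((y + 1) ^ 2 : ℕ) : Ω) := by
        push_cast
        exact h1
      have h3 : (x + 1) ^ 2 = (y + 1) ^ 2 := Nat.cast_injective h2
      have h4 : x + 1 = y + 1 := Nat.pow_left_injective (by norm_num) h3
      omega
    · exact Set.infinite_univ
  · intro x hx
    obtain ⟨n, hn⟩ : ∃ n : ℕ, -2 * b * ((n : Ω) + 1) ^ 2 = x none := hx none (Set.mem_univ _)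
    have hn0 : (n : Ω) + 1 ≠ 0 := Nat.cast_add_one_ne_zero n
    set z : Option (Fin m) → Ω :=
      fun o => Option.elim o ((n : Ω) + 1) fun i => x (some i) / (-2 * b * ((n : Ω) + 1)) with hz
    have h1 : eval z (par b g (C1b_io Ω m A)) = eval x A := by
      have h2 : (aeval z : MvPolynomial (Option (Fin m)) Ω →ₐ[Ω] Ω).comp
          ((par b g).comp (C1b_io Ω m)) = aeval x := by
        apply MvPolynomial.algHom_ext
        rintro (_ | i)
        · simp only [AlgHom.comp_apply, C1b_io, rename_X, Option.elim, par, aeval_X, Sum.elim_inl,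
            Matrix.cons_val_one, Matrix.cons_val_fin_one, map_mul, map_pow, hz, ← hn,
            algHom_C, Algebra.algebraMap_self, RingHom.id_apply]
        · simp only [AlgHom.comp_apply, C1b_io, rename_X, Option.elim, par, aeval_X, Sum.elim_inr,
            map_mul, hz, algHom_C, Algebra.algebraMap_self, RingHom.id_apply]
          field_simp
      exact DFunLike.congr_fun h2 A
    rw [← h1, h, map_zero, map_zero]

private theorem C1b_div (b : Ω) (hb : b ≠ 0) (g : MvPolynomial (Fin m) Ω)
    (A : MvPolynomial (Fin 2 ⊕ Fin m) Ω) :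
    ∃ (N : ℕ) (A1 : MvPolynomial (Option (Fin m)) Ω) (V : MvPolynomial (Fin 2 ⊕ Fin m) Ω),
      X (Sum.inl 1) ^ N * A = C1b_io Ω m A1 + qC b g * V := by
  induction A using MvPolynomial.induction_on with
  | C a => exact ⟨0, C a, 0, by simp [C1b_io]⟩
  | add p q hp hq =>
    obtain ⟨N, A1, V, h1⟩ := hp
    obtain ⟨N', A1', V', h2⟩ := hq
    refine ⟨N + N', X none ^ N' * A1 + X none ^ N * A1',
      X (Sum.inl 1) ^ N' * V + X (Sum.inl 1) ^ N * V', ?_⟩
    have h3 : C1b_io Ω m (X none) = X (Sum.inl 1) := by simp [C1b_io]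
    rw [map_add, map_mul, map_mul, map_pow, map_pow, h3]
    linear_combination (X (Sum.inl 1) ^ N') * h1 + (X (Sum.inl 1) ^ N) * h2
  | mul_X p i hp =>
    obtain ⟨N, A1, V, h1⟩ := hp
    rcases i with i | i
    · fin_cases i
      · have h4 : C1b_io Ω m (rename some g) = rename Sum.inr g := by
          rw [C1b_io, rename_rename]
          rfl
        have h5 : (C (2 * b)⁻¹ : MvPolynomial (Fin 2 ⊕ Fin m) Ω) * C (2 * b) = 1 := by
          rw [← C_mul, inv_mul_cancel₀ (mul_ne_zero two_ne_zero hb), C_1]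
        have h6 : C1b_io Ω m (C (2 * b)⁻¹) = C (2 * b)⁻¹ := by simp [C1b_io]
        refine ⟨N + 1, -(C (2 * b)⁻¹) * A1 * rename some g, C (2 * b)⁻¹ * C1b_io Ω m A1 +
          V * X (Sum.inl 1) * X (Sum.inl 0), ?_⟩
        rw [map_mul, map_mul, map_neg, h4, h6]
        show _ * (_ * X (Sum.inl 0)) = _
        have h7 : X (Sum.inl 1) * X (Sum.inl 0) = C (2 * b)⁻¹ *
            (qC b g - rename Sum.inr g : MvPolynomial (Fin 2 ⊕ Fin m) Ω) := by
          rw [qC]
          linear_combination (-(X (Sum.inl 1) * X (Sum.inl 0))) * h5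
        linear_combination (X (Sum.inl 1) * X (Sum.inl 0)) * h1 + C1b_io Ω m A1 * h7
      · refine ⟨N, X none * A1, V * X (Sum.inl 1), ?_⟩
        have h3 : C1b_io Ω m (X none) = X (Sum.inl 1) := by simp [C1b_io]
        rw [map_mul, h3]
        show _ * (_ * X (Sum.inl 1)) = _
        linear_combination (X (Sum.inl 1)) * h1
    · refine ⟨N, X (some i) * A1, V * X (Sum.inr i), ?_⟩
      have h3 : C1b_io Ω m (X (some i)) = X (Sum.inr i) := by simp [C1b_io]
      rw [map_mul, h3]
      linear_combination (X (Sum.inr i)) * h1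

private theorem C1b_ndvd (b : Ω) (g : MvPolynomial (Fin m) Ω) (hg : g.IsHomogeneous 2) :
    ¬ qC b g ∣ X (Sum.inl 1) := by
  rintro ⟨V, hV⟩
  have h1 := congrArg (eval (Sum.elim ![0, 1] (0 : Fin m → Ω))) hV
  have h2 : eval (Sum.elim ![0, 1] (0 : Fin m → Ω)) (rename Sum.inr g) = 0 := by
    rw [eval_rename]
    have h3 : (Sum.elim ![0, 1] (0 : Fin m → Ω)) ∘ Sum.inr = 0 := rfl
    rw [h3, eval_zero, constantCoeff_eq]
    exact hg.coeff_eq_zero (d := 0) (by simp)
  rw [map_mul, qC, map_add, h2] at h1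
  simp at h1

theorem par_eq_zero_iff (b : Ω) (hb : b ≠ 0) (g : MvPolynomial (Fin m) Ω)
    (hg : g.IsHomogeneous 2) (hgp : Prime g) (A : MvPolynomial (Fin 2 ⊕ Fin m) Ω) :
    par b g A = 0 ↔ qC b g ∣ A := by
  constructor
  · intro h
    obtain ⟨N, A1, V, h1⟩ := C1b_div b hb g A
    have h2 : par b g (C1b_io Ω m A1) = 0 := by
      have h3 := congrArg (par b g) h1
      rw [map_mul, h, mul_zero, map_add, map_mul, par_qC b g hg, zero_mul, add_zero] at h3
      exact h3.symm
    rw [C1b_inj b hb g A1 h2, map_zero, zero_add] at h1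
    have hq := prime_qC b hb g hg hgp
    rcases hq.dvd_or_dvd (Dvd.intro V h1.symm) with h3 | h3
    · exact absurd (hq.dvd_of_dvd_pow h3) (C1b_ndvd b g hg)
    · exact h3
  · rintro ⟨V, rfl⟩
    rw [map_mul, par_qC b g hg, zero_mul]

end Pool.Agent.LibHP
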