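import Pool.Agent.LibHPF.CDefs

/-! # Row C2: `(s2, q)` is a prime ideal, homogeneity of `par`

`isPrime_idC`: `(s2, q) = (s2, g(t))`; the quotient of `MvPolynomial (Fin 2 ⊕ Fin m) Ω` by `(s2, g(t))`
is `Ω[s1, t] ⧸ (g(t))`, a domain because the prime `g` stays prime in more variables. Concretely:
`A ∈ idC ↔ (rename Sum.inr g) ∣ A|_{s2 = 0}` where `A|_{s2=0} := aeval (s1 ↦ X, s2 ↦ 0, t ↦ X) A`
(`A - A|_{s2=0}` is divisible by `s2`), and `rename Sum.inr g` is prime
(`MvPolynomial.prime_rename_iff` for an injective renaming, Mathlib). Properness: `g` is not a unit.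

`par_isHomogeneous`: the variables go to forms of degree two
(`MvPolynomial.IsHomogeneous.aeval`/`IsHomogeneous.eval₂`: homogeneous of degree `d` composed with forms
of degree `2` is homogeneous of degree `2 * d`). -/

set_option autoImplicit false
open MvPolynomial

namespace Pool.Agent.LibHP

variable {Ω : Type} [Field Ω] [CharZero Ω] {m : ℕ}

private theorem C2_prime_rename {Ω : Type} [Field Ω] {m : ℕ} {g : MvPolynomial (Fin m) Ω}
    (hg : Prime g) :
    Prime (rename (Sum.inr : Fin m → Fin 2 ⊕ Fin m) g) := by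
  have hinj : Function.Injective (Sum.inr : Fin m → Fin 2 ⊕ Fin m) := Sum.inr_injective
  have h1 : rename (Sum.inr : Fin m → Fin 2 ⊕ Fin m) g =
      rename ((↑) : Set.range (Sum.inr : Fin m → Fin 2 ⊕ Fin m) → Fin 2 ⊕ Fin m)
        (renameEquiv Ω (Equiv.ofInjective _ hinj) g) := by
    rw [renameEquiv_apply, rename_rename]
    rfl
  rw [h1, prime_rename_iff]
  exact (MulEquiv.prime_iff (renameEquiv Ω (Equiv.ofInjective _ hinj)).toMulEquiv).2 hg

/-- put `s2 = 0` -/
private noncomputable def C2_ev (Ω : Type) [Field Ω] (m : ℕ) :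
    MvPolynomial (Fin 2 ⊕ Fin m) Ω →ₐ[Ω] MvPolynomial (Fin 2 ⊕ Fin m) Ω :=
  aeval (Sum.elim ![X (Sum.inl 0), 0] fun i => X (Sum.inr i))

private theorem C2_dvd {Ω : Type} [Field Ω] {m : ℕ} (A : MvPolynomial (Fin 2 ⊕ Fin m) Ω) :
    X (Sum.inl 1) ∣ A - C2_ev Ω m A := by
  induction A using MvPolynomial.induction_on with
  | C a =>
    rw [C2_ev, aeval_C, MvPolynomial.algebraMap_eq, sub_self]
    exact dvd_zero _
  | add p q hp hq =>
    have h : p + q - C2_ev Ω m (p + q) = (p - C2_ev Ω m p) + (q - C2_ev Ω m q) := by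
      rw [map_add]
      ring
    rw [h]
    exact dvd_add hp hq
  | mul_X p j hp =>
    have h : p * X j - C2_ev Ω m (p * X j) =
        (p - C2_ev Ω m p) * X j + C2_ev Ω m p * (X j - C2_ev Ω m (X j)) := by
      rw [map_mul]
      ring
    rw [h]
    refine dvd_add (hp.mul_right _) (Dvd.dvd.mul_left ?_ _)
    rw [C2_ev, aeval_X]
    rcases j with j | j
    · fin_cases j
      · simp
      · simp
    · simp

private theorem C2_ev_rename {Ω : Type} [Field Ω] {m : ℕ} (g : MvPolynomial (Fin m) Ω) :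
    C2_ev Ω m (rename Sum.inr g) = rename Sum.inr g := by
  rw [C2_ev, aeval_rename]
  rw [rename_eq_aeval]
  rfl

private theorem C2_eq_comap {Ω : Type} [Field Ω] {m : ℕ} (b : Ω) (g : MvPolynomial (Fin m) Ω) :
    idC b g = Ideal.comap (C2_ev Ω m) (Ideal.span {rename Sum.inr g}) := by
  have hev : C2_ev Ω m (qC b g) = rename Sum.inr g := by
    rw [qC, map_add, C2_ev_rename, map_mul]
    have h : C2_ev Ω m (X (Sum.inl 1)) = 0 := by
      rw [C2_ev, aeval_X]
      rfl
    rw [h, mul_zero, zero_add]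
  apply le_antisymm
  · rw [idC, Ideal.span_le]
    rintro A (rfl | hA)
    · rw [SetLike.mem_coe, Ideal.mem_comap]
      have h : C2_ev Ω m (X (Sum.inl 1)) = 0 := by
        rw [C2_ev, aeval_X]
        rfl
      rw [h]
      exact Ideal.zero_mem _
    · rw [Set.mem_singleton_iff] at hA
      rw [hA, SetLike.mem_coe, Ideal.mem_comap, hev]
      exact Ideal.mem_span_singleton_self _
  · intro A hA
    rw [Ideal.mem_comap, Ideal.mem_span_singleton] at hA
    obtain ⟨B, hB⟩ := hA
    obtain ⟨D, hD⟩ := C2_dvd A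
    have hX : X (Sum.inl 1) ∈ idC b g := Ideal.subset_span (Or.inl rfl)
    have hq : qC b g ∈ idC b g := Ideal.subset_span (Or.inr rfl)
    have h1 : A = (D + -(C (2 * b) * X (Sum.inl 0)) * B) * X (Sum.inl 1) + B * qC b g := by
      have h2 : A = X (Sum.inl 1) * D + rename Sum.inr g * B := by
        rw [← hD, ← hB]
        ring
      rw [h2, qC]
      ring
    rw [h1]
    exact Ideal.add_mem _ (Ideal.mul_mem_left _ _ hX) (Ideal.mul_mem_left _ _ hq)

theorem isPrime_idC (b : Ω) (g : MvPolynomial (Fin m) Ω) (hgp : Prime g) :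
    (idC b g).IsPrime := by
  have h1 := C2_prime_rename hgp
  have h2 : (Ideal.span {rename (Sum.inr : Fin m → Fin 2 ⊕ Fin m) g}).IsPrime :=
    (Ideal.span_singleton_prime h1.ne_zero).2 h1
  rw [C2_eq_comap]
  exact Ideal.comap_isPrime _ _

theorem par_isHomogeneous (b : Ω) (g : MvPolynomial (Fin m) Ω) (hg : g.IsHomogeneous 2)
    (A : MvPolynomial (Fin 2 ⊕ Fin m) Ω) (d : ℕ) (hA : A.IsHomogeneous d) :
    (par b g A).IsHomogeneous (2 * d) := by
  unfold par
  refine hA.aeval _ ?_
  rintro (i | i)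
  · fin_cases i
    · exact hg.rename_isHomogeneous
    · have h := (isHomogeneous_C (Option (Fin m)) (-2 * b)).mul
        ((isHomogeneous_X Ω (none : Option (Fin m))).pow 2)
      simpa using h
  · have h := ((isHomogeneous_C (Option (Fin m)) (-2 * b)).mul
        (isHomogeneous_X Ω (none : Option (Fin m)))).mul (isHomogeneous_X Ω (some i))
    simpa using h

end Pool.Agent.LibHP
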