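import Pool.Agent.LibHPF.C1b
import Pool.Agent.LibHPF.C2

/-! # Row C3: normal form of forms modulo `q`

`exists_normal`: every form `A` not divisible by `q` is `s2^l * A1` modulo `q` with `A1` a form not in
the prime ideal `(s2, q)`.
Plan: induction on the degree `d`. If `A ∉ idC` take `l = 0`. Otherwise `A = s2 * U + q * V`; replace `U`
by its homogeneous component of degree `d - 1` and `V` by that of degree `d - 2` (`A` and `q` are
homogeneous; `d = 0` is impossible: a nonzero constant is not in the proper ideal; for `d = 1` take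
`V = 0`), so `U` is a form of degree `d - 1`, not divisible by `q` (else `q ∣ A`); apply the induction
hypothesis to `U`.

`exists_lift`: every form `A` in `y, t` of degree `d`, not divisible by `y`, is up to a power of `y` and
a constant the image of a form `A1 ∉ (s2, q)` of degree `δ` with `2 δ = d + e`.
Plan: `A0 := aeval (y ↦ X (inl 1), t_i ↦ X (inr i)) A'` where `A'` is `A` with rescaled variables such
that `par A0 = C κ * (X none)^d * A`, `κ ≠ 0` (`y ↦ C(-2b)⁻¹...`: substituting `y ↦ s2`, `t ↦ t` gives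
`par (A(s2, t)) = A(-2 b y^2, -2 b y t) = (-2 b y)^d A(y, t)` by homogeneity: so `A0 = A(s2, t)`,
`κ = (-2b)^d`). `A0` is not divisible by `q` (`par A0 ≠ 0`), homogeneous of degree `d`. By
`exists_normal`: `A0 = s2^l * A1 + q * V`, so `par A0 = (C(-2b) y^2)^l * par A1`, i.e.
`y^(2 l) * par A1 = const * y^d * A`. As `y` is prime and does not divide `A`: if `2 l > d` then
`y ∣ A`, contradiction; so `par A1 = const * y^(d - 2 l) * A`, `e := d - 2 l`, `δ := d - l`. -/

set_option autoImplicit false
open MvPolynomial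

namespace Pool.Agent.LibHP

variable {Ω : Type} [Field Ω] [CharZero Ω] {m : ℕ}

private theorem C3_qhom (b : Ω) (g : MvPolynomial (Fin m) Ω) (hg : g.IsHomogeneous 2) :
    (qC b g).IsHomogeneous 2 := by
  unfold qC
  refine IsHomogeneous.add ?_ ?_
  · exact ((isHomogeneous_X Ω (Sum.inl 0)).C_mul (2 * b)).mul (isHomogeneous_X Ω (Sum.inl 1))
  · exact hg.rename_isHomogeneous

private theorem C3_comp_mul {σ : Type} (a p : MvPolynomial σ Ω) (e n : ℕ)
    (hp : p.IsHomogeneous e) :
    homogeneousComponent (n + e) (a * p) = homogeneousComponent n a * p := by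
  induction a using MvPolynomial.induction_on' with
  | monomial s r =>
    have h1 := isHomogeneous_monomial (σ := σ) r (rfl : s.degree = s.degree)
    rw [homogeneousComponent_of_mem (h1.mul hp), homogeneousComponent_of_mem h1]
    by_cases h2 : n = s.degree
    · rw [if_pos h2, if_pos (by omega)]
    · rw [if_neg h2, if_neg (by omega), zero_mul]
  | add u v hu hv => rw [add_mul, map_add, hu, hv, map_add, add_mul]

private theorem C3_comp_mul_zero {σ : Type} (a p : MvPolynomial σ Ω) (e n : ℕ)
    (hp : p.IsHomogeneous e) (hn : n < e) : homogeneousComponent n (a * p) = 0 := by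
  induction a using MvPolynomial.induction_on' with
  | monomial s r =>
    have h1 := isHomogeneous_monomial (σ := σ) r (rfl : s.degree = s.degree)
    rw [homogeneousComponent_of_mem (h1.mul hp), if_neg (by omega)]
  | add u v hu hv => rw [add_mul, map_add, hu, hv, add_zero]

private theorem C3_smul {σ : Type} {S : Type} [CommRing S] [Algebra Ω S] {e : ℕ}
    {G : MvPolynomial σ Ω} (hG : G.IsHomogeneous e) (c : S) (P : σ → S) :
    aeval (fun i => c * P i) G = c ^ e * aeval P G := by
  rw [aeval_def, aeval_def, eval₂_eq, eval₂_eq, Finset.mul_sum]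
  refine Finset.sum_congr rfl fun d hd => ?_
  have h1 : ∑ i ∈ d.support, d i = e := by
    have h2 := hG (mem_support_iff.1 hd)
    have h4 : Finsupp.weight 1 d = d.degree := by
      rw [Finsupp.degree_eq_weight_one]
      rfl
    rw [h4] at h2
    exact h2
  simp only [mul_pow, Finset.prod_mul_distrib]
  rw [Finset.prod_pow_eq_pow_sum, h1]
  ring

theorem exists_normal (b : Ω) (hb : b ≠ 0) (g : MvPolynomial (Fin m) Ω)
    (hg : g.IsHomogeneous 2) (hgp : Prime g) (A : MvPolynomial (Fin 2 ⊕ Fin m) Ω) (d : ℕ)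
    (hA : A.IsHomogeneous d) (hq : ¬ qC b g ∣ A) :
    ∃ (l δ : ℕ) (A1 V : MvPolynomial (Fin 2 ⊕ Fin m) Ω), l + δ = d ∧ A1.IsHomogeneous δ ∧
      A1 ∉ idC b g ∧ A = X (Sum.inl 1) ^ l * A1 + qC b g * V := by
  induction d generalizing A with
  | zero =>
    refine ⟨0, 0, A, 0, rfl, hA, ?_, by ring⟩
    intro h
    obtain ⟨u, v, huv⟩ := Ideal.mem_span_pair.1 h
    have h1 : homogeneousComponent 0 A = A := homogeneousComponent_eq_self hA
    rw [← huv, map_add, C3_comp_mul_zero u _ 1 0 (isHomogeneous_X Ω _) Nat.one_pos,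
      C3_comp_mul_zero v _ 2 0 (C3_qhom b g hg) Nat.two_pos, add_zero, huv] at h1
    apply hq
    rw [← h1]
    exact dvd_zero _
  | succ d ih =>
    by_cases h : A ∈ idC b g
    · obtain ⟨u, v, huv⟩ := Ideal.mem_span_pair.1 h
      have h1 : homogeneousComponent (d + 1) A = A := homogeneousComponent_eq_self hA
      have h2 : ∃ V, homogeneousComponent (d + 1) (v * qC b g) = qC b g * V := by
        rcases Nat.eq_zero_or_pos d with rfl | hd
        · exact ⟨0, by rw [C3_comp_mul_zero v _ 2 _ (C3_qhom b g hg) (by norm_num), mul_zero]⟩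
        · obtain ⟨d', rfl⟩ : ∃ d', d = d' + 1 := ⟨d - 1, by omega⟩
          refine ⟨homogeneousComponent d' v, ?_⟩
          rw [add_assoc, C3_comp_mul v _ 2 d' (C3_qhom b g hg), mul_comm]
      obtain ⟨V, hV⟩ := h2
      have h3 : A = X (Sum.inl 1) * homogeneousComponent d u + qC b g * V := by
        conv_lhs => rw [← h1, ← huv]
        rw [map_add, hV, C3_comp_mul u _ 1 d (isHomogeneous_X Ω _)]
        ring
      have h4 : ¬ qC b g ∣ homogeneousComponent d u := by
        intro h5
        apply hq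
        rw [h3]
        exact dvd_add (h5.mul_left _) (dvd_mul_right _ _)
      obtain ⟨l, δ, A1, V', h5, h6, h7, h8⟩ := ih (homogeneousComponent d u)
        (homogeneousComponent_isHomogeneous d u) h4
      refine ⟨l + 1, δ, A1, X (Sum.inl 1) * V' + V, by omega, h6, h7, ?_⟩
      rw [h3, h8]
      ring
    · exact ⟨0, d + 1, A, 0, by omega, hA, h, by ring⟩

theorem exists_lift (b : Ω) (hb : b ≠ 0) (g : MvPolynomial (Fin m) Ω)
    (hg : g.IsHomogeneous 2) (hgp : Prime g) (A : MvPolynomial (Option (Fin m)) Ω) (d : ℕ)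
    (hA : A.IsHomogeneous d) (hy : ¬ X none ∣ A) :
    ∃ (δ e : ℕ) (κ : Ω) (A1 : MvPolynomial (Fin 2 ⊕ Fin m) Ω), κ ≠ 0 ∧ 2 * δ = d + e ∧
      A1.IsHomogeneous δ ∧ A1 ∉ idC b g ∧ par b g A1 = C κ * X none ^ e * A := by
  classical
  have hb2 : -2 * b ≠ 0 := mul_ne_zero (by norm_num) hb
  let ff : Option (Fin m) → Fin 2 ⊕ Fin m := fun o => o.elim (Sum.inl 1) Sum.inr
  have hX : (X none : MvPolynomial (Option (Fin m)) Ω) ≠ 0 := X_ne_zero none
  have hA0 : A ≠ 0 := by
    intro h0
    apply hy
    rw [h0]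
    exact dvd_zero _
  have hpar : par b g (rename ff A) = (C (-2 * b) * X none) ^ d * A := by
    have h1 : par b g (rename ff A) =
        aeval (fun o : Option (Fin m) => (C (-2 * b) * X none) *
          (X o : MvPolynomial (Option (Fin m)) Ω)) A := by
      unfold par
      rw [aeval_rename]
      congr 2
      funext o
      match o with
      | none =>
        show C (-2 * b) * X none ^ 2 = C (-2 * b) * X none * X none
        ring
      | some i => rfl
    rw [h1, C3_smul hA, aeval_X_left_apply]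
  have hq0 : ¬ qC b g ∣ rename ff A := by
    rintro ⟨V, hV⟩
    rw [hV, map_mul, par_qC b g hg, zero_mul] at hpar
    have h2 : (C (-2 * b) * X none : MvPolynomial (Option (Fin m)) Ω) ^ d ≠ 0 :=
      pow_ne_zero _ (mul_ne_zero (C_ne_zero.2 hb2) hX)
    exact (mul_ne_zero h2 hA0) hpar.symm
  obtain ⟨l, δ, A1, V, h1, h2, h3, h4⟩ := exists_normal b hb g hg hgp (rename ff A) d
    hA.rename_isHomogeneous hq0
  have h5 : par b g (X (Sum.inl 1)) = C (-2 * b) * X none ^ 2 := by
    unfold par
    rw [aeval_X]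
    rfl
  rw [h4, map_add, map_mul, map_mul, par_qC b g hg, zero_mul, add_zero, map_pow, h5] at hpar
  -- hpar : (C (-2 b) * y^2)^l * par A1 = (C (-2 b) * y)^d * A
  have h6 : X none ^ (2 * l) * par b g A1 = C ((-2 * b) ^ δ) * X none ^ d * A := by
    have h7 : (C ((-2 * b) ^ l) : MvPolynomial (Option (Fin m)) Ω) ≠ 0 :=
      C_ne_zero.2 (pow_ne_zero _ hb2)
    apply mul_left_cancel₀ h7
    calc C ((-2 * b) ^ l) * (X none ^ (2 * l) * par b g A1)
        = (C (-2 * b) * X none ^ 2) ^ l * par b g A1 := by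
          rw [map_pow, mul_pow, ← pow_mul]
          ring
      _ = (C (-2 * b) * X none) ^ d * A := hpar
      _ = C ((-2 * b) ^ l) * (C ((-2 * b) ^ δ) * X none ^ d * A) := by
          rw [mul_pow, ← h1, map_pow, map_pow, pow_add (C (-2 * b))]
          ring
  have hκ : (-2 * b) ^ δ ≠ 0 := pow_ne_zero _ hb2
  have hld : 2 * l ≤ d := by
    by_contra hcon
    obtain ⟨r, hr⟩ : ∃ r, 2 * l = d + (r + 1) := ⟨2 * l - d - 1, by omega⟩
    rw [hr, pow_add] at h6
    have h7 : X none ^ d * (X none ^ (r + 1) * par b g A1) =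
        X none ^ d * (C ((-2 * b) ^ δ) * A) := by
      linear_combination h6
    have h8 := mul_left_cancel₀ (pow_ne_zero d hX) h7
    apply hy
    have h9 : A = X none * (C (((-2 * b) ^ δ)⁻¹) * X none ^ r * par b g A1) := by
      have h10 : (C (((-2 * b) ^ δ)⁻¹) * C ((-2 * b) ^ δ) : MvPolynomial (Option (Fin m)) Ω) = 1 := by
        rw [← C_mul, inv_mul_cancel₀ hκ, C_1]
      calc A = (C (((-2 * b) ^ δ)⁻¹) * C ((-2 * b) ^ δ)) * A := by rw [h10, one_mul]
        _ = C (((-2 * b) ^ δ)⁻¹) * (C ((-2 * b) ^ δ) * A) := by ring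
        _ = C (((-2 * b) ^ δ)⁻¹) * (X none ^ (r + 1) * par b g A1) := by rw [h8]
        _ = _ := by ring
    rw [h9]
    exact dvd_mul_right _ _
  obtain ⟨e, he⟩ : ∃ e, d = 2 * l + e := ⟨d - 2 * l, by omega⟩
  refine ⟨δ, e, (-2 * b) ^ δ, A1, hκ, by omega, h2, h3, ?_⟩
  apply mul_left_cancel₀ (pow_ne_zero (2 * l) hX)
  rw [h6, he, pow_add]
  ring

end Pool.Agent.LibHP
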