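import Pool.Agent.LibHPF.C0
import Pool.Agent.LibHPF.C4b

/-! # Row C5: the cubic is, up to a power of `y`, prime on the parametrised quadric -/

set_option autoImplicit false
open MvPolynomial

namespace Pool.Agent.LibHP

variable {Ω : Type} [Field Ω] [CharZero Ω] [IsAlgClosed Ω] {m : ℕ}

theorem C5_par_s2_pow (b : Ω) (g : MvPolynomial (Fin m) Ω) (j : ℕ) :
    par b g (X (Sum.inl 1) ^ j) = C ((-2 * b) ^ j) * X none ^ (2 * j) := by
  rw [map_pow]
  have h : par b g (X (Sum.inl 1)) = C (-2 * b) * X none ^ 2 := by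
    simp [par]
  rw [h, mul_pow, ← C_pow, ← pow_mul]

theorem C5_isUnit_of_zero {σ : Type} {A : MvPolynomial σ Ω} (h0 : A ≠ 0) (h : A.IsHomogeneous 0) :
    ∃ κ : Ω, κ ≠ 0 ∧ A = C κ := by
  have h1 : A.totalDegree = 0 := h.totalDegree h0
  have h2 : A = C (coeff 0 A) := totalDegree_eq_zero_iff_eq_C.1 h1
  refine ⟨coeff 0 A, ?_, h2⟩
  intro h3
  rw [h3, map_zero] at h2
  exact h0 h2

theorem C5_pow_hom {σ : Type} (i : σ) (a n : ℕ) {A : MvPolynomial σ Ω} (hA : A = X i ^ a)
    (h : A.IsHomogeneous n) : n = a := by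
  have h1 : (X i ^ a : MvPolynomial σ Ω).IsHomogeneous a := isHomogeneous_X_pow i a
  rw [hA] at h
  exact h.inj_right h1 (pow_ne_zero _ (X_ne_zero i))

theorem C5_s2_mem (b : Ω) (g : MvPolynomial (Fin m) Ω) : X (Sum.inl 1) ∈ idC b g :=
  Ideal.subset_span (by simp)

theorem C5_q_mem (b : Ω) (g : MvPolynomial (Fin m) Ω) : qC b g ∈ idC b g :=
  Ideal.subset_span (by simp)

theorem prime_cofactor (hm : 3 ≤ m) (b : Ω) (hb : b ≠ 0) (g : MvPolynomial (Fin m) Ω)
    (hg : g.IsHomogeneous 2) (hgp : Prime g) (c r : MvPolynomial (Fin 2 ⊕ Fin m) Ω)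
    (hc : c.IsHomogeneous 3) (hr : r.IsHomogeneous 4) (hB : IndepGrad (qC b g) c r) (a : ℕ)
    (C' : MvPolynomial (Option (Fin m)) Ω) (hC : par b g c = X none ^ a * C')
    (hy : ¬ X none ∣ C') : Prime C' := by
  have hPc : (par b g c).IsHomogeneous 6 := par_isHomogeneous b g hg c 3 hc
  have hPc0 : par b g c ≠ 0 := fun h =>
    not_dvd hm b g hg c r hc hr hB ((par_eq_zero_iff b hb g hg hgp c).1 h)
  have hcid := cub_not_mem hm b hb g hg hgp c r hc hr hB
  have hprime := isPrime_idC b g hgp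
  have hs2 := C5_s2_mem b g
  have hq := C5_q_mem b g
  obtain ⟨a', n, ha', hn, hsum⟩ := isHomogeneous_factors (par b g c) (X none ^ a) C' 6 hPc hPc0 hC
  have haa : a' = a := C5_pow_hom none a a' rfl ha'
  subst haa
  have hC0 : C' ≠ 0 := by
    rintro rfl
    rw [mul_zero] at hC
    exact hPc0 hC
  have hXne : ∀ j : ℕ, (X none ^ j : MvPolynomial (Option (Fin m)) Ω) ≠ 0 := fun j =>
    pow_ne_zero _ (X_ne_zero none)
  have hb2 : (-2 * b : Ω) ≠ 0 := mul_ne_zero (by norm_num) hb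
  have hcomm : ∀ x : Ω, par b g (C x) = C x := by
    intro x
    rw [← algebraMap_eq, AlgHom.commutes, algebraMap_eq]
  -- membership from equality of images
  have key : ∀ A : MvPolynomial (Fin 2 ⊕ Fin m) Ω, par b g A = 0 → ∃ V, A = qC b g * V :=
    fun A h => (par_eq_zero_iff b hb g hg hgp A).1 h
  have hnu : ¬ IsUnit C' := by
    intro hu
    have hn0 : n = 0 := by
      obtain ⟨u, hu'⟩ := MvPolynomial.isUnit_iff_eq_C_of_isReduced.1 hu
      have h1 : C'.totalDegree = 0 := by rw [hu'.2]; exact totalDegree_C _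
      rw [← h1, hn.totalDegree hC0]
    subst hn0
    obtain ⟨κ, hκ, hCκ⟩ := C5_isUnit_of_zero hC0 hn
    have ha6 : a' = 6 := by omega
    subst ha6
    have h1 : par b g (c - C (κ / (-2 * b) ^ 3) * X (Sum.inl 1) ^ 3) = 0 := by
      rw [map_sub, map_mul (par b g), C5_par_s2_pow, hC, hCκ, hcomm]
      have h2 : (C κ : MvPolynomial (Option (Fin m)) Ω) =
          C (κ / (-2 * b) ^ 3) * C ((-2 * b) ^ 3) := by
        rw [← C_mul, div_mul_cancel₀ _ (pow_ne_zero _ hb2)]
      rw [h2]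
      ring
    obtain ⟨V, hV⟩ := key _ h1
    apply hcid
    have h3 : c = C (κ / (-2 * b) ^ 3) * X (Sum.inl 1) ^ 2 * X (Sum.inl 1) + qC b g * V := by
      rw [← hV]; ring
    rw [h3]
    exact Ideal.add_mem _ (Ideal.mul_mem_left _ _ hs2) (Ideal.mul_mem_right _ _ hq)
  have hirr : Irreducible C' := by
    rw [irreducible_iff]
    refine ⟨hnu, ?_⟩
    intro A B hAB
    by_contra hcon
    push Not at hcon
    obtain ⟨hAu, hBu⟩ := hcon
    obtain ⟨dA, dB, hdA, hdB, hdAB⟩ := isHomogeneous_factors C' A B n hn hC0 hAB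
    have hA0 : A ≠ 0 := by rintro rfl; rw [zero_mul] at hAB; exact hC0 hAB
    have hB0 : B ≠ 0 := by rintro rfl; rw [mul_zero] at hAB; exact hC0 hAB
    have hdA1 : 1 ≤ dA := by
      by_contra h
      have : dA = 0 := by omega
      subst this
      obtain ⟨κ, hκ, h1⟩ := C5_isUnit_of_zero hA0 hdA
      exact hAu (h1 ▸ (isUnit_iff_ne_zero.2 hκ).map C)
    have hdB1 : 1 ≤ dB := by
      by_contra h
      have : dB = 0 := by omega
      subst this
      obtain ⟨κ, hκ, h1⟩ := C5_isUnit_of_zero hB0 hdB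
      exact hBu (h1 ▸ (isUnit_iff_ne_zero.2 hκ).map C)
    have hyA : ¬ X none ∣ A := fun h => hy (hAB ▸ Dvd.dvd.mul_right h B)
    have hyB : ¬ X none ∣ B := fun h => hy (hAB ▸ Dvd.dvd.mul_left h A)
    obtain ⟨δA, eA, κA, A1, hκA, hδA, hA1, hA1id, hPA⟩ := exists_lift b hb g hg hgp A dA hdA hyA
    obtain ⟨δB, eB, κB, B1, hκB, hδB, hB1, hB1id, hPB⟩ := exists_lift b hb g hg hgp B dB hdB hyB
    have hABid : A1 * B1 ∉ idC b g := fun h => (hprime.mem_or_mem h).elim hA1id hB1id
    set κ := κA * κB with hκdef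
    have hκ : κ ≠ 0 := mul_ne_zero hκA hκB
    have hmain : par b g (A1 * B1) * X none ^ a' = C κ * X none ^ (eA + eB) * par b g c := by
      rw [map_mul, hPA, hPB, hC, hAB, hκdef, C_mul, pow_add]
      ring
    have hCC : ∀ x y : Ω, y ≠ 0 → (C x : MvPolynomial (Option (Fin m)) Ω) = C (x / y) * C y := by
      intro x y hy'
      rw [← C_mul, div_mul_cancel₀ _ hy']
    rcases lt_trichotomy (δA + δB) 3 with hs | hs | hs
    · -- s < 3
      obtain ⟨j, hj⟩ : ∃ j, δA + δB + j = 3 := ⟨3 - (δA + δB), by omega⟩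
      have ha : a' = 2 * j + (eA + eB) := by omega
      have h1 : par b g (A1 * B1) * X none ^ (2 * j) = C κ * par b g c := by
        apply mul_right_cancel₀ (hXne (eA + eB))
        rw [mul_assoc, ← pow_add, ← ha, hmain]
        ring
      have h2 : par b g (c - C (1 / κ * (1 / (-2 * b) ^ j)) * (A1 * B1 * X (Sum.inl 1) ^ j)) = 0 := by
        rw [map_sub, map_mul (par b g), map_mul (par b g), C5_par_s2_pow, hcomm]
        have h3 : C (1 / κ * (1 / (-2 * b) ^ j)) *
            (par b g (A1 * B1) * (C ((-2 * b) ^ j) * X none ^ (2 * j))) =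
            (C (1 / κ * (1 / (-2 * b) ^ j)) * C ((-2 * b) ^ j)) *
              (par b g (A1 * B1) * X none ^ (2 * j)) := by ring
        rw [h3, h1, ← C_mul]
        have h4 : 1 / κ * (1 / (-2 * b) ^ j) * (-2 * b) ^ j = 1 / κ := by
          have := pow_ne_zero j hb2
          field_simp
        rw [h4, ← mul_assoc, ← C_mul, one_div, inv_mul_cancel₀ hκ, map_one, one_mul, sub_self]
      obtain ⟨V, hV⟩ := key _ h2
      apply hcid
      obtain ⟨j', rfl⟩ : ∃ j', j = j' + 1 := ⟨j - 1, by omega⟩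
      have h5 : c = C (1 / κ * (1 / (-2 * b) ^ (j' + 1))) * (A1 * B1 * X (Sum.inl 1) ^ j') *
          X (Sum.inl 1) + qC b g * V := by
        rw [← hV]; ring
      rw [h5]
      exact Ideal.add_mem _ (Ideal.mul_mem_left _ _ hs2) (Ideal.mul_mem_right _ _ hq)
    · -- s = 3
      have ha : a' = eA + eB := by omega
      have h1 : par b g (A1 * B1) = C κ * par b g c := by
        apply mul_right_cancel₀ (hXne a')
        rw [hmain, ← ha]
        ring
      have h2 : par b g (c - C κ⁻¹ * (A1 * B1)) = 0 := by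
        rw [map_sub, map_mul (par b g), hcomm, h1, ← mul_assoc, ← C_mul, inv_mul_cancel₀ hκ, map_one,
          one_mul, sub_self]
      obtain ⟨V, hV⟩ := key _ h2
      have hδA1 : 1 ≤ δA := by omega
      have hδB1 : 1 ≤ δB := by omega
      have hcase : (δA = 1 ∧ δB = 2) ∨ (δA = 2 ∧ δB = 1) := by omega
      rcases hcase with ⟨h3, h4⟩ | ⟨h3, h4⟩
      · refine no_product hm b g hg c r hc hr hB (C κ⁻¹ * A1) B1 V ?_ (h4 ▸ hB1) ?_
        · have := (isHomogeneous_C (Fin 2 ⊕ Fin m) (κ⁻¹ : Ω)).mul hA1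
          rw [h3] at this
          simpa using this
        · rw [← hV]; ring
      · refine no_product hm b g hg c r hc hr hB (C κ⁻¹ * B1) A1 V ?_ (h3 ▸ hA1) ?_
        · have := (isHomogeneous_C (Fin 2 ⊕ Fin m) (κ⁻¹ : Ω)).mul hB1
          rw [h4] at this
          simpa using this
        · rw [← hV]; ring
    · -- s > 3
      obtain ⟨j, hj⟩ : ∃ j, δA + δB = 3 + (j + 1) := ⟨δA + δB - 4, by omega⟩
      have he : eA + eB = 2 * (j + 1) + a' := by omega
      have h1 : par b g (A1 * B1) = C κ * X none ^ (2 * (j + 1)) * par b g c := by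
        apply mul_right_cancel₀ (hXne a')
        rw [hmain, he, pow_add]
        ring
      have h2 : par b g (A1 * B1 - C (κ / (-2 * b) ^ (j + 1)) * (X (Sum.inl 1) ^ (j + 1) * c)) = 0 := by
        rw [map_sub, map_mul (par b g) (C _), map_mul (par b g) (X (Sum.inl 1) ^ (j + 1)),
          C5_par_s2_pow, hcomm, h1, hCC κ _ (pow_ne_zero (j + 1) hb2)]
        ring
      obtain ⟨V, hV⟩ := key _ h2
      apply hABid
      have h5 : A1 * B1 = C (κ / (-2 * b) ^ (j + 1)) * (X (Sum.inl 1) ^ j * c) *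
          X (Sum.inl 1) + qC b g * V := by
        rw [← hV]; ring
      rw [h5]
      exact Ideal.add_mem _ (Ideal.mul_mem_left _ _ hs2) (Ideal.mul_mem_right _ _ hq)
  exact hirr.prime

end Pool.Agent.LibHP
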