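import Mathlib

/-! # Row C8: divisibility of polynomials descends; field of fractions of an absolutely prime polynomial -/

set_option autoImplicit false
open MvPolynomial

namespace Pool.Agent.LibHP

/-- A linear map applied to all coefficients. -/
noncomputable def C8_Lam {M Ω σ : Type} [Field M] [Field Ω] [Algebra M Ω] (lam : Ω →ₗ[M] M)
    (f : MvPolynomial σ Ω) : MvPolynomial σ M :=
  ∑ m ∈ f.support, monomial m (lam (coeff m f))

theorem C8_coeff {M Ω σ : Type} [Field M] [Field Ω] [Algebra M Ω] (lam : Ω →ₗ[M] M)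
    (f : MvPolynomial σ Ω) (m : σ →₀ ℕ) : coeff m (C8_Lam lam f) = lam (coeff m f) := by
  classical
  rw [C8_Lam, coeff_sum]
  simp only [coeff_monomial]
  rw [Finset.sum_ite_eq']
  split_ifs with h
  · rfl
  · rw [notMem_support_iff.mp h, map_zero]

theorem C8_mul {M Ω σ : Type} [Field M] [Field Ω] [Algebra M Ω] (lam : Ω →ₗ[M] M)
    (p : MvPolynomial σ M) (h : MvPolynomial σ Ω) :
    C8_Lam lam (map (algebraMap M Ω) p * h) = p * C8_Lam lam h := by
  classical
  ext m
  rw [C8_coeff, coeff_mul, coeff_mul, map_sum]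
  refine Finset.sum_congr rfl fun x _ => ?_
  rw [coeff_map, C8_coeff, ← Algebra.smul_def, map_smul, smul_eq_mul]

theorem C8_map {M Ω σ : Type} [Field M] [Field Ω] [Algebra M Ω] (lam : Ω →ₗ[M] M) (ω : Ω)
    (q : MvPolynomial σ M) :
    C8_Lam lam (C ω * map (algebraMap M Ω) q) = C (lam ω) * q := by
  ext m
  rw [C8_coeff, coeff_C_mul, coeff_C_mul, coeff_map, mul_comm ω, ← Algebra.smul_def, map_smul,
    smul_eq_mul, mul_comm]

theorem C8_dvd_of_map_dvd {M Ω σ : Type} [Field M] [Field Ω] [Algebra M Ω] (p q : MvPolynomial σ M)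
    (h : map (algebraMap M Ω) p ∣ map (algebraMap M Ω) q) : p ∣ q := by
  obtain ⟨lam, hlam⟩ := LinearMap.exists_leftInverse_of_injective (Algebra.linearMap M Ω)
    (LinearMap.ker_eq_bot.mpr (algebraMap M Ω).injective)
  have h1 : lam 1 = 1 := by
    have := congrArg (fun f : M →ₗ[M] M => f 1) hlam
    simpa using this
  obtain ⟨g, hg⟩ := h
  have h2 := congrArg (C8_Lam lam) hg
  rw [C8_mul] at h2
  have h3 := C8_map (Ω := Ω) lam 1 q
  rw [C_1, one_mul, h1, C_1, one_mul, h2] at h3
  exact ⟨_, h3.symm⟩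

theorem C8_prime {M Ω σ : Type} [Field M] [Field Ω] [Algebra M Ω] (p : MvPolynomial σ M)
    (hp : Prime (map (algebraMap M Ω) p)) : Prime p := by
  refine ⟨?_, ?_, ?_⟩
  · rintro rfl
    exact hp.ne_zero (map_zero _)
  · intro h
    exact hp.not_isUnit (h.map _)
  · intro x y hxy
    have h1 : map (algebraMap M Ω) p ∣ map (algebraMap M Ω) x * map (algebraMap M Ω) y := by
      rw [← map_mul]
      exact map_dvd _ hxy
    rcases hp.dvd_or_dvd h1 with h | h
    · exact Or.inl (C8_dvd_of_map_dvd _ _ h)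
    · exact Or.inr (C8_dvd_of_map_dvd _ _ h)

theorem C8_exists_lam {M Ω : Type} [Field M] [Field Ω] [Algebra M Ω] (ω : Ω)
    (hω : ∀ m : M, algebraMap M Ω m ≠ ω) : ∃ lam : Ω →ₗ[M] M, lam 1 = 0 ∧ lam ω = 1 := by
  have hmem : ω ∉ Submodule.span M {(1 : Ω)} := by
    intro h
    obtain ⟨m, hm⟩ := Submodule.mem_span_singleton.mp h
    apply hω m
    rw [← hm, Algebra.smul_def, mul_one]
  obtain ⟨f, hf, hf'⟩ := Submodule.exists_le_ker_of_notMem hmem
  refine ⟨(f ω)⁻¹ • f, ?_, ?_⟩
  · have h1 : f 1 = 0 := hf' (Submodule.mem_span_singleton_self _)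
    rw [LinearMap.smul_apply, h1, smul_zero]
  · rw [LinearMap.smul_apply, smul_eq_mul, inv_mul_cancel₀ hf]

theorem exists_residue_field {M σ : Type} [Field M] [CharZero M] (p : MvPolynomial σ M)
    (hp : Prime (map (algebraMap M (AlgebraicClosure M)) p)) :
    ∃ (κ : Type) (_ : Field κ) (_ : Algebra M κ) (z : σ → κ),
      (∀ G : MvPolynomial σ M, aeval z G = 0 ↔ p ∣ G) ∧
      ∀ u : κ, (∃ Q : Polynomial M, Q ≠ 0 ∧ Polynomial.aeval u Q = 0) →
        ∃ a, algebraMap M κ a = u := by
  classical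
  let Ω := AlgebraicClosure M
  let p' : MvPolynomial σ Ω := map (algebraMap M Ω) p
  have hp' : Prime p' := hp
  have hpM : Prime p := C8_prime p hp
  have i1 : (Ideal.span {p}).IsPrime := (Ideal.span_singleton_prime hpM.ne_zero).mpr hpM
  have i2 : (Ideal.span {p'}).IsPrime := (Ideal.span_singleton_prime hp'.ne_zero).mpr hp'
  let D := MvPolynomial σ M ⧸ Ideal.span {p}
  let D' := MvPolynomial σ Ω ⧸ Ideal.span {p'}
  have i3 : IsDomain D := Ideal.Quotient.isDomain _
  have i4 : IsDomain D' := Ideal.Quotient.isDomain _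
  let κ := FractionRing D
  let κ' := FractionRing D'
  let f : MvPolynomial σ M →ₐ[M] κ :=
    (IsScalarTower.toAlgHom M D κ).comp (Ideal.Quotient.mkₐ M (Ideal.span {p}))
  let f' : MvPolynomial σ Ω →ₐ[Ω] κ' :=
    (IsScalarTower.toAlgHom Ω D' κ').comp (Ideal.Quotient.mkₐ Ω (Ideal.span {p'}))
  have hf : ∀ G, f G = 0 ↔ p ∣ G := by
    intro G
    change algebraMap D κ (Ideal.Quotient.mk _ G) = 0 ↔ _
    rw [map_eq_zero_iff _ (IsFractionRing.injective D κ), Ideal.Quotient.eq_zero_iff_mem,
      Ideal.mem_span_singleton]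
  have hf' : ∀ G, f' G = 0 ↔ p' ∣ G := by
    intro G
    change algebraMap D' κ' (Ideal.Quotient.mk _ G) = 0 ↔ _
    rw [map_eq_zero_iff _ (IsFractionRing.injective D' κ'), Ideal.Quotient.eq_zero_iff_mem,
      Ideal.mem_span_singleton]
  have hfa : aeval (fun i => f (X i)) = f := by
    apply MvPolynomial.algHom_ext
    intro i
    rw [aeval_X]
  refine ⟨κ, inferInstance, inferInstance, fun i => f (X i), ?_, ?_⟩
  · intro G
    rw [hfa]
    exact hf G
  · rintro u ⟨Q, hQ0, hQ⟩
    have hu : IsIntegral M u := by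
      have h1 : IsAlgebraic M u := ⟨Q, hQ0, hQ⟩
      exact h1.isIntegral
    -- the map of the fraction fields
    let g0 : D →+* D' := Ideal.quotientMap (Ideal.span {p'}) (map (algebraMap M Ω)) (by
      rw [Ideal.span_singleton_le_iff_mem, Ideal.mem_comap]
      exact Ideal.mem_span_singleton_self _)
    have hg0 : Function.Injective g0 := by
      apply Ideal.quotientMap_injective'
      intro x hx
      rw [Ideal.mem_comap, Ideal.mem_span_singleton] at hx
      rw [Ideal.mem_span_singleton]
      exact C8_dvd_of_map_dvd _ _ hx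
    let g : D →+* κ' := (algebraMap D' κ').comp g0
    have hg : Function.Injective g := (IsFractionRing.injective D' κ').comp hg0
    let j : κ →+* κ' := IsFractionRing.lift hg
    have hj : ∀ G, j (f G) = f' (map (algebraMap M Ω) G) := by
      intro G
      change IsFractionRing.lift hg (algebraMap D κ (Ideal.Quotient.mk _ G)) = _
      rw [IsFractionRing.lift_algebraMap]
      rfl
    have hcomp : (algebraMap Ω κ').comp (algebraMap M Ω) = j.comp (algebraMap M κ) := by
      ext m
      have h1 := hj (C m)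
      rw [map_C] at h1
      have h2 : f (C m) = algebraMap M κ m := f.commutes m
      have h3 : f' (C (algebraMap M Ω m)) = algebraMap Ω κ' (algebraMap M Ω m) := f'.commutes _
      rw [h2, h3] at h1
      exact h1.symm
    have hint : IsIntegral Ω (j u) := hu.map_of_comp_eq _ _ hcomp
    obtain ⟨ω, hω⟩ := minpoly.mem_range_of_degree_eq_one Ω (j u)
      (IsAlgClosed.degree_eq_one_of_irreducible Ω (minpoly.irreducible hint))
    obtain ⟨a, b, hb, hab⟩ := IsFractionRing.div_surjective (A := D) u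
    obtain ⟨A, rfl⟩ := Ideal.Quotient.mk_surjective a
    obtain ⟨B, rfl⟩ := Ideal.Quotient.mk_surjective b
    have hb0 : f B ≠ 0 := by
      change algebraMap D κ _ ≠ 0
      rw [Ne, map_eq_zero_iff _ (IsFractionRing.injective D κ)]
      exact nonZeroDivisors.ne_zero hb
    have hab' : u * f B = f A := by
      have h1 : u = f A / f B := hab.symm
      rw [h1, div_mul_cancel₀ _ hb0]
    have hdvd : p' ∣ map (algebraMap M Ω) A - C ω * map (algebraMap M Ω) B := by
      rw [← hf', map_sub, map_mul, ← hj, ← hj, ← hab', map_mul]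
      have h3 : f' (C ω) = algebraMap Ω κ' ω := f'.commutes _
      rw [h3, hω, sub_self]
    by_contra hcon
    push Not at hcon
    have hωM : ∀ m : M, algebraMap M Ω m ≠ ω := by
      intro m hm
      apply hcon m
      rw [← hm] at hdvd
      have h1 : p ∣ A - C m * B := by
        apply C8_dvd_of_map_dvd (Ω := Ω)
        rw [map_sub, map_mul, map_C]
        exact hdvd
      rw [← hf, map_sub, map_mul, ← hab'] at h1
      have h2 : f (C m) = algebraMap M κ m := f.commutes m
      rw [h2, ← sub_mul] at h1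
      rcases mul_eq_zero.mp h1 with h | h
      · exact (sub_eq_zero.mp h).symm
      · exact absurd h hb0
    obtain ⟨lam, hl1, hlω⟩ := C8_exists_lam ω hωM
    obtain ⟨h, hh⟩ := hdvd
    have h1 := congrArg (C8_Lam lam) hh
    have h2 : C8_Lam lam (map (algebraMap M Ω) A - C ω * map (algebraMap M Ω) B) = -B := by
      have h3 := C8_map (Ω := Ω) lam 1 A
      have h4 := C8_map (Ω := Ω) lam ω B
      rw [C_1, one_mul, hl1, C_0, zero_mul] at h3
      rw [hlω, C_1, one_mul] at h4
      ext m
      have h5 := congrArg (coeff m) h3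
      have h6 := congrArg (coeff m) h4
      rw [C8_coeff] at h5 h6 ⊢
      rw [coeff_sub, map_sub, h5, h6, coeff_zero, coeff_neg, zero_sub]
    rw [h2] at h1
    change -B = C8_Lam lam (map (algebraMap M Ω) p * h) at h1
    rw [C8_mul] at h1
    apply hb0
    rw [hf]
    exact (dvd_neg.mp ⟨_, h1⟩)

end Pool.Agent.LibHP
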