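import Pool.Agent.LibHPF.DefsG

/-! Row G1. Relations between the affine coordinates `w j = y j / y i` of the chart `z_i ≠ 0`. -/

set_option autoImplicit false

namespace Pool.Agent.LibHP

theorem chart_self {k K : Type} [Field k] [Field K] [Algebra k K] {n : ℕ}
    (y : Fin (n + 1) → K) (i : Fin (n + 1)) (hi : y i ≠ 0) : y i / y i = 1 := div_self hi

/-- homogenization in degree `D` with the variable `X i` -/
noncomputable def G1_hom {k : Type} [Field k] {n : ℕ} (D : ℕ) (i : Fin (n + 1))
    (G : MvPolynomial (Fin (n + 1)) k) : MvPolynomial (Fin (n + 1)) k :=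
  ∑ s ∈ G.support, MvPolynomial.monomial (s + Finsupp.single i (D - s.degree)) (G.coeff s)

theorem G1_degree_single {n : ℕ} (i : Fin (n + 1)) (e : ℕ) :
    (Finsupp.single i e : Fin (n + 1) →₀ ℕ).degree = e := by
  simp [Finsupp.degree_single]

theorem G1_degree_eq {n : ℕ} (s : Fin (n + 1) →₀ ℕ) : s.degree = s.sum fun _ e => e := rfl

theorem G1_hom_isHomogeneous {k : Type} [Field k] {n : ℕ} (D : ℕ) (i : Fin (n + 1))
    (G : MvPolynomial (Fin (n + 1)) k) (hD : G.totalDegree ≤ D) :
    (G1_hom D i G).IsHomogeneous D := by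
  unfold G1_hom
  apply MvPolynomial.IsHomogeneous.sum
  intro s hs
  apply MvPolynomial.isHomogeneous_monomial
  have h1 : s.degree ≤ D := by
    refine le_trans ?_ hD
    have := MvPolynomial.le_totalDegree hs
    rw [G1_degree_eq]
    exact this
  rw [map_add, G1_degree_single]
  omega

theorem G1_hom_aeval {k K : Type} [Field k] [Field K] [Algebra k K] {n : ℕ} (D : ℕ)
    (i : Fin (n + 1)) (y : Fin (n + 1) → K) (hi : y i ≠ 0)
    (G : MvPolynomial (Fin (n + 1)) k) (hD : G.totalDegree ≤ D) :
    MvPolynomial.aeval (fun j => y j / y i) G * y i ^ D =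
      MvPolynomial.aeval y (G1_hom D i G) := by
  unfold G1_hom
  rw [map_sum, MvPolynomial.aeval_def, MvPolynomial.eval₂_eq', Finset.sum_mul]
  apply Finset.sum_congr rfl
  intro s hs
  have h1 : s.degree ≤ D := by
    refine le_trans ?_ hD
    have := MvPolynomial.le_totalDegree hs
    rw [G1_degree_eq]
    exact this
  have h2 : ∑ j, s j = s.degree := by
    rw [Finsupp.degree_eq_sum]
  rw [MvPolynomial.aeval_monomial, Finsupp.prod_add_index' (by simp) (by intros; rw [pow_add]),
    Finsupp.prod_single_index (by simp), Finsupp.prod_fintype _ _ (by simp)]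
  have h3 : ∏ j, (y j / y i) ^ s j = (∏ j, y j ^ s j) / y i ^ s.degree := by
    rw [← h2, ← Finset.prod_pow_eq_pow_sum, ← Finset.prod_div_distrib]
    exact Finset.prod_congr rfl fun j _ => by rw [div_pow]
  rw [h3]
  have h4 : y i ^ D = y i ^ s.degree * y i ^ (D - s.degree) := by
    rw [← pow_add]; congr 1; omega
  rw [h4]
  have h5 : y i ^ s.degree ≠ 0 := pow_ne_zero _ hi
  field_simp

theorem G1_sub_mem {k : Type} [Field k] {n : ℕ} (D : ℕ) (i : Fin (n + 1))
    (G : MvPolynomial (Fin (n + 1)) k) :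
    (MvPolynomial.X i - 1 : MvPolynomial (Fin (n + 1)) k) ∣ G - G1_hom D i G := by
  unfold G1_hom
  conv_rhs => rw [MvPolynomial.as_sum G]
  have hs : (∑ v ∈ G.support, (MvPolynomial.monomial v) (MvPolynomial.coeff v G)).support =
      G.support := by rw [← MvPolynomial.as_sum G]
  rw [hs]
  have hc : ∀ s, MvPolynomial.coeff s (∑ v ∈ G.support,
      (MvPolynomial.monomial v) (MvPolynomial.coeff v G)) = MvPolynomial.coeff s G := by
    intro s; rw [← MvPolynomial.as_sum G]
  simp only [hc]
  rw [← Finset.sum_sub_distrib]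
  apply Finset.dvd_sum
  intro s _
  have h1 : MvPolynomial.monomial (s + Finsupp.single i (D - s.degree)) (G.coeff s) =
      MvPolynomial.monomial s (G.coeff s) * MvPolynomial.X i ^ (D - s.degree) := by
    rw [MvPolynomial.X_pow_eq_monomial, MvPolynomial.monomial_mul, mul_one]
  rw [h1]
  have h2 : MvPolynomial.monomial s (G.coeff s) -
      MvPolynomial.monomial s (G.coeff s) * MvPolynomial.X i ^ (D - s.degree) =
      (MvPolynomial.X i ^ (D - s.degree) - 1) * (- MvPolynomial.monomial s (G.coeff s)) := by ring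
  rw [h2]
  exact Dvd.dvd.mul_right (sub_one_dvd_pow_sub_one' _ _) _
where
  sub_one_dvd_pow_sub_one' {k : Type} [Field k] {n : ℕ} (x : MvPolynomial (Fin (n + 1)) k)
      (m : ℕ) : x - 1 ∣ x ^ m - 1 := by
    simpa using sub_dvd_pow_sub_pow x 1 m

theorem chart_relation {k K : Type} [Field k] [Field K] [Algebra k K] {n d : ℕ}
    (F : MvPolynomial (Fin (n + 1)) k) (hF : F.IsHomogeneous d) (y : Fin (n + 1) → K)
    (hy : IsHypPt F y) (i : Fin (n + 1)) (hi : y i ≠ 0) (G : MvPolynomial (Fin (n + 1)) k) :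
    MvPolynomial.aeval (fun j => y j / y i) G = 0 ↔
      G ∈ Ideal.span {F, MvPolynomial.X i - 1} := by
  have hpow : ∀ D, y i ^ D ≠ 0 := fun D => pow_ne_zero _ hi
  constructor
  · intro h
    have h1 := G1_hom_aeval G.totalDegree i y hi G le_rfl
    rw [h, zero_mul] at h1
    have h2 : F ∣ G1_hom G.totalDegree i G :=
      (hy.2.1 _ _ (G1_hom_isHomogeneous _ i G le_rfl)).1 h1.symm
    obtain ⟨a, ha⟩ := h2
    obtain ⟨b, hb⟩ := G1_sub_mem G.totalDegree i G
    rw [Ideal.mem_span_pair]
    refine ⟨a, b, ?_⟩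
    have : G = G1_hom G.totalDegree i G + (G - G1_hom G.totalDegree i G) := by ring
    rw [this, hb, ha]
    ring
  · intro h
    rw [Ideal.mem_span_pair] at h
    obtain ⟨a, b, rfl⟩ := h
    have h0 : MvPolynomial.aeval y F = 0 := (hy.2.1 d F hF).2 dvd_rfl
    have h1 : MvPolynomial.aeval (fun j => y j / y i) F = 0 := by
      have h2 := G1_hom_aeval F.totalDegree i y hi F le_rfl
      have h3 : G1_hom F.totalDegree i F = F := by
        by_cases hF0 : F = 0
        · subst hF0; simp [G1_hom]
        · have hd : F.totalDegree = d := hF.totalDegree hF0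
          unfold G1_hom
          conv_rhs => rw [MvPolynomial.as_sum F]
          apply Finset.sum_congr rfl
          intro s hs
          have h4 : s.degree = d := by
            have := hF (MvPolynomial.mem_support_iff.1 hs)
            rw [← this, G1_degree_eq]
            simp [Finsupp.weight_apply]
          rw [hd, h4]
          simp
      rw [h3, h0] at h2
      exact (mul_eq_zero.1 h2).resolve_right (hpow _)
    rw [map_add, map_mul, map_mul, h1, map_sub, MvPolynomial.aeval_X, map_one, div_self hi]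
    ring

theorem chart_isFractionRing {k K : Type} [Field k] [Field K] [Algebra k K] {n : ℕ}
    (F : MvPolynomial (Fin (n + 1)) k) (y : Fin (n + 1) → K)
    (hy : IsHypPt F y) (i : Fin (n + 1)) (hi : y i ≠ 0) : IsFractionRing (chartRing k y i) K := by
  have htop : IntermediateField.adjoin k (Set.range fun j => y j / y i) = ⊤ := by
    rw [eq_top_iff, ← hy.2.2]
    apply IntermediateField.adjoin_le_iff.2
    rintro _ ⟨j, rfl⟩
    have h0 : y 0 / y i ∈ IntermediateField.adjoin k (Set.range fun j => y j / y i) :=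
      IntermediateField.subset_adjoin _ _ ⟨0, rfl⟩
    have hj : y j / y i ∈ IntermediateField.adjoin k (Set.range fun j => y j / y i) :=
      IntermediateField.subset_adjoin _ _ ⟨j, rfl⟩
    have h1 := div_mem hj h0
    rw [hy.1] at h1
    have h2 : y j / y i / (1 / y i) = y j := by field_simp
    rwa [h2] at h1
  apply IsFractionRing.of_field
  intro z
  have hz : z ∈ IntermediateField.adjoin k (Set.range fun j => y j / y i) := by
    rw [htop]; trivial
  rw [IntermediateField.mem_adjoin_iff_div] at hz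
  obtain ⟨r, hr, s, hs, rfl⟩ := hz
  exact ⟨⟨r, hr⟩, ⟨s, hs⟩, rfl⟩

/-- All coordinates of the generic point are nonzero. -/
theorem IsHypPt.coord_ne_zero {k K : Type} [Field k] [CharZero k] [Field K] [Algebra k K] {n : ℕ}
    {F : MvPolynomial (Fin (n + 1)) k} (hF : F.IsHomogeneous 4) {y : Fin (n + 1) → K}
    (hy : IsHypPt F y) (i : Fin (n + 1)) : y i ≠ 0 := by
  intro h
  have h1 : F ∣ MvPolynomial.X i :=
    (hy.2.1 1 (MvPolynomial.X i) (MvPolynomial.isHomogeneous_X k i)).1 (by simpa using h)
  obtain ⟨Q, hQ⟩ := h1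
  have hX : (MvPolynomial.X i : MvPolynomial (Fin (n + 1)) k) ≠ 0 := MvPolynomial.X_ne_zero i
  have hF0 : F ≠ 0 := by rintro rfl; simp at hQ
  have hQ0 : Q ≠ 0 := by rintro rfl; simp at hQ
  have h2 := congrArg MvPolynomial.totalDegree hQ
  rw [MvPolynomial.totalDegree_mul_of_isDomain hF0 hQ0, MvPolynomial.totalDegree_X,
    hF.totalDegree hF0] at h2
  omega

end Pool.Agent.LibHP
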