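import Pool.Agent.LibHPF.G3b
import Pool.Agent.LibHP.S2

/-! G14 (helper98): the localizations of the chart rings at height one primes are discrete valuation
rings. -/

set_option autoImplicit false

namespace Pool.Agent.LibHP

theorem chartRing_dvr {k K : Type} [Field k] [CharZero k] [Field K] [Algebra k K]
    {n d : ℕ} (hd : d ≠ 0)
    (F : MvPolynomial (Fin (n + 1)) k) (hF : F.IsHomogeneous d) (hsm : IsSmoothHyp F)
    (y : Fin (n + 1) → K) (hy : IsHypPt F y) (i : Fin (n + 1)) (hi : y i ≠ 0)
    (p : Ideal (chartRing k y i)) [hp : p.IsPrime] (hp1 : p.height = 1) :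
    IsDiscreteValuationRing (Localization.AtPrime p) := by
  haveI := chartRing_isNoetherianRing k y i
  haveI := chartRing_isIntegrallyClosed hd F hF hsm y hy i hi
  have hle : p.primeCompl ≤ nonZeroDivisors (chartRing k y i) := p.primeCompl_le_nonZeroDivisors
  haveI : IsDomain (Localization.AtPrime p) := IsLocalization.isDomain_localization hle
  haveI : IsNoetherianRing (Localization.AtPrime p) :=
    IsLocalization.isNoetherianRing p.primeCompl _ inferInstance
  haveI : IsIntegrallyClosed (Localization.AtPrime p) :=
    isIntegrallyClosed_of_isLocalization (R := chartRing k y i) _ p.primeCompl hle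
  refine isDiscreteValuationRing_of_dim_one _ ?_
  rw [IsLocalization.AtPrime.ringKrullDim_eq_height p (Localization.AtPrime p), hp1]
  rfl

end Pool.Agent.LibHP
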