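import Pool.Agent.LibHPF.Q17
import Pool.Agent.LibHPF.Q0

set_option autoImplicit false
open MvPolynomial

namespace Pool.Agent.LibHP

/-!
# Row T11: function fields of absolutely integral affine varieties are regular

The version for ideals of row Q17 (see the proofs there).

PLAN. `L̄ = AlgebraicClosure L`, `ι : MvPolynomial σ L → MvPolynomial σ L̄` the coefficient map, `𝔟 = 𝔞.map ι`. Choose an
`L`-basis `B` of `L̄`; every `G` over `L̄` is `∑ b, B b • ι (G_b)` (finite sum, unique), and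
(*) `∑ b, C (B b) * ι (G_b) ∈ 𝔟` iff all `G_b ∈ 𝔞` (an element of `𝔟` is `∑ H_i * ι (a_i)`, expand `H_i` in the basis).
In particular `ι G ∈ 𝔟 ↔ G ∈ 𝔞` (basis containing `1`, or linear algebra), so `𝔞 = 𝔟.comap ι` is prime.
`E = FractionRing (MvPolynomial σ L ⧸ 𝔞)`, `Y i` the classes of the variables, the first two properties are clear
(`GenBy L Y`: every element is a fraction). `E' = FractionRing (MvPolynomial σ L̄ ⧸ 𝔟)`, `j : E → E'` over `L`
(injective on the quotient rings by (*)). Let `z ∈ E` be algebraic over `L`. `j z` is a root of a nonzero polynomial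
over `L`, which splits in `L̄`, so `j z = c ∈ L̄` (image). Write `z * aeval Y H = aeval Y G`, `H ∉ 𝔞`: then
`C c * ι H - ι G ∈ 𝔟`. If `c ∉ L`, take a basis `B` containing `1` and `c`: by (*) (coefficient of `c`) `H ∈ 𝔞`,
contradiction. So `c = algebraMap a`, and `z = algebraMap a` as `j` is injective.
-/

theorem T11_pr_add {K L σ : Type} [Field K] [Field L] [Algebra K L] (π : L →ₗ[K] K)
    (A B : MvPolynomial σ L) : Q17_pr π (A + B) = Q17_pr π A + Q17_pr π B := by
  ext n
  rw [Q17_coeff_pr, coeff_add, coeff_add, Q17_coeff_pr, Q17_coeff_pr, map_add]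

theorem T11_pr_zero {K L σ : Type} [Field K] [Field L] [Algebra K L] (π : L →ₗ[K] K) :
    Q17_pr π (0 : MvPolynomial σ L) = 0 := by
  ext n
  rw [Q17_coeff_pr, coeff_zero, coeff_zero, map_zero]

theorem T11_pr_mem {K L σ : Type} [Field K] [Field L] [Algebra K L] (π : L →ₗ[K] K)
    (𝔞 : Ideal (MvPolynomial σ K)) (A : MvPolynomial σ L)
    (hA : A ∈ 𝔞.map (MvPolynomial.map (σ := σ) (algebraMap K L))) : Q17_pr π A ∈ 𝔞 := by
  have key : ∀ B : MvPolynomial σ L, Q17_pr π (B * A) ∈ 𝔞 := by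
    refine Submodule.span_induction (p := fun A _ => ∀ B : MvPolynomial σ L, Q17_pr π (B * A) ∈ 𝔞)
      ?_ ?_ ?_ ?_ hA
    · rintro _ ⟨f, hf, rfl⟩ B
      rw [mul_comm]
      have h := Q17_pr_mul π f B
      rw [h]
      exact 𝔞.mul_mem_right _ hf
    · intro B
      rw [mul_zero, T11_pr_zero]
      exact 𝔞.zero_mem
    · intro x y _ _ hx hy B
      rw [mul_add, T11_pr_add]
      exact 𝔞.add_mem (hx B) (hy B)
    · intro c x _ hx B
      rw [smul_eq_mul, ← mul_assoc]
      exact hx (B * c)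
  have h := key 1
  rwa [one_mul] at h

theorem T11_mem_of_map_mem {K L σ : Type} [Field K] [Field L] [Algebra K L]
    (𝔞 : Ideal (MvPolynomial σ K)) (G : MvPolynomial σ K)
    (hG : G.map (algebraMap K L) ∈ 𝔞.map (MvPolynomial.map (σ := σ) (algebraMap K L))) :
    G ∈ 𝔞 := by
  obtain ⟨π, hπ⟩ := LinearMap.exists_leftInverse_of_injective (Algebra.linearMap K L)
    (LinearMap.ker_eq_bot.2 (algebraMap K L).injective)
  have h := T11_pr_mem π 𝔞 _ hG
  have h2 : Q17_pr π (G.map (algebraMap K L)) = G := by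
    ext n
    rw [Q17_coeff_pr, coeff_map]
    exact LinearMap.congr_fun hπ (coeff n G)
  rwa [h2] at h

theorem T11_algClosed (K σ M : Type) [Field K] [Field M] [Algebra K M]
    (𝔞 : Ideal (MvPolynomial σ K))
    (hf : (𝔞.map (MvPolynomial.map (σ := σ) (algebraMap K (AlgebraicClosure K)))).IsPrime)
    (W : σ → M)
    (hW : ∀ G : MvPolynomial σ K, aeval W G = 0 ↔ G ∈ 𝔞)
    (hgen : ∀ z : M, ∃ G H : MvPolynomial σ K, aeval W H ≠ 0 ∧ z * aeval W H = aeval W G)
    (z : M) (hz : IsAlgebraic K z) : ∃ a : K, algebraMap K M a = z := by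
  obtain ⟨G, H, hH, hGH⟩ := hgen z
  set p := minpoly K z with hp
  set n := p.natDegree with hn
  set Φ : MvPolynomial σ K := ∑ i ∈ Finset.range (n + 1), C (p.coeff i) * G ^ i * H ^ (n - i)
    with hΦ
  have hdvd : Φ ∈ 𝔞 := by
    rw [← hW, hΦ, map_sum]
    have h1 := Q17_hom (p.map (algebraMap K M)) n (Polynomial.natDegree_map _) (aeval W G) z
      (aeval W H) hGH.symm
    rw [Polynomial.eval_map_algebraMap, hp, minpoly.aeval, mul_zero] at h1
    rw [← h1]
    refine Finset.sum_congr rfl fun i _ => ?_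
    rw [map_mul, map_mul, map_pow, map_pow, algHom_C, Polynomial.coeff_map]
  -- the domain over the algebraic closure
  set ι := algebraMap K (AlgebraicClosure K) with hι
  set 𝔟 := 𝔞.map (MvPolynomial.map (σ := σ) ι) with h𝔟
  set L' := FractionRing (MvPolynomial σ (AlgebraicClosure K) ⧸ 𝔟) with hL'
  set θ : MvPolynomial σ (AlgebraicClosure K) →+* L' :=
    (algebraMap (MvPolynomial σ (AlgebraicClosure K) ⧸ 𝔟) L').comp
      (Ideal.Quotient.mk 𝔟) with hθ
  have hθ0 : ∀ X, θ X = 0 ↔ X ∈ 𝔟 := by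
    intro X
    rw [hθ, RingHom.comp_apply, map_eq_zero_iff _ (IsFractionRing.injective _ _),
      Ideal.Quotient.eq_zero_iff_mem]
  have hH' : θ (H.map ι) ≠ 0 := by
    intro h
    exact hH ((hW H).2 (T11_mem_of_map_mem 𝔞 H ((hθ0 _).1 h)))
  set z' := θ (G.map ι) / θ (H.map ι) with hz'
  have h2 : θ (Φ.map ι) = 0 := (hθ0 _).2 (Ideal.mem_map_of_mem _ hdvd)
  have h3 : (p.map (θ.comp (C.comp ι))).eval z' = 0 := by
    have h1 := Q17_hom (p.map (θ.comp (C.comp ι))) n (Polynomial.natDegree_map _)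
      (θ (G.map ι)) z' (θ (H.map ι)) (by rw [hz', div_mul_cancel₀ _ hH'])
    have h4 : ∑ i ∈ Finset.range (n + 1), (p.map (θ.comp (C.comp ι))).coeff i *
        (θ (G.map ι)) ^ i * (θ (H.map ι)) ^ (n - i) = 0 := by
      rw [← h2, hΦ, map_sum, map_sum]
      refine Finset.sum_congr rfl fun i _ => ?_
      rw [map_mul, map_mul, map_pow, map_pow, map_mul, map_mul, map_pow, map_pow, map_C,
        Polynomial.coeff_map]
      rfl
    rw [h4] at h1
    rcases mul_eq_zero.1 h1.symm with h5 | h5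
    · exact absurd h5 (pow_ne_zero _ hH')
    · exact h5
  -- a root in the algebraic closure
  have hsp : (p.map ι).Splits := IsAlgClosed.splits _
  have hp0 : p.Monic := minpoly.monic hz.isIntegral
  obtain ⟨c, hc⟩ : ∃ c : AlgebraicClosure K, z' = θ (C c) := by
    have h5 : p.map (θ.comp (C.comp ι)) = (p.map ι).map (θ.comp C) := by
      rw [Polynomial.map_map]
      rfl
    rw [h5, Polynomial.eval_map, hsp.eq_prod_roots, (hp0.map ι).leadingCoeff, Polynomial.C_1,
      one_mul, Polynomial.eval₂_multiset_prod, Multiset.prod_eq_zero_iff, Multiset.map_map] at h3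
    obtain ⟨c, -, hc⟩ := Multiset.mem_map.1 h3
    refine ⟨c, ?_⟩
    simp only [Function.comp_apply, Polynomial.eval₂_sub, Polynomial.eval₂_X,
      Polynomial.eval₂_C] at hc
    exact sub_eq_zero.1 hc
  have h6 : G.map ι - C c * H.map ι ∈ 𝔟 := by
    rw [← hθ0, map_sub, map_mul, ← hc, hz', div_mul_cancel₀ _ hH', sub_self]
  by_cases hcr : ∃ a : K, ι a = c
  · obtain ⟨a, rfl⟩ := hcr
    refine ⟨a, ?_⟩
    have h7 : G - C a * H ∈ 𝔞 := by
      refine T11_mem_of_map_mem (L := AlgebraicClosure K) 𝔞 _ ?_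
      rw [map_sub, map_mul, map_C]
      exact h6
    have h8 := (hW _).2 h7
    rw [map_sub, map_mul, algHom_C, ← hGH, sub_eq_zero] at h8
    exact (mul_right_cancel₀ hH h8).symm
  · exfalso
    have h9 : c ∉ Submodule.span K {(1 : AlgebraicClosure K)} := by
      intro h
      obtain ⟨a, ha⟩ := Submodule.mem_span_singleton.1 h
      exact hcr ⟨a, by rw [← ha, Algebra.smul_def, mul_one]⟩
    obtain ⟨π, hπc, hπ⟩ := Submodule.exists_le_ker_of_notMem h9
    have hπ1 : π 1 = 0 := hπ (Submodule.mem_span_singleton_self 1)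
    have h10 : C (-(π c)) * H ∈ 𝔞 := by
      have h := T11_pr_mem π 𝔞 _ h6
      have h' : Q17_pr π (G.map ι - C c * H.map ι) = C (-(π c)) * H := by
        ext m
        rw [Q17_coeff_pr, coeff_C_mul]
        rw [coeff_sub, coeff_C_mul, coeff_map, coeff_map, map_sub]
        have h12 : π (ι (coeff m G)) = 0 := by
          have : ι (coeff m G) = coeff m G • (1 : AlgebraicClosure K) := by
            rw [Algebra.smul_def, mul_one]
          rw [this, map_smul, hπ1, smul_zero]
        have h13 : π (c * ι (coeff m H)) = coeff m H * π c := by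
          have : c * ι (coeff m H) = coeff m H • c := by
            rw [Algebra.smul_def, mul_comm]
          rw [this, map_smul, smul_eq_mul]
        rw [h12, h13]
        ring
      rwa [h'] at h
    have h14 : H ∈ 𝔞 := by
      have h15 : IsUnit (C (-(π c)) : MvPolynomial σ K) :=
        (isUnit_iff_ne_zero.2 (neg_ne_zero.2 hπc)).map C
      exact (Ideal.unit_mul_mem_iff_mem 𝔞 h15).1 h10
    exact hH ((hW H).2 h14)

theorem exists_field_of_geomPrime (L σ : Type) [Field L] (𝔞 : Ideal (MvPolynomial σ L))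
    (h𝔞 : (𝔞.map (MvPolynomial.map (σ := σ) (algebraMap L (AlgebraicClosure L)))).IsPrime) :
    ∃ (E : Type) (_ : Field E) (_ : Algebra L E) (Y : σ → E),
      (∀ G : MvPolynomial σ L, aeval Y G = 0 ↔ G ∈ 𝔞) ∧ GenBy L Y ∧
      ∀ z : E, IsAlgebraic L z → ∃ a : L, algebraMap L E a = z := by
  have hp : 𝔞.IsPrime := by
    have h : 𝔞 = (𝔞.map (MvPolynomial.map (σ := σ) (algebraMap L (AlgebraicClosure L)))).comap
        (MvPolynomial.map (σ := σ) (algebraMap L (AlgebraicClosure L))) :=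
      le_antisymm Ideal.le_comap_map fun G hG => T11_mem_of_map_mem 𝔞 G hG
    rw [h]
    exact h𝔞.comap _
  have hY : ∀ G : MvPolynomial σ L,
      aeval (fun i => algebraMap (MvPolynomial σ L ⧸ 𝔞) (FractionRing (MvPolynomial σ L ⧸ 𝔞))
        (Ideal.Quotient.mk 𝔞 (X i))) G =
      algebraMap (MvPolynomial σ L ⧸ 𝔞) (FractionRing (MvPolynomial σ L ⧸ 𝔞))
        (Ideal.Quotient.mk 𝔞 G) := by
    intro G
    induction G using MvPolynomial.induction_on with
    | C a =>
      rw [algHom_C, IsScalarTower.algebraMap_apply L (MvPolynomial σ L ⧸ 𝔞)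
        (FractionRing (MvPolynomial σ L ⧸ 𝔞))]
      rfl
    | add p q hp hq => rw [map_add, map_add, map_add, hp, hq]
    | mul_X p i hp => rw [map_mul, map_mul, map_mul, hp, aeval_X]
  have hW : ∀ G : MvPolynomial σ L,
      aeval (fun i => algebraMap (MvPolynomial σ L ⧸ 𝔞) (FractionRing (MvPolynomial σ L ⧸ 𝔞))
        (Ideal.Quotient.mk 𝔞 (X i))) G = 0 ↔ G ∈ 𝔞 := by
    intro G
    rw [hY, map_eq_zero_iff _ (IsFractionRing.injective _ _), Ideal.Quotient.eq_zero_iff_mem]
  have hG : GenBy L (fun i => algebraMap (MvPolynomial σ L ⧸ 𝔞)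
      (FractionRing (MvPolynomial σ L ⧸ 𝔞)) (Ideal.Quotient.mk 𝔞 (X i))) := by
    intro z
    obtain ⟨a, b, hb, hab⟩ := IsFractionRing.div_surjective (A := MvPolynomial σ L ⧸ 𝔞) z
    obtain ⟨G, rfl⟩ := Ideal.Quotient.mk_surjective a
    obtain ⟨H, rfl⟩ := Ideal.Quotient.mk_surjective b
    have hb0 : algebraMap (MvPolynomial σ L ⧸ 𝔞) (FractionRing (MvPolynomial σ L ⧸ 𝔞))
        (Ideal.Quotient.mk 𝔞 H) ≠ 0 := by
      rw [Ne, map_eq_zero_iff _ (IsFractionRing.injective _ _)]
      exact nonZeroDivisors.ne_zero hb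
    refine ⟨G, H, ?_, ?_⟩
    · rw [hY]
      exact hb0
    · rw [hY, hY, ← hab, div_mul_cancel₀ _ hb0]
  exact ⟨FractionRing (MvPolynomial σ L ⧸ 𝔞), inferInstance, inferInstance, _, hW, hG,
    T11_algClosed L σ _ 𝔞 h𝔞 _ hW hG⟩

end Pool.Agent.LibHP
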