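import Pool.Agent.LibHPF.TD

set_option autoImplicit false
open MvPolynomial

namespace Pool.Agent.LibHP

variable {k : Type} [Field k] {n : ℕ} {φ : Tens k n}

/-!
# Row T12: the polynomials `cfP`

`cfP φ x u = cf φ (C ∘ x) (frm (C ∘ u) X)` in `MvPolynomial (Fin 4) Ω` (a `k`-algebra), and
`cf φ x y = ![12 φ(x,x,x,y), 6 φ(x,x,y,y), 4 φ(x,y,y,y), 3 φ(y,y,y,y)]`, `frm u z j = ∑ a, z a * u a j`.

PLAN. `frm_map`, `cf_map`: unfold, `map_sum`, `Phi_map` (`Phi_map_ringHom`), `fin_cases a`. `cfP_aeval`: `Phi_map` for the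
`k`-algebra map `aeval z : MvPolynomial (Fin 4) Ω →ₐ[Ω] Ω'` restricted to `k` (`AlgHom.restrictScalars k`), `aeval_C`,
`aeval_X`; `cfP_eval` is the case `Ω' = Ω` (`coe_aeval_eq_eval`). `cfP_hom`: like `isHomogeneous_FF` in Q0.lean; each
entry of `frm (C ∘ u) X` is homogeneous of degree 1. `cfP_zero`: linearity of the last slot
(`Phi φ (C ∘ x) (C ∘ x) (C ∘ x) (frm ..) = ∑ a, X a * C (Phi φ x x x (u a))`; e.g. `Phi_eq_sum` or the linear map `PhiL`
and `map_sum`) and `h0`. `cfP_pderiv`: `pderiv i` is an `Ω`-derivation, restrict it to `k`, `Phi_deriv`;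
`pderiv i (C _) = 0`, `pderiv i (frm (C ∘ u) X j) = C (u i j)`; then collect with the symmetry lemmas `Phi_comm12`,
`Phi_comm23`, `Phi_comm34`: `12 φ(x,x,x,u_i)`, `12 φ(x,x,y,u_i)`, `12 φ(x,y,y,u_i)`, `12 φ(y,y,y,u_i)`.
`cf_frm`: expand `3 φ(y + s x, ...)` by multilinearity (or prove the polynomial identities needed later).
-/

section
variable {R S : Type} [CommRing R] [Algebra k R] [CommRing S] [Algebra k S]

theorem T12_frm_map (f : R →+* S) (u : Fin 4 → Fin (n + 1) → R) (z : Fin 4 → R) (j : Fin (n + 1)) :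
    f (frm u z j) = frm (fun a j => f (u a j)) (fun a => f (z a)) j := by
  simp only [frm, map_sum, map_mul]

theorem T12_cf_map (f : R →+* S) (hf : ∀ c : k, f (algebraMap k R c) = algebraMap k S c)
    (x y : Fin (n + 1) → R) (a : Fin 4) :
    f (cf φ x y a) = cf φ (fun j => f (x j)) (fun j => f (y j)) a := by
  fin_cases a
  · change f (12 * Phi φ x x x y) = 12 * Phi φ _ _ _ _
    rw [map_mul, Phi_map_ringHom φ f hf, map_ofNat]
  · change f (6 * Phi φ x x y y) = 6 * Phi φ _ _ _ _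
    rw [map_mul, Phi_map_ringHom φ f hf, map_ofNat]
  · change f (4 * Phi φ x y y y) = 4 * Phi φ _ _ _ _
    rw [map_mul, Phi_map_ringHom φ f hf, map_ofNat]
  · change f (3 * Phi φ y y y y) = 3 * Phi φ _ _ _ _
    rw [map_mul, Phi_map_ringHom φ f hf, map_ofNat]

theorem T12_Phi_frm (a b c : Fin (n + 1) → R) (u : Fin 4 → Fin (n + 1) → R) (z : Fin 4 → R) :
    Phi φ a b c (frm u z) = ∑ i, z i * Phi φ a b c (u i) := by
  have h : frm u z = ∑ i, z i • u i := by
    funext j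
    simp only [frm, Finset.sum_apply, Pi.smul_apply, smul_eq_mul]
  rw [h, ← PhiL_apply, map_sum]
  refine Finset.sum_congr rfl fun i _ => ?_
  rw [map_smul, PhiL_apply, smul_eq_mul]

theorem T12_Phi_zero1 (b c d : Fin (n + 1) → R) : Phi φ 0 b c d = 0 := by
  simp [Phi]

theorem T12_Phi_zero2 (a c d : Fin (n + 1) → R) : Phi φ a 0 c d = 0 := by
  simp [Phi]

theorem T12_Phi_zero3 (a b d : Fin (n + 1) → R) : Phi φ a b 0 d = 0 := by
  simp [Phi]

end

section
variable {Ω : Type} [Field Ω] [Algebra k Ω]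

theorem T12_alg_C (c : k) : algebraMap k (MvPolynomial (Fin 4) Ω) c = C (algebraMap k Ω c) := by
  rw [IsScalarTower.algebraMap_apply k Ω (MvPolynomial (Fin 4) Ω), MvPolynomial.algebraMap_eq]

theorem T12_hom (a b c d : Fin (n + 1) → MvPolynomial (Fin 4) Ω) (p q r s : ℕ)
    (ha : ∀ i, (a i).IsHomogeneous p) (hb : ∀ i, (b i).IsHomogeneous q)
    (hc : ∀ i, (c i).IsHomogeneous r) (hd : ∀ i, (d i).IsHomogeneous s) :
    (Phi φ a b c d).IsHomogeneous (p + q + r + s) := by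
  unfold Phi
  refine IsHomogeneous.sum _ _ _ fun i _ => IsHomogeneous.sum _ _ _ fun j _ =>
    IsHomogeneous.sum _ _ _ fun l _ => IsHomogeneous.sum _ _ _ fun t _ => ?_
  have h : p + q + r + s = 0 + (p + q + r + s) := by omega
  rw [h, T12_alg_C]
  exact (isHomogeneous_C _ _).mul ((((ha i).mul (hb j)).mul (hc l)).mul (hd t))

theorem T12_hom_frm (u : Fin 4 → Fin (n + 1) → Ω) (j : Fin (n + 1)) :
    (frm (fun a j => C (u a j)) X j : MvPolynomial (Fin 4) Ω).IsHomogeneous 1 := by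
  unfold frm
  refine IsHomogeneous.sum _ _ _ fun a _ => ?_
  exact (isHomogeneous_X Ω a).mul (isHomogeneous_C _ _)

theorem T12_hom_C (x : Fin (n + 1) → Ω) (j : Fin (n + 1)) :
    (C (x j) : MvPolynomial (Fin 4) Ω).IsHomogeneous 0 := isHomogeneous_C _ _

theorem T12_hom_num (m : ℕ) (P : MvPolynomial (Fin 4) Ω) (d : ℕ) (h : P.IsHomogeneous d) :
    ((m : MvPolynomial (Fin 4) Ω) * P).IsHomogeneous d := by
  have h1 : (m : MvPolynomial (Fin 4) Ω) = C (m : Ω) := by rw [map_natCast]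
  rw [h1]
  have h2 := (isHomogeneous_C (Fin 4) (m : Ω)).mul h
  rwa [zero_add] at h2

theorem T12_D_C (i : Fin 4) (x : Fin (n + 1) → Ω) :
    (fun j => ((pderiv i : Derivation Ω (MvPolynomial (Fin 4) Ω) _).restrictScalars k) (C (x j))) =
      (0 : Fin (n + 1) → MvPolynomial (Fin 4) Ω) := by
  funext j
  exact pderiv_C

theorem T12_D_frm (i : Fin 4) (u : Fin 4 → Fin (n + 1) → Ω) :
    (fun j => ((pderiv i : Derivation Ω (MvPolynomial (Fin 4) Ω) _).restrictScalars k)
      (frm (fun a j => C (u a j)) X j)) = fun j => (C (u i j) : MvPolynomial (Fin 4) Ω) := by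
  funext j
  change pderiv i (frm (fun a j => C (u a j)) X j) = _
  unfold frm
  rw [map_sum, Finset.sum_eq_single i]
  · rw [Derivation.leibniz, pderiv_C, pderiv_X_self, smul_zero, zero_add, smul_eq_mul, mul_one]
  · intro a _ ha
    rw [Derivation.leibniz, pderiv_C, pderiv_X_of_ne ha, smul_zero, smul_zero, zero_add]
  · intro h
    exact absurd (Finset.mem_univ i) h

end

section
variable {Ω Ω' : Type} [Field Ω] [Algebra k Ω] [Field Ω'] [Algebra k Ω']

theorem cfP_eval (x : Fin (n + 1) → Ω) (u : Fin 4 → Fin (n + 1) → Ω) (z : Fin 4 → Ω) (a : Fin 4) :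
    eval z (cfP φ x u a) = cf φ x (frm u z) a := by
  have hf : ∀ c : k, eval z (algebraMap k (MvPolynomial (Fin 4) Ω) c) = algebraMap k Ω c := by
    intro c
    rw [T12_alg_C, eval_C]
  unfold cfP
  rw [T12_cf_map (φ := φ) (eval z) hf]
  congr 1
  · funext j
    rw [eval_C]
  · funext j
    rw [T12_frm_map]
    simp only [eval_C, eval_X]

theorem cfP_aeval [Algebra Ω Ω'] [IsScalarTower k Ω Ω'] (x : Fin (n + 1) → Ω)
    (u : Fin 4 → Fin (n + 1) → Ω) (z : Fin 4 → Ω') (a : Fin 4) :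
    aeval z (cfP φ x u a) = cf φ (fun j => algebraMap Ω Ω' (x j))
      (frm (fun a j => algebraMap Ω Ω' (u a j)) z) a := by
  have hf : ∀ c : k, ((aeval z : MvPolynomial (Fin 4) Ω →ₐ[Ω] Ω') : MvPolynomial (Fin 4) Ω →+* Ω')
      (algebraMap k (MvPolynomial (Fin 4) Ω) c) = algebraMap k Ω' c := by
    intro c
    rw [T12_alg_C]
    change aeval z (C (algebraMap k Ω c)) = _
    rw [aeval_C, ← IsScalarTower.algebraMap_apply k Ω Ω']
  unfold cfP
  have h := T12_cf_map (φ := φ) ((aeval z : MvPolynomial (Fin 4) Ω →ₐ[Ω] Ω') :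
    MvPolynomial (Fin 4) Ω →+* Ω') hf (fun j => C (x j)) (frm (fun a j => C (u a j)) X) a
  change aeval z (cf φ (fun j => C (x j)) (frm (fun a j => C (u a j)) X) a) = _ at h
  rw [h]
  congr 1
  · funext j
    exact aeval_C z (x j)
  · funext j
    rw [T12_frm_map]
    congr 1
    · funext a j
      exact aeval_C z (u a j)
    · funext a
      exact aeval_X z a

theorem cfP_map (f : Ω →ₐ[k] Ω') (x : Fin (n + 1) → Ω) (u : Fin 4 → Fin (n + 1) → Ω)
    (a : Fin 4) :
    MvPolynomial.map (f : Ω →+* Ω') (cfP φ x u a) =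
      cfP φ (fun j => f (x j)) (fun a j => f (u a j)) a := by
  have hf : ∀ c : k, MvPolynomial.map (f : Ω →+* Ω') (algebraMap k (MvPolynomial (Fin 4) Ω) c) =
      algebraMap k (MvPolynomial (Fin 4) Ω') c := by
    intro c
    rw [T12_alg_C, T12_alg_C, map_C]
    congr 1
    exact f.commutes c
  unfold cfP
  rw [T12_cf_map (φ := φ) (MvPolynomial.map (f : Ω →+* Ω')) hf]
  congr 1
  · funext j
    rw [map_C]
    rfl
  · funext j
    rw [T12_frm_map]
    simp only [map_C, map_X]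
    rfl

theorem cfP_hom (x : Fin (n + 1) → Ω) (u : Fin 4 → Fin (n + 1) → Ω) (a : Fin 4) :
    (cfP φ x u a).IsHomogeneous (a.val + 1) := by
  have hC := T12_hom_C (n := n) x
  have hY := T12_hom_frm (n := n) u
  fin_cases a
  · exact T12_hom_num 12 _ 1 (T12_hom _ _ _ _ 0 0 0 1 hC hC hC hY)
  · exact T12_hom_num 6 _ 2 (T12_hom _ _ _ _ 0 0 1 1 hC hC hY hY)
  · exact T12_hom_num 4 _ 3 (T12_hom _ _ _ _ 0 1 1 1 hC hY hY hY)
  · exact T12_hom_num 3 _ 4 (T12_hom _ _ _ _ 1 1 1 1 hY hY hY hY)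

theorem cfP_zero (x : Fin (n + 1) → Ω) (u : Fin 4 → Fin (n + 1) → Ω)
    (h0 : ∀ a, 12 * Phi φ x x x (u a) = if a = 0 then 1 else 0) : cfP φ x u 0 = X 0 := by
  change 12 * Phi φ (fun j => C (x j)) (fun j => C (x j)) (fun j => C (x j))
    (frm (fun a j => C (u a j)) X) = X 0
  rw [T12_Phi_frm, Finset.mul_sum, Finset.sum_eq_single 0]
  · have h1 := Phi_map_ringHom φ (C : Ω →+* MvPolynomial (Fin 4) Ω)
      (fun c => (T12_alg_C c).symm) x x x (u 0)
    rw [← h1]
    have h2 := congrArg (C : Ω →+* MvPolynomial (Fin 4) Ω) (h0 0)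
    rw [if_pos rfl, map_mul, map_ofNat, map_one] at h2
    linear_combination X 0 * h2
  · intro b _ hb
    have h1 := Phi_map_ringHom φ (C : Ω →+* MvPolynomial (Fin 4) Ω)
      (fun c => (T12_alg_C c).symm) x x x (u b)
    rw [← h1]
    have h2 := congrArg (C : Ω →+* MvPolynomial (Fin 4) Ω) (h0 b)
    rw [if_neg hb, map_mul, map_ofNat, map_zero] at h2
    linear_combination X b * h2
  · intro h
    exact absurd (Finset.mem_univ 0) h

theorem cfP_pderiv (hφ : IsSymm4 φ) (x : Fin (n + 1) → Ω) (u : Fin 4 → Fin (n + 1) → Ω)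
    (z : Fin 4 → Ω) (i a : Fin 4) :
    eval z (pderiv i (cfP φ x u a)) = ![12 * Phi φ x x x (u i), 12 * Phi φ x x (frm u z) (u i),
      12 * Phi φ x (frm u z) (frm u z) (u i),
      12 * Phi φ (frm u z) (frm u z) (frm u z) (u i)] a := by
  set D : Derivation k (MvPolynomial (Fin 4) Ω) (MvPolynomial (Fin 4) Ω) :=
    (pderiv i : Derivation Ω (MvPolynomial (Fin 4) Ω) _).restrictScalars k with hD
  have hDC := T12_D_C (k := k) i x
  have hDY := T12_D_frm (k := k) i u
  rw [← hD] at hDC hDY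
  set XX : Fin (n + 1) → MvPolynomial (Fin 4) Ω := fun j => C (x j) with hXX
  set YY : Fin (n + 1) → MvPolynomial (Fin 4) Ω := frm (fun a j => C (u a j)) X with hYY
  have hf : ∀ c : k, eval z (algebraMap k (MvPolynomial (Fin 4) Ω) c) = algebraMap k Ω c := by
    intro c
    rw [T12_alg_C, eval_C]
  have eX : (fun j => eval z (XX j)) = x := by
    funext j
    rw [hXX]
    exact eval_C _
  have eY : (fun j => eval z (YY j)) = frm u z := by
    funext j
    rw [hYY, T12_frm_map]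
    simp only [eval_C, eval_X]
  have eU : (fun j => eval z (C (u i j) : MvPolynomial (Fin 4) Ω)) = u i := by
    funext j
    exact eval_C _
  have hnum : ∀ (m : ℕ) (P : MvPolynomial (Fin 4) Ω),
      pderiv i ((m : MvPolynomial (Fin 4) Ω) * P) = m * D P := by
    intro m P
    rw [Derivation.leibniz, Derivation.map_natCast, smul_zero, add_zero, smul_eq_mul]
    rfl
  fin_cases a
  · change eval z (pderiv i (((12 : ℕ) : MvPolynomial (Fin 4) Ω) * Phi φ XX XX XX YY)) =
      12 * Phi φ x x x (u i)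
    rw [hnum, Phi_deriv, hDC, hDY, T12_Phi_zero1, T12_Phi_zero2, T12_Phi_zero3, map_mul,
      map_natCast, zero_add, zero_add, zero_add, Phi_map_ringHom φ (eval z) hf, eX, eU]
    norm_num
  · change eval z (pderiv i (((6 : ℕ) : MvPolynomial (Fin 4) Ω) * Phi φ XX XX YY YY)) =
      12 * Phi φ x x (frm u z) (u i)
    rw [hnum, Phi_deriv, hDC, hDY, T12_Phi_zero1, T12_Phi_zero2, map_mul,
      map_natCast, zero_add, zero_add, map_add, Phi_map_ringHom φ (eval z) hf,
      Phi_map_ringHom φ (eval z) hf, eX, eU, eY, Phi_comm34 hφ x x (u i) (frm u z)]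
    push_cast
    ring
  · change eval z (pderiv i (((4 : ℕ) : MvPolynomial (Fin 4) Ω) * Phi φ XX YY YY YY)) =
      12 * Phi φ x (frm u z) (frm u z) (u i)
    rw [hnum, Phi_deriv, hDC, hDY, T12_Phi_zero1, map_mul,
      map_natCast, zero_add, map_add, map_add, Phi_map_ringHom φ (eval z) hf,
      Phi_map_ringHom φ (eval z) hf, Phi_map_ringHom φ (eval z) hf, eX, eU, eY,
      Phi_comm23 hφ x (u i) (frm u z) (frm u z), Phi_comm34 hφ x (frm u z) (u i) (frm u z)]
    push_cast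
    ring
  · change eval z (pderiv i (((3 : ℕ) : MvPolynomial (Fin 4) Ω) * Phi φ YY YY YY YY)) =
      12 * Phi φ (frm u z) (frm u z) (frm u z) (u i)
    rw [hnum, Phi_deriv, hDY, map_mul,
      map_natCast, map_add, map_add, map_add, Phi_map_ringHom φ (eval z) hf,
      Phi_map_ringHom φ (eval z) hf, Phi_map_ringHom φ (eval z) hf,
      Phi_map_ringHom φ (eval z) hf, eU, eY,
      Phi_comm12 hφ (u i) (frm u z) (frm u z) (frm u z),
      Phi_comm23 hφ (frm u z) (u i) (frm u z) (frm u z),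
      Phi_comm34 hφ (frm u z) (frm u z) (u i) (frm u z)]
    push_cast
    ring

end

/-- The restriction of the form to the line through `y` and the point `x` of the hypersurface. -/
theorem cf_line (hφ : IsSymm4 φ) {R : Type} [CommRing R] [Algebra k R] (x y : Fin (n + 1) → R)
    (hx : Phi φ x x x x = 0) (s : R) :
    3 * Phi φ (y + s • x) (y + s • x) (y + s • x) (y + s • x) = cf φ x y 0 * s ^ 3 +
      3 * cf φ x y 1 * s ^ 2 + 3 * cf φ x y 2 * s + cf φ x y 3 ∧
    12 * Phi φ (y + s • x) (y + s • x) (y + s • x) x = 3 * (cf φ x y 0 * s ^ 2 +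
      2 * cf φ x y 1 * s + cf φ x y 2) ∧
    12 * Phi φ (y + s • x) (y + s • x) x x = 2 * (cf φ x y 0 * s + cf φ x y 1) ∧
    12 * Phi φ (y + s • x) x x x = cf φ x y 0 := by
  have h1 : Phi φ x x y x = Phi φ x x x y := Phi_comm34 hφ _ _ _ _
  have h2 : Phi φ x y x x = Phi φ x x x y := by rw [Phi_comm23 hφ, h1]
  have h3 : Phi φ y x x x = Phi φ x x x y := by rw [Phi_comm12 hφ, h2]
  have h4 : Phi φ x y x y = Phi φ x x y y := Phi_comm23 hφ _ _ _ _
  have h5 : Phi φ x y y x = Phi φ x x y y := by rw [Phi_comm34 hφ, h4]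
  have h6 : Phi φ y x x y = Phi φ x x y y := by rw [Phi_comm12 hφ, h4]
  have h7 : Phi φ y x y x = Phi φ x x y y := by rw [Phi_comm12 hφ, h5]
  have h8 : Phi φ y y x x = Phi φ x x y y := by rw [Phi_comm23 hφ, h7]
  have h9 : Phi φ y x y y = Phi φ x y y y := Phi_comm12 hφ _ _ _ _
  have h10 : Phi φ y y x y = Phi φ x y y y := by rw [Phi_comm23 hφ, h9]
  have h11 : Phi φ y y y x = Phi φ x y y y := by rw [Phi_comm34 hφ, h10]
  have c0 : cf φ x y 0 = 12 * Phi φ x x x y := rfl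
  have c1 : cf φ x y 1 = 6 * Phi φ x x y y := rfl
  have c2 : cf φ x y 2 = 4 * Phi φ x y y y := rfl
  have c3 : cf φ x y 3 = 3 * Phi φ y y y y := rfl
  rw [c0, c1, c2, c3]
  simp only [Phi_add1, Phi_add2, Phi_add3, Phi_add4, Phi_smul1, Phi_smul2, Phi_smul3, Phi_smul4,
    h1, h2, h3, h4, h5, h6, h7, h8, h9, h10, h11, hx]
  refine ⟨?_, ?_, ?_, ?_⟩ <;> ring

end Pool.Agent.LibHP
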