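import Pool.Agent.LibHPF.Q5

set_option autoImplicit false
open MvPolynomial

namespace Pool.Agent.LibHP

/-! ### Minors of the matrix `(A0 A1 A2; A1 A2 A3)` -/

/-- `A1 A3 - A2 ^ 2`. -/
def mn1 {S : Type} [CommRing S] (A : Fin 4 → S) : S := A 1 * A 3 - A 2 ^ 2

/-- `A0 A3 - A1 A2`. -/
def mn2 {S : Type} [CommRing S] (A : Fin 4 → S) : S := A 0 * A 3 - A 1 * A 2

/-- `A0 A2 - A1 ^ 2`. -/
def mn3 {S : Type} [CommRing S] (A : Fin 4 → S) : S := A 0 * A 2 - A 1 ^ 2

/-- The ideal of the three minors. -/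
def detI {S : Type} [CommRing S] (A : Fin 4 → S) : Ideal S := Ideal.span {mn1 A, mn2 A, mn3 A}

/-- Dehomogenisation `X 0 = 1`. -/
noncomputable def dh {Ω : Type} [Field Ω] : MvPolynomial (Fin 4) Ω →ₐ[Ω] MvPolynomial (Fin 3) Ω :=
  aeval (Fin.cons 1 X : Fin 4 → MvPolynomial (Fin 3) Ω)

/-- The ideal of the affine part `X 0 = 1` (generated by two of the minors). -/
noncomputable def affI {Ω : Type} [Field Ω] (A : Fin 4 → MvPolynomial (Fin 4) Ω) :
    Ideal (MvPolynomial (Fin 3) Ω) := Ideal.span {dh (mn3 A), dh (mn2 A)}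

/-! ### The restriction of a quartic form to a line -/

section
variable {k : Type} [Field k] {n : ℕ} (φ : Tens k n)
variable {R : Type} [CommRing R] [Algebra k R]

/-- For `F(x) = 0`: `3 F(y + s x) = A0 s ^ 3 + 3 A1 s ^ 2 + 3 A2 s + A3` with `A = cf φ x y`. -/
noncomputable def cf (x y : Fin (n + 1) → R) : Fin 4 → R :=
  ![12 * Phi φ x x x y, 6 * Phi φ x x y y, 4 * Phi φ x y y y, 3 * Phi φ y y y y]

/-- The vector with coordinates `z` in the frame `u`. -/
def frm (u : Fin 4 → Fin (n + 1) → R) (z : Fin 4 → R) : Fin (n + 1) → R :=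
  fun j => ∑ a, z a * u a j

/-- The linear form with coefficients `h`, made to vanish at the point `x` (with `x 0 = 1`). -/
def lin (h x y : Fin (n + 1) → R) : R := ∑ j, h j * (y j - y 0 * x j)

end

section
variable {k : Type} [Field k] {n : ℕ} (φ : Tens k n)

/-- The coefficients as polynomials in the coordinates of the frame `u`. -/
noncomputable def cfP {Ω : Type} [Field Ω] [Algebra k Ω] (x : Fin (n + 1) → Ω)
    (u : Fin 4 → Fin (n + 1) → Ω) : Fin 4 → MvPolynomial (Fin 4) Ω :=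
  cf φ (fun j => C (x j)) (frm (fun a j => C (u a j)) X)

/-- `x, u 0, ..., u 3` is a basis of the space `lin (h (some i)) x y = 0` (all `i`), adapted to the linear
forms `12 φ(x, x, x, y)` and `lin (h none) x y`. -/
structure IsFrame {L : Type} [Field L] [Algebra k L] (x : Fin (n + 1) → L)
    (h : Option (Fin (n - 4)) × Fin (n + 1) → L) (u : Fin 4 → Fin (n + 1) → L) : Prop where
  hu : ∀ a i, lin (fun j => h (some i, j)) x (u a) = 0
  hg : ∀ a, lin (fun j => h (none, j)) x (u a) = if a = 1 then 1 else 0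
  h0 : ∀ a, 12 * Phi φ x x x (u a) = if a = 0 then 1 else 0
  indep : ∀ (ξ : L) (c : Fin 4 → L), (∀ j, ξ * x j + frm u c j = 0) → ξ = 0 ∧ c = 0
  span : ∀ y : Fin (n + 1) → L, (∀ i, lin (fun j => h (some i, j)) x y = 0) →
    ∃ (ξ : L) (c : Fin 4 → L), ∀ j, y j = ξ * x j + frm u c j

end

end Pool.Agent.LibHP
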