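import Pool.Agent.LibHPF.Q2
import Pool.Agent.LibHPF.TD

set_option autoImplicit false
open MvPolynomial

namespace Pool.Agent.LibHP

/-!
# Row T2a: a derivation moving the generic linear forms

`x` is a vector with values in `Ω0`, `x'` its image in `Ω1`, `h` is a family of elements of `Ω1`
algebraically independent over `Ω0`, `lin (fun j => h (i, j)) x' y = ∑ j, h (i, j) * (y j - y 0 * x' j)`.

PLAN. As in the proof of row Q8 (`lines_section`, see Q8.lean): `y - y 0 • x'` has a nonzero coordinate `j1`.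
By `exists_derivation_of_rel` (row Q2) with base field `Ω0`, the family `h` (the relation hypothesis is void by
algebraic independence) and the values `c (i, j) = -t i / (y j1 - y 0 * x' j1)` for `j = j1`, `0` otherwise, there
is `δ : Derivation Ω0 Ω1 Ω1` with `δ (h (i, j)) = c (i, j)`. Apply `δ` to `hy i` (`δ (x' j) = 0` because
`x' j = algebraMap Ω0 Ω1 _`): `∑ j, c (i, j) * (y j - y 0 * x' j) + lin (h i) x' (δ ∘ y) = 0`, so
`lin (h i) x' (δ ∘ y) = t i`.
-/

theorem exists_deriv_section {n : ℕ} (Ω0 Ω1 ι : Type) [Field Ω0] [CharZero Ω0] [Field Ω1]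
    [Algebra Ω0 Ω1] [Fintype ι] (h : ι × Fin (n + 1) → Ω1) (hh : AlgebraicIndependent Ω0 h)
    (x : Fin (n + 1) → Ω0) (x' : Fin (n + 1) → Ω1)
    (hx' : ∀ i, x' i = algebraMap Ω0 Ω1 (x i)) (y : Fin (n + 1) → Ω1)
    (hyx : ∀ c : Ω1, y ≠ c • x') (hy : ∀ i, lin (fun j => h (i, j)) x' y = 0) (t : ι → Ω1) :
    ∃ δ : Derivation Ω0 Ω1 Ω1, ∀ i, lin (fun j => h (i, j)) x' (fun j => δ (y j)) = t i := by
  classical
  obtain ⟨j1, hj1⟩ : ∃ j1, y j1 - y 0 * x' j1 ≠ 0 := by
    by_contra hall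
    push Not at hall
    apply hyx (y 0)
    funext j
    rw [Pi.smul_apply, smul_eq_mul]
    exact sub_eq_zero.1 (hall j)
  obtain ⟨c, hc⟩ : ∃ c : ι × Fin (n + 1) → Ω1,
    c = fun q => if q.2 = j1 then -t q.1 / (y j1 - y 0 * x' j1) else 0 := ⟨_, rfl⟩
  obtain ⟨δ, hδ⟩ := exists_derivation_of_rel Ω0 Ω1 (ι × Fin (n + 1)) h c (by
    intro G hG0
    have h9 : G = 0 := (injective_iff_map_eq_zero _).1 hh G hG0
    rw [h9]
    simp)
  have hDP : ∀ i, δ (x' i) = 0 := by
    intro i
    rw [hx', δ.map_algebraMap]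
  refine ⟨δ, fun i => ?_⟩
  have h10 := congrArg δ (hy i)
  unfold lin at h10 ⊢
  rw [map_zero, map_sum] at h10
  have h11 : ∀ j, δ (h (i, j) * (y j - y 0 * x' j)) =
      c (i, j) * (y j - y 0 * x' j) + h (i, j) * (δ (y j) - δ (y 0) * x' j) := by
    intro j
    rw [Derivation.leibniz, map_sub, Derivation.leibniz, hDP, hδ]
    simp only [smul_eq_mul]
    ring
  rw [Finset.sum_congr rfl fun j _ => h11 j, Finset.sum_add_distrib] at h10
  have h12 : ∑ j, c (i, j) * (y j - y 0 * x' j) = -t i := by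
    rw [Finset.sum_eq_single j1]
    · rw [hc]
      dsimp only
      rw [if_pos rfl, div_mul_cancel₀ _ hj1]
    · intro j _ hj
      rw [hc]
      dsimp only
      rw [if_neg hj, zero_mul]
    · intro hj
      exact absurd (Finset.mem_univ j1) hj
  rw [h12] at h10
  linear_combination h10

end Pool.Agent.LibHP
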