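import Pool.Agent.LibHPF.T1
import Pool.Agent.LibHPF.T2a

set_option autoImplicit false
open MvPolynomial

namespace Pool.Agent.LibHP

variable {k : Type} [Field k] [CharZero k] {n : ℕ} {φ : Tens k n}

/-!
# Row T2b: generic linear sections through the generic point `x`, part 1

`x` is a generic point with values in `Ω0`, `x'` its image in `Ω1`, `h` is a family of elements of `Ω1`
algebraically independent over `Ω0`, `lin (fun j => h (i, j)) x' y = ∑ j, h (i, j) * (y j - y 0 * x' j)`.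
(`CharZero Ω0`: `charZero_of_injective_algebraMap`.)

PLAN.
`sec_surj`: let `N` be the space of the `y` in `Fin (n + 1) → Ω1` with `12 φ(x', x', x', y) = 0` and
`lin (h i) x' y = 0` for all `i : Option (Fin (n - 4))`: the kernel of a linear map to a space of dimension
`1 + (n - 3) = n - 2`, so `dim N ≥ 3` (rank-nullity), so there is `y ∈ N`, not a multiple of `x'`. For this `y` and
the required `t` take `δ` from `exists_deriv_section` (a `k`-derivation of `Ω1` by restriction of scalars),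
`b = δ ∘ y`: `Phi φ x' x' x' b = 0` (apply `δ` to `Phi φ x' x' x' y = 0`; `δ` kills `x'`) and
`lin (h i) x' b = t i`. In general let `b0` be a vector with `12 * Phi φ x' x' x' b0 = t0` (`phi_ne` for `hx.map`,
characteristic zero), choose `b` as above for `t i - lin (h i) x' b0` and take `b0 + b` (`lin` is additive in its
last argument).

`sec_bad`: suppose `y` is not a multiple of `x'`.
`E = {b | Phi φ x' x' x' b = 0, Phi φ x' x' y b = 0, Phi φ x' y y b = 0}` has dimension `n - 2` by `bad_indep`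
(`hx.map`; three independent functionals). The map `E → (Option (Fin (n - 4)) → Ω1)`, `b ↦ lin (h i) x' b`, is
surjective: for `t` take `δ` from `exists_deriv_section`, `b = δ ∘ y`; `b ∈ E`: apply `δ` to `h1 h2 h3` (they give
`Phi φ x' x' x' b = 0`, `2 * Phi φ x' x' y b = 0`, `3 * Phi φ x' y y b = 0`). Its kernel contains the independent
vectors `x'` and `y` (`lin (h i) x' x' = 0` as `x' 0 = 1`). So `n - 2 ≥ (n - 3) + 2`, contradiction.
-/

private theorem T2b_const {k : Type} [Field k] {n : ℕ} {φ : Tens k n} {R : Type} [CommRing R]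
    [Algebra k R] (hφ : IsSymm4 φ) (D : Derivation k R R) (P x : Fin (n + 1) → R)
    (hP : ∀ i, D (P i) = 0) :
    D (Phi φ P P P x) = Phi φ P P P (fun i => D (x i)) ∧
    D (Phi φ P P x x) = 2 * Phi φ P P x (fun i => D (x i)) ∧
    D (Phi φ P x x x) = 3 * Phi φ P x x (fun i => D (x i)) := by
  have h0 : (fun i => D (P i)) = 0 := by
    funext i
    exact hP i
  have z1 : ∀ b c d : Fin (n + 1) → R, Phi φ 0 b c d = 0 := by
    intro b c d
    rw [Phi_comm12 hφ, Phi_comm23 hφ, Phi_comm34 hφ, Phi_zero4]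
  have z2 : ∀ a c d : Fin (n + 1) → R, Phi φ a 0 c d = 0 := by
    intro a c d
    rw [Phi_comm23 hφ, Phi_comm34 hφ, Phi_zero4]
  have z3 : ∀ a b d : Fin (n + 1) → R, Phi φ a b 0 d = 0 := by
    intro a b d
    rw [Phi_comm34 hφ, Phi_zero4]
  refine ⟨?_, ?_, ?_⟩
  · rw [Phi_deriv, h0, z1, z2, z3]
    ring
  · rw [Phi_deriv, h0, z1, z2, Phi_comm34 hφ P P (fun i => D (x i)) x]
    ring
  · rw [Phi_deriv, h0, z1, Phi_comm23 hφ P (fun i => D (x i)) x x,
      Phi_comm34 hφ P x (fun i => D (x i)) x]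
    ring

private theorem T2b_lin_add {n : ℕ} {R : Type} [CommRing R] (h x b b' : Fin (n + 1) → R) :
    lin h x (b + b') = lin h x b + lin h x b' := by
  unfold lin
  rw [← Finset.sum_add_distrib]
  refine Finset.sum_congr rfl fun j _ => ?_
  rw [Pi.add_apply, Pi.add_apply]
  ring

private theorem T2b_lin_smul {n : ℕ} {R : Type} [CommRing R] (h x b : Fin (n + 1) → R) (r : R) :
    lin h x (r • b) = r * lin h x b := by
  unfold lin
  rw [Finset.mul_sum]
  refine Finset.sum_congr rfl fun j _ => ?_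
  rw [Pi.smul_apply, Pi.smul_apply, smul_eq_mul, smul_eq_mul]
  ring

private theorem T2b_lin_self {n : ℕ} {R : Type} [CommRing R] (h x : Fin (n + 1) → R)
    (hx : x 0 = 1) : lin h x x = 0 := by
  unfold lin
  refine Finset.sum_eq_zero fun j _ => ?_
  rw [hx, one_mul, sub_self, mul_zero]

private theorem T2b_LL {n : ℕ} {R ι : Type} [CommRing R] (h : ι × Fin (n + 1) → R)
    (x : Fin (n + 1) → R) : ∃ Λ : (Fin (n + 1) → R) →ₗ[R] (ι → R),
      ∀ b i, Λ b i = lin (fun j => h (i, j)) x b := by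
  refine ⟨⟨⟨fun b i => lin (fun j => h (i, j)) x b, ?_⟩, ?_⟩, fun b i => rfl⟩
  · intro a b
    funext i
    exact T2b_lin_add _ _ _ _
  · intro r b
    funext i
    exact T2b_lin_smul _ _ _ _

section
variable {Ω0 Ω1 : Type} [Field Ω0] [Algebra k Ω0] [Field Ω1] [Algebra k Ω1] [Algebra Ω0 Ω1]
  [IsScalarTower k Ω0 Ω1]

theorem sec_surj (hφ : IsSymm4 φ) (hs : Smooth4 φ) (hn : 4 ≤ n) (x : Fin (n + 1) → Ω0)
    (hx : IsGenPt φ x) (h : Option (Fin (n - 4)) × Fin (n + 1) → Ω1)
    (hh : AlgebraicIndependent Ω0 h) (x' : Fin (n + 1) → Ω1)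
    (hx' : ∀ i, x' i = algebraMap Ω0 Ω1 (x i)) (t0 : Ω1) (t : Option (Fin (n - 4)) → Ω1) :
    ∃ b : Fin (n + 1) → Ω1, 12 * Phi φ x' x' x' b = t0 ∧
      ∀ i, lin (fun j => h (i, j)) x' b = t i := by
  classical
  have : CharZero Ω0 := charZero_of_injective_algebraMap (algebraMap k Ω0).injective
  have : CharZero Ω1 := charZero_of_injective_algebraMap (algebraMap k Ω1).injective
  have hG : IsGenPt φ x' := by
    have h5 := hx.map (IsScalarTower.toAlgHom k Ω0 Ω1)
    have h6 : x' = fun i => (IsScalarTower.toAlgHom k Ω0 Ω1) (x i) := by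
      funext i
      exact hx' i
    rw [h6]
    exact h5
  obtain ⟨Λ, hΛ⟩ := T2b_LL h x'
  obtain ⟨M, hM⟩ : ∃ M : (Fin (n + 1) → Ω1) →ₗ[Ω1] Ω1 × (Option (Fin (n - 4)) → Ω1),
      M = (PhiL φ x' x' x').prod Λ := ⟨_, rfl⟩
  have hMb : ∀ b, M b = (Phi φ x' x' x' b, Λ b) := fun b => by rw [hM]; rfl
  -- a vector in the kernel which is not a multiple of the point
  obtain ⟨y, hyM, hyx⟩ : ∃ y, M y = 0 ∧ ∀ c : Ω1, y ≠ c • x' := by
    by_contra hcon
    push Not at hcon
    have hle : LinearMap.ker M ≤ Submodule.span Ω1 {x'} := by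
      intro y hy
      obtain ⟨c, hc⟩ := hcon y (LinearMap.mem_ker.1 hy)
      rw [hc]
      exact Submodule.smul_mem _ _ (Submodule.mem_span_singleton_self x')
    have h1 := Submodule.finrank_mono hle
    have h2 : Module.finrank Ω1 (Submodule.span Ω1 {x'}) ≤ 1 := by
      refine (finrank_span_le_card ({x'} : Set (Fin (n + 1) → Ω1))).trans ?_
      simp
    have h3 := LinearMap.finrank_range_add_finrank_ker M
    have h4 := Submodule.finrank_le (LinearMap.range M)
    rw [Module.finrank_prod, Module.finrank_self, Module.finrank_fintype_fun_eq_card,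
      Fintype.card_option, Fintype.card_fin] at h4
    rw [Module.finrank_fin_fun] at h3
    omega
  rw [hMb, Prod.mk_eq_zero] at hyM
  have hy : ∀ i, lin (fun j => h (i, j)) x' y = 0 := by
    intro i
    rw [← hΛ, hyM.2]
    rfl
  obtain ⟨a, ha⟩ : ∃ a : Fin (n + 1) → Ω1, Phi φ x' x' x' a ≠ 0 := by
    obtain ⟨i0, hi0⟩ := phi_ne hφ hs x' hG
    exact ⟨_, hi0⟩
  have h12 : (12 : Ω1) ≠ 0 := by norm_num
  obtain ⟨b0, hb0⟩ : ∃ b0 : Fin (n + 1) → Ω1, 12 * Phi φ x' x' x' b0 = t0 := by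
    refine ⟨(t0 / (12 * Phi φ x' x' x' a)) • a, ?_⟩
    rw [Phi_smul4]
    field_simp
  obtain ⟨δ, hδ⟩ := exists_deriv_section Ω0 Ω1 (Option (Fin (n - 4))) h hh x x' hx' y hyx hy
    (fun i => t i - lin (fun j => h (i, j)) x' b0)
  have hDP : ∀ i, (δ.restrictScalars k) (x' i) = 0 := by
    intro i
    show δ (x' i) = 0
    rw [hx', δ.map_algebraMap]
  obtain ⟨e1, -, -⟩ := T2b_const hφ (δ.restrictScalars k) x' y hDP
  rw [hyM.1, map_zero] at e1
  have e2 : Phi φ x' x' x' (fun i => δ (y i)) = 0 := e1.symm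
  refine ⟨b0 + fun i => δ (y i), ?_, ?_⟩
  · rw [Phi_add4, e2, add_zero, hb0]
  · intro i
    rw [T2b_lin_add, hδ]
    ring

theorem sec_bad (hφ : IsSymm4 φ) (hs : Smooth4 φ) (hn : 4 ≤ n) (x : Fin (n + 1) → Ω0)
    (hx : IsGenPt φ x) (h : Option (Fin (n - 4)) × Fin (n + 1) → Ω1)
    (hh : AlgebraicIndependent Ω0 h) (x' : Fin (n + 1) → Ω1)
    (hx' : ∀ i, x' i = algebraMap Ω0 Ω1 (x i)) (y : Fin (n + 1) → Ω1)
    (hy : ∀ i, lin (fun j => h (i, j)) x' y = 0) (h1 : Phi φ x' x' x' y = 0)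
    (h2 : Phi φ x' x' y y = 0) (h3 : Phi φ x' y y y = 0) : ∃ c : Ω1, y = c • x' := by
  classical
  by_contra hcon
  push Not at hcon
  have : CharZero Ω0 := charZero_of_injective_algebraMap (algebraMap k Ω0).injective
  have : CharZero Ω1 := charZero_of_injective_algebraMap (algebraMap k Ω1).injective
  have hG : IsGenPt φ x' := by
    have h5 := hx.map (IsScalarTower.toAlgHom k Ω0 Ω1)
    have h6 : x' = fun i => (IsScalarTower.toAlgHom k Ω0 Ω1) (x i) := by
      funext i
      exact hx' i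
    rw [h6]
    exact h5
  have hP0 : x' 0 = 1 := hG.1
  have h0 : Phi φ x' x' x' x' = 0 := hG.self
  -- the three functionals
  obtain ⟨T, hT⟩ : ∃ T : (Fin (n + 1) → Ω1) →ₗ[Ω1] (Fin 3 → Ω1), T = LinearMap.pi
    ![PhiL φ x' x' x', PhiL φ x' x' y, PhiL φ x' y y] := ⟨_, rfl⟩
  have hT0 : ∀ b, T b 0 = Phi φ x' x' x' b := fun b => by rw [hT]; rfl
  have hT1 : ∀ b, T b 1 = Phi φ x' x' y b := fun b => by rw [hT]; rfl
  have hT2 : ∀ b, T b 2 = Phi φ x' y y b := fun b => by rw [hT]; rfl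
  have hTs : LinearMap.range T = ⊤ := by
    by_contra hne
    obtain ⟨f, hf, hle⟩ := Submodule.exists_le_ker_of_lt_top _ (lt_top_iff_ne_top.2 hne)
    obtain ⟨ρ, hρ⟩ : ∃ ρ : Fin 3 → Ω1, ρ = fun i => f (Pi.single i 1) := ⟨_, rfl⟩
    have hfy : ∀ y : Fin 3 → Ω1, f y = ∑ i, y i * ρ i := by
      intro y
      have h7 := f.pi_apply_eq_sum_univ y
      rw [h7]
      refine Finset.sum_congr rfl fun i _ => ?_
      rw [smul_eq_mul, hρ]
      congr 2
      funext j
      rw [Pi.single_apply]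
      simp only [eq_comm]
    have hρ0 : ρ = 0 := by
      refine bad_indep hφ hs x' y hG h1 h2 h3 hcon ρ fun a => ?_
      have h8 : f (T a) = 0 := hle ⟨a, rfl⟩
      rw [hfy, Fin.sum_univ_three, hT0, hT1, hT2] at h8
      rw [← h8]
      ring
    apply hf
    ext y
    rw [LinearMap.comp_apply, LinearMap.zero_comp, LinearMap.zero_apply, hfy, hρ0]
    simp
  obtain ⟨Λ, hΛ⟩ := T2b_LL h x'
  have hΛs : ∀ t : Option (Fin (n - 4)) → Ω1, ∃ b, T b = 0 ∧ Λ b = t := by
    intro t
    obtain ⟨δ, hδ⟩ := exists_deriv_section Ω0 Ω1 (Option (Fin (n - 4))) h hh x x' hx' y hcon hy t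
    have hDP : ∀ i, (δ.restrictScalars k) (x' i) = 0 := by
      intro i
      show δ (x' i) = 0
      rw [hx', δ.map_algebraMap]
    obtain ⟨e1, e2, e3⟩ := T2b_const hφ (δ.restrictScalars k) x' y hDP
    rw [h1, map_zero] at e1
    rw [h2, map_zero] at e2
    rw [h3, map_zero] at e3
    refine ⟨fun i => δ (y i), ?_, ?_⟩
    · funext i
      fin_cases i
      · exact (hT0 _).trans e1.symm
      · refine (hT1 _).trans ?_
        rcases mul_eq_zero.1 e2.symm with h | h
        · exact absurd h two_ne_zero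
        · exact h
      · refine (hT2 _).trans ?_
        rcases mul_eq_zero.1 e3.symm with h | h
        · exact absurd h three_ne_zero
        · exact h
    · funext i
      rw [hΛ]
      exact hδ i
  -- dimension count
  obtain ⟨M, hM⟩ : ∃ M : (Fin (n + 1) → Ω1) →ₗ[Ω1] (Fin 3 → Ω1) × (Option (Fin (n - 4)) → Ω1),
      M = T.prod Λ := ⟨_, rfl⟩
  have hMs : LinearMap.range M = ⊤ := by
    rw [LinearMap.range_eq_top]
    rintro ⟨u, t⟩
    obtain ⟨b0, hb0⟩ := LinearMap.range_eq_top.1 hTs u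
    obtain ⟨b1, hb1, hb1'⟩ := hΛs (t - Λ b0)
    refine ⟨b0 + b1, ?_⟩
    rw [hM, LinearMap.prod_apply]
    show (T (b0 + b1), Λ (b0 + b1)) = (u, t)
    rw [map_add, map_add, hb0, hb1, hb1', add_zero, add_sub_cancel]
  have hdim := LinearMap.finrank_range_add_finrank_ker M
  rw [hMs, finrank_top, Module.finrank_prod, Module.finrank_fin_fun,
    Module.finrank_fintype_fun_eq_card, Fintype.card_option, Fintype.card_fin,
    Module.finrank_fin_fun] at hdim
  have hker : Module.finrank Ω1 (LinearMap.ker M) = 1 := by omega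
  have hP'M : x' ∈ LinearMap.ker M := by
    rw [LinearMap.mem_ker, hM]
    show (T x', Λ x') = (0, 0)
    refine Prod.ext ?_ ?_
    · funext i
      fin_cases i
      · exact (hT0 _).trans h0
      · refine (hT1 _).trans ?_
        rw [Phi_comm34 hφ]
        exact h1
      · refine (hT2 _).trans ?_
        rw [Phi_comm34 hφ, Phi_comm23 hφ]
        exact h2
    · funext i
      exact (hΛ _ _).trans (T2b_lin_self _ _ hP0)
  have hxM : y ∈ LinearMap.ker M := by
    rw [LinearMap.mem_ker, hM]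
    show (T y, Λ y) = (0, 0)
    refine Prod.ext ?_ ?_
    · funext i
      fin_cases i
      · exact (hT0 _).trans h1
      · exact (hT1 _).trans h2
      · exact (hT2 _).trans h3
    · funext i
      exact (hΛ _ _).trans (hy i)
  have hP'0 : (⟨x', hP'M⟩ : LinearMap.ker M) ≠ 0 := by
    intro h13
    have h14 : x' = 0 := congrArg Subtype.val h13
    rw [h14] at hP0
    exact zero_ne_one hP0
  obtain ⟨c, hc⟩ := (finrank_eq_one_iff_of_nonzero' _ hP'0).1 hker ⟨y, hxM⟩
  exact hcon c (congrArg Subtype.val hc).symm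

end

end Pool.Agent.LibHP
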