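import Pool.Agent.LibHPF.T1
import Pool.Agent.LibHPF.T2a

set_option autoImplicit false
open MvPolynomial

namespace Pool.Agent.LibHP

variable {k : Type} [Field k] [CharZero k] {n : ℕ} {φ : Tens k n}

/-!
# Row T2c: generic linear sections through the generic point `x`, part 2

`x` is a generic point with values in `Ω0`, `x'` its image in `Ω1`, `h` is a family of elements of `Ω1`
algebraically independent over `Ω0`, `lin (fun j => h (i, j)) x' y = ∑ j, h (i, j) * (y j - y 0 * x' j)`.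
(`CharZero Ω0`: `charZero_of_injective_algebraMap`.)

PLAN.
`sec_bad_tangent`: by `bad_indep` (`hx.map`; three linearly independent functionals on `Fin (n + 1) → Ω1` take
arbitrary values) there is `b1` with `Phi φ x' x' x' b1 = 0`, `Phi φ x' x' y b1 = 1`, `Phi φ x' y y b1 = 0`. By
`exists_deriv_section` for the family `fun i => h (some i.1, i.2)` (independent: `AlgebraicIndependent.comp` with an
injective map), the vector `y` and `t i = lin (h (some i)) x' b1` there is a derivation `δ` of `Ω1` over `Ω0` such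
that `b2 = δ ∘ y` satisfies `lin (h (some i)) x' b2 = t i`. Apply `δ` (restricted to a `k`-derivation) to
`h1 h2 h3` (it kills `x'`): `Phi φ x' x' x' b2 = 0`, `2 * Phi φ x' x' y b2 = 0`. Take `b = b1 - b2`.

`sec_tri`: `P` is not a multiple of `x'` because `Phi φ x' x' x' x' = 0 ≠ Phi φ P x' x' x'`. By `tri_indep` choose
`b1` with `Phi φ P P P b1 = t0`, `Phi φ P P x' b1 = t1` (and `Phi φ P x' x' b1 = 0`), and `δ` as above for
`y := P`, `b2 = δ ∘ P`: `h0`, `h1` give `4 * Phi φ P P P b2 = 0`, `3 * Phi φ P P x' b2 = 0`. Take `b = b1 - b2`.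
-/

/-- three independent functionals take arbitrary values -/
private theorem T2c_vals {Ω : Type} [Field Ω] {n : ℕ} (L0 L1 L2 : (Fin (n + 1) → Ω) →ₗ[Ω] Ω)
    (hL : ∀ ρ : Fin 3 → Ω, (∀ a, ρ 0 * L0 a + ρ 1 * L1 a + ρ 2 * L2 a = 0) → ρ = 0)
    (u0 u1 u2 : Ω) : ∃ b, L0 b = u0 ∧ L1 b = u1 ∧ L2 b = u2 := by
  classical
  obtain ⟨T, hT⟩ : ∃ T : (Fin (n + 1) → Ω) →ₗ[Ω] (Fin 3 → Ω), T = LinearMap.pi ![L0, L1, L2] :=
    ⟨_, rfl⟩
  have hT0 : ∀ b, T b 0 = L0 b := fun b => by rw [hT]; rfl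
  have hT1 : ∀ b, T b 1 = L1 b := fun b => by rw [hT]; rfl
  have hT2 : ∀ b, T b 2 = L2 b := fun b => by rw [hT]; rfl
  have hTs : LinearMap.range T = ⊤ := by
    by_contra hne
    obtain ⟨f, hf, hle⟩ := Submodule.exists_le_ker_of_lt_top _ (lt_top_iff_ne_top.2 hne)
    obtain ⟨ρ, hρ⟩ : ∃ ρ : Fin 3 → Ω, ρ = fun i => f (Pi.single i 1) := ⟨_, rfl⟩
    have hfy : ∀ y : Fin 3 → Ω, f y = ∑ i, y i * ρ i := by
      intro y
      have h7 := f.pi_apply_eq_sum_univ y
      rw [h7]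
      refine Finset.sum_congr rfl fun i _ => ?_
      rw [smul_eq_mul, hρ]
      congr 2
      funext j
      rw [Pi.single_apply]
      simp only [eq_comm]
    have hρ0 : ρ = 0 := by
      refine hL ρ fun a => ?_
      have h8 : f (T a) = 0 := hle ⟨a, rfl⟩
      rw [hfy, Fin.sum_univ_three, hT0, hT1, hT2] at h8
      rw [← h8]
      ring
    apply hf
    ext y
    rw [LinearMap.comp_apply, LinearMap.zero_comp, LinearMap.zero_apply, hfy, hρ0]
    simp
  obtain ⟨b, hb⟩ := LinearMap.range_eq_top.1 hTs ![u0, u1, u2]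
  refine ⟨b, ?_, ?_, ?_⟩
  · rw [← hT0, hb]; rfl
  · rw [← hT1, hb]; rfl
  · rw [← hT2, hb]; rfl

private theorem T2c_lin_sub {R : Type} [CommRing R] {n : ℕ} (h x a b : Fin (n + 1) → R) :
    lin h x (a - b) = lin h x a - lin h x b := by
  unfold lin
  rw [← Finset.sum_sub_distrib]
  refine Finset.sum_congr rfl fun j _ => ?_
  rw [Pi.sub_apply, Pi.sub_apply]
  ring

section
variable {Ω0 Ω1 : Type} [Field Ω0] [Algebra k Ω0] [Field Ω1] [Algebra k Ω1] [Algebra Ω0 Ω1]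
  [IsScalarTower k Ω0 Ω1]

private theorem T2c_der (x : Fin (n + 1) → Ω0) (h : Option (Fin (n - 4)) × Fin (n + 1) → Ω1)
    (hh : AlgebraicIndependent Ω0 h) (x' : Fin (n + 1) → Ω1)
    (hx' : ∀ i, x' i = algebraMap Ω0 Ω1 (x i)) (y : Fin (n + 1) → Ω1)
    (hyx : ∀ c : Ω1, y ≠ c • x') (hy : ∀ i, lin (fun j => h (some i, j)) x' y = 0)
    (t : Fin (n - 4) → Ω1) :
    ∃ D : Derivation k Ω1 Ω1, (∀ i, D (x' i) = 0) ∧
      ∀ i, lin (fun j => h (some i, j)) x' (fun j => D (y j)) = t i := by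
  have : CharZero Ω0 := charZero_of_injective_algebraMap (algebraMap k Ω0).injective
  have hinj : Function.Injective (fun q : Fin (n - 4) × Fin (n + 1) =>
      ((some q.1, q.2) : Option (Fin (n - 4)) × Fin (n + 1))) := by
    rintro ⟨a, b⟩ ⟨a', b'⟩ hab
    simp only [Prod.mk.injEq, Option.some.injEq] at hab
    exact Prod.ext hab.1 hab.2
  obtain ⟨δ, hδ⟩ := exists_deriv_section Ω0 Ω1 (Fin (n - 4)) (fun q => h (some q.1, q.2))
    (hh.comp _ hinj) x x' hx' y hyx hy t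
  refine ⟨δ.restrictScalars k, fun i => ?_, fun i => hδ i⟩
  show δ (x' i) = 0
  rw [hx', δ.map_algebraMap]

omit [CharZero k] in
private theorem T2c_gen (x : Fin (n + 1) → Ω0) (hx : IsGenPt φ x) (x' : Fin (n + 1) → Ω1)
    (hx' : ∀ i, x' i = algebraMap Ω0 Ω1 (x i)) : IsGenPt φ x' := by
  have h5 := hx.map (IsScalarTower.toAlgHom k Ω0 Ω1)
  have h6 : x' = fun i => (IsScalarTower.toAlgHom k Ω0 Ω1) (x i) := by
    funext i
    exact hx' i
  rw [h6]
  exact h5

theorem sec_bad_tangent (hφ : IsSymm4 φ) (hs : Smooth4 φ) (x : Fin (n + 1) → Ω0)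
    (hx : IsGenPt φ x) (h : Option (Fin (n - 4)) × Fin (n + 1) → Ω1)
    (hh : AlgebraicIndependent Ω0 h) (x' : Fin (n + 1) → Ω1)
    (hx' : ∀ i, x' i = algebraMap Ω0 Ω1 (x i)) (y : Fin (n + 1) → Ω1)
    (hyx : ∀ c : Ω1, y ≠ c • x') (hy : ∀ i, lin (fun j => h (some i, j)) x' y = 0)
    (h1 : Phi φ x' x' x' y = 0) (h2 : Phi φ x' x' y y = 0) (h3 : Phi φ x' y y y = 0) :
    ∃ b : Fin (n + 1) → Ω1, (∀ i, lin (fun j => h (some i, j)) x' b = 0) ∧
      Phi φ x' x' x' b = 0 ∧ Phi φ x' x' y b = 1 := by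
  have : CharZero Ω1 := charZero_of_injective_algebraMap (algebraMap k Ω1).injective
  have hG := T2c_gen x hx x' hx'
  obtain ⟨b1, e0, e1, -⟩ := T2c_vals (PhiL φ x' x' x') (PhiL φ x' x' y) (PhiL φ x' y y)
    (fun ρ hρ => bad_indep hφ hs x' y hG h1 h2 h3 hyx ρ hρ) 0 1 0
  obtain ⟨D, hD, hDl⟩ := T2c_der (k := k) x h hh x' hx' y hyx hy
    (fun i => lin (fun j => h (some i, j)) x' b1)
  rw [PhiL_apply] at e0 e1
  have hz : (fun i => D (x' i)) = 0 := by
    funext i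
    exact hD i
  have z1 : ∀ b c d : Fin (n + 1) → Ω1, Phi φ 0 b c d = 0 := by
    intro b c d
    rw [Phi_comm12 hφ, Phi_comm23 hφ, Phi_comm34 hφ, Phi_zero4]
  have z2 : ∀ a c d : Fin (n + 1) → Ω1, Phi φ a 0 c d = 0 := by
    intro a c d
    rw [Phi_comm23 hφ, Phi_comm34 hφ, Phi_zero4]
  have z3 : ∀ a b d : Fin (n + 1) → Ω1, Phi φ a b 0 d = 0 := by
    intro a b d
    rw [Phi_comm34 hφ, Phi_zero4]
  have d1 : Phi φ x' x' x' (fun i => D (y i)) = 0 := by
    have h4 := Phi_deriv φ D x' x' x' y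
    rw [h1, map_zero, hz, z1, z2, z3, zero_add, zero_add, zero_add] at h4
    exact h4.symm
  have d2 : Phi φ x' x' y (fun i => D (y i)) = 0 := by
    have h4 := Phi_deriv φ D x' x' y y
    rw [h2, map_zero, hz, z1, z2, Phi_comm34 hφ x' x' (fun i => D (y i)) y, zero_add, zero_add,
      ← two_mul] at h4
    rcases mul_eq_zero.1 h4.symm with h | h
    · exact absurd h two_ne_zero
    · exact h
  refine ⟨b1 - fun i => D (y i), fun i => ?_, ?_, ?_⟩
  · rw [T2c_lin_sub, hDl, sub_self]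
  · rw [Phi_sub4, e0, d1, sub_zero]
  · rw [Phi_sub4, e1, d2, sub_zero]

theorem sec_tri (hφ : IsSymm4 φ) (hs : Smooth4 φ) (x : Fin (n + 1) → Ω0)
    (hx : IsGenPt φ x) (h : Option (Fin (n - 4)) × Fin (n + 1) → Ω1)
    (hh : AlgebraicIndependent Ω0 h) (x' : Fin (n + 1) → Ω1)
    (hx' : ∀ i, x' i = algebraMap Ω0 Ω1 (x i)) (P : Fin (n + 1) → Ω1)
    (hP : ∀ i, lin (fun j => h (some i, j)) x' P = 0) (h0 : Phi φ P P P P = 0)
    (h1 : Phi φ P P P x' = 0) (h2 : Phi φ P P x' x' = 0) (h3 : Phi φ P x' x' x' ≠ 0)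
    (t0 t1 : Ω1) :
    ∃ b : Fin (n + 1) → Ω1, (∀ i, lin (fun j => h (some i, j)) x' b = 0) ∧
      Phi φ P P P b = t0 ∧ Phi φ P P x' b = t1 := by
  have : CharZero Ω1 := charZero_of_injective_algebraMap (algebraMap k Ω1).injective
  have hG := T2c_gen x hx x' hx'
  obtain ⟨b1, e0, e1, -⟩ := T2c_vals (PhiL φ P P P) (PhiL φ P P x') (PhiL φ P x' x')
    (fun ρ hρ => tri_indep hφ hs x' P hG h0 h1 h2 h3 ρ hρ) t0 t1 0
  have hyx : ∀ c : Ω1, P ≠ c • x' := by
    intro c hc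
    apply h3
    rw [hc, Phi_smul1, hG.self, mul_zero]
  obtain ⟨D, hD, hDl⟩ := T2c_der (k := k) x h hh x' hx' P hyx hP
    (fun i => lin (fun j => h (some i, j)) x' b1)
  rw [PhiL_apply] at e0 e1
  have hz : (fun i => D (x' i)) = 0 := by
    funext i
    exact hD i
  have d0 : Phi φ P P P (fun i => D (P i)) = 0 := by
    have h4 := Phi_deriv4 hφ D P
    rw [h0, map_zero] at h4
    rcases mul_eq_zero.1 h4.symm with h | h
    · exact absurd h (by norm_num)
    · exact h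
  have d1 : Phi φ P P x' (fun i => D (P i)) = 0 := by
    have h4 := Phi_deriv φ D P P P x'
    have s3 : Phi φ P P (fun i => D (P i)) x' = Phi φ P P x' (fun i => D (P i)) :=
      Phi_comm34 hφ _ _ _ _
    have s2 : Phi φ P (fun i => D (P i)) P x' = Phi φ P P x' (fun i => D (P i)) := by
      rw [Phi_comm23 hφ, s3]
    have s1 : Phi φ (fun i => D (P i)) P P x' = Phi φ P P x' (fun i => D (P i)) := by
      rw [Phi_comm12 hφ, s2]
    rw [h1, map_zero, hz, Phi_zero4, s1, s2, s3] at h4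
    have h5 : (3 : Ω1) * Phi φ P P x' (fun i => D (P i)) = 0 := by
      rw [h4]
      ring
    rcases mul_eq_zero.1 h5 with h | h
    · exact absurd h three_ne_zero
    · exact h
  refine ⟨b1 - fun i => D (P i), fun i => ?_, ?_, ?_⟩
  · rw [T2c_lin_sub, hDl, sub_self]
  · rw [Phi_sub4, e0, d0, sub_zero]
  · rw [Phi_sub4, e1, d1, sub_zero]

end

end Pool.Agent.LibHP
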