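import Pool.Agent.LibHPF.Q8
import Pool.Agent.LibHPF.T2b
import Pool.Agent.LibHPF.T2c
import Pool.Agent.LibHPF.T12

set_option autoImplicit false
open MvPolynomial

namespace Pool.Agent.LibHP

variable {k : Type} [Field k] [CharZero k] {n : ℕ} {φ : Tens k n}

/-!
# Row T13a: the points of the determinantal curve with `z 0 = 0`

`y = frm u z = ∑ a, z a * u a` is a vector with `lin (h (some i)) x' y = 0` (`IsFrame.hu`; `lin` is linear in its last
argument), `lin (h none) x' y = z 1` (`hg`), `12 * Phi φ x' x' x' y = z 0` (`h0`);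
`eval z (cfP φ x' u a) = cf φ x' y a` (`cfP_eval`), `cf φ x' y = ![12 φ(x',x',x',y), 6 φ(x',x',y,y), 4 φ(x',y,y,y),
3 φ(y,y,y,y)]`. If `y = c • x'` then `z = 0` (`IsFrame.indep` with `ξ = -c`).

PLAN. `frame_h4`: `sec_bad` (all `lin (h i) x' y` vanish) gives `y = c • x'`, so `z = 0`.
`frame_h2`: first part: if `cf φ x' y 3 = 0`, i.e. `Phi φ y y y y = 0`, then `lines_section` (row Q8, with the family
`fun i : Fin (n - 4) × Fin (n + 1) => h (some i.1, i.2)`, `P := x`, `P' := x'`, `x := y`) gives `y = c • x'`, so `z = 0`.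
Second part: `sec_bad_tangent` gives `b` with `lin (h (some i)) x' b = 0`, `Phi φ x' x' x' b = 0`,
`Phi φ x' x' y b = 1`. By `IsFrame.span` `b = ξ x' + frm u c`. Apply `12 Phi φ x' x' x'`: `0 = c 0` (`h0`,
`Phi φ x' x' x' x' = 0`). Apply `Phi φ x' x' y`: `1 = ξ * Phi φ x' x' y x' + ∑ a, c a * Phi φ x' x' y (u a)` and
`Phi φ x' x' y x' = Phi φ x' x' x' y = 0`. So `Phi φ x' x' y (u i) ≠ 0` for some `i ≠ 0`, and
`eval z (pderiv i (cfP φ x' u 1)) = 12 * Phi φ x' x' y (u i)` (`cfP_pderiv`).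
-/

section
variable {Ω : Type} [Field Ω] [Algebra k Ω]

omit [CharZero k] in
private theorem T13a_frm (u : Fin 4 → Fin (n + 1) → Ω) (z : Fin 4 → Ω) :
    frm u z = ∑ a, z a • u a := by
  funext j
  simp only [frm, Finset.sum_apply, Pi.smul_apply, smul_eq_mul]

omit [CharZero k] in
private theorem T13a_lin_frm (h x : Fin (n + 1) → Ω) (u : Fin 4 → Fin (n + 1) → Ω)
    (z : Fin 4 → Ω) : lin h x (frm u z) = ∑ a, z a * lin h x (u a) := by
  simp only [lin, frm, Finset.mul_sum, Finset.sum_mul, ← Finset.sum_sub_distrib]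
  rw [Finset.sum_comm]
  refine Finset.sum_congr rfl fun a _ => Finset.sum_congr rfl fun j _ => ?_
  ring

omit [CharZero k] in
private theorem T13a_phi_frm (a b c : Fin (n + 1) → Ω) (u : Fin 4 → Fin (n + 1) → Ω)
    (z : Fin 4 → Ω) : Phi φ a b c (frm u z) = ∑ i, z i * Phi φ a b c (u i) := by
  rw [T13a_frm, ← PhiL_apply, map_sum]
  refine Finset.sum_congr rfl fun i _ => ?_
  rw [map_smul, PhiL_apply, smul_eq_mul]

omit [CharZero k] in
private theorem T13a_z0 {x : Fin (n + 1) → Ω} {h : Option (Fin (n - 4)) × Fin (n + 1) → Ω}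
    {u : Fin 4 → Fin (n + 1) → Ω} (hu : IsFrame φ x h u) (z : Fin 4 → Ω) :
    12 * Phi φ x x x (frm u z) = z 0 := by
  rw [T13a_phi_frm, Finset.mul_sum]
  have h1 : ∀ a, 12 * (z a * Phi φ x x x (u a)) = z a * if a = 0 then 1 else 0 := by
    intro a
    rw [← hu.h0 a]
    ring
  simp only [h1, mul_ite, mul_one, mul_zero, Finset.sum_ite_eq', Finset.mem_univ, if_true]

omit [CharZero k] in
private theorem T13a_z1 {x : Fin (n + 1) → Ω} {h : Option (Fin (n - 4)) × Fin (n + 1) → Ω}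
    {u : Fin 4 → Fin (n + 1) → Ω} (hu : IsFrame φ x h u) (z : Fin 4 → Ω) :
    lin (fun j => h (none, j)) x (frm u z) = z 1 := by
  rw [T13a_lin_frm]
  simp only [hu.hg, mul_ite, mul_one, mul_zero, Finset.sum_ite_eq', Finset.mem_univ, if_true]

omit [CharZero k] in
private theorem T13a_some {x : Fin (n + 1) → Ω} {h : Option (Fin (n - 4)) × Fin (n + 1) → Ω}
    {u : Fin 4 → Fin (n + 1) → Ω} (hu : IsFrame φ x h u) (z : Fin 4 → Ω) (i : Fin (n - 4)) :
    lin (fun j => h (some i, j)) x (frm u z) = 0 := by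
  rw [T13a_lin_frm]
  simp only [hu.hu, mul_zero, Finset.sum_const_zero]

omit [CharZero k] in
private theorem T13a_mul {x : Fin (n + 1) → Ω} {h : Option (Fin (n - 4)) × Fin (n + 1) → Ω}
    {u : Fin 4 → Fin (n + 1) → Ω} (hu : IsFrame φ x h u) {z : Fin 4 → Ω} {c : Ω}
    (hc : frm u z = c • x) : z = 0 := by
  refine (hu.indep (-c) z fun j => ?_).2
  rw [hc, Pi.smul_apply, smul_eq_mul]
  ring

end

section
variable {K Ω : Type} [Field K] [Algebra k K] [Field Ω] [Algebra k Ω] [Algebra K Ω]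
  [IsScalarTower k K Ω]

theorem frame_h4 (hφ : IsSymm4 φ) (hs : Smooth4 φ) (hn : 4 ≤ n) (x : Fin (n + 1) → K)
    (hx : IsGenPt φ x) (h : Option (Fin (n - 4)) × Fin (n + 1) → Ω)
    (hh : AlgebraicIndependent K h) (x' : Fin (n + 1) → Ω)
    (hx' : ∀ i, x' i = algebraMap K Ω (x i)) (u : Fin 4 → Fin (n + 1) → Ω)
    (hu : IsFrame φ x' h u) (z : Fin 4 → Ω) (hz0 : z 0 = 0) (hz1 : z 1 = 0)
    (h1 : eval z (cfP φ x' u 1) = 0) (h2 : eval z (cfP φ x' u 2) = 0) : z = 0 := by
  have hc0 : CharZero Ω := charZero_of_injective_algebraMap (algebraMap k Ω).injective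
  have e0 := T13a_z0 hu z
  rw [hz0] at e0
  have e1 : Phi φ x' x' x' (frm u z) = 0 :=
    (mul_eq_zero.1 e0).resolve_left (by norm_num)
  rw [cfP_eval] at h1 h2
  have e2 : Phi φ x' x' (frm u z) (frm u z) = 0 := by
    have h3 : 6 * Phi φ x' x' (frm u z) (frm u z) = 0 := h1
    exact (mul_eq_zero.1 h3).resolve_left (by norm_num)
  have e3 : Phi φ x' (frm u z) (frm u z) (frm u z) = 0 := by
    have h3 : 4 * Phi φ x' (frm u z) (frm u z) (frm u z) = 0 := h2
    exact (mul_eq_zero.1 h3).resolve_left (by norm_num)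
  obtain ⟨c, hc⟩ := sec_bad hφ hs hn x hx h hh x' hx' (frm u z) (by
    intro i
    match i with
    | none => rw [T13a_z1 hu, hz1]
    | some i => exact T13a_some hu z i) e1 e2 e3
  exact T13a_mul hu hc

theorem frame_h2 (hφ : IsSymm4 φ) (hs : Smooth4 φ) (hn : 4 ≤ n) (x : Fin (n + 1) → K)
    (hx : IsGenPt φ x) (h : Option (Fin (n - 4)) × Fin (n + 1) → Ω)
    (hh : AlgebraicIndependent K h) (x' : Fin (n + 1) → Ω)
    (hx' : ∀ i, x' i = algebraMap K Ω (x i)) (u : Fin 4 → Fin (n + 1) → Ω)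
    (hu : IsFrame φ x' h u) (z : Fin 4 → Ω) (hz : z ≠ 0) (hz0 : z 0 = 0)
    (h1 : eval z (cfP φ x' u 1) = 0) (h2 : eval z (cfP φ x' u 2) = 0) :
    eval z (cfP φ x' u 3) ≠ 0 ∧ ∃ i, i ≠ 0 ∧ eval z (pderiv i (cfP φ x' u 1)) ≠ 0 := by
  have hc0 : CharZero Ω := charZero_of_injective_algebraMap (algebraMap k Ω).injective
  have e0 := T13a_z0 hu z
  rw [hz0] at e0
  have e1 : Phi φ x' x' x' (frm u z) = 0 :=
    (mul_eq_zero.1 e0).resolve_left (by norm_num)
  rw [cfP_eval] at h1 h2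
  have e2 : Phi φ x' x' (frm u z) (frm u z) = 0 := by
    have h3 : 6 * Phi φ x' x' (frm u z) (frm u z) = 0 := h1
    exact (mul_eq_zero.1 h3).resolve_left (by norm_num)
  have e3 : Phi φ x' (frm u z) (frm u z) (frm u z) = 0 := by
    have h3 : 4 * Phi φ x' (frm u z) (frm u z) (frm u z) = 0 := h2
    exact (mul_eq_zero.1 h3).resolve_left (by norm_num)
  have hyx : ∀ c : Ω, frm u z ≠ c • x' := fun c hc => hz (T13a_mul hu hc)
  refine ⟨?_, ?_⟩
  · intro h3
    rw [cfP_eval] at h3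
    have e4 : Phi φ (frm u z) (frm u z) (frm u z) (frm u z) = 0 := by
      have h4 : 3 * Phi φ (frm u z) (frm u z) (frm u z) (frm u z) = 0 := h3
      exact (mul_eq_zero.1 h4).resolve_left (by norm_num)
    have hinj : Function.Injective
        (fun i : Fin (n - 4) × Fin (n + 1) =>
          ((some i.1, i.2) : Option (Fin (n - 4)) × Fin (n + 1))) := by
      rintro ⟨i, j⟩ ⟨i', j'⟩ hij
      simp only [Prod.mk.injEq, Option.some.injEq] at hij
      rw [hij.1, hij.2]
    obtain ⟨c, hc⟩ := lines_section hφ hs hn x hx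
      (fun i : Fin (n - 4) × Fin (n + 1) => h (some i.1, i.2)) (hh.comp _ hinj) x' (frm u z) hx'
      e1 e2 e3 e4 (fun i => T13a_some hu z i)
    exact hyx c hc
  · obtain ⟨b, hb1, hb2, hb3⟩ := sec_bad_tangent hφ hs x hx h hh x' hx' (frm u z) hyx
      (fun i => T13a_some hu z i) e1 e2 e3
    obtain ⟨ξ, c, hbc⟩ := hu.span b hb1
    have hb : b = ξ • x' + frm u c := by
      funext j
      rw [hbc j]
      rfl
    have hself : Phi φ x' x' x' x' = 0 := by
      have h3 : IsGenPt φ x' := by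
        have h4 := hx.map (IsScalarTower.toAlgHom k K Ω)
        have h5 : (fun i => (IsScalarTower.toAlgHom k K Ω) (x i)) = x' := by
          funext i
          exact (hx' i).symm
        rw [h5] at h4
        exact h4
      exact h3.self
    have hc0' : c 0 = 0 := by
      have h3 := T13a_z0 hu c
      rw [hb, Phi_add4, Phi_smul4, hself, mul_zero, zero_add] at hb2
      rw [hb2, mul_zero] at h3
      exact h3.symm
    have hsum : ∑ i, c i * Phi φ x' x' (frm u z) (u i) = 1 := by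
      rw [hb, Phi_add4, Phi_smul4, Phi_comm34 hφ x' x' (frm u z) x', e1, mul_zero, zero_add,
        T13a_phi_frm] at hb3
      exact hb3
    obtain ⟨i, -, hi⟩ := Finset.exists_ne_zero_of_sum_ne_zero (by rw [hsum]; exact one_ne_zero)
    refine ⟨i, ?_, ?_⟩
    · rintro rfl
      rw [hc0', zero_mul] at hi
      exact hi rfl
    · rw [cfP_pderiv hφ]
      change 12 * Phi φ x' x' (frm u z) (u i) ≠ 0
      exact mul_ne_zero (by norm_num) (right_ne_zero_of_mul hi)

end

end Pool.Agent.LibHP
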