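import Pool.Agent.LibHPF.T2c
import Pool.Agent.LibHPF.T12

set_option autoImplicit false
open MvPolynomial

namespace Pool.Agent.LibHP

variable {k : Type} [Field k] [CharZero k] {n : ℕ} {φ : Tens k n}

/-!
# Row T13b: the points of the determinantal curve with `z 0 ≠ 0`

NOTATION. `y = frm u z`, `A a = cf φ x' y a = eval z (cfP φ x' u a)` (`cfP_eval`), `A 0 = z 0` (`cfP_zero` or
`IsFrame.h0`). `s = - A 1 / A 0`, `P = y + s • x'`. From `m3 = A0 A2 - A1 ^ 2 = 0` and `m2 = A0 A3 - A1 A2 = 0`: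
`A 1 = - s A 0`, `A 2 = s ^ 2 A 0`, `A 3 = - s ^ 3 A 0`.

PLAN. By `cf_line` (row T12): `Phi φ P P P P = 0`, `Phi φ P P P x' = 0`, `Phi φ P P x' x' = 0`,
`12 * Phi φ P x' x' x' = A 0 ≠ 0`. `lin (h (some i)) x' P = 0` (linearity, `hu`, `lin _ x' x' = 0`). By `sec_tri`
(row T2c) there are `b0`, `b1` with `lin (h (some i)) x' b = 0` and
`Phi φ P P P b0 = 1`, `Phi φ P P x' b0 = 0`, `Phi φ P P P b1 = 0`, `Phi φ P P x' b1 = 1`.
Write `b = ξ x' + frm u c` (`IsFrame.span`). CLAIM: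
`∑ a, c a * ∂_a m3 (z) = 12 A0 Phi φ P P x' b`, `∑ a, c a * ∂_a m2 (z) = 12 A0 (Phi φ P P P b - 2 s Phi φ P P x' b)`.
Proof: by `cfP_pderiv` and linearity `∑ a, c a * ∂_a A_j (z) = 12 * Phi φ ... (frm u c)` with `(x',x',x')`, `(x',x',y)`,
`(x',y,y)`, `(y,y,y)` for `j = 0, 1, 2, 3`; call them `D0, D1, D2, D3`, and `D0', ..., D3'` the same with `b` instead of
`frm u c`, so `Dj' = Dj + ξ * 12 Phi φ ... x'`, i.e. `D0' = D0`, `D1' = D1 + ξ A0`, `D2' = D2 + 2 ξ A1`,
`D3' = D3 + 3 ξ A2`. `∑ c ∂m3 = A0 D2 + A2 D0 - 2 A1 D1` and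
`∑ c ∂m2 = A0 D3 + A3 D0 - A1 D2 - A2 D1` (Leibniz rule); replacing `D` by `D'` changes them by
`ξ (2 A0 A1 - 2 A1 A0) = 0` and `ξ (3 A0 A2 - 2 A1 ^ 2 - A0 A2) = 2 ξ m3 = 0`. Now insert
`Phi(x',x',y,b) = Phi(x',x',P,b) - s Phi(x',x',x',b)`,
`Phi(x',y,y,b) = Phi(x',P,P,b) - 2 s Phi(x',x',P,b) + s ^ 2 Phi(x',x',x',b)`,
`Phi(y,y,y,b) = Phi(P,P,P,b) - 3 s Phi(x',P,P,b) + 3 s ^ 2 Phi(x',x',P,b) - s ^ 3 Phi(x',x',x',b)` and the values of
`A 1, A 2, A 3`: `ring`.
So the two gradients, paired with the coefficient vectors `c` of `b0`, `b1`, give the matrix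
`(0, 12 A0; 12 A0, -24 s A0)`, of nonzero determinant: they are linearly independent.
-/

private theorem T13b_sum {R : Type} [CommRing R] [Algebra k R] (p q r : Fin (n + 1) → R)
    (u : Fin 4 → Fin (n + 1) → R) (c : Fin 4 → R) :
    Phi φ p q r (frm u c) = ∑ a, c a * Phi φ p q r (u a) := by
  have h : frm u c = ∑ a, c a • u a := by
    funext j
    unfold frm
    rw [Finset.sum_apply]
    exact Finset.sum_congr rfl fun a _ => by rw [Pi.smul_apply, smul_eq_mul]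
  rw [h, ← PhiL_apply, map_sum]
  exact Finset.sum_congr rfl fun a _ => by rw [map_smul, smul_eq_mul, PhiL_apply]

private theorem T13b_exp3 (hφ : IsSymm4 φ) {R : Type} [CommRing R] [Algebra k R]
    (x y b : Fin (n + 1) → R) (s : R) :
    Phi φ (y + s • x) (y + s • x) (y + s • x) b = Phi φ y y y b + 3 * s * Phi φ x y y b +
      3 * s ^ 2 * Phi φ x x y b + s ^ 3 * Phi φ x x x b := by
  have e1 : Phi φ y x y b = Phi φ x y y b := Phi_comm12 hφ _ _ _ _
  have e2 : Phi φ y y x b = Phi φ x y y b := by rw [Phi_comm23 hφ, e1]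
  have e3 : Phi φ x y x b = Phi φ x x y b := Phi_comm23 hφ _ _ _ _
  have e4 : Phi φ y x x b = Phi φ x x y b := by rw [Phi_comm12 hφ, e3]
  simp only [Phi_add1, Phi_add2, Phi_add3, Phi_smul1, Phi_smul2, Phi_smul3, e1, e2, e3, e4]
  ring

private theorem T13b_exp2 (hφ : IsSymm4 φ) {R : Type} [CommRing R] [Algebra k R]
    (x y b : Fin (n + 1) → R) (s : R) :
    Phi φ (y + s • x) (y + s • x) x b = Phi φ x y y b + 2 * s * Phi φ x x y b +
      s ^ 2 * Phi φ x x x b := by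
  have e1 : Phi φ y x y b = Phi φ x y y b := Phi_comm12 hφ _ _ _ _
  have e2 : Phi φ y y x b = Phi φ x y y b := by rw [Phi_comm23 hφ, e1]
  have e3 : Phi φ x y x b = Phi φ x x y b := Phi_comm23 hφ _ _ _ _
  have e4 : Phi φ y x x b = Phi φ x x y b := by rw [Phi_comm12 hφ, e3]
  simp only [Phi_add1, Phi_add2, Phi_smul1, Phi_smul2, e2, e3, e4]
  ring

private theorem T13b_lin {R : Type} [CommRing R] (g x : Fin (n + 1) → R)
    (u : Fin 4 → Fin (n + 1) → R) (z : Fin 4 → R) :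
    lin g x (frm u z) = ∑ a, z a * lin g x (u a) := by
  unfold lin frm
  simp only [Finset.mul_sum]
  rw [Finset.sum_comm]
  refine Finset.sum_congr rfl fun j _ => ?_
  rw [Finset.sum_mul, ← Finset.sum_sub_distrib, Finset.mul_sum]
  refine Finset.sum_congr rfl fun a _ => ?_
  ring

private theorem T13b_lin_add {R : Type} [CommRing R] (g x y : Fin (n + 1) → R) (s : R)
    (hx : x 0 = 1) : lin g x (y + s • x) = lin g x y := by
  unfold lin
  refine Finset.sum_congr rfl fun j _ => ?_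
  simp only [Pi.add_apply, Pi.smul_apply, smul_eq_mul, hx]
  ring

theorem frame_h1 (hφ : IsSymm4 φ) (hs : Smooth4 φ) (hn : 4 ≤ n) {K Ω : Type} [Field K]
    [Algebra k K] [Field Ω] [Algebra k Ω] [Algebra K Ω] [IsScalarTower k K Ω]
    (x : Fin (n + 1) → K) (hx : IsGenPt φ x) (h : Option (Fin (n - 4)) × Fin (n + 1) → Ω)
    (hh : AlgebraicIndependent K h) (x' : Fin (n + 1) → Ω)
    (hx' : ∀ i, x' i = algebraMap K Ω (x i)) (u : Fin 4 → Fin (n + 1) → Ω)
    (hu : IsFrame φ x' h u) (z : Fin 4 → Ω) (hz0 : z 0 ≠ 0)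
    (h3 : eval z (mn3 (cfP φ x' u)) = 0) (h2 : eval z (mn2 (cfP φ x' u)) = 0) :
    LinearIndependent Ω ![fun i => eval z (pderiv i (mn3 (cfP φ x' u))),
      fun i => eval z (pderiv i (mn2 (cfP φ x' u)))] := by
  haveI : CharZero Ω := charZero_of_injective_algebraMap (algebraMap k Ω).injective
  obtain rfl : x' = fun i => algebraMap K Ω (x i) := funext hx'
  obtain ⟨x', hxd⟩ : ∃ x' : Fin (n + 1) → Ω, x' = fun i => algebraMap K Ω (x i) := ⟨_, rfl⟩
  have hxg : IsGenPt φ x' := by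
    rw [hxd]
    exact hx.map (IsScalarTower.toAlgHom k K Ω)
  have hx'' : ∀ i, x' i = algebraMap K Ω (x i) := fun i => by rw [hxd]
  rw [← hxd] at hu h3 h2 ⊢
  have hself : Phi φ x' x' x' x' = 0 := hxg.self
  -- the values
  obtain ⟨y, hy⟩ : ∃ y, y = frm u z := ⟨_, rfl⟩
  have hA : ∀ a, eval z (cfP φ x' u a) = cf φ x' y a := fun a => by rw [cfP_eval, hy]
  have hA0' : eval z (cfP φ x' u 0) = z 0 := by
    rw [cfP_zero x' u hu.h0, eval_X]
  obtain ⟨A0, hA0⟩ : ∃ A0, A0 = cf φ x' y 0 := ⟨_, rfl⟩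
  obtain ⟨A1, hA1⟩ : ∃ A1, A1 = cf φ x' y 1 := ⟨_, rfl⟩
  obtain ⟨A2, hA2⟩ : ∃ A2, A2 = cf φ x' y 2 := ⟨_, rfl⟩
  obtain ⟨A3, hA3⟩ : ∃ A3, A3 = cf φ x' y 3 := ⟨_, rfl⟩
  have hA0ne : A0 ≠ 0 := by
    rw [hA0, ← hA, hA0']
    exact hz0
  have h3' : A0 * A2 - A1 ^ 2 = 0 := by
    have h := h3
    simp only [mn3, map_sub, map_mul, map_pow, hA, ← hA0, ← hA1, ← hA2] at h
    exact h
  have h2' : A0 * A3 - A1 * A2 = 0 := by
    have h := h2
    simp only [mn2, map_sub, map_mul, hA, ← hA0, ← hA1, ← hA2, ← hA3] at h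
    exact h
  obtain ⟨s, hs'⟩ : ∃ s, s = -A1 / A0 := ⟨_, rfl⟩
  have e1 : A1 = -(s * A0) := by
    rw [hs']
    field_simp
  have e2 : A2 = s ^ 2 * A0 := by
    have h : A0 * A2 = A0 * (s ^ 2 * A0) := by
      rw [e1] at h3'
      linear_combination h3'
    exact mul_left_cancel₀ hA0ne h
  have e3 : A3 = -(s ^ 3 * A0) := by
    have h : A0 * A3 = A0 * (-(s ^ 3 * A0)) := by
      rw [e1, e2] at h2'
      linear_combination h2'
    exact mul_left_cancel₀ hA0ne h
  -- the point `P`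
  obtain ⟨P, hP⟩ : ∃ P, P = y + s • x' := ⟨_, rfl⟩
  obtain ⟨l0, l1, l2, l3⟩ := cf_line hφ x' y hself s
  rw [← hA0, ← hA1, ← hA2, ← hA3, ← hP] at l0
  rw [← hA0, ← hA1, ← hA2, ← hP] at l1
  rw [← hA0, ← hA1, ← hP] at l2
  rw [← hA0, ← hP] at l3
  have p0 : Phi φ P P P P = 0 := by
    have h : (3 : Ω) * Phi φ P P P P = 0 := by rw [l0, e1, e2, e3]; ring
    exact (mul_eq_zero.1 h).resolve_left (by norm_num)
  have p1 : Phi φ P P P x' = 0 := by
    have h : (12 : Ω) * Phi φ P P P x' = 0 := by rw [l1, e1, e2]; ring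
    exact (mul_eq_zero.1 h).resolve_left (by norm_num)
  have p2 : Phi φ P P x' x' = 0 := by
    have h : (12 : Ω) * Phi φ P P x' x' = 0 := by rw [l2, e1]; ring
    exact (mul_eq_zero.1 h).resolve_left (by norm_num)
  have p3 : Phi φ P x' x' x' ≠ 0 := by
    intro h
    rw [h, mul_zero] at l3
    exact hA0ne l3.symm
  have hPl : ∀ i, lin (fun j => h (some i, j)) x' P = 0 := by
    intro i
    rw [hP, T13b_lin_add _ _ _ _ hxg.1, hy, T13b_lin]
    refine Finset.sum_eq_zero fun a _ => ?_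
    rw [hu.hu a i, mul_zero]
  -- the gradients
  have g3 : ∀ i, eval z (pderiv i (mn3 (cfP φ x' u))) =
      A0 * (12 * Phi φ x' y y (u i)) + A2 * (12 * Phi φ x' x' x' (u i)) -
        2 * A1 * (12 * Phi φ x' x' y (u i)) := by
    intro i
    have d0 := cfP_pderiv hφ x' u z i 0
    have d1 := cfP_pderiv hφ x' u z i 1
    have d2 := cfP_pderiv hφ x' u z i 2
    simp only [Matrix.cons_val_zero, Matrix.cons_val_one, Matrix.cons_val, ← hy] at d0 d1 d2
    unfold mn3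
    rw [map_sub, Derivation.leibniz, pow_two, Derivation.leibniz]
    simp only [smul_eq_mul, map_sub, map_add, map_mul, d0, d1, d2, hA, ← hA0, ← hA1, ← hA2]
    ring
  have g2 : ∀ i, eval z (pderiv i (mn2 (cfP φ x' u))) =
      A0 * (12 * Phi φ y y y (u i)) + A3 * (12 * Phi φ x' x' x' (u i)) -
        A1 * (12 * Phi φ x' y y (u i)) - A2 * (12 * Phi φ x' x' y (u i)) := by
    intro i
    have d0 := cfP_pderiv hφ x' u z i 0
    have d1 := cfP_pderiv hφ x' u z i 1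
    have d2 := cfP_pderiv hφ x' u z i 2
    have d3 := cfP_pderiv hφ x' u z i 3
    simp only [Matrix.cons_val_zero, Matrix.cons_val_one, Matrix.cons_val, ← hy] at d0 d1 d2 d3
    unfold mn2
    rw [map_sub, Derivation.leibniz, Derivation.leibniz]
    simp only [smul_eq_mul, map_sub, map_add, map_mul, d0, d1, d2, d3, hA, ← hA0, ← hA1,
      ← hA2, ← hA3]
    ring
  -- the pairing
  have key : ∀ (b : Fin (n + 1) → Ω) (ξ : Ω) (c : Fin 4 → Ω), (∀ j, b j = ξ * x' j + frm u c j) →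
      ∑ a, c a * eval z (pderiv a (mn3 (cfP φ x' u))) = 12 * A0 * Phi φ P P x' b ∧
      ∑ a, c a * eval z (pderiv a (mn2 (cfP φ x' u))) =
        12 * A0 * (Phi φ P P P b - 2 * s * Phi φ P P x' b) := by
    intro b ξ c hb
    have hb' : b = ξ • x' + frm u c := by
      funext j
      rw [hb j, Pi.add_apply, Pi.smul_apply, smul_eq_mul]
    have hD : ∀ p q r : Fin (n + 1) → Ω, ∑ a, c a * (12 * Phi φ p q r (u a)) =
        12 * Phi φ p q r b - ξ * (12 * Phi φ p q r x') := by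
      intro p q r
      rw [hb', Phi_add4, Phi_smul4, T13b_sum]
      have h : ∑ a, c a * (12 * Phi φ p q r (u a)) = 12 * ∑ a, c a * Phi φ p q r (u a) := by
        rw [Finset.mul_sum]
        exact Finset.sum_congr rfl fun a _ => by ring
      rw [h]
      ring
    have f1 : 12 * Phi φ x' x' y x' = A0 := by
      rw [Phi_comm34 hφ, hA0]
      simp [cf]
    have f2 : 12 * Phi φ x' y y x' = 2 * A1 := by
      rw [Phi_comm34 hφ, Phi_comm23 hφ, hA1]
      simp only [cf, Matrix.cons_val_zero, Matrix.cons_val_one, Matrix.cons_val]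
      ring
    have f3 : 12 * Phi φ y y y x' = 3 * A2 := by
      rw [Phi_comm34 hφ, Phi_comm23 hφ, Phi_comm12 hφ, hA2]
      simp only [cf, Matrix.cons_val_zero, Matrix.cons_val_one, Matrix.cons_val]
      ring
    have hD0 := hD x' x' x'
    have hD1 := hD x' x' y
    have hD2 := hD x' y y
    have hD3 := hD y y y
    rw [hself, mul_zero, mul_zero, sub_zero] at hD0
    rw [f1] at hD1
    rw [f2] at hD2
    rw [f3] at hD3
    have x3 := T13b_exp3 hφ x' y b s
    have x2 := T13b_exp2 hφ x' y b s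
    rw [← hP] at x3 x2
    constructor
    · have h : ∑ a, c a * eval z (pderiv a (mn3 (cfP φ x' u))) =
          A0 * ∑ a, c a * (12 * Phi φ x' y y (u a)) + A2 * ∑ a, c a * (12 * Phi φ x' x' x' (u a)) -
            2 * A1 * ∑ a, c a * (12 * Phi φ x' x' y (u a)) := by
        simp only [Finset.mul_sum, ← Finset.sum_add_distrib, ← Finset.sum_sub_distrib]
        refine Finset.sum_congr rfl fun a _ => ?_
        rw [g3 a]
        ring
      rw [h, hD0, hD1, hD2, x2, e1, e2]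
      ring
    · have h : ∑ a, c a * eval z (pderiv a (mn2 (cfP φ x' u))) =
          A0 * ∑ a, c a * (12 * Phi φ y y y (u a)) + A3 * ∑ a, c a * (12 * Phi φ x' x' x' (u a)) -
            A1 * ∑ a, c a * (12 * Phi φ x' y y (u a)) -
            A2 * ∑ a, c a * (12 * Phi φ x' x' y (u a)) := by
        simp only [Finset.mul_sum, ← Finset.sum_add_distrib, ← Finset.sum_sub_distrib]
        refine Finset.sum_congr rfl fun a _ => ?_
        rw [g2 a]
        ring
      rw [h, hD0, hD1, hD2, hD3, x3, x2, e1, e2, e3]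
      ring
  -- the two vectors
  obtain ⟨b0, hb0l, hb00, hb01⟩ :=
    sec_tri hφ hs x hx h hh x' hx'' P hPl p0 p1 p2 p3 1 0
  obtain ⟨b1, hb1l, hb10, hb11⟩ :=
    sec_tri hφ hs x hx h hh x' hx'' P hPl p0 p1 p2 p3 0 1
  obtain ⟨ξ0, c0, hc0⟩ := hu.span b0 hb0l
  obtain ⟨ξ1, c1, hc1⟩ := hu.span b1 hb1l
  obtain ⟨k0, k0'⟩ := key b0 ξ0 c0 hc0
  obtain ⟨k1, k1'⟩ := key b1 ξ1 c1 hc1
  rw [hb01, mul_zero] at k0
  rw [hb00, hb01] at k0'
  rw [hb11] at k1
  rw [hb10, hb11] at k1'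
  rw [LinearIndependent.pair_iff]
  intro α β hαβ
  have hpair : ∀ c : Fin 4 → Ω, α * ∑ a, c a * eval z (pderiv a (mn3 (cfP φ x' u))) +
      β * ∑ a, c a * eval z (pderiv a (mn2 (cfP φ x' u))) = 0 := by
    intro c
    rw [Finset.mul_sum, Finset.mul_sum, ← Finset.sum_add_distrib]
    refine Finset.sum_eq_zero fun a _ => ?_
    have h := congrFun hαβ a
    simp only [Pi.add_apply, Pi.smul_apply, smul_eq_mul, Pi.zero_apply] at h
    linear_combination c a * h
  have q0 := hpair c0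
  have q1 := hpair c1
  rw [k0, k0'] at q0
  rw [k1, k1'] at q1
  have hβ : β = 0 := by
    have h : β * (12 * A0) = 0 := by linear_combination q0
    exact (mul_eq_zero.1 h).resolve_right (mul_ne_zero (by norm_num) hA0ne)
  refine ⟨?_, hβ⟩
  have h : α * (12 * A0) = 0 := by
    rw [hβ] at q1
    linear_combination q1
  exact (mul_eq_zero.1 h).resolve_right (mul_ne_zero (by norm_num) hA0ne)

end Pool.Agent.LibHP
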