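import Pool.Agent.LibHPF.T10
import Pool.Agent.LibHPF.T13a
import Pool.Agent.LibHPF.T13b

set_option autoImplicit false
open MvPolynomial

namespace Pool.Agent.LibHP

variable {k : Type} [Field k] [CharZero k] {n : ℕ} {φ : Tens k n}

/-- The determinantal curve of a frame. -/
theorem frame_prime (hφ : IsSymm4 φ) (hs : Smooth4 φ) (hn : 4 ≤ n) {K Ω : Type} [Field K]
    [Algebra k K] [Field Ω] [IsAlgClosed Ω] [Algebra k Ω] [Algebra K Ω] [IsScalarTower k K Ω]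
    (x : Fin (n + 1) → K) (hx : IsGenPt φ x) (h : Option (Fin (n - 4)) × Fin (n + 1) → Ω)
    (hh : AlgebraicIndependent K h) (x' : Fin (n + 1) → Ω)
    (hx' : ∀ i, x' i = algebraMap K Ω (x i)) (u : Fin 4 → Fin (n + 1) → Ω)
    (hu : IsFrame φ x' h u) :
    (affI (cfP φ x' u)).IsPrime ∧
    (∀ f, X 0 * f ∈ detI (cfP φ x' u) → f ∈ detI (cfP φ x' u)) ∧
    ∃ z : Fin 4 → Ω, z 0 = 0 ∧ eval z (cfP φ x' u 1) = 0 ∧ eval z (cfP φ x' u 2) = 0 ∧
      eval z (cfP φ x' u 3) ≠ 0 := by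
  have hA0 := cfP_zero x' u hu.h0
  have hA := cfP_hom (φ := φ) x' u
  have h4 := frame_h4 hφ hs hn x hx h hh x' hx' u hu
  have h2 := frame_h2 hφ hs hn x hx h hh x' hx' u hu
  refine ⟨prime_aff Ω _ hA0 hA h4 h2 (frame_h1 hφ hs hn x hx h hh x' hx' u hu),
    (det_reg_forms Ω _ hA0 hA h4).1, ?_⟩
  obtain ⟨z, hz, hz'⟩ := exists_zero_of_lt Ω (Fin 4) (Fin 3) (by simp)
    ![X 0, cfP φ x' u 1, cfP φ x' u 2] ![1, 2, 3] (by
      intro i; fin_cases i <;> simp) (by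
      intro i
      fin_cases i
      · exact isHomogeneous_X Ω 0
      · exact hA 1
      · exact hA 2)
  have e0 : z 0 = 0 := by simpa using hz' 0
  have e1 : eval z (cfP φ x' u 1) = 0 := hz' 1
  have e2 : eval z (cfP φ x' u 2) = 0 := hz' 2
  exact ⟨z, e0, e1, e2, (h2 z hz e0 e1 e2).1⟩

end Pool.Agent.LibHP
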