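import Pool.Agent.LibHPF.T3
import Pool.Agent.LibHPF.T13

set_option autoImplicit false
open MvPolynomial

namespace Pool.Agent.LibHP

variable {k : Type} [Field k] [CharZero k] {n : ℕ} {φ : Tens k n}

/-!
# Row T14: the triple contact point of the determinantal curve is a generic point of the hypersurface

NOTATION. `A = cfP φ x' u`, `y = frm (C ∘ u) X` (entries in `S = MvPolynomial (Fin 4) L`), `x'` the generic point (image of
`x`), `p01 j = A 0 * y j - A 1 * C (x' j)` (`vec01`), `I = detI A`, `A 0 = X 0` (`cfP_zero`, `hu.h0`).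

PLAN.
`affI_map`: `Ideal.map_span`, `Set.image_pair`; `map f (dh G) = dh (map f G)` (`MvPolynomial.induction_on` or
`algHom`/`ringHom_ext`), `mn3`, `mn2` commute with ring homomorphisms, `cfP_map`.
`gen_of_frame`: let `Ω = AlgebraicClosure L` and apply `f : L →ₐ[k] Ω` to everything (`IsFrame.map`; `f ∘ h` is
algebraically independent over `K`: `hh.map'` with the injective `K`-algebra map `algebraMap L Ω`): all assertions
below are over `Ω`. `frame_prime` gives `reg1 : X 0 * f ∈ I → f ∈ I` and a point `z` with `z 0 = 0`, `A1(z) = A2(z) = 0`,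
`A3(z) ≠ 0`. The polynomial `aeval vec01 G` is homogeneous of degree `2 d` (`vec01 j` is homogeneous of degree 2:
`IsHomogeneous` of a composition: on monomials; Mathlib `IsHomogeneous.aeval`/`eval₂`), and `dh` of it is in
`affI A` (apply `MvPolynomial.map f` to `hG`, `affI_map`), so `mem_of_dh` (row T8): `aeval vec01 G ∈ I`.
Let `vec23 j = A 2 * y j - A 3 * C (x' j)`. `A 2 * vec01 j - A 0 * vec23 j = mn2 A * C (x' j) ∈ I` (`ring`). So in `S ⧸ I`:
`A2 ^ d * G(vec01) = G(A2 vec01) = G(A0 vec23) = A0 ^ d * G(vec23)` (`Q24_scale`-like scaling of forms, see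
Q24.lean; copy it), so `X 0 ^ d * aeval vec23 G ∈ I`, so `aeval vec23 G ∈ I` by `reg1` (`d` times). Evaluate at `z`:
elements of `I` vanish at `z` (`mn1, mn2, mn3` vanish since `A0, A1, A2` do), and `vec23(z) = - A3(z) * x'`, so
`(-A3(z)) ^ d * aeval x' G = 0`, `aeval x' G = 0` over `Ω`, hence over `L` (`f` injective).
-/

/-- The vector `A0 y - A1 x`. -/
noncomputable def vec01 (φ : Tens k n) {L : Type} [Field L] [Algebra k L] (x : Fin (n + 1) → L)
    (u : Fin 4 → Fin (n + 1) → L) : Fin (n + 1) → MvPolynomial (Fin 4) L :=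
  fun j => cfP φ x u 0 * frm (fun a j => C (u a j)) X j - cfP φ x u 1 * C (x j)

private theorem T14_dh {L Ω : Type} [Field L] [Field Ω] (f : L →+* Ω)
    (G : MvPolynomial (Fin 4) L) : MvPolynomial.map f (dh G) = dh (MvPolynomial.map f G) := by
  induction G using MvPolynomial.induction_on with
  | C c =>
    have h1 : dh (C c : MvPolynomial (Fin 4) L) = C c := by
      rw [dh]; exact aeval_C _ _
    have h2 : dh (C (f c) : MvPolynomial (Fin 4) Ω) = C (f c) := by
      rw [dh]; exact aeval_C _ _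
    rw [h1, map_C, map_C, h2]
  | add p q hp hq => rw [map_add, map_add, hp, hq, map_add, map_add]
  | mul_X p i hp =>
    rw [map_mul, map_mul, hp, map_mul, map_mul, map_X]
    congr 1
    have h1 : dh (X i : MvPolynomial (Fin 4) L) =
        (Fin.cons 1 X : Fin 4 → MvPolynomial (Fin 3) L) i := by
      rw [dh]; exact aeval_X _ _
    have h2 : dh (X i : MvPolynomial (Fin 4) Ω) =
        (Fin.cons 1 X : Fin 4 → MvPolynomial (Fin 3) Ω) i := by
      rw [dh]; exact aeval_X _ _
    rw [h1, h2]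
    induction i using Fin.cases with
    | zero => simp
    | succ j => simp

theorem affI_map {L Ω : Type} [Field L] [Algebra k L] [Field Ω] [Algebra k Ω] (f : L →ₐ[k] Ω)
    (x : Fin (n + 1) → L) (u : Fin 4 → Fin (n + 1) → L) :
    (affI (cfP φ x u)).map (MvPolynomial.map (σ := Fin 3) (f : L →+* Ω)) =
      affI (cfP φ (fun j => f (x j)) (fun a j => f (u a j))) := by
  unfold affI
  rw [Ideal.map_span, Set.image_pair, T14_dh, T14_dh]
  simp only [mn3, mn2, map_sub, map_mul, map_pow, cfP_map]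

private theorem T14_frm {L Ω : Type} [Field L] [Algebra k L] [Field Ω] [Algebra k Ω]
    (f : L →ₐ[k] Ω) (u : Fin 4 → Fin (n + 1) → L) (j : Fin (n + 1)) :
    MvPolynomial.map (f : L →+* Ω) (frm (fun a j => (C (u a j) : MvPolynomial (Fin 4) L)) X j) =
      frm (fun a j => C (f (u a j))) X j := by
  unfold frm
  rw [map_sum]
  refine Finset.sum_congr rfl fun a _ => ?_
  rw [map_mul, map_X, map_C]
  rfl

private theorem T14_vec {L Ω : Type} [Field L] [Algebra k L] [Field Ω] [Algebra k Ω]
    (f : L →ₐ[k] Ω) (x : Fin (n + 1) → L) (u : Fin 4 → Fin (n + 1) → L)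
    (G : MvPolynomial (Fin (n + 1)) k) :
    MvPolynomial.map (f : L →+* Ω) (aeval (vec01 φ x u) G) =
      aeval (vec01 φ (fun j => f (x j)) (fun a j => f (u a j))) G := by
  have h1 : ∀ j, mapAlgHom f (vec01 φ x u j) =
      vec01 φ (fun j => f (x j)) (fun a j => f (u a j)) j := by
    intro j
    show MvPolynomial.map (f : L →+* Ω) (vec01 φ x u j) = _
    unfold vec01
    rw [map_sub, map_mul, map_mul, cfP_map, cfP_map, map_C, T14_frm]
    rfl
  have h2 := comp_aeval_apply (vec01 φ x u) (mapAlgHom (σ := Fin 4) f) G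
  rw [funext h1] at h2
  exact h2

private theorem T14_frm_hom {L : Type} [Field L] (u : Fin 4 → Fin (n + 1) → L)
    (j : Fin (n + 1)) :
    (frm (fun a j => (C (u a j) : MvPolynomial (Fin 4) L)) X j).IsHomogeneous 1 := by
  unfold frm
  refine IsHomogeneous.sum _ _ _ fun a _ => ?_
  have := (isHomogeneous_X L a).mul (isHomogeneous_C (Fin 4) (u a j))
  exact this

private theorem T14_vec_hom {L : Type} [Field L] [Algebra k L] (x : Fin (n + 1) → L)
    (u : Fin 4 → Fin (n + 1) → L) (j : Fin (n + 1)) : (vec01 φ x u j).IsHomogeneous 2 := by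
  unfold vec01
  exact ((cfP_hom x u 0).mul (T14_frm_hom u j)).sub ((cfP_hom x u 1).mul (isHomogeneous_C _ _))

/-- homogeneous polynomials at multiples -/
private theorem T14_scale {k : Type} [Field k] {n : ℕ} {S : Type} [CommRing S] [Algebra k S]
    {d : ℕ} {G : MvPolynomial (Fin (n + 1)) k} (hG : G.IsHomogeneous d) (t : S)
    (p : Fin (n + 1) → S) : aeval (fun i => t * p i) G = t ^ d * aeval p G := by
  rw [aeval_def, aeval_def, eval₂_eq', eval₂_eq', Finset.mul_sum]
  refine Finset.sum_congr rfl fun s hs => ?_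
  have hd : ∑ i, s i = d := by
    have h1 := hG (mem_support_iff.mp hs)
    have h2 : Finsupp.degree s = Finsupp.weight 1 s := by
      rw [Finsupp.degree_eq_weight_one]
      rfl
    rw [← h1, ← h2, Finsupp.degree_eq_sum]
  simp only [mul_pow, Finset.prod_mul_distrib, Finset.prod_pow_eq_pow_sum, hd]
  ring

private theorem T14_pow {Ω : Type} [Field Ω] (A : Fin 4 → MvPolynomial (Fin 4) Ω)
    (hreg : ∀ f, X 0 * f ∈ detI A → f ∈ detI A) (d : ℕ) (f : MvPolynomial (Fin 4) Ω)
    (h : X 0 ^ d * f ∈ detI A) : f ∈ detI A := by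
  induction d with
  | zero => rwa [pow_zero, one_mul] at h
  | succ d ih =>
    apply ih
    apply hreg
    rwa [pow_succ', mul_assoc] at h

private theorem T14_vanish {Ω : Type} [Field Ω] (A : Fin 4 → MvPolynomial (Fin 4) Ω)
    (z : Fin 4 → Ω) (h0 : eval z (A 0) = 0) (h1 : eval z (A 1) = 0) (h2 : eval z (A 2) = 0)
    {f : MvPolynomial (Fin 4) Ω} (hf : f ∈ detI A) : eval z f = 0 := by
  have h : detI A ≤ RingHom.ker (eval z) := by
    unfold detI
    rw [Ideal.span_le]
    rintro x (rfl | rfl | rfl)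
    · show eval z (mn1 A) = 0
      rw [mn1, map_sub, map_mul, map_pow, h1, h2]; ring
    · show eval z (mn2 A) = 0
      rw [mn2, map_sub, map_mul, map_mul, h0, h1]; ring
    · show eval z (mn3 A) = 0
      rw [mn3, map_sub, map_mul, map_pow, h0, h1]; ring
  exact h hf

/-- from the moved vector to the point -/
private theorem T14_core {Ω : Type} [Field Ω] [Algebra k Ω] (A : Fin 4 → MvPolynomial (Fin 4) Ω)
    (hA0 : A 0 = X 0) (hreg : ∀ f, X 0 * f ∈ detI A → f ∈ detI A)
    (z : Fin 4 → Ω) (z0 : z 0 = 0) (z1 : eval z (A 1) = 0) (z2 : eval z (A 2) = 0)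
    (z3 : eval z (A 3) ≠ 0) (y : Fin (n + 1) → MvPolynomial (Fin 4) Ω) (x : Fin (n + 1) → Ω)
    (d : ℕ) (G : MvPolynomial (Fin (n + 1)) k) (hGd : G.IsHomogeneous d)
    (hG : aeval (fun j => A 0 * y j - A 1 * C (x j)) G ∈ detI A) : aeval x G = 0 := by
  set v : Fin (n + 1) → MvPolynomial (Fin 4) Ω := fun j => A 0 * y j - A 1 * C (x j) with hv
  set w : Fin (n + 1) → MvPolynomial (Fin 4) Ω := fun j => A 2 * y j - A 3 * C (x j) with hw
  have hm2 : mn2 A ∈ detI A := Ideal.subset_span (by simp)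
  let q : MvPolynomial (Fin 4) Ω →ₐ[k] (MvPolynomial (Fin 4) Ω ⧸ detI A) :=
    Ideal.Quotient.mkₐ k (detI A)
  have hq : ∀ f, q f = 0 ↔ f ∈ detI A := fun f => Ideal.Quotient.eq_zero_iff_mem
  have h1 : ∀ j, q (A 2) * q (v j) = q (A 0) * q (w j) := by
    intro j
    rw [← map_mul, ← map_mul, ← sub_eq_zero, ← map_sub, hq]
    have : A 2 * v j - A 0 * w j = C (x j) * mn2 A := by
      simp only [hv, hw, mn2]; ring
    rw [this]
    exact (detI A).mul_mem_left _ hm2
  have h2 : q (A 2) ^ d * q (aeval v G) = q (A 0) ^ d * q (aeval w G) := by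
    rw [comp_aeval_apply, comp_aeval_apply, ← T14_scale hGd, ← T14_scale hGd]
    congr 2
    funext j
    exact h1 j
  rw [(hq _).2 hG, mul_zero, ← map_pow, ← map_mul, hA0] at h2
  have h3 : aeval w G ∈ detI A := T14_pow A hreg d _ ((hq _).1 h2.symm)
  have h4 := T14_vanish A z (by rw [hA0, eval_X, z0]) z1 z2 h3
  have h5 : eval z (aeval w G) = aeval (fun j => (-eval z (A 3)) * x j) G := by
    have h6 := comp_aeval_apply w ((aeval z : MvPolynomial (Fin 4) Ω →ₐ[Ω] Ω).restrictScalars k) G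
    have h7 : ∀ j, ((aeval z : MvPolynomial (Fin 4) Ω →ₐ[Ω] Ω).restrictScalars k) (w j) =
        (-eval z (A 3)) * x j := by
      intro j
      show eval z (w j) = _
      simp only [hw]
      rw [map_sub, map_mul, map_mul, z2, eval_C]
      ring
    rw [funext h7] at h6
    exact h6
  rw [h5, T14_scale hGd] at h4
  rcases mul_eq_zero.1 h4 with h | h
  · exact absurd h (pow_ne_zero _ (neg_ne_zero.2 z3))
  · exact h

theorem gen_of_frame (hφ : IsSymm4 φ) (hs : Smooth4 φ) (hn : 4 ≤ n) {K L : Type} [Field K]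
    [Algebra k K] [Field L] [Algebra k L] [Algebra K L] [IsScalarTower k K L]
    (x : Fin (n + 1) → K) (hx : IsGenPt φ x) (h : Option (Fin (n - 4)) × Fin (n + 1) → L)
    (hh : AlgebraicIndependent K h) (x' : Fin (n + 1) → L)
    (hx' : ∀ i, x' i = algebraMap K L (x i)) (u : Fin 4 → Fin (n + 1) → L)
    (hu : IsFrame φ x' h u) (d : ℕ) (G : MvPolynomial (Fin (n + 1)) k) (hGd : G.IsHomogeneous d)
    (hG : dh (aeval (vec01 φ x' u) G) ∈ affI (cfP φ x' u)) : aeval x' G = 0 := by
  let Ω : Type := AlgebraicClosure L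
  let f : L →ₐ[k] Ω := IsScalarTower.toAlgHom k L Ω
  have hf : ∀ a, f a = algebraMap L Ω a := fun a => rfl
  have hu' := hu.map f
  have tow : IsScalarTower k K Ω := IsScalarTower.of_algebraMap_eq fun a => by
    rw [IsScalarTower.algebraMap_apply k L Ω, IsScalarTower.algebraMap_apply k K L,
      ← IsScalarTower.algebraMap_apply K L Ω]
  have hh' : AlgebraicIndependent K (fun i => f (h i)) :=
    hh.map' (f := IsScalarTower.toAlgHom K L Ω) (algebraMap L Ω).injective
  obtain ⟨-, reg1, z, z0, z1, z2, z3⟩ := frame_prime hφ hs hn x hx (fun i => f (h i)) hh'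
    (fun j => f (x' j)) (fun i => by
      rw [hf, hx', ← IsScalarTower.algebraMap_apply K L Ω]) (fun a j => f (u a j)) hu'
  have hA0 := cfP_zero (φ := φ) _ _ hu'.h0
  have h1 : dh (aeval (vec01 φ (fun j => f (x' j)) (fun a j => f (u a j))) G) ∈
      affI (cfP φ (fun j => f (x' j)) (fun a j => f (u a j))) := by
    have := Ideal.mem_map_of_mem (MvPolynomial.map (σ := Fin 3) (f : L →+* Ω)) hG
    rwa [affI_map, T14_dh, T14_vec] at this
  have h2 : aeval (vec01 φ (fun j => f (x' j)) (fun a j => f (u a j))) G ∈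
      detI (cfP φ (fun j => f (x' j)) (fun a j => f (u a j))) :=
    mem_of_dh _ (cfP_hom _ _) reg1 _ (2 * d) (hGd.aeval _ (T14_vec_hom _ _)) h1
  have h3 : aeval (fun j => f (x' j)) G = 0 :=
    T14_core _ hA0 reg1 z z0 z1 z2 z3 _ _ d G hGd h2
  have h4 := comp_aeval_apply x' f G
  rw [h3] at h4
  rw [hf] at h4
  exact (map_eq_zero_iff _ (algebraMap L Ω).injective).1 h4

end Pool.Agent.LibHP
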