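import Pool.Agent.LibHPF.Q19
import Pool.Agent.LibHPF.Q24b
import Pool.Agent.LibHPF.T11
import Pool.Agent.LibHPF.T14

set_option autoImplicit false
open MvPolynomial

namespace Pool.Agent.LibHP

variable {k : Type} [Field k] [CharZero k] {n : ℕ} {φ : Tens k n}

/-!
# Row T15: a pair of generic points, the second one closed

There is a field `E` with two embeddings `i1, i2` of `K = k(P)` such that, with `P1 = i1 ∘ P`, `x = i2 ∘ P`, the line
through `P1` and `x` meets the hypersurface at `P1` with multiplicity three, and `i2 K` is algebraically closed in `E`.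

PLAN. Let `ι = Option (Fin (n - 4)) × Fin (n + 1)`, `r = Fintype.card ι`, `L = RF K r` (`FractionRing (MvPolynomial
(Fin r) K)`), `h i = algebraMap _ L (X (e i))` with `e : ι ≃ Fin r` (`Fintype.equivFin`): algebraically independent over
`K`. `x' = algebraMap K L ∘ P`. `exists_lframe` (row T3) gives `u`. `A = cfP φ x' u`, `A 0 = X 0` (`cfP_zero`). `𝔞 = affI A`.
Over `Ω = AlgebraicClosure L`: `affI_map` for `f = algebraMap L Ω` as a `k`-algebra map, `IsFrame.map`, `hh.map'`,
`frame_prime`: `𝔞.map (map (algebraMap L Ω))` is prime. `exists_field_of_geomPrime` (row T11) gives `E, Y : Fin 3 → E`.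
`Algebra k E := ((algebraMap L E).comp (algebraMap k L)).toAlgebra` with `IsScalarTower k L E`.
`i2 : K →ₐ[k] E` is `K → L → E`; put `xE = i2 ∘ P`. Closedness: `closed_trans` (row Q24b) with `K → L` closed
(`algClosed_RF`) and `L → E` closed (T11; `IsAlgebraic` = the existence of `Q`).
Let `z = Fin.cons 1 Y : Fin 4 → E`, `uE` the image of `u`, `y = frm uE z`, `a_j = aeval z (A j) = cf φ xE y j`
(`cfP_aeval`), `a_0 = 1`. For every `G : MvPolynomial (Fin 4) L`: `aeval z G = aeval Y (dh G)` (`comp_aeval`), so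
`aeval z (mn3 A) = 0 = aeval z (mn2 A)` (`dh (mn3 A), dh (mn2 A) ∈ 𝔞`), i.e. `a_2 = a_1 ^ 2`, `a_3 = a_1 a_2`. Put `s = - a_1`,
`P0 = y + s • xE`. `cf_line` (row T12): `Phi φ P0 P0 P0 P0 = 0`, `Phi φ P0 P0 P0 xE = 0`, `Phi φ P0 P0 xE xE = 0`,
`12 * Phi φ P0 xE xE xE = 1`. Moreover `P0 j = aeval z (vec01 φ x' u j)`.
For a form `G` of degree `d` over `k`: `aeval P G = 0 ↔ aeval P0 G = 0`. `→`: `FF φ ∣ G` and
`aeval P0 (FF φ) = Phi φ P0 P0 P0 P0 = 0`. `←`: `aeval P0 G = aeval z (aeval vec01 G) = aeval Y (dh (aeval vec01 G))`, so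
`dh (aeval vec01 G) ∈ 𝔞`, so `aeval x' G = 0` by `gen_of_frame` and `aeval P G = 0` (`algebraMap K L` injective).
`P0 0 ≠ 0` (take `G = X 0`: `P 0 = 1 ≠ 0`). `exists_hom_of_gen` (row Q19, `x := P`, `i0 := 0`, `y := P0`) gives
`i1 : K →ₐ[k] E` with `i1 (P j) = P0 j / P0 0`. The equations are homogeneous in the first group of slots.
-/

/-- The construction over a field `L` with an independent family. -/
private theorem T15_core (hφ : IsSymm4 φ) (hs : Smooth4 φ) (hn : 4 ≤ n) {K : Type} [Field K]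
    [Algebra k K] (P : Fin (n + 1) → K) (hP : IsGenPt φ P) (hgenP : GenBy k P)
    (L : Type) [Field L] [Algebra k L] [Algebra K L] [IsScalarTower k K L]
    (h : Option (Fin (n - 4)) × Fin (n + 1) → L) (hh : AlgebraicIndependent K h)
    (hKL : ∀ u : L, IsAlgebraic K u → ∃ a : K, algebraMap K L a = u) :
    ∃ (E : Type) (_ : Field E) (_ : Algebra k E) (i1 i2 : K →ₐ[k] E),
      (∀ u : E, (∃ Q : Polynomial K, Q ≠ 0 ∧ Q.eval₂ (i2 : K →+* E) u = 0) → ∃ a, i2 a = u) ∧
      Phi φ (fun j => i1 (P j)) (fun j => i1 (P j)) (fun j => i1 (P j)) (fun j => i2 (P j)) = 0 ∧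
      Phi φ (fun j => i1 (P j)) (fun j => i1 (P j)) (fun j => i2 (P j)) (fun j => i2 (P j)) = 0 ∧
      Phi φ (fun j => i1 (P j)) (fun j => i2 (P j)) (fun j => i2 (P j)) (fun j => i2 (P j)) ≠ 0 := by
  classical
  obtain ⟨x', hx'⟩ : ∃ x' : Fin (n + 1) → L, ∀ i, x' i = algebraMap K L (P i) :=
    ⟨fun i => algebraMap K L (P i), fun _ => rfl⟩
  obtain ⟨u, hu⟩ := exists_lframe hφ hs hn P hP h hh x' hx'
  have h𝔞 : ((affI (cfP φ x' u)).map (MvPolynomial.map (σ := Fin 3)
      (algebraMap L (AlgebraicClosure L)))).IsPrime := by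
    let f : L →ₐ[k] AlgebraicClosure L := IsScalarTower.toAlgHom k L (AlgebraicClosure L)
    have hf : (f : L →+* AlgebraicClosure L) = algebraMap L (AlgebraicClosure L) := rfl
    have h1 := affI_map (φ := φ) f x' u
    rw [hf] at h1
    rw [h1]
    exact (frame_prime hφ hs hn P hP (fun i => f (h i))
      (hh.map' (f := IsScalarTower.toAlgHom K L (AlgebraicClosure L))
        (algebraMap L (AlgebraicClosure L)).injective) (fun j => f (x' j))
      (fun i => by
        rw [hx' i]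
        exact (IsScalarTower.algebraMap_apply K L (AlgebraicClosure L) _).symm)
      (fun a j => f (u a j)) (hu.map f)).1
  obtain ⟨E, iE, iLE, Y, hY, _, hclosed⟩ := exists_field_of_geomPrime L (Fin 3) _ h𝔞
  letI ikE : Algebra k E := ((algebraMap L E).comp (algebraMap k L)).toAlgebra
  haveI tkLE : IsScalarTower k L E := IsScalarTower.of_algebraMap_eq fun _ => rfl
  haveI : CharZero E := charZero_of_injective_algebraMap (algebraMap k E).injective
  let i2 : K →ₐ[k] E := (IsScalarTower.toAlgHom k L E).comp (IsScalarTower.toAlgHom k K L)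
  have hi2 : ∀ a, i2 a = algebraMap L E (algebraMap K L a) := fun _ => rfl
  have hxE : ∀ j, i2 (P j) = algebraMap L E (x' j) := fun j => by rw [hi2, hx']
  obtain ⟨z, hz⟩ : ∃ z : Fin 4 → E, z = Fin.cons 1 Y := ⟨_, rfl⟩
  have hcomp : ∀ G : MvPolynomial (Fin 4) L, aeval z G = aeval Y (dh G) := by
    intro G
    have h1 : (aeval Y).comp (dh (Ω := L)) = aeval z := by
      refine MvPolynomial.algHom_ext fun a => ?_
      rw [AlgHom.comp_apply, dh, aeval_X, aeval_X, hz]
      refine Fin.cases ?_ (fun b => ?_) a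
      · rw [Fin.cons_zero, Fin.cons_zero, map_one]
      · rw [Fin.cons_succ, Fin.cons_succ, aeval_X]
    rw [← h1, AlgHom.comp_apply]
  obtain ⟨y, hy⟩ : ∃ y : Fin (n + 1) → E, y = frm (fun a j => algebraMap L E (u a j)) z :=
    ⟨_, rfl⟩
  obtain ⟨xE, hxE'⟩ : ∃ xE : Fin (n + 1) → E, xE = fun j => i2 (P j) := ⟨_, rfl⟩
  have hxx : (fun j => algebraMap L E (x' j)) = xE := by
    rw [hxE']
    exact funext fun j => (hxE j).symm
  have hcf : ∀ a, aeval z (cfP φ x' u a) = cf φ xE y a := by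
    intro a
    rw [cfP_aeval, hxx, hy]
  have ha0 : cf φ xE y 0 = 1 := by
    rw [← hcf, cfP_zero x' u hu.h0, aeval_X, hz, Fin.cons_zero]
  have hm3 : aeval z (mn3 (cfP φ x' u)) = 0 := by
    rw [hcomp, hY]
    exact Ideal.subset_span (by simp)
  have hm2 : aeval z (mn2 (cfP φ x' u)) = 0 := by
    rw [hcomp, hY]
    exact Ideal.subset_span (by simp)
  obtain ⟨a1, ha1⟩ : ∃ a1, a1 = cf φ xE y 1 := ⟨_, rfl⟩
  have ha2 : cf φ xE y 2 = a1 ^ 2 := by
    simp only [mn3, map_sub, map_mul, map_pow, hcf] at hm3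
    rw [ha0, ← ha1] at hm3
    linear_combination hm3
  have ha3 : cf φ xE y 3 = a1 ^ 3 := by
    simp only [mn2, map_sub, map_mul, hcf] at hm2
    rw [ha0, ← ha1, ha2] at hm2
    linear_combination hm2
  have hFP : aeval P (FF φ) = 0 := (hP.2 4 (FF φ) (isHomogeneous_FF φ)).2 dvd_rfl
  have hxE0 : Phi φ xE xE xE xE = 0 := by
    rw [aeval_FF] at hFP
    rw [hxE', ← Phi_map φ i2 P P P P, hFP, map_zero]
  obtain ⟨P0, hP0⟩ : ∃ P0 : Fin (n + 1) → E, P0 = y + (-a1) • xE := ⟨_, rfl⟩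
  obtain ⟨l1, l2, l3, l4⟩ := cf_line hφ xE y hxE0 (-a1)
  rw [← hP0] at l1 l2 l3 l4
  rw [ha0, ha2, ha3, ← ha1] at l1
  rw [ha0, ha2, ← ha1] at l2
  rw [ha0, ← ha1] at l3
  rw [ha0] at l4
  have q1 : Phi φ P0 P0 P0 P0 = 0 := by
    have : (3 : E) * Phi φ P0 P0 P0 P0 = 0 := by
      rw [l1]
      ring
    exact (mul_eq_zero.1 this).resolve_left (by norm_num)
  have q2 : Phi φ P0 P0 P0 xE = 0 := by
    have : (12 : E) * Phi φ P0 P0 P0 xE = 0 := by
      rw [l2]
      ring
    exact (mul_eq_zero.1 this).resolve_left (by norm_num)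
  have q3 : Phi φ P0 P0 xE xE = 0 := by
    have : (12 : E) * Phi φ P0 P0 xE xE = 0 := by
      rw [l3]
      ring
    exact (mul_eq_zero.1 this).resolve_left (by norm_num)
  have q4 : Phi φ P0 xE xE xE ≠ 0 := by
    intro h0
    rw [h0, mul_zero] at l4
    exact zero_ne_one l4
  have hvec : ∀ j, aeval z (vec01 φ x' u j) = P0 j := by
    intro j
    have h1 : aeval z (frm (fun a j => C (u a j)) X j : MvPolynomial (Fin 4) L) = y j := by
      rw [hy]
      simp only [frm, map_sum, map_mul, aeval_X, aeval_C]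
    have h2 : algebraMap L E (x' j) = xE j := congrFun hxx j
    rw [vec01, map_sub, map_mul, map_mul, hcf, hcf, ha0, ← ha1, h1, aeval_C, h2, hP0,
      Pi.add_apply, Pi.smul_apply, smul_eq_mul]
    ring
  have hiff : ∀ (d : ℕ) (G : MvPolynomial (Fin (n + 1)) k), G.IsHomogeneous d →
      (aeval P G = 0 ↔ aeval P0 G = 0) := by
    intro d G hG
    constructor
    · intro h0
      obtain ⟨Q, rfl⟩ := (hP.2 d G hG).1 h0
      rw [map_mul, aeval_FF, q1, zero_mul]
    · intro h0
      have h1 : aeval z (aeval (vec01 φ x' u) G) = aeval P0 G := by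
        have h2 := MvPolynomial.comp_aeval (R := k) (vec01 φ x' u)
          ((aeval z : MvPolynomial (Fin 4) L →ₐ[L] E).restrictScalars k)
        have h3 := AlgHom.congr_fun h2 G
        rw [AlgHom.comp_apply] at h3
        have h4 : (fun i => ((aeval z : MvPolynomial (Fin 4) L →ₐ[L] E).restrictScalars k)
            (vec01 φ x' u i)) = P0 := funext hvec
        rw [h4] at h3
        exact h3
      rw [h0, hcomp, hY] at h1
      have h5 := gen_of_frame hφ hs hn P hP h hh x' hx' u hu d G hG h1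
      have h6 : x' = fun i => algebraMap K L (P i) := funext hx'
      rw [h6] at h5
      have h7 : algebraMap K L (aeval P G) = 0 := by
        rw [← MvPolynomial.aeval_algebraMap_apply]
        exact h5
      exact (map_eq_zero_iff _ (algebraMap K L).injective).1 h7
  have hP00 : P0 0 ≠ 0 := by
    intro h0
    have h1 := (hiff 1 (X 0) (isHomogeneous_X k 0)).2 (by rw [aeval_X, h0])
    rw [aeval_X, hP.1] at h1
    exact one_ne_zero h1
  obtain ⟨i1, hi1⟩ := exists_hom_of_gen k (Fin (n + 1)) K E P 0 hP.1 hgenP P0 hP00 hiff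
  have hi1' : (fun j => i1 (P j)) = (P0 0)⁻¹ • P0 := by
    funext j
    rw [hi1, Pi.smul_apply, smul_eq_mul, div_eq_inv_mul]
  refine ⟨E, iE, ikE, i1, i2, ?_, ?_, ?_, ?_⟩
  · have h1 : ((i2 : K →ₐ[k] E) : K →+* E) = (algebraMap L E).comp (algebraMap K L) := rfl
    rw [h1]
    intro v hv
    obtain ⟨a, ha⟩ := closed_trans (algebraMap K L) (algebraMap L E)
      (fun w ⟨Q, hQ, hQw⟩ => by
        exact hKL w ⟨Q, hQ, hQw⟩)
      (fun w ⟨Q, hQ, hQw⟩ => hclosed w ⟨Q, hQ, hQw⟩) v hv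
    exact ⟨a, ha⟩
  · rw [hi1', ← hxE', Phi_smul1, Phi_smul2, Phi_smul3, q2, mul_zero, mul_zero, mul_zero]
  · rw [hi1', ← hxE', Phi_smul1, Phi_smul2, q3, mul_zero, mul_zero]
  · rw [hi1', ← hxE', Phi_smul1]
    exact mul_ne_zero (inv_ne_zero hP00) q4

theorem exists_gen_anchor (hφ : IsSymm4 φ) (hs : Smooth4 φ) (hn : 4 ≤ n) {K : Type} [Field K]
    [Algebra k K] (P : Fin (n + 1) → K) (hP : IsGenPt φ P) (hgenP : GenBy k P) :
    ∃ (E : Type) (_ : Field E) (_ : Algebra k E) (i1 i2 : K →ₐ[k] E),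
      (∀ u : E, (∃ Q : Polynomial K, Q ≠ 0 ∧ Q.eval₂ (i2 : K →+* E) u = 0) → ∃ a, i2 a = u) ∧
      Phi φ (fun j => i1 (P j)) (fun j => i1 (P j)) (fun j => i1 (P j)) (fun j => i2 (P j)) = 0 ∧
      Phi φ (fun j => i1 (P j)) (fun j => i1 (P j)) (fun j => i2 (P j)) (fun j => i2 (P j)) = 0 ∧
      Phi φ (fun j => i1 (P j)) (fun j => i2 (P j)) (fun j => i2 (P j)) (fun j => i2 (P j)) ≠ 0 := by
  have hinjKL : Function.Injective (IsScalarTower.toAlgHom K
      (MvPolynomial (Fin (Fintype.card (Option (Fin (n - 4)) × Fin (n + 1)))) K)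
      (RF K (Fintype.card (Option (Fin (n - 4)) × Fin (n + 1))))) :=
    IsFractionRing.injective _ _
  exact T15_core hφ hs hn P hP hgenP (RF K (Fintype.card (Option (Fin (n - 4)) × Fin (n + 1))))
    _ (((MvPolynomial.algebraicIndependent_X _ K).comp _
      (Fintype.equivFin (Option (Fin (n - 4)) × Fin (n + 1))).injective).map' hinjKL)
    (fun u hu => by
      obtain ⟨a, ha⟩ := algClosed_RF K _ u hu
      exact ⟨a, ha.symm⟩)

end Pool.Agent.LibHP
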