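import Pool.Agent.LibHPF.Q16
import Pool.Agent.LibHPF.Q18
import Pool.Agent.LibHPF.Q24
import Pool.Agent.LibHPF.T15

set_option autoImplicit false
open MvPolynomial

namespace Pool.Agent.LibHP

variable {k : Type} [Field k] [CharZero k] {n : ℕ} {φ : Tens k n}

/-!
# Row T16: the family of moves is closed (through a generic anchor), for all `n ≥ 4`

Take `E, i1, i2` from `exists_gen_anchor`. `κ` = function field of the quadric cone `quadW φ P1 e1` over `E`
(`P1 = i1 ∘ P`, `e1 = i1 ∘ e`), `j : M → κ` over `i1`, `W ↦ W'`. The arc `z = x + t^2 η`, `x = i2 ∘ P`: at `t = 0` the moved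
point is proportional to `x` (`jets_move` with `β = 0`), so `σ` specialises to `i2`.
-/

theorem T16_hom (K σ M M' : Type) [Field K] [Field M] [Algebra K M] [Field M'] (W : σ → M)
    (hgen : GenBy K W) (τ : K →+* M') (W' : σ → M')
    (hker : ∀ G : MvPolynomial σ K, aeval W G = 0 ↔ eval₂ τ W' G = 0) :
    ∃ j : M →+* M', (∀ c, j (algebraMap K M c) = τ c) ∧ ∀ i, j (W i) = W' i := by
  set f : MvPolynomial σ K →+* M := (aeval W : MvPolynomial σ K →ₐ[K] M).toRingHom with hf
  set f' : MvPolynomial σ K →+* M' := eval₂Hom τ W' with hf'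
  have hker' : ∀ G : MvPolynomial σ K, f G = 0 ↔ f' G = 0 := hker
  have hinj := RingHom.kerLift_injective f
  let _ : Algebra (MvPolynomial σ K ⧸ RingHom.ker f) M := (RingHom.kerLift f).toAlgebra
  have halg : ∀ G : MvPolynomial σ K,
      algebraMap (MvPolynomial σ K ⧸ RingHom.ker f) M (Ideal.Quotient.mk _ G) = aeval W G :=
    fun G => RingHom.kerLift_mk f G
  have : FaithfulSMul (MvPolynomial σ K ⧸ RingHom.ker f) M :=
    (faithfulSMul_iff_algebraMap_injective _ _).2 hinj
  have : IsFractionRing (MvPolynomial σ K ⧸ RingHom.ker f) M := by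
    refine IsFractionRing.of_field _ _ fun z => ?_
    obtain ⟨G, H, hH, hz⟩ := hgen z
    refine ⟨Ideal.Quotient.mk _ G, Ideal.Quotient.mk _ H, ?_⟩
    rw [halg, halg, eq_div_iff hH, hz]
  set g' : (MvPolynomial σ K ⧸ RingHom.ker f) →+* M' :=
    Ideal.Quotient.lift (RingHom.ker f) f' (fun a ha => (hker' a).1 ha) with hg'
  have hg'inj : Function.Injective g' := by
    rw [injective_iff_map_eq_zero]
    intro a ha
    obtain ⟨G, rfl⟩ := Ideal.Quotient.mk_surjective a
    rw [hg', Ideal.Quotient.lift_mk] at ha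
    rw [Ideal.Quotient.eq_zero_iff_mem]
    exact (hker' G).2 ha
  set ψ0 : M →+* M' := IsFractionRing.lift hg'inj with hψ0
  have hψ : ∀ G : MvPolynomial σ K, ψ0 (aeval W G) = eval₂ τ W' G := by
    intro G
    rw [← halg, hψ0, IsFractionRing.lift_algebraMap, hg', Ideal.Quotient.lift_mk]
    rfl
  refine ⟨ψ0, fun c => ?_, fun i => ?_⟩
  · have h1 := hψ (C c)
    rwa [aeval_C, eval₂_C] at h1
  · have h1 := hψ (X i)
    rwa [aeval_X, eval₂_X] at h1

theorem exists_sigma_gen (hφ : IsSymm4 φ) (hs : Smooth4 φ) (hn : 4 ≤ n) {K M : Type} [Field K]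
    [Algebra k K] [Field M] [Algebra K M] [Algebra k M] [IsScalarTower k K M]
    (P e : Fin (n + 1) → K) (hP : IsGenPt φ P) (hgenP : GenBy k P) (he : Phi φ P P P e ≠ 0)
    (W PM eM : Fin (n + 1) → M) (hPM : ∀ i, PM i = algebraMap K M (P i))
    (heM : ∀ i, eM i = algebraMap K M (e i))
    (hW : ∀ G : MvPolynomial (Fin (n + 1)) K, aeval W G = 0 ↔ quadW φ P e ∣ G)
    (hgenW : GenBy K W) (hq : qW φ PM eM W = 0) :
    ∃ σ : K →+* RF M (n + 1),
      (∀ c : k, σ (algebraMap k K c) = algebraMap k (RF M (n + 1)) c) ∧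
      (∀ i, σ (P i) * mvRF φ PM eM W 0 = mvRF φ PM eM W i) ∧
      mvRF φ PM eM W 0 ≠ 0 ∧ ClosedIn σ := by
  obtain ⟨E, _, _, i1, i2, hcl2, h1, h2, h3⟩ := exists_gen_anchor hφ hs hn P hP hgenP
  have hP1 : IsGenPt φ (fun l => i1 (P l)) := hP.map i1
  have he1 : Phi φ (fun l => i1 (P l)) (fun l => i1 (P l)) (fun l => i1 (P l))
      (fun l => i1 (e l)) ≠ 0 := by
    rw [← Phi_map φ i1]
    exact fun h => he ((map_eq_zero_iff _ i1.injective).1 h)
  have hprime : Prime (quadW φ (fun l => i1 (P l)) (fun l => i1 (e l))) :=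
    prime_quadW hφ hs hn _ _ hP1 he1
  obtain ⟨κ, _, _, W', hW', hgenW'⟩ := exists_generic_field E (Fin (n + 1)) _ hprime
  let _ : Algebra k κ := ((algebraMap E κ).comp (algebraMap k E)).toAlgebra
  have hst : IsScalarTower k E κ := IsScalarTower.of_algebraMap_eq fun _ => rfl
  have hEκ : ∀ u : κ, (∃ Q : Polynomial E, Q ≠ 0 ∧ Q.eval₂ (algebraMap E κ) u = 0) →
      ∃ a, algebraMap E κ a = u := by
    rintro u ⟨Q, hQ, hQu⟩
    refine algClosed_of_geomPrime E (Fin (n + 1)) κ
      (quadW φ (fun l => i1 (P l)) (fun l => i1 (e l))) ?_ W' hW' hgenW' u ⟨Q, hQ, hQu⟩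
    have h1 := map_quadW φ (IsScalarTower.toAlgHom k E (AlgebraicClosure E))
      (fun l => i1 (P l)) (fun l => i1 (e l))
    have h2 : Prime (quadW φ
        (fun i => (IsScalarTower.toAlgHom k E (AlgebraicClosure E)) (i1 (P i)))
        (fun i => (IsScalarTower.toAlgHom k E (AlgebraicClosure E)) (i1 (e i)))) := by
      refine prime_quadW hφ hs hn _ _ (hP1.map _) ?_
      rw [← Phi_map φ (IsScalarTower.toAlgHom k E (AlgebraicClosure E))
        (fun l => i1 (P l)) (fun l => i1 (P l)) (fun l => i1 (P l)) (fun l => i1 (e l))]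
      exact fun h => he1 ((map_eq_zero_iff _
        (IsScalarTower.toAlgHom k E (AlgebraicClosure E)).injective).1 h)
    rw [← h1] at h2
    exact h2
  -- the map `j`
  obtain ⟨j0, hj0c, hj0W⟩ := T16_hom K (Fin (n + 1)) M κ W hgenW
    ((algebraMap E κ).comp (i1 : K →+* E)) W' (by
      intro G
      have e1 : eval₂ ((algebraMap E κ).comp (i1 : K →+* E)) W' G =
          aeval W' (MvPolynomial.map (i1 : K →+* E) G) := by
        rw [aeval_def, eval₂_map]
      rw [hW, e1, hW', ← map_quadW φ i1 P e]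
      exact ⟨fun h => map_dvd (MvPolynomial.map (i1 : K →+* E)) h,
        fun h => dvd_of_map_dvd (i1 : K →+* E) _ G h⟩)
  let j : M →ₐ[k] κ :=
    { j0 with
      commutes' := fun c => by
        show j0 (algebraMap k M c) = _
        rw [IsScalarTower.algebraMap_apply k K M, hj0c]
        show algebraMap E κ (i1 (algebraMap k K c)) = _
        rw [i1.commutes]
        rfl }
  have hj : ∀ u, j u = j0 u := fun _ => rfl
  have hjPM : ∀ i, j (PM i) = algebraMap E κ (i1 (P i)) := by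
    intro i
    rw [hPM, hj, hj0c]
    rfl
  have hjeM : ∀ i, j (eM i) = algebraMap E κ (i1 (e i)) := by
    intro i
    rw [heM, hj, hj0c]
    rfl
  have hjW : ∀ i, j (W i) = W' i := by
    intro i
    rw [hj, hj0W]
  -- vectors in `κ`
  let ιE : E →ₐ[k] κ := IsScalarTower.toAlgHom k E κ
  have hιE : ∀ x, ιE x = algebraMap E κ x := fun _ => rfl
  let ιΩ : κ →+* RF κ (n + 1) := algebraMap κ (RF κ (n + 1))
  let ιk : κ →ₐ[k] RF κ (n + 1) := IsScalarTower.toAlgHom k κ (RF κ (n + 1))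
  have hιk : ∀ x, ιk x = ιΩ x := fun _ => rfl
  let cM : M →+* RF κ (n + 1) := ιΩ.comp (j : M →+* κ)
  let cE : E →ₐ[k] RF κ (n + 1) := ιk.comp ιE
  have hcE : ∀ x, cE x = ιΩ (algebraMap E κ x) := fun _ => rfl
  -- the datum in `RF κ`
  have g1 : Phi φ (fun l => cE (i1 (P l))) (fun l => cE (i1 (P l))) (fun l => cE (i1 (P l)))
      (fun l => cE (i2 (P l))) = 0 := by
    rw [← Phi_map φ cE, h1, map_zero]
  have g2 : Phi φ (fun l => cE (i1 (P l))) (fun l => cE (i1 (P l))) (fun l => cE (i2 (P l)))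
      (fun l => cE (i2 (P l))) = 0 := by
    rw [← Phi_map φ cE, h2, map_zero]
  have g3 : Phi φ (fun l => cE (i1 (P l))) (fun l => cE (i2 (P l))) (fun l => cE (i2 (P l)))
      (fun l => cE (i2 (P l))) ≠ 0 := by
    rw [← Phi_map φ cE]
    exact fun h => h3 ((map_eq_zero_iff _ cE.injective).1 h)
  have hx4 : Phi φ (fun l => cE (i2 (P l))) (fun l => cE (i2 (P l))) (fun l => cE (i2 (P l)))
      (fun l => cE (i2 (P l))) = 0 := ((hP.map i2).map cE).self
  have ge : Phi φ (fun l => cE (i1 (P l))) (fun l => cE (i1 (P l))) (fun l => cE (i1 (P l)))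
      (fun l => cE (i1 (e l))) ≠ 0 := by
    rw [← Phi_map φ cE]
    exact fun h => he1 ((map_eq_zero_iff _ cE.injective).1 h)
  have gW : Phi φ (fun l => cE (i1 (P l))) (fun l => cE (i1 (P l)))
      (prj φ (fun l => cE (i1 (P l))) (fun l => cE (i1 (e l))) (fun l => ιΩ (W' l)))
      (fun l => cE (i2 (P l))) ≠ 0 := by
    have hx : ∀ c : E, (fun l => i2 (P l)) ≠ c • fun l => i1 (P l) := by
      intro c hc
      apply h3
      rw [hc, Phi_smul2, Phi_smul3, Phi_smul4, hP1.self]
      ring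
    have hnd := quadW_not_dvd hφ hs hn (fun l => i1 (P l)) (fun l => i1 (e l))
      (fun l => i2 (P l)) hP1 he1 h1 hx
    rw [← hW'] at hnd
    let aW : MvPolynomial (Fin (n + 1)) E →ₐ[k] κ := (aeval W').restrictScalars k
    have haW : ∀ G, aW G = aeval W' G := fun _ => rfl
    have e1 : aeval W' (Phi φ (fun i => C (i1 (P i))) (fun i => C (i1 (P i)))
        (prj φ (fun i => C (i1 (P i))) (fun i => C (i1 (e i))) X) (fun i => C (i2 (P i)))) =
        Phi φ (fun l => ιE (i1 (P l))) (fun l => ιE (i1 (P l)))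
          (prj φ (fun l => ιE (i1 (P l))) (fun l => ιE (i1 (e l))) W')
          (fun l => ιE (i2 (P l))) := by
      rw [← haW, Phi_map φ aW]
      have e2 : (fun l => aW (prj φ (fun i => C (i1 (P i))) (fun i => C (i1 (e i))) X l)) =
          prj φ (fun l => ιE (i1 (P l))) (fun l => ιE (i1 (e l))) W' := by
        funext l
        rw [prj_map φ aW]
        simp only [haW, aeval_C, aeval_X]
        rfl
      rw [e2]
      simp only [haW, aeval_C]
      rfl
    rw [e1] at hnd
    have e3 : Phi φ (fun l => cE (i1 (P l))) (fun l => cE (i1 (P l)))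
      (prj φ (fun l => cE (i1 (P l))) (fun l => cE (i1 (e l))) (fun l => ιΩ (W' l)))
      (fun l => cE (i2 (P l))) = ιk (Phi φ (fun l => ιE (i1 (P l))) (fun l => ιE (i1 (P l)))
          (prj φ (fun l => ιE (i1 (P l))) (fun l => ιE (i1 (e l))) W')
          (fun l => ιE (i2 (P l)))) := by
      rw [Phi_map φ ιk]
      have e2 : (fun l => ιk (prj φ (fun l => ιE (i1 (P l))) (fun l => ιE (i1 (e l))) W' l)) =
          prj φ (fun l => cE (i1 (P l))) (fun l => cE (i1 (e l))) (fun l => ιΩ (W' l)) := by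
        funext l
        rw [prj_map φ ιk]
        rfl
      rw [e2]
      rfl
    rw [e3]
    exact fun h => hnd ((map_eq_zero_iff _ ιk.injective).1 h)
  obtain ⟨J, hJM, hJX⟩ := exists_arc M κ (j : M →+* κ) (n + 1) (fun l => algebraMap E κ (i2 (P l))) 0
  let Jk : RF M (n + 1) →ₐ[k] RatFunc (RF κ (n + 1)) :=
    { J with
      commutes' := fun c => by
        show J (algebraMap k (RF M (n + 1)) c) = _
        rw [IsScalarTower.algebraMap_apply k M (RF M (n + 1)), hJM, Q24_algMap,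
          IsScalarTower.algebraMap_apply k κ (RF κ (n + 1))]
        congr 2
        exact j.commutes c }
  have hJk : ∀ x, Jk x = J x := fun _ => rfl
  have hchar : CharZero (RF κ (n + 1)) := charZero_of_injective_algebraMap
    (algebraMap k (RF κ (n + 1))).injective
  set Y := mvRF φ PM eM W with hY
  obtain ⟨c0, c1, hc0, hval0⟩ := jets_move hφ (fun l => cE (i1 (P l))) (fun l => cE (i1 (e l)))
    (fun l => ιΩ (W' l)) (fun l => cE (i2 (P l))) 0 ge g1 g2 g3 hx4 (by
      simp only [Phi_zero4]) (by simp only [Phi_zero4]) (by simp only [Phi_zero4]) gW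
    (fun i => J (algebraMap (MvPolynomial (Fin (n + 1)) M) (RF M (n + 1)) (X i)))
    (fun i => by
      have h := hJX i
      rw [Pi.zero_apply, map_zero] at h
      exact h)
  have hval : ∀ i, ∃ b, HasJet (J (Y i)) (c0 * cE (i2 (P i))) b := by
    intro i
    refine ⟨c1 * cE (i2 (P i)) + c0 * (0 : Fin (n + 1) → RF κ (n + 1)) i, ?_⟩
    have e1 : J (Y i) = mvz φ (fun l => RatFunc.C (cE (i1 (P l))))
        (fun l => RatFunc.C (cE (i1 (e l)))) (fun l => RatFunc.C (ιΩ (W' l)))
        (fun i => J (algebraMap (MvPolynomial (Fin (n + 1)) M) (RF M (n + 1)) (X i))) i := by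
      rw [hY, ← hJk, mvRF, mvz_map φ Jk]
      simp only [hJk, hJM]
      have f1 : ∀ l, (j : M →+* κ) (PM l) = algebraMap E κ (i1 (P l)) := hjPM
      have f2 : ∀ l, (j : M →+* κ) (eM l) = algebraMap E κ (i1 (e l)) := hjeM
      have f3 : ∀ l, (j : M →+* κ) (W l) = W' l := hjW
      simp only [f1, f2, f3]
      rfl
    rw [e1]
    exact hval0 i
  have hzero : HasJet (0 : RatFunc (RF κ (n + 1))) 0 0 := by
    have h := HasJet.C (0 : RF κ (n + 1))
    rwa [map_zero] at h
  have hY0 : Y 0 ≠ 0 := by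
    intro h0
    obtain ⟨b, hb⟩ := hval 0
    rw [h0, map_zero, hP.1, map_one, map_one, mul_one] at hb
    exact hc0 (hb.unique hzero).1
  -- the equation
  have hP4 : Phi φ P P P P = 0 := hP.self
  let ιM : M →ₐ[k] RF M (n + 1) := IsScalarTower.toAlgHom k M (RF M (n + 1))
  let ιK : K →ₐ[k] M := IsScalarTower.toAlgHom k K M
  have hPM4 : Phi φ PM PM PM PM = 0 := by
    have e := Phi_map φ ιK P P P P
    rw [hP4, map_zero] at e
    have e1 : (fun i => ιK (P i)) = PM := by
      funext i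
      exact (hPM i).symm
    rw [e1] at e
    exact e.symm
  have hYF : Phi φ Y Y Y Y = 0 := by
    have h0 : Phi φ (fun i => ιM (PM i)) (fun i => ιM (PM i)) (fun i => ιM (PM i))
        (fun i => ιM (PM i)) = 0 := by
      rw [← Phi_map φ ιM, hPM4, map_zero]
    have hw : Phi φ (fun i => ιM (PM i)) (fun i => ιM (PM i))
        (prj φ (fun i => ιM (PM i)) (fun i => ιM (eM i)) (fun i => ιM (W i)))
        (prj φ (fun i => ιM (PM i)) (fun i => ιM (eM i)) (fun i => ιM (W i))) = 0 := by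
      have e := qW_map φ ιM PM eM W
      rw [hq, map_zero] at e
      exact e.symm
    exact Phi_mv hφ _ _ h0
      (Phi_st1 _ _ _ (Phi_prj _ _ _) (Phi_prj _ _ _)) (Phi_st2 hφ _ _ _ hw)
  -- forms
  let cK : K →ₐ[k] RF κ (n + 1) := cE.comp i2
  have hcK : ∀ x, cK x = cE (i2 x) := fun _ => rfl
  have hcM : ∀ G : MvPolynomial (Fin (n + 1)) k,
      aeval (fun i => cE (i2 (P i))) G = cK (aeval P G) := by
    intro G
    exact (MvPolynomial.comp_aeval_apply (φ := cK) P G).symm
  have hforms : ∀ (d : ℕ) (G : MvPolynomial (Fin (n + 1)) k), G.IsHomogeneous d →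
      (aeval P G = 0 ↔ aeval Y G = 0) := by
    intro d G hG
    constructor
    · intro h0
      obtain ⟨H, hH⟩ := (hP.2 d G hG).mp h0
      rw [hH, map_mul, aeval_FF, hYF, zero_mul]
    · intro h0
      obtain ⟨b, hb⟩ := Q24_aeval (fun i => J (Y i)) (fun i => c0 * cE (i2 (P i))) hval G
      have e1 : aeval (fun i => J (Y i)) G = 0 := by
        have e2 := MvPolynomial.comp_aeval_apply (φ := Jk) Y G
        rw [h0, map_zero] at e2
        exact e2.symm
      rw [e1, Q24_scale hG, hcM] at hb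
      have e3 := (hb.unique hzero).1
      have e4 := (mul_eq_zero.mp e3).resolve_left (pow_ne_zero _ hc0)
      exact (map_eq_zero_iff _ cK.injective).1 e4
  obtain ⟨f, hf⟩ := exists_hom_of_gen k (Fin (n + 1)) K (RF M (n + 1)) P 0 hP.1 hgenP Y hY0 hforms
  refine ⟨(f : K →+* RF M (n + 1)), fun c => f.commutes c, ?_, hY0, ?_⟩
  · intro i
    change f (P i) * Y 0 = Y i
    rw [hf, div_mul_cancel₀ _ hY0]
  -- the anchor
  have hval' : ∀ i, ∃ b, HasJet (J (f (P i))) (cE (i2 (P i))) b := by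
    intro i
    obtain ⟨b, hb⟩ := hval i
    obtain ⟨b0, hb0⟩ := hval 0
    rw [hP.1, map_one, map_one, mul_one] at hb0
    have h5 := hb.mul (hb0.inv hc0)
    rw [hf, map_div₀, div_eq_mul_inv]
    have e5 : c0 * cE (i2 (P i)) * c0⁻¹ = cE (i2 (P i)) := by
      field_simp
    rw [e5] at h5
    exact ⟨_, h5⟩
  have hpoly : ∀ G : MvPolynomial (Fin (n + 1)) k,
      ∃ b, HasJet (J (f (aeval P G))) (cK (aeval P G)) b := by
    intro G
    obtain ⟨b, hb⟩ := Q24_aeval (fun i => J (f (P i))) (fun i => cE (i2 (P i))) hval' G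
    rw [hcM] at hb
    refine ⟨b, ?_⟩
    have e1 := MvPolynomial.comp_aeval_apply (φ := Jk.comp f) P G
    have e2 : J (f (aeval P G)) = aeval (fun i => J (f (P i))) G := e1
    rw [e2]
    exact hb
  have hjet : ∀ a, ∃ b, HasJet (J ((f : K →+* RF M (n + 1)) a)) ((cK : K →+* _) a) b := by
    intro a
    obtain ⟨G, H, hH, hGH⟩ := hgenP a
    obtain ⟨b, hb⟩ := hpoly G
    obtain ⟨b', hb'⟩ := hpoly H
    have hH' : cK (aeval P H) ≠ 0 := fun h => hH ((map_eq_zero_iff _ cK.injective).1 h)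
    have h5 := hb.mul (hb'.inv hH')
    have e5 : a = aeval P G * (aeval P H)⁻¹ := by
      rw [← hGH, mul_inv_cancel_right₀ hH]
    have e6 : J ((f : K →+* RF M (n + 1)) a) = J (f (aeval P G)) * (J (f (aeval P H)))⁻¹ := by
      rw [← map_inv₀, ← map_inv₀, ← map_mul, ← map_mul, ← e5]
      rfl
    have e7 : (cK : K →+* _) a = cK (aeval P G) * (cK (aeval P H))⁻¹ := by
      rw [← map_inv₀, ← map_mul, ← e5]
      rfl
    rw [e6, e7]
    exact ⟨_, h5⟩
  refine Q24_closed (f : K →+* RF M (n + 1)) J (cK : K →+* _) hjet ?_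
  have h5 := closed_trans (i2 : K →+* E) (algebraMap E κ) hcl2 hEκ
  exact closed_trans ((algebraMap E κ).comp (i2 : K →+* E)) ιΩ h5 (fun u hu => by
    obtain ⟨Q, hQ, hQu⟩ := hu
    obtain ⟨a, ha⟩ := algClosed_RF κ (n + 1) u ⟨Q, hQ, hQu⟩
    exact ⟨a, ha.symm⟩)

end Pool.Agent.LibHP
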