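import Pool.Agent.LibHPF.Q27
import Pool.Agent.LibHPF.T16

set_option autoImplicit false
open MvPolynomial

namespace Pool.Agent.LibHP

/-- The quartic side for all dimensions `≥ 3`. -/
theorem quartic_moves4 {k K : Type} [Field k] [CharZero k] [Field K] [Algebra k K] {n : ℕ}
    (hn : 4 ≤ n) (F : MvPolynomial (Fin (n + 1)) k) (hF : F.IsHomogeneous 4)
    (hsm : IsSmoothHyp F) (y : Fin (n + 1) → K) (hy : IsHypPt F y) (hd : DenseContact F)
    (hdvr : ∀ (i : Fin (n + 1)) (p : Ideal (chartRing k y i)) [p.IsPrime], p.height = 1 →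
      IsDiscreteValuationRing (Localization.AtPrime p)) :
    ∃ (M : Type) (_ : Field M) (_ : Algebra k M) (r : ℕ) (σ : K →+* RF M r),
      DensePts k M ∧ (∀ c : k, σ (algebraMap k K c) = algebraMap k (RF M r) c) ∧ ClosedIn σ ∧
      ∀ (i : Fin (n + 1)) (p : Ideal (chartRing k y i)), p.IsPrime → p.height = 1 →
        MetAt (chartRing k y i) K p σ 1 := by
  obtain ⟨φ, hφ, rfl⟩ := exists_tensor k n F hF
  have hs : Smooth4 φ := smooth4_of_isSmoothHyp hφ hsm
  have hP : IsGenPt φ y := ⟨hy.1, hy.2.1⟩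
  have hgenP : GenBy k y := genBy_of_adjoin y hy.2.2
  obtain ⟨i0, he⟩ := phi_ne hφ hs y hP
  have hprime : Prime (quadW φ y (Pi.single i0 1)) :=
    prime_quadW hφ hs (by omega) y _ hP he
  obtain ⟨M, _, _, W, hW, hgenW⟩ := exists_generic_field K (Fin (n + 1)) _ hprime
  let _ : Algebra k M := ((algebraMap K M).comp (algebraMap k K)).toAlgebra
  have hst : IsScalarTower k K M := IsScalarTower.of_algebraMap_eq fun _ => rfl
  have hq : qW φ (fun i => algebraMap K M (y i))
      (fun i => algebraMap K M ((Pi.single i0 1 : Fin (n + 1) → K) i)) W = 0 := by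
    have h1 := eval₂_quadW φ (IsScalarTower.toAlgHom k K M) y (Pi.single i0 1) W
    have h2 := (hW (quadW φ y (Pi.single i0 1))).2 dvd_rfl
    rw [aeval_def] at h2
    exact h1.symm.trans h2
  obtain ⟨σ, hσk, hσ, h0, hcl⟩ := exists_sigma_gen hφ hs hn y (Pi.single i0 1) hP hgenP he W
    (fun i => algebraMap K M (y i))
    (fun i => algebraMap K M ((Pi.single i0 1 : Fin (n + 1) → K) i)) (fun _ => rfl)
    (fun _ => rfl) hW hgenW hq
  have hdense : DensePts k M := densePts_stub hφ hs (by omega) (dense_phi hφ hd) y hP hgenP i0 he W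
    hW hgenW
  refine ⟨M, inferInstance, inferInstance, n + 1, σ, hdense, hσk, hcl, ?_⟩
  intro i p hp hh
  exact metAt_all hφ hs (by omega) y (Pi.single i0 1) hP hgenP he W
    (fun i => algebraMap K M (y i))
    (fun i => algebraMap K M ((Pi.single i0 1 : Fin (n + 1) → K) i)) (fun _ => rfl)
    (fun _ => rfl) hW hgenW σ hσk hσ h0 i p hh (hdvr i p hh)

end Pool.Agent.LibHP
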