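import Pool.Agent.LibHPF.G7
import Pool.Agent.LibHPF.G8
import Pool.Agent.LibHPF.G9
import Pool.Agent.LibHPF.G14
import Pool.Agent.LibHPF.T17
import Pool.Agent.LibHPF.P12

/-! G10 (assembly, helper98): the Hilbert property of smooth quartics. -/

set_option autoImplicit false
open AlgebraicGeometry CategoryTheory

namespace Pool.Agent.LibHP

theorem main_quartic (k : Type) [Field k] [NumberField k] {X : Scheme}
    (f : X ⟶ Spec (CommRingCat.of k)) [IsIntegral X] [Smooth f] [IsSeparated f] [QuasiCompact f]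
    (hsc : GeomSimplyConnected f) {n : ℕ} (hn : 4 ≤ n) (F : MvPolynomial (Fin (n + 1)) k)
    (hF : F.IsHomogeneous 4) (hsm : IsSmoothHyp F) (hd : DenseContact F)
    (hX : IsHypModelOf f F) : HilbertProp f := by
  letI : Algebra k X.functionField := (toStalk f (genericPoint X)).toAlgebra
  obtain ⟨z, hz0⟩ := hX
  have hz : IsHypCoord F z := hz0
  obtain ⟨y, hy⟩ := exists_hypPt F hF z hz
  obtain ⟨M, _, _, r, σ, h1, h2, h3, h4⟩ := quartic_moves4 hn F hF hsm y hy hd
    (fun i p _ hp => chartRing_dvr (by norm_num : (4 : ℕ) ≠ 0) F hF hsm y hy i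
      (hy.coord_ne_zero hF i) p hp)
  refine main_moves k f hsc fun S hS => ⟨M, inferInstance, inferInstance, r, σ, h1, h2, h3, ?_⟩
  intro L _ _ _ hL x hx
  have hcz : CharZero X.functionField :=
    charZero_of_injective_ringHom (toStalk f (genericPoint X)).injective
  refine presAt_of_unram f (fun c => rfl) (by norm_num : (4 : ℕ) ≠ 0) F hF hsm y hy L ?_ x (hS x hx)
  intro i hi P hP hP1
  haveI := chartRing_isNoetherianRing k y i
  haveI := chartRing_isIntegrallyClosed (by norm_num : (4 : ℕ) ≠ 0) F hF hsm y hy i hi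
  haveI := chart_isFractionRing F y hy i hi
  refine unramAt_of_met (chartRing k y i) X.functionField ?_ P hP hP1 σ L hL ?_
  · intro m hm
    have h : IsUnit (m : k) := (Nat.cast_ne_zero.mpr hm).isUnit
    have h' := h.map (algebraMap k (chartRing k y i))
    simpa using h'
  · intro l hl
    exact ⟨1, fun h => hl.one_lt.ne' (Nat.dvd_one.1 h), h4 i P hP hP1⟩

end Pool.Agent.LibHP
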