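import Pool.Agent.LibHPF.G1

/-! Row G2. Jacobian criterion on the chart: no prime of the chart ring contains all `∂_j F (w)`, `j ≠ i`. -/

set_option autoImplicit false

namespace Pool.Agent.LibHP

/-- the affine coordinate `w j = y j / y i` as an element of the chart ring -/
noncomputable def chartCoord (k : Type) {K : Type} [Field k] [Field K] [Algebra k K] {n : ℕ}
    (y : Fin (n + 1) → K) (i j : Fin (n + 1)) : chartRing k y i :=
  ⟨y j / y i, Algebra.subset_adjoin ⟨j, rfl⟩⟩

theorem G2_val {k K : Type} [Field k] [Field K] [Algebra k K] {n : ℕ}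
    (y : Fin (n + 1) → K) (i : Fin (n + 1)) (G : MvPolynomial (Fin (n + 1)) k) :
    ((MvPolynomial.aeval (chartCoord k y i) G : chartRing k y i) : K) =
      MvPolynomial.aeval (fun j => y j / y i) G := by
  have h := MvPolynomial.aeval_algebraMap_apply K (chartCoord k y i) G
  have h2 : (MvPolynomial.aeval (chartCoord k y i) G : chartRing k y i).1 =
      algebraMap (chartRing k y i) K (MvPolynomial.aeval (chartCoord k y i) G) := rfl
  rw [h2, ← h]
  rfl

theorem chart_jacobian {k K : Type} [Field k] [CharZero k] [Field K] [Algebra k K] {n d : ℕ}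
    (hd : d ≠ 0)
    (F : MvPolynomial (Fin (n + 1)) k) (hF : F.IsHomogeneous d) (hsm : IsSmoothHyp F)
    (y : Fin (n + 1) → K) (hy : IsHypPt F y) (i : Fin (n + 1)) (hi : y i ≠ 0)
    (P : Ideal (chartRing k y i)) (hP : P.IsPrime) :
    ∃ j, j ≠ i ∧ MvPolynomial.aeval (chartCoord k y i) (MvPolynomial.pderiv j F) ∉ P := by
  classical
  by_contra hcon
  push Not at hcon
  have hF0 : MvPolynomial.aeval (chartCoord k y i) F = 0 := by
    apply Subtype.ext
    rw [G2_val]
    have := (chart_relation F hF y hy i hi F).2 (Ideal.subset_span (by simp))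
    rw [this]; rfl
  have hci : chartCoord k y i i = 1 := Subtype.ext (div_self hi)
  have hEuler : ∑ j, chartCoord k y i j * MvPolynomial.aeval (chartCoord k y i)
      (MvPolynomial.pderiv j F) = 0 := by
    have h := congrArg (MvPolynomial.aeval (chartCoord k y i)) hF.sum_X_mul_pderiv
    rw [map_sum, map_nsmul, hF0, smul_zero] at h
    simpa using h
  have hi' : MvPolynomial.aeval (chartCoord k y i) (MvPolynomial.pderiv i F) ∈ P := by
    rw [← Finset.add_sum_erase _ _ (Finset.mem_univ i), hci, one_mul] at hEuler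
    rw [eq_neg_of_add_eq_zero_left hEuler]
    apply neg_mem
    apply Ideal.sum_mem
    intro j hj
    exact P.mul_mem_left _ (hcon j (Finset.ne_of_mem_erase hj))
  have hall : ∀ j, MvPolynomial.aeval (chartCoord k y i) (MvPolynomial.pderiv j F) ∈ P := by
    intro j
    by_cases h : j = i
    · rw [h]; exact hi'
    · exact hcon j h
  obtain ⟨m, hm, hPm⟩ := Ideal.exists_le_maximal P hP.ne_top
  letI : Field (chartRing k y i ⧸ m) := Ideal.Quotient.field m
  haveI : Algebra.FiniteType k (chartRing k y i) := by
    unfold chartRing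
    have hfin : (Set.range fun j => y j / y i).Finite := Set.finite_range _
    exact (Subalgebra.fg_iff_finiteType _).1
      ((Subalgebra.fg_def).2 ⟨_, hfin, rfl⟩)
  haveI : Algebra.FiniteType k (chartRing k y i ⧸ m) :=
    Algebra.FiniteType.of_surjective (Ideal.Quotient.mkₐ k m) (Ideal.Quotient.mkₐ_surjective k m)
  haveI : Module.Finite k (chartRing k y i ⧸ m) :=
    finite_of_finite_type_of_isJacobsonRing k (chartRing k y i ⧸ m)
  haveI : Algebra.IsAlgebraic k (chartRing k y i ⧸ m) := Algebra.IsAlgebraic.of_finite k _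
  let e : (chartRing k y i ⧸ m) →ₐ[k] AlgebraicClosure k := IsAlgClosed.lift
  let φ : chartRing k y i →ₐ[k] AlgebraicClosure k := e.comp (Ideal.Quotient.mkₐ k m)
  have hφ : ∀ x ∈ P, φ x = 0 := by
    intro x hx
    have : Ideal.Quotient.mkₐ k m x = 0 := by
      rw [Ideal.Quotient.mkₐ_eq_mk]
      exact Ideal.Quotient.eq_zero_iff_mem.2 (hPm hx)
    show e (Ideal.Quotient.mkₐ k m x) = 0
    rw [this, map_zero]
  have hcomp : ∀ G : MvPolynomial (Fin (n + 1)) k,
      MvPolynomial.aeval (fun j => φ (chartCoord k y i j)) G =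
        φ (MvPolynomial.aeval (chartCoord k y i) G) := by
    intro G
    have := MvPolynomial.comp_aeval (f := chartCoord k y i) φ
    exact (DFunLike.congr_fun this G).symm
  have ha : (fun j => φ (chartCoord k y i j)) ≠ 0 := by
    intro h
    have h1 := congrFun h i
    simp only [hci, map_one, Pi.zero_apply] at h1
    exact one_ne_zero h1
  obtain ⟨j, hj⟩ := hsm _ ha (by rw [hcomp, hF0, map_zero])
  apply hj
  rw [hcomp]
  exact hφ _ (hall j)

end Pool.Agent.LibHP
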