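import Pool.Agent.LibHPF.Defs

set_option autoImplicit false
open AlgebraicGeometry CategoryTheory

namespace Pool.Agent.LibHP

/-- `σ : K → M(u_1, ..., u_r)` is a rational family of points of `X` over `k`, with parameters in
(a variety with dense `k`-points and function field `M`) times an affine space, such that the
function field `K` of `X` is algebraically closed in `M(u_1, ..., u_r)`, and for every `x` in `S` and
every prime number `l` the divisor of `x` is met with some multiplicity not divisible by `l` by the
family or by a rational curve over `K` through the generic point of `X`. -/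
def MeetingFamily {k : Type} [Field k] {X : Scheme} [IsIntegral X]
    (f : X ⟶ Spec (CommRingCat.of k)) (S : Finset X) (M : Type) [Field M] [Algebra k M] {r : ℕ}
    (σ : X.functionField →+* RF M r) : Prop :=
  DensePts k M ∧ (∀ c : k, σ (toStalk f (genericPoint X) c) = algebraMap k (RF M r) c) ∧
    ClosedIn σ ∧
    ∀ x ∈ S, ∀ l : ℕ, l.Prime → ∃ m : ℕ, ¬ l ∣ m ∧
      (MeetsDiv (X.presheaf.stalk x) σ m ∨ CurveMeets f x m)

end Pool.Agent.LibHP
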