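import Pool.Agent.LibHPF.V8
import Pool.Agent.LibHPF.HDefs

set_option autoImplicit false
open AlgebraicGeometry CategoryTheory

namespace Pool.Agent.Results.MP_87f965_ag.FamiliesAndCurves

open Pool.Agent.LibHP in
/-- Let `k` be a number field and `f : X ⟶ Spec k` a smooth separated quasi-compact integral scheme
over `k` whose base change to the algebraic closure has no nontrivial connected finite etale cover,
and let `K` be its function field. Suppose that for every finite set `S` of codimension one points of
`X` there is a rational family of points of `X` with parameters in a variety with dense rational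
points times an affine space, i.e. a field `M` over `k` with `DensePts k M` and an embedding `σ` of
`K` over `k` into `M(u_1, ..., u_r)`, such that `K` is algebraically closed in `M(u_1, ..., u_r)`, and
such that for every `x` in `S` and every prime number `l` the divisor of `x` is met with some
multiplicity not divisible by `l` by the family or by a rational curve over `K` through the generic
point of `X`. Then `X` has the Hilbert property: the rational points outside the images of the
rational points of finitely many nontrivial finite covers are dense. -/
theorem result :
    ∀ (k : Type) [Field k] [NumberField k] (X : Scheme) [AlgebraicGeometry.IsIntegral X]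
      (f : X ⟶ Spec (CommRingCat.of k)),
      AlgebraicGeometry.Smooth f →
      AlgebraicGeometry.IsSeparated f → QuasiCompact f →
      (∀ (Y : Scheme)
          (g : Y ⟶ Limits.pullback f
            (Spec.map (CommRingCat.ofHom (algebraMap k (AlgebraicClosure k))))),
          AlgebraicGeometry.IsFinite g → AlgebraicGeometry.Etale g → ConnectedSpace Y →
            IsIso g) →
      (∀ S : Finset X, (∀ x ∈ S, ringKrullDim (X.presheaf.stalk x) = 1) →
        ∃ (M : Type) (_ : Field M) (_ : Algebra k M) (r : ℕ) (σ : X.functionField →+* RF M r),
          MeetingFamily f S M σ) →
      ∀ (n : ℕ) (Y : Fin n → Scheme) (π : ∀ i, Y i ⟶ X),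
        (∀ i, AlgebraicGeometry.IsIntegral (Y i)) →
        (∀ i, AlgebraicGeometry.IsFinite (π i)) →
        (∀ i, AlgebraicGeometry.Surjective (π i)) →
        (∀ i, ¬ IsIso (π i)) →
        Dense {x : X | ∃ s : Spec (CommRingCat.of k) ⟶ X, s ≫ f = 𝟙 _ ∧
          x ∈ Set.range s.base ∧
          ∀ i (t : Spec (CommRingCat.of k) ⟶ Y i), t ≫ π i ≠ s} := by
  intro k _ _ X _ f h1 h2 h3 h4 H
  exact main_criterion k f h4 H

end Pool.Agent.Results.MP_87f965_ag.FamiliesAndCurves
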