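import Pool.Agent.LibHPF.Defs

/-! # Row P2: factorisation over an integrally closed domain

Plan. Induction on `P.natDegree` (strong). `P.map (algebraMap A K)` is monic of degree `n`; `n = 0`:
`P = 1`, take `m = 0` (empty product). `n ≥ 1`: the monic polynomial over the field `K` has a monic
irreducible factor `q` (`Polynomial.exists_monic_irreducible_factor` or `WfDvdMonoid`), write
`P.map = q * q'` with `q'` monic. Both are in the image of `A[X]`: Mathlib
`IsIntegrallyClosed.eq_map_mul_C_of_dvd` (a divisor in `K[X]` of a monic polynomial over the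
integrally closed domain `A` is, up to a constant, the image of a polynomial over `A`; for a monic
divisor the constant is `1`). So `q = Q.map`, `q' = Q'.map` with `Q`, `Q'` monic
(`Polynomial.lifts_and_natDegree_eq_and_monic` or `monic_of_injective`), and `P = Q * Q'` by
injectivity. `2 ≤ Q.natDegree`: degree `0` is excluded by irreducibility, and if the degree is `1`
then `q = X + C a` has the root `-a` in `K`, hence `P` has the root `-a`, against `hroot`.
Apply the induction hypothesis to `Q'` (its roots in `K` are roots of `P`), `Fin (m + 1)` with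
`Fin.cons Q Q''` and `Fin.prod_univ_succ`. -/

set_option autoImplicit false
open Polynomial

namespace Pool.Agent.LibHP

theorem P2_aux (A K : Type) [CommRing A] [IsDomain A] [IsIntegrallyClosed A] [Field K]
    [Algebra A K] [IsFractionRing A K] (n : ℕ) : ∀ (P : A[X]), P.natDegree = n → P.Monic →
    (∀ z : K, P.eval₂ (algebraMap A K) z ≠ 0) →
    ∃ (m : ℕ) (Q : Fin m → A[X]), (∀ j, (Q j).Monic) ∧
      (∀ j, Irreducible ((Q j).map (algebraMap A K))) ∧ (∀ j, 2 ≤ (Q j).natDegree) ∧
      P = ∏ j, Q j := by
  induction n using Nat.strong_induction_on with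
  | _ n ih =>
  intro P hn hP hroot
  have hinj : Function.Injective (algebraMap A K) := IsFractionRing.injective A K
  rcases Nat.eq_zero_or_pos n with h0 | hpos
  · have h1 : P = 1 := by
      have := hn.trans h0
      exact hP.natDegree_eq_zero.1 this
    exact ⟨0, Fin.elim0, fun j => j.elim0, fun j => j.elim0, fun j => j.elim0, by simp [h1]⟩
  · have hPm : (P.map (algebraMap A K)).Monic := hP.map _
    have hdeg : (P.map (algebraMap A K)).natDegree = n := by
      rw [hP.natDegree_map, hn]
    have hnu : ¬ IsUnit (P.map (algebraMap A K)) := by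
      apply not_isUnit_of_natDegree_pos
      rw [hdeg]; exact hpos
    obtain ⟨q, hqm, hqi, hqd⟩ := exists_monic_irreducible_factor _ hnu
    obtain ⟨q', hq'⟩ := hqd
    have hq'm : q'.Monic := by
      rw [hq'] at hPm
      exact hqm.of_mul_monic_left hPm
    obtain ⟨Q, hQ⟩ := IsIntegrallyClosed.eq_map_mul_C_of_dvd K hP (g := q) ⟨q', hq'⟩
    obtain ⟨Q', hQ'⟩ := IsIntegrallyClosed.eq_map_mul_C_of_dvd K hP (g := q')
      ⟨q, by rw [hq', mul_comm]⟩
    rw [hqm.leadingCoeff, C_1, mul_one] at hQ
    rw [hq'm.leadingCoeff, C_1, mul_one] at hQ'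
    have hQm : Q.Monic := monic_of_injective hinj (by rw [hQ]; exact hqm)
    have hQ'm : Q'.Monic := monic_of_injective hinj (by rw [hQ']; exact hq'm)
    have hPQ : P = Q * Q' := by
      apply map_injective _ hinj
      rw [Polynomial.map_mul, hQ, hQ', hq']
    have hQdeg : Q.natDegree = q.natDegree := by rw [← hQ, hQm.natDegree_map]
    have hQpos : 0 < Q.natDegree := by rw [hQdeg]; exact hqi.natDegree_pos
    have hQ2 : 2 ≤ Q.natDegree := by
      by_contra hcon
      have h1 : q.natDegree = 1 := by omega
      have h2 : q.degree = 1 := by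
        rw [degree_eq_natDegree hqm.ne_zero, h1]; rfl
      obtain ⟨z, hz⟩ := exists_root_of_degree_eq_one h2
      apply hroot z
      rw [← eval_map, hq', eval_mul, hz.eq_zero, zero_mul]
    have hsum : P.natDegree = Q.natDegree + Q'.natDegree := by
      rw [hPQ, hQm.natDegree_mul hQ'm]
    obtain ⟨m, R, h1, h2, h3, h4⟩ := ih Q'.natDegree (by omega) Q' rfl hQ'm (by
      intro z hz
      apply hroot z
      rw [hPQ, eval₂_mul, hz, mul_zero])
    refine ⟨m + 1, Fin.cons Q R, ?_, ?_, ?_, ?_⟩
    · intro j
      refine Fin.cases ?_ (fun j => ?_) j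
      · simpa using hQm
      · simpa using h1 j
    · intro j
      refine Fin.cases ?_ (fun j => ?_) j
      · simpa [hQ] using hqi
      · simpa using h2 j
    · intro j
      refine Fin.cases ?_ (fun j => ?_) j
      · simpa using hQ2
      · simpa using h3 j
    · rw [Fin.prod_univ_succ]
      simp only [Fin.cons_zero, Fin.cons_succ]
      rw [hPQ, h4]

theorem exists_factors (A K : Type) [CommRing A] [IsDomain A] [IsIntegrallyClosed A] [Field K]
    [Algebra A K] [IsFractionRing A K] (P : A[X]) (hP : P.Monic)
    (hroot : ∀ z : K, P.eval₂ (algebraMap A K) z ≠ 0) :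
    ∃ (m : ℕ) (Q : Fin m → A[X]), (∀ j, (Q j).Monic) ∧
      (∀ j, Irreducible ((Q j).map (algebraMap A K))) ∧ (∀ j, 2 ≤ (Q j).natDegree) ∧
      P = ∏ j, Q j :=
  P2_aux A K P.natDegree P rfl hP hroot

end Pool.Agent.LibHP
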