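import Pool.Agent.LibHPF.Defs

/-! # Row P3a: irreducible polynomials stay irreducible when `K` is algebraically closed in `M(u)`

General statement for two fields: if every element of `E` which is algebraic over the image of
`σ : K → E` lies in the image, then a monic irreducible polynomial over `K` stays irreducible over
`E`.

Plan. Suppose `Q.map σ = p * q` with `p`, `q` monic over `E` (`Polynomial.Monic.irreducible_iff...`:
use e.g. `Polynomial.Monic.irreducible_iff_natDegree'` or: not irreducible => there is a monic proper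
factor `p` with `0 < p.natDegree < Q.natDegree`). Let `Ω := AlgebraicClosure E`. All roots of `p` in
`Ω` are roots of `Q`, hence algebraic over `K` (via `(algebraMap E Ω).comp σ`), so the coefficients
of `p`, which are up to sign the elementary symmetric functions of the roots
(`Polynomial.coeff_eq_esymm_roots_of_card` / `Multiset.prod_X_sub_C_coeff`), are algebraic over `K`:
they lie in the subalgebra `integralClosure`/`algebraicClosure K Ω`. In short: with
`letI := ((algebraMap E Ω).comp σ).toAlgebra`, Mathlib has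
`Polynomial.isIntegral_coeff_of_dvd` / `IsIntegral.coeff_of_dvd`-type lemmas ((the coefficients of a
monic factor of a monic integral polynomial are integral):
`Polynomial.isIntegral_coeff_of_factors` or `integralClosure.mem_lifts_of_monic_of_dvd_map`:
`theorem integralClosure.mem_lifts_of_monic_of_dvd_map {f : R[X]} (hf : f.Monic) {g : K[X]}
(hg : g.Monic) (hd : g ∣ f.map (algebraMap R K)) : g ∈ lifts (algebraMap (integralClosure R K) K)`),
with `R := K` and `K := E` (algebra via `σ`): every coefficient of `p` is integral over `K`, so by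
`hcl` it is in the range of `σ`; so `p = p0.map σ`, `p0` monic, and `p0 ∣ Q` over `K`
(`Polynomial.map_dvd_map' σ`), with `0 < natDegree p0 < natDegree Q`: contradiction to `hQ`. -/

set_option autoImplicit false
open Polynomial

namespace Pool.Agent.LibHP

theorem P3a_lift {K E : Type} [Field K] [Field E] (σ : K →+* E)
    (hcl : ∀ e : E, (∃ P : K[X], P ≠ 0 ∧ P.eval₂ σ e = 0) → ∃ a, σ a = e)
    (Q : K[X]) (hm : Q.Monic) (g : E[X]) (hg : g.Monic) (hd : g ∣ Q.map σ) :
    ∃ g0 : K[X], g0.Monic ∧ g0.map σ = g := by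
  let _ : Algebra K E := σ.toAlgebra
  have hmem := integralClosure.mem_lifts_of_monic_of_dvd_map (R := K) E hm hg hd
  rw [Polynomial.lifts_iff_coeff_lifts] at hmem
  have hl : g ∈ Polynomial.lifts σ := by
    rw [Polynomial.lifts_iff_coeff_lifts]
    intro n
    obtain ⟨y, hy⟩ := hmem n
    obtain ⟨P, hP, hP0⟩ := y.2
    obtain ⟨a, ha⟩ := hcl (g.coeff n) ⟨P, hP.ne_zero, by rw [← hy]; exact hP0⟩
    exact ⟨a, ha⟩
  obtain ⟨g0, h1, -, h2⟩ := Polynomial.lifts_and_natDegree_eq_and_monic hl hg
  exact ⟨g0, h2, h1⟩

theorem irreducible_map_of_closed {K E : Type} [Field K] [Field E] (σ : K →+* E)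
    (hcl : ∀ e : E, (∃ P : K[X], P ≠ 0 ∧ P.eval₂ σ e = 0) → ∃ a, σ a = e)
    (Q : K[X]) (hm : Q.Monic) (hQ : Irreducible Q) : Irreducible (Q.map σ) := by
  have hmσ : (Q.map σ).Monic := hm.map σ
  rw [hmσ.irreducible_iff_natDegree']
  refine ⟨?_, ?_⟩
  · intro h1
    have h2 : Q = 1 := Polynomial.map_injective σ σ.injective (by rw [h1, Polynomial.map_one])
    exact hQ.not_isUnit (h2 ▸ isUnit_one)
  · intro f g hf hg hfg
    obtain ⟨f0, hf0, hf1⟩ := P3a_lift σ hcl Q hm f hf ⟨g, hfg.symm⟩
    obtain ⟨g0, hg0, hg1⟩ := P3a_lift σ hcl Q hm g hg ⟨f, by rw [mul_comm]; exact hfg.symm⟩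
    have h3 : f0 * g0 = Q := by
      apply Polynomial.map_injective σ σ.injective
      rw [Polynomial.map_mul, hf1, hg1, hfg]
    have h4 := (hm.irreducible_iff_natDegree'.1 hQ).2 f0 g0 hf0 hg0 h3
    rwa [← hg1, Polynomial.natDegree_map, Polynomial.natDegree_map]

end Pool.Agent.LibHP
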