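import Pool.Agent.LibHPF.Defs

/-! # Row P5a: specialisation of polynomials without roots (Nullstellensatz)

`P` is monic over `R[u_1, ..., u_r]`; if it has no root over the algebraically closed field `Ω ⊇ R`
then no specialisation outside `ρ = 0` has a root over a field.

Plan.
1. Degree bound: `D := sup of the total degrees of the coefficients of P`. For every domain `S`,
`φ : R →+* S` and root `q : MvPolynomial (Fin r) S` of `P.map (MvPolynomial.map φ)`:
`q.totalDegree ≤ D`. Otherwise let `d = P.natDegree` (`d = 0` impossible: `P = 1`), `e = deg q > D`;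
`q^d = - ∑_{i<d} c_i q^i`, `totalDegree (q^d) = d e` (`MvPolynomial.totalDegree_pow_of_isDomain` or
`totalDegree_mul_of_isDomain`), while `totalDegree (c_i q^i) ≤ D + i e < d e`
(`totalDegree_map_le`, `totalDegree_mul`, `totalDegree_finset_sum`).
2. Universal root: `I := Fin r → Fin (D + 1)`, exponents `m_s : Fin r →₀ ℕ`
(`Finsupp.equivFunOnFinite.symm (fun i => (s i : ℕ))`), `A0 := MvPolynomial I R`,
`g := ∑ s : I, MvPolynomial.monomial (m_s) (X s) ∈ MvPolynomial (Fin r) A0`; `J` := ideal of `A0`
spanned by the coefficients of `(P.map (MvPolynomial.map MvPolynomial.C)).eval g`; `B := A0 ⧸ J`.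
For every domain `S` and `φ : R →+* S` with a root `q` over `S` there is a ring homomorphism
`B →+* S` over `φ` (`X s ↦ coefficient of m_s in q`; `g` goes to `q` because of 1, every monomial of
`q` has exponents `≤ D`; `Ideal.Quotient.lift`, `MvPolynomial.eval₂Hom`), and conversely a
homomorphism `B →+* Ω` over `j` gives a root over `Ω`.
3. If `C ρ ∈ J` for some `ρ ≠ 0` in `R` we are done: a root over `k` gives `B →+* k` over `φ`, so
`φ ρ = 0`.
4. Otherwise let `R' := FractionRing R`. `MvPolynomial I R'` is the localization of `MvPolynomial I R`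
at the constants `C a`, `a ≠ 0` (Mathlib `MvPolynomial.isLocalization`), so
`IsLocalization.map_algebraMap_ne_top_iff_disjoint` (or `IsLocalization.map_units`/`mem_map_algebraMap_iff`
with `1`) gives `J.map (MvPolynomial.map (algebraMap R R')) ≠ ⊤`; take a maximal ideal `𝔪` above it. The
field `F := MvPolynomial I R' ⧸ 𝔪` is of finite type over `R'`, hence finite by Zariski's lemma
(`finite_of_finite_type_of_isJacobsonRing`), algebraic, and embeds in `Ω` over `R'` (`IsAlgClosed.lift`
with the algebra structure `R' → Ω` from `IsFractionRing.lift hj`). The composite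
`A0 →+* MvPolynomial I R' →+* F →+* Ω` kills `J` and is `j` on constants: a root over `Ω` (the image
of `g`), contradiction to `hroot`. -/

set_option autoImplicit false
open Polynomial

namespace Pool.Agent.LibHP

section P5a

open MvPolynomial in
theorem p5a_deg {R S : Type} [CommRing R] [CommRing S] [IsDomain S] (φ : R →+* S) (r D : ℕ)
    (P : (MvPolynomial (Fin r) R)[X]) (hP : P.Monic)
    (hD : ∀ i, (P.coeff i).totalDegree ≤ D) (q : MvPolynomial (Fin r) S)
    (h : (P.map (MvPolynomial.map φ)).IsRoot q) : q.totalDegree ≤ D := by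
  by_contra hlt
  push Not at hlt
  have hq0 : q ≠ 0 := by
    rintro rfl
    simp at hlt
  set Q := P.map (MvPolynomial.map φ) with hQ
  have hQm : Q.Monic := hP.map _
  have hc : ∀ i, (Q.coeff i).totalDegree ≤ D := by
    intro i
    rw [hQ, Polynomial.coeff_map]
    refine le_trans ?_ (hD i)
    exact Finset.sup_mono (MvPolynomial.support_map_subset _ _)
  have h0 : Q.eval q = 0 := h
  rw [Polynomial.eval_eq_sum_range, Finset.sum_range_succ, hQm.coeff_natDegree, one_mul] at h0
  have h1 : q ^ Q.natDegree = - ∑ x ∈ Finset.range Q.natDegree, Q.coeff x * q ^ x := by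
    linear_combination h0
  rcases Nat.eq_zero_or_pos Q.natDegree with hd | hd
  · rw [hd] at h1
    simp at h1
  · have hpow : ∀ n : ℕ, (q ^ n).totalDegree = n * q.totalDegree := by
      intro n
      induction n with
      | zero => simp
      | succ n ih =>
        rw [pow_succ, MvPolynomial.totalDegree_mul_of_isDomain (pow_ne_zero _ hq0) hq0, ih]
        ring
    have h2 : (q ^ Q.natDegree).totalDegree ≤ D + (Q.natDegree - 1) * q.totalDegree := by
      rw [h1, MvPolynomial.totalDegree_neg]
      refine MvPolynomial.totalDegree_finsetSum_le ?_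
      intro i hi
      rw [Finset.mem_range] at hi
      refine le_trans (MvPolynomial.totalDegree_mul _ _) ?_
      rw [hpow]
      have : i * q.totalDegree ≤ (Q.natDegree - 1) * q.totalDegree :=
        Nat.mul_le_mul_right _ (by omega)
      have := hc i
      omega
    rw [hpow] at h2
    obtain ⟨d, hd'⟩ : ∃ d, Q.natDegree = d + 1 := ⟨Q.natDegree - 1, by omega⟩
    rw [hd'] at h2
    simp only [Nat.add_sub_cancel, add_mul, one_mul] at h2
    omega

/-- exponents -/
noncomputable def p5aM (r D : ℕ) (s : Fin r → Fin (D + 1)) : Fin r →₀ ℕ :=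
  Finsupp.equivFunOnFinite.symm (fun i => (s i : ℕ))

theorem p5aM_inj (r D : ℕ) : Function.Injective (p5aM r D) := by
  intro s t h
  have h1 : (fun i => ((s i : Fin (D+1)) : ℕ)) = fun i => (t i : ℕ) :=
    Finsupp.equivFunOnFinite.symm.injective h
  funext i
  exact Fin.ext (congrFun h1 i)

/-- generic polynomial -/
noncomputable def p5aG {T : Type} [CommRing T] (r D : ℕ) (c : (Fin r → Fin (D + 1)) → T) :
    MvPolynomial (Fin r) T :=
  ∑ s, MvPolynomial.monomial (p5aM r D s) (c s)

theorem p5aG_map {T T' : Type} [CommRing T] [CommRing T'] (f : T →+* T') (r D : ℕ)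
    (c : (Fin r → Fin (D + 1)) → T) :
    MvPolynomial.map f (p5aG r D c) = p5aG r D (fun s => f (c s)) := by
  simp [p5aG, map_sum, MvPolynomial.map_monomial]

theorem p5aG_eq {T : Type} [CommRing T] (r D : ℕ) (q : MvPolynomial (Fin r) T)
    (hq : q.totalDegree ≤ D) : p5aG r D (fun s => q.coeff (p5aM r D s)) = q := by
  classical
  ext m
  rw [p5aG, MvPolynomial.coeff_sum]
  simp only [MvPolynomial.coeff_monomial]
  by_cases hm : ∃ s, p5aM r D s = m
  · obtain ⟨s, rfl⟩ := hm
    rw [Finset.sum_eq_single s]
    · simp
    · intro b _ hb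
      rw [if_neg]
      intro h
      exact hb (p5aM_inj r D h)
    · intro h
      exact absurd (Finset.mem_univ _) h
  · rw [Finset.sum_eq_zero]
    · symm
      by_contra hne
      apply hm
      have hle : ∀ i, m i ≤ D := by
        intro i
        have h1 : (m.sum fun _ e => e) ≤ q.totalDegree :=
          MvPolynomial.le_totalDegree (MvPolynomial.mem_support_iff.mpr hne)
        by_cases hi : m i = 0
        · omega
        · have h2 : m i ≤ m.sum fun _ e => e :=
            Finset.single_le_sum (f := fun i => m i) (fun _ _ => Nat.zero_le _)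
              (Finsupp.mem_support_iff.mpr hi)
          omega
      refine ⟨fun i => ⟨m i, by have := hle i; omega⟩, ?_⟩
      ext i
      simp [p5aM]
    · intro s _
      rw [if_neg]
      intro h
      exact hm ⟨s, h⟩

end P5a

theorem exists_avoid (R Ω : Type) [CommRing R] [IsDomain R] [Field Ω] [IsAlgClosed Ω] (j : R →+* Ω)
    (hj : Function.Injective j) (r : ℕ) (P : (MvPolynomial (Fin r) R)[X]) (hP : P.Monic)
    (hroot : ∀ q : MvPolynomial (Fin r) Ω, ¬ (P.map (MvPolynomial.map j)).IsRoot q) :
    ∃ ρ : R, ρ ≠ 0 ∧ ∀ (k : Type) [Field k] (φ : R →+* k), φ ρ ≠ 0 →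
      ∀ q : MvPolynomial (Fin r) k, ¬ (P.map (MvPolynomial.map φ)).IsRoot q := by
  classical
  obtain ⟨D, hD⟩ : ∃ D : ℕ, ∀ i, (P.coeff i).totalDegree ≤ D := by
    refine ⟨P.support.sup (fun i => (P.coeff i).totalDegree), fun i => ?_⟩
    by_cases hi : i ∈ P.support
    · exact Finset.le_sup (f := fun i => (P.coeff i).totalDegree) hi
    · rw [Polynomial.notMem_support_iff.mp hi]
      simp
  set I := Fin r → Fin (D + 1) with hI
  let g0 : MvPolynomial (Fin r) (MvPolynomial I R) := p5aG r D (fun s => MvPolynomial.X s)
  let E : MvPolynomial (Fin r) (MvPolynomial I R) :=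
    (P.map (MvPolynomial.map (MvPolynomial.C : R →+* MvPolynomial I R))).eval g0
  let J : Ideal (MvPolynomial I R) := Ideal.span (Set.range fun m => MvPolynomial.coeff m E)
  -- image of E
  have hE : ∀ (T : Type) [CommRing T] (h : MvPolynomial I R →+* T),
      MvPolynomial.map h E = (P.map (MvPolynomial.map (h.comp MvPolynomial.C))).eval
        (p5aG r D (fun s => h (MvPolynomial.X s))) := by
    intro T _ h
    have h1 : MvPolynomial.map h E = Polynomial.eval₂ ((MvPolynomial.map h).comp
        (MvPolynomial.map (MvPolynomial.C : R →+* MvPolynomial I R))) (MvPolynomial.map h g0) P := by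
      change MvPolynomial.map h (Polynomial.eval g0 (P.map _)) = _
      rw [Polynomial.eval_map, Polynomial.hom_eval₂]
    rw [h1, Polynomial.eval_map]
    congr 1
    · refine RingHom.ext fun x => ?_
      rw [RingHom.comp_apply, MvPolynomial.map_map]
    · exact p5aG_map h r D _
  by_cases hA : ∃ ρ : R, ρ ≠ 0 ∧ (MvPolynomial.C ρ : MvPolynomial I R) ∈ J
  · obtain ⟨ρ, hρ, hρJ⟩ := hA
    refine ⟨ρ, hρ, ?_⟩
    intro k _ φ hφ q hq
    apply hφ
    have hdeg := p5a_deg φ r D P hP hD q hq
    let h : MvPolynomial I R →+* k := MvPolynomial.eval₂Hom φ (fun s => q.coeff (p5aM r D s))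
    have hC : h.comp MvPolynomial.C = φ := by
      ext x
      simp [h]
    have hX : (fun s => h (MvPolynomial.X s)) = fun s => q.coeff (p5aM r D s) := by
      funext s
      simp [h]
    have hz : MvPolynomial.map h E = 0 := by
      rw [hE, hC, hX, p5aG_eq r D q hdeg]
      exact hq
    have hJ : J ≤ RingHom.ker h := by
      rw [Ideal.span_le]
      rintro _ ⟨m, rfl⟩
      have := congrArg (MvPolynomial.coeff m) hz
      rw [MvPolynomial.coeff_map] at this
      simpa using this
    have h3 : h (MvPolynomial.C ρ) = 0 := hJ hρJ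
    have h4 : h (MvPolynomial.C ρ) = φ ρ := RingHom.congr_fun hC ρ
    rw [← h4, h3]
  · exfalso
    push Not at hA
    let K := FractionRing R
    let : Algebra (MvPolynomial I R) (MvPolynomial I K) := MvPolynomial.algebraMvPolynomial
    have : IsLocalization ((nonZeroDivisors R).map (MvPolynomial.C (σ := I)))
        (MvPolynomial I K) := MvPolynomial.isLocalization (nonZeroDivisors R) K
    have hne : J.map (algebraMap (MvPolynomial I R) (MvPolynomial I K)) ≠ ⊤ := by
      rw [IsLocalization.map_algebraMap_ne_top_iff_disjoint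
        ((nonZeroDivisors R).map (MvPolynomial.C (σ := I)))]
      rw [Set.disjoint_left]
      rintro _ ⟨ρ, hρ, rfl⟩ hmem
      exact hA ρ (nonZeroDivisors.ne_zero hρ) hmem
    obtain ⟨mm, hmm, hle⟩ := Ideal.exists_le_maximal _ hne
    let : Field (MvPolynomial I K ⧸ mm) := Ideal.Quotient.field mm
    have : Algebra.FiniteType K (MvPolynomial I K ⧸ mm) := inferInstance
    have hfin : Module.Finite K (MvPolynomial I K ⧸ mm) :=
      finite_of_finite_type_of_isJacobsonRing K (MvPolynomial I K ⧸ mm)
    have : Algebra.IsAlgebraic K (MvPolynomial I K ⧸ mm) := inferInstance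
    let : Algebra K Ω := (IsFractionRing.lift (A := R) (K := K) hj).toAlgebra
    let ψ : (MvPolynomial I K ⧸ mm) →ₐ[K] Ω := IsAlgClosed.lift
    let h : MvPolynomial I R →+* Ω :=
      (ψ : (MvPolynomial I K ⧸ mm) →+* Ω).comp ((Ideal.Quotient.mk mm).comp
        (algebraMap (MvPolynomial I R) (MvPolynomial I K)))
    have hC : h.comp MvPolynomial.C = j := by
      ext x
      have h1 : algebraMap (MvPolynomial I R) (MvPolynomial I K) (MvPolynomial.C x) =
          algebraMap K (MvPolynomial I K) (algebraMap R K x) := by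
        rw [MvPolynomial.algebraMap_def, MvPolynomial.map_C]
        rfl
      have h2 : h (MvPolynomial.C x) = ψ (algebraMap K _ (algebraMap R K x)) := by
        change ψ (Ideal.Quotient.mk mm (algebraMap (MvPolynomial I R) (MvPolynomial I K)
          (MvPolynomial.C x))) = _
        rw [h1]
        rfl
      rw [RingHom.comp_apply, h2, AlgHom.commutes]
      exact IsFractionRing.lift_algebraMap hj x
    have hJ : J ≤ RingHom.ker h := by
      intro x hx
      have h1 : algebraMap (MvPolynomial I R) (MvPolynomial I K) x ∈ mm :=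
        hle (Ideal.mem_map_of_mem _ hx)
      change ψ (Ideal.Quotient.mk mm (algebraMap (MvPolynomial I R) (MvPolynomial I K) x)) = 0
      rw [Ideal.Quotient.eq_zero_iff_mem.mpr h1, map_zero]
    have hz : MvPolynomial.map h E = 0 := by
      ext m
      rw [MvPolynomial.coeff_map, MvPolynomial.coeff_zero]
      exact hJ (Ideal.subset_span ⟨m, rfl⟩)
    rw [hE, hC] at hz
    exact hroot _ hz

end Pool.Agent.LibHP
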