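import Pool.Agent.LibHPF.P5a

/-! # Row P5b: an algebra map to `M(u)` spreads out over a finitely generated subalgebra of `M` -/

set_option autoImplicit false
open Polynomial

namespace Pool.Agent.LibHP

/-- The natural map from polynomials over a subalgebra of `M` to `M(u)`. -/
noncomputable def subRF {k M : Type} [Field k] [Field M] [Algebra k M] (R : Subalgebra k M)
    (r : ℕ) : MvPolynomial (Fin r) R →+* RF M r :=
  (algebraMap (MvPolynomial (Fin r) M) (RF M r)).comp (MvPolynomial.map (R.val : R →+* M))

theorem exists_spread (k M A : Type) [Field k] [Field M] [CommRing A] [Algebra k M] [Algebra k A]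
    [Algebra.FiniteType k A] (r : ℕ) (F : A →ₐ[k] RF M r) :
    ∃ R : Subalgebra k M, R.FG ∧ ∃ h : MvPolynomial (Fin r) R, h ≠ 0 ∧
      ∃ (G : A →ₐ[k] Localization.Away h) (j : Localization.Away h →+* RF M r),
        (∀ p : MvPolynomial (Fin r) R, j (algebraMap _ _ p) = subRF R r p) ∧
        ∀ a, j (G a) = F a := by
  classical
  obtain ⟨S, hS⟩ := Algebra.FiniteType.out (R := k) (A := A)
  obtain ⟨⟨g, hg⟩, hb⟩ := IsLocalization.exist_integer_multiples_of_finset
    (nonZeroDivisors (MvPolynomial (Fin r) M)) (S.image F)
  have hg0 : g ≠ 0 := nonZeroDivisors.ne_zero hg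
  have hinj : Function.Injective (algebraMap (MvPolynomial (Fin r) M) (RF M r)) :=
    IsFractionRing.injective _ _
  have hb2 : ∀ s : A, s ∈ S → ∃ p : MvPolynomial (Fin r) M,
      algebraMap (MvPolynomial (Fin r) M) (RF M r) p = algebraMap _ _ g * F s := by
    intro s hs
    obtain ⟨p, hp⟩ := hb (F s) (Finset.mem_image_of_mem _ hs)
    refine ⟨p, ?_⟩
    rw [Algebra.smul_def] at hp
    exact hp
  choose! p hp using hb2
  set T : Finset M := g.coeffs ∪ S.biUnion (fun s => (p s).coeffs) with hT
  set R : Subalgebra k M := Algebra.adjoin k (T : Set M) with hR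
  have hcoe : ∀ q : MvPolynomial (Fin r) M, q.coeffs ⊆ T →
      ∃ q' : MvPolynomial (Fin r) R, MvPolynomial.map (R.val : R →+* M) q' = q := by
    intro q hq
    have h1 : q ∈ Set.range (MvPolynomial.map (σ := Fin r) (R.val : R →+* M)) := by
      rw [MvPolynomial.mem_range_map_iff_coeffs_subset]
      intro c hc
      have : c ∈ R := Algebra.subset_adjoin (hq hc)
      exact ⟨⟨c, this⟩, rfl⟩
    exact h1
  have hRv : Function.Injective (R.val : R →+* M) := Subtype.val_injective
  obtain ⟨h, hh⟩ := hcoe g Finset.subset_union_left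
  have hp' : ∀ s : A, s ∈ S → ∃ q : MvPolynomial (Fin r) R,
      MvPolynomial.map (R.val : R →+* M) q = p s := by
    intro s hs
    refine hcoe (p s) (Finset.Subset.trans ?_ Finset.subset_union_right)
    exact Finset.subset_biUnion_of_mem (fun s => (p s).coeffs) hs
  choose! p' hp' using hp'
  have hh0 : h ≠ 0 := by
    rintro rfl
    rw [map_zero] at hh
    exact hg0 hh.symm
  set f : MvPolynomial (Fin r) R →ₐ[k] RF M r :=
    (IsScalarTower.toAlgHom k (MvPolynomial (Fin r) M) (RF M r)).comp
      (MvPolynomial.mapAlgHom (R.val : R →ₐ[k] M)) with hf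
  have hfs : ∀ q, f q = subRF R r q := fun q => rfl
  have hfinj : Function.Injective f := by
    intro x y hxy
    rw [hfs, hfs] at hxy
    exact MvPolynomial.map_injective _ hRv (hinj hxy)
  have hfh : f h ≠ 0 := fun h0 => hh0 (hfinj (by rw [h0, map_zero]))
  have hunit : ∀ y : Submonoid.powers h, IsUnit (f y) := by
    rintro ⟨y, m, rfl⟩
    simp only [map_pow]
    exact (isUnit_iff_ne_zero.2 hfh).pow m
  have hle : Submonoid.powers h ≤ nonZeroDivisors (MvPolynomial (Fin r) R) :=
    powers_le_nonZeroDivisors_of_noZeroDivisors hh0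
  set j : Localization.Away h →ₐ[k] RF M r :=
    IsLocalization.liftAlgHom (M := Submonoid.powers h) hunit with hj
  have hjalg : ∀ q : MvPolynomial (Fin r) R, j (algebraMap _ _ q) = subRF R r q := by
    intro q
    rw [hj, IsLocalization.liftAlgHom_apply, IsLocalization.lift_eq]
    rfl
  have hjinj : Function.Injective j := by
    rw [hj, IsLocalization.coe_liftAlgHom, IsLocalization.lift_injective_iff]
    intro x y
    constructor
    · intro h
      rw [IsLocalization.injective (Localization.Away _) hle h]
    · intro h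
      rw [hfinj h]
  have hrange : ∀ a : A, F a ∈ j.range := by
    have h1 : Algebra.adjoin k (S : Set A) ≤ (j.range).comap F := by
      apply Algebra.adjoin_le
      intro s hs
      have hs' : s ∈ S := hs
      show F s ∈ j.range
      refine ⟨IsLocalization.mk' (Localization.Away h) (p' s) ⟨h, Submonoid.mem_powers h⟩, ?_⟩
      have h2 := IsLocalization.mk'_spec (Localization.Away h) (p' s)
        (⟨h, Submonoid.mem_powers h⟩ : Submonoid.powers h)
      have h3 := congrArg j h2
      rw [map_mul, hjalg, hjalg] at h3
      have e1 : subRF R r h = algebraMap _ _ g := by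
        show algebraMap _ _ (MvPolynomial.map (R.val : R →+* M) h) = _
        rw [hh]
      have e2 : subRF R r (p' s) = algebraMap _ _ g * F s := by
        show algebraMap _ _ (MvPolynomial.map (R.val : R →+* M) (p' s)) = _
        rw [hp' s hs', hp s hs']
      have hg1 : algebraMap (MvPolynomial (Fin r) M) (RF M r) g ≠ 0 := by
        intro h0
        exact hg0 (hinj (by rw [h0, map_zero]))
      have h4 : j (IsLocalization.mk' (Localization.Away h) (p' s)
          ⟨h, Submonoid.mem_powers h⟩) * algebraMap _ _ g = F s * algebraMap _ _ g := by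
        rw [← e1, h3, e2, e1, mul_comm]
      exact mul_right_cancel₀ hg1 h4
    intro a
    have : a ∈ Algebra.adjoin k (S : Set A) := by rw [hS]; trivial
    exact h1 this
  refine ⟨R, Subalgebra.fg_adjoin_finset T, h, hh0,
    ((AlgEquiv.ofInjective j hjinj).symm : j.range →ₐ[k] Localization.Away h).comp
    (F.codRestrict j.range hrange), (j : Localization.Away h →+* RF M r), hjalg, ?_⟩
  intro a
  have h1 : AlgEquiv.ofInjective j hjinj ((AlgEquiv.ofInjective j hjinj).symm
      (F.codRestrict j.range hrange a)) = F.codRestrict j.range hrange a :=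
    AlgEquiv.apply_symm_apply _ _
  have h2 := congrArg Subtype.val h1
  exact h2

end Pool.Agent.LibHP
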