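import Pool.Agent.LibHPF.P7a

/-! # Row P7b: `surjective_of_finEt` for `k` algebraically closed in `L`

Plan. Copy the end of LibHP/S1.lean (`S1a_irred_source`, `S1a_conn`, `surjective_of_finEt`) with
`RF k n` replaced by `L` (algebra structure `(j.comp (toStalk f (genericPoint X))).toAlgebra`),
`S1a_domain k n` replaced by `isDomain_tensor_of_closed`, and the morphism
`Spec.map ι ≫ toNormalization` replaced by `(S1a_g j).toNormalization` itself
(`Spec L → normalization`, dominant); `hu` becomes `Scheme.Hom.toNormalization_fromNormalization_assoc`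
and `hgf`. Everything else (`S1a_pi`, `S1a_iso`, `S1a_surj`) is used as it is. -/

set_option autoImplicit false
open AlgebraicGeometry CategoryTheory

namespace Pool.Agent.LibHP

private theorem P7b_irred_source (k L : Type) [Field k] [CharZero k] [Field L] [Algebra k L]
    (hcl : ∀ α : L, (∃ h : Polynomial k, h ≠ 0 ∧ h.eval₂ (algebraMap k L) α = 0) →
      ∃ c, algebraMap k L c = α) :
    IrreducibleSpace ↥(Limits.pullback (Spec.map (CommRingCat.ofHom (algebraMap k L)))
      (S1a_q k)) := by
  have h := isDomain_tensor_of_closed k L hcl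
  have h2 : IrreducibleSpace (Spec (CommRingCat.of (TensorProduct k L (AlgebraicClosure k)))) :=
    inferInstanceAs (IrreducibleSpace (PrimeSpectrum (TensorProduct k L (AlgebraicClosure k))))
  have e := (pullbackSpecIso k L (AlgebraicClosure k)).hom.homeomorph
  exact S1a_irr e.symm e.symm.continuous e.symm.surjective.denseRange h2

private theorem P7b_conn (k L : Type) [Field k] [CharZero k] [Field L] [Algebra k L]
    (hcl : ∀ α : L, (∃ h : Polynomial k, h ≠ 0 ∧ h.eval₂ (algebraMap k L) α = 0) →
      ∃ c, algebraMap k L c = α) (Y : Scheme) (h : Y ⟶ Spec (CommRingCat.of k))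
    (u : Spec (CommRingCat.of L) ⟶ Y) [IsDominant u]
    (hu : u ≫ h = Spec.map (CommRingCat.ofHom (algebraMap k L))) :
    IrreducibleSpace ↥(Limits.pullback h (S1a_q k)) := by
  have h1 : IrreducibleSpace ↥(Limits.pullback u (Limits.pullback.fst h (S1a_q k))) := by
    have h2 := P7b_irred_source k L hcl
    have e := (Limits.pullbackRightPullbackFstIso h (S1a_q k) u ≪≫
      Limits.pullback.congrHom hu rfl).hom.homeomorph
    exact S1a_irr e.symm e.symm.continuous e.symm.surjective.denseRange h2
  refine S1a_irr (Limits.pullback.snd u (Limits.pullback.fst h (S1a_q k)))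
    (Limits.pullback.snd u (Limits.pullback.fst h (S1a_q k))).continuous ?_ h1
  show Dense (Set.range (Limits.pullback.snd u (Limits.pullback.fst h (S1a_q k))))
  rw [Scheme.Pullback.range_snd]
  exact (u.denseRange).preimage (Limits.pullback.fst h (S1a_q k)).isOpenMap

theorem surjective_of_finEt_closed {k : Type} [Field k] {X : Scheme}
    (f : X ⟶ Spec (CommRingCat.of k)) [CharZero k] [IsIntegral X] [Smooth f] [IsSeparated f]
    [QuasiCompact f] (hsc : GeomSimplyConnected f) (L : Type) [Field L]
    (j : X.functionField →+* L) (hjfin : j.Finite)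
    (hcl : ∀ α : L, (∃ h : Polynomial k, h ≠ 0 ∧
      h.eval₂ (j.comp (toStalk f (genericPoint X))) α = 0) →
      ∃ c : k, j (toStalk f (genericPoint X) c) = α)
    (hcov : ∀ x : X, ∃ (U : X.Opens) (_ : IsAffineOpen U) (hx : x ∈ U),
      FinEt (j.comp ((X.presheaf.germ U (genericPoint X)
        (((genericPoint_spec X).mem_open_set_iff U.isOpen).mpr (by simpa using ⟨x, hx⟩))).hom))) :
    Function.Surjective j := by
  have hgf : S1a_g j ≫ f = Spec.map (CommRingCat.ofHom (j.comp (toStalk f (genericPoint X)))) := by
    rw [S1a_g, Category.assoc, S1a_fromSpecStalk, ← Spec.map_comp]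
    rfl
  have hqs : QuasiSeparated (S1a_g j) := by
    have : QuasiSeparated (S1a_g j ≫ f) := by rw [hgf]; infer_instance
    exact QuasiSeparated.of_comp (S1a_g j) f
  have hqc : QuasiCompact (S1a_g j) := by
    have : QuasiCompact (S1a_g j ≫ f) := by rw [hgf]; infer_instance
    exact MorphismProperty.of_postcomp (W := @QuasiCompact) (W' := @QuasiSeparated)
      (S1a_g j) f inferInstance this
  obtain ⟨h1, h2⟩ := S1a_pi j hcov
  have hdom : IsDominant (S1a_g j).toNormalization := inferInstance
  have hu : (S1a_g j).toNormalization ≫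
      (S1a_g j).fromNormalization ≫ f =
      Spec.map (CommRingCat.ofHom (j.comp (toStalk f (genericPoint X)))) := by
    rw [Scheme.Hom.toNormalization_fromNormalization_assoc, hgf]
  let _ : Algebra k L := (j.comp (toStalk f (genericPoint X))).toAlgebra
  have hirr := P7b_conn k L hcl _ ((S1a_g j).fromNormalization ≫ f) _ hu
  have hiso := S1a_iso f hsc (S1a_g j).fromNormalization h1 h2 hirr
  obtain ⟨U, hU, hx, _⟩ := hcov (genericPoint X)
  exact S1a_surj j hjfin U hU ⟨_, hx⟩

end Pool.Agent.LibHP
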