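import Pool.Agent.LibHPF.Defs
import Pool.Agent.LibHP.E2b

/-! # Row P8a: the norm argument

`𝔮` is the centre of `C` for one of the embeddings `ψ i`.

Plan. As `exists_embedding_aux` in LibHP/E2b.lean, but simpler. Regard `Ω` as a `K`-algebra by `s`
and the `ψ i` as `K`-algebra homomorphisms; there are `finrank K L` of them, so
`s (Algebra.norm K x) = ∏ i, ψ i x` (theorem `norm_eq_prod` in E2b.lean). For every `b` in
`B := integralClosure O L`: `ψ i b ∈ C` (integral over `s (algebraMap O K a) ∈ C`, and `C` is
integrally closed: `ValuationSubring` is integrally closed in `Ω`: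
`IsIntegrallyClosed.isIntegral_iff` for `C` with fraction field `Ω`). So
`𝔭 i := {b : B | C.valuation (ψ i b) < 1}` is a prime ideal of `B` (`Ideal.comap` of the maximal
ideal of `C` under `B → C`), lying over the maximal ideal of `O` because
`C.valuation (s (algebraMap O K π)) < 1`; hence maximal (`B` integral over `O`:
`Ideal.isMaximal_of_isIntegral_of_isMaximal_comap`). Suppose `𝔮 ≠ 𝔭 i` for all `i`. Then `𝔮` is not
contained in any `𝔭 i` (both maximal), so by prime avoidance (`Ideal.subset_union_prime` with
`Finset.univ`) there is `b ∈ 𝔮` in no `𝔭 i`: `C.valuation (ψ i b) = 1` for all `i`, so the value of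
`s (norm b)` is `1`. But `norm b` is in the maximal ideal of `O`: it is integral over `O`
(`Algebra.isIntegral_norm`) hence in `O` (integrally closed), and it is a nonunit, because
`b ∣ algebraMap (norm b)` in `B` (the cofactor is `norm b / b ∈ L` and integral: product of other
conjugates; or: the constant coefficient of the characteristic polynomial of `b` is `± norm b`, and
`b` divides it: `Algebra.norm_eq...`/`LinearMap.aeval_self_charpoly` gives
`b * c + (±norm b) = 0` with `c ∈ B` a polynomial in `b` with coefficients in `O`), so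
`norm b ∈ 𝔮 ∩ O`, the maximal ideal. So its value under `s` is `< 1`: contradiction. -/

set_option autoImplicit false
open Polynomial

namespace Pool.Agent.LibHP

/-- elements integral over elements of value at most one have value at most one -/
private theorem p8a_le_one {Ω Γ : Type} [Field Ω] [LinearOrderedCommGroupWithZero Γ]
    (v : Valuation Ω Γ) {O : Type} [CommRing O] (φ : O →+* Ω)
    (hφ : ∀ a, v (φ a) ≤ 1) {f : Ω} (hf : φ.IsIntegralElem f) : v f ≤ 1 := by
  have hv : v.Integers v.integer := Valuation.integer.integers _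
  rw [← hv.isIntegral_iff_v_le_one]
  let φ' : O →+* v.integer := φ.codRestrict _ hφ
  obtain ⟨P, hP, hP'⟩ := hf
  refine ⟨P.map φ', hP.map _, ?_⟩
  rw [eval₂_map]
  exact hP'

theorem exists_emb_of_maximal (O K L Ω : Type) [CommRing O] [IsDomain O]
    [IsDiscreteValuationRing O] [Field K] [CharZero K] [Algebra O K] [IsFractionRing O K]
    [Field L] [Algebra K L] [Algebra O L] [IsScalarTower O K L] [FiniteDimensional K L] [Field Ω]
    (s : K →+* Ω) (ψ : Fin (Module.finrank K L) → (L →+* Ω)) (hψ : Function.Injective ψ)
    (hψs : ∀ i a, ψ i (algebraMap K L a) = s a)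
    (C : ValuationSubring Ω) (hC : ∀ a : O, s (algebraMap O K a) ∈ C)
    (π : O) (hπ : ∀ a : O, ¬ IsUnit a ↔ π ∣ a)
    (hπC : C.valuation (s (algebraMap O K π)) < 1)
    (𝔮 : Ideal (integralClosure O L)) (h𝔮 : 𝔮.IsMaximal) :
    ∃ i, ∀ b : integralClosure O L, ψ i b ∈ C ∧ (b ∈ 𝔮 ↔ C.valuation (ψ i b) < 1) := by
  classical
  have hφO : ∀ a : O, C.valuation (s (algebraMap O K a)) ≤ 1 := fun a =>
    (C.valuation_le_one_iff _).2 (hC a)
  have hψB : ∀ (i : Fin (Module.finrank K L)) (b : integralClosure O L),
      C.valuation (ψ i b) ≤ 1 := by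
    intro i b
    refine p8a_le_one C.valuation (s.comp (algebraMap O K)) hφO ?_
    obtain ⟨P, hP, hP0⟩ := b.2
    refine ⟨P, hP, ?_⟩
    have h1 := congrArg (ψ i) hP0
    rw [map_zero, hom_eval₂] at h1
    have h2 : s.comp (algebraMap O K) = (ψ i).comp (algebraMap O L) := by
      refine RingHom.ext fun a => ?_
      change s (algebraMap O K a) = ψ i (algebraMap O L a)
      rw [IsScalarTower.algebraMap_apply O K L, hψs]
    rw [h2]
    exact h1
  -- the prime ideals
  let Q : Fin (Module.finrank K L) → Ideal (integralClosure O L) := fun i =>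
    { carrier := {b | C.valuation (ψ i b) < 1}
      add_mem' := fun {a b} ha hb => by
        simp only [Set.mem_ofPred_eq, Subalgebra.coe_add, map_add] at ha hb ⊢
        exact C.valuation.map_add_lt ha hb
      zero_mem' := by simp
      smul_mem' := fun c x hx => by
        simp only [Set.mem_ofPred_eq, smul_eq_mul, Subalgebra.coe_mul, map_mul] at hx ⊢
        exact mul_lt_of_le_one_of_lt (hψB i c) hx }
  have hQ : ∀ i b, b ∈ Q i ↔ C.valuation (ψ i b) < 1 := fun i b => Iff.rfl
  have hQprime : ∀ i, (Q i).IsPrime := by
    intro i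
    refine ⟨?_, ?_⟩
    · rw [Ne, Ideal.eq_top_iff_one, hQ]
      simp
    · intro a b hab
      rw [hQ] at hab
      rw [hQ, hQ]
      by_contra hcon
      push Not at hcon
      have h1 := le_antisymm (hψB i a) hcon.1
      have h2 := le_antisymm (hψB i b) hcon.2
      rw [Subalgebra.coe_mul, map_mul, map_mul, h1, h2, one_mul] at hab
      exact lt_irrefl _ hab
  have hOint : Algebra.IsIntegral O (integralClosure O L) := inferInstance
  have hex : ∃ i, 𝔮 = Q i := by
    by_contra hcon
    push Not at hcon
    have hnot : ¬ ((𝔮 : Set (integralClosure O L)) ⊆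
        ⋃ i ∈ (↑(Finset.univ : Finset (Fin (Module.finrank K L))) :
          Set (Fin (Module.finrank K L))), Q i) := by
      intro hsub
      have i₀ : Fin (Module.finrank K L) := ⟨0, Module.finrank_pos⟩
      rw [Ideal.subset_union_prime i₀ i₀ (fun i _ _ _ => hQprime i)] at hsub
      obtain ⟨i, -, hi⟩ := hsub
      exact hcon i (h𝔮.eq_of_le (hQprime i).ne_top hi)
    rw [Set.not_subset] at hnot
    obtain ⟨b, hb𝔮, hbQ⟩ := hnot
    have hbv : ∀ i, C.valuation (ψ i b) = 1 := by
      intro i
      refine le_antisymm (hψB i b) ?_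
      by_contra hlt
      rw [not_le] at hlt
      exact hbQ (Set.mem_biUnion (x := i) (by simp) hlt)
    have hnorm : C.valuation (s (Algebra.norm K (b : L))) = 1 := by
      rw [norm_eq_prod K L Ω s ψ hψs hψ (Fintype.card_fin _), map_prod]
      exact Finset.prod_eq_one fun i _ => hbv i
    have hfin : Module.Finite O (integralClosure O L) :=
      IsIntegralClosure.finite O K L (integralClosure O L)
    have : IsIntegrallyClosed (integralClosure O L) :=
      integralClosure.isIntegrallyClosedOfFiniteExtension K
    have : Module.IsTorsionFree O (integralClosure O L) := by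
      have : FaithfulSMul O L := by
        rw [faithfulSMul_iff_algebraMap_injective, IsScalarTower.algebraMap_eq O K L]
        exact (algebraMap K L).injective.comp (IsFractionRing.injective O K)
      infer_instance
    have hN := Algebra.algebraMap_intNorm (A := O) (K := K) (L := L) (B := integralClosure O L) b
    have hdvd := Algebra.dvd_algebraMap_intNorm_self (A := O) (B := integralClosure O L) b
    have hN𝔮 : algebraMap O (integralClosure O L) (Algebra.intNorm O (integralClosure O L) b) ∈ 𝔮 :=
      𝔮.mem_of_dvd hdvd hb𝔮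
    have hnu : ¬ IsUnit (Algebra.intNorm O (integralClosure O L) b) := by
      intro hu
      exact h𝔮.ne_top (Ideal.eq_top_of_isUnit_mem _ hN𝔮 (hu.map _))
    rw [hπ] at hnu
    obtain ⟨c, hc⟩ := hnu
    rw [hc] at hN
    have : (algebraMap (integralClosure O L) L b) = (b : L) := rfl
    rw [this] at hN
    rw [← hN, map_mul, map_mul, map_mul] at hnorm
    exact absurd hnorm (mul_lt_of_lt_of_le_one hπC (hφO c)).ne
  obtain ⟨i, rfl⟩ := hex
  exact ⟨i, fun b => ⟨(C.valuation_le_one_iff _).1 (hψB i b), Iff.rfl⟩⟩

end Pool.Agent.LibHP
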