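import Pool.Agent.LibHPF.P8a

/-! # Row P8b: the ramification index divides the multiplicity

Plan. `exists_emb_of_maximal` gives `i` with `𝔮` = centre of `C` under `ψ i`. `π0` and `π` are
associated in `O` (both generate the maximal ideal: `(hπ π0).1 hπ0.not_isUnit` gives `π0 = π * v`,
`v` a unit, as in `dvd_of_curve`, LibHP/E2.lean). Apply `ψ i` to `heq` (in `L`):
`s(π) * ψ(v t) * ψ(s0)^e = ψ(b) * ψ(a)^e`; the elements `ψ(v t)`, `ψ(s0)`, `ψ(b)` are units of `C`
(value `1`: they are outside `𝔮`), and `s(π) = u ϖ^m`. `ψ(a) ∈ C` is nonzero (else `s(π) = 0`), so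
`ψ(a) = u' ϖ^c` by `IsUnif`. Hence `ϖ^m = unit * ϖ^(c e)`, so `m = c e` (`ϖ` is not a unit of `C`:
if `m < c e` then `ϖ^(c e - m)` would be a unit of `C`, so `ϖ` too; same for `>`). -/

set_option autoImplicit false
open Polynomial

namespace Pool.Agent.LibHP

theorem dvd_of_div (O K L Ω : Type) [CommRing O] [IsDomain O]
    [IsDiscreteValuationRing O] [Field K] [CharZero K] [Algebra O K] [IsFractionRing O K]
    [Field L] [Algebra K L] [Algebra O L] [IsScalarTower O K L] [FiniteDimensional K L] [Field Ω]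
    (s : K →+* Ω) (ψ : Fin (Module.finrank K L) → (L →+* Ω)) (hψ : Function.Injective ψ)
    (hψs : ∀ i a, ψ i (algebraMap K L a) = s a)
    (C : ValuationSubring Ω) (ϖ : Ω) (hϖ : IsUnif C ϖ)
    (hC : ∀ a : O, s (algebraMap O K a) ∈ C)
    (π : O) (hπ : ∀ a : O, ¬ IsUnit a ↔ π ∣ a) (m : ℕ) (hm : 1 ≤ m) (u : Ω) (hu : u ∈ C)
    (hu' : u⁻¹ ∈ C) (hπu : s (algebraMap O K π) = u * ϖ ^ m)
    (𝔮 : Ideal (integralClosure O L)) (h𝔮 : 𝔮.IsMaximal)
    (π0 : O) (hπ0 : Irreducible π0) (e : ℕ) (a b s0 t : integralClosure O L)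
    (hb : b ∉ 𝔮) (hs : s0 ∉ 𝔮) (ht : t ∉ 𝔮)
    (heq : algebraMap O (integralClosure O L) π0 * t * s0 ^ e = b * a ^ e) : e ∣ m := by
  have hunit1 : ∀ x : Ω, x ≠ 0 → x ∈ C → x⁻¹ ∈ C → C.valuation x = 1 := by
    intro x hx0 hx hx'
    have h1 := (C.valuation_le_one_iff x).2 hx
    have h2 := (C.valuation_le_one_iff x⁻¹).2 hx'
    rw [map_inv₀] at h2
    have h3 : C.valuation x ≠ 0 := (Valuation.ne_zero_iff _).2 hx0
    refine le_antisymm h1 ?_
    have h4 := (inv_le_one₀ (zero_lt_iff.2 h3)).1 h2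
    exact h4
  obtain ⟨hϖC, hϖ0, hϖi, hϖu⟩ := hϖ
  have hπ0' : π ≠ 0 := by
    rintro rfl
    have h1 := (hπ π0).1 hπ0.not_isUnit
    exact hπ0.ne_zero (zero_dvd_iff.1 h1)
  have hsπ0 : s (algebraMap O K π) ≠ 0 := by
    rw [Ne, map_eq_zero]
    intro h
    exact hπ0' ((IsFractionRing.injective O K) (by rw [h, map_zero]))
  have hu0 : u ≠ 0 := by
    rintro rfl
    rw [zero_mul] at hπu
    exact hsπ0 hπu
  have hvu : C.valuation u = 1 := hunit1 u hu0 hu hu'
  have hvϖ : C.valuation ϖ < 1 := by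
    by_contra h
    apply hϖi
    rw [← C.valuation_le_one_iff, map_inv₀]
    have h3 : C.valuation ϖ ≠ 0 := (Valuation.ne_zero_iff _).2 hϖ0
    exact (inv_le_one₀ (zero_lt_iff.2 h3)).2 (not_lt.1 h)
  have hvϖ0 : C.valuation ϖ ≠ 0 := (Valuation.ne_zero_iff _).2 hϖ0
  have hvπ : C.valuation (s (algebraMap O K π)) = C.valuation ϖ ^ m := by
    rw [hπu, map_mul, map_pow, hvu, one_mul]
  have hπC : C.valuation (s (algebraMap O K π)) < 1 := by
    rw [hvπ]
    exact pow_lt_one₀ zero_le hvϖ (by omega)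
  obtain ⟨i, hi⟩ := exists_emb_of_maximal O K L Ω s ψ hψ hψs C hC π hπ hπC 𝔮 h𝔮
  have hval : ∀ x : integralClosure O L, x ∉ 𝔮 → C.valuation (ψ i x) = 1 := by
    intro x hx
    obtain ⟨h1, h2⟩ := hi x
    exact le_antisymm ((C.valuation_le_one_iff _).2 h1) (not_lt.1 fun h => hx (h2.2 h))
  -- `π0` and `π` are associated
  obtain ⟨v, hv⟩ := (hπ π0).1 hπ0.not_isUnit
  have hvu' : IsUnit v := (hπ0.isUnit_or_isUnit hv).resolve_left ((hπ π).2 dvd_rfl)
  have hvv : C.valuation (s (algebraMap O K v)) = 1 := by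
    obtain ⟨w, hw⟩ := hvu'
    have h1 : s (algebraMap O K v) * s (algebraMap O K (↑w⁻¹ : O)) = 1 := by
      rw [← map_mul, ← map_mul, ← hw, Units.mul_inv, map_one, map_one]
    have h0 : s (algebraMap O K v) ≠ 0 := left_ne_zero_of_mul_eq_one h1
    refine hunit1 _ h0 (hC v) ?_
    rw [inv_eq_of_mul_eq_one_right h1]
    exact hC _
  have hL : algebraMap O L π0 * (t : L) * (s0 : L) ^ e = (b : L) * (a : L) ^ e := by
    have h1 := congrArg (fun x : integralClosure O L => (x : L)) heq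
    push_cast at h1
    exact h1
  have hval2 := congrArg (fun x => C.valuation (ψ i x)) hL
  simp only [map_mul, map_pow] at hval2
  rw [hval t ht, hval s0 hs, hval b hb, one_pow, mul_one, mul_one, one_mul,
    IsScalarTower.algebraMap_apply O K L, hψs, hv, map_mul, map_mul, map_mul, hvv, mul_one,
    hvπ] at hval2
  have hψa0 : ψ i (a : L) ≠ 0 := by
    intro h
    rw [h, map_zero] at hval2
    rcases Nat.eq_zero_or_pos e with he | he
    · rw [he, pow_zero] at hval2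
      exact (pow_lt_one₀ zero_le hvϖ (by omega : m ≠ 0)).ne hval2
    · rw [zero_pow he.ne'] at hval2
      exact pow_ne_zero _ hvϖ0 hval2
  obtain ⟨c, u', hu1, hu2, hu3⟩ := hϖu _ (hi a).1 hψa0
  have hu'0 : u' ≠ 0 := by
    rintro rfl
    rw [zero_mul] at hu3
    exact hψa0 hu3
  rw [hu3, map_mul, map_pow, hunit1 u' hu'0 hu1 hu2, one_mul, ← pow_mul] at hval2
  have hinj := (pow_right_strictAnti₀ (zero_lt_iff.2 hvϖ0) hvϖ).injective hval2
  exact ⟨c, by rw [hinj, mul_comm]⟩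

end Pool.Agent.LibHP
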