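import Pool.Agent.LibHPF.Q6

set_option autoImplicit false
open MvPolynomial

namespace Pool.Agent.LibHP

variable {k : Type} [Field k] [CharZero k] {n : ℕ} {φ : Tens k n}

/-!
# Row Q7: lines through the generic point (Lemma B)

PLAN. First for a generic cone point `P` over an algebraically closed field `Ω` (`lemmaB_cone`).
Let `L 0 = Phi φ P P P`, `L 1 = Phi φ P P v`, `L 2 = Phi φ P v v`, `L 3 = Phi φ v v v` (functionals on
`Fin (n + 1) → Ω`), `R = {ρ : Fin 4 → Ω | ∀ a, ∑ i, ρ i * L i a = 0}` (a submodule). For `a` with `L 0 a = 0` let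
`δ` be a derivation with `δ P = a` (`exists_derivation_cone`) and `b = δ v`. Applying `δ` to the four equations
(`Phi_deriv`, symmetry):
`L 0 b = -3 * L 1 a`, `L 1 b = - L 2 a`, `L 2 b = - (1/3) * L 3 a`, `L 3 b = 0`.
So for `ρ ∈ R`: `0 = ∑ ρ i * L i b = -(3 ρ 0 * L 1 a + ρ 1 * L 2 a + (ρ 2 / 3) * L 3 a)` for all `a` in the
kernel of `L 0`. `L 0 ≠ 0` (as in `phi_ne`): choose `w0` with `L 0 w0 = 1`. Then with
`ν ρ = 3 ρ 0 * L 1 w0 + ρ 1 * L 2 w0 + (ρ 2 / 3) * L 3 w0` the vector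
`f ρ = ![-ν ρ, 3 * ρ 0, ρ 1, ρ 2 / 3]` is again in `R` (apply the above to `a - L 0 a • w0`). `f` is a linear
endomorphism of `Fin 4 → Ω` with `f R ⊆ R`. If `R ≠ ⊥`, `Module.End.exists_eigenvalue` for `f.restrict` gives
`ρ ∈ R`, `ρ ≠ 0`, `f ρ = x • ρ`: `3 * ρ 0 = x * ρ 1`, `ρ 1 = x * ρ 2`, `ρ 2 / 3 = x * ρ 3`; so
`ρ = ρ 3 • ![x^3, 3 x^2, 3 x, 1]`, `ρ 3 ≠ 0`, and
`x^3 * L 0 a + 3 x^2 * L 1 a + 3 x * L 2 a + L 3 a = Phi φ (x • P + v) (x • P + v) (x • P + v) a = 0`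
for all `a`: `x • P + v = 0` by `smooth4_ext`, contradiction with `hv`.
Then `lemmaB` from `exists_cone`: `P' = s • f P`, `v' = f v`, `ρ' = ![ρ 0 / s^3, ρ 1 / s^2, ρ 2 / s, ρ 3]`
(mapped by `f`).
-/

theorem Q7_ne (hs : Smooth4 φ) {Ω : Type} [Field Ω] [Algebra k Ω]
    (P : Fin (n + 1) → Ω) (hP : IsGenCone φ P) : ∃ w, Phi φ P P P w = 1 := by
  have h1 : ∃ a, Phi φ P P P a ≠ 0 := by
    by_contra hcon
    push Not at hcon
    have hP0 := smooth4_ext hs P hcon
    have h2 : FF φ ∣ (X 0 : MvPolynomial (Fin (n + 1)) k) := by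
      rw [← hP (X 0), aeval_X, hP0]
      rfl
    obtain ⟨H, hH⟩ := h2
    have hX : (X 0 : MvPolynomial (Fin (n + 1)) k) ≠ 0 := X_ne_zero 0
    have hF0 : FF φ ≠ 0 := by
      rintro h0
      rw [h0, zero_mul] at hH
      exact hX hH
    have hH0 : H ≠ 0 := by
      rintro h0
      rw [h0, mul_zero] at hH
      exact hX hH
    have h3 := congrArg MvPolynomial.totalDegree hH
    rw [totalDegree_X, totalDegree_mul_of_isDomain hF0 hH0,
      (isHomogeneous_FF φ).totalDegree hF0] at h3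
    omega
  obtain ⟨a, ha⟩ := h1
  refine ⟨(Phi φ P P P a)⁻¹ • a, ?_⟩
  rw [Phi_smul4, inv_mul_cancel₀ ha]

/-- the four derived equations -/
theorem Q7_der (hφ : IsSymm4 φ) {Ω : Type} [Field Ω] [Algebra k Ω]
    (P v : Fin (n + 1) → Ω) (hP : IsGenCone φ P)
    (h1 : Phi φ P P P v = 0) (h2 : Phi φ P P v v = 0) (h3 : Phi φ P v v v = 0)
    (h4 : Phi φ v v v v = 0) (a : Fin (n + 1) → Ω) (ha : Phi φ P P P a = 0) :
    ∃ b : Fin (n + 1) → Ω, Phi φ P P P b = -3 * Phi φ P P v a ∧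
      Phi φ P P v b = -Phi φ P v v a ∧ 3 * Phi φ P v v b = -Phi φ v v v a ∧
      Phi φ v v v b = 0 := by
  have : CharZero Ω := charZero_of_injective_algebraMap (algebraMap k Ω).injective
  obtain ⟨δ, hδ⟩ := exists_derivation_cone hφ P a hP ha
  have hδP : (fun i => δ (P i)) = a := funext hδ
  refine ⟨fun i => δ (v i), ?_, ?_, ?_, ?_⟩
  · have e := Phi_deriv φ δ P P P v
    rw [h1, map_zero, hδP] at e
    rw [Phi_comm12 hφ a P P v, Phi_comm23 hφ P a P v, Phi_comm34 hφ P P a v] at e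
    linear_combination -e
  · have e := Phi_deriv φ δ P P v v
    rw [h2, map_zero, hδP] at e
    rw [Phi_comm12 hφ a P v v, Phi_comm23 hφ P a v v, Phi_comm34 hφ P v a v,
      Phi_comm34 hφ P P _ v] at e
    linear_combination (-1 / 2 : Ω) * e
  · have e := Phi_deriv φ δ P v v v
    rw [h3, map_zero, hδP] at e
    rw [Phi_comm12 hφ a v v v, Phi_comm23 hφ v a v v, Phi_comm34 hφ v v a v,
      Phi_comm23 hφ P _ v v, Phi_comm34 hφ P v _ v] at e
    linear_combination -e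
  · have e := Phi_deriv4 hφ δ v
    rw [h4, map_zero] at e
    have h5 : (4 : Ω) ≠ 0 := by norm_num
    exact (mul_eq_zero.1 e.symm).resolve_left h5

theorem Q7_cube (hφ : IsSymm4 φ) {Ω : Type} [Field Ω] [Algebra k Ω]
    (P v a : Fin (n + 1) → Ω) (x : Ω) :
    Phi φ (x • P + v) (x • P + v) (x • P + v) a =
      x ^ 3 * Phi φ P P P a + 3 * x ^ 2 * Phi φ P P v a + 3 * x * Phi φ P v v a +
        Phi φ v v v a := by
  simp only [Phi_add1, Phi_add2, Phi_add3, Phi_smul1, Phi_smul2, Phi_smul3]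
  have e1 : Phi φ P v P a = Phi φ P P v a := Phi_comm23 hφ _ _ _ _
  have e2 : Phi φ v P P a = Phi φ P P v a := by rw [Phi_comm12 hφ v P P a, e1]
  have e3 : Phi φ v P v a = Phi φ P v v a := Phi_comm12 hφ _ _ _ _
  have e4 : Phi φ v v P a = Phi φ P v v a := by rw [Phi_comm23 hφ v v P a, e3]
  rw [e1, e2, e3, e4]
  ring

theorem lemmaB_cone (hφ : IsSymm4 φ) (hs : Smooth4 φ) {Ω : Type} [Field Ω] [Algebra k Ω]
    [IsAlgClosed Ω] (P v : Fin (n + 1) → Ω) (hP : IsGenCone φ P)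
    (h1 : Phi φ P P P v = 0) (h2 : Phi φ P P v v = 0) (h3 : Phi φ P v v v = 0)
    (h4 : Phi φ v v v v = 0) (hv : ∀ c : Ω, v ≠ c • P) (ρ : Fin 4 → Ω)
    (hρ : ∀ a, ρ 0 * Phi φ P P P a + ρ 1 * Phi φ P P v a + ρ 2 * Phi φ P v v a +
      ρ 3 * Phi φ v v v a = 0) : ρ = 0 := by
  have : CharZero Ω := charZero_of_injective_algebraMap (algebraMap k Ω).injective
  have h30 : (3 : Ω) ≠ 0 := by norm_num
  obtain ⟨w, hw⟩ := Q7_ne hs P hP
  let R : Submodule Ω (Fin 4 → Ω) :=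
    { carrier := {ρ | ∀ a, ρ 0 * Phi φ P P P a + ρ 1 * Phi φ P P v a + ρ 2 * Phi φ P v v a +
        ρ 3 * Phi φ v v v a = 0}
      add_mem' := by
        intro ρ ρ' h h' a
        simp only [Pi.add_apply]
        linear_combination h a + h' a
      zero_mem' := by
        intro a
        simp
      smul_mem' := by
        intro c ρ h a
        simp only [Pi.smul_apply, smul_eq_mul]
        linear_combination c * h a }
  let f : (Fin 4 → Ω) →ₗ[Ω] (Fin 4 → Ω) :=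
    { toFun := fun ρ => ![-(3 * ρ 0 * Phi φ P P v w + ρ 1 * Phi φ P v v w +
        ρ 2 / 3 * Phi φ v v v w), 3 * ρ 0, ρ 1, ρ 2 / 3]
      map_add' := by
        intro ρ ρ'
        ext i
        fin_cases i <;> simp <;> ring
      map_smul' := by
        intro c ρ
        ext i
        fin_cases i <;> simp <;> ring }
  have hf : ∀ ρ ∈ R, f ρ ∈ R := by
    intro ρ hρR
    have key : ∀ a, Phi φ P P P a = 0 →
        3 * ρ 0 * Phi φ P P v a + ρ 1 * Phi φ P v v a + ρ 2 / 3 * Phi φ v v v a = 0 := by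
      intro a ha
      obtain ⟨b, b1, b2, b3, b4⟩ := Q7_der hφ P v hP h1 h2 h3 h4 a ha
      have hb := hρR b
      have b3' : Phi φ P v v b = -(1 / 3) * Phi φ v v v a := by
        field_simp
        linear_combination b3
      rw [b1, b2, b3', b4] at hb
      linear_combination -hb
    intro a
    have ha : Phi φ P P P (a - Phi φ P P P a • w) = 0 := by
      rw [Phi_sub4, Phi_smul4, hw]
      ring
    have h5 := key _ ha
    simp only [Phi_sub4, Phi_smul4] at h5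
    change -(3 * ρ 0 * Phi φ P P v w + ρ 1 * Phi φ P v v w + ρ 2 / 3 * Phi φ v v v w) *
      Phi φ P P P a + 3 * ρ 0 * Phi φ P P v a + ρ 1 * Phi φ P v v a +
      ρ 2 / 3 * Phi φ v v v a = 0
    linear_combination h5
  by_contra hne
  have hRne : Nontrivial R := by
    refine ⟨⟨⟨ρ, hρ⟩, 0, fun h => hne ?_⟩⟩
    exact congrArg Subtype.val h
  obtain ⟨x, hx⟩ := Module.End.exists_eigenvalue (f.restrict hf)
  obtain ⟨τ, hτ⟩ := hx.exists_hasEigenvector
  have e0 := hτ.apply_eq_smul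
  have hτ0 : (τ : Fin 4 → Ω) ≠ 0 := fun h => hτ.2 (Subtype.ext h)
  have e1 : f (τ : Fin 4 → Ω) = x • (τ : Fin 4 → Ω) := by
    have := congrArg Subtype.val e0
    exact this
  have c1 : 3 * (τ : Fin 4 → Ω) 0 = x * (τ : Fin 4 → Ω) 1 := congrFun e1 1
  have c2 : (τ : Fin 4 → Ω) 1 = x * (τ : Fin 4 → Ω) 2 := congrFun e1 2
  have c3 : (τ : Fin 4 → Ω) 2 / 3 = x * (τ : Fin 4 → Ω) 3 := congrFun e1 3
  have d2 : (τ : Fin 4 → Ω) 2 = 3 * x * (τ : Fin 4 → Ω) 3 := by
    field_simp at c3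
    linear_combination c3
  have d1 : (τ : Fin 4 → Ω) 1 = 3 * x ^ 2 * (τ : Fin 4 → Ω) 3 := by
    rw [c2, d2]
    ring
  have d0 : (τ : Fin 4 → Ω) 0 = x ^ 3 * (τ : Fin 4 → Ω) 3 := by
    have : 3 * (τ : Fin 4 → Ω) 0 = 3 * (x ^ 3 * (τ : Fin 4 → Ω) 3) := by
      rw [c1, d1]
      ring
    exact mul_left_cancel₀ h30 this
  have h33 : (τ : Fin 4 → Ω) 3 ≠ 0 := by
    intro h0
    apply hτ0
    funext i
    fin_cases i
    · change (τ : Fin 4 → Ω) 0 = 0
      rw [d0, h0, mul_zero]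
    · change (τ : Fin 4 → Ω) 1 = 0
      rw [d1, h0, mul_zero]
    · change (τ : Fin 4 → Ω) 2 = 0
      rw [d2, h0, mul_zero]
    · exact h0
  have hz : x • P + v = 0 := by
    apply smooth4_ext hs
    intro a
    rw [Q7_cube hφ]
    have h6 := τ.2 a
    have h7 : (τ : Fin 4 → Ω) 3 * (x ^ 3 * Phi φ P P P a + 3 * x ^ 2 * Phi φ P P v a +
        3 * x * Phi φ P v v a + Phi φ v v v a) = 0 := by
      rw [d0, d1, d2] at h6
      linear_combination h6
    exact (mul_eq_zero.1 h7).resolve_left h33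
  apply hv (-x)
  rw [neg_smul]
  exact eq_neg_of_add_eq_zero_right hz

theorem lemmaB (hφ : IsSymm4 φ) (hs : Smooth4 φ) {Ω : Type} [Field Ω] [Algebra k Ω]
    (P v : Fin (n + 1) → Ω) (hP : IsGenPt φ P)
    (h1 : Phi φ P P P v = 0) (h2 : Phi φ P P v v = 0) (h3 : Phi φ P v v v = 0)
    (h4 : Phi φ v v v v = 0) (hv : ∀ c : Ω, v ≠ c • P) (ρ : Fin 4 → Ω)
    (hρ : ∀ a, ρ 0 * Phi φ P P P a + ρ 1 * Phi φ P P v a + ρ 2 * Phi φ P v v a +
      ρ 3 * Phi φ v v v a = 0) : ρ = 0 := by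
  obtain ⟨Ω', _, _, _, f, s, hs0, hgen⟩ := exists_cone P hP
  set Q : Fin (n + 1) → Ω' := fun i => f (P i) with hQ
  set u : Fin (n + 1) → Ω' := fun i => f (v i) with hu
  have hP' : (fun i => s * f (P i)) = s • Q := by
    funext i
    rfl
  rw [hP'] at hgen
  have m1 : Phi φ Q Q Q u = 0 := by rw [hQ, hu, ← Phi_map φ f, h1, map_zero]
  have m2 : Phi φ Q Q u u = 0 := by rw [hQ, hu, ← Phi_map φ f, h2, map_zero]
  have m3 : Phi φ Q u u u = 0 := by rw [hQ, hu, ← Phi_map φ f, h3, map_zero]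
  have m4 : Phi φ u u u u = 0 := by rw [hu, ← Phi_map φ f, h4, map_zero]
  have g1 : ∀ i, f (ρ 0) * Phi φ Q Q Q (Pi.single i 1) + f (ρ 1) * Phi φ Q Q u (Pi.single i 1) +
      f (ρ 2) * Phi φ Q u u (Pi.single i 1) + f (ρ 3) * Phi φ u u u (Pi.single i 1) = 0 := by
    intro i
    have h5 := congrArg f (hρ (Pi.single i 1))
    have h6 : (fun j => f ((Pi.single i (1 : Ω) : Fin (n + 1) → Ω) j)) =
        (Pi.single i (1 : Ω') : Fin (n + 1) → Ω') := by
      funext j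
      by_cases h : j = i
      · subst h
        simp
      · rw [Pi.single_eq_of_ne h, Pi.single_eq_of_ne h, map_zero]
    simp only [map_add, map_mul, Phi_map, map_zero, h6] at h5
    exact h5
  have g2 : ∀ a, f (ρ 0) * Phi φ Q Q Q a + f (ρ 1) * Phi φ Q Q u a +
      f (ρ 2) * Phi φ Q u u a + f (ρ 3) * Phi φ u u u a = 0 := by
    intro a
    rw [Phi_eq_sum φ Q Q Q a, Phi_eq_sum φ Q Q u a, Phi_eq_sum φ Q u u a, Phi_eq_sum φ u u u a,
      Finset.mul_sum, Finset.mul_sum, Finset.mul_sum, Finset.mul_sum, ← Finset.sum_add_distrib,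
      ← Finset.sum_add_distrib, ← Finset.sum_add_distrib]
    refine Finset.sum_eq_zero fun i _ => ?_
    linear_combination a i * g1 i
  have hv' : ∀ c : Ω', u ≠ c • (s • Q) := by
    intro c hc
    have h0 := congrFun hc 0
    simp only [hu, hQ, Pi.smul_apply, smul_eq_mul, hP.1, map_one, mul_one] at h0
    apply hv (v 0)
    funext i
    apply f.injective
    have h7 := congrFun hc i
    simp only [hu, hQ, Pi.smul_apply, smul_eq_mul] at h7
    change f (v i) = f (v 0 * P i)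
    rw [map_mul, h7, h0]
    ring
  have hcone := lemmaB_cone hφ hs (s • Q) u hgen
    (by simp only [Phi_smul1, Phi_smul2, Phi_smul3, m1, mul_zero])
    (by simp only [Phi_smul1, Phi_smul2, m2, mul_zero])
    (by simp only [Phi_smul1, m3, mul_zero]) m4 hv'
    ![f (ρ 0) / s ^ 3, f (ρ 1) / s ^ 2, f (ρ 2) / s, f (ρ 3)] (by
      intro a
      have h8 := g2 a
      simp only [Phi_smul1, Phi_smul2, Phi_smul3, Matrix.cons_val_zero, Matrix.cons_val_one,
        Matrix.cons_val]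
      field_simp
      linear_combination h8)
  have k0 := congrFun hcone 0
  have k1 := congrFun hcone 1
  have k2 := congrFun hcone 2
  have k3 := congrFun hcone 3
  change f (ρ 0) / s ^ 3 = 0 at k0
  change f (ρ 1) / s ^ 2 = 0 at k1
  change f (ρ 2) / s = 0 at k2
  change f (ρ 3) = 0 at k3
  have inj : ∀ y : Ω, f y = 0 → y = 0 := fun y hy => f.injective (hy.trans (map_zero f).symm)
  have hs2 : s ^ 2 ≠ 0 := pow_ne_zero _ hs0
  have hs3 : s ^ 3 ≠ 0 := pow_ne_zero _ hs0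
  funext i
  fin_cases i
  · exact inj _ (by simpa [hs0, hs3] using k0)
  · exact inj _ (by simpa [hs0, hs2] using k1)
  · exact inj _ (by simpa [hs0] using k2)
  · exact inj _ k3

end Pool.Agent.LibHP
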