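import Pool.Agent.LibHPF.QD

set_option autoImplicit false
open MvPolynomial

namespace Pool.Agent.LibHP

/-! ### The residual point of the move, with values in `M(z_0, ..., z_n)` -/

section
variable {k : Type} [Field k] {n : ℕ} (φ : Tens k n) {M : Type} [Field M] [Algebra k M]

/-- The homogeneous coordinates of the moved point in `M(z_0, ..., z_n)`. -/
noncomputable def mvRF (P e W : Fin (n + 1) → M) : Fin (n + 1) → RF M (n + 1) :=
  mvz φ (fun i => algebraMap M (RF M (n + 1)) (P i)) (fun i => algebraMap M (RF M (n + 1)) (e i))
    (fun i => algebraMap M (RF M (n + 1)) (W i))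
    (fun i => algebraMap (MvPolynomial (Fin (n + 1)) M) (RF M (n + 1)) (X i))

end

end Pool.Agent.LibHP
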