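import Pool.Agent.LibHPF.Q7
import Pool.Agent.LibHPF.TD

set_option autoImplicit false
open MvPolynomial

namespace Pool.Agent.LibHP

variable {k : Type} [Field k] [CharZero k] {n : ℕ} {φ : Tens k n}

/-!
# Row T1: two derivation arguments

In both statements `x` is the generic point of the hypersurface. Replace `Ω` by an algebraic closure if needed
(it is not needed: `exists_derivation_pt` works over any field `Ω`).

PLAN of `tri_indep` (`L0 = Phi φ P P P`, `L1 = Phi φ P P x`, `L2 = Phi φ P x x`). Put `a = x` in `hρ`: `h1`, `h2`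
(up to symmetry) give `ρ 2 * Phi φ P x x x = 0`, so `ρ 2 = 0`. Let `b` be a vector with `Phi φ x x x b = 0`,
`b 0 = 0`; let `δ` be a derivation with `δ (x i) = b i` (`exists_derivation_pt`) and `a i = δ (P i)`. Apply `δ` to
`h0`: `4 L0 a = 0`; to `h1`: `3 L1 a + L0 b = 0` (`Phi_deriv` and symmetry). So
`0 = ρ 0 * L0 a + ρ 1 * L1 a = -(ρ 1 / 3) * L0 b`. Suppose `ρ 1 ≠ 0`: then `Phi φ P P P b = 0` for all `b` with
`Phi φ x x x b = 0` and `b 0 = 0`, hence for all `b` with `Phi φ x x x b = 0` (subtract `b 0 • x`; `x 0 = 1`,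
`Phi φ x x x x = 0` (`IsGenPt.self`), `Phi φ P P P x = 0`). `Phi φ x x x ≠ 0` (`phi_ne`), so there is `ν` with
`Phi φ P P P b = ν * Phi φ x x x b` for ALL `b`. At `b = P`: `0 = ν * Phi φ x x x P`, and
`Phi φ x x x P = Phi φ P x x x ≠ 0`, so `ν = 0`, so `Phi φ P P P b = 0` for all `b`, so `P = 0` by `smooth4_ext`,
contradiction with `h3`. So `ρ 1 = 0`, and `ρ 0 * Phi φ P P P a = 0` for all `a`, again `ρ 0 = 0` by `smooth4_ext`.

PLAN of `bad_indep` (`L0 = Phi φ x x x`, `L1 = Phi φ x x v`, `L2 = Phi φ x v v`, `L3 = Phi φ v v v`). If `ρ 2 = 0`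
then: if `ρ 1 ≠ 0`, `L1` vanishes on the kernel of `L0`, so `v = c • x` by `lemmaA'`, contradiction; so `ρ 1 = 0`
and `ρ 0 = 0` by `phi_ne`. Let `ρ 2 ≠ 0`. For `b` with `L0 b = 0`, `b 0 = 0` take `δ` with `δ (x i) = b i`, and
`w i = δ (v i)`. Apply `δ` to `h1 h2 h3`: `L0 w = -3 L1 b`, `L1 w = - L2 b`, `L2 w = -(1/3) L3 b`. The relation at `w`:
`3 ρ 0 * L1 b + ρ 1 * L2 b + (ρ 2 / 3) * L3 b = 0`. It holds also for `b = x` (`L1 x = L2 x = L3 x = 0` by `h1 h2 h3`),
so for all `b` with `L0 b = 0`, so (with `L0 w0 = 1` for some `w0`) there is `ν` such that for ALL `b`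
`3 ρ 0 * L1 b + ρ 1 * L2 b + (ρ 2 / 3) * L3 b = ν * L0 b`. At `b = v`: `L1 v = L2 v = L0 v = 0`, so
`L3 v = Phi φ v v v v = 0`. Now `lemmaB` (with `P := x`) applied to `![ρ 0, ρ 1, ρ 2, 0]` gives `ρ 2 = 0`,
contradiction.
-/

private theorem T1_all {R : Type} [Field R] [Algebra k R] (x e : Fin (n + 1) → R)
    (he : Phi φ x x x e ≠ 0) (hx0 : x 0 = 1) (hxx : Phi φ x x x x = 0)
    (f : (Fin (n + 1) → R) →ₗ[R] R) (hfx : f x = 0)
    (hf : ∀ b, Phi φ x x x b = 0 → b 0 = 0 → f b = 0) :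
    ∀ b, f b = Phi φ x x x b / Phi φ x x x e * f e := by
  have h1 : ∀ b, Phi φ x x x b = 0 → f b = 0 := by
    intro b hb
    have h2 := hf (b - b 0 • x) (by rw [Phi_sub4, Phi_smul4, hb, hxx]; ring)
      (by rw [Pi.sub_apply, Pi.smul_apply, smul_eq_mul, hx0, mul_one, sub_self])
    rw [map_sub, map_smul, hfx, smul_zero, sub_zero] at h2
    exact h2
  intro b
  have h2 := h1 (b - (Phi φ x x x b / Phi φ x x x e) • e) (by
    rw [Phi_sub4, Phi_smul4, div_mul_cancel₀ _ he, sub_self])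
  rw [map_sub, map_smul, smul_eq_mul] at h2
  exact sub_eq_zero.1 h2

theorem tri_indep (hφ : IsSymm4 φ) (hs : Smooth4 φ) {Ω : Type} [Field Ω] [Algebra k Ω]
    (x P : Fin (n + 1) → Ω) (hx : IsGenPt φ x) (h0 : Phi φ P P P P = 0)
    (h1 : Phi φ P P P x = 0) (h2 : Phi φ P P x x = 0) (h3 : Phi φ P x x x ≠ 0) (ρ : Fin 3 → Ω)
    (hρ : ∀ a, ρ 0 * Phi φ P P P a + ρ 1 * Phi φ P P x a + ρ 2 * Phi φ P x x a = 0) : ρ = 0 := by
  have : CharZero Ω := charZero_of_injective_algebraMap (algebraMap k Ω).injective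
  have hxx : Phi φ x x x x = 0 := hx.self
  have hP0 : P ≠ 0 := by
    intro h4
    apply h3
    rw [h4, Phi_comm12 hφ, Phi_comm23 hφ, Phi_comm34 hφ, Phi_zero4]
  have hr2 : ρ 2 = 0 := by
    have h4 := hρ x
    rw [h1, h2, mul_zero, mul_zero, zero_add, zero_add] at h4
    exact (mul_eq_zero.1 h4).resolve_right h3
  obtain ⟨i, hi⟩ := phi_ne hφ hs x hx
  have hr1 : ρ 1 = 0 := by
    by_contra hr1
    have hall := T1_all (φ := φ) x (Pi.single i 1) hi hx.1 hxx (PhiL φ P P P)
      (by rw [PhiL_apply]; exact h1) (fun b hb hb0 => by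
        obtain ⟨δ, hδ⟩ := exists_derivation_pt hφ x b hx hb hb0
        have hδx : (fun i => δ (x i)) = b := funext hδ
        have e0 := Phi_deriv4 hφ δ P
        rw [h0, map_zero] at e0
        have e0' : Phi φ P P P (fun i => δ (P i)) = 0 :=
          (mul_eq_zero.1 e0.symm).resolve_left (by norm_num)
        have e1 := Phi_deriv φ δ P P P x
        rw [h1, map_zero, hδx, Phi_comm12 hφ (fun i => δ (P i)) P P x,
          Phi_comm23 hφ P (fun i => δ (P i)) P x, Phi_comm34 hφ P P (fun i => δ (P i)) x] at e1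
        have e2 := hρ (fun i => δ (P i))
        rw [e0', hr2] at e2
        have e3 : ρ 1 * Phi φ P P x (fun i => δ (P i)) = 0 := by linear_combination e2
        have e4 := (mul_eq_zero.1 e3).resolve_left hr1
        rw [PhiL_apply]
        rw [e4] at e1
        linear_combination -e1)
    have h5 := hall P
    rw [PhiL_apply, PhiL_apply, h0] at h5
    have h6 : Phi φ x x x P ≠ 0 := by
      rw [Phi_comm34 hφ, Phi_comm23 hφ, Phi_comm12 hφ]
      exact h3
    have h7 : Phi φ P P P (Pi.single i 1) = 0 := by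
      rcases mul_eq_zero.1 h5.symm with h | h
      · rcases div_eq_zero_iff.1 h with h | h
        · exact absurd h h6
        · exact absurd h hi
      · exact h
    apply hP0
    refine smooth4_ext hs P fun a => ?_
    have h8 := hall a
    rw [PhiL_apply, PhiL_apply, h7, mul_zero] at h8
    exact h8
  have hr0 : ρ 0 = 0 := by
    by_contra hr0
    apply hP0
    refine smooth4_ext hs P fun a => ?_
    have h4 := hρ a
    rw [hr1, hr2, zero_mul, zero_mul, add_zero, add_zero] at h4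
    exact (mul_eq_zero.1 h4).resolve_left hr0
  funext j
  fin_cases j
  · exact hr0
  · exact hr1
  · exact hr2

theorem bad_indep (hφ : IsSymm4 φ) (hs : Smooth4 φ) {Ω : Type} [Field Ω] [Algebra k Ω]
    (x v : Fin (n + 1) → Ω) (hx : IsGenPt φ x) (h1 : Phi φ x x x v = 0)
    (h2 : Phi φ x x v v = 0) (h3 : Phi φ x v v v = 0) (hv : ∀ c : Ω, v ≠ c • x) (ρ : Fin 3 → Ω)
    (hρ : ∀ a, ρ 0 * Phi φ x x x a + ρ 1 * Phi φ x x v a + ρ 2 * Phi φ x v v a = 0) : ρ = 0 := by
  have : CharZero Ω := charZero_of_injective_algebraMap (algebraMap k Ω).injective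
  have hxx : Phi φ x x x x = 0 := hx.self
  obtain ⟨i, hi⟩ := phi_ne hφ hs x hx
  have hr2 : ρ 2 = 0 := by
    by_contra hr2
    obtain ⟨f, hf⟩ : ∃ f : (Fin (n + 1) → Ω) →ₗ[Ω] Ω, ∀ b, f b = 3 * ρ 0 * Phi φ x x v b +
        ρ 1 * Phi φ x v v b + ρ 2 / 3 * Phi φ v v v b := by
      refine ⟨(3 * ρ 0) • PhiL φ x x v + ρ 1 • PhiL φ x v v + (ρ 2 / 3) • PhiL φ v v v, fun b => ?_⟩
      simp only [LinearMap.add_apply, LinearMap.smul_apply, PhiL_apply, smul_eq_mul]
    have hall := T1_all (φ := φ) x (Pi.single i 1) hi hx.1 hxx f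
      (by
        rw [hf, Phi_comm34 hφ x x v x, Phi_comm34 hφ x v v x, Phi_comm23 hφ x v x v,
          Phi_comm34 hφ v v v x, Phi_comm23 hφ v v x v, Phi_comm12 hφ v x v v, h1, h2, h3]
        ring) (fun b hb hb0 => by
        obtain ⟨δ, hδ⟩ := exists_derivation_pt hφ x b hx hb hb0
        have hδx : (fun i => δ (x i)) = b := funext hδ
        have e1 := Phi_deriv φ δ x x x v
        rw [h1, map_zero, hδx, Phi_comm12 hφ b x x v, Phi_comm23 hφ x b x v,
          Phi_comm34 hφ x x b v] at e1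
        have e2 := Phi_deriv φ δ x x v v
        rw [h2, map_zero, hδx, Phi_comm12 hφ b x v v, Phi_comm23 hφ x b v v, Phi_comm34 hφ x v b v,
          Phi_comm34 hφ x x _ v] at e2
        have e3 := Phi_deriv φ δ x v v v
        rw [h3, map_zero, hδx, Phi_comm12 hφ b v v v, Phi_comm23 hφ v b v v, Phi_comm34 hφ v v b v,
          Phi_comm23 hφ x _ v v, Phi_comm34 hφ x v _ v] at e3
        have e4 := hρ (fun i => δ (v i))
        rw [hf]
        linear_combination -e4 - ρ 0 * e1 - ρ 1 / 2 * e2 - ρ 2 / 3 * e3)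
    have h5 := hall v
    rw [hf, h1, h2, h3] at h5
    have h6 : Phi φ v v v v = 0 := by
      have h7 : ρ 2 / 3 * Phi φ v v v v = 0 := by linear_combination h5
      rcases mul_eq_zero.1 h7 with h | h
      · rcases div_eq_zero_iff.1 h with h | h
        · exact absurd h hr2
        · exact absurd h (by norm_num)
      · exact h
    have h8 := lemmaB hφ hs x v hx h1 h2 h3 h6 hv ![ρ 0, ρ 1, ρ 2, 0] (fun a => by
      have h9 := hρ a
      change ρ 0 * Phi φ x x x a + ρ 1 * Phi φ x x v a + ρ 2 * Phi φ x v v a +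
        0 * Phi φ v v v a = 0
      linear_combination h9)
    exact hr2 (congrFun h8 2)
  have hr1 : ρ 1 = 0 := by
    by_contra hr1
    obtain ⟨c, hc⟩ := lemmaA' hφ hs x v hx (fun a ha => by
      have h4 := hρ a
      rw [ha, hr2, mul_zero, zero_mul, add_zero, zero_add] at h4
      exact (mul_eq_zero.1 h4).resolve_left hr1)
    exact hv c hc
  have hr0 : ρ 0 = 0 := by
    have h4 := hρ (Pi.single i 1)
    rw [hr1, hr2, zero_mul, zero_mul, add_zero, add_zero] at h4
    exact (mul_eq_zero.1 h4).resolve_right hi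
  funext j
  fin_cases j
  · exact hr0
  · exact hr1
  · exact hr2

end Pool.Agent.LibHP
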