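import Pool.Agent.LibHPF.T7
import Pool.Agent.LibHPF.TD

set_option autoImplicit false
open MvPolynomial

namespace Pool.Agent.LibHP

/-!
# Row T10a: the local rings of the affine part are integral

NOTATION. `m2 = mn2 A = A0 A3 - A1 A2`, `m3 = mn3 A = A0 A2 - A1 ^ 2`, `affI A = span {dh m3, dh m2}`, an ideal of
`Ω[Y] = MvPolynomial (Fin 3) Ω`; `dh : X 0 ↦ 1, X i.succ ↦ X i`.

PLAN. A maximal ideal of `Ω[Y] ⧸ affI A` pulls back to a maximal ideal of `Ω[Y]`, the ideal of a point `z'`
(`MvPolynomial.isMaximal_iff_eq_vanishingIdeal_singleton`); put `z = Fin.cons 1 z'`, so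
`eval z' (dh G) = eval z G`. As `affI A` is contained in it, `m3(z) = m2(z) = 0`. By `h1` the gradients of `m3`, `m2` at
`z` (four entries) are independent; since `∑ i, z i * ∂_i m (z) = (deg m) * m(z) = 0` (Euler's identity; `m3`, `m2` are
homogeneous of degrees 4, 5) and `z 0 = 1`, also the gradients without the entry `0` are independent (a relation
between them is a relation between the full gradients), and these are the gradients of `dh m3`, `dh m2` at
`z'`: `pderiv i (dh G) = dh (pderiv i.succ G)` (by induction on `G`). Now `local_domain` (row T7) with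
`N = 3`, `e = 2`, `g = ![dh m3, dh m2]`, applied to representatives of `f`, `g`, and map `s` to the quotient.
-/

theorem T10a_eval_dh {Ω : Type} [Field Ω] (z' : Fin 3 → Ω) (G : MvPolynomial (Fin 4) Ω) :
    eval z' (dh G) = eval (Fin.cons 1 z' : Fin 4 → Ω) G := by
  induction G using MvPolynomial.induction_on with
  | C a => simp [dh]
  | add p q hp hq => rw [map_add, map_add, map_add, hp, hq]
  | mul_X p i hp =>
    rw [map_mul, map_mul, map_mul, hp, eval_X]
    congr 1
    refine Fin.cases ?_ (fun j => ?_) i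
    · simp [dh]
    · simp [dh]

theorem T10a_pderiv_dh {Ω : Type} [Field Ω] (j : Fin 3) (G : MvPolynomial (Fin 4) Ω) :
    pderiv j (dh G) = dh (pderiv j.succ G) := by
  induction G using MvPolynomial.induction_on with
  | C a => simp [dh]
  | add p q hp hq => rw [map_add, map_add, map_add, map_add, hp, hq]
  | mul_X p i hp =>
    rw [map_mul, Derivation.leibniz, Derivation.leibniz, hp, map_add]
    simp only [smul_eq_mul, map_mul]
    congr 2
    refine Fin.cases ?_ (fun i => ?_) i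
    · have h0 : pderiv j.succ (X (0 : Fin 4) : MvPolynomial (Fin 4) Ω) = 0 :=
        pderiv_X_of_ne (Fin.succ_ne_zero j).symm
      rw [h0, map_zero]
      simp [dh]
    · by_cases hij : i = j
      · subst hij
        simp [dh]
      · have h0 : pderiv j.succ (X i.succ : MvPolynomial (Fin 4) Ω) = 0 :=
          pderiv_X_of_ne (fun h => hij (Fin.succ_injective _ h))
        have h1 : pderiv j (X i : MvPolynomial (Fin 3) Ω) = 0 := pderiv_X_of_ne hij
        rw [h0, map_zero]
        simp only [dh, aeval_X, Fin.cons_succ]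
        exact h1

theorem T10a_hom3 {Ω : Type} [Field Ω] (A : Fin 4 → MvPolynomial (Fin 4) Ω)
    (hA : ∀ a : Fin 4, (A a).IsHomogeneous (a.val + 1)) : (mn3 A).IsHomogeneous 4 := by
  unfold mn3
  have h02 : (A 0 * A 2).IsHomogeneous 4 := (hA 0).mul (hA 2)
  have h11 : (A 1 ^ 2).IsHomogeneous 4 := (hA 1).pow 2
  exact h02.sub h11

theorem T10a_hom2 {Ω : Type} [Field Ω] (A : Fin 4 → MvPolynomial (Fin 4) Ω)
    (hA : ∀ a : Fin 4, (A a).IsHomogeneous (a.val + 1)) : (mn2 A).IsHomogeneous 5 := by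
  unfold mn2
  have h02 : (A 0 * A 3).IsHomogeneous 5 := (hA 0).mul (hA 3)
  have h11 : (A 1 * A 2).IsHomogeneous 5 := (hA 1).mul (hA 2)
  exact h02.sub h11

/-- Euler's identity at a zero with first coordinate `1`. -/
theorem T10a_euler {Ω : Type} [Field Ω] (z' : Fin 3 → Ω) (G : MvPolynomial (Fin 4) Ω) (d : ℕ)
    (hG : G.IsHomogeneous d) (h0 : eval (Fin.cons 1 z' : Fin 4 → Ω) G = 0) :
    eval (Fin.cons 1 z' : Fin 4 → Ω) (pderiv 0 G) =
      -∑ j : Fin 3, z' j * eval (Fin.cons 1 z' : Fin 4 → Ω) (pderiv j.succ G) := by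
  have h := congrArg (eval (Fin.cons 1 z' : Fin 4 → Ω)) hG.sum_X_mul_pderiv
  rw [map_sum, map_nsmul, h0, smul_zero, Fin.sum_univ_succ] at h
  simp only [map_mul, eval_X, Fin.cons_zero, one_mul, Fin.cons_succ] at h
  exact eq_neg_of_add_eq_zero_left h

theorem aff_local (Ω : Type) [Field Ω] [IsAlgClosed Ω] (A : Fin 4 → MvPolynomial (Fin 4) Ω)
    (hA : ∀ a : Fin 4, (A a).IsHomogeneous (a.val + 1))
    (h1 : ∀ z : Fin 4 → Ω, z 0 ≠ 0 → eval z (mn3 A) = 0 → eval z (mn2 A) = 0 →
      LinearIndependent Ω ![fun i => eval z (pderiv i (mn3 A)),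
        fun i => eval z (pderiv i (mn2 A))])
    (m : Ideal (MvPolynomial (Fin 3) Ω ⧸ affI A)) (hm : m.IsMaximal)
    (f g : MvPolynomial (Fin 3) Ω ⧸ affI A) (hfg : f * g = 0) :
    ∃ s, s ∉ m ∧ (s * f = 0 ∨ s * g = 0) := by
  have hM : (m.comap (Ideal.Quotient.mk (affI A))).IsMaximal :=
    Ideal.comap_isMaximal_of_surjective _ Ideal.Quotient.mk_surjective
  obtain ⟨z', hz'⟩ := (isMaximal_iff_eq_vanishingIdeal_singleton (K := Ω)).1 hM
  have hmem : ∀ p : MvPolynomial (Fin 3) Ω, Ideal.Quotient.mk (affI A) p ∈ m ↔ eval z' p = 0 := by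
    intro p
    rw [← Ideal.mem_comap, hz', mem_vanishingIdeal_singleton_iff, aeval_eq_eval]
  have hz0 : ∀ p ∈ affI A, eval z' p = 0 := by
    intro p hp
    rw [← hmem, Ideal.Quotient.eq_zero_iff_mem.2 hp]
    exact m.zero_mem
  set z : Fin 4 → Ω := Fin.cons 1 z' with hz
  have hm3 : eval z (mn3 A) = 0 := by
    rw [hz, ← T10a_eval_dh]
    exact hz0 _ (Ideal.subset_span (by simp))
  have hm2 : eval z (mn2 A) = 0 := by
    rw [hz, ← T10a_eval_dh]
    exact hz0 _ (Ideal.subset_span (by simp))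
  have hli := h1 z (by rw [hz, Fin.cons_zero]; exact one_ne_zero) hm3 hm2
  rw [LinearIndependent.pair_iff] at hli
  have hgr : Set.range ![dh (mn3 A), dh (mn2 A)] = {dh (mn3 A), dh (mn2 A)} := by
    rw [Matrix.range_cons, Matrix.range_cons, Matrix.range_empty, Set.union_empty]
    rfl
  have hJ : LinearIndependent Ω (fun (i : Fin 2) (j : Fin 3) =>
      eval z' (pderiv j ((![dh (mn3 A), dh (mn2 A)] : Fin 2 → MvPolynomial (Fin 3) Ω) i))) := by
    have he : (fun (i : Fin 2) (j : Fin 3) =>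
      eval z' (pderiv j ((![dh (mn3 A), dh (mn2 A)] : Fin 2 → MvPolynomial (Fin 3) Ω) i))) =
      ![fun j : Fin 3 => eval z (pderiv j.succ (mn3 A)),
        fun j : Fin 3 => eval z (pderiv j.succ (mn2 A))] := by
      funext i j
      fin_cases i
      · simp only [Fin.zero_eta, Matrix.cons_val_zero]
        rw [T10a_pderiv_dh, T10a_eval_dh]
      · simp only [Fin.mk_one, Matrix.cons_val_one, Matrix.cons_val_fin_one]
        rw [T10a_pderiv_dh, T10a_eval_dh]
    rw [he, LinearIndependent.pair_iff]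
    intro s t hst
    apply hli
    have hst' : ∀ j : Fin 3, s * eval z (pderiv j.succ (mn3 A)) +
        t * eval z (pderiv j.succ (mn2 A)) = 0 := fun j => congrFun hst j
    funext i
    refine Fin.cases ?_ (fun j => ?_) i
    · change s * eval z (pderiv 0 (mn3 A)) + t * eval z (pderiv 0 (mn2 A)) = 0
      rw [hz] at hst' hm3 hm2 ⊢
      rw [T10a_euler z' _ 4 (T10a_hom3 A hA) hm3, T10a_euler z' _ 5 (T10a_hom2 A hA) hm2]
      have : ∑ j : Fin 3, z' j * (s * eval (Fin.cons 1 z' : Fin 4 → Ω) (pderiv j.succ (mn3 A)) +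
        t * eval (Fin.cons 1 z' : Fin 4 → Ω) (pderiv j.succ (mn2 A))) = 0 :=
        Finset.sum_eq_zero fun j _ => by rw [hst' j, mul_zero]
      rw [← neg_eq_zero] at this
      rw [← this]
      simp only [Fin.sum_univ_three]
      ring
    · exact hst' j
  obtain ⟨F, rfl⟩ := Ideal.Quotient.mk_surjective f
  obtain ⟨G, rfl⟩ := Ideal.Quotient.mk_surjective g
  have hFG : F * G ∈ Ideal.span (Set.range ![dh (mn3 A), dh (mn2 A)]) := by
    rw [← map_mul, Ideal.Quotient.eq_zero_iff_mem] at hfg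
    rw [hgr]
    exact hfg
  have hzg : ∀ i, eval z' ((![dh (mn3 A), dh (mn2 A)] : Fin 2 → MvPolynomial (Fin 3) Ω) i) = 0 := by
    intro i
    fin_cases i
    · exact hz0 _ (Ideal.subset_span (by simp))
    · exact hz0 _ (Ideal.subset_span (by simp))
  obtain ⟨s, hs, hs'⟩ := local_domain Ω 3 2 ![dh (mn3 A), dh (mn2 A)] z' hzg hJ F G hFG
  rw [hgr] at hs'
  refine ⟨Ideal.Quotient.mk (affI A) s, fun h => hs ((hmem s).1 h), ?_⟩
  rw [← map_mul, ← map_mul, Ideal.Quotient.eq_zero_iff_mem, Ideal.Quotient.eq_zero_iff_mem]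
  exact hs'

end Pool.Agent.LibHP
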