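import Mathlib
import Pool.Agent.LibHPF.TD

set_option autoImplicit false
open MvPolynomial

namespace Pool.Agent.LibHP

/-!
# Row T8: dehomogenisation (only Mathlib)

`dh : MvPolynomial (Fin 4) Ω →ₐ[Ω] MvPolynomial (Fin 3) Ω`, `X 0 ↦ 1`, `X i.succ ↦ X i`.

PLAN.
`dh_inj`: `dh (monomial s c) = monomial (s without index 0) c`, and for homogeneous `G` of degree `d` the exponent
`s 0 = d - ∑ (others)` is determined by the other exponents. (Or: prove `G = ∑ e, X 0 ^ (d - e) *
rename Fin.succ (homogeneousComponent e (dh G))` for `G` homogeneous of degree `d`, on monomials.)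
`exists_dh`: `Q = ∑ e ∈ range (D + 1), X 0 ^ (D - e) * rename Fin.succ (homogeneousComponent e q)`.
`mem_of_dh`: `affI A = span {dh (mn3 A), dh (mn2 A)}`: `dh G = c3 * dh (mn3 A) + c2 * dh (mn2 A)`. `mn3 A`, `mn2 A` are
homogeneous of degrees 4 and 5 (`A a` of degree `a + 1`). Let `E` be large, `E + d ≥ 5 + totalDegree c3 + totalDegree c2`,
`C3`, `C2` homogeneous of degrees `E + d - 4`, `E + d - 5` with `dh C3 = c3`, `dh C2 = c2`. Then
`X 0 ^ E * G - (C3 * mn3 A + C2 * mn2 A)` is homogeneous of degree `E + d` and killed by `dh`, so it is zero: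
`X 0 ^ E * G ∈ detI A`, and `hreg` (`E` times) gives `G ∈ detI A`.
-/

private theorem T8_mono {Ω : Type} [Field Ω] (s : Fin 4 →₀ ℕ) (c : Ω) :
    dh (monomial s c) = monomial (Finsupp.tail s) c := by
  rw [dh, aeval_monomial, monomial_eq, Finsupp.prod_fintype _ _ (fun i => pow_zero _),
    Finsupp.prod_fintype _ _ (fun i => pow_zero _), Fin.prod_univ_succ]
  simp [Finsupp.tail_apply]

private theorem T8_X0 {Ω : Type} [Field Ω] : dh (X 0 : MvPolynomial (Fin 4) Ω) = 1 := by
  rw [dh, aeval_X]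
  rfl

private theorem T8_ren {Ω : Type} [Field Ω] (q : MvPolynomial (Fin 3) Ω) :
    dh (rename Fin.succ q) = q := by
  rw [dh, aeval_rename]
  have h : ((Fin.cons 1 X : Fin 4 → MvPolynomial (Fin 3) Ω) ∘ Fin.succ) = X := by
    funext i
    simp
  rw [h, aeval_X_left_apply]

private theorem T8_deg {s : Fin 4 →₀ ℕ} {d : ℕ} (h : Finsupp.weight (1 : Fin 4 → ℕ) s = d) :
    s 0 + ∑ i : Fin 3, s i.succ = d := by
  rw [Finsupp.weight_apply, Finsupp.sum_fintype _ _ (fun i => by simp), Fin.sum_univ_succ] at h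
  simpa using h

theorem dh_inj {Ω : Type} [Field Ω] (G : MvPolynomial (Fin 4) Ω) (d : ℕ) (hG : G.IsHomogeneous d)
    (h : dh G = 0) : G = 0 := by
  classical
  by_contra hne
  obtain ⟨t, ht⟩ := MvPolynomial.ne_zero_iff.1 hne
  have h1 : coeff (Finsupp.tail t) (dh G) = 0 := by rw [h, coeff_zero]
  rw [G.as_sum, map_sum, coeff_sum] at h1
  have h2 : ∑ s ∈ G.support, coeff (Finsupp.tail t) (dh (monomial s (coeff s G))) = coeff t G := by
    rw [Finset.sum_eq_single t]
    · rw [T8_mono, coeff_monomial, if_pos rfl]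
    · intro s hs hst
      rw [T8_mono, coeff_monomial, if_neg]
      intro h3
      apply hst
      have h4 : ∀ i : Fin 3, s i.succ = t i.succ := fun i => by
        have h5 := DFunLike.congr_fun h3 i
        simpa [Finsupp.tail_apply] using h5
      have h6 := T8_deg (hG (mem_support_iff.1 hs))
      have h7 := T8_deg (hG ht)
      have h8 : ∑ i : Fin 3, s i.succ = ∑ i : Fin 3, t i.succ :=
        Finset.sum_congr rfl fun i _ => h4 i
      ext j
      refine Fin.cases ?_ (fun i => h4 i) j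
      omega
    · intro h3
      exact absurd (mem_support_iff.2 ht) h3
  exact ht (h2.symm.trans h1)

theorem exists_dh {Ω : Type} [Field Ω] (q : MvPolynomial (Fin 3) Ω) (D : ℕ)
    (hD : q.totalDegree ≤ D) : ∃ Q : MvPolynomial (Fin 4) Ω, Q.IsHomogeneous D ∧ dh Q = q := by
  classical
  refine ⟨∑ e ∈ Finset.range (D + 1), X 0 ^ (D - e) *
    rename Fin.succ (homogeneousComponent e q), ?_, ?_⟩
  · refine IsHomogeneous.sum _ _ _ fun e he => ?_
    have h1 : (X 0 ^ (D - e) * rename Fin.succ (homogeneousComponent e q) :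
        MvPolynomial (Fin 4) Ω).IsHomogeneous ((D - e) + e) :=
      (isHomogeneous_X_pow _ _).mul (homogeneousComponent_isHomogeneous e q).rename_isHomogeneous
    have h2 : (D - e) + e = D := by
      have := Finset.mem_range.1 he
      omega
    rwa [h2] at h1
  · rw [map_sum]
    have h1 : ∀ e ∈ Finset.range (D + 1), dh (X 0 ^ (D - e) *
        rename Fin.succ (homogeneousComponent e q) : MvPolynomial (Fin 4) Ω) =
        homogeneousComponent e q := by
      intro e _
      rw [map_mul, map_pow, T8_X0, one_pow, one_mul, T8_ren]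
    rw [Finset.sum_congr rfl h1]
    conv_rhs => rw [← sum_homogeneousComponent q]
    refine (Finset.sum_subset (Finset.range_mono (by omega)) fun e _ he => ?_).symm
    refine homogeneousComponent_eq_zero _ _ ?_
    have := Finset.mem_range.not.1 he
    omega

theorem mem_of_dh {Ω : Type} [Field Ω] (A : Fin 4 → MvPolynomial (Fin 4) Ω)
    (hA : ∀ a : Fin 4, (A a).IsHomogeneous (a.val + 1))
    (hreg : ∀ f, X 0 * f ∈ detI A → f ∈ detI A) (G : MvPolynomial (Fin 4) Ω) (d : ℕ)
    (hG : G.IsHomogeneous d) (h : dh G ∈ affI A) : G ∈ detI A := by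
  classical
  obtain ⟨c3, c2, hc⟩ := Ideal.mem_span_pair.1 h
  have hA0 : (A 0).IsHomogeneous 1 := hA 0
  have hA1 : (A 1).IsHomogeneous 2 := hA 1
  have hA2 : (A 2).IsHomogeneous 3 := hA 2
  have hA3 : (A 3).IsHomogeneous 4 := hA 3
  have h3 : (mn3 A).IsHomogeneous 4 := (hA0.mul hA2).sub (hA1.pow 2)
  have h2 : (mn2 A).IsHomogeneous 5 := (hA0.mul hA3).sub (hA1.mul hA2)
  set E : ℕ := 5 + c3.totalDegree + c2.totalDegree with hE
  obtain ⟨C3, hC3, hd3⟩ := exists_dh c3 (E + d - 4) (by omega)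
  obtain ⟨C2, hC2, hd2⟩ := exists_dh c2 (E + d - 5) (by omega)
  have k3 : (C3 * mn3 A).IsHomogeneous (E + d) := by
    have h4 := hC3.mul h3
    have h5 : E + d - 4 + 4 = E + d := by omega
    rwa [h5] at h4
  have k2 : (C2 * mn2 A).IsHomogeneous (E + d) := by
    have h4 := hC2.mul h2
    have h5 : E + d - 5 + 5 = E + d := by omega
    rwa [h5] at h4
  have k1 : ((X 0 : MvPolynomial (Fin 4) Ω) ^ E * G).IsHomogeneous (E + d) :=
    (isHomogeneous_X_pow _ _).mul hG
  have hz : (X 0 : MvPolynomial (Fin 4) Ω) ^ E * G - (C3 * mn3 A + C2 * mn2 A) = 0 := by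
    refine dh_inj _ (E + d) (k1.sub (k3.add k2)) ?_
    rw [map_sub, map_add, map_mul, map_mul, map_mul, map_pow, T8_X0, one_pow, one_mul, hd3, hd2,
      hc, sub_self]
  have hmem : (X 0 : MvPolynomial (Fin 4) Ω) ^ E * G ∈ detI A := by
    rw [sub_eq_zero.1 hz]
    refine Ideal.add_mem _ (Ideal.mul_mem_left _ _ (Ideal.subset_span ?_))
      (Ideal.mul_mem_left _ _ (Ideal.subset_span ?_))
    · simp
    · simp
  have hall : ∀ (e : ℕ) (f : MvPolynomial (Fin 4) Ω), X 0 ^ e * f ∈ detI A → f ∈ detI A := by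
    intro e
    induction e with
    | zero =>
      intro f hf
      rwa [pow_zero, one_mul] at hf
    | succ e ih =>
      intro f hf
      refine ih f (hreg _ ?_)
      rwa [pow_succ', mul_assoc] at hf
  exact hall E G hmem

end Pool.Agent.LibHP
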