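import Pool.Agent.LibHPF.T5
import Pool.Agent.LibHPF.T7
import Pool.Agent.LibHPF.T8

set_option autoImplicit false
open MvPolynomial

namespace Pool.Agent.LibHP

/-!
# Row T10b: the affine part of the determinantal curve is connected

NOTATION. `S = MvPolynomial (Fin 4) Ω`, `I = detI A = (m1, m2, m3)`, `m1 = mn1 A = A1 A3 - A2 ^ 2`,
`m2 = mn2 A = A0 A3 - A1 A2`, `m3 = mn3 A = A0 A2 - A1 ^ 2`, `A0 = X 0`; `affI A = span {dh m3, dh m2}`. `det_reg_forms`
(row T5, from `h4`) gives (reg1) `X 0 * f ∈ I → f ∈ I` and (reg2)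
`X 1 ^ M * f ∈ span {X 0 ^ N} ⊔ I → f ∈ span {X 0 ^ N} ⊔ I`. `I` is a homogeneous ideal (generated by forms); all its
elements have zero constant coefficient.

PLAN.
`affI_ne_top`: else `dh 1 ∈ affI A`, so `1 ∈ I` by `mem_of_dh` (`d = 0`), impossible.
`dh_detI`: by `ring`, `A0 m1 = A1 m2 - A2 m3` and `dh A0 = 1`, so `dh m1 ∈ affI A`.
`aff_idem`: let `N = p0.totalDegree + 1`, and `p` homogeneous of degree `N` with `dh p = p0` (`exists_dh`).
`p * (X 0 ^ N - p)` is homogeneous of degree `2 N` and `dh` of it is `p0 - p0 * p0 ∈ affI A`, so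
`p * (X 0 ^ N - p) ∈ I` (`mem_of_dh`).
Let `D = {s | s * p ∈ span {X 0 ^ N} ⊔ I}`, an ideal of `S` containing `I` and `X 0 ^ N`.
CLAIM: every common zero `z` of `D` is `0`. Suppose `z ≠ 0`. `z 0 = 0` (`X 0 ^ N ∈ D`, `N ≥ 1`),
`0 = m3(z) = - A1(z) ^ 2`, `0 = m1(z) = - A2(z) ^ 2`. So by `h2` `A3(z) ≠ 0` and `∂_i A1 (z) ≠ 0` for some `i ≠ 0`. The
gradients of `m1`, `m2` at `z` are `A3(z) ∇A1(z)` and `A3(z) ∇A0(z) = A3(z) * (1, 0, 0, 0)` (Leibniz rule; `A0, A1, A2`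
vanish at `z`), independent. `A3 m3 = - A1 m1 + A2 m2` (`ring`), so `A3 * I ⊆ span {m1, m2} ⊆ I`, and
`(A3 * p) * (X 0 ^ N - p) ∈ span {m1, m2}`; `local_domain` (`N = 4`, `e = 2`, `g = ![m1, m2]`) gives `s`, `s(z) ≠ 0`, with
`s * (A3 * p) ∈ I` (so `s * A3 ∈ D`, not zero at `z`) or `s * (X 0 ^ N - p) ∈ I` (so `s ∈ D`): contradiction.
By the Nullstellensatz (`MvPolynomial.vanishingIdeal_zeroLocus_eq_radical`) `X 1 ^ M ∈ D` for some `M`, i.e.
`X 1 ^ M * p ∈ span {X 0 ^ N} ⊔ I`, so `p ∈ span {X 0 ^ N} ⊔ I` by (reg2): `p = a * X 0 ^ N + i`, `i ∈ I`. Take the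
homogeneous component of degree `N`: `p = C ε * X 0 ^ N + i'`, `i' ∈ I`, `ε = constantCoeff a`. So
`p0 - C ε = dh i' ∈ affI A` (`dh_detI`): hence `C (ε * ε - ε) ∈ affI A ≠ ⊤`, so `ε = 0` or `ε = 1`.
-/

section

variable {Ω : Type} [Field Ω] (A : Fin 4 → MvPolynomial (Fin 4) Ω)

private theorem T10b_m1 : mn1 A ∈ detI A := Ideal.subset_span (by simp)

private theorem T10b_m2 : mn2 A ∈ detI A := Ideal.subset_span (by simp)

private theorem T10b_m3 : mn3 A ∈ detI A := Ideal.subset_span (by simp)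

private theorem T10b_le {J : Ideal (MvPolynomial (Fin 4) Ω)} (h1 : mn1 A ∈ J) (h2 : mn2 A ∈ J)
    (h3 : mn3 A ∈ J) : detI A ≤ J := by
  unfold detI
  rw [Ideal.span_le]
  rintro x (rfl | rfl | rfl)
  · exact h1
  · exact h2
  · exact h3

private theorem T10b_vanish (z : Fin 4 → Ω) (h1 : eval z (mn1 A) = 0) (h2 : eval z (mn2 A) = 0)
    (h3 : eval z (mn3 A) = 0) {f : MvPolynomial (Fin 4) Ω} (hf : f ∈ detI A) : eval z f = 0 := by
  have h : detI A ≤ RingHom.ker (eval z) := T10b_le A h1 h2 h3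
  exact h hf

private theorem T10b_comp {σ : Type} (c m : MvPolynomial σ Ω) {d : ℕ} (hm : m.IsHomogeneous d)
    (N : ℕ) : homogeneousComponent N (c * m) =
      if d ≤ N then homogeneousComponent (N - d) c * m else 0 := by
  have h1 : ∀ e, homogeneousComponent N (homogeneousComponent e c * m) =
      if N = e + d then homogeneousComponent e c * m else 0 := fun e =>
    homogeneousComponent_of_mem ((homogeneousComponent_isHomogeneous e c).mul hm)
  conv_lhs => rw [← sum_homogeneousComponent c, Finset.sum_mul, map_sum]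
  rw [Finset.sum_congr rfl fun e _ => h1 e]
  split_ifs with hd
  · by_cases hN : N - d ∈ Finset.range (c.totalDegree + 1)
    · rw [Finset.sum_eq_single_of_mem (N - d) hN, if_pos (by omega)]
      intro e _ he
      rw [if_neg (by omega)]
    · rw [homogeneousComponent_eq_zero (N - d) c (by
        rw [Finset.mem_range] at hN; omega), zero_mul]
      refine Finset.sum_eq_zero fun e he => ?_
      rw [if_neg]
      rintro rfl
      apply hN
      rw [Nat.add_sub_cancel]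
      exact he
  · refine Finset.sum_eq_zero fun e _ => ?_
    rw [if_neg (by omega)]

private theorem T10b_comp_mem {J : Ideal (MvPolynomial (Fin 4) Ω)} (c m : MvPolynomial (Fin 4) Ω)
    {d : ℕ} (hm : m.IsHomogeneous d) (hJ : m ∈ J) (N : ℕ) : homogeneousComponent N (c * m) ∈ J := by
  rw [T10b_comp c m hm N]
  split_ifs
  · exact J.mul_mem_left _ hJ
  · exact J.zero_mem

variable {A}

private theorem T10b_h1 (hA : ∀ a : Fin 4, (A a).IsHomogeneous (a.val + 1)) :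
    (mn1 A).IsHomogeneous 6 := by
  unfold mn1
  exact ((hA 1).mul (hA 3)).sub ((hA 2).pow 2)

private theorem T10b_h2 (hA : ∀ a : Fin 4, (A a).IsHomogeneous (a.val + 1)) :
    (mn2 A).IsHomogeneous 5 := by
  unfold mn2
  exact ((hA 0).mul (hA 3)).sub ((hA 1).mul (hA 2))

private theorem T10b_h3 (hA : ∀ a : Fin 4, (A a).IsHomogeneous (a.val + 1)) :
    (mn3 A).IsHomogeneous 4 := by
  unfold mn3
  exact ((hA 0).mul (hA 2)).sub ((hA 1).pow 2)

private theorem T10b_homI (hA : ∀ a : Fin 4, (A a).IsHomogeneous (a.val + 1)) (N : ℕ)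
    {f : MvPolynomial (Fin 4) Ω} (hf : f ∈ detI A) : homogeneousComponent N f ∈ detI A := by
  have hf' : f ∈ Submodule.span (MvPolynomial (Fin 4) Ω) {mn1 A, mn2 A, mn3 A} := hf
  rw [Submodule.mem_span_triple] at hf'
  obtain ⟨a, b, c, rfl⟩ := hf'
  rw [smul_eq_mul, smul_eq_mul, smul_eq_mul, map_add, map_add]
  exact (detI A).add_mem ((detI A).add_mem (T10b_comp_mem a _ (T10b_h1 hA) (T10b_m1 A) N)
    (T10b_comp_mem b _ (T10b_h2 hA) (T10b_m2 A) N)) (T10b_comp_mem c _ (T10b_h3 hA) (T10b_m3 A) N)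

end

theorem affI_ne_top (Ω : Type) [Field Ω] [IsAlgClosed Ω] (A : Fin 4 → MvPolynomial (Fin 4) Ω)
    (hA0 : A 0 = X 0) (hA : ∀ a : Fin 4, (A a).IsHomogeneous (a.val + 1))
    (h4 : ∀ z : Fin 4 → Ω, z 0 = 0 → z 1 = 0 → eval z (A 1) = 0 → eval z (A 2) = 0 → z = 0) :
    affI A ≠ ⊤ := by
  intro h
  have h1 : dh (1 : MvPolynomial (Fin 4) Ω) ∈ affI A := by rw [h]; trivial
  have h2 : (1 : MvPolynomial (Fin 4) Ω) ∈ detI A :=
    mem_of_dh A hA (det_reg_forms Ω A hA0 hA h4).1 1 0 (isHomogeneous_one _ _) h1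
  have h0 : ∀ a : Fin 4, constantCoeff (A a) = 0 := fun a => by
    rw [constantCoeff_eq]
    exact (hA a).coeff_eq_zero (by simp)
  have h3 : eval (0 : Fin 4 → Ω) (1 : MvPolynomial (Fin 4) Ω) = 0 := by
    refine T10b_vanish A 0 ?_ ?_ ?_ h2
    · simp [mn1, h0]
    · simp [mn2, h0]
    · simp [mn3, h0]
  rw [map_one] at h3
  exact one_ne_zero h3

theorem dh_detI (Ω : Type) [Field Ω] (A : Fin 4 → MvPolynomial (Fin 4) Ω) (hA0 : A 0 = X 0)
    (G : MvPolynomial (Fin 4) Ω) (hG : G ∈ detI A) : dh G ∈ affI A := by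
  have h3 : dh (mn3 A) ∈ affI A := Ideal.subset_span (by simp)
  have h2 : dh (mn2 A) ∈ affI A := Ideal.subset_span (by simp)
  have h0 : dh (A 0) = 1 := by
    rw [hA0, dh, aeval_X]
    rfl
  have h1 : dh (mn1 A) ∈ affI A := by
    have h4 : A 0 * mn1 A = A 1 * mn2 A - A 2 * mn3 A := by
      simp only [mn1, mn2, mn3]; ring
    have h5 : dh (mn1 A) = dh (A 1) * dh (mn2 A) - dh (A 2) * dh (mn3 A) := by
      rw [← map_mul, ← map_mul, ← map_sub, ← h4, map_mul, h0, one_mul]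
    rw [h5]
    exact (affI A).sub_mem ((affI A).mul_mem_left _ h2) ((affI A).mul_mem_left _ h3)
  have h : detI A ≤ (affI A).comap (dh : MvPolynomial (Fin 4) Ω →ₐ[Ω] MvPolynomial (Fin 3) Ω) :=
    T10b_le A h1 h2 h3
  exact h hG

private theorem T10b_A3 {Ω : Type} [Field Ω] (A : Fin 4 → MvPolynomial (Fin 4) Ω)
    {f : MvPolynomial (Fin 4) Ω} (hf : f ∈ detI A) :
    A 3 * f ∈ Ideal.span (Set.range ![mn1 A, mn2 A]) := by
  have e1 : mn1 A ∈ Ideal.span (Set.range ![mn1 A, mn2 A]) := Ideal.subset_span ⟨0, rfl⟩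
  have e2 : mn2 A ∈ Ideal.span (Set.range ![mn1 A, mn2 A]) := Ideal.subset_span ⟨1, rfl⟩
  have hf' : f ∈ Submodule.span (MvPolynomial (Fin 4) Ω) {mn1 A, mn2 A, mn3 A} := hf
  rw [Submodule.mem_span_triple] at hf'
  obtain ⟨a, b, c, rfl⟩ := hf'
  have h1 : A 3 * (a • mn1 A + b • mn2 A + c • mn3 A) =
      (A 3 * a - c * A 1) * mn1 A + (A 3 * b + c * A 2) * mn2 A := by
    simp only [smul_eq_mul, mn1, mn2, mn3]
    ring
  rw [h1]
  exact Ideal.add_mem _ (Ideal.mul_mem_left _ _ e1) (Ideal.mul_mem_left _ _ e2)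

private theorem T10b_zero {Ω : Type} [Field Ω] (A : Fin 4 → MvPolynomial (Fin 4) Ω)
    (hA0 : A 0 = X 0)
    (h2 : ∀ z : Fin 4 → Ω, z ≠ 0 → z 0 = 0 → eval z (A 1) = 0 → eval z (A 2) = 0 →
      eval z (A 3) ≠ 0 ∧ ∃ i, i ≠ 0 ∧ eval z (pderiv i (A 1)) ≠ 0)
    (N : ℕ) (hN : N ≠ 0) (p : MvPolynomial (Fin 4) Ω) (hp : p * (X 0 ^ N - p) ∈ detI A)
    (z : Fin 4 → Ω)
    (J : Ideal (MvPolynomial (Fin 4) Ω)) (hIJ : detI A ≤ J) (hXJ : X 0 ^ N ∈ J)
    (hz : ∀ s : MvPolynomial (Fin 4) Ω, s * p ∈ J → eval z s = 0) : z = 0 := by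
  by_contra hne
  have z0 : z 0 = 0 := by
    have := hz (X 0 ^ N) (Ideal.mul_mem_right _ _ hXJ)
    rw [map_pow, eval_X] at this
    exact pow_eq_zero_iff hN |>.1 this
  have a0 : eval z (A 0) = 0 := by rw [hA0, eval_X, z0]
  have a1 : eval z (A 1) = 0 := by
    have := hz (mn3 A) (hIJ (Ideal.mul_mem_right _ _ (T10b_m3 A)))
    rw [mn3, map_sub, map_mul, a0, zero_mul, map_pow, zero_sub, neg_eq_zero] at this
    exact pow_eq_zero_iff (two_ne_zero) |>.1 this
  have a2 : eval z (A 2) = 0 := by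
    have := hz (mn1 A) (hIJ (Ideal.mul_mem_right _ _ (T10b_m1 A)))
    rw [mn1, map_sub, map_mul, a1, zero_mul, map_pow, zero_sub, neg_eq_zero] at this
    exact pow_eq_zero_iff (two_ne_zero) |>.1 this
  obtain ⟨a3, i, hi, hd⟩ := h2 z hne z0 a1 a2
  have d1 : ∀ j, eval z (pderiv j (mn1 A)) = eval z (A 3) * eval z (pderiv j (A 1)) := by
    intro j
    rw [mn1, map_sub, Derivation.leibniz, Derivation.leibniz_pow]
    simp only [smul_eq_mul, map_sub, map_add, map_mul, map_pow, a1, a2, nsmul_eq_mul, map_natCast]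
    ring
  have d2 : ∀ j, eval z (pderiv j (mn2 A)) = eval z (A 3) * eval z (pderiv j (A 0)) := by
    intro j
    rw [mn2, map_sub, Derivation.leibniz, Derivation.leibniz]
    simp only [smul_eq_mul, map_sub, map_add, map_mul, a0, a1, a2]
    ring
  have hJ : LinearIndependent Ω (fun (i : Fin 2) (j : Fin 4) =>
      eval z (pderiv j ((![mn1 A, mn2 A] : Fin 2 → MvPolynomial (Fin 4) Ω) i))) := by
    rw [Fintype.linearIndependent_iff]
    intro c hc
    rw [Fin.sum_univ_two] at hc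
    have hc1 := congrFun hc i
    have hc0 := congrFun hc 0
    simp only [Pi.add_apply, Pi.smul_apply, smul_eq_mul, Matrix.cons_val_zero,
      Matrix.cons_val_one, Pi.zero_apply, d1, d2, hA0] at hc1 hc0
    rw [pderiv_X_of_ne hi.symm, map_zero, mul_zero, mul_zero, add_zero] at hc1
    have e0 : c 0 = 0 := by
      rcases mul_eq_zero.1 hc1 with h | h
      · exact h
      · exact absurd h (mul_ne_zero a3 hd)
    rw [e0, zero_mul, zero_add, pderiv_X_self, map_one, mul_one] at hc0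
    have e1 : c 1 = 0 := by
      rcases mul_eq_zero.1 hc0 with h | h
      · exact h
      · exact absurd h a3
    intro j
    fin_cases j
    · exact e0
    · exact e1
  obtain ⟨s, hs, hs'⟩ := local_domain Ω 4 2 ![mn1 A, mn2 A] z (by
    intro i
    fin_cases i
    · show eval z (mn1 A) = 0
      rw [mn1, map_sub, map_mul, map_pow, a1, a2]; ring
    · show eval z (mn2 A) = 0
      rw [mn2, map_sub, map_mul, map_mul, a0, a1]; ring) hJ (A 3 * p) (X 0 ^ N - p) (by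
    rw [mul_assoc]
    exact T10b_A3 A hp)
  have hle : Ideal.span (Set.range ![mn1 A, mn2 A]) ≤ detI A := by
    rw [Ideal.span_le]
    rintro x ⟨i, rfl⟩
    fin_cases i
    · exact T10b_m1 A
    · exact T10b_m2 A
  rcases hs' with hs' | hs'
  · have := hz (s * A 3) (by rw [mul_assoc]; exact hIJ (hle hs'))
    rw [map_mul] at this
    exact mul_ne_zero hs a3 this
  · refine hs (hz s ?_)
    have h5 : s * p = s * X 0 ^ N - s * (X 0 ^ N - p) := by ring
    rw [h5]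
    exact Ideal.sub_mem _ (Ideal.mul_mem_left _ _ hXJ) (hIJ (hle hs'))

theorem aff_idem (Ω : Type) [Field Ω] [IsAlgClosed Ω] (A : Fin 4 → MvPolynomial (Fin 4) Ω)
    (hA0 : A 0 = X 0) (hA : ∀ a : Fin 4, (A a).IsHomogeneous (a.val + 1))
    (h4 : ∀ z : Fin 4 → Ω, z 0 = 0 → z 1 = 0 → eval z (A 1) = 0 → eval z (A 2) = 0 → z = 0)
    (h2 : ∀ z : Fin 4 → Ω, z ≠ 0 → z 0 = 0 → eval z (A 1) = 0 → eval z (A 2) = 0 →
      eval z (A 3) ≠ 0 ∧ ∃ i, i ≠ 0 ∧ eval z (pderiv i (A 1)) ≠ 0)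
    (p0 : MvPolynomial (Fin 3) Ω) (hp : p0 * p0 - p0 ∈ affI A) :
    p0 ∈ affI A ∨ p0 - 1 ∈ affI A := by
  obtain ⟨reg1, reg2⟩ := det_reg_forms Ω A hA0 hA h4
  set N := p0.totalDegree + 1 with hN
  obtain ⟨p, hph, hpd⟩ := exists_dh p0 N (by omega)
  have hdX : dh (X 0 : MvPolynomial (Fin 4) Ω) = 1 := by
    rw [dh, aeval_X]
    rfl
  have hXh : (X 0 ^ N : MvPolynomial (Fin 4) Ω).IsHomogeneous N := by
    have := (isHomogeneous_X Ω (0 : Fin 4)).pow N
    rwa [one_mul] at this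
  have hP : p * (X 0 ^ N - p) ∈ detI A := by
    refine mem_of_dh A hA reg1 _ (N + N) (hph.mul (hXh.sub hph)) ?_
    rw [map_mul, map_sub, map_pow, hdX, one_pow, hpd]
    have : p0 * (1 - p0) = -(p0 * p0 - p0) := by ring
    rw [this]
    exact (affI A).neg_mem hp
  let D : Ideal (MvPolynomial (Fin 4) Ω) :=
    Submodule.comap (LinearMap.mulRight (MvPolynomial (Fin 4) Ω) p)
      (Ideal.span {X 0 ^ N} ⊔ detI A : Ideal (MvPolynomial (Fin 4) Ω))
  have hD : ∀ s, s ∈ D ↔ s * p ∈ Ideal.span {X 0 ^ N} ⊔ detI A := fun s => Iff.rfl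
  have hrad : (X 1 : MvPolynomial (Fin 4) Ω) ∈ D.radical := by
    rw [← vanishingIdeal_zeroLocus_eq_radical (K := Ω), mem_vanishingIdeal_iff]
    intro z hz
    have hz0 : z = 0 := T10b_zero A hA0 h2 N (by omega) p hP z
      (Ideal.span {X 0 ^ N} ⊔ detI A) le_sup_right (Ideal.mem_sup_left
      (Ideal.mem_span_singleton_self _)) (fun s hs => by
      have := hz s ((hD s).2 hs)
      exact this)
    rw [hz0, aeval_X]
    rfl
  obtain ⟨M, hM⟩ := hrad
  have hpJ : p ∈ Ideal.span {X 0 ^ N} ⊔ detI A := reg2 N M p ((hD _).1 hM)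
  obtain ⟨y, hy, i, hi, hyi⟩ := Submodule.mem_sup.1 hpJ
  obtain ⟨a, rfl⟩ := Ideal.mem_span_singleton'.1 hy
  have h5 : p = C (coeff 0 a) * X 0 ^ N + homogeneousComponent N i := by
    conv_lhs => rw [← homogeneousComponent_eq_self hph, ← hyi, map_add, T10b_comp a _ hXh N,
      if_pos le_rfl, Nat.sub_self, homogeneousComponent_zero]
  have h6 : p0 - C (coeff 0 a) ∈ affI A := by
    have h7 : p0 = C (coeff 0 a) + dh (homogeneousComponent N i) := by
      conv_lhs => rw [← hpd, h5, map_add, map_mul, map_pow, hdX, one_pow, mul_one]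
      congr 1
      rw [dh]
      exact aeval_C _ _
    rw [h7, add_sub_cancel_left]
    exact dh_detI Ω A hA0 _ (T10b_homI hA N hi)
  set ε := coeff 0 a with hε
  have h7 : (C (ε * ε - ε) : MvPolynomial (Fin 3) Ω) ∈ affI A := by
    have h8 : (C (ε * ε - ε) : MvPolynomial (Fin 3) Ω) =
        (p0 * p0 - p0) - (p0 + C ε - 1) * (p0 - C ε) := by
      rw [map_sub, map_mul]; ring
    rw [h8]
    exact (affI A).sub_mem hp ((affI A).mul_mem_left _ h6)
  have h8 : ε * ε - ε = 0 := by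
    by_contra hne
    exact affI_ne_top Ω A hA0 hA h4 ((affI A).eq_top_of_isUnit_mem h7
      ((isUnit_iff_ne_zero.2 hne).map C))
  have h9 : ε = 0 ∨ ε = 1 := by
    have : ε * (ε - 1) = 0 := by rw [← h8]; ring
    rcases mul_eq_zero.1 this with h | h
    · exact Or.inl h
    · exact Or.inr (sub_eq_zero.1 h)
  rcases h9 with h | h
  · left
    rwa [h, map_zero, sub_zero] at h6
  · right
    rwa [h, map_one] at h6

end Pool.Agent.LibHP
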