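import Pool.Agent.LibHPF.T9
import Pool.Agent.LibHPF.T10a
import Pool.Agent.LibHPF.T10b

set_option autoImplicit false
open MvPolynomial

namespace Pool.Agent.LibHP

/-- The affine part of the determinantal curve is integral. -/
theorem prime_aff (Ω : Type) [Field Ω] [IsAlgClosed Ω] (A : Fin 4 → MvPolynomial (Fin 4) Ω)
    (hA0 : A 0 = X 0) (hA : ∀ a : Fin 4, (A a).IsHomogeneous (a.val + 1))
    (h4 : ∀ z : Fin 4 → Ω, z 0 = 0 → z 1 = 0 → eval z (A 1) = 0 → eval z (A 2) = 0 → z = 0)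
    (h2 : ∀ z : Fin 4 → Ω, z ≠ 0 → z 0 = 0 → eval z (A 1) = 0 → eval z (A 2) = 0 →
      eval z (A 3) ≠ 0 ∧ ∃ i, i ≠ 0 ∧ eval z (pderiv i (A 1)) ≠ 0)
    (h1 : ∀ z : Fin 4 → Ω, z 0 ≠ 0 → eval z (mn3 A) = 0 → eval z (mn2 A) = 0 →
      LinearIndependent Ω ![fun i => eval z (pderiv i (mn3 A)),
        fun i => eval z (pderiv i (mn2 A))]) :
    (affI A).IsPrime := by
  have hn : Nontrivial (MvPolynomial (Fin 3) Ω ⧸ affI A) :=
    Ideal.Quotient.nontrivial_iff.2 (affI_ne_top Ω A hA0 hA h4)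
  have h := domain_of_local (MvPolynomial (Fin 3) Ω ⧸ affI A)
    (fun m hm f g hfg => aff_local Ω A hA h1 m hm f g hfg) (fun e he => by
      obtain ⟨p0, rfl⟩ := Ideal.Quotient.mk_surjective e
      rw [← map_mul, ← sub_eq_zero, ← map_sub, Ideal.Quotient.eq_zero_iff_mem] at he
      rcases aff_idem Ω A hA0 hA h4 h2 p0 he with h | h
      · exact Or.inl (Ideal.Quotient.eq_zero_iff_mem.2 h)
      · right
        rw [← sub_eq_zero, ← map_one (Ideal.Quotient.mk (affI A)), ← map_sub]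
        exact Ideal.Quotient.eq_zero_iff_mem.2 h)
  exact (Ideal.Quotient.isDomain_iff_prime _).1 h

end Pool.Agent.LibHP
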