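import Pool.Agent.LibHPF.T2b

set_option autoImplicit false
open MvPolynomial

namespace Pool.Agent.LibHP

variable {k : Type} [Field k] [CharZero k] {n : ℕ} {φ : Tens k n}

/-!
# Row T3: frames

PLAN.
`exists_lframe`: by `sec_surj` (row T2b) the linear map `Λ : (Fin (n + 1) → L) → L × (Option (Fin (n - 4)) → L)`,
`y ↦ (12 φ(x', x', x', y), lin (h i) x' y)` is surjective, so its kernel `N` has dimension
`(n + 1) - (n - 2) = 3`; `x' ∈ N` (`IsGenPt.self`, `lin h x' x' = 0` since `x' 0 = 1`), `x' ≠ 0`; choose `u 2, u 3` such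
that `x', u 2, u 3` is a basis of `N`; choose `u 0` with `Λ (u 0) = (1, 0)` and `u 1` with `Λ (u 1) = (0, t)`,
`t none = 1`, `t (some i) = 0`. `span`: for `y` with `lin (h (some i)) x' y = 0` the vector
`y - (12 φ(x', x', x', y)) • u 0 - (lin (h none) x' y) • u 1` is in `N`. `indep`: apply `Λ` to get `c 0 = c 1 = 0`, then
the basis of `N`.
`IsFrame.map`: `hu, hg, h0` by `Phi_map` and `map_sum` (`f : L →ₐ[k] Ω`). `span`: make `Ω` an `L`-algebra by `f` and
take a basis `B` of `Ω` over `L` (`Module.Free.chooseBasis`, or `Basis.ofVectorSpace`). For `y : Fin (n + 1) → Ω` with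
`lin (f ∘ h (some i)) (f ∘ x) y = 0` the coordinate vectors `y_b j = B.repr (y j) b` satisfy
`lin (h (some i)) x y_b = 0` (linearity over `L`), so `y_b = ξ_b x + frm u c_b`; put
`ξ = ∑ b, ξ_b * B b` (finite sum over the union of the supports of the `y j`; for `b` outside of it choose
`ξ_b = 0`, `c_b = 0`), same for `c`. `indep`: same with coordinates of `ξ` and `c a`.
-/

section
variable {R : Type} [CommRing R]

private theorem T3_lin_add (h x y z : Fin (n + 1) → R) :
    lin h x (y + z) = lin h x y + lin h x z := by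
  simp only [lin, Pi.add_apply, ← Finset.sum_add_distrib]
  exact Finset.sum_congr rfl fun j _ => by ring

private theorem T3_lin_smul (c : R) (h x y : Fin (n + 1) → R) :
    lin h x (c • y) = c * lin h x y := by
  simp only [lin, Pi.smul_apply, smul_eq_mul, Finset.mul_sum]
  exact Finset.sum_congr rfl fun j _ => by ring

/-- `lin` as a linear map in the last argument -/
private noncomputable def T3_linL (h x : Fin (n + 1) → R) : (Fin (n + 1) → R) →ₗ[R] R where
  toFun y := lin h x y
  map_add' y z := T3_lin_add h x y z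
  map_smul' c y := T3_lin_smul c h x y

private theorem T3_lin_self (h x : Fin (n + 1) → R) (hx : x 0 = 1) : lin h x x = 0 := by
  unfold lin
  refine Finset.sum_eq_zero fun j _ => ?_
  rw [hx, one_mul, sub_self, mul_zero]

private theorem T3_frm (u : Fin 4 → Fin (n + 1) → R) (z : Fin 4 → R) :
    frm u z = z 0 • u 0 + z 1 • u 1 + z 2 • u 2 + z 3 • u 3 := by
  funext j
  simp only [frm, Fin.sum_univ_four, Pi.add_apply, Pi.smul_apply, smul_eq_mul]

end

theorem exists_lframe (hφ : IsSymm4 φ) (hs : Smooth4 φ) (hn : 4 ≤ n) {K L : Type} [Field K]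
    [Algebra k K] [Field L] [Algebra k L] [Algebra K L] [IsScalarTower k K L]
    (x : Fin (n + 1) → K) (hx : IsGenPt φ x) (h : Option (Fin (n - 4)) × Fin (n + 1) → L)
    (hh : AlgebraicIndependent K h) (x' : Fin (n + 1) → L)
    (hx' : ∀ i, x' i = algebraMap K L (x i)) :
    ∃ u : Fin 4 → Fin (n + 1) → L, IsFrame φ x' h u := by
  classical
  have hxg : IsGenPt φ x' := by
    have h1 := hx.map (IsScalarTower.toAlgHom k K L)
    have h2 : (fun i => IsScalarTower.toAlgHom k K L (x i)) = x' := by
      funext i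
      rw [hx', IsScalarTower.coe_toAlgHom']
    rwa [h2] at h1
  have hx0 : x' 0 = 1 := hxg.1
  have hself : Phi φ x' x' x' x' = 0 := hxg.self
  let Λ : (Fin (n + 1) → L) →ₗ[L] (L × (Option (Fin (n - 4)) → L)) :=
    ((12 : L) • PhiL φ x' x' x').prod
      (LinearMap.pi fun i => T3_linL (fun j => h (i, j)) x')
  have hΛ1 : ∀ y, (Λ y).1 = 12 * Phi φ x' x' x' y := fun y => rfl
  have hΛ2 : ∀ y i, (Λ y).2 i = lin (fun j => h (i, j)) x' y := fun y i => rfl
  have hsurj : ∀ (t0 : L) (t : Option (Fin (n - 4)) → L), ∃ b, Λ b = (t0, t) := by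
    intro t0 t
    obtain ⟨b, hb1, hb2⟩ := sec_surj hφ hs hn x hx h hh x' hx' t0 t
    refine ⟨b, Prod.ext ?_ (funext fun i => ?_)⟩
    · rw [hΛ1, hb1]
    · rw [hΛ2, hb2]
  have hrange : LinearMap.range Λ = ⊤ := by
    rw [LinearMap.range_eq_top]
    rintro ⟨t0, t⟩
    exact hsurj t0 t
  have hker : Module.finrank L (LinearMap.ker Λ) = 3 := by
    have h1 := Λ.finrank_range_add_finrank_ker
    rw [hrange, finrank_top, Module.finrank_prod, Module.finrank_self, Module.finrank_fintype_fun_eq_card,
      Module.finrank_fintype_fun_eq_card, Fintype.card_option, Fintype.card_fin,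
      Fintype.card_fin] at h1
    omega
  have hxne : x' ≠ 0 := by
    intro h0
    rw [h0, Pi.zero_apply] at hx0
    exact zero_ne_one hx0
  have hxker : x' ∈ LinearMap.ker Λ := by
    rw [LinearMap.mem_ker]
    refine Prod.ext ?_ (funext fun i => ?_)
    · rw [hΛ1, hself, mul_zero]
      rfl
    · rw [hΛ2, T3_lin_self _ _ hx0]
      rfl
  obtain ⟨W', hW'⟩ := Submodule.exists_isCompl (L ∙ x')
  have hSle : (L ∙ x') ≤ LinearMap.ker Λ := by
    rw [Submodule.span_singleton_le_iff_mem]
    exact hxker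
  set W : Submodule L (Fin (n + 1) → L) := W' ⊓ LinearMap.ker Λ with hW
  have hsup : (L ∙ x') ⊔ W = LinearMap.ker Λ := by
    rw [hW, ← sup_inf_assoc_of_le _ hSle, hW'.sup_eq_top, top_inf_eq]
  have hinf : (L ∙ x') ⊓ W = ⊥ := by
    rw [hW, ← inf_assoc, hW'.inf_eq_bot, bot_inf_eq]
  have hWr : Module.finrank L W = 2 := by
    have h1 := Submodule.finrank_sup_add_finrank_inf_eq (L ∙ x') W
    rw [hsup, hinf, hker, finrank_bot, finrank_span_singleton hxne] at h1
    omega
  let bW := Module.finBasisOfFinrankEq L W hWr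
  obtain ⟨u0, hu0⟩ := hsurj 1 0
  obtain ⟨u1, hu1⟩ := hsurj 0 (fun i => if i = none then 1 else 0)
  have hb : ∀ i, Λ (bW i : Fin (n + 1) → L) = 0 := fun i => LinearMap.mem_ker.1 (bW i).2.2
  let u : Fin 4 → Fin (n + 1) → L := ![u0, u1, (bW 0 : Fin (n + 1) → L), (bW 1 : Fin (n + 1) → L)]
  have e0 : u 0 = u0 := rfl
  have e1 : u 1 = u1 := rfl
  have e2 : u 2 = (bW 0 : Fin (n + 1) → L) := rfl
  have e3 : u 3 = (bW 1 : Fin (n + 1) → L) := rfl
  have hL0 : Λ (u 0) = (1, 0) := by rw [e0, hu0]
  have hL1 : Λ (u 1) = (0, fun i => if i = none then 1 else 0) := by rw [e1, hu1]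
  have hL2 : Λ (u 2) = 0 := by rw [e2, hb]
  have hL3 : Λ (u 3) = 0 := by rw [e3, hb]
  have hΛfrm : ∀ (ξ : L) (c : Fin 4 → L), Λ (ξ • x' + frm u c) = (c 0, fun i => if i = none then c 1 else 0) := by
    intro ξ c
    rw [T3_frm, map_add, map_add, map_add, map_add, map_smul, map_smul, map_smul, map_smul, map_smul,
      hL0, hL1, hL2, hL3, LinearMap.mem_ker.1 hxker]
    refine Prod.ext ?_ (funext fun i => ?_)
    · simp
    · by_cases hi : i = none
      · simp [hi]
      · simp [hi]
  refine ⟨u, ?_, ?_, ?_, ?_, ?_⟩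
  · intro a i
    rw [← hΛ2]
    fin_cases a
    · change (Λ (u 0)).2 (some i) = 0
      rw [hL0]
      rfl
    · change (Λ (u 1)).2 (some i) = 0
      rw [hL1]
      simp
    · change (Λ (u 2)).2 (some i) = 0
      rw [hL2]
      rfl
    · change (Λ (u 3)).2 (some i) = 0
      rw [hL3]
      rfl
  · intro a
    rw [← hΛ2]
    fin_cases a
    · change (Λ (u 0)).2 none = _
      rw [hL0]
      simp
    · change (Λ (u 1)).2 none = _
      rw [hL1]
      simp
    · change (Λ (u 2)).2 none = _
      rw [hL2]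
      simp
    · change (Λ (u 3)).2 none = _
      rw [hL3]
      simp
  · intro a
    rw [← hΛ1]
    fin_cases a
    · change (Λ (u 0)).1 = _
      rw [hL0]
      simp
    · change (Λ (u 1)).1 = _
      rw [hL1]
      simp
    · change (Λ (u 2)).1 = _
      rw [hL2]
      simp
    · change (Λ (u 3)).1 = _
      rw [hL3]
      simp
  · intro ξ c hc
    have hv : ξ • x' + frm u c = 0 := by
      funext j
      exact hc j
    have h1 := hΛfrm ξ c
    rw [hv, map_zero] at h1
    have hc0 : c 0 = 0 := (congrArg Prod.fst h1).symm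
    have hc1 : c 1 = 0 := by
      have h2 := congrFun (congrArg Prod.snd h1) none
      simpa using h2.symm
    rw [T3_frm, hc0, hc1, e2, e3, zero_smul, zero_smul, zero_add, zero_add] at hv
    have hw : ((c 2 • bW 0 + c 3 • bW 1 : W) : Fin (n + 1) → L) = -(ξ • x') := by
      rw [Submodule.coe_add, Submodule.coe_smul, Submodule.coe_smul]
      exact eq_neg_of_add_eq_zero_right hv
    have hmem : ((c 2 • bW 0 + c 3 • bW 1 : W) : Fin (n + 1) → L) ∈ (L ∙ x') ⊓ W := by
      refine ⟨?_, (c 2 • bW 0 + c 3 • bW 1 : W).2⟩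
      rw [hw]
      exact Submodule.neg_mem _ (Submodule.smul_mem _ _ (Submodule.mem_span_singleton_self x'))
    rw [hinf, Submodule.mem_bot] at hmem
    have hξ : ξ = 0 := by
      rw [hw, neg_eq_zero, smul_eq_zero] at hmem
      exact hmem.resolve_right hxne
    have h3 : c 2 • bW 0 + c 3 • bW 1 = 0 := Subtype.ext hmem
    have h4 := (Fintype.linearIndependent_iff.1 bW.linearIndependent) ![c 2, c 3] (by
      rw [Fin.sum_univ_two]
      exact h3)
    refine ⟨hξ, funext fun a => ?_⟩
    fin_cases a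
    · exact hc0
    · exact hc1
    · exact h4 0
    · exact h4 1
  · intro y hy
    have hmem : y - (12 * Phi φ x' x' x' y) • u 0 - lin (fun j => h (none, j)) x' y • u 1 ∈
        (L ∙ x') ⊔ W := by
      rw [hsup, LinearMap.mem_ker, map_sub, map_sub, map_smul, map_smul, hL0, hL1]
      refine Prod.ext ?_ (funext fun i => ?_)
      · change (Λ y).1 - (12 * Phi φ x' x' x' y) * 1 - lin (fun j => h (none, j)) x' y * 0 = 0
        rw [hΛ1]
        ring
      · change (Λ y).2 i - (12 * Phi φ x' x' x' y) * 0 -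
          lin (fun j => h (none, j)) x' y * (if i = none then 1 else 0) = 0
        rw [hΛ2]
        cases i with
        | none => simp
        | some i =>
          rw [hy]
          simp
    obtain ⟨a, ha, w, hw, haw⟩ := Submodule.mem_sup.1 hmem
    obtain ⟨ξ, rfl⟩ := Submodule.mem_span_singleton.1 ha
    have hrep := bW.sum_repr ⟨w, hw⟩
    rw [Fin.sum_univ_two] at hrep
    have hrep' : bW.repr ⟨w, hw⟩ 0 • (bW 0 : Fin (n + 1) → L) +
        bW.repr ⟨w, hw⟩ 1 • (bW 1 : Fin (n + 1) → L) = w := congrArg Subtype.val hrep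
    refine ⟨ξ, ![12 * Phi φ x' x' x' y, lin (fun j => h (none, j)) x' y, bW.repr ⟨w, hw⟩ 0,
      bW.repr ⟨w, hw⟩ 1], fun j => ?_⟩
    have hfin : y = ξ • x' + frm u ![12 * Phi φ x' x' x' y, lin (fun j => h (none, j)) x' y,
        bW.repr ⟨w, hw⟩ 0, bW.repr ⟨w, hw⟩ 1] := by
      rw [T3_frm]
      change y = ξ • x' + ((12 * Phi φ x' x' x' y) • u 0 + lin (fun j => h (none, j)) x' y • u 1 +
        bW.repr ⟨w, hw⟩ 0 • u 2 + bW.repr ⟨w, hw⟩ 1 • u 3)
      rw [e2, e3, add_assoc _ (bW.repr ⟨w, hw⟩ 0 • _), hrep']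
      have h5 : y = (ξ • x' + w) + (12 * Phi φ x' x' x' y) • u 0 +
          lin (fun j => h (none, j)) x' y • u 1 := by
        rw [haw]
        abel
      conv_lhs => rw [h5]
      abel
    exact congrFun hfin j

theorem IsFrame.map {L Ω : Type} [Field L] [Algebra k L] [Field Ω] [Algebra k Ω]
    {x : Fin (n + 1) → L} {h : Option (Fin (n - 4)) × Fin (n + 1) → L}
    {u : Fin 4 → Fin (n + 1) → L} (hf : IsFrame φ x h u) (f : L →ₐ[k] Ω) :
    IsFrame φ (fun j => f (x j)) (fun i => f (h i)) (fun a j => f (u a j)) := by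
  classical
  have hlin : ∀ (g z y : Fin (n + 1) → L),
      lin (fun j => f (g j)) (fun j => f (z j)) (fun j => f (y j)) = f (lin g z y) := by
    intro g z y
    simp only [lin, map_sum, map_mul, map_sub]
  letI : Algebra L Ω := (f : L →+* Ω).toAlgebra
  have hsm : ∀ (r : L) (z : Ω), f r * z = r • z := fun r z => rfl
  let B := Module.Basis.ofVectorSpace L Ω
  have hcoord : ∀ (g z : Fin (n + 1) → L) (y : Fin (n + 1) → Ω)
      (b : Module.Basis.ofVectorSpaceIndex L Ω),
      B.coord b (lin (fun j => f (g j)) (fun j => f (z j)) y) =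
        lin g z (fun j => B.coord b (y j)) := by
    intro g z y b
    unfold lin
    rw [map_sum]
    refine Finset.sum_congr rfl fun j _ => ?_
    rw [hsm, map_smul, map_sub, mul_comm (y 0), hsm, map_smul, smul_eq_mul, smul_eq_mul]
    ring
  have hfrm : ∀ (c : Fin 4 → Ω) (j : Fin (n + 1)) (b : Module.Basis.ofVectorSpaceIndex L Ω),
      B.coord b (frm (fun a j => f (u a j)) c j) = frm u (fun a => B.coord b (c a)) j := by
    intro c j b
    unfold frm
    rw [map_sum]
    refine Finset.sum_congr rfl fun a _ => ?_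
    rw [mul_comm, hsm, map_smul, smul_eq_mul, mul_comm]
  refine ⟨?_, ?_, ?_, ?_, ?_⟩
  · intro a i
    rw [hlin, hf.hu, map_zero]
  · intro a
    rw [hlin, hf.hg]
    split_ifs
    · exact map_one f
    · exact map_zero f
  · intro a
    rw [← Phi_map]
    have h1 : (12 : Ω) = f 12 := (map_ofNat f 12).symm
    rw [h1, ← map_mul, hf.h0]
    split_ifs
    · exact map_one f
    · exact map_zero f
  · intro ξ c hc
    have key : ∀ b, B.coord b ξ = 0 ∧ (fun a => B.coord b (c a)) = 0 := by
      intro b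
      refine hf.indep _ _ fun j => ?_
      have h1 := congrArg (B.coord b) (hc j)
      rw [map_add, hfrm, mul_comm, hsm, map_smul, map_zero, smul_eq_mul, mul_comm] at h1
      exact h1
    have hz : ∀ z : Ω, (∀ b, B.coord b z = 0) → z = 0 := by
      intro z hz
      exact B.ext_elem fun b => by
        rw [map_zero, Finsupp.zero_apply]
        exact hz b
    exact ⟨hz _ fun b => (key b).1, funext fun a => hz _ fun b => congrFun (key b).2 a⟩
  · intro y hy
    have key : ∀ b, ∃ (ξ : L) (c : Fin 4 → L), ∀ j, B.coord b (y j) = ξ * x j + frm u c j := by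
      intro b
      refine hf.span _ fun i => ?_
      rw [← hcoord, hy, map_zero]
    choose ξ c hξ using key
    let s : Finset (Module.Basis.ofVectorSpaceIndex L Ω) :=
      Finset.univ.biUnion fun j => (B.repr (y j)).support
    refine ⟨∑ b ∈ s, ξ b • B b, fun a => ∑ b ∈ s, c b a • B b, fun j => ?_⟩
    have h1 : y j = ∑ b ∈ s, B.coord b (y j) • B b := by
      have h2 : (B.repr (y j)).support ⊆ s :=
        Finset.subset_biUnion_of_mem (fun j => (B.repr (y j)).support) (Finset.mem_univ j)
      conv_lhs => rw [← B.linearCombination_repr (y j)]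
      rw [Finsupp.linearCombination_apply]
      exact Finsupp.sum_of_support_subset _ h2 (fun b r => r • B b) (fun b _ => zero_smul L _)
    rw [h1]
    have h3 : (∑ b ∈ s, ξ b • B b) * f (x j) = ∑ b ∈ s, (ξ b * x j) • B b := by
      rw [Finset.sum_mul]
      refine Finset.sum_congr rfl fun b _ => ?_
      rw [mul_comm, hsm, smul_smul, mul_comm]
    have h4 : frm (fun a j => f (u a j)) (fun a => ∑ b ∈ s, c b a • B b) j =
        ∑ b ∈ s, frm u (c b) j • B b := by
      unfold frm
      simp only [Finset.sum_smul]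
      rw [Finset.sum_comm]
      refine Finset.sum_congr rfl fun a _ => ?_
      rw [Finset.sum_mul]
      refine Finset.sum_congr rfl fun b _ => ?_
      rw [mul_comm, hsm, smul_smul, mul_comm]
    rw [h3, h4, ← Finset.sum_add_distrib]
    refine Finset.sum_congr rfl fun b _ => ?_
    rw [hξ b j, add_smul]

end Pool.Agent.LibHP
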