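import Mathlib
import Pool.Agent.LibHPF.TD

set_option autoImplicit false

namespace Pool.Agent.LibHP

/-!
# Row T4: the determinantal ideal, abstract commutative algebra (only Mathlib)

`A 0, A 1, A 2, A 3`, `x` are elements of a commutative ring `S`; `I = detI A` is the ideal of the 2 x 2 minors
`m1 = A1 A3 - A2 ^ 2`, `m2 = A0 A3 - A1 A2`, `m3 = A0 A2 - A1 ^ 2` of the matrix with rows `(A0, A1, A2)`, `(A1, A2, A3)`.

PLAN. Syzygies (by `ring`): `A0 m1 - A1 m2 + A2 m3 = 0`, `A1 m1 - A2 m2 + A3 m3 = 0`.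
LEMMA S. Let `J` be an ideal with `A0 ∈ J` such that `A1 * a ∈ J → a ∈ J` and
`A2 * b ∈ J ⊔ span {A1} → b ∈ J ⊔ span {A1}`. If `c1 m1 + c2 m2 + c3 m3 ∈ J` then there are `d, e` with
`c1 - (d A1 - e A0) ∈ J`, `c2 - (- d A2 + e A1) ∈ J`, `c3 - (d A3 - e A2) ∈ J`.
Proof: modulo `J` (and `A0`): `c1 (A1 A3 - A2 ^ 2) - c2 A1 A2 - c3 A1 ^ 2 ∈ J`. So
`A2 (A2 c1) ∈ J ⊔ span {A1}`, hence (twice) `c1 ∈ J ⊔ span {A1}`, `c1 = A1 d` mod `J`. Cancel `A1`:
`d (A1 A3 - A2 ^ 2) - c2 A2 - c3 A1 ∈ J`. So `A2 (d A2 + c2) ∈ J ⊔ span {A1}`, so `d A2 + c2 = A1 e` mod `J`. Then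
`A1 (d A3 - c3 - A2 e) ∈ J`, so `c3 = d A3 - e A2` mod `J`.
(1): `A0 f = c1 m1 + c2 m2 + c3 m3`; Lemma S with `J = span {A0}`: `ci = syzygy_i + A0 ci'`, the syzygy part
contributes `0`, so `A0 f = A0 (∑ ci' mi)`, and `f = ∑ ci' mi` by `h0`.
(2): `x f ∈ I ⊔ span {A0} → f ∈ I ⊔ span {A0}`: `∑ ci mi = x f - A0 r`; Lemma S with `J = span {A0, x}`:
`ci = syzygy_i + A0 ci'' + x ci'`, so `x (f - ∑ ci' mi) ∈ span {A0}`, so `f - ∑ ci' mi ∈ span {A0}` by `h1`.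
(3): `x f ∈ span {A0 ^ N} ⊔ I → f ∈ span {A0 ^ N} ⊔ I`, induction on `N`; `N = 0` trivial. `N + 1`: by (2)
`f = A0 q + i`, `i ∈ I`; `x A0 q = A0 ^ (N + 1) r + i'`, so `A0 (x q - A0 ^ N r) ∈ I`, by (1)
`x q ∈ span {A0 ^ N} ⊔ I`, by induction `q ∈ span {A0 ^ N} ⊔ I`, so `f ∈ span {A0 ^ (N + 1)} ⊔ I`.
(4): `x ^ M f` by induction on `M`.
-/

private theorem T4_mem_detI {S : Type} [CommRing S] (A : Fin 4 → S) (f : S) :
    f ∈ detI A ↔ ∃ a b c : S, a * mn1 A + b * mn2 A + c * mn3 A = f := by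
  unfold detI Ideal.span
  rw [Submodule.mem_span_triple]
  simp only [smul_eq_mul]

/-- Lemma S: syzygies of the minors modulo an ideal containing `A 0`. -/
private theorem T4_S {S : Type} [CommRing S] (A : Fin 4 → S) (J : Ideal S) (hA0 : A 0 ∈ J)
    (hr1 : ∀ a, A 1 * a ∈ J → a ∈ J)
    (hr2 : ∀ a, A 2 * a ∈ J ⊔ Ideal.span {A 1} → a ∈ J ⊔ Ideal.span {A 1})
    (c1 c2 c3 : S) (h : c1 * mn1 A + c2 * mn2 A + c3 * mn3 A ∈ J) :
    ∃ d e : S, c1 - (d * A 1 - e * A 0) ∈ J ∧ c2 - (-d * A 2 + e * A 1) ∈ J ∧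
      c3 - (d * A 3 - e * A 2) ∈ J := by
  -- modulo `A 0`
  have h1 : c1 * (A 1 * A 3 - A 2 ^ 2) - c2 * (A 1 * A 2) - c3 * A 1 ^ 2 ∈ J := by
    have : c1 * (A 1 * A 3 - A 2 ^ 2) - c2 * (A 1 * A 2) - c3 * A 1 ^ 2 =
        (c1 * mn1 A + c2 * mn2 A + c3 * mn3 A) - (c2 * A 3 + c3 * A 2) * A 0 := by
      unfold mn1 mn2 mn3; ring
    rw [this]
    exact J.sub_mem h (J.mul_mem_left _ hA0)
  have h2 : A 2 * (A 2 * c1) ∈ J ⊔ Ideal.span {A 1} := by
    have : A 2 * (A 2 * c1) = -(c1 * (A 1 * A 3 - A 2 ^ 2) - c2 * (A 1 * A 2) - c3 * A 1 ^ 2) +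
        (c1 * A 3 - c2 * A 2 - c3 * A 1) * A 1 := by ring
    rw [this]
    exact Submodule.add_mem_sup (J.neg_mem h1) (Ideal.mul_mem_left _ _ (Ideal.mem_span_singleton_self _))
  have h3 := hr2 _ (hr2 _ h2)
  obtain ⟨j1, hj1, w, hw, hc1⟩ := Submodule.mem_sup.mp h3
  obtain ⟨d, rfl⟩ := Ideal.mem_span_singleton'.mp hw
  have h4 : A 1 * (d * (A 1 * A 3 - A 2 ^ 2) - c2 * A 2 - c3 * A 1) ∈ J := by
    have : A 1 * (d * (A 1 * A 3 - A 2 ^ 2) - c2 * A 2 - c3 * A 1) =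
        (c1 * (A 1 * A 3 - A 2 ^ 2) - c2 * (A 1 * A 2) - c3 * A 1 ^ 2) -
          (A 1 * A 3 - A 2 ^ 2) * j1 := by
      rw [← hc1]; ring
    rw [this]
    exact J.sub_mem h1 (J.mul_mem_left _ hj1)
  have h5 := hr1 _ h4
  have h6 : A 2 * (d * A 2 + c2) ∈ J ⊔ Ideal.span {A 1} := by
    have : A 2 * (d * A 2 + c2) = -(d * (A 1 * A 3 - A 2 ^ 2) - c2 * A 2 - c3 * A 1) +
        (d * A 3 - c3) * A 1 := by ring
    rw [this]
    exact Submodule.add_mem_sup (J.neg_mem h5) (Ideal.mul_mem_left _ _ (Ideal.mem_span_singleton_self _))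
  obtain ⟨j2, hj2, w, hw, hc2⟩ := Submodule.mem_sup.mp (hr2 _ h6)
  obtain ⟨e, rfl⟩ := Ideal.mem_span_singleton'.mp hw
  have h7 : A 1 * (d * A 3 - c3 - A 2 * e) ∈ J := by
    have : A 1 * (d * A 3 - c3 - A 2 * e) =
        (d * (A 1 * A 3 - A 2 ^ 2) - c2 * A 2 - c3 * A 1) + A 2 * j2 := by
      have h8 : c2 = j2 + e * A 1 - d * A 2 := by rw [hc2]; ring
      rw [h8]; ring
    rw [this]
    exact J.add_mem h5 (J.mul_mem_left _ hj2)
  have h8 := hr1 _ h7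
  refine ⟨d, e, ?_, ?_, ?_⟩
  · have : c1 - (d * A 1 - e * A 0) = j1 + e * A 0 := by rw [← hc1]; ring
    rw [this]
    exact J.add_mem hj1 (J.mul_mem_left _ hA0)
  · have : c2 - (-d * A 2 + e * A 1) = j2 := by
      have h9 : c2 = j2 + e * A 1 - d * A 2 := by rw [hc2]; ring
      rw [h9]; ring
    rw [this]
    exact hj2
  · have : c3 - (d * A 3 - e * A 2) = -(d * A 3 - c3 - A 2 * e) := by ring
    rw [this]
    exact J.neg_mem h8

private theorem T4_syz {S : Type} [CommRing S] (A : Fin 4 → S) (d e : S) :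
    (d * A 1 - e * A 0) * mn1 A + (-d * A 2 + e * A 1) * mn2 A + (d * A 3 - e * A 2) * mn3 A = 0 := by
  unfold mn1 mn2 mn3; ring

theorem det_reg (S : Type) [CommRing S] (A : Fin 4 → S) (x : S)
    (h0 : ∀ a, A 0 * a = 0 → a = 0)
    (h1 : ∀ a, x * a ∈ Ideal.span {A 0} → a ∈ Ideal.span {A 0})
    (r1 : ∀ a, A 1 * a ∈ Ideal.span {A 0} → a ∈ Ideal.span {A 0})
    (r2 : ∀ a, A 2 * a ∈ Ideal.span {A 0, A 1} → a ∈ Ideal.span {A 0, A 1})
    (s1 : ∀ a, A 1 * a ∈ Ideal.span {A 0, x} → a ∈ Ideal.span {A 0, x})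
    (s2 : ∀ a, A 2 * a ∈ Ideal.span {A 0, x, A 1} → a ∈ Ideal.span {A 0, x, A 1}) :
    (∀ f, A 0 * f ∈ detI A → f ∈ detI A) ∧
    ∀ (N M : ℕ) (f : S), x ^ M * f ∈ Ideal.span {A 0 ^ N} ⊔ detI A →
      f ∈ Ideal.span {A 0 ^ N} ⊔ detI A := by
  -- (1)
  have P1 : ∀ f, A 0 * f ∈ detI A → f ∈ detI A := by
    intro f hf
    obtain ⟨c1, c2, c3, hc⟩ := (T4_mem_detI A _).mp hf
    have hsup : Ideal.span {A 0} ⊔ Ideal.span {A 1} = Ideal.span {A 0, A 1} := by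
      rw [← Ideal.span_union]; rfl
    obtain ⟨d, e, e1, e2, e3⟩ := T4_S A (Ideal.span {A 0}) (Ideal.mem_span_singleton_self _) r1
      (by rw [hsup]; exact r2) c1 c2 c3 (by
        rw [hc]
        exact Ideal.mul_mem_right _ _ (Ideal.mem_span_singleton_self _))
    obtain ⟨b1, hb1⟩ := Ideal.mem_span_singleton'.mp e1
    obtain ⟨b2, hb2⟩ := Ideal.mem_span_singleton'.mp e2
    obtain ⟨b3, hb3⟩ := Ideal.mem_span_singleton'.mp e3
    have hs := T4_syz A d e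
    have key : A 0 * (f - (b1 * mn1 A + b2 * mn2 A + b3 * mn3 A)) = 0 := by
      have k1 : c1 = b1 * A 0 + (d * A 1 - e * A 0) := by rw [hb1]; ring
      have k2 : c2 = b2 * A 0 + (-d * A 2 + e * A 1) := by rw [hb2]; ring
      have k3 : c3 = b3 * A 0 + (d * A 3 - e * A 2) := by rw [hb3]; ring
      rw [k1, k2, k3] at hc
      linear_combination (-1 : S) * hc + hs
    have := h0 _ key
    rw [sub_eq_zero] at this
    rw [this]
    exact (T4_mem_detI A _).mpr ⟨b1, b2, b3, rfl⟩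
  -- (2)
  have P2 : ∀ f, x * f ∈ detI A ⊔ Ideal.span {A 0} → f ∈ detI A ⊔ Ideal.span {A 0} := by
    intro f hf
    obtain ⟨i, hi, w, hw, hxf⟩ := Submodule.mem_sup.mp hf
    obtain ⟨r, rfl⟩ := Ideal.mem_span_singleton'.mp hw
    obtain ⟨c1, c2, c3, hc⟩ := (T4_mem_detI A _).mp hi
    have hA0 : A 0 ∈ Ideal.span {A 0, x} := Ideal.subset_span (by simp)
    have hx : x ∈ Ideal.span {A 0, x} := Ideal.subset_span (by simp)
    have hsup : Ideal.span {A 0, x} ⊔ Ideal.span {A 1} = Ideal.span {A 0, x, A 1} := by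
      rw [← Ideal.span_union]
      congr 1
      ext y
      simp only [Set.mem_union, Set.mem_insert_iff, Set.mem_singleton_iff]
      tauto
    obtain ⟨d, e, e1, e2, e3⟩ := T4_S A (Ideal.span {A 0, x}) hA0 s1
      (by rw [hsup]; exact s2) c1 c2 c3 (by
        have : c1 * mn1 A + c2 * mn2 A + c3 * mn3 A = f * x - r * A 0 := by
          rw [hc]
          linear_combination hxf
        rw [this]
        exact Ideal.sub_mem _ (Ideal.mul_mem_left _ _ hx) (Ideal.mul_mem_left _ _ hA0))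
    obtain ⟨b1, g1, hb1⟩ := Ideal.mem_span_pair.mp e1
    obtain ⟨b2, g2, hb2⟩ := Ideal.mem_span_pair.mp e2
    obtain ⟨b3, g3, hb3⟩ := Ideal.mem_span_pair.mp e3
    have hs := T4_syz A d e
    have key : x * (f - (g1 * mn1 A + g2 * mn2 A + g3 * mn3 A)) ∈ Ideal.span {A 0} := by
      refine Ideal.mem_span_singleton'.mpr ⟨r + (b1 * mn1 A + b2 * mn2 A + b3 * mn3 A), ?_⟩
      have k1 : c1 = b1 * A 0 + g1 * x + (d * A 1 - e * A 0) := by rw [hb1]; ring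
      have k2 : c2 = b2 * A 0 + g2 * x + (-d * A 2 + e * A 1) := by rw [hb2]; ring
      have k3 : c3 = b3 * A 0 + g3 * x + (d * A 3 - e * A 2) := by rw [hb3]; ring
      rw [← hc, k1, k2, k3] at hxf
      linear_combination hxf - hs
    have := h1 _ key
    have hf2 : f = (g1 * mn1 A + g2 * mn2 A + g3 * mn3 A) + (f - (g1 * mn1 A + g2 * mn2 A + g3 * mn3 A)) := by
      ring
    rw [hf2]
    exact Submodule.add_mem_sup ((T4_mem_detI A _).mpr ⟨g1, g2, g3, rfl⟩) this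
  -- (3)
  have P3 : ∀ (N : ℕ) (f : S), x * f ∈ Ideal.span {A 0 ^ N} ⊔ detI A →
      f ∈ Ideal.span {A 0 ^ N} ⊔ detI A := by
    intro N
    induction N with
    | zero =>
      intro f _
      have : Ideal.span {A 0 ^ 0} = (⊤ : Ideal S) := by simp
      rw [this, top_sup_eq]
      exact Submodule.mem_top
    | succ N ih =>
      intro f hf
      obtain ⟨w, hw, i, hi, hxf⟩ := Submodule.mem_sup.mp hf
      obtain ⟨r, rfl⟩ := Ideal.mem_span_singleton'.mp hw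
      have hf2 : f ∈ detI A ⊔ Ideal.span {A 0} := by
        apply P2
        rw [← hxf, add_comm]
        refine Submodule.add_mem_sup hi (Ideal.mem_span_singleton'.mpr ⟨r * A 0 ^ N, ?_⟩)
        ring
      obtain ⟨i', hi', w, hw, hfq⟩ := Submodule.mem_sup.mp hf2
      obtain ⟨q, rfl⟩ := Ideal.mem_span_singleton'.mp hw
      have h3 : A 0 * (x * q - A 0 ^ N * r) ∈ detI A := by
        have : A 0 * (x * q - A 0 ^ N * r) = i - x * i' := by
          have : x * f = x * i' + x * (q * A 0) := by rw [← hfq]; ring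
          rw [this] at hxf
          linear_combination (-1 : S) * hxf
        rw [this]
        exact Ideal.sub_mem _ hi (Ideal.mul_mem_left _ _ hi')
      have h4 := P1 _ h3
      have h5 : x * q ∈ Ideal.span {A 0 ^ N} ⊔ detI A := by
        have : x * q = r * A 0 ^ N + (x * q - A 0 ^ N * r) := by ring
        rw [this]
        exact Submodule.add_mem_sup (Ideal.mem_span_singleton'.mpr ⟨r, rfl⟩) h4
      obtain ⟨w, hw, i'', hi'', hq⟩ := Submodule.mem_sup.mp (ih q h5)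
      obtain ⟨s, rfl⟩ := Ideal.mem_span_singleton'.mp hw
      have : f = s * A 0 ^ (N + 1) + (i' + A 0 * i'') := by
        rw [← hfq, ← hq]; ring
      rw [this]
      exact Submodule.add_mem_sup (Ideal.mem_span_singleton'.mpr ⟨s, rfl⟩)
        (Ideal.add_mem _ hi' (Ideal.mul_mem_left _ _ hi''))
  refine ⟨P1, fun N M => ?_⟩
  induction M with
  | zero => intro f hf; simpa using hf
  | succ M ih =>
    intro f hf
    apply ih
    apply P3
    have : x * (x ^ M * f) = x ^ (M + 1) * f := by ring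
    rw [this]
    exact hf

end Pool.Agent.LibHP
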