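import Pool.Agent.LibHPF.Q4
import Pool.Agent.LibHPF.T4

set_option autoImplicit false
open MvPolynomial

namespace Pool.Agent.LibHP

/-!
# Row T5: regular sequences of forms in four variables

PLAN. Prove the hypotheses of `det_reg` (row T4) with `S = MvPolynomial (Fin 4) Ω`, `x = X 1`.
`h0`: `A 0 = X 0` in a domain. Let `π3 : S → MvPolynomial (Fin 3) Ω` be `X 0 ↦ 0`, `X (i.succ) ↦ X i`: surjective with
kernel `span {X 0}` (both can be proved with the section `rename Fin.succ`: `f - rename Fin.succ (π3 f) ∈ span {X 0}`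
by `MvPolynomial.induction_on`), and `π2 : S → MvPolynomial (Fin 2) Ω`, `X 0, X 1 ↦ 0`, `X 2 ↦ X 0`, `X 3 ↦ X 1`:
surjective with kernel `span {X 0, X 1}`.
Let `B1, B2` be the images of `A 1, A 2` under `π3` (forms of degrees 2 and 3 in three variables) and `C1, C2` the
images under `π2`. By `h4` the forms `C1, C2` have no common zero in `Fin 2 → Ω` except `0` (a point `z'` gives the
point `![0, 0, z' 0, z' 1]`), and `B1, B2, X 0` have no common zero in `Fin 3 → Ω` except `0`.
Claim: `C1, C2` are coprime (and not zero): a common irreducible factor `q` of two forms (or `C1 = 0`: then `q = C2`,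
or `C2 = 0`, `q = C1`) is a form of positive degree (factors of a nonzero form are forms; see row Q16a,
or Mathlib `MvPolynomial.IsHomogeneous` ... `of_mul`), so by `exists_zero_of_lt` (one form, two variables) it has a
nontrivial zero, a common zero of `C1, C2`: contradiction. Same for `B1, B2`: a common factor `q` and `X 0`: two
forms in three variables.
`r1`: `B1 * π3 a = 0` implies `π3 a = 0`. `r2`: `B2 * π3 a ∈ span {B1}`, `B1 ∣ B2 * π3 a`, so `B1 ∣ π3 a` (coprime in a
UFD: `IsRelPrime.dvd_of_dvd_mul_left` or so), lift back: `a ∈ span {X 0, A 1}`. `s1`, `s2`: the same with `π2`. `h1`: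
`π3 (X 1) = X 0 ≠ 0`.
-/

theorem T5_top {Ω σ : Type} [Field Ω] (a q : MvPolynomial σ Ω) :
    homogeneousComponent (a.totalDegree + q.totalDegree) (a * q) =
      homogeneousComponent a.totalDegree a * homogeneousComponent q.totalDegree q := by
  classical
  conv_lhs => rw [← sum_homogeneousComponent q, Finset.mul_sum, map_sum]
  rw [sum_homogeneousComponent q]
  have h : ∀ n, homogeneousComponent (a.totalDegree + q.totalDegree)
      (a * homogeneousComponent n q) =
      if n ≤ a.totalDegree + q.totalDegree then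
        homogeneousComponent (a.totalDegree + q.totalDegree - n) a * homogeneousComponent n q
      else 0 := fun n =>
    Q3_hc_mul a _ n _ (homogeneousComponent_isHomogeneous n q)
  rw [Finset.sum_congr rfl fun n _ => h n, Finset.sum_eq_single q.totalDegree]
  · rw [if_pos (by omega), Nat.add_sub_cancel]
  · intro n hn hne
    rw [Finset.mem_range] at hn
    rw [if_pos (by omega), homogeneousComponent_eq_zero, zero_mul]
    omega
  · intro hn
    exact absurd (Finset.mem_range.2 (Nat.lt_succ_self _)) hn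

theorem T5_top_ne {Ω σ : Type} [Field Ω] (q : MvPolynomial σ Ω) (hq : q ≠ 0) :
    homogeneousComponent q.totalDegree q ≠ 0 := by
  classical
  obtain ⟨s, hs, hs'⟩ : ∃ s ∈ q.support, q.totalDegree = s.degree := by
    have hne : q.support.Nonempty := support_nonempty.2 hq
    obtain ⟨s, hs, hs'⟩ := Finset.exists_mem_eq_sup q.support hne
      (fun s : σ →₀ ℕ => s.sum fun _ e => e)
    refine ⟨s, hs, ?_⟩
    rw [totalDegree, hs']
    rfl
  intro h
  have h1 := congrArg (coeff s) h
  rw [coeff_homogeneousComponent, coeff_zero, if_pos hs'.symm] at h1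
  exact mem_support_iff.1 hs h1

theorem T5_dvd {Ω σ : Type} [Field Ω] (P d : MvPolynomial σ Ω) (p : ℕ) (hP : P.IsHomogeneous p)
    (hd : d ∣ P) : homogeneousComponent d.totalDegree d ∣ P := by
  by_cases hP0 : P = 0
  · rw [hP0]; exact dvd_zero _
  obtain ⟨a, rfl⟩ := hd
  have hd0 : d ≠ 0 := left_ne_zero_of_mul hP0
  have ha0 : a ≠ 0 := right_ne_zero_of_mul hP0
  have h1 : p = d.totalDegree + a.totalDegree := by
    rw [← totalDegree_mul_of_isDomain hd0 ha0, hP.totalDegree hP0]
  refine ⟨homogeneousComponent a.totalDegree a, ?_⟩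
  rw [← T5_top, ← h1, homogeneousComponent_of_mem hP, if_pos rfl]

theorem T5_ne {Ω σ ι : Type} [Field Ω] [IsAlgClosed Ω] [Fintype σ] [Fintype ι]
    (hlt : Fintype.card ι + 1 < Fintype.card σ) (P Q : MvPolynomial σ Ω) (q : ℕ) (hq0 : 0 < q)
    (hQ : Q.IsHomogeneous q)
    (L : ι → MvPolynomial σ Ω) (d : ι → ℕ) (hd : ∀ i, 0 < d i)
    (hL : ∀ i, (L i).IsHomogeneous (d i))
    (h : ∀ z : σ → Ω, eval z P = 0 → eval z Q = 0 → (∀ i, eval z (L i) = 0) → z = 0) :
    P ≠ 0 := by
  rintro rfl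
  obtain ⟨y, hy0, hy⟩ := exists_zero_of_lt Ω σ (Option ι) (by rw [Fintype.card_option]; exact hlt)
    (fun o => o.elim Q L) (fun o => o.elim q d)
    (fun o => by cases o with
      | none => exact hq0
      | some i => exact hd i)
    (fun o => by cases o with
      | none => exact hQ
      | some i => exact hL i)
  exact hy0 (h y (map_zero _) (hy none) fun i => hy (some i))

theorem T5_rel {Ω σ ι : Type} [Field Ω] [IsAlgClosed Ω] [Fintype σ] [Fintype ι]
    (hlt : Fintype.card ι + 1 < Fintype.card σ) (P Q : MvPolynomial σ Ω) (p q : ℕ)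
    (hq0 : 0 < q) (hP : P.IsHomogeneous p) (hQ : Q.IsHomogeneous q)
    (L : ι → MvPolynomial σ Ω) (d : ι → ℕ) (hd : ∀ i, 0 < d i)
    (hL : ∀ i, (L i).IsHomogeneous (d i))
    (h : ∀ z : σ → Ω, eval z P = 0 → eval z Q = 0 → (∀ i, eval z (L i) = 0) → z = 0) :
    IsRelPrime P Q := by
  intro g hgP hgQ
  by_contra hu
  have hP0 := T5_ne hlt P Q q hq0 hQ L d hd hL h
  have hg0 : g ≠ 0 := by
    rintro rfl
    exact hP0 (zero_dvd_iff.1 hgP)
  have hdeg : 0 < g.totalDegree := by
    rw [Nat.pos_iff_ne_zero]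
    intro h0
    apply hu
    rw [totalDegree_eq_zero_iff_eq_C] at h0
    rw [h0]
    refine IsUnit.map C (isUnit_iff_ne_zero.2 fun hc => hg0 ?_)
    rw [h0, hc, C_0]
  obtain ⟨y, hy0, hy⟩ := exists_zero_of_lt Ω σ (Option ι) (by rw [Fintype.card_option]; exact hlt)
    (fun o => o.elim (homogeneousComponent g.totalDegree g) L) (fun o => o.elim g.totalDegree d)
    (fun o => by cases o with
      | none => exact hdeg
      | some i => exact hd i)
    (fun o => by cases o with
      | none => exact homogeneousComponent_isHomogeneous _ _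
      | some i => exact hL i)
  have hy' : eval y (homogeneousComponent g.totalDegree g) = 0 := hy none
  have hdvd : ∀ F : MvPolynomial σ Ω, homogeneousComponent g.totalDegree g ∣ F →
      eval y F = 0 := by
    rintro F ⟨a, rfl⟩
    rw [map_mul, hy', zero_mul]
  exact hy0 (h y (hdvd P (T5_dvd P g p hP hgP)) (hdvd Q (T5_dvd Q g q hQ hgQ))
    fun i => hy (some i))

theorem T5_lift {S R : Type} [CommRing S] [CommRing R] [IsDomain R] [DecompositionMonoid R]
    (π : S →+* R) (hπ : Function.Surjective π) (a1 a2 : S) (h1 : π a1 ≠ 0)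
    (hrel : IsRelPrime (π a1) (π a2)) :
    (∀ a, a1 * a ∈ RingHom.ker π → a ∈ RingHom.ker π) ∧
    (∀ a, a2 * a ∈ RingHom.ker π ⊔ Ideal.span {a1} → a ∈ RingHom.ker π ⊔ Ideal.span {a1}) := by
  refine ⟨fun a ha => ?_, fun a ha => ?_⟩
  · rw [RingHom.mem_ker, map_mul] at ha
    rw [RingHom.mem_ker]
    exact (mul_eq_zero.1 ha).resolve_left h1
  · obtain ⟨k, hk, m, hm, hkm⟩ := Submodule.mem_sup.1 ha
    obtain ⟨r, rfl⟩ := Ideal.mem_span_singleton'.1 hm
    have h2 : π a1 ∣ π a * π a2 := by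
      refine ⟨π r, ?_⟩
      rw [← map_mul, ← map_mul, mul_comm a a2, ← hkm, map_add, (RingHom.mem_ker).1 hk, zero_add,
        mul_comm r a1]
    obtain ⟨c, hc⟩ := hrel.dvd_of_dvd_mul_right h2
    obtain ⟨c', rfl⟩ := hπ c
    refine Submodule.mem_sup.2 ⟨a - c' * a1, ?_, c' * a1,
      Ideal.mem_span_singleton'.2 ⟨c', rfl⟩, by ring⟩
    rw [RingHom.mem_ker, map_sub, hc, map_mul, mul_comm, sub_self]

theorem T5_ker {Ω σ τ : Type} [Field Ω] (π : MvPolynomial σ Ω →ₐ[Ω] MvPolynomial τ Ω)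
    (s : MvPolynomial τ Ω →ₐ[Ω] MvPolynomial σ Ω) (J : Ideal (MvPolynomial σ Ω))
    (h1 : ∀ i, s (π (X i)) - X i ∈ J) (h2 : J ≤ RingHom.ker (π : MvPolynomial σ Ω →+* MvPolynomial τ Ω)) :
    RingHom.ker (π : MvPolynomial σ Ω →+* MvPolynomial τ Ω) = J := by
  refine le_antisymm (fun f hf => ?_) h2
  have h3 : (Ideal.Quotient.mkₐ Ω J).comp (s.comp π) = Ideal.Quotient.mkₐ Ω J := by
    refine MvPolynomial.algHom_ext fun i => ?_
    rw [AlgHom.comp_apply, AlgHom.comp_apply]
    exact Ideal.Quotient.eq.2 (h1 i)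
  have h4 : Ideal.Quotient.mk J (s (π f)) = Ideal.Quotient.mk J f :=
    congrArg (fun g => g f) h3
  have h5 : π f = 0 := hf
  rw [h5, map_zero, map_zero] at h4
  exact Ideal.Quotient.eq_zero_iff_mem.1 h4.symm

theorem T5_eval {Ω σ τ : Type} [Field Ω] (g : σ → MvPolynomial τ Ω) (z : τ → Ω)
    (f : MvPolynomial σ Ω) : eval z (aeval g f) = eval (fun i => eval z (g i)) f := by
  induction f using MvPolynomial.induction_on with
  | C a => simp
  | add p q hp hq => rw [map_add, map_add, hp, hq, map_add]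
  | mul_X p i hp => rw [map_mul, map_mul, hp, aeval_X, map_mul, eval_X]

theorem det_reg_forms (Ω : Type) [Field Ω] [IsAlgClosed Ω] (A : Fin 4 → MvPolynomial (Fin 4) Ω)
    (hA0 : A 0 = X 0) (hA : ∀ a : Fin 4, (A a).IsHomogeneous (a.val + 1))
    (h4 : ∀ z : Fin 4 → Ω, z 0 = 0 → z 1 = 0 → eval z (A 1) = 0 → eval z (A 2) = 0 → z = 0) :
    (∀ f, X 0 * f ∈ detI A → f ∈ detI A) ∧
    ∀ (N M : ℕ) (f : MvPolynomial (Fin 4) Ω), X 1 ^ M * f ∈ Ideal.span {X 0 ^ N} ⊔ detI A →
      f ∈ Ideal.span {X 0 ^ N} ⊔ detI A := by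
  classical
  -- the maps
  let g3 : Fin 4 → MvPolynomial (Fin 3) Ω := Fin.cons 0 X
  let g2 : Fin 4 → MvPolynomial (Fin 2) Ω := Fin.cons 0 (Fin.cons 0 X)
  let π3 : MvPolynomial (Fin 4) Ω →ₐ[Ω] MvPolynomial (Fin 3) Ω := aeval g3
  let π2 : MvPolynomial (Fin 4) Ω →ₐ[Ω] MvPolynomial (Fin 2) Ω := aeval g2
  have e30 : π3 (X 0) = 0 := aeval_X _ _
  have e3s : ∀ j : Fin 3, π3 (X j.succ) = X j := fun j => aeval_X _ _
  have e20 : π2 (X 0) = 0 := aeval_X _ _
  have e21 : π2 (X 1) = 0 := aeval_X _ _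
  have e2s : ∀ j : Fin 2, π2 (X j.succ.succ) = X j := fun j => aeval_X _ _
  have sur3 : Function.Surjective (π3 : MvPolynomial (Fin 4) Ω →+* MvPolynomial (Fin 3) Ω) := by
    intro f
    refine ⟨rename Fin.succ f, ?_⟩
    have : π3.comp (rename Fin.succ) = AlgHom.id Ω _ := by
      refine MvPolynomial.algHom_ext fun j => ?_
      rw [AlgHom.comp_apply, rename_X, e3s]
      rfl
    exact congrArg (fun g => g f) this
  have sur2 : Function.Surjective (π2 : MvPolynomial (Fin 4) Ω →+* MvPolynomial (Fin 2) Ω) := by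
    intro f
    refine ⟨rename (fun j : Fin 2 => j.succ.succ) f, ?_⟩
    have : π2.comp (rename (fun j : Fin 2 => j.succ.succ)) = AlgHom.id Ω _ := by
      refine MvPolynomial.algHom_ext fun j => ?_
      rw [AlgHom.comp_apply, rename_X, e2s]
      rfl
    exact congrArg (fun g => g f) this
  have ker3 : RingHom.ker (π3 : MvPolynomial (Fin 4) Ω →+* MvPolynomial (Fin 3) Ω) =
      Ideal.span {X 0} := by
    refine T5_ker π3 (rename Fin.succ) _ (fun i => ?_) ?_
    · refine Fin.cases ?_ (fun j => ?_) i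
      · rw [e30, map_zero, zero_sub]
        exact neg_mem (Ideal.subset_span rfl)
      · rw [e3s, rename_X, sub_self]
        exact zero_mem _
    · rw [Ideal.span_le]
      rintro _ rfl
      exact e30
  have ker2 : RingHom.ker (π2 : MvPolynomial (Fin 4) Ω →+* MvPolynomial (Fin 2) Ω) =
      Ideal.span {X 0, X 1} := by
    refine T5_ker π2 (rename (fun j : Fin 2 => j.succ.succ)) _ (fun i => ?_) ?_
    · refine Fin.cases ?_ (fun j => Fin.cases ?_ (fun j' => ?_) j) i
      · rw [e20, map_zero, zero_sub]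
        exact neg_mem (Ideal.subset_span (by simp))
      · have : π2 (X (Fin.succ 0)) = 0 := e21
        rw [this, map_zero, zero_sub]
        exact neg_mem (Ideal.subset_span (by simp))
      · rw [e2s, rename_X, sub_self]
        exact zero_mem _
    · rw [Ideal.span_le]
      rintro f hf
      rcases hf with hf | hf
      · rw [hf]; exact e20
      · rw [Set.mem_singleton_iff.1 hf]; exact e21
  have hom3 : ∀ a : Fin 4, (π3 (A a)).IsHomogeneous (a.val + 1) := by
    intro a
    have := (hA a).aeval g3 (n := 1) (fun i => by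
      refine Fin.cases ?_ (fun j => ?_) i
      · exact isHomogeneous_zero _ _ _
      · exact isHomogeneous_X _ _)
    rwa [one_mul] at this
  have hom2 : ∀ a : Fin 4, (π2 (A a)).IsHomogeneous (a.val + 1) := by
    intro a
    have := (hA a).aeval g2 (n := 1) (fun i => by
      refine Fin.cases ?_ (fun j => Fin.cases ?_ (fun j' => ?_) j) i
      · exact isHomogeneous_zero _ _ _
      · exact isHomogeneous_zero _ _ _
      · exact isHomogeneous_X _ _)
    rwa [one_mul] at this
  have z3 : ∀ z : Fin 3 → Ω, eval z (π3 (A 1)) = 0 → eval z (π3 (A 2)) = 0 →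
      (∀ _ : Unit, eval z (X 0 : MvPolynomial (Fin 3) Ω) = 0) → z = 0 := by
    intro z h1 h2 h3
    have hz0 : z 0 = 0 := by
      have := h3 ()
      rwa [eval_X] at this
    have hev : ∀ f, eval z (π3 f) = eval (Fin.cons 0 z : Fin 4 → Ω) f := by
      intro f
      rw [T5_eval]
      congr 1
      congr 1
      funext i
      refine Fin.cases ?_ (fun j => ?_) i
      · exact map_zero _
      · exact eval_X _
    rw [hev] at h1 h2
    have := h4 (Fin.cons 0 z) rfl hz0 h1 h2
    funext j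
    exact congrFun this j.succ
  have z2 : ∀ z : Fin 2 → Ω, eval z (π2 (A 1)) = 0 → eval z (π2 (A 2)) = 0 →
      (∀ i : Fin 0, eval z (i.elim0 : MvPolynomial (Fin 2) Ω) = 0) → z = 0 := by
    intro z h1 h2 _
    have hev : ∀ f, eval z (π2 f) = eval (Fin.cons 0 (Fin.cons 0 z) : Fin 4 → Ω) f := by
      intro f
      rw [T5_eval]
      congr 1
      congr 1
      funext i
      refine Fin.cases ?_ (fun j => Fin.cases ?_ (fun j' => ?_) j) i
      · exact map_zero _
      · exact map_zero _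
      · exact eval_X _
    rw [hev] at h1 h2
    have := h4 (Fin.cons 0 (Fin.cons 0 z)) rfl rfl h1 h2
    funext j
    exact congrFun this j.succ.succ
  have c3 : Fintype.card Unit + 1 < Fintype.card (Fin 3) := by
    rw [Fintype.card_unit, Fintype.card_fin]; norm_num
  have c2 : Fintype.card (Fin 0) + 1 < Fintype.card (Fin 2) := by
    rw [Fintype.card_fin, Fintype.card_fin]; norm_num
  have ne3 : π3 (A 1) ≠ 0 := T5_ne c3 (π3 (A 1)) (π3 (A 2)) _ (Nat.succ_pos _) (hom3 2)
    (fun _ : Unit => X 0) (fun _ => 1) (fun _ => one_pos) (fun _ => isHomogeneous_X _ _) z3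
  have rel3 : IsRelPrime (π3 (A 1)) (π3 (A 2)) := T5_rel c3 (π3 (A 1)) (π3 (A 2)) _ _
    (Nat.succ_pos _) (hom3 1) (hom3 2)
    (fun _ : Unit => X 0) (fun _ => 1) (fun _ => one_pos) (fun _ => isHomogeneous_X _ _) z3
  have ne2 : π2 (A 1) ≠ 0 := T5_ne c2 (π2 (A 1)) (π2 (A 2)) _ (Nat.succ_pos _) (hom2 2)
    (fun i : Fin 0 => i.elim0) (fun _ => 1) (fun _ => one_pos) (fun i => i.elim0) z2
  have rel2 : IsRelPrime (π2 (A 1)) (π2 (A 2)) := T5_rel c2 (π2 (A 1)) (π2 (A 2)) _ _
    (Nat.succ_pos _) (hom2 1) (hom2 2)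
    (fun i : Fin 0 => i.elim0) (fun _ => 1) (fun _ => one_pos) (fun i => i.elim0) z2
  obtain ⟨r1, r2⟩ := T5_lift (π3 : MvPolynomial (Fin 4) Ω →+* MvPolynomial (Fin 3) Ω) sur3
    (A 1) (A 2) ne3 rel3
  obtain ⟨s1, s2⟩ := T5_lift (π2 : MvPolynomial (Fin 4) Ω →+* MvPolynomial (Fin 2) Ω) sur2
    (A 1) (A 2) ne2 rel2
  rw [ker3, ← hA0] at r1 r2
  rw [ker2, ← hA0] at s1 s2
  have hr2 : Ideal.span {A 0} ⊔ Ideal.span {A 1} = Ideal.span {A 0, A 1} :=
    (Ideal.span_insert _ _).symm
  have hs2 : Ideal.span {A 0, X 1} ⊔ Ideal.span {A 1} = Ideal.span {A 0, X 1, A 1} := by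
    rw [Ideal.span_insert, sup_assoc, ← Ideal.span_insert, ← Ideal.span_insert]
  rw [hr2] at r2
  rw [hs2] at s2
  have h0 : ∀ a, A 0 * a = 0 → a = 0 := by
    intro a ha
    rw [hA0] at ha
    exact (mul_eq_zero.1 ha).resolve_left (X_ne_zero _)
  have h1 : ∀ a, X 1 * a ∈ Ideal.span {A 0} → a ∈ Ideal.span {A 0} := by
    intro a ha
    rw [hA0, ← ker3, RingHom.mem_ker, map_mul] at ha
    rw [hA0, ← ker3, RingHom.mem_ker]
    refine (mul_eq_zero.1 ha).resolve_left ?_
    have : π3 (X 1) = X 0 := e3s 0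
    exact fun h => X_ne_zero (R := Ω) (0 : Fin 3) (this.symm.trans h)
  have key := det_reg (MvPolynomial (Fin 4) Ω) A (X 1) h0 h1 r1 r2 s1 s2
  rw [hA0] at key
  exact key

end Pool.Agent.LibHP
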