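import Mathlib

set_option autoImplicit false

namespace Pool.Agent.LibHP

/-!
# Row T6: a regular local ring is a domain (only Mathlib)
-/

open IsLocalRing

/-- The maximal ideal of the quotient of a Noetherian local ring by `e` elements which are independent in the
cotangent space is generated by `dim (m / m ^ 2) - e` elements. -/
theorem T6_spanFinrank_quotient_le (R : Type) [CommRing R] [IsLocalRing R] [IsNoetherianRing R]
    (e : ℕ) (x : Fin e → maximalIdeal R)
    (hx : LinearIndependent (ResidueField R) (fun i => (maximalIdeal R).toCotangent (x i)))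
    (I : Ideal R) (hI : I = Ideal.span (Set.range fun i => (x i : R)))
    [IsLocalRing (R ⧸ I)] :
    (maximalIdeal (R ⧸ I)).spanFinrank + e
      ≤ Module.finrank (ResidueField R) (CotangentSpace R) := by
  classical
  let K := ResidueField R
  let V := CotangentSpace R
  let W : Submodule K V := Submodule.span K (Set.range fun i => (maximalIdeal R).toCotangent (x i))
  have hW : Module.finrank K W = e := by
    have := finrank_span_eq_card hx
    simpa using this
  have hq : Module.finrank K (V ⧸ W) + Module.finrank K W = Module.finrank K V :=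
    Submodule.finrank_quotient_add_finrank W
  let b := Module.finBasis K (V ⧸ W)
  have hsurj : Function.Surjective (fun v : maximalIdeal R => W.mkQ ((maximalIdeal R).toCotangent v)) := by
    intro y
    obtain ⟨v, rfl⟩ := W.mkQ_surjective y
    obtain ⟨u, rfl⟩ := (maximalIdeal R).toCotangent_surjective v
    exact ⟨u, rfl⟩
  choose y hy using fun j => hsurj (b j)
  have hspan : Submodule.span K ((maximalIdeal R).toCotangent '' (Set.range x ∪ Set.range y)) = ⊤ := by
    rw [eq_top_iff]
    intro v _
    have h1 : W.mkQ v ∈ Submodule.span K (Set.range b) := by rw [b.span_eq]; trivial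
    have h2 : Set.range b = W.mkQ '' (Set.range fun j => (maximalIdeal R).toCotangent (y j)) := by
      rw [← Set.range_comp]
      congr 1
      funext j
      exact (hy j).symm
    rw [h2, ← Submodule.map_span] at h1
    obtain ⟨w, hw, hwv⟩ := h1
    have h3 : v - w ∈ W := by
      have : W.mkQ (v - w) = 0 := by rw [map_sub, hwv, sub_self]
      exact (Submodule.Quotient.mk_eq_zero W).mp this
    have h4 : v = (v - w) + w := by abel
    rw [h4]
    apply Submodule.add_mem
    · refine Submodule.span_mono ?_ h3
      rintro _ ⟨i, rfl⟩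
      exact ⟨x i, Or.inl ⟨i, rfl⟩, rfl⟩
    · refine Submodule.span_mono ?_ hw
      rintro _ ⟨i, rfl⟩
      exact ⟨y i, Or.inr ⟨i, rfl⟩, rfl⟩
  rw [CotangentSpace.span_image_eq_top_iff] at hspan
  -- the maximal ideal is generated by the `x i` and the `y j`
  have hm : maximalIdeal R = Ideal.span ((Set.range fun i => (x i : R)) ∪ Set.range fun j => (y j : R)) := by
    have h5 := congrArg (Submodule.map (maximalIdeal R).subtype) hspan
    rw [Submodule.map_span, Submodule.map_top, Submodule.range_subtype] at h5
    refine h5.symm.trans ?_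
    rw [Set.image_union, ← Set.range_comp, ← Set.range_comp]
    rfl
  have hmap : maximalIdeal (R ⧸ I) = Ideal.span (Set.range fun j => Ideal.Quotient.mk I (y j : R)) := by
    refine (map_maximalIdeal_of_surjective (Ideal.Quotient.mk I) Ideal.Quotient.mk_surjective).symm.trans ?_
    refine (congrArg (Ideal.map (Ideal.Quotient.mk I)) hm).trans ?_
    rw [Ideal.map_span, Set.image_union, Ideal.span_union]
    have h6 : Ideal.span ((Ideal.Quotient.mk I) '' (Set.range fun i => (x i : R))) = ⊥ := by
      rw [Ideal.span_eq_bot]
      rintro _ ⟨_, ⟨i, rfl⟩, rfl⟩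
      rw [Ideal.Quotient.eq_zero_iff_mem, hI]
      exact Ideal.subset_span ⟨i, rfl⟩
    rw [h6, bot_sup_eq, ← Set.range_comp]
    rfl
  have h7 : (maximalIdeal (R ⧸ I)).spanFinrank ≤ Module.finrank K (V ⧸ W) := by
    rw [hmap]
    refine (Submodule.spanFinrank_span_le_ncard_of_finite (Set.finite_range _)).trans ?_
    rw [← Set.image_univ]
    refine (Set.ncard_image_le Set.finite_univ).trans ?_
    simp [Set.ncard_univ]
  have h8 : Module.finrank K (V ⧸ W) + e = Module.finrank K V := by rw [← hW]; exact hq
  calc (maximalIdeal (R ⧸ I)).spanFinrank + e ≤ Module.finrank K (V ⧸ W) + e := by gcongr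
    _ = Module.finrank K V := h8

/-- Adding to a Noetherian local ring: the dimension of the quotient by elements of the maximal ideal. -/
theorem T6_dim_le (R : Type) [CommRing R] [IsLocalRing R] [IsNoetherianRing R]
    (e : ℕ) (x : Fin e → maximalIdeal R)
    (I : Ideal R) (hI : I = Ideal.span (Set.range fun i => (x i : R))) :
    ringKrullDim R ≤ ringKrullDim (R ⧸ I) + (e : WithBot ℕ∞) := by
  classical
  refine (ringKrullDim_le_ringKrullDim_quotient_add_spanFinrank I ?_).trans ?_
  · rw [hI, Ideal.span_le]
    rintro _ ⟨i, rfl⟩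
    rw [IsLocalRing.ringJacobson_eq_maximalIdeal]
    exact (x i).2
  · gcongr
    have : I.spanFinrank ≤ e := by
      rw [hI]
      refine (Submodule.spanFinrank_span_le_ncard_of_finite (Set.finite_range _)).trans ?_
      rw [← Set.image_univ]
      refine (Set.ncard_image_le Set.finite_univ).trans ?_
      simp [Set.ncard_univ]
    exact_mod_cast this

/-- The quotient of a regular local ring by elements independent in the cotangent space is regular. -/
theorem T6_regular_quotient (R : Type) [CommRing R] [IsRegularLocalRing R]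
    (e : ℕ) (x : Fin e → maximalIdeal R)
    (hx : LinearIndependent (ResidueField R) (fun i => (maximalIdeal R).toCotangent (x i)))
    (I : Ideal R) (hI : I = Ideal.span (Set.range fun i => (x i : R))) :
    ∃ _ : IsRegularLocalRing (R ⧸ I),
      (maximalIdeal (R ⧸ I)).spanFinrank + e = (maximalIdeal R).spanFinrank := by
  classical
  have hne : I ≠ ⊤ := by
    intro h
    have h1 : I ≤ maximalIdeal R := by
      rw [hI, Ideal.span_le]
      rintro _ ⟨i, rfl⟩
      exact (x i).2
    exact (maximalIdeal.isMaximal R).ne_top (top_le_iff.mp (h ▸ h1))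
  have : Nontrivial (R ⧸ I) := Ideal.Quotient.nontrivial_iff.mpr hne
  have : IsLocalRing (R ⧸ I) := .of_surjective' _ Ideal.Quotient.mk_surjective
  have h0 : (maximalIdeal R).spanFinrank = Module.finrank (ResidueField R) (CotangentSpace R) :=
    spanFinrank_maximalIdeal_eq_finrank_cotangentSpace R
  have h1 : (maximalIdeal (R ⧸ I)).spanFinrank + e ≤ (maximalIdeal R).spanFinrank := by
    rw [h0]
    exact T6_spanFinrank_quotient_le R e x hx I hI
  have h2 := T6_dim_le R e x I hI
  have h3 : ((maximalIdeal R).spanFinrank : WithBot ℕ∞) = ringKrullDim R :=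
    IsRegularLocalRing.spanFinrank_maximalIdeal
  have h4 := ringKrullDim_le_spanFinrank_maximalIdeal (R ⧸ I)
  have h5 : ((maximalIdeal R).spanFinrank : WithBot ℕ∞)
      ≤ (maximalIdeal (R ⧸ I)).spanFinrank + (e : WithBot ℕ∞) := by
    rw [h3]
    exact h2.trans (by gcongr)
  have h6 : (maximalIdeal R).spanFinrank ≤ (maximalIdeal (R ⧸ I)).spanFinrank + e := by
    exact_mod_cast h5
  refine ⟨?_, le_antisymm h1 h6⟩
  apply IsRegularLocalRing.of_spanFinrank_maximalIdeal_le
  rw [← ENat.WithBot.add_le_add_natCast_right_iff (c := e)]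
  refine le_trans ?_ h2
  rw [← h3]
  exact_mod_cast h1

theorem T6_lin (K V : Type) [Field K] [AddCommGroup V] [Module K V] (v : Fin 1 → V) (h : v 0 ≠ 0) :
    LinearIndependent K v := by
  rw [linearIndependent_unique_iff]
  exact h

theorem T6_aux (d : ℕ) : ∀ (R : Type) [CommRing R] [IsRegularLocalRing R],
    (maximalIdeal R).spanFinrank = d → IsDomain R := by
  induction d with
  | zero =>
    intro R _ _ h
    have h1 : maximalIdeal R = ⊥ :=
      (Submodule.spanFinrank_eq_zero_iff_eq_bot (maximalIdeal R).fg_of_isNoetherianRing).mp h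
    exact (isField_iff_maximalIdeal_eq.mpr h1).isDomain
  | succ d ih =>
    intro R _ _ h
    have hdim : ((d + 1 : ℕ) : WithBot ℕ∞) = ringKrullDim R := by
      rw [← h]; exact IsRegularLocalRing.spanFinrank_maximalIdeal
    have hfg := (maximalIdeal R).fg_of_isNoetherianRing
    have hex : ∃ x ∈ maximalIdeal R, x ∉ maximalIdeal R ^ 2 ∧ ∀ p ∈ minimalPrimes R, x ∉ p := by
      by_contra hcon
      push Not at hcon
      have hsub : ((maximalIdeal R : Ideal R) : Set R) ⊆
          ⋃ i ∈ insert (maximalIdeal R ^ 2) (minimalPrimes R), ((id i : Ideal R) : Set R) := by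
        intro x hx
        simp only [Set.mem_iUnion, Set.mem_insert_iff, id]
        by_cases hx2 : x ∈ maximalIdeal R ^ 2
        · exact ⟨_, Or.inl rfl, hx2⟩
        · obtain ⟨p, hp, hxp⟩ := hcon x hx hx2
          exact ⟨p, Or.inr hp, hxp⟩
      rw [Ideal.subset_union_prime_finite ((minimalPrimes.finite_of_isNoetherianRing R).insert _)
        (maximalIdeal R ^ 2) (maximalIdeal R ^ 2)
        (by
          intro i hi h1 _
          rcases hi with hi | hi
          · exact absurd hi h1
          · exact hi.1.1)] at hsub
      obtain ⟨i, hi, hle⟩ := hsub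
      rcases hi with hi | hi
      · subst hi
        have h1 : maximalIdeal R = ⊥ := by
          apply Submodule.eq_bot_of_le_smul_of_le_jacobson_bot (maximalIdeal R) _ hfg
          · rw [smul_eq_mul, ← pow_two]; exact hle
          · exact IsLocalRing.maximalIdeal_le_jacobson _
        rw [h1, Submodule.spanFinrank_bot] at h
        omega
      · have hprime : (id i : Ideal R).IsPrime := hi.1.1
        have h1 : maximalIdeal R = i :=
          (maximalIdeal.isMaximal R).eq_of_le hprime.ne_top hle
        have h2 : (maximalIdeal R).height = 0 := by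
          rw [Ideal.height_eq_zero_iff, h1]; exact hi
        have h3 := maximalIdeal_height_eq_ringKrullDim (R := R)
        rw [h2, ← hdim] at h3
        norm_cast at h3
    obtain ⟨x, hxm, hx2, hxp⟩ := hex
    have hlin : LinearIndependent (ResidueField R)
        (fun i : Fin 1 => (maximalIdeal R).toCotangent ((fun _ => ⟨x, hxm⟩ : Fin 1 → maximalIdeal R) i)) := by
      apply T6_lin
      intro h0
      rw [Ideal.toCotangent_eq_zero] at h0
      exact hx2 h0
    obtain ⟨hreg, hrk⟩ := T6_regular_quotient R 1 _ hlin
      (Ideal.span (Set.range fun i : Fin 1 => ((fun _ => ⟨x, hxm⟩ : Fin 1 → maximalIdeal R) i : R))) rfl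
    have hdom := ih (R ⧸ Ideal.span (Set.range fun i : Fin 1 =>
      ((fun _ => ⟨x, hxm⟩ : Fin 1 → maximalIdeal R) i : R))) (by rw [h] at hrk; exact Nat.succ_injective hrk)
    have hIp := (Ideal.Quotient.isDomain_iff_prime _).mp hdom
    obtain ⟨p, hp, hpI⟩ := Ideal.exists_minimalPrimes_le (bot_le : (⊥ : Ideal R) ≤
      Ideal.span (Set.range fun i : Fin 1 => ((fun _ => ⟨x, hxm⟩ : Fin 1 → maximalIdeal R) i : R)))
    have hpp : p.IsPrime := hp.1.1
    have hxp' : x ∉ p := hxp p hp
    have hpb : p = ⊥ := by
      apply Submodule.eq_bot_of_le_smul_of_le_jacobson_bot (maximalIdeal R) p p.fg_of_isNoetherianRing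
      · intro y hy
        have h1 := hpI hy
        have h2 : (Set.range fun i : Fin 1 => ((fun _ => ⟨x, hxm⟩ : Fin 1 → maximalIdeal R) i : R)) = {x} := by
          ext z; simp [eq_comm]
        rw [h2, Ideal.mem_span_singleton] at h1
        obtain ⟨z, rfl⟩ := h1
        have h3 : z ∈ p := (hpp.mem_or_mem hy).resolve_left hxp'
        exact Ideal.mul_mem_mul hxm h3
      · exact IsLocalRing.maximalIdeal_le_jacobson _
    have : (⊥ : Ideal R).IsPrime := hpb ▸ hpp
    exact IsDomain.of_bot_isPrime R

theorem isDomain_of_regular (R : Type) [CommRing R] [IsRegularLocalRing R] : IsDomain R :=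
  T6_aux _ R rfl

end Pool.Agent.LibHP
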