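import Mathlib

set_option autoImplicit false

namespace Pool.Agent.LibHP

/-!
# Row T9: a connected Noetherian ring with integral local rings is a domain (only Mathlib)

PLAN. Suppose `f * g = 0`, `f ≠ 0`, `g ≠ 0`. Let `I = {a | a * f = 0}` and `J = {b | ∀ a ∈ I, b * a = 0}` (annihilators,
ideals). CLAIM: no maximal ideal `m` contains `I ⊔ J`. If there is `s ∉ m` with `s * f = 0` then `s ∈ I`. Otherwise
for every `a ∈ I`, `a * f = 0` and `hloc` give `s ∉ m` with `s * a = 0`; `I` is finitely generated, multiply the `s` of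
the generators: `s ∉ m` with `s * a = 0` for all `a ∈ I`, so `s ∈ J`. So `I ⊔ J = ⊤`, `1 = a + b`, `a ∈ I`, `b ∈ J`,
`a * b = 0`, so `a * a = a`. `a = 0`: then `b = 1 ∈ J`, so `I = ⊥`, but `g ∈ I`, contradiction. `a = 1`: `f = 0`,
contradiction.
-/

theorem domain_of_local (R : Type) [CommRing R] [IsNoetherianRing R] [Nontrivial R]
    (hloc : ∀ (m : Ideal R), m.IsMaximal → ∀ f g : R, f * g = 0 →
      ∃ s, s ∉ m ∧ (s * f = 0 ∨ s * g = 0))
    (hid : ∀ e : R, e * e = e → e = 0 ∨ e = 1) : IsDomain R := by
  classical
  have key : ∀ f g : R, f * g = 0 → f = 0 ∨ g = 0 := by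
    intro f g hfg
    by_contra hne
    push Not at hne
    obtain ⟨hf, hg⟩ := hne
    let I : Ideal R :=
      { carrier := {a | a * f = 0}
        add_mem' := by
          intro a b ha hb
          simp only [Set.mem_ofPred_eq] at *
          rw [add_mul, ha, hb, add_zero]
        zero_mem' := by simp
        smul_mem' := by
          intro c x hx
          simp only [Set.mem_ofPred_eq, smul_eq_mul] at *
          rw [mul_assoc, hx, mul_zero] }
    let J : Ideal R :=
      { carrier := {b | ∀ a ∈ I, b * a = 0}
        add_mem' := by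
          intro x y hx hy a ha
          rw [add_mul, hx a ha, hy a ha, add_zero]
        zero_mem' := by intro a _; simp
        smul_mem' := by
          intro c x hx a ha
          rw [smul_eq_mul, mul_assoc, hx a ha, mul_zero] }
    have hI : ∀ a, a ∈ I ↔ a * f = 0 := fun a => Iff.rfl
    have hJ : ∀ b, b ∈ J ↔ ∀ a ∈ I, b * a = 0 := fun b => Iff.rfl
    have htop : I ⊔ J = ⊤ := by
      by_contra hnt
      obtain ⟨m, hm, hle⟩ := Ideal.exists_le_maximal _ hnt
      have hIm : I ≤ m := le_trans le_sup_left hle
      have hJm : J ≤ m := le_trans le_sup_right hle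
      have hstep : ∀ a ∈ I, ∃ s, s ∉ m ∧ s * a = 0 := by
        intro a ha
        obtain ⟨s, hs, h | h⟩ := hloc m hm a f ((hI a).1 ha)
        · exact ⟨s, hs, h⟩
        · exact absurd (hIm ((hI s).2 h)) hs
      obtain ⟨S, hS⟩ := (isNoetherian_def.1 ‹IsNoetherianRing R›) I
      have hSI : ∀ a ∈ S, a ∈ I := by
        intro a ha
        rw [← hS]
        exact Submodule.subset_span ha
      choose! t ht using hstep
      have hprod : (∏ a ∈ S, t a) ∉ m := by
        haveI := hm.isPrime
        intro hmem
        obtain ⟨a, ha, hta⟩ := (Ideal.IsPrime.prod_mem_iff (s := S) (x := t) (p := m)).1 hmem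
        exact (ht a (hSI a ha)).1 hta
      apply hprod
      apply hJm
      rw [hJ]
      intro a ha
      rw [← hS] at ha
      refine Submodule.span_induction (p := fun a _ => (∏ a ∈ S, t a) * a = 0) ?_ ?_ ?_ ?_ ha
      · intro x hx
        have hx' : x ∈ S := hx
        rw [← Finset.prod_erase_mul _ _ hx', mul_assoc, (ht x (hSI x hx')).2, mul_zero]
      · simp
      · intro x y _ _ hx hy
        rw [mul_add, hx, hy, add_zero]
      · intro c x _ hx
        rw [smul_eq_mul, mul_left_comm, hx, mul_zero]
    have h1 : (1 : R) ∈ I ⊔ J := by rw [htop]; trivial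
    obtain ⟨a, ha, b, hb, hab⟩ := Submodule.mem_sup.1 h1
    have hba : b * a = 0 := (hJ b).1 hb a ha
    have haa : a * a = a := by
      have : (a + b) * a = a := by rw [hab, one_mul]
      rw [add_mul, hba, add_zero] at this
      exact this
    rcases hid a haa with h0 | h0
    · rw [h0, zero_add] at hab
      have hgI : g ∈ I := (hI g).2 (by rw [mul_comm]; exact hfg)
      have := (hJ b).1 hb g hgI
      rw [hab, one_mul] at this
      exact hg this
    · have := (hI a).1 ha
      rw [h0, one_mul] at this
      exact hf this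
  haveI : NoZeroDivisors R := ⟨fun {f g} h => key f g h⟩
  exact NoZeroDivisors.to_isDomain R

end Pool.Agent.LibHP
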