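import Pool.Agent.LibHPF.Defs

/-! # Row V1: `M(t_1, ..., t_r)(t) = M(t_1, ..., t_{r+1})`, naturally in `M`

Plan. As in `exists_algEquiv_ratFunc` (LibHP/F2.lean, read it): `RatFunc (RF M r)` is a fraction ring of
`(MvPolynomial (Fin r) M)[X]` (`F2_j`, `F2_isFractionRing`), and
`Ψ_M := IsFractionRing.ringEquivOfRingEquiv (MvPolynomial.finSuccEquiv M r).toRingEquiv :
RF M (r + 1) ≃+* RatFunc (RF M r)`. Take `ε := Ψ_M.symm`, `ε' := Ψ_Ω.symm`. Naturality: both
`rfmap j (r + 1) ∘ ε` and `ε' ∘ rmap (rfmap j r)` are ring homomorphisms out of `RatFunc (RF M r)`;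
equivalently `Ψ_Ω ∘ rfmap j (r+1) = rmap (rfmap j r) ∘ Ψ_M` on `RF M (r+1)`; by
`IsFractionRing`/`IsLocalization` ring hom extensionality and `MvPolynomial.ringHom_ext` it is enough to
compare constants `C c`, `X 0` and `X i.succ` (`finSuccEquiv_X_zero`, `finSuccEquiv_X_succ`;
`u_rmap_algebraMap`, `u_rmap_C` of LibHP/U1.lean compute `rmap`). -/

set_option autoImplicit false
open Polynomial

namespace Pool.Agent.LibHP

theorem exists_ratFunc_equiv_nat {M Ω : Type} [Field M] [Field Ω] (j : M →+* Ω) (r : ℕ) :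
    ∃ (ε : RatFunc (RF M r) ≃+* RF M (r + 1)) (ε' : RatFunc (RF Ω r) ≃+* RF Ω (r + 1)),
      (∀ c : M, ε (RatFunc.C (algebraMap M (RF M r) c)) = algebraMap M (RF M (r + 1)) c) ∧
      ∀ x : RatFunc (RF M r), rfmap j (r + 1) (ε x) = ε' (rmap (rfmap j r) x) := by
  let _ : Algebra (MvPolynomial (Fin r) M)[X] (RatFunc (RF M r)) :=
    (F2_j (MvPolynomial (Fin r) M) (RF M r)).toAlgebra
  have _ : IsFractionRing (MvPolynomial (Fin r) M)[X] (RatFunc (RF M r)) :=
    F2_isFractionRing _ _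
  let _ : Algebra (MvPolynomial (Fin r) Ω)[X] (RatFunc (RF Ω r)) :=
    (F2_j (MvPolynomial (Fin r) Ω) (RF Ω r)).toAlgebra
  have _ : IsFractionRing (MvPolynomial (Fin r) Ω)[X] (RatFunc (RF Ω r)) :=
    F2_isFractionRing _ _
  let Ψ : RF M (r + 1) ≃+* RatFunc (RF M r) :=
    IsFractionRing.ringEquivOfRingEquiv (MvPolynomial.finSuccEquiv M r).toRingEquiv
  let Ψ' : RF Ω (r + 1) ≃+* RatFunc (RF Ω r) :=
    IsFractionRing.ringEquivOfRingEquiv (MvPolynomial.finSuccEquiv Ω r).toRingEquiv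
  have hΨ : ∀ p : MvPolynomial (Fin (r + 1)) M,
      Ψ (algebraMap _ _ p) = algebraMap (RF M r)[X] (RatFunc (RF M r))
        ((MvPolynomial.finSuccEquiv M r p).map (algebraMap (MvPolynomial (Fin r) M) (RF M r))) := by
    intro p
    exact IsFractionRing.ringEquivOfRingEquiv_algebraMap _ p
  have hΨ' : ∀ p : MvPolynomial (Fin (r + 1)) Ω,
      Ψ' (algebraMap _ _ p) = algebraMap (RF Ω r)[X] (RatFunc (RF Ω r))
        ((MvPolynomial.finSuccEquiv Ω r p).map (algebraMap (MvPolynomial (Fin r) Ω) (RF Ω r))) := by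
    intro p
    exact IsFractionRing.ringEquivOfRingEquiv_algebraMap _ p
  have hrf : ∀ (s : ℕ) (p : MvPolynomial (Fin s) M), rfmap j s (algebraMap _ _ p) =
      algebraMap (MvPolynomial (Fin s) Ω) (RF Ω s) (MvPolynomial.map j p) := by
    intro s p
    rw [rfmap, IsFractionRing.lift_algebraMap]
    rfl
  have hC : ∀ c : M, Ψ (algebraMap M (RF M (r + 1)) c) =
      RatFunc.C (algebraMap M (RF M r) c) := by
    intro c
    rw [IsScalarTower.algebraMap_apply M (MvPolynomial (Fin (r + 1)) M) (RF M (r + 1)) c, hΨ]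
    rw [MvPolynomial.algebraMap_eq, MvPolynomial.finSuccEquiv_apply, MvPolynomial.eval₂Hom_C]
    rw [RingHom.comp_apply, Polynomial.map_C, RatFunc.algebraMap_C]
    rfl
  have hnat : Ψ'.toRingHom.comp (rfmap j (r + 1)) = (rmap (rfmap j r)).comp Ψ.toRingHom := by
    apply IsLocalization.ringHom_ext (nonZeroDivisors (MvPolynomial (Fin (r + 1)) M))
    apply MvPolynomial.ringHom_ext
    · intro c
      change Ψ' (rfmap j (r + 1) (algebraMap _ _ (MvPolynomial.C c))) =
        rmap (rfmap j r) (Ψ (algebraMap _ _ (MvPolynomial.C c)))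
      rw [hrf, hΨ, hΨ', F2_rmap_algebraMap, MvPolynomial.map_C]
      congr 1
      rw [MvPolynomial.finSuccEquiv_apply, MvPolynomial.finSuccEquiv_apply,
        MvPolynomial.eval₂Hom_C, MvPolynomial.eval₂Hom_C]
      rw [RingHom.comp_apply, RingHom.comp_apply, Polynomial.map_C, Polynomial.map_C,
        Polynomial.map_C, hrf, MvPolynomial.map_C]
    · intro i
      change Ψ' (rfmap j (r + 1) (algebraMap _ _ (MvPolynomial.X i))) =
        rmap (rfmap j r) (Ψ (algebraMap _ _ (MvPolynomial.X i)))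
      rw [hrf, hΨ, hΨ', F2_rmap_algebraMap, MvPolynomial.map_X]
      congr 1
      refine Fin.cases ?_ (fun i => ?_) i
      · rw [MvPolynomial.finSuccEquiv_X_zero, MvPolynomial.finSuccEquiv_X_zero, Polynomial.map_X,
          Polynomial.map_X, Polynomial.map_X]
      · rw [MvPolynomial.finSuccEquiv_X_succ, MvPolynomial.finSuccEquiv_X_succ, Polynomial.map_C,
          Polynomial.map_C, Polynomial.map_C, hrf, MvPolynomial.map_X]
  refine ⟨Ψ.symm, Ψ'.symm, fun c => ?_, fun x => ?_⟩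
  · rw [← hC, RingEquiv.symm_apply_apply]
  · have h1 := RingHom.congr_fun hnat (Ψ.symm x)
    change Ψ' (rfmap j (r + 1) (Ψ.symm x)) = rmap (rfmap j r) (Ψ (Ψ.symm x)) at h1
    rw [RingEquiv.apply_symm_apply] at h1
    rw [← h1, RingEquiv.symm_apply_apply]

end Pool.Agent.LibHP
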