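import Pool.Agent.LibHPF.Defs

/-! # Row V2: relative algebraic closedness is inherited by families in one more variable

Plan. `letI := σ'.toAlgebra`. Let `e : RatFunc E` be algebraic over `K` (via `σ'`), `Q` its minimal
polynomial over `K`, monic irreducible. `e` is regular at `t = 0`: it is integral over the subring of the
functions regular at `0`, which is a valuation ring (integrally closed) — or directly: write `e = p / q`
with `p, q` coprime polynomials; if `q(0) = 0`, multiply `Q^σ'(e) = 0` by `q^d` and a common denominator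
(nonzero at `0`) of the coefficients of `Q^σ'` (they are regular at `0` by `hj`): `p(0)^d = 0`,
contradiction. So `HasJet e e0 b` for some `e0 b : E`, and evaluating at `0` gives
`Q.eval₂ σ e0 = 0` (`HasJet` is closed under sums and products: lemmas `HasJet.add`, `HasJet.mul`, ... in
LibHP, see `u_jet_sum` in LibHP/U1.lean). By `hcl` there is `a` with `σ a = e0`, so `a` is a root of `Q` in
`K` (`σ` injective), `Q = X - C a` and `e = σ' a`. (`closed_of_anchor` in P13.lean does the same for a
valuation subring `V`; you may use it with `V` := the localization of `E[X]` at `X` in `RatFunc E`.) -/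

set_option autoImplicit false
open Polynomial

namespace Pool.Agent.LibHP

theorem closed_ratFunc {K E : Type} [Field K] [Field E] (σ : K →+* E)
    (hcl : ∀ e : E, (∃ P : Polynomial K, P ≠ 0 ∧ P.eval₂ σ e = 0) → ∃ a, σ a = e)
    (σ' : K →+* RatFunc E) (hj : ∀ a, ∃ b, HasJet (σ' a) (σ a) b) :
    ∀ e : RatFunc E, (∃ P : Polynomial K, P ≠ 0 ∧ P.eval₂ σ' e = 0) → ∃ a, σ' a = e := by
  rintro e ⟨P, hP, he⟩
  let _ : Algebra K (RatFunc E) := σ'.toAlgebra
  have halg : IsAlgebraic K e := ⟨P, hP, he⟩
  have hint : IsIntegral K e := halg.isIntegral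
  have hQm : (minpoly K e).Monic := minpoly.monic hint
  have hQ0 : (minpoly K e).eval₂ σ' e = 0 := minpoly.aeval K e
  let τ : K →+* regRing E := σ'.codRestrict (regRing E) (fun a => ⟨_, hj a⟩)
  have h1 : IsIntegral (regRing E) e := by
    refine ⟨(minpoly K e).map τ, hQm.map _, ?_⟩
    rw [Polynomial.eval₂_map]
    exact hQ0
  obtain ⟨e0, b, hb⟩ := exists_hasJet_of_isIntegral e h1
  have hv : (F2_val E).comp τ = σ := by
    ext a
    obtain ⟨b', hb'⟩ := hj a
    exact F2_val_eq (τ a) hb'
  let x : regRing E := ⟨e, e0, b, hb⟩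
  have h2 : (minpoly K e).eval₂ τ x = 0 := by
    apply Subtype.ext
    have h3 := Polynomial.hom_eval₂ (minpoly K e) τ (regRing E).subtype x
    exact h3.trans hQ0
  have h3 : (minpoly K e).eval₂ σ e0 = 0 := by
    have h4 := congrArg (F2_val E) h2
    rw [Polynomial.hom_eval₂, hv, map_zero, F2_val_eq x hb] at h4
    exact h4
  obtain ⟨a, ha⟩ := hcl e0 ⟨_, hQm.ne_zero, h3⟩
  rw [← ha, Polynomial.eval₂_at_apply] at h3
  have h4 : (minpoly K e).IsRoot a := (map_eq_zero σ).1 h3
  exact ⟨a, minpoly.root hint h4⟩

end Pool.Agent.LibHP
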