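import Pool.Agent.LibHPF.Defs
import Pool.Agent.LibHP.F2

/-! # Row V3: specialising all embeddings at `t = 0`

Plan. Let `V0` be the ring of the functions in `RatFunc E` regular at `0`, `ev : V0 → E` the value (as in row
V2: a valuation ring, e.g. the localization of `E[X]` at the prime `X`; `HasJet f a b` says `f ∈ V0`,
`ev f = a`). Every `l : L` is integral over `K`, so `ψ i l` is a root of a monic polynomial with
coefficients in `σ1 K ⊆ V0`, hence `ψ i l ∈ V0` (integrally closed). Put `ψ0 i := ev ∘ ψ i`, a ring
homomorphism with `ψ0 i (algebraMap K L a) = ev (σ1 a) = σ0 a`.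
Injectivity: let `θ` be a primitive element of `L / K` (`Field.exists_primitive_element`, characteristic
zero), `Q := minpoly K θ`, separable of degree `d = finrank K L`. The `d` elements `ψ i θ` are pairwise
distinct (`hψ`, and a homomorphism extending `σ1` is determined by the image of `θ`) roots of the monic
polynomial `Q.map σ1` of degree `d`, so `Q.map σ1 = ∏ i, (X - C (ψ i θ))`; apply `ev` to the coefficients:
`Q.map σ0 = ∏ i, (X - C (ψ0 i θ))`. `Q.map σ0` is separable, so the `ψ0 i θ` are pairwise distinct. -/

set_option autoImplicit false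
open Polynomial

namespace Pool.Agent.LibHP

theorem emb_special {K L E : Type} [Field K] [Field L] [Field E] [CharZero K] [Algebra K L]
    [FiniteDimensional K L] (σ0 : K →+* E) (σ1 : K →+* RatFunc E)
    (hj : ∀ a, ∃ b, HasJet (σ1 a) (σ0 a) b)
    (ψ : Fin (Module.finrank K L) → (L →+* RatFunc E)) (hψ : Function.Injective ψ)
    (hψs : ∀ i a, ψ i (algebraMap K L a) = σ1 a) :
    ∃ ψ0 : Fin (Module.finrank K L) → (L →+* E), Function.Injective ψ0 ∧
      ∀ i a, ψ0 i (algebraMap K L a) = σ0 a := by
  classical
  have hσ1 : ∀ a, σ1 a ∈ regRing E := fun a => by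
    obtain ⟨b, hb⟩ := hj a
    exact ⟨σ0 a, b, hb⟩
  let σ1' : K →+* regRing E := σ1.codRestrict (regRing E) hσ1
  have hmem : ∀ i l, ψ i l ∈ regRing E := by
    intro i l
    apply exists_hasJet_of_isIntegral
    obtain ⟨p, hp, hl⟩ := (Algebra.IsIntegral.isIntegral (R := K) l)
    refine ⟨p.map σ1', hp.map _, ?_⟩
    rw [eval₂_map]
    have h1 : (algebraMap (regRing E) (RatFunc E)).comp σ1' = (ψ i).comp (algebraMap K L) := by
      ext a
      exact (hψs i a).symm
    rw [h1, ← Polynomial.hom_eval₂, hl, map_zero]
  let ψ' : Fin (Module.finrank K L) → (L →+* regRing E) := fun i => (ψ i).codRestrict (regRing E) (hmem i)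
  let ψ0 : Fin (Module.finrank K L) → (L →+* E) := fun i => (F2_val E).comp (ψ' i)
  have hval : ∀ a, F2_val E (σ1' a) = σ0 a := by
    intro a
    obtain ⟨b, hb⟩ := hj a
    exact F2_val_eq _ (b := b) hb
  have hψ's : ∀ i a, ψ' i (algebraMap K L a) = σ1' a := by
    intro i a
    exact Subtype.ext (hψs i a)
  have hψ0 : ∀ i a, ψ0 i (algebraMap K L a) = σ0 a := by
    intro i a
    change F2_val E (ψ' i (algebraMap K L a)) = σ0 a
    rw [hψ's, hval]
  refine ⟨ψ0, ?_, hψ0⟩
  obtain ⟨θ, hθ⟩ := Field.exists_primitive_element K L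
  set Q := minpoly K θ with hQ
  have hint : IsIntegral K θ := Algebra.IsIntegral.isIntegral θ
  have hQm : Q.Monic := minpoly.monic hint
  have hdeg : Q.natDegree = Module.finrank K L :=
    (Field.primitive_element_iff_minpoly_natDegree_eq K θ).mp hθ
  have hadj : Algebra.adjoin K {θ} = ⊤ := by
    have h1 := IntermediateField.adjoin_simple_toSubalgebra_of_isAlgebraic
      (F := K) (α := θ) hint.isAlgebraic
    rw [hθ] at h1
    rw [← h1]
    rfl
  have hdist : Function.Injective fun i => ψ i θ := by
    intro i j hij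
    apply hψ
    let _ : Algebra K (RatFunc E) := σ1.toAlgebra
    let a1 : L →ₐ[K] RatFunc E := { ψ i with commutes' := hψs i }
    let a2 : L →ₐ[K] RatFunc E := { ψ j with commutes' := hψs j }
    have h2 : a1 = a2 := by
      apply AlgHom.ext_of_adjoin_eq_top hadj
      intro x hx
      rw [Set.mem_singleton_iff] at hx
      rw [hx]
      exact hij
    ext x
    exact congrArg (fun f : L →ₐ[K] RatFunc E => f x) h2
  have hroot : ∀ i, (Q.map σ1).eval (ψ i θ) = 0 := by
    intro i
    have h1 : σ1 = (ψ i).comp (algebraMap K L) := by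
      ext a
      exact (hψs i a).symm
    rw [eval_map, h1, ← Polynomial.hom_eval₂]
    have h2 : eval₂ (algebraMap K L) θ Q = 0 := minpoly.aeval K θ
    rw [h2, map_zero]
  have hprod : Q.map σ1 = ∏ i, (X - C (ψ i θ)) := by
    apply Polynomial.eq_of_monic_of_dvd_of_natDegree_le
    · exact monic_prod_X_sub_C _ _
    · exact hQm.map _
    · apply Finset.prod_dvd_of_coprime
      · intro i _ j _ hij
        exact Polynomial.pairwise_coprime_X_sub_C hdist hij
      · intro i _
        exact dvd_iff_isRoot.mpr (hroot i)
    · rw [natDegree_map, hdeg, natDegree_prod_of_monic _ _ (fun i _ => monic_X_sub_C _)]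
      simp
  have hprod' : Q.map σ1' = ∏ i, (X - C (ψ' i θ)) := by
    have hinj : Function.Injective (Polynomial.map (algebraMap (regRing E) (RatFunc E))) :=
      Polynomial.map_injective _ Subtype.val_injective
    apply hinj
    rw [Polynomial.map_map, Polynomial.map_prod]
    have h1 : (algebraMap (regRing E) (RatFunc E)).comp σ1' = σ1 := rfl
    rw [h1, hprod]
    apply Finset.prod_congr rfl
    intro i _
    rw [Polynomial.map_sub, Polynomial.map_X, Polynomial.map_C]
    rfl
  have hprod0 : Q.map σ0 = ∏ i, (X - C (ψ0 i θ)) := by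
    have h1 : σ0 = (F2_val E).comp σ1' := by
      ext a
      exact (hval a).symm
    rw [h1, ← Polynomial.map_map, hprod', Polynomial.map_prod]
    apply Finset.prod_congr rfl
    intro i _
    rw [Polynomial.map_sub, Polynomial.map_X, Polynomial.map_C]
    rfl
  have hsep : (Q.map σ0).Separable :=
    (minpoly.irreducible hint).separable.map
  rw [hprod0] at hsep
  have hinj0 : Function.Injective fun i => ψ0 i θ := Polynomial.separable_prod_X_sub_C_iff.mp hsep
  intro i j hij
  apply hinj0
  exact congrArg (fun f : L →+* E => f θ) hij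

end Pool.Agent.LibHP
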