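import Pool.Agent.LibHPF.Defs
import Pool.Agent.LibHP.E2d

/-! # Row V4: a curve meeting a divisor, after extension of the constants

Plan. `g.map s` is separable (`g` is irreducible over `K` of characteristic zero: `Irreducible.separable`,
`Separable.map`) and not a unit, so it has an irreducible factor `h0` over `Ω`, `g.map s = h0 * g1` with
`¬ h0 ∣ g1`. `C` := the valuation subring of `RatFunc Ω` of the fractions `p / q` with `¬ h0 ∣ q`
(`ValuationSubring` with `mem_or_inv_mem'`: write `x = p / q` with coprime `p, q`; or the valuation subring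
of the localization at the prime `h0`, `IsLocalization.AtPrime`/`HeightOneSpectrum.valuation`),
`ϖ := algebraMap _ _ h0`. `IsUnif C ϖ`: a nonzero `a = p / q ∈ C` with `¬ h0 ∣ q`, `p = h0^n p'`,
`¬ h0 ∣ p'`. Transfer: if `¬ g ∣ q` then `IsCoprime g q` (`g` irreducible), so
`IsCoprime (g.map s) (q.map s)`, so `¬ h0 ∣ q.map s`. `rmap s (algebraMap p) = algebraMap (p.map s)`
(`u_rmap_algebraMap` in LibHP/U1.lean). So `rmap s (τ a) ∈ C` for `a ∈ O`, and
`rmap s (τ π) = (g.map s)^m * p / q = h0^m * (g1^m p / q)`. (Template for the valuation ring of a prime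
polynomial: LibHP/E2*.lean, LibHP2.) -/

set_option autoImplicit false
open Polynomial

namespace Pool.Agent.LibHP

open IsDedekindDomain in
theorem meets_comp {K Ω : Type} [Field K] [CharZero K] [Field Ω] (O : Type) [CommRing O]
    [Algebra O K] (τ : K →+* RatFunc K) (g : K[X]) (hg : Irreducible g) (m : ℕ)
    (h : LocMult O K τ g m) (s : K →+* Ω) :
    ∃ (C : ValuationSubring (RatFunc Ω)) (ϖ : RatFunc Ω),
      IsUnif C ϖ ∧ 1 ≤ m ∧ (∀ a : O, rmap s (τ (algebraMap O K a)) ∈ C) ∧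
      ∃ π : O, (∀ a : O, ¬ IsUnit a ↔ π ∣ a) ∧
        ∃ u, u ∈ C ∧ u⁻¹ ∈ C ∧ rmap s (τ (algebraMap O K π)) = u * ϖ ^ m := by
  classical
  have hsep : (g.map s).Separable := hg.separable.map
  have hnu : ¬ IsUnit (g.map s) := by
    intro h1
    rw [Polynomial.isUnit_iff_degree_eq_zero, degree_map, ← Polynomial.isUnit_iff_degree_eq_zero] at h1
    exact hg.not_isUnit h1
  have hg0 : g.map s ≠ 0 := (Polynomial.map_ne_zero_iff s.injective).mpr hg.ne_zero
  obtain ⟨h0, hh0, g1, hg1⟩ := WfDvdMonoid.exists_irreducible_factor hnu hg0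
  have hng1 : ¬ h0 ∣ g1 := by
    intro h1
    have h2 : h0 * h0 ∣ g.map s := by
      rw [hg1]
      exact mul_dvd_mul_left h0 h1
    exact hh0.not_isUnit (hsep.squarefree h0 h2)
  let w : HeightOneSpectrum (Polynomial Ω) :=
    { asIdeal := Ideal.span {h0}
      isPrime := (Ideal.span_singleton_prime hh0.ne_zero).2 hh0.prime
      ne_bot := by
        rw [Ne, Ideal.span_singleton_eq_bot]
        exact hh0.ne_zero }
  let v := w.valuation (RatFunc Ω)
  have hv1 : ∀ p : (Polynomial Ω), ¬ h0 ∣ p → v (algebraMap (Polynomial Ω) (RatFunc Ω) p) = 1 := by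
    intro p hp
    have h1 : ¬ v (algebraMap (Polynomial Ω) (RatFunc Ω) p) < 1 := by
      intro h2
      rw [w.valuation_lt_one_iff_mem p] at h2
      exact hp (Ideal.mem_span_singleton.mp h2)
    exact le_antisymm (w.valuation_le_one p) (not_lt.mp h1)
  have hle : ∀ p : (Polynomial Ω), v (algebraMap (Polynomial Ω) (RatFunc Ω) p) ≤ 1 := fun p => w.valuation_le_one p
  have hcop : ∀ q : K[X], ¬ g ∣ q → ¬ h0 ∣ q.map s := by
    intro q hq h1
    have h2 : IsCoprime g q := (EuclideanDomain.dvd_or_coprime g q hg).resolve_left hq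
    have h3 : IsCoprime (g.map s) (q.map s) := h2.map (mapRingHom s)
    exact hh0.not_isUnit (h3.isUnit_of_dvd' ⟨g1, hg1⟩ h1)
  set ϖ : RatFunc Ω := algebraMap (Polynomial Ω) (RatFunc Ω) h0 with hϖ
  have hϖ0 : ϖ ≠ 0 := by
    rw [hϖ, Ne, map_eq_zero_iff _ (IsFractionRing.injective (Polynomial Ω) (RatFunc Ω))]
    exact hh0.ne_zero
  have hvϖ : v ϖ = WithZero.exp (-1 : ℤ) := by
    change w.valuation (RatFunc Ω) (algebraMap (Polynomial Ω) (RatFunc Ω) h0) = _
    rw [w.valuation_of_algebraMap]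
    exact w.intValuation_singleton hh0.ne_zero rfl
  have hunit : ∀ (a : RatFunc Ω) (n : ℕ), v a = v ϖ ^ n →
      ∃ u, u ∈ v.valuationSubring ∧ u⁻¹ ∈ v.valuationSubring ∧ a = u * ϖ ^ n := by
    intro a n han
    have hne : v ϖ ≠ 0 := (Valuation.ne_zero_iff v).mpr hϖ0
    have hu : v (a / ϖ ^ n) = 1 := by
      rw [map_div₀, map_pow, han]
      exact div_self (pow_ne_zero n hne)
    refine ⟨a / ϖ ^ n, ?_, ?_, ?_⟩
    · rw [Valuation.mem_valuationSubring_iff, hu]
    · rw [Valuation.mem_valuationSubring_iff, map_inv₀, hu, inv_one]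
    · rw [div_mul_cancel₀ a (pow_ne_zero n hϖ0)]
  obtain ⟨hm1, hreg, π, hπ, p, q, hp, hq, hpq⟩ := h
  refine ⟨v.valuationSubring, ϖ, ⟨?_, hϖ0, ?_, ?_⟩, hm1, ?_, π, hπ, ?_⟩
  · rw [Valuation.mem_valuationSubring_iff]
    exact hle h0
  · rw [Valuation.mem_valuationSubring_iff, map_inv₀, hvϖ, not_le]
    rw [← WithZero.exp_neg, neg_neg]
    rw [← WithZero.exp_zero, WithZero.exp_lt_exp]
    norm_num
  · intro a ha ha0
    have hva0 : v a ≠ 0 := (Valuation.ne_zero_iff v).mpr ha0
    have hva : v a ≤ 1 := (Valuation.mem_valuationSubring_iff _ _).mp ha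
    have hk : v a = WithZero.exp (WithZero.log (v a)) := (WithZero.exp_log hva0).symm
    have hk0 : WithZero.log (v a) ≤ 0 := by
      rw [← WithZero.exp_le_exp, ← hk, WithZero.exp_zero]
      exact hva
    obtain ⟨n, hn⟩ := Int.eq_ofNat_of_zero_le (neg_nonneg.mpr hk0)
    have h3 : v a = v ϖ ^ n := by
      rw [hvϖ, ← WithZero.exp_nsmul, hk]
      congr 1
      rw [nsmul_eq_mul]
      linarith
    obtain ⟨u, hu1, hu2, hu3⟩ := hunit a n h3
    exact ⟨n, u, hu1, hu2, hu3⟩
  · intro a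
    obtain ⟨p', q', hq', hpq'⟩ := hreg a
    rw [Valuation.mem_valuationSubring_iff]
    have h1 := congrArg (fun x => v (rmap s x)) hpq'
    simp only [map_mul, u_rmap_algebraMap] at h1
    rw [hv1 _ (hcop q' hq'), mul_one] at h1
    rw [h1]
    exact hle _
  · apply hunit
    have h1 := congrArg (fun x => v (rmap s x)) hpq
    simp only [map_mul, u_rmap_algebraMap, map_pow] at h1
    rw [hv1 _ (hcop q hq), hv1 _ (hcop p hp), mul_one, mul_one] at h1
    rw [h1, hg1, map_mul, map_mul, hv1 _ hng1, mul_one]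

end Pool.Agent.LibHP
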