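import Pool.Agent.LibHPF.V1
import Pool.Agent.LibHPF.V2
import Pool.Agent.LibHPF.V3
import Pool.Agent.LibHPF.V4

/-! # Row V5: composing a family with a rational curve through the generic point

Plan. Take `ε, ε'` from V1 for `j := algebraMap M (AlgebraicClosure M)`, put
`σ1 := (rmap σ).comp τ : K →+* RatFunc (RF M r)` and `σ' := ε ∘ σ1`. `σ1 a` is regular at `0` with value
`σ a`: from `hτ` (`τ a * q = p`, `q(0) = 1`, `p(0) = a`) by `u_rmap_algebraMap` (LibHP/U1.lean), with jet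
`b := σ (p.coeff 1 - a * q.coeff 1)`.
(1) over `k`: `hτk`, `u_rmap_C`, `hσ`, V1 (`algebraMap k (RF M r) c = algebraMap M (RF M r) (algebraMap k M c)`,
scalar tower).
(2) `ClosedIn σ'`: `closed_ratFunc` (V2) for `σ`, `σ1` and transport by `ε`.
(3) `AllEmb σ' L` → `AllEmb σ L`: `ψ i : L →+* RF Mbar (r+1)` extend `sbar σ' = rfmap j (r+1) ∘ ε ∘ σ1 =
ε' ∘ rmap (rfmap j r) ∘ σ1`; apply `emb_special` (V3) to `ε'.symm ∘ ψ i`, `E := RF Mbar r`,
`σ0 := sbar σ`, `σ1 := rmap (rfmap j r) ∘ σ1` (jets again by `u_rmap_algebraMap`; `u_rmap_rmap`).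
(4) `MeetsDiv O σ' m`: `meets_comp` (V4) with `s := sbar σ : K →+* RF Mbar r`
(`rmap (sbar σ) (τ a) = rmap (rfmap j r) (rmap σ (τ a))` by `u_rmap_rmap`), and transport the valuation
subring by `ε'` (`ValuationSubring.map`/`comap` along `ε'.symm`; `IsUnif` is transported). -/

set_option autoImplicit false
open Polynomial

namespace Pool.Agent.LibHP

theorem comp_step (k K M : Type) [Field k] [Field K] [CharZero K] [Field M] [Algebra k K]
    [Algebra k M] (r : ℕ) (σ : K →+* RF M r)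
    (hσ : ∀ c : k, σ (algebraMap k K c) = algebraMap k (RF M r) c) (hcl : ClosedIn σ)
    (τ : K →+* RatFunc K) (hτk : ∀ c : k, τ (algebraMap k K c) = RatFunc.C (algebraMap k K c))
    (hτ : ∀ a : K, ∃ p q : K[X], q.coeff 0 = 1 ∧ p.coeff 0 = a ∧
      τ a * algebraMap K[X] (RatFunc K) q = algebraMap K[X] (RatFunc K) p) :
    ∃ σ' : K →+* RF M (r + 1), (∀ c : k, σ' (algebraMap k K c) = algebraMap k (RF M (r + 1)) c) ∧
      ClosedIn σ' ∧
      (∀ (L : Type) [Field L] [Algebra K L] [FiniteDimensional K L], AllEmb σ' L → AllEmb σ L) ∧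
      ∀ (O : Type) [CommRing O] [Algebra O K] (g : K[X]) (m : ℕ), Irreducible g →
        LocMult O K τ g m → MeetsDiv O σ' m := by
  obtain ⟨ε, ε', hε, hnat⟩ := exists_ratFunc_equiv_nat (algebraMap M (AlgebraicClosure M)) r
  have hj : ∀ a, ∃ b, HasJet (rmap σ (τ a)) (σ a) b := by
    intro a
    obtain ⟨p, q, hq, hp, h⟩ := hτ a
    have h1 : HasJet (τ a) a (p.coeff 1 - a * q.coeff 1) := ⟨p, q, hq, h, hp, by ring⟩
    exact ⟨_, h1.map σ⟩
  have hs : ∀ a, sbar (ε.toRingHom.comp ((rmap σ).comp τ)) a =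
      ε' (rmap (sbar σ) (τ a)) := by
    intro a
    change rfmap (algebraMap M (AlgebraicClosure M)) (r + 1) (ε (rmap σ (τ a))) = _
    rw [hnat, u_rmap_rmap]
    rfl
  refine ⟨ε.toRingHom.comp ((rmap σ).comp τ), ?_, ?_, ?_, ?_⟩
  · intro c
    change ε (rmap σ (τ (algebraMap k K c))) = _
    rw [hτk, u_rmap_C, hσ, IsScalarTower.algebraMap_apply k M (RF M r), hε,
      ← IsScalarTower.algebraMap_apply k M (RF M (r + 1))]
  · rintro e ⟨P, hP, hPe⟩
    have h1 : P.eval₂ ((rmap σ).comp τ) (ε.symm e) = 0 := by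
      have h2 := congrArg ε.symm.toRingHom hPe
      rw [Polynomial.hom_eval₂, map_zero] at h2
      have h3 : ε.symm.toRingHom.comp (ε.toRingHom.comp ((rmap σ).comp τ)) = (rmap σ).comp τ := by
        ext a
        exact ε.symm_apply_apply _
      rw [h3] at h2
      exact h2
    obtain ⟨a, ha⟩ := closed_ratFunc σ hcl ((rmap σ).comp τ) hj (ε.symm e) ⟨P, hP, h1⟩
    refine ⟨a, ?_⟩
    change ε (((rmap σ).comp τ) a) = e
    rw [ha]
    exact ε.apply_symm_apply e
  · intro L _ _ _ hL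
    obtain ⟨ψ, hψ, hψs⟩ := hL
    have hj2 : ∀ a, ∃ b, HasJet (((rmap (rfmap (algebraMap M (AlgebraicClosure M)) r)).comp
        ((rmap σ).comp τ)) a) (sbar σ a) b := by
      intro a
      obtain ⟨b, hb⟩ := hj a
      exact ⟨_, hb.map (rfmap (algebraMap M (AlgebraicClosure M)) r)⟩
    refine emb_special (sbar σ) ((rmap (rfmap (algebraMap M (AlgebraicClosure M)) r)).comp
        ((rmap σ).comp τ)) hj2 (fun i => ε'.symm.toRingHom.comp (ψ i)) ?_ ?_
    · intro i i' hii
      apply hψ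
      ext l
      have := congrArg (fun F : L →+* RatFunc (RF (AlgebraicClosure M) r) => F l) hii
      exact ε'.symm.injective this
    · intro i a
      change ε'.symm (ψ i (algebraMap K L a)) = rmap _ (rmap σ (τ a))
      rw [hψs, hs, ε'.symm_apply_apply, u_rmap_rmap]
      rfl
  · intro O _ _ g m hg hm
    obtain ⟨C, ϖ, hu, hm1, hO, π, hπ, u, hu1, hu2, hu3⟩ := meets_comp O τ g hg m hm (sbar σ)
    have hmem : ∀ x, x ∈ C.comap ε'.symm.toRingHom ↔ ε'.symm x ∈ C := fun x => Iff.rfl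
    refine ⟨C.comap ε'.symm.toRingHom, ε' ϖ, ?_, hm1, ?_, π, hπ, ε' u, ?_, ?_, ?_⟩
    · obtain ⟨g1, g2, g3, g4⟩ := hu
      refine ⟨?_, ?_, ?_, ?_⟩
      · rw [hmem, ε'.symm_apply_apply]
        exact g1
      · exact (map_ne_zero ε').mpr g2
      · rw [hmem, map_inv₀, ε'.symm_apply_apply]
        exact g3
      · intro a ha ha0
        rw [hmem] at ha
        obtain ⟨n, v, hv1, hv2, hv3⟩ := g4 (ε'.symm a) ha ((map_ne_zero ε'.symm).mpr ha0)
        refine ⟨n, ε' v, ?_, ?_, ?_⟩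
        · rw [hmem, ε'.symm_apply_apply]
          exact hv1
        · rw [hmem, map_inv₀, ε'.symm_apply_apply]
          exact hv2
        · rw [← map_pow, ← map_mul, ← hv3, ε'.apply_symm_apply]
    · intro a
      rw [hmem, hs, ε'.symm_apply_apply]
      exact hO a
    · rw [hmem, ε'.symm_apply_apply]
      exact hu1
    · rw [hmem, map_inv₀, ε'.symm_apply_apply]
      exact hu2
    · rw [hs, hu3, map_mul, map_pow]

end Pool.Agent.LibHP
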