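import Pool.Agent.LibHPF.V5

/-! # Row V6: composing a family with finitely many curves

Plan. Induction on `N` (`Fin.cons`/`Fin.init`; or generalise to a list): from the family `(r', σ')` for the
first `N` curves, `comp_step` (V5) with the last curve gives `(r' + 1, σ'')`. If `AllEmb σ'' L` then
`AllEmb σ' L`, and the induction hypothesis gives `AllEmb σ L` and the statement for the first curves;
for the last curve take `σ1 := σ''`. -/

set_option autoImplicit false
open Polynomial

namespace Pool.Agent.LibHP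

theorem comp_list (k K M : Type) [Field k] [Field K] [CharZero K] [Field M] [Algebra k K]
    [Algebra k M] (r : ℕ) (σ : K →+* RF M r)
    (hσ : ∀ c : k, σ (algebraMap k K c) = algebraMap k (RF M r) c) (hcl : ClosedIn σ) (N : ℕ)
    (τ : Fin N → (K →+* RatFunc K))
    (hτk : ∀ i, ∀ c : k, τ i (algebraMap k K c) = RatFunc.C (algebraMap k K c))
    (hτ : ∀ i, ∀ a : K, ∃ p q : K[X], q.coeff 0 = 1 ∧ p.coeff 0 = a ∧
      τ i a * algebraMap K[X] (RatFunc K) q = algebraMap K[X] (RatFunc K) p) :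
    ∃ (r' : ℕ) (σ' : K →+* RF M r'),
      (∀ c : k, σ' (algebraMap k K c) = algebraMap k (RF M r') c) ∧ ClosedIn σ' ∧
      ∀ (L : Type) [Field L] [Algebra K L] [FiniteDimensional K L], AllEmb σ' L →
        AllEmb σ L ∧ ∀ (i : Fin N) (O : Type) [CommRing O] [Algebra O K] (g : K[X]) (m : ℕ),
          Irreducible g → LocMult O K (τ i) g m →
          ∃ (r1 : ℕ) (σ1 : K →+* RF M r1), AllEmb σ1 L ∧ MeetsDiv O σ1 m := by
  induction N with
  | zero => exact ⟨r, σ, hσ, hcl, fun L _ _ _ hL => ⟨hL, fun i => i.elim0⟩⟩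
  | succ N ih =>
    obtain ⟨r', σ', h1, h2, h3⟩ := ih (fun i => τ i.castSucc) (fun i => hτk i.castSucc)
      (fun i => hτ i.castSucc)
    obtain ⟨σ'', g1, g2, g3, g4⟩ := comp_step k K M r' σ' h1 h2 (τ (Fin.last N))
      (hτk (Fin.last N)) (hτ (Fin.last N))
    refine ⟨r' + 1, σ'', g1, g2, fun L _ _ _ hL => ?_⟩
    obtain ⟨h4, h5⟩ := h3 L (g3 L hL)
    refine ⟨h4, fun i => ?_⟩
    refine Fin.lastCases ?_ (fun i => ?_) i
    · intro O _ _ g m hg hm
      exact ⟨r' + 1, σ'', hL, g4 O g m hg hm⟩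
    · intro O _ _ g m hg hm
      exact h5 i O g m hg hm

end Pool.Agent.LibHP
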