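import Pool.Agent.LibHPF.P12

/-! # Row V7: unramifiedness from several families

Plan. Copies of `etale_of_div` (P8c.lean) and `presAt_of_div` (P12.lean) with the family depending on the
prime `l`: in `etale_of_div` the hypothesis `hL` is used only together with `hdiv l`: obtain `ψ` from
`AllEmb σ L` after `obtain ... := hdiv l hl`. -/

set_option autoImplicit false
open AlgebraicGeometry CategoryTheory Polynomial

namespace Pool.Agent.LibHP

theorem etale_of_div' (O K L : Type) [CommRing O] [IsDomain O] [IsDiscreteValuationRing O]
    [Field K] [CharZero K] (hQ : ∀ n : ℕ, n ≠ 0 → IsUnit (n : O))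
    [Algebra O K] [IsFractionRing O K] [Field L] [Algebra K L] [Algebra O L]
    [IsScalarTower O K L] [FiniteDimensional K L]
    (hdiv : ∀ l : ℕ, l.Prime → ∃ m : ℕ, ¬ l ∣ m ∧ ∃ (M : Type) (_ : Field M) (r : ℕ)
      (σ : K →+* RF M r), AllEmb σ L ∧ MeetsDiv O σ m) :
    Algebra.Etale O (integralClosure O L) := by
  have hfin : Module.Finite O (integralClosure O L) :=
    IsIntegralClosure.finite O K L (integralClosure O L)
  have hded : IsDedekindDomain (integralClosure O L) := integralClosure.isDedekindDomain O K L
  have hinjOL : Function.Injective (algebraMap O L) := by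
    rw [IsScalarTower.algebraMap_eq O K L]
    exact (algebraMap K L).injective.comp (IsFractionRing.injective O K)
  have hinj : Function.Injective (algebraMap O (integralClosure O L)) := fun x y h =>
    hinjOL (congrArg (fun z : integralClosure O L => (z : L)) h)
  have hfs : FaithfulSMul O (integralClosure O L) :=
    (faithfulSMul_iff_algebraMap_injective _ _).2 hinj
  have hfree : Module.Free O (integralClosure O L) := inferInstance
  have hfp : Algebra.FinitePresentation O (integralClosure O L) :=
    (Algebra.FinitePresentation.of_finiteType (R := O)).1 inferInstance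
  have hchar : CharZero O :=
    ⟨fun a b h => by
      have h' := congrArg (algebraMap O K) h
      simpa using h'⟩
  obtain ⟨π0, hπ0⟩ := IsDiscreteValuationRing.exists_irreducible O
  have hunr : Algebra.FormallyUnramified O (integralClosure O L) := by
    rw [Algebra.formallyUnramified_iff_forall]
    rintro ⟨q, hq⟩
    rcases eq_or_ne q ⊥ with rfl | hq0
    · exact Algebra.isUnramifiedAt_bot
    have hqm : q.IsMaximal := hq.isMaximal hq0
    have hx : algebraMap O (integralClosure O L) π0 ≠ 0 := fun h =>
      hπ0.ne_zero (hinj (by rw [h, map_zero]))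
    obtain ⟨e, a, b, s, t, hb, hs, ht, heq, he⟩ :=
      exists_repr_c (integralClosure O L) q hq0 _ hx
    have he1 : e = 1 := by
      by_contra hne
      obtain ⟨l, hl, hle⟩ := Nat.exists_prime_and_dvd hne
      obtain ⟨m, hlm, M, _, r, σ, hL, C, ϖ, hϖ, hm1, hC, π, hπ, u, hu, hu', hπu⟩ := hdiv l hl
      obtain ⟨ψ, hψ, hψs⟩ := hL
      exact hlm (hle.trans (dvd_of_div O K L (RF (AlgebraicClosure M) r) (sbar σ) ψ hψ hψs C ϖ hϖ
        hC π hπ m hm1 u hu hu' hπu q hqm π0 hπ0 e a b s t hb hs ht heq))
    have hunder : q.under O = IsLocalRing.maximalIdeal O := by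
      have := hqm
      have h1 : (q.under O).IsMaximal := inferInstance
      exact IsLocalRing.eq_maximalIdeal h1
    have hcz : CharZero (q.under O).ResidueField := by
      refine charZero_of_inj_zero fun n hn => ?_
      by_contra hn0
      have h1 : IsUnit (algebraMap O (q.under O).ResidueField (n : O)) := (hQ n hn0).map _
      rw [map_natCast, hn] at h1
      exact not_isUnit_zero h1
    have hperf : PerfectField (q.under O).ResidueField := inferInstance
    rw [← Ideal.ramificationIdx_eq_one_iff, Ideal.ramificationIdx_def,
      ENat.toNat_eq_iff_eq_natCast, Nat.cast_one, Module.length_eq_one_iff,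
      isSimpleModule_iff_isCoatom, ← Ideal.isMaximal_def, IsLocalRing.isMaximal_iff, hunder,
      hπ0.maximalIdeal_eq, Ideal.map_span, Set.image_singleton,
      IsScalarTower.algebraMap_apply O (integralClosure O L) (Localization.AtPrime q)]
    exact he he1
  exact Algebra.Etale.of_formallyUnramified_of_flat

theorem presAt_of_div' {k : Type} [Field k] [CharZero k] {X : Scheme}
    (f : X ⟶ Spec (CommRingCat.of k)) [IsIntegral X] [Smooth f] (L : Type) [Field L]
    [Algebra X.functionField L] [FiniteDimensional X.functionField L] (x : X)
    (hx : ringKrullDim (X.presheaf.stalk x) = 1)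
    (hdiv : ∀ l : ℕ, l.Prime → ∃ m : ℕ, ¬ l ∣ m ∧ ∃ (M : Type) (_ : Field M) (r : ℕ)
      (σ : X.functionField →+* RF M r), AllEmb σ L ∧ MeetsDiv (X.presheaf.stalk x) σ m) :
    PresAt (algebraMap X.functionField L) x := by
  have hdvr := isDiscreteValuationRing_stalk f x hx
  let _ : Algebra (X.presheaf.stalk x) L :=
    (stalkTo (algebraMap X.functionField L) x).toAlgebra
  have tow : IsScalarTower (X.presheaf.stalk x) X.functionField L :=
    IsScalarTower.of_algebraMap_eq (fun _ => rfl)
  have hQ : ∀ n : ℕ, n ≠ 0 → IsUnit (n : X.presheaf.stalk x) := by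
    intro n hn
    have h1 : IsUnit (n : k) := (Nat.cast_ne_zero.mpr hn).isUnit
    have h2 := h1.map (toStalk f x)
    simpa using h2
  have cz : CharZero X.functionField :=
    charZero_of_injective_ringHom (toStalk f (genericPoint X)).injective
  have czL : CharZero L := charZero_of_injective_ringHom (algebraMap X.functionField L).injective
  have het : Algebra.Etale (X.presheaf.stalk x) (integralClosure (X.presheaf.stalk x) L) :=
    etale_of_div' (X.presheaf.stalk x) X.functionField L hQ hdiv
  intro D hD b hb
  exact isIntegral_derivation_of_etale (X.presheaf.stalk x) X.functionField L D hD b hb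

end Pool.Agent.LibHP
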