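import Pool.Agent.LibHPF.V6
import Pool.Agent.LibHPF.V7

/-! # Row V8: the criterion with families and curves

Plan. `main_moves` (P11). Given `S`, take `(M, r, σ)` from `H`. For every `x ∈ S`, the alternative for
`l = 2` gives some `m2 x` with `¬ 2 ∣ m2 x`, so `m2 x ≠ 0`. Only finitely many pairs `(x, l)` matter: `x ∈ S`
and `l = 2` or `l` a prime divisor of some `m2 y` (for the other primes `l` use `m2 x` itself). For these pairs
choose `m` and, if the alternative is `CurveMeets f x m`, the curve `τ` and the polynomial `g`; list the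
curves as `τ : Fin N → _`; for the pairs of the
other kind take the trivial curve `RatFunc.C`, `RatFunc.C a * 1 = C a`). `comp_list` (V6), with
`Algebra k X.functionField := (toStalk f (genericPoint X)).toAlgebra`, gives `(r', σ')`: this is the family
for `main_moves`. If `AllEmb σ' L`, then for `x ∈ S` `presAt_of_div'` (V7). -/

set_option autoImplicit false
open AlgebraicGeometry CategoryTheory Polynomial

namespace Pool.Agent.LibHP

theorem main_criterion (k : Type) [Field k] [NumberField k] {X : Scheme}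
    (f : X ⟶ Spec (CommRingCat.of k)) [IsIntegral X] [Smooth f] [IsSeparated f] [QuasiCompact f]
    (hsc : GeomSimplyConnected f)
    (H : ∀ S : Finset X, (∀ x ∈ S, ringKrullDim (X.presheaf.stalk x) = 1) →
      ∃ (M : Type) (_ : Field M) (_ : Algebra k M) (r : ℕ) (σ : X.functionField →+* RF M r),
        DensePts k M ∧ (∀ c : k, σ (toStalk f (genericPoint X) c) = algebraMap k (RF M r) c) ∧
        ClosedIn σ ∧
        ∀ x ∈ S, ∀ l : ℕ, l.Prime → ∃ m : ℕ, ¬ l ∣ m ∧
          (MeetsDiv (X.presheaf.stalk x) σ m ∨ CurveMeets f x m)) :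
    HilbertProp f := by
  classical
  refine main_moves k f hsc fun S hS => ?_
  obtain ⟨M, _, _, r, σ, hM, hσ, hcl, hdiv⟩ := H S hS
  let _ : Algebra k X.functionField := (toStalk f (genericPoint X)).toAlgebra
  have hchar : CharZero X.functionField :=
    charZero_of_injective_algebraMap (algebraMap k X.functionField).injective
  choose! m₀ hm₀ hm₁ using hdiv
  let T : Finset ℕ := insert 2 (S.biUnion fun x => (m₀ x 2).primeFactors)
  have hT : ∀ l ∈ T, l.Prime := by
    intro l hl
    rcases Finset.mem_insert.1 hl with rfl | h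
    · exact Nat.prime_two
    · obtain ⟨x, -, hx⟩ := Finset.mem_biUnion.1 h
      exact Nat.prime_of_mem_primeFactors hx
  -- the curves
  have hcur : ∀ i : {p : X × ℕ // p ∈ S ×ˢ T},
      ∃ τ : X.functionField →+* RatFunc X.functionField,
        (∀ c : k, τ (algebraMap k X.functionField c) = RatFunc.C (algebraMap k X.functionField c)) ∧
        (∀ a : X.functionField, ∃ p q : (X.functionField)[X], q.coeff 0 = 1 ∧ p.coeff 0 = a ∧
          τ a * algebraMap (X.functionField)[X] (RatFunc X.functionField) q =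
            algebraMap (X.functionField)[X] (RatFunc X.functionField) p) ∧
        (MeetsDiv (X.presheaf.stalk i.1.1) σ (m₀ i.1.1 i.1.2) ∨
          ∃ g : (X.functionField)[X], Irreducible g ∧
            LocMult (X.presheaf.stalk i.1.1) X.functionField τ g (m₀ i.1.1 i.1.2)) := by
    rintro ⟨⟨x, l⟩, hi⟩
    obtain ⟨hx, hl⟩ := Finset.mem_product.1 hi
    rcases hm₁ x hx l (hT l hl) with h | h
    · refine ⟨RatFunc.C, fun c => rfl, fun a => ⟨C a, 1, ?_, ?_, ?_⟩, Or.inl h⟩
      · exact coeff_one_zero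
      · exact coeff_C_zero
      · rw [map_one, mul_one]
        exact (RatFunc.algebraMap_C a).symm
    · obtain ⟨τ, g, h1, h2, h3, h4⟩ := h
      exact ⟨τ, h1, h2, Or.inr ⟨g, h3, h4⟩⟩
  choose τ hτk hτ hτm using hcur
  let N := Fintype.card {p : X × ℕ // p ∈ S ×ˢ T}
  let e : {p : X × ℕ // p ∈ S ×ˢ T} ≃ Fin N := Fintype.equivFin _
  obtain ⟨r', σ', hσ', hcl', hL⟩ := comp_list k X.functionField M r σ hσ hcl N
    (fun n => τ (e.symm n)) (fun n => hτk (e.symm n)) (fun n => hτ (e.symm n))
  refine ⟨M, inferInstance, inferInstance, r', σ', hM, hσ', hcl', ?_⟩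
  intro L _ _ _ hA x hx
  obtain ⟨hA1, hA2⟩ := hL L hA
  -- the families for the pairs
  have hpair : ∀ l ∈ T, ∃ (M : Type) (_ : Field M) (r : ℕ) (σ : X.functionField →+* RF M r),
      AllEmb σ L ∧ MeetsDiv (X.presheaf.stalk x) σ (m₀ x l) := by
    intro l hl
    rcases hτm ⟨(x, l), Finset.mem_product.2 ⟨hx, hl⟩⟩ with h | ⟨g, hg, h⟩
    · exact ⟨M, inferInstance, r, σ, hA1, h⟩
    · obtain ⟨r₁, σ₁, h1, h2⟩ := hA2 (e ⟨(x, l), Finset.mem_product.2 ⟨hx, hl⟩⟩)
        (X.presheaf.stalk x) g (m₀ x l) hg (by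
          simp only [Equiv.symm_apply_apply]
          exact h)
      exact ⟨M, inferInstance, r₁, σ₁, h1, h2⟩
  refine presAt_of_div' f L x (hS x hx) fun l hl => ?_
  by_cases hlT : l ∈ T
  · exact ⟨m₀ x l, hm₀ x hx l hl, hpair l hlT⟩
  · refine ⟨m₀ x 2, fun hd => hlT ?_, hpair 2 (Finset.mem_insert_self _ _)⟩
    refine Finset.mem_insert_of_mem (Finset.mem_biUnion.2 ⟨x, hx, ?_⟩)
    refine Nat.mem_primeFactors.2 ⟨hl, hd, fun h0 => ?_⟩
    have h2 := hm₀ x hx 2 Nat.prime_two
    rw [h0] at h2
    exact h2 (dvd_zero _)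

end Pool.Agent.LibHP
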