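import Pool.Agent.LibHPF.V8
import Pool.Agent.LibHPF.G12
import Pool.Agent.LibHP.U1

/-! # V9: the earlier criterion (rational curves through the generic point) is the case `M = K`, `r = 0`
-/

set_option autoImplicit false
open AlgebraicGeometry CategoryTheory

namespace Pool.Agent.LibHP

theorem main_curves (k : Type) [Field k] [NumberField k] {X : Scheme}
    (f : X ⟶ Spec (CommRingCat.of k)) [IsIntegral X] [Smooth f] [IsSeparated f] [QuasiCompact f]
    (hsc : GeomSimplyConnected f)
    (hdense : Dense {x : X | ∃ s : Spec (CommRingCat.of k) ⟶ X, s ≫ f = 𝟙 _ ∧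
      x ∈ Set.range s.base})
    (hcurves : ∀ x : X, ringKrullDim (X.presheaf.stalk x) = 1 →
        ∀ l : ℕ, l.Prime → ∃ m : ℕ, ¬ l ∣ m ∧ CurveMeets f x m) :
    HilbertProp f := by
  letI : Algebra k X.functionField := (toStalk f (genericPoint X)).toAlgebra
  refine main_criterion k f hsc fun S hS => ⟨X.functionField, inferInstance, inferInstance, 0,
    algebraMap X.functionField (RF X.functionField 0), densePts_functionField f (fun _ => rfl) hdense,
    ?_, ?_, fun x hx l hl => ?_⟩
  · intro c
    rw [IsScalarTower.algebraMap_apply k X.functionField (RF X.functionField 0)]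
    rfl
  · rintro e -
    exact (u_zero X.functionField).2 e
  · obtain ⟨m, hm, h⟩ := hcurves x (hS x hx) l hl
    exact ⟨m, hm, Or.inr h⟩

end Pool.Agent.LibHP
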